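import Pool.Agent.Lib.H31P.Top

/-!
# Chunk A1 (S/M): the exponent `pA`
-/

namespace Pool.Agent.Lib.H31P

private theorem A1_lo {α : ℝ} (h : α ≤ 1 / 4) : pA α = 3 * α / (2 - 3 * α) := if_pos h

private theorem A1_hi {α : ℝ} (h : 1 / 4 ≤ α) : pA α = 3 * α / (1 + α) := by
  rcases h.eq_or_lt with h' | h'
  · subst h'
    unfold pA
    norm_num
  · exact if_neg (not_le.mpr h')

private theorem A1_lip_lo {α α' : ℝ} (_h0 : 0 ≤ α) (h1 : α ≤ α') (h2 : α' ≤ 1 / 4) :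
    pA α ≤ pA α' ∧ pA α' ≤ pA α + 96 / 25 * (α' - α) := by
  rw [A1_lo (h1.trans h2), A1_lo h2]
  have p1 : 0 < 2 - 3 * α := by linarith
  have p2 : 0 < 2 - 3 * α' := by linarith
  have e : 3 * α' / (2 - 3 * α') - 3 * α / (2 - 3 * α) = 6 * (α' - α) / ((2 - 3 * α) * (2 - 3 * α')) := by
    field_simp
    ring
  have h3 : 0 ≤ 6 * (α' - α) / ((2 - 3 * α) * (2 - 3 * α')) := by
    apply div_nonneg
    · linarith
    · positivity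
  have h4 : 6 * (α' - α) / ((2 - 3 * α) * (2 - 3 * α')) ≤ 96 / 25 * (α' - α) := by
    rw [div_le_iff₀ (by positivity)]
    have h5 : 25 / 16 ≤ (2 - 3 * α) * (2 - 3 * α') := by nlinarith
    nlinarith [mul_le_mul_of_nonneg_left h5 (by linarith : 0 ≤ α' - α)]
  constructor <;> linarith

private theorem A1_lip_hi {α α' : ℝ} (h0 : 1 / 4 ≤ α) (h1 : α ≤ α') :
    pA α ≤ pA α' ∧ pA α' ≤ pA α + 3 * (α' - α) := by
  rw [A1_hi h0, A1_hi (h0.trans h1)]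
  have p1 : 0 < 1 + α := by linarith
  have p2 : 0 < 1 + α' := by linarith
  have e : 3 * α' / (1 + α') - 3 * α / (1 + α) = 3 * (α' - α) / ((1 + α) * (1 + α')) := by
    field_simp
    ring
  have h3 : 0 ≤ 3 * (α' - α) / ((1 + α) * (1 + α')) := by
    apply div_nonneg
    · linarith
    · positivity
  have h4 : 3 * (α' - α) / ((1 + α) * (1 + α')) ≤ 3 * (α' - α) := by
    rw [div_le_iff₀ (by positivity)]
    have h5 : 1 ≤ (1 + α) * (1 + α') := by nlinarith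
    nlinarith [mul_le_mul_of_nonneg_left h5 (by linarith : 0 ≤ α' - α)]
  constructor <;> linarith

private theorem A1_lip {α α' : ℝ} (h0 : 0 ≤ α) (h1 : α ≤ α') :
    pA α ≤ pA α' ∧ pA α' ≤ pA α + 96 / 25 * (α' - α) := by
  rcases le_total α' (1 / 4) with h | h
  · exact A1_lip_lo h0 h1 h
  · rcases le_total α (1 / 4) with h' | h'
    · have a := A1_lip_lo h0 h' le_rfl
      have b := A1_lip_hi le_rfl h
      constructor <;> linarith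
    · have b := A1_lip_hi h' h1
      constructor <;> linarith

private theorem A1_val0 : pA 0 = 0 := by
  unfold pA
  norm_num

/-- `0 ≤ pA α ≤ 1`, `pA α ≤ (12/5) α`, and `pA α' ≤ pA α + 4 (α' - α)` for `0 ≤ α ≤ α' ≤ 1/2`.

Proof. `α ≤ 1/4`: `3α/(2-3α)`, `2 - 3α ≥ 5/4`: `≤ (12/5) α ≤ 3/5`. `α ≥ 1/4`: `3α/(1+α)`, `1 + α ≥ 5/4`: `≤ (12/5) α`, and `3α ≤ 1 + α`.
Lipschitz: both in `[0, 1/4]`: the difference is `6(α'-α)/((2-3α)(2-3α')) ≤ 6 (16/25)(α'-α)`; both in `[1/4, 1/2]`: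
`3(α'-α)/((1+α)(1+α')) ≤ 3 (α'-α)`; mixed: through `1/4`, where both formulas give `3/5`. -/
theorem pA_bds (α α' : ℝ) (h0 : 0 ≤ α) (h1 : α ≤ α') (h2 : α' ≤ 1 / 2) :
    0 ≤ pA α ∧ pA α ≤ 1 ∧ pA α ≤ 12 / 5 * α ∧ pA α' ≤ pA α + 4 * (α' - α) := by
  have ha : α ≤ 1 / 2 := h1.trans h2
  have hp := (A1_lip le_rfl h0).1
  rw [A1_val0] at hp
  have hl := (A1_lip h0 h1).2
  have hq : pA α ≤ 12 / 5 * α := by
    rcases le_total α (1 / 4) with h | h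
    · rw [A1_lo h, div_le_iff₀ (by linarith)]
      nlinarith
    · rw [A1_hi h, div_le_iff₀ (by linarith)]
      nlinarith
  have hr : pA α ≤ 1 := by
    rcases le_total α (1 / 4) with h | h
    · linarith
    · rw [A1_hi h, div_le_one (by linarith)]
      linarith
  exact ⟨hp, hr, hq, by linarith⟩

/-- `τ pA(α) ≤ (1 - κ₃) α` for `α ≤ min(1/4, 2/3 - τ) - κ₃`, `0 ≤ τ ≤ 3/5`, `0 ≤ κ₃ ≤ 2/5`.

Proof. `α ≤ 1/4`: `pA α = 3α/(2-3α)`; `2 - 3α ≥ 3τ + 3κ₃`, and `3τ ≤ (1-κ₃)(3τ+3κ₃)` iff `0 ≤ κ₃ (1 - κ₃ - τ)`, true. -/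
theorem pA_low (τ κ₃ α : ℝ) (hτ : 0 ≤ τ) (hτ1 : τ ≤ 3 / 5) (hκ : 0 ≤ κ₃) (hκ1 : κ₃ ≤ 2 / 5) (h0 : 0 ≤ α)
    (h1 : α ≤ 1 / 4 - κ₃) (h2 : α ≤ 2 / 3 - τ - κ₃) : τ * pA α ≤ (1 - κ₃) * α := by
  have ha : α ≤ 1 / 4 := by linarith
  rw [A1_lo ha, ← mul_div_assoc, div_le_iff₀ (by linarith)]
  have h3 : 3 * τ ≤ (1 - κ₃) * (2 - 3 * α) := by
    have h4 : 3 * τ + 3 * κ₃ ≤ 2 - 3 * α := by linarith
    have h5 : 0 ≤ 1 - κ₃ := by linarith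
    have h6 := mul_le_mul_of_nonneg_left h4 h5
    have h7 : 0 ≤ κ₃ * (1 - κ₃ - τ) := mul_nonneg hκ (by linarith)
    nlinarith
  have h8 := mul_le_mul_of_nonneg_right h3 h0
  nlinarith

/-- `2α - τ pA(α) ≥ 2/3 - τ - κ/2` for `min(1/4, 2/3 - τ) - κ/100 ≤ α ≤ 1/2`, `5/12 - κ ≤ τ ≤ 1/2 + κ/100`, `0 < κ ≤ 1/10`.

Proof. `φ(α) = 2α - τ pA(α)`. On `[0, 1/4]`: `φ(α') - φ(α) = (α'-α)(2 - 6τ/((2-3α)(2-3α'))) ≥ (α'-α)(2 - 6τ(16/25)) ≥ 0`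
(`6 (16/25) τ ≤ 3.84 · 0.501 ≤ 2`), on `[1/4, 1/2]`: `≥ (α'-α)(2 - 3τ) ≥ 0`: `φ` is nondecreasing. Also `φ(α') - φ(α) ≤ 2(α'-α)`
because `pA` is nondecreasing.
Case `2/3 - τ ≤ 1/4`: `a* = 2/3 - τ`, `τ pA(a*) = 3τ a*/(2 - 3a*) = a*` (`2 - 3a* = 3τ`), so `φ(a*) = a*`,
`φ(α) ≥ φ(a* - κ/100) ≥ a* - κ/50` (`a* - κ/100 ≥ 0`). Case `2/3 - τ > 1/4`: `φ(1/4) = 1/2 - (3/5)τ`,
`φ(α) ≥ 1/2 - (3/5)τ - κ/50 ≥ 2/3 - τ - κ/2` because `(2/5)τ ≥ 1/6 - (2/5)κ`. -/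
theorem pA_high (τ κ α : ℝ) (hκ : 0 < κ) (hκ1 : κ ≤ 1 / 10) (hτ : 5 / 12 - κ ≤ τ) (hτ1 : τ ≤ 1 / 2 + κ / 100)
    (h0 : 0 ≤ α) (h1 : min (1 / 4) (2 / 3 - τ) - κ / 100 ≤ α) (h2 : α ≤ 1 / 2) :
    2 / 3 - τ - κ / 2 ≤ 2 * α - τ * pA α := by
  have hτ0 : 0 ≤ τ := by linarith
  -- monotonicity of phi
  have hmono : ∀ x y : ℝ, 0 ≤ x → x ≤ y → 2 * x - τ * pA x ≤ 2 * y - τ * pA y := by
    intro x y hx hxy
    have a := (A1_lip hx hxy).2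
    have b := mul_le_mul_of_nonneg_left a hτ0
    have c : τ * (96 / 25 * (y - x)) ≤ 2 * (y - x) := by
      have : τ * (96 / 25) ≤ 2 := by linarith
      nlinarith [mul_le_mul_of_nonneg_right this (by linarith : 0 ≤ y - x)]
    nlinarith
  have hinc : ∀ x y : ℝ, 0 ≤ x → x ≤ y → 2 * y - τ * pA y ≤ 2 * x - τ * pA x + 2 * (y - x) := by
    intro x y hx hxy
    have a := (A1_lip hx hxy).1
    have b := mul_le_mul_of_nonneg_left a hτ0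
    linarith
  rcases le_total (2 / 3 - τ) (1 / 4) with h | h
  · rw [min_eq_right h] at h1
    have hstar : τ * pA (2 / 3 - τ) = 2 / 3 - τ := by
      rw [A1_lo h]
      have : 2 - 3 * (2 / 3 - τ) = 3 * τ := by ring
      rw [this]
      have hτp : 0 < τ := by linarith
      field_simp
    have ha0 : 0 ≤ 2 / 3 - τ - κ / 100 := by linarith
    have m1 := hmono _ _ ha0 h1
    have m2 := hinc _ _ ha0 (by linarith : 2 / 3 - τ - κ / 100 ≤ 2 / 3 - τ)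
    linarith
  · rw [min_eq_left h] at h1
    have hv : pA (1 / 4) = 3 / 5 := by
      unfold pA
      norm_num
    have ha0 : (0:ℝ) ≤ 1 / 4 - κ / 100 := by linarith
    have m1 := hmono _ _ ha0 h1
    have m2 := hinc _ _ ha0 (by linarith : 1 / 4 - κ / 100 ≤ 1 / 4)
    rw [hv] at m2
    linarith

end Pool.Agent.Lib.H31P
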