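import Pool.Agent.Lib.H31P.ADefs
import Pool.Agent.Lib.H31W.P3

/-!
# Chunk A2 (S/M): the sets `US`
-/

open Finset MeasureTheory

namespace Pool.Agent.Lib.H31P

open Pool.Agent.Lib.H31W

/-- `Di` is continuous (`DD_continuous`), so `US` is the intersection of two measurable conditions on `|t|` and finitely many closed ones. -/
theorem US_measurable (V j : ℕ) (c : Fin (2 * j) → ℕ) (δ₀ X : ℝ) (s : ℕ) : MeasurableSet (US V j c δ₀ X s) := by
  have h1 : US V j c δ₀ X s = {t : ℝ | Real.exp (4 * ell X) < |t|} ∩ ({t : ℝ | |t| ≤ X ^ 2} ∩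
      ⋂ k ∈ lng δ₀ X c, {t : ℝ | ‖Di (fac V j k (c k)) (c k) t‖ ≤
        Real.exp (-((s : ℝ) / Real.log X * (c k : ℝ)))}) := by
    ext t
    simp only [US, Set.mem_inter_iff, Set.mem_iInter]
    exact Iff.rfl
  rw [h1]
  refine MeasurableSet.inter (measurableSet_lt measurable_const measurable_id.abs) ?_
  refine MeasurableSet.inter (measurableSet_le measurable_id.abs measurable_const) ?_
  refine Finset.measurableSet_biInter _ fun k _ => ?_
  refine measurableSet_le ?_ measurable_const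
  have h2 : Continuous fun t : ℝ => Di (fac V j k (c k)) (c k) t := DD_continuous _ _
  exact h2.norm.measurable

/-- `exp (-(s/log X) c_k)` decreases in `s` (`X ≥ 3`). -/
theorem US_antitone (V j : ℕ) (c : Fin (2 * j) → ℕ) (δ₀ X : ℝ) (hX : 3 ≤ X) (s s' : ℕ) (h : s ≤ s') :
    US V j c δ₀ X s' ⊆ US V j c δ₀ X s := by
  rintro t ⟨h1, h2, h3⟩
  refine ⟨h1, h2, fun k hk => (h3 k hk).trans ?_⟩
  have hlog : 0 < Real.log X := Real.log_pos (by linarith)
  have hs : (s : ℝ) ≤ (s' : ℝ) := by exact_mod_cast h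
  apply Real.exp_le_exp.2
  apply neg_le_neg
  exact mul_le_mul_of_nonneg_right (div_le_div_of_nonneg_right hs hlog.le) (Nat.cast_nonneg _)

/-- **The classes `s ≤ ℓ/2` are empty.**

Proof. `SupStm` (with `δ = δ₀`): for a long `k`, `c_k ≤ (3/2) log X` (`c_k ≤ ∑ c ≤ log X + 4J + 4`), and `exp (4ℓ) ≤ |t| ≤ X²`:
`‖Di (fac V j k (c k)) (c k) t‖ ≤ exp (-ℓ)` (`fac` is `fM`, `fS` or `fL`), and `exp (-ℓ) ≤ exp (-(s/log X) c_k)` because
`s c_k ≤ (ℓ/2)(3/2) log X ≤ ℓ log X`. -/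
theorem US_low (hS : SupStm) (J : ℕ) (δ₀ : ℝ) (hδ : 0 < δ₀) : ∃ X₀ : ℝ, 3 ≤ X₀ ∧ ∀ X η : ℝ, X₀ ≤ X →
    ∀ (V j : ℕ) (c : Fin (2 * j) → ℕ), BoxHyp J X η j c → ∀ s : ℕ, (s : ℝ) ≤ ell X / 2 → ∀ t : ℝ,
    Real.exp (4 * ell X) < |t| → |t| ≤ X ^ 2 → t ∈ US V j c δ₀ X s := by
  obtain ⟨K, hK1, hK⟩ := hS δ₀ hδ
  refine ⟨max (max K 3) (Real.exp (8 * J + 8)), (le_max_right _ _).trans (le_max_left _ _), ?_⟩
  intro X η hX V j c hB s hs t ht1 ht2
  have hXK : K ≤ X := ((le_max_left _ _).trans (le_max_left _ _)).trans hX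
  have hX3 : 3 ≤ X := ((le_max_right _ _).trans (le_max_left _ _)).trans hX
  have hXe : Real.exp (8 * J + 8) ≤ X := (le_max_right _ _).trans hX
  have hlog : 0 < Real.log X := Real.log_pos (by linarith)
  have hlog2 : 8 * (J : ℝ) + 8 ≤ Real.log X := by
    rw [Real.le_log_iff_exp_le (by linarith)]
    exact hXe
  have hell : 0 ≤ ell X := Real.rpow_nonneg hlog.le _
  have hsum : (∑ k, (c k : ℝ)) ≤ Real.log X + (4 * J + 4) := by
    have := (abs_le.1 hB.hc).2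
    linarith
  have hck : ∀ k, (c k : ℝ) ≤ 3 / 2 * Real.log X := by
    intro k
    have h1 : (c k : ℝ) ≤ ∑ k, (c k : ℝ) :=
      Finset.single_le_sum (f := fun k => (c k : ℝ)) (fun i _ => Nat.cast_nonneg _) (Finset.mem_univ k)
    linarith
  refine ⟨ht1, ht2, fun k hk => ?_⟩
  have hk1 : δ₀ * Real.log X ≤ c k := (Finset.mem_filter.1 hk).2
  obtain ⟨hM, hSm, hL⟩ := hK X hXK (c k) V t hk1 (hck k) ht1.le ht2
  have h5 : ‖Di (fac V j k (c k)) (c k) t‖ ≤ Real.exp (-ell X) := by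
    unfold fac
    split_ifs
    · exact hM
    · exact hSm
    · exact hL
  refine h5.trans (Real.exp_le_exp.2 (neg_le_neg ?_))
  have h6 : (s : ℝ) / Real.log X * (c k : ℝ) ≤ (s : ℝ) / Real.log X * (3 / 2 * Real.log X) :=
    mul_le_mul_of_nonneg_left (hck k) (div_nonneg (Nat.cast_nonneg _) hlog.le)
  have h7 : (s : ℝ) / Real.log X * (3 / 2 * Real.log X) = 3 / 2 * (s : ℝ) := by
    field_simp
  rw [h7] at h6
  linarith

end Pool.Agent.Lib.H31P
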