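import Pool.Agent.Lib.H31P.A2
import Pool.Agent.Lib.H31P.A1

/-!
# Chunk A3 (M): the measure of a class
-/

open Finset MeasureTheory

namespace Pool.Agent.Lib.H31P

open Pool.Agent.Lib.H31W

/-- The class is covered by the sets of large values of the long factors. -/
private theorem cls_cover (V j : ℕ) (c : Fin (2 * j) → ℕ) (δ₀ X : ℝ) (s : ℕ) (T T' : ℝ) (hT' : T' = min T (X ^ 2)) :
    (US V j c δ₀ X s \ US V j c δ₀ X (s + 1)) ∩ {t | |t| ≤ T} ⊆
      ⋃ k ∈ lng δ₀ X c, {t : ℝ | |t| ≤ T' ∧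
        Real.exp (-(((s : ℝ) + 1) / Real.log X * (c k : ℝ))) < ‖Di (fac V j k (c k)) (c k) t‖} := by
  rintro t ⟨⟨h1, h2⟩, h3⟩
  obtain ⟨ha, hb, _⟩ := h1
  have h3' : |t| ≤ T := h3
  have h4 : ¬ ∀ k ∈ lng δ₀ X c, ‖Di (fac V j k (c k)) (c k) t‖ ≤
      Real.exp (-(((s + 1 : ℕ) : ℝ) / Real.log X * (c k : ℝ))) := fun h => h2 ⟨ha, hb, h⟩
  push Not at h4
  obtain ⟨k, hk, hlt⟩ := h4
  refine Set.mem_iUnion₂.mpr ⟨k, hk, ?_, ?_⟩
  · rw [hT']
    exact le_min h3' hb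
  · rw [Nat.cast_add, Nat.cast_one] at hlt
    exact hlt

/-- The elementary inequality at the end. -/
private theorem cls_num (J s : ℕ) (κ' C₁ L X T T' : ℝ) (hκ : 0 < κ') (hκ1 : κ' ≤ 1 / 10) (hL : L = Real.log X)
    (hX : 3 ≤ X) (hJL : 2 * (J : ℝ) * Real.exp 9 ≤ L) (hL1 : 1 ≤ L) (hs : (s : ℝ) + 1 ≤ L / 2) (hT1 : 1 ≤ T')
    (hT2 : T' ≤ X ^ 2) (hTT : T' ≤ T) :
    2 * (J : ℝ) * (L ^ C₁ * X ^ (κ' * (((s : ℝ) + 1) / L)) * T' ^ pA (((s : ℝ) + 1) / L)) ≤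
      L ^ (C₁ + 1) * Real.exp (κ' * s) * T ^ pA (s / L) := by
  have hX0 : 0 < X := by linarith
  have hL0 : 0 < L := by linarith
  have hs0 : (0 : ℝ) ≤ s := Nat.cast_nonneg s
  have hT0 : 0 < T' := by linarith
  have e1 : X ^ (κ' * (((s : ℝ) + 1) / L)) ≤ Real.exp 1 * Real.exp (κ' * s) := by
    rw [Real.rpow_def_of_pos hX0, ← hL, ← Real.exp_add]
    apply Real.exp_le_exp.mpr
    have h : L * (κ' * (((s : ℝ) + 1) / L)) = κ' * (s + 1) := by
      field_simp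
    rw [h]
    nlinarith
  have hα : ((s : ℝ) + 1) / L ≤ 1 / 2 := by
    rw [div_le_iff₀ hL0]
    linarith
  have hα0 : 0 ≤ (s : ℝ) / L := by positivity
  have hαα : (s : ℝ) / L ≤ ((s : ℝ) + 1) / L := by
    apply div_le_div_of_nonneg_right _ hL0.le
    linarith
  have hp := pA_bds ((s : ℝ) / L) (((s : ℝ) + 1) / L) hα0 hαα hα
  have hd : ((s : ℝ) + 1) / L - (s : ℝ) / L = 1 / L := by
    rw [← sub_div]
    congr 1
    ring
  have hp4 : pA (((s : ℝ) + 1) / L) ≤ pA ((s : ℝ) / L) + 4 / L := by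
    have h := hp.2.2.2
    rw [hd] at h
    have h2 : 4 * (1 / L) = 4 / L := by ring
    linarith
  have e2 : T' ^ pA (((s : ℝ) + 1) / L) ≤ T ^ pA ((s : ℝ) / L) * Real.exp 8 := by
    calc T' ^ pA (((s : ℝ) + 1) / L) ≤ T' ^ (pA ((s : ℝ) / L) + 4 / L) :=
          Real.rpow_le_rpow_of_exponent_le hT1 hp4
      _ = T' ^ pA ((s : ℝ) / L) * T' ^ (4 / L) := Real.rpow_add hT0 _ _
      _ ≤ T ^ pA ((s : ℝ) / L) * Real.exp 8 := by
          apply mul_le_mul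
          · exact Real.rpow_le_rpow hT0.le hTT hp.1
          · rw [Real.rpow_def_of_pos hT0]
            apply Real.exp_le_exp.mpr
            have hlog : Real.log T' ≤ 2 * L := by
              have h := Real.log_le_log hT0 hT2
              rw [Real.log_pow] at h
              rw [hL]
              push_cast at h
              exact h
            calc Real.log T' * (4 / L) ≤ 2 * L * (4 / L) := by
                  apply mul_le_mul_of_nonneg_right hlog (by positivity)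
              _ = 8 := by field_simp; norm_num
          · positivity
          · exact Real.rpow_nonneg (by linarith) _
  have hC0 : 0 ≤ L ^ C₁ := Real.rpow_nonneg hL0.le _
  have hXp : 0 ≤ X ^ (κ' * (((s : ℝ) + 1) / L)) := Real.rpow_nonneg hX0.le _
  have hTp : 0 ≤ T ^ pA ((s : ℝ) / L) := Real.rpow_nonneg (by linarith) _
  have hT'p : 0 ≤ T' ^ pA (((s : ℝ) + 1) / L) := Real.rpow_nonneg hT0.le _
  have hJ0 : (0 : ℝ) ≤ J := Nat.cast_nonneg J
  calc 2 * (J : ℝ) * (L ^ C₁ * X ^ (κ' * (((s : ℝ) + 1) / L)) * T' ^ pA (((s : ℝ) + 1) / L))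
      ≤ 2 * (J : ℝ) * (L ^ C₁ * (Real.exp 1 * Real.exp (κ' * s)) * (T ^ pA ((s : ℝ) / L) * Real.exp 8)) := by
        apply mul_le_mul_of_nonneg_left _ (by positivity)
        apply mul_le_mul _ e2 hT'p (by positivity)
        exact mul_le_mul_of_nonneg_left e1 hC0
    _ = (2 * (J : ℝ) * (Real.exp 1 * Real.exp 8)) * (L ^ C₁ * Real.exp (κ' * s) * T ^ pA ((s : ℝ) / L)) := by ring
    _ = (2 * (J : ℝ) * Real.exp 9) * (L ^ C₁ * Real.exp (κ' * s) * T ^ pA ((s : ℝ) / L)) := by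
        rw [← Real.exp_add]
        norm_num
    _ ≤ L * (L ^ C₁ * Real.exp (κ' * s) * T ^ pA ((s : ℝ) / L)) := by
        apply mul_le_mul_of_nonneg_right hJL
        positivity
    _ = L ^ (C₁ + 1) * Real.exp (κ' * s) * T ^ pA (s / L) := by
        rw [Real.rpow_add hL0, Real.rpow_one]
        ring

/-- **Measure of a class.** `J ≥ 13`.

Proof. `α = (s+1)/log X ≤ 1/2`. If `t ∈ US s \ US (s+1)` then some long `k` has `‖Di (fac ..) t‖ > exp (-α c_k)`. First let `1/η ≤ T ≤ X²`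
(`X^(1/3) ≤ X^(2/5) ≤ 1/η`). Union bound over the at most `2j ≤ 2J` long `k` and `MLStm` (`κ = κ'`, `δ = δ₀`, constant `C₁`) with
`κ' ≤ 1/10`: `k < j`: type `fM`, `c_k ≤ log X/J + 4 ≤ log X/12` for large `X` because `J ≥ 13`; `k ≥ j`: type `fS` or `fL`,
`c_k ≤ log (1/η) + (2/25) log X ≤ (6/5) log (1/η) ≤ (6/5) log T` because `log (1/η) ≥ (2/5) log X`. The measure is at most
`2J (log X)^(C₁) X^(κ'α) T^(pA α)`, `X^(κ'α) = exp (κ'(s+1)) ≤ e exp (κ' s)`, and `T^(pA α) ≤ T^(pA (s/log X)) T^(4/log X)` (`pA_bds`),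
`T ≤ X²` gives `T^(4/log X) ≤ e^8`. If `T > X²` use `T = X²` (`US ⊆ {|t| ≤ X²}`, `pA ≥ 0`). -/
theorem cls_meas (hM : MLStm) (J : ℕ) (hJ : 13 ≤ J) (κ' δ₀ : ℝ) (hκ : 0 < κ') (hκ1 : κ' ≤ 1 / 10) (hδ : 0 < δ₀) :
    ∃ C X₀ : ℝ, 1 ≤ C ∧ 3 ≤ X₀ ∧ ∀ X η : ℝ, X₀ ≤ X → ∀ (V j : ℕ) (c : Fin (2 * j) → ℕ), BoxHyp J X η j c →
    ∀ s : ℕ, (s : ℝ) + 1 ≤ Real.log X / 2 → ∀ T : ℝ, 1 / η ≤ T →
    volume ((US V j c δ₀ X s \ US V j c δ₀ X (s + 1)) ∩ {t | |t| ≤ T}) ≤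
      ENNReal.ofReal (Real.log X ^ C * Real.exp (κ' * s) * T ^ pA (s / Real.log X)) := by
  obtain ⟨C₁, X₁, hC₁, hX₁, hML⟩ := hM κ' δ₀ hκ hκ1 hδ
  refine ⟨C₁ + 1, max X₁ (max (Real.exp 624) (Real.exp (2 * (J : ℝ) * Real.exp 9))), by linarith,
    le_max_of_le_left hX₁, ?_⟩
  intro X η hX V j c hB s hs T hT
  have hX1 : X₁ ≤ X := le_trans (le_max_left _ _) hX
  have hX2 : Real.exp 624 ≤ X := le_trans (le_trans (le_max_left _ _) (le_max_right _ _)) hX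
  have hX3 : Real.exp (2 * (J : ℝ) * Real.exp 9) ≤ X := le_trans (le_trans (le_max_right _ _) (le_max_right _ _)) hX
  have hX0 : 0 < X := lt_of_lt_of_le (Real.exp_pos _) hX2
  have hX625 : 625 ≤ X := by
    have := Real.add_one_le_exp (624 : ℝ)
    linarith
  set L := Real.log X with hL
  have hL624 : 624 ≤ L := by
    have := Real.log_le_log (Real.exp_pos _) hX2
    rwa [Real.log_exp] at this
  have hJL : 2 * (J : ℝ) * Real.exp 9 ≤ L := by
    have := Real.log_le_log (Real.exp_pos _) hX3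
    rwa [Real.log_exp] at this
  have hL0 : 0 < L := by linarith
  -- η
  have hsq : 0 < Real.sqrt X := Real.sqrt_pos.mpr hX0
  have hη0 : 0 < η := lt_of_lt_of_le (by positivity) hB.hη
  have hη2 : 1 / η ≤ 10 * Real.sqrt X := by
    rw [div_le_iff₀ hη0]
    have h := hB.hη
    rw [div_le_iff₀ (by positivity)] at h
    linarith [mul_comm η (10 * Real.sqrt X)]
  have hsX : Real.sqrt X ≤ X := by
    rw [Real.sqrt_le_left hX0.le]
    nlinarith
  have hη3 : 1 / η ≤ X ^ 2 := by nlinarith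
  have hη4 : X ^ (2 / 5 : ℝ) ≤ 1 / η := by
    rw [le_div_iff₀ hη0]
    calc X ^ (2 / 5 : ℝ) * η ≤ X ^ (2 / 5 : ℝ) * X ^ (-(2 / 5) : ℝ) :=
          mul_le_mul_of_nonneg_left hB.hη1 (Real.rpow_nonneg hX0.le _)
      _ = 1 := by
          rw [← Real.rpow_add hX0]
          norm_num
  set T' := min T (X ^ 2) with hT'
  have hT'1 : 1 / η ≤ T' := le_min hT hη3
  have hT'2 : T' ≤ X ^ 2 := min_le_right _ _
  have hT'3 : T' ≤ T := min_le_left _ _
  have hX13 : X ^ (1 / 3 : ℝ) ≤ T' := by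
    refine le_trans ?_ (le_trans hη4 hT'1)
    exact Real.rpow_le_rpow_of_exponent_le (by linarith) (by norm_num)
  have hT'4 : 1 ≤ T' := le_trans (Real.one_le_rpow (by linarith) (by norm_num)) hX13
  have hlogη : 2 / 5 * L ≤ Real.log (1 / η) := by
    have h := Real.log_le_log (Real.rpow_pos_of_pos hX0 _) hη4
    rwa [Real.log_rpow hX0] at h
  have hlogT : Real.log (1 / η) ≤ Real.log T' := Real.log_le_log (by positivity) hT'1
  have hα0 : 0 ≤ ((s : ℝ) + 1) / L := by positivity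
  have hα1 : ((s : ℝ) + 1) / L ≤ 1 / 2 := by
    rw [div_le_iff₀ hL0]
    linarith
  -- one factor
  have hone : ∀ k ∈ lng δ₀ X c, volume {t : ℝ | |t| ≤ T' ∧
        Real.exp (-(((s : ℝ) + 1) / L * (c k : ℝ))) < ‖Di (fac V j k (c k)) (c k) t‖} ≤
      ENNReal.ofReal (L ^ C₁ * X ^ (κ' * (((s : ℝ) + 1) / L)) * T' ^ pA (((s : ℝ) + 1) / L)) := by
    intro k hk
    have hkl : δ₀ * Real.log X ≤ c k := by
      simpa [lng] using hk
    obtain ⟨m1, m2, m3⟩ := hML X T' (((s : ℝ) + 1) / L) hX1 hX13 hT'2 hα0 hα1 (c k) V hkl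
    by_cases hkj : (k : ℕ) < j
    · have hfac : fac V j k (c k) = fM V (c k) := by simp [fac, hkj]
      rw [hfac]
      apply m1
      have h1 := hB.hcm k hkj
      have hJ' : (13 : ℝ) ≤ J := by exact_mod_cast hJ
      have h2 : L / (J : ℝ) ≤ L / 13 := div_le_div_of_nonneg_left hL0.le (by norm_num) hJ'
      rw [← hL] at h1 ⊢
      linarith
    · have hkj' : j ≤ (k : ℕ) := not_lt.mp hkj
      have h1 := hB.hcs k hkj'
      rw [← hL] at h1
      have h2 : (c k : ℝ) ≤ 6 / 5 * Real.log T' := by linarith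
      by_cases hk2 : (k : ℕ) + 1 < 2 * j
      · have hfac : fac V j k (c k) = fS (c k) := by simp [fac, hkj, hk2]
        rw [hfac]
        exact m2 h2
      · have hfac : fac V j k (c k) = fL (c k) := by simp [fac, hkj, hk2]
        rw [hfac]
        exact m3 h2
  have hcard : ((lng δ₀ X c).card : ℝ) ≤ 2 * J := by
    have h1 : (lng δ₀ X c).card ≤ 2 * j := by
      have := Finset.card_filter_le (Finset.univ : Finset (Fin (2 * j))) (fun k => δ₀ * Real.log X ≤ c k)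
      simpa [lng] using this
    have h2 : (lng δ₀ X c).card ≤ 2 * J := le_trans h1 (Nat.mul_le_mul_left 2 hB.hJ)
    exact_mod_cast h2
  have hnn : 0 ≤ L ^ C₁ * X ^ (κ' * (((s : ℝ) + 1) / L)) * T' ^ pA (((s : ℝ) + 1) / L) := by
    have := Real.rpow_nonneg (show (0 : ℝ) ≤ T' by linarith) (pA (((s : ℝ) + 1) / L))
    positivity
  calc volume ((US V j c δ₀ X s \ US V j c δ₀ X (s + 1)) ∩ {t | |t| ≤ T})
      ≤ volume (⋃ k ∈ lng δ₀ X c, {t : ℝ | |t| ≤ T' ∧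
        Real.exp (-(((s : ℝ) + 1) / Real.log X * (c k : ℝ))) < ‖Di (fac V j k (c k)) (c k) t‖}) :=
        measure_mono (cls_cover V j c δ₀ X s T T' hT')
    _ ≤ ∑ k ∈ lng δ₀ X c, volume {t : ℝ | |t| ≤ T' ∧
        Real.exp (-(((s : ℝ) + 1) / Real.log X * (c k : ℝ))) < ‖Di (fac V j k (c k)) (c k) t‖} :=
        measure_biUnion_finset_le _ _
    _ ≤ ∑ _k ∈ lng δ₀ X c,
        ENNReal.ofReal (L ^ C₁ * X ^ (κ' * (((s : ℝ) + 1) / L)) * T' ^ pA (((s : ℝ) + 1) / L)) :=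
        Finset.sum_le_sum hone
    _ = ENNReal.ofReal (((lng δ₀ X c).card : ℝ) *
        (L ^ C₁ * X ^ (κ' * (((s : ℝ) + 1) / L)) * T' ^ pA (((s : ℝ) + 1) / L))) := by
        rw [Finset.sum_const, nsmul_eq_mul, ENNReal.ofReal_mul (Nat.cast_nonneg _), ENNReal.ofReal_natCast]
    _ ≤ ENNReal.ofReal (2 * (J : ℝ) *
        (L ^ C₁ * X ^ (κ' * (((s : ℝ) + 1) / L)) * T' ^ pA (((s : ℝ) + 1) / L))) :=
        ENNReal.ofReal_le_ofReal (mul_le_mul_of_nonneg_right hcard hnn)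
    _ ≤ ENNReal.ofReal (L ^ (C₁ + 1) * Real.exp (κ' * s) * T ^ pA (s / L)) :=
        ENNReal.ofReal_le_ofReal (cls_num J s κ' C₁ L X T T' hκ hκ1 hL (by linarith) hJL (by linarith) hs
          hT'4 hT'2 hT'3)

end Pool.Agent.Lib.H31P
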