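import Pool.Agent.Lib.H31P.ADefs
import Pool.Agent.Lib.H31W.P3

/-!
# Chunk A4 (M): dyadic summation over `|t|`
-/

open Finset MeasureTheory

namespace Pool.Agent.Lib.H31P

open Pool.Agent.Lib.H31W

/-- `ww ≤ 2`, `ww ≤ 4/(η|t|)` for `η ≤ η₁`, `ww ≤ 2 η₁ |t|`; measurable.

Proof. `mm_le_one`, `mm_decay` (`2/(η|t|) + 2/(η₁|t|)`), `mm_sub_one` (`mm η - mm η₁ = (mm η - 1) - (mm η₁ - 1)`), `mm_continuous`. -/
theorem ww_bds (X η t : ℝ) (hη : 0 < η) (h : η ≤ eta1 X) :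
    ww X η t ≤ 2 ∧ (t ≠ 0 → ww X η t ≤ 4 / (η * |t|)) ∧ ww X η t ≤ 2 * eta1 X * |t| := by
  have h1 : 0 < eta1 X := Real.exp_pos _
  unfold ww
  refine ⟨?_, ?_, ?_⟩
  · have := norm_sub_le (mm η t) (mm (eta1 X) t)
    have e1 := mm_le_one η t
    have e2 := mm_le_one (eta1 X) t
    linarith
  · intro ht
    have := norm_sub_le (mm η t) (mm (eta1 X) t)
    have e1 := mm_decay η t hη ht
    have e2 := mm_decay (eta1 X) t h1 ht
    have ht0 : 0 < |t| := abs_pos.mpr ht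
    have e3 : 2 / (eta1 X * |t|) ≤ 2 / (η * |t|) := by
      refine div_le_div_of_nonneg_left (by norm_num) (mul_pos hη ht0) ?_
      exact mul_le_mul_of_nonneg_right h ht0.le
    have e4 : 4 / (η * |t|) = 2 / (η * |t|) + 2 / (η * |t|) := by ring
    linarith
  · have e0 : mm η t - mm (eta1 X) t = (mm η t - 1) - (mm (eta1 X) t - 1) := by ring
    rw [e0]
    have := norm_sub_le (mm η t - 1) (mm (eta1 X) t - 1)
    have e1 := mm_sub_one η t hη.le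
    have e2 := mm_sub_one (eta1 X) t h1.le
    have e3 : η * |t| ≤ eta1 X * |t| := mul_le_mul_of_nonneg_right h (abs_nonneg t)
    linarith

theorem ww_measurable (X η : ℝ) : Measurable (ww X η) := by
  unfold ww
  exact ((mm_continuous η).sub (mm_continuous (eta1 X))).norm.measurable

private theorem a4_gen (S : Set ℝ) (hS : MeasurableSet S) (g : ℝ → ENNReal) (T0 : ℝ) (a m : ℕ → ℝ)
    (ha : ∀ i, 0 ≤ a i) (hm0 : ∀ i, 0 ≤ m i) (h0 : ∀ t ∈ S, g t ≤ ENNReal.ofReal (a 0))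
    (h : ∀ i, ∀ t ∈ S, T0 * 2 ^ i < |t| → g t ≤ ENNReal.ofReal (a (i + 1)))
    (hv : ∀ i : ℕ, volume (S ∩ {t | |t| ≤ T0 * 2 ^ i}) ≤ ENNReal.ofReal (m i)) (n : ℕ) :
    ∫⁻ t in S ∩ {t | |t| ≤ T0 * 2 ^ n}, g t ≤ ENNReal.ofReal (∑ i ∈ range (n + 1), a i * m i) := by
  have hms : ∀ i : ℕ, MeasurableSet (S ∩ {t : ℝ | |t| ≤ T0 * 2 ^ i}) := fun i =>
    hS.inter (measurableSet_le (by fun_prop) (by fun_prop))
  have hb : ∀ (A : Set ℝ) (c v : ℝ), MeasurableSet A → 0 ≤ c → 0 ≤ v → (∀ t ∈ A, g t ≤ ENNReal.ofReal c) →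
      volume A ≤ ENNReal.ofReal v → ∫⁻ t in A, g t ≤ ENNReal.ofReal (c * v) := by
    intro A c v hA hc _ hg hvA
    calc ∫⁻ t in A, g t ≤ ∫⁻ _t in A, ENNReal.ofReal c := setLIntegral_mono' hA hg
      _ = ENNReal.ofReal c * volume A := by rw [setLIntegral_const]
      _ ≤ ENNReal.ofReal c * ENNReal.ofReal v := by gcongr
      _ = ENNReal.ofReal (c * v) := (ENNReal.ofReal_mul hc).symm
  induction n with
  | zero =>
    rw [sum_range_one]
    exact hb _ _ _ (hms 0) (ha 0) (hm0 0) (fun t ht => h0 t ht.1) (hv 0)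
  | succ n ih =>
    rw [sum_range_succ, ENNReal.ofReal_add (sum_nonneg fun i _ => mul_nonneg (ha i) (hm0 i))
      (mul_nonneg (ha _) (hm0 _))]
    have hsub : S ∩ {t : ℝ | |t| ≤ T0 * 2 ^ (n + 1)} ⊆
        (S ∩ {t | |t| ≤ T0 * 2 ^ n}) ∪ ((S ∩ {t | |t| ≤ T0 * 2 ^ (n + 1)}) \ {t | |t| ≤ T0 * 2 ^ n}) := by
      intro t ht
      by_cases h' : |t| ≤ T0 * 2 ^ n
      · exact Or.inl ⟨ht.1, h'⟩
      · exact Or.inr ⟨ht, h'⟩
    refine (lintegral_mono_set hsub).trans ((lintegral_union_le _ _ _).trans (add_le_add ih ?_))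
    refine hb _ _ _ ((hms (n + 1)).diff (measurableSet_le (by fun_prop) (by fun_prop))) (ha _) (hm0 _) ?_
      ((measure_mono Set.sdiff_subset).trans (hv (n + 1)))
    intro t ht
    exact h n t ht.1.1 (not_le.mp ht.2)

/-- **Dyadic summation.** `S ⊆ {|t| ≤ 2^n/η}` has `vol (S ∩ {|t| ≤ T}) ≤ H T^p` for all `T ≥ 1/η`, `0 ≤ p ≤ 1`, and `D` is at most `M` on `S`.

Proof. `T* = 1/η`. Split `S` into `S ∩ {|t| ≤ T*}` and `S ∩ {T* 2^(i-1) < |t| ≤ T* 2^i}`, `i = 1, ..., n` (`lintegral_union_le`,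
`lintegral_iUnion_le`/ induction on `n`). On the first `ww ≤ 2` and the measure is `≤ H T*^p`; on the `i`-th `ww ≤ 4 · 2^(1-i) = 8 · 2^(-i)` and
the measure is `≤ H T*^p 2^(ip) ≤ H T*^p 2^i`. The first integral is at most `M H T*^p (2 + 8n)`, the second one at most
`M² H T*^p (4 + ∑ 64 · 4^(-i) 2^i) ≤ 68 M² H T*^p`. -/
theorem dyad_sum (X η : ℝ) (hη : 0 < η) (hη1 : η ≤ eta1 X) (D : ℝ → ℂ) (S : Set ℝ) (hS : MeasurableSet S) (M H p : ℝ) (n : ℕ)
    (hM : 0 ≤ M) (hH : 0 ≤ H) (hp : 0 ≤ p) (hp1 : p ≤ 1) (hD : ∀ t ∈ S, ‖D t‖ ≤ M)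
    (hSn : ∀ t ∈ S, |t| ≤ 1 / η * 2 ^ n)
    (hm : ∀ T : ℝ, 1 / η ≤ T → volume (S ∩ {t | |t| ≤ T}) ≤ ENNReal.ofReal (H * T ^ p)) :
    ∫⁻ t in S, ENNReal.ofReal (‖D t‖ * ww X η t) ≤ ENNReal.ofReal ((8 * n + 2) * (M * (H * (1 / η) ^ p))) ∧
    ∫⁻ t in S, ENNReal.ofReal (‖D t‖ ^ 2 * ww X η t ^ 2) ≤ ENNReal.ofReal (68 * (M ^ 2 * (H * (1 / η) ^ p))) := by
  have hT0 : 0 < 1 / η := by positivity
  set T0 : ℝ := 1 / η with hT0d
  have hSe : S ∩ {t | |t| ≤ T0 * 2 ^ n} = S := Set.inter_eq_left.mpr fun t ht => hSn t ht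
  have hww0 : ∀ t, 0 ≤ ww X η t := fun t => norm_nonneg _
  have hq0 : 0 ≤ H * T0 ^ p := by positivity
  -- the measures
  have hmi : ∀ i : ℕ, H * (T0 * 2 ^ i) ^ p ≤ (H * T0 ^ p) * 2 ^ i := by
    intro i
    have h2 : (1 : ℝ) ≤ 2 ^ i := one_le_pow₀ (by norm_num)
    rw [Real.mul_rpow hT0.le (by positivity), ← mul_assoc]
    refine mul_le_mul_of_nonneg_left ?_ hq0
    calc ((2 : ℝ) ^ i) ^ p ≤ ((2 : ℝ) ^ i) ^ (1 : ℝ) := Real.rpow_le_rpow_of_exponent_le h2 hp1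
      _ = 2 ^ i := Real.rpow_one _
  have hv : ∀ i : ℕ, volume (S ∩ {t | |t| ≤ T0 * 2 ^ i}) ≤ ENNReal.ofReal ((H * T0 ^ p) * 2 ^ i) := by
    intro i
    have h2 : (1 : ℝ) ≤ 2 ^ i := one_le_pow₀ (by norm_num)
    refine (hm (T0 * 2 ^ i) (by nlinarith)).trans (ENNReal.ofReal_le_ofReal (hmi i))
  -- the weight
  have hwi : ∀ i : ℕ, ∀ t : ℝ, T0 * 2 ^ i < |t| → ww X η t ≤ 4 * (1 / 2) ^ i := by
    intro i t ht
    have h2 : (0 : ℝ) < 2 ^ i := by positivity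
    have ht0 : 0 < |t| := lt_trans (by positivity) ht
    have ht' : t ≠ 0 := abs_pos.mp ht0
    refine ((ww_bds X η t hη hη1).2.1 ht').trans ?_
    rw [div_le_iff₀ (mul_pos hη ht0)]
    have e1 : η * T0 = 1 := by rw [hT0d]; field_simp
    have e2 : (2 : ℝ) ^ i ≤ η * |t| := by
      have := mul_le_mul_of_nonneg_left ht.le hη.le
      rw [← mul_assoc, e1, one_mul] at this
      exact this
    have e3 : ((1 : ℝ) / 2) ^ i * 2 ^ i = 1 := by
      rw [← mul_pow]; norm_num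
    have e4 : (0 : ℝ) < (1 / 2) ^ i := by positivity
    nlinarith [mul_le_mul_of_nonneg_left e2 e4.le]
  constructor
  · have hgen := a4_gen S hS (fun t => ENNReal.ofReal (‖D t‖ * ww X η t)) T0
      (fun i => if i = 0 then 2 * M else M * (8 * (1 / 2) ^ i)) (fun i => (H * T0 ^ p) * 2 ^ i)
      (by intro i; split_ifs <;> positivity) (by intro i; positivity)
      (by
        intro t ht
        refine ENNReal.ofReal_le_ofReal ?_
        simp only [if_true]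
        have := mul_le_mul (hD t ht) (ww_bds X η t hη hη1).1 (hww0 t) hM
        linarith)
      (by
        intro i t ht hti
        refine ENNReal.ofReal_le_ofReal ?_
        rw [if_neg (by omega)]
        have := mul_le_mul (hD t ht) (hwi i t hti) (hww0 t) hM
        refine this.trans (le_of_eq ?_)
        ring)
      hv n
    rw [hSe] at hgen
    refine hgen.trans (ENNReal.ofReal_le_ofReal ?_)
    rw [sum_range_succ']
    simp only [if_true, pow_zero, mul_one]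
    have hs : ∑ i ∈ range n, (if i + 1 = 0 then 2 * M else M * (8 * (1 / 2 : ℝ) ^ (i + 1))) * ((H * T0 ^ p) * 2 ^ (i + 1)) =
        ∑ _i ∈ range n, 8 * (M * (H * T0 ^ p)) := by
      refine sum_congr rfl fun i _ => ?_
      rw [if_neg (by omega)]
      have e3 : ((1 : ℝ) / 2) ^ (i + 1) * 2 ^ (i + 1) = 1 := by
        rw [← mul_pow]; norm_num
      calc M * (8 * (1 / 2 : ℝ) ^ (i + 1)) * ((H * T0 ^ p) * 2 ^ (i + 1)) =
          8 * (M * (H * T0 ^ p)) * ((1 / 2 : ℝ) ^ (i + 1) * 2 ^ (i + 1)) := by ring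
        _ = _ := by rw [e3, mul_one]
    rw [hs, sum_const, card_range, nsmul_eq_mul]
    refine le_of_eq ?_
    ring
  · have hgen := a4_gen S hS (fun t => ENNReal.ofReal (‖D t‖ ^ 2 * ww X η t ^ 2)) T0
      (fun i => if i = 0 then 4 * M ^ 2 else M ^ 2 * (64 * ((1 / 2) ^ i) ^ 2)) (fun i => (H * T0 ^ p) * 2 ^ i)
      (by intro i; split_ifs <;> positivity) (by intro i; positivity)
      (by
        intro t ht
        refine ENNReal.ofReal_le_ofReal ?_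
        simp only [if_true]
        have e1 := mul_le_mul (hD t ht) (ww_bds X η t hη hη1).1 (hww0 t) hM
        have e0 : 0 ≤ ‖D t‖ * ww X η t := mul_nonneg (norm_nonneg _) (hww0 t)
        have e2 : (‖D t‖ * ww X η t) ^ 2 ≤ (M * 2) ^ 2 := pow_le_pow_left₀ e0 e1 2
        calc ‖D t‖ ^ 2 * ww X η t ^ 2 = (‖D t‖ * ww X η t) ^ 2 := by ring
          _ ≤ (M * 2) ^ 2 := e2
          _ = 4 * M ^ 2 := by ring)
      (by
        intro i t ht hti
        refine ENNReal.ofReal_le_ofReal ?_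
        rw [if_neg (by omega)]
        have e1 := mul_le_mul (hD t ht) (hwi i t hti) (hww0 t) hM
        have e0 : 0 ≤ ‖D t‖ * ww X η t := mul_nonneg (norm_nonneg _) (hww0 t)
        have e2 : (‖D t‖ * ww X η t) ^ 2 ≤ (M * (4 * (1 / 2) ^ i)) ^ 2 := pow_le_pow_left₀ e0 e1 2
        calc ‖D t‖ ^ 2 * ww X η t ^ 2 = (‖D t‖ * ww X η t) ^ 2 := by ring
          _ ≤ (M * (4 * (1 / 2) ^ i)) ^ 2 := e2
          _ = M ^ 2 * (64 * ((1 / 2) ^ (i + 1)) ^ 2) := by ring)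
      hv n
    rw [hSe] at hgen
    refine hgen.trans (ENNReal.ofReal_le_ofReal ?_)
    rw [sum_range_succ']
    simp only [if_true, pow_zero, mul_one]
    have hs : ∑ i ∈ range n, (if i + 1 = 0 then 4 * M ^ 2 else M ^ 2 * (64 * ((1 / 2 : ℝ) ^ (i + 1)) ^ 2)) * ((H * T0 ^ p) * 2 ^ (i + 1)) =
        64 * (M ^ 2 * (H * T0 ^ p)) * (1 - (1 / 2) ^ n) := by
      have hs1 : ∀ i ∈ range n, (if i + 1 = 0 then 4 * M ^ 2 else M ^ 2 * (64 * ((1 / 2 : ℝ) ^ (i + 1)) ^ 2)) *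
          ((H * T0 ^ p) * 2 ^ (i + 1)) = 64 * (M ^ 2 * (H * T0 ^ p)) * (1 / 2 : ℝ) ^ (i + 1) := by
        intro i _
        rw [if_neg (by omega)]
        have e3 : ((1 : ℝ) / 2) ^ (i + 1) * 2 ^ (i + 1) = 1 := by
          rw [← mul_pow]; norm_num
        calc M ^ 2 * (64 * ((1 / 2 : ℝ) ^ (i + 1)) ^ 2) * ((H * T0 ^ p) * 2 ^ (i + 1)) =
            64 * (M ^ 2 * (H * T0 ^ p)) * (1 / 2 : ℝ) ^ (i + 1) * ((1 / 2 : ℝ) ^ (i + 1) * 2 ^ (i + 1)) := by ring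
          _ = _ := by rw [e3, mul_one]
      rw [sum_congr rfl hs1, ← mul_sum]
      congr 1
      clear hs1 hgen hSe hSn
      induction n with
      | zero => simp
      | succ n ih => rw [sum_range_succ, ih]; ring
    rw [hs]
    have h3 : (0 : ℝ) ≤ (1 / 2) ^ n := by positivity
    have h4 : 0 ≤ M ^ 2 * (H * T0 ^ p) := by positivity
    nlinarith [mul_nonneg h4 h3]

end Pool.Agent.Lib.H31P
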