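import Pool.Agent.Lib.H31P.ADefs
import Pool.Agent.Lib.H31W.P3

/-!
# Chunk A5 (M): pointwise bounds for the Dirichlet polynomial of a box
-/

open Finset MeasureTheory

namespace Pool.Agent.Lib.H31P

open Pool.Agent.Lib.H31W

private theorem a5_fS (i n : ℕ) : |fS i n| ≤ 1 ∧
    (fS i n ≠ 0 → 1 ≤ n ∧ (i : ℝ) - 1 < Real.log n ∧ Real.log n < (i : ℝ) + 1) := by
  unfold fS
  by_cases hn : n = 0
  · rw [if_pos hn]
    exact ⟨by simp, fun h => absurd rfl h⟩
  · rw [if_neg hn]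
    unfold psi
    refine ⟨?_, fun h => ?_⟩
    · rw [abs_of_nonneg (le_max_left _ _)]
      exact max_le zero_le_one (by linarith [abs_nonneg (Real.log (n : ℝ) - i)])
    · have h1 : |Real.log (n : ℝ) - i| < 1 := by
        by_contra h2
        apply h
        rw [max_eq_left]
        linarith [not_lt.1 h2]
      rw [abs_lt] at h1
      exact ⟨Nat.one_le_iff_ne_zero.2 hn, by linarith, by linarith⟩

private theorem a5_fac (V j k i n : ℕ) : |fac V j k i n| ≤ (i : ℝ) + 1 ∧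
    (fac V j k i n ≠ 0 → fS i n ≠ 0) := by
  obtain ⟨h1, h2⟩ := a5_fS i n
  have hi : (0 : ℝ) ≤ i := Nat.cast_nonneg i
  unfold fac
  split_ifs with hk hk2
  · unfold fM
    split_ifs with hV
    · refine ⟨?_, fun h h0 => h (by rw [h0, mul_zero])⟩
      rw [abs_mul]
      have h3 : |((ArithmeticFunction.moebius n : ℤ) : ℝ)| ≤ 1 := by
        rw [← Int.cast_abs]
        exact_mod_cast ArithmeticFunction.abs_moebius_le_one
      calc |((ArithmeticFunction.moebius n : ℤ) : ℝ)| * |fS i n| ≤ 1 * 1 :=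
            mul_le_mul h3 h1 (abs_nonneg _) zero_le_one
        _ ≤ (i : ℝ) + 1 := by linarith
    · refine ⟨?_, fun h => absurd rfl h⟩
      rw [abs_zero]
      linarith
  · exact ⟨h1.trans (by linarith), fun h => h⟩
  · unfold fL
    refine ⟨?_, fun h h0 => h (by rw [h0, mul_zero])⟩
    by_cases h0 : fS i n = 0
    · rw [h0, mul_zero, abs_zero]
      linarith
    · obtain ⟨h3, h4, h5⟩ := h2 h0
      have h6 : 0 ≤ Real.log (n : ℝ) := Real.log_natCast_nonneg n
      rw [abs_mul, abs_of_nonneg h6]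
      calc Real.log (n : ℝ) * |fS i n| ≤ ((i : ℝ) + 1) * 1 :=
            mul_le_mul h5.le h1 (abs_nonneg _) (by linarith)
        _ = (i : ℝ) + 1 := mul_one _

/-- Trivial bound of a factor.

Proof. `‖Di f i t‖ ≤ ∑_{n ≤ e^(i+1)} |f n|/n` (`DD_le`). `|fac V j k i n| ≤ i + 1` and it vanishes unless `e^(i-1) < n < e^(i+1)` (`psi (log n - i) ≠ 0`
means `|log n - i| < 1`; `psi ≤ 1`; `|μ| ≤ 1`; `log n ≤ i + 1`). `∑_{e^(i-1) < n < e^(i+1)} 1/n ≤ 3`: for `i = 0` the sum over `n = 1, 2`; for `i ≥ 1`: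
`1/n ≤ log n - log (n-1)` for `n ≥ 2`, telescoping, `≤ 2 + 1`. (The constant `9` leaves room: e.g. at most `e^(i+1)` terms, each `≤ e^(1-i)`, gives
`e² ≤ 9`, which is the quickest proof.) -/
theorem Di_triv (V j k i : ℕ) (t : ℝ) : ‖Di (fac V j k i) i t‖ ≤ 9 * ((i : ℝ) + 1) := by
  unfold Di
  refine (DD_le _ _ t).trans ?_
  have hi : (0 : ℝ) ≤ i := Nat.cast_nonneg i
  have hterm : ∀ n ∈ Icc 1 ⌊Real.exp ((i : ℝ) + 1)⌋₊, |fac V j k i n| / n ≤
      ((i : ℝ) + 1) * Real.exp (1 - i) := by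
    intro n hn
    rw [mem_Icc] at hn
    have hn0 : (0 : ℝ) < n := by exact_mod_cast hn.1
    obtain ⟨h1, h2⟩ := a5_fac V j k i n
    by_cases h0 : fac V j k i n = 0
    · rw [h0, abs_zero, zero_div]
      positivity
    · obtain ⟨_, h3, _⟩ := (a5_fS i n).2 (h2 h0)
      rw [div_le_iff₀ hn0]
      have h4 : Real.exp ((i : ℝ) - 1) < n := (Real.lt_log_iff_exp_lt hn0).1 h3
      have h5 : 1 ≤ Real.exp (1 - i) * n := by
        have h6 : Real.exp (1 - i) * Real.exp ((i : ℝ) - 1) = 1 := by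
          rw [← Real.exp_add]
          simp
        calc (1 : ℝ) = Real.exp (1 - i) * Real.exp ((i : ℝ) - 1) := h6.symm
          _ ≤ Real.exp (1 - i) * n := mul_le_mul_of_nonneg_left h4.le (Real.exp_pos _).le
      calc |fac V j k i n| ≤ ((i : ℝ) + 1) * 1 := by rw [mul_one]; exact h1
        _ ≤ ((i : ℝ) + 1) * (Real.exp (1 - i) * n) := mul_le_mul_of_nonneg_left h5 (by linarith)
        _ = ((i : ℝ) + 1) * Real.exp (1 - i) * n := by ring
  refine (Finset.sum_le_card_nsmul _ _ _ hterm).trans ?_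
  rw [Nat.card_Icc, Nat.add_sub_cancel, nsmul_eq_mul]
  have h1 : ((⌊Real.exp ((i : ℝ) + 1)⌋₊ : ℕ) : ℝ) ≤ Real.exp ((i : ℝ) + 1) :=
    Nat.floor_le (Real.exp_pos _).le
  have h2 : Real.exp ((i : ℝ) + 1) * Real.exp (1 - i) ≤ 9 := by
    rw [← Real.exp_add]
    have h3 : (i : ℝ) + 1 + (1 - i) = 1 + 1 := by ring
    rw [h3, Real.exp_add]
    have h4 := Real.exp_one_lt_d9
    have h5 := Real.exp_pos 1
    nlinarith
  calc ((⌊Real.exp ((i : ℝ) + 1)⌋₊ : ℕ) : ℝ) * (((i : ℝ) + 1) * Real.exp (1 - i)) ≤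
      Real.exp ((i : ℝ) + 1) * (((i : ℝ) + 1) * Real.exp (1 - i)) :=
        mul_le_mul_of_nonneg_right h1 (by positivity)
    _ = (Real.exp ((i : ℝ) + 1) * Real.exp (1 - i)) * ((i : ℝ) + 1) := by ring
    _ ≤ 9 * ((i : ℝ) + 1) := mul_le_mul_of_nonneg_right h2 (by linarith)

private theorem a5_num (J : ℕ) (L : ℝ) (h1 : 4 * (J : ℝ) + 5 ≤ L)
    (h2 : 18 ^ (2 * J) * Real.exp (2 * J + 2) ≤ L) :
    (9 * (L + 4 * J + 5)) ^ (2 * J) * Real.exp (2 * J + 2) ≤ L ^ (2 * J + 1) := by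
  have hJ0 : (0 : ℝ) ≤ J := Nat.cast_nonneg J
  have hL0 : 0 ≤ L := by linarith
  have h3 : 9 * (L + 4 * J + 5) ≤ 18 * L := by linarith
  calc (9 * (L + 4 * J + 5)) ^ (2 * J) * Real.exp (2 * J + 2) ≤
      (18 * L) ^ (2 * J) * Real.exp (2 * J + 2) :=
        mul_le_mul_of_nonneg_right (pow_le_pow_left₀ (by positivity) h3 _) (Real.exp_pos _).le
    _ = L ^ (2 * J) * (18 ^ (2 * J) * Real.exp (2 * J + 2)) := by rw [mul_pow]; ring
    _ ≤ L ^ (2 * J) * L := mul_le_mul_of_nonneg_left h2 (by positivity)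
    _ = L ^ (2 * J + 1) := (pow_succ _ _).symm

/-- **Bound on `US s`.**

Proof. By `BoxDDStm` the polynomial is the product of the `2j ≤ 2J` factors. The long factors are at most `exp (-(s/log X) c_k)`, the others at most
`9 (c_k + 1) ≤ 9 (log X + 4J + 5)` (`Di_triv`, `c_k ≤ ∑ c`; also `≥ 1`, so all bounds may be multiplied by such factors). The product of the long
ones is `exp (-(s/log X) ∑_{long} c_k)`, `∑_{long} c_k ≥ ∑ c - 2J δ₀ log X ≥ (1 - 2Jδ₀) log X - (4J + 4)`, and `(s/log X)(4J+4) ≤ 2J + 2`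
(`s ≤ (log X)/2`). Total: `(9 (log X + 4J + 5))^(2J) e^(2J+2) exp (-(1-2Jδ₀)s) ≤ (log X)^C exp (-(1-2Jδ₀)s)`, e.g. `C = 2J + 1` and `X` large. -/
theorem US_bound (hD : BoxDDStm) (J : ℕ) (hJ : 1 ≤ J) (δ₀ : ℝ) (hδ : 0 < δ₀) : ∃ C X₀ : ℝ, 1 ≤ C ∧ 3 ≤ X₀ ∧
    ∀ X η : ℝ, X₀ ≤ X → ∀ (V j : ℕ) (c : Fin (2 * j) → ℕ), BoxHyp J X η j c →
    (∀ t : ℝ, ‖DD (box V j c) (bN c) t‖ ≤ Real.log X ^ C) ∧
    ∀ s : ℕ, (s : ℝ) ≤ Real.log X / 2 → ∀ t ∈ US V j c δ₀ X s,
      ‖DD (box V j c) (bN c) t‖ ≤ Real.log X ^ C * Real.exp (-((1 - 2 * J * δ₀) * s)) := by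
  have hJ1 : (1 : ℝ) ≤ J := by exact_mod_cast hJ
  set M : ℝ := max (4 * (J : ℝ) + 5) (18 ^ (2 * J) * Real.exp (2 * J + 2)) with hM
  have hM1 : 4 * (J : ℝ) + 5 ≤ M := le_max_left _ _
  refine ⟨((2 * J + 1 : ℕ) : ℝ), Real.exp M, ?_, ?_, fun X η hX V j c hB => ?_⟩
  · push_cast
    linarith
  · linarith [Real.add_one_le_exp M]
  have hX0 : 0 < X := (Real.exp_pos _).trans_le hX
  set L : ℝ := Real.log X with hL
  have hLM : M ≤ L := (Real.le_log_iff_exp_le hX0).2 hX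
  have hL1 : 4 * (J : ℝ) + 5 ≤ L := hM1.trans hLM
  have hL0 : 0 < L := by linarith
  have hnum := a5_num J L hL1 ((le_max_right _ _).trans hLM)
  rw [Real.rpow_natCast]
  set B : ℝ := 9 * (L + 4 * J + 5) with hBdef
  have hB1 : 1 ≤ B := by rw [hBdef]; linarith
  have hB0 : 0 ≤ B := by linarith
  have hjJ : (j : ℝ) ≤ J := by exact_mod_cast hB.hJ
  have hBpow : B ^ (2 * j) ≤ B ^ (2 * J) := pow_le_pow_right₀ hB1 (by
    have := hB.hJ
    omega)
  have hcs : (∑ k, (c k : ℝ)) ≤ L + (4 * J + 4) := by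
    have := (abs_le.1 hB.hc).2
    linarith
  have hcs2 : L - (4 * J + 4) ≤ ∑ k, (c k : ℝ) := by
    have := (abs_le.1 hB.hc).1
    linarith
  have hfac : ∀ (k : Fin (2 * j)) (t : ℝ), ‖Di (fac V j k (c k)) (c k) t‖ ≤ B := by
    intro k t
    refine (Di_triv V j k (c k) t).trans ?_
    have h1 : (c k : ℝ) ≤ ∑ k, (c k : ℝ) :=
      Finset.single_le_sum (f := fun k => (c k : ℝ)) (fun i _ => Nat.cast_nonneg _) (mem_univ k)
    rw [hBdef]
    linarith
  refine ⟨fun t => ?_, fun s hs t ht => ?_⟩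
  · rw [hD, norm_prod]
    have h1 : ∏ k : Fin (2 * j), ‖Di (fac V j k (c k)) (c k) t‖ ≤ ∏ _k : Fin (2 * j), B :=
      Finset.prod_le_prod (fun _ _ => norm_nonneg _) fun k _ => hfac k t
    rw [Finset.prod_const, Finset.card_univ, Fintype.card_fin] at h1
    refine h1.trans (hBpow.trans (le_trans ?_ hnum))
    exact le_mul_of_one_le_right (by positivity) (Real.one_le_exp (by positivity))
  · obtain ⟨_, _, ht3⟩ := ht
    have hs0 : 0 ≤ (s : ℝ) / L := by positivity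
    have hs1 : (s : ℝ) / L ≤ 1 / 2 := by
      rw [div_le_iff₀ hL0]
      linarith
    classical
    set g : Fin (2 * j) → ℝ := fun k => if k ∈ lng δ₀ X c then (c k : ℝ) else 0 with hg
    have hfac2 : ∀ k : Fin (2 * j), ‖Di (fac V j k (c k)) (c k) t‖ ≤
        B * Real.exp (-((s : ℝ) / L * g k)) := by
      intro k
      by_cases hk : k ∈ lng δ₀ X c
      · have h1 := ht3 k hk
        have h2 : g k = c k := by
          simp only [hg]
          rw [if_pos hk]
        rw [h2]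
        exact h1.trans (le_mul_of_one_le_left (Real.exp_pos _).le hB1)
      · have h2 : g k = 0 := by
          simp only [hg]
          rw [if_neg hk]
        rw [h2, mul_zero, neg_zero, Real.exp_zero, mul_one]
        exact hfac k t
    have hgsum : L - (4 * J + 4) - 2 * J * (δ₀ * L) ≤ ∑ k, g k := by
      have h1 : ∀ k ∈ (univ : Finset (Fin (2 * j))), (c k : ℝ) - δ₀ * L ≤ g k := by
        intro k _
        have h0 : 0 ≤ δ₀ * L := by positivity
        by_cases hk : k ∈ lng δ₀ X c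
        · simp only [hg]
          rw [if_pos hk]
          linarith
        · simp only [hg]
          rw [if_neg hk]
          unfold lng at hk
          rw [mem_filter] at hk
          have h2 : (c k : ℝ) < δ₀ * L := by
            by_contra h3
            exact hk ⟨mem_univ _, not_lt.1 h3⟩
          linarith
      have h2 := Finset.sum_le_sum h1
      rw [Finset.sum_sub_distrib, Finset.sum_const, Finset.card_univ, Fintype.card_fin,
        nsmul_eq_mul] at h2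
      have h3 : ((2 * j : ℕ) : ℝ) * (δ₀ * L) ≤ 2 * J * (δ₀ * L) := by
        apply mul_le_mul_of_nonneg_right _ (by positivity)
        push_cast
        linarith
      linarith
    rw [hD, norm_prod]
    have h1 : ∏ k : Fin (2 * j), ‖Di (fac V j k (c k)) (c k) t‖ ≤
        ∏ k : Fin (2 * j), (B * Real.exp (-((s : ℝ) / L * g k))) :=
      Finset.prod_le_prod (fun _ _ => norm_nonneg _) fun k _ => hfac2 k
    rw [Finset.prod_mul_distrib, Finset.prod_const, Finset.card_univ, Fintype.card_fin,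
      ← Real.exp_sum, Finset.sum_neg_distrib, ← Finset.mul_sum] at h1
    have h2 : Real.exp (-((s : ℝ) / L * ∑ k, g k)) ≤
        Real.exp (2 * J + 2) * Real.exp (-((1 - 2 * J * δ₀) * s)) := by
      rw [← Real.exp_add]
      apply Real.exp_le_exp.2
      have h3 : (s : ℝ) / L * (L - (4 * J + 4) - 2 * J * (δ₀ * L)) ≤ (s : ℝ) / L * ∑ k, g k :=
        mul_le_mul_of_nonneg_left hgsum hs0
      have h4 : (s : ℝ) / L * (L - (4 * J + 4) - 2 * J * (δ₀ * L)) =
          (1 - 2 * J * δ₀) * s - (s : ℝ) / L * (4 * J + 4) := by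
        field_simp
        ring
      have h5 : (s : ℝ) / L * (4 * J + 4) ≤ 1 / 2 * (4 * J + 4) :=
        mul_le_mul_of_nonneg_right hs1 (by positivity)
      linarith
    calc ∏ k : Fin (2 * j), ‖Di (fac V j k (c k)) (c k) t‖ ≤
        B ^ (2 * j) * Real.exp (-((s : ℝ) / L * ∑ k, g k)) := h1
      _ ≤ B ^ (2 * J) * (Real.exp (2 * J + 2) * Real.exp (-((1 - 2 * J * δ₀) * s))) :=
          mul_le_mul hBpow h2 (Real.exp_pos _).le (by positivity)
      _ = B ^ (2 * J) * Real.exp (2 * J + 2) * Real.exp (-((1 - 2 * J * δ₀) * s)) := by ring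
      _ ≤ L ^ (2 * J + 1) * Real.exp (-((1 - 2 * J * δ₀) * s)) :=
          mul_le_mul_of_nonneg_right hnum (Real.exp_pos _).le

end Pool.Agent.Lib.H31P
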