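import Pool.Agent.Lib.H31P.A3
import Pool.Agent.Lib.H31P.A4
import Pool.Agent.Lib.H31P.A5

/-!
# Chunk A6 (M): the contribution of one class
-/

open Finset MeasureTheory

namespace Pool.Agent.Lib.H31P

open Pool.Agent.Lib.H31W

private theorem a6_eta (L : ℝ) (hL : 900 ≤ L) : 12 * L ^ (1 / 10 : ℝ) ≤ 2 / 5 * L := by
  have h1 : L ^ (1 / 10 : ℝ) ≤ L ^ (1 / 2 : ℝ) :=
    Real.rpow_le_rpow_of_exponent_le (by linarith) (by norm_num)
  have h2 : L ^ (1 / 2 : ℝ) = Real.sqrt L := (Real.sqrt_eq_rpow L).symm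
  have h3 : 30 ≤ Real.sqrt L := by
    rw [show (30 : ℝ) = Real.sqrt 900 by
      rw [show (900 : ℝ) = 30 ^ 2 by norm_num, Real.sqrt_sq (by norm_num)]]
    exact Real.sqrt_le_sqrt hL
  have h4 : Real.sqrt L * Real.sqrt L = L := Real.mul_self_sqrt (by linarith)
  nlinarith

private theorem a6_two (L : ℝ) (hL : 0 ≤ L) : Real.exp (2 * L) ≤ 2 ^ ⌈3 * L⌉₊ := by
  have h1 : 3 * L ≤ (⌈3 * L⌉₊ : ℝ) := Nat.le_ceil _
  have h2 : (2 : ℝ) ^ ⌈3 * L⌉₊ = Real.exp (Real.log 2 * (⌈3 * L⌉₊ : ℝ)) := by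
    rw [← Real.rpow_natCast, Real.rpow_def_of_pos (by norm_num)]
  rw [h2]
  apply Real.exp_le_exp.2
  have h3 := Real.log_two_gt_d9
  have h4 : Real.log 2 * (3 * L) ≤ Real.log 2 * (⌈3 * L⌉₊ : ℝ) :=
    mul_le_mul_of_nonneg_left h1 (by linarith)
  nlinarith

private theorem a6_fin1 (L C₁ C₂ a b s p η n : ℝ) (hL : 900 ≤ L) (hC₁ : 1 ≤ C₁) (hη : 0 < η)
    (hn : n ≤ 3 * L + 1) (_hn0 : 0 ≤ n) :
    (8 * n + 2) * (L ^ C₁ * Real.exp (-(a * s)) * (L ^ C₂ * Real.exp (b * s) * (1 / η) ^ p)) ≤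
      L ^ (2 * C₁ + C₂ + 2) * Real.exp (-((a - b) * s)) * (1 / η) ^ p := by
  have hL0 : 0 < L := by linarith
  have e1 : L ^ C₁ * Real.exp (-(a * s)) * (L ^ C₂ * Real.exp (b * s) * (1 / η) ^ p) =
      L ^ (C₁ + C₂) * (Real.exp (-((a - b) * s)) * (1 / η) ^ p) := by
    rw [Real.rpow_add hL0]
    have : Real.exp (-((a - b) * s)) = Real.exp (-(a * s)) * Real.exp (b * s) := by
      rw [← Real.exp_add]
      congr 1
      ring
    rw [this]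
    ring
  have e2 : 8 * n + 2 ≤ L ^ (2 : ℝ) := by
    rw [Real.rpow_two]
    nlinarith
  have e3 : L ^ (2 : ℝ) * L ^ (C₁ + C₂) ≤ L ^ (2 * C₁ + C₂ + 2) := by
    rw [← Real.rpow_add hL0]
    exact Real.rpow_le_rpow_of_exponent_le (by linarith) (by linarith)
  have hp : 0 ≤ Real.exp (-((a - b) * s)) * (1 / η) ^ p :=
    mul_nonneg (Real.exp_pos _).le (Real.rpow_nonneg (by positivity) _)
  rw [e1]
  calc (8 * n + 2) * (L ^ (C₁ + C₂) * (Real.exp (-((a - b) * s)) * (1 / η) ^ p))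
      ≤ L ^ (2 : ℝ) * (L ^ (C₁ + C₂) * (Real.exp (-((a - b) * s)) * (1 / η) ^ p)) :=
        mul_le_mul_of_nonneg_right e2 (mul_nonneg (Real.rpow_nonneg hL0.le _) hp)
    _ = L ^ (2 : ℝ) * L ^ (C₁ + C₂) * (Real.exp (-((a - b) * s)) * (1 / η) ^ p) := by ring
    _ ≤ L ^ (2 * C₁ + C₂ + 2) * (Real.exp (-((a - b) * s)) * (1 / η) ^ p) :=
        mul_le_mul_of_nonneg_right e3 hp
    _ = _ := by ring

private theorem a6_fin2 (L C₁ C₂ a b s p η : ℝ) (hL : 900 ≤ L) (hη : 0 < η) :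
    68 * ((L ^ C₁ * Real.exp (-(a * s))) ^ 2 * (L ^ C₂ * Real.exp (b * s) * (1 / η) ^ p)) ≤
      L ^ (2 * C₁ + C₂ + 2) * Real.exp (-((2 * a - b) * s)) * (1 / η) ^ p := by
  have hL0 : 0 < L := by linarith
  have e1 : (L ^ C₁ * Real.exp (-(a * s))) ^ 2 * (L ^ C₂ * Real.exp (b * s) * (1 / η) ^ p) =
      L ^ (2 * C₁ + C₂) * (Real.exp (-((2 * a - b) * s)) * (1 / η) ^ p) := by
    rw [Real.rpow_add hL0, two_mul, Real.rpow_add hL0]
    have : Real.exp (-((2 * a - b) * s)) =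
        Real.exp (-(a * s)) * Real.exp (-(a * s)) * Real.exp (b * s) := by
      rw [← Real.exp_add, ← Real.exp_add]
      congr 1
      ring
    rw [this]
    ring
  have e2 : (68 : ℝ) ≤ L ^ (2 : ℝ) := by
    rw [Real.rpow_two]
    nlinarith
  have e3 : L ^ (2 : ℝ) * L ^ (2 * C₁ + C₂) = L ^ (2 * C₁ + C₂ + 2) := by
    rw [← Real.rpow_add hL0]
    congr 1
    ring
  have hp : 0 ≤ Real.exp (-((2 * a - b) * s)) * (1 / η) ^ p :=
    mul_nonneg (Real.exp_pos _).le (Real.rpow_nonneg (by positivity) _)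
  rw [e1]
  calc 68 * (L ^ (2 * C₁ + C₂) * (Real.exp (-((2 * a - b) * s)) * (1 / η) ^ p))
      ≤ L ^ (2 : ℝ) * (L ^ (2 * C₁ + C₂) * (Real.exp (-((2 * a - b) * s)) * (1 / η) ^ p)) :=
        mul_le_mul_of_nonneg_right e2 (mul_nonneg (Real.rpow_nonneg hL0.le _) hp)
    _ = L ^ (2 : ℝ) * L ^ (2 * C₁ + C₂) * (Real.exp (-((2 * a - b) * s)) * (1 / η) ^ p) := by ring
    _ = L ^ (2 * C₁ + C₂ + 2) * (Real.exp (-((2 * a - b) * s)) * (1 / η) ^ p) := by rw [e3]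
    _ = _ := by ring

/-- **One class.**

Proof. `dyad_sum` with `S = US s \ US (s+1)` (measurable, `US_measurable`), `M = (log X)^(C₁) exp (-(1-2Jδ₀)s)` (`US_bound`),
`H = (log X)^(C₂) exp (κ's)`, `p = pA (s/log X) ∈ [0, 1]` (`pA_bds`) and `n = ⌈3 log X⌉₊` (`2^n ≥ X²` since `3 log 2 ≥ 2`, `1/η ≥ 1`), `cls_meas`;
`8n + 2 ≤ 26 log X + 10`, all constants go into a power of `log X`. `η ≤ eta1 X` for large `X` (`η ≤ X^(-2/5)`). -/
theorem cls_box (hD : BoxDDStm) (hM : MLStm) (J : ℕ) (hJ : 13 ≤ J) (κ' δ₀ : ℝ) (hκ : 0 < κ') (hκ1 : κ' ≤ 1 / 10) (hδ : 0 < δ₀) :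
    ∃ C X₀ : ℝ, 1 ≤ C ∧ 3 ≤ X₀ ∧ ∀ X η : ℝ, X₀ ≤ X → ∀ (V j : ℕ) (c : Fin (2 * j) → ℕ), BoxHyp J X η j c →
    ∀ s : ℕ, (s : ℝ) + 1 ≤ Real.log X / 2 →
    ∫⁻ t in US V j c δ₀ X s \ US V j c δ₀ X (s + 1), ENNReal.ofReal (‖DD (box V j c) (bN c) t‖ * ww X η t) ≤
      ENNReal.ofReal (Real.log X ^ C * Real.exp (-((1 - 2 * J * δ₀ - κ') * s)) * (1 / η) ^ pA (s / Real.log X)) ∧
    ∫⁻ t in US V j c δ₀ X s \ US V j c δ₀ X (s + 1), ENNReal.ofReal (‖DD (box V j c) (bN c) t‖ ^ 2 * ww X η t ^ 2) ≤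
      ENNReal.ofReal (Real.log X ^ C * Real.exp (-((2 - 4 * J * δ₀ - κ') * s)) * (1 / η) ^ pA (s / Real.log X)) := by
  obtain ⟨C₁, X₁, hC₁, hX₁, hUS⟩ := US_bound hD J (by omega) δ₀ hδ
  obtain ⟨C₂, X₂, hC₂, hX₂, hcm⟩ := cls_meas hM J hJ κ' δ₀ hκ hκ1 hδ
  refine ⟨2 * C₁ + C₂ + 2, max (max X₁ X₂) (Real.exp 900), by linarith,
    hX₁.trans ((le_max_left _ _).trans (le_max_left _ _)), ?_⟩
  intro X η hX V j c hB s hs
  have hXX₁ : X₁ ≤ X := ((le_max_left _ _).trans (le_max_left _ _)).trans hX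
  have hXX₂ : X₂ ≤ X := ((le_max_right _ _).trans (le_max_left _ _)).trans hX
  have hXe : Real.exp 900 ≤ X := (le_max_right _ _).trans hX
  have hX3 : 3 ≤ X := hX₁.trans hXX₁
  have hX0 : 0 < X := by linarith
  have hX1 : 1 ≤ X := by linarith
  have hL : 900 ≤ Real.log X := (Real.le_log_iff_exp_le hX0).2 hXe
  have hL0 : 0 < Real.log X := by linarith
  have hη : 0 < η := lt_of_lt_of_le (by positivity) hB.hη
  have hη1 : η ≤ 1 := hB.hη1.trans (Real.rpow_le_one_of_one_le_of_nonpos hX1 (by norm_num))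
  have hηe : η ≤ eta1 X := by
    refine hB.hη1.trans ?_
    unfold eta1 ell
    rw [Real.rpow_def_of_pos hX0]
    apply Real.exp_le_exp.2
    have := a6_eta (Real.log X) hL
    linarith
  have hs0 : (0 : ℝ) ≤ s := Nat.cast_nonneg s
  have hα0 : 0 ≤ (s : ℝ) / Real.log X := by positivity
  have hα1 : (s : ℝ) / Real.log X ≤ 1 / 2 := by
    rw [div_le_iff₀ hL0]
    linarith
  obtain ⟨hp0, hp1, -, -⟩ := pA_bds ((s : ℝ) / Real.log X) ((s : ℝ) / Real.log X) hα0 le_rfl hα1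
  have hSm : MeasurableSet (US V j c δ₀ X s \ US V j c δ₀ X (s + 1)) :=
    (US_measurable V j c δ₀ X s).diff (US_measurable V j c δ₀ X (s + 1))
  have hb := (hUS X η hXX₁ V j c hB).2 s (by linarith)
  have hn1 : (⌈3 * Real.log X⌉₊ : ℝ) ≤ 3 * Real.log X + 1 := (Nat.ceil_lt_add_one (by linarith)).le
  have hX2 : X ^ 2 = Real.exp (2 * Real.log X) := by
    rw [two_mul, Real.exp_add, Real.exp_log hX0, sq]
  have hinv : 1 ≤ 1 / η := by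
    rw [le_div_iff₀ hη, one_mul]
    exact hη1
  have key := dyad_sum X η hη hηe (DD (box V j c) (bN c)) (US V j c δ₀ X s \ US V j c δ₀ X (s + 1)) hSm
    (Real.log X ^ C₁ * Real.exp (-((1 - 2 * J * δ₀) * s)))
    (Real.log X ^ C₂ * Real.exp (κ' * s)) (pA (s / Real.log X)) ⌈3 * Real.log X⌉₊
    (mul_nonneg (Real.rpow_nonneg hL0.le _) (Real.exp_pos _).le)
    (mul_nonneg (Real.rpow_nonneg hL0.le _) (Real.exp_pos _).le) hp0 hp1
    (fun t ht => hb t ht.1)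
    (fun t ht => by
      have h1 : |t| ≤ X ^ 2 := ht.1.2.1
      rw [hX2] at h1
      have h2 := a6_two (Real.log X) hL0.le
      have h3 : (1 : ℝ) * 2 ^ ⌈3 * Real.log X⌉₊ ≤ 1 / η * 2 ^ ⌈3 * Real.log X⌉₊ :=
        mul_le_mul_of_nonneg_right hinv (by positivity)
      linarith)
    (fun T hT => hcm X η hXX₂ V j c hB s hs T hT)
  refine ⟨key.1.trans (ENNReal.ofReal_le_ofReal ?_), key.2.trans (ENNReal.ofReal_le_ofReal ?_)⟩
  · have h1 := a6_fin1 (Real.log X) C₁ C₂ (1 - 2 * J * δ₀) κ' s (pA (s / Real.log X)) η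
      (⌈3 * Real.log X⌉₊ : ℝ) hL hC₁ hη hn1 (Nat.cast_nonneg _)
    exact h1
  · have h1 := a6_fin2 (Real.log X) C₁ C₂ (1 - 2 * J * δ₀) κ' s (pA (s / Real.log X)) η hL hη
    have h2 : 2 * (1 - 2 * J * δ₀) - κ' = 2 - 4 * J * δ₀ - κ' := by ring
    rw [h2] at h1
    exact h1

end Pool.Agent.Lib.H31P
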