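import Pool.Agent.Lib.H31P.A4
import Pool.Agent.Lib.H31P.A5

/-!
# Chunk A7 (M): the low, the high and the last part
-/

open Finset MeasureTheory

namespace Pool.Agent.Lib.H31P

open Pool.Agent.Lib.H31W

private theorem a7_meas (V j : ℕ) (c : Fin (2 * j) → ℕ) (δ₀ X : ℝ) (s : ℕ) : MeasurableSet (US V j c δ₀ X s) := by
  have h1 : US V j c δ₀ X s = {t : ℝ | Real.exp (4 * ell X) < |t|} ∩ ({t : ℝ | |t| ≤ X ^ 2} ∩
      ⋂ k ∈ lng δ₀ X c, {t : ℝ | ‖Di (fac V j k (c k)) (c k) t‖ ≤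
        Real.exp (-((s : ℝ) / Real.log X * (c k : ℝ)))}) := by
    ext t
    simp only [US, Set.mem_inter_iff, Set.mem_iInter]
    exact Iff.rfl
  rw [h1]
  refine MeasurableSet.inter (measurableSet_lt measurable_const measurable_id.abs) ?_
  refine MeasurableSet.inter (measurableSet_le measurable_id.abs measurable_const) ?_
  refine Finset.measurableSet_biInter _ fun k _ => ?_
  refine measurableSet_le ?_ measurable_const
  have h2 : Continuous fun t : ℝ => Di (fac V j k (c k)) (c k) t := DD_continuous _ _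
  exact h2.norm.measurable

/-- `η ≤ η₁` for large `X`. -/
private theorem a7_eta {X η : ℝ} (hX : Real.exp 100 ≤ X) (hη : η ≤ X ^ (-(2 / 5) : ℝ)) : η ≤ eta1 X := by
  have hX0 : 0 < X := (Real.exp_pos _).trans_le hX
  have hL : 100 ≤ Real.log X := (Real.le_log_iff_exp_le hX0).2 hX
  refine hη.trans ?_
  unfold eta1 ell
  rw [Real.rpow_def_of_pos hX0]
  apply Real.exp_le_exp.2
  set L := Real.log X with hLdef
  set y : ℝ := L ^ (1 / 10 : ℝ) with hy
  have hy0 : 0 ≤ y := Real.rpow_nonneg (by linarith) _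
  have hy10 : y ^ 10 = L := by
    rw [hy, ← Real.rpow_natCast, ← Real.rpow_mul (by linarith)]
    norm_num
  have hy9 : 30 ≤ y ^ 9 := by
    by_contra h
    have h1 : y ^ 9 < 30 := not_le.1 h
    have h2 : (y ^ 9) ^ 10 ≤ 30 ^ 10 := pow_le_pow_left₀ (by positivity) h1.le 10
    have h3 : (y ^ 9) ^ 10 = L ^ 9 := by
      rw [← hy10]
      ring
    have h4 : (100 : ℝ) ^ 9 ≤ L ^ 9 := pow_le_pow_left₀ (by norm_num) hL 9
    rw [h3] at h2
    norm_num at h2 h4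
    linarith
  have h5 : y ^ 10 = y ^ 9 * y := by ring
  nlinarith

private theorem a7_vol (R : ℝ) : volume {t : ℝ | |t| ≤ R} = ENNReal.ofReal (2 * R) := by
  have h : {t : ℝ | |t| ≤ R} = Set.Icc (-R) R := by
    ext t
    show |t| ≤ R ↔ t ∈ Set.Icc (-R) R
    rw [abs_le, Set.mem_Icc]
  rw [h, Real.volume_Icc]
  congr 1
  ring

/-- Tail of `K / t ^ 2`. -/
private theorem a7_tail (K a : ℝ) (hK : 0 ≤ K) (ha : 0 < a) :
    ∫⁻ t in {t : ℝ | a < |t|}, ENNReal.ofReal (K / t ^ 2) ≤ ENNReal.ofReal (2 * K / a) := by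
  have hIoi : ∫⁻ t in Set.Ioi a, ENNReal.ofReal (K / t ^ 2) ≤ ENNReal.ofReal (K / a) := by
    have hint : IntegrableOn (fun t : ℝ => t ^ (-2 : ℝ)) (Set.Ioi a) :=
      integrableOn_Ioi_rpow_of_lt (by norm_num) ha
    have hval := integral_Ioi_rpow_of_lt (a := -2) (by norm_num) ha
    have he : ∀ t ∈ Set.Ioi a, ENNReal.ofReal (K / t ^ 2) = ENNReal.ofReal (K * t ^ (-2 : ℝ)) := by
      intro t ht
      have ht0 : 0 < t := ha.trans ht
      rw [Real.rpow_neg ht0.le, div_eq_mul_inv]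
      norm_num
    rw [setLIntegral_congr_fun measurableSet_Ioi he, ← ofReal_integral_eq_lintegral_ofReal
      (hint.const_mul K) ?_, integral_const_mul, hval]
    · apply ENNReal.ofReal_le_ofReal
      have h1 : (-a ^ ((-2 : ℝ) + 1) / ((-2 : ℝ) + 1)) = 1 / a := by
        have h2 : (-2 : ℝ) + 1 = -1 := by norm_num
        rw [h2, Real.rpow_neg_one]
        field_simp
      rw [h1]
      exact le_of_eq (by ring)
    · refine (ae_restrict_mem measurableSet_Ioi).mono fun t ht => ?_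
      have ht0 : 0 < t := ha.trans ht
      exact mul_nonneg hK (Real.rpow_nonneg ht0.le _)
  have hIio : ∫⁻ t in Set.Iio (-a), ENNReal.ofReal (K / t ^ 2) =
      ∫⁻ t in Set.Ioi a, ENNReal.ofReal (K / t ^ 2) := by
    have h1 := (Measure.measurePreserving_neg (volume : Measure ℝ)).setLIntegral_comp_preimage_emb
      (MeasurableEquiv.neg ℝ).measurableEmbedding (fun t : ℝ => ENNReal.ofReal (K / t ^ 2)) (Set.Iio (-a))
    rw [← h1]
    have h2 : (Neg.neg ⁻¹' Set.Iio (-a) : Set ℝ) = Set.Ioi a := by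
      ext t
      simp
    rw [h2]
    refine lintegral_congr fun t => ?_
    rw [neg_sq]
  have hset : {t : ℝ | a < |t|} ⊆ Set.Iio (-a) ∪ Set.Ioi a := by
    intro t ht
    have ht' : a < |t| := ht
    rcases lt_abs.1 ht' with h | h
    · exact Or.inr h
    · exact Or.inl (by
        show t < -a
        linarith)
  calc ∫⁻ t in {t : ℝ | a < |t|}, ENNReal.ofReal (K / t ^ 2) ≤
      ∫⁻ t in Set.Iio (-a) ∪ Set.Ioi a, ENNReal.ofReal (K / t ^ 2) := lintegral_mono_set hset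
    _ ≤ (∫⁻ t in Set.Iio (-a), ENNReal.ofReal (K / t ^ 2)) +
        ∫⁻ t in Set.Ioi a, ENNReal.ofReal (K / t ^ 2) := lintegral_union_le _ _ _
    _ ≤ ENNReal.ofReal (K / a) + ENNReal.ofReal (K / a) := by
        rw [hIio]
        exact add_le_add hIoi hIoi
    _ = ENNReal.ofReal (2 * K / a) := by
        rw [← ENNReal.ofReal_add (by positivity) (by positivity)]
        congr 1
        ring

/-- **`|t| ≤ exp (4ℓ)`.** `‖D‖ ≤ (log X)^(C₁)` (`US_bound`), `ww ≤ 2 η₁ |t|` (`ww_bds`), so the integral is at most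
`2 e^(4ℓ) (log X)^(C₁) 2 e^(-12ℓ) e^(4ℓ)`. -/
theorem part_low (hD : BoxDDStm) (J : ℕ) (hJ : 1 ≤ J) : ∃ C X₀ : ℝ, 1 ≤ C ∧ 3 ≤ X₀ ∧
    ∀ X η : ℝ, X₀ ≤ X → ∀ (V j : ℕ) (c : Fin (2 * j) → ℕ), BoxHyp J X η j c →
    ∫⁻ t in {t : ℝ | |t| ≤ Real.exp (4 * ell X)}, ENNReal.ofReal (‖DD (box V j c) (bN c) t‖ * ww X η t) ≤
      ENNReal.ofReal (Real.log X ^ C * Real.exp (-(4 * ell X))) := by
  obtain ⟨C₁, X₁, hC₁, hX₁, H⟩ := US_bound hD J hJ 1 one_pos
  refine ⟨C₁ + 1, max X₁ (Real.exp 100), by linarith, hX₁.trans (le_max_left _ _), ?_⟩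
  intro X η hX V j c hB
  have hXe : Real.exp 100 ≤ X := (le_max_right _ _).trans hX
  have hX0 : 0 < X := (Real.exp_pos _).trans_le hXe
  have hL : 100 ≤ Real.log X := (Real.le_log_iff_exp_le hX0).2 hXe
  have hη0 : 0 < η := lt_of_lt_of_le (by positivity) hB.hη
  have hη1 := a7_eta hXe hB.hη1
  obtain ⟨hb, -⟩ := H X η ((le_max_left _ _).trans hX) V j c hB
  have hLC : 0 ≤ Real.log X ^ C₁ := Real.rpow_nonneg (by linarith) _
  have hbound : ∀ t ∈ {t : ℝ | |t| ≤ Real.exp (4 * ell X)},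
      ENNReal.ofReal (‖DD (box V j c) (bN c) t‖ * ww X η t) ≤
        ENNReal.ofReal (Real.log X ^ C₁ * (2 * Real.exp (-(8 * ell X)))) := by
    intro t ht
    apply ENNReal.ofReal_le_ofReal
    have h1 : ww X η t ≤ 2 * Real.exp (-(8 * ell X)) := by
      refine (ww_bds X η t hη0 hη1).2.2.trans ?_
      unfold eta1
      have h2 : 2 * Real.exp (-(12 * ell X)) * |t| ≤
          2 * Real.exp (-(12 * ell X)) * Real.exp (4 * ell X) :=
        mul_le_mul_of_nonneg_left ht (by positivity)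
      refine h2.trans (le_of_eq ?_)
      rw [mul_assoc, ← Real.exp_add]
      congr 2
      ring
    exact mul_le_mul (hb t) h1 (norm_nonneg _) hLC
  calc ∫⁻ t in {t : ℝ | |t| ≤ Real.exp (4 * ell X)}, ENNReal.ofReal (‖DD (box V j c) (bN c) t‖ * ww X η t) ≤
      ∫⁻ _t in {t : ℝ | |t| ≤ Real.exp (4 * ell X)},
        ENNReal.ofReal (Real.log X ^ C₁ * (2 * Real.exp (-(8 * ell X)))) :=
        setLIntegral_mono' (measurableSet_le measurable_id.abs measurable_const) hbound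
    _ = ENNReal.ofReal (Real.log X ^ C₁ * (2 * Real.exp (-(8 * ell X)))) *
        ENNReal.ofReal (2 * Real.exp (4 * ell X)) := by
        rw [setLIntegral_const, a7_vol]
    _ = ENNReal.ofReal (Real.log X ^ C₁ * (2 * Real.exp (-(8 * ell X))) *
        (2 * Real.exp (4 * ell X))) := (ENNReal.ofReal_mul (by positivity)).symm
    _ ≤ ENNReal.ofReal (Real.log X ^ (C₁ + 1) * Real.exp (-(4 * ell X))) := by
        apply ENNReal.ofReal_le_ofReal
        rw [Real.rpow_add (by linarith), Real.rpow_one]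
        have h3 : Real.exp (-(4 * ell X)) = Real.exp (-(8 * ell X)) * Real.exp (4 * ell X) := by
          rw [← Real.exp_add]
          congr 1
          ring
        rw [h3]
        have h4 : 0 ≤ Real.log X ^ C₁ * (Real.exp (-(8 * ell X)) * Real.exp (4 * ell X)) := by
          positivity
        nlinarith

/-- **`|t| > X²`.** `‖D‖² ww² ≤ (log X)^(2C₁) 16/(η²t²)`, `∫_{|t| > X²} t^(-2) dt = 2 X^(-2)` (`integral_Ioi_rpow_of_lt`,
`lintegral` over `Ioi` and `Iio`), `η^(-2) ≤ 100 X`. -/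
theorem part_high (hD : BoxDDStm) (J : ℕ) (hJ : 1 ≤ J) : ∃ C X₀ : ℝ, 1 ≤ C ∧ 3 ≤ X₀ ∧
    ∀ X η : ℝ, X₀ ≤ X → ∀ (V j : ℕ) (c : Fin (2 * j) → ℕ), BoxHyp J X η j c →
    ∫⁻ t in {t : ℝ | X ^ 2 < |t|}, ENNReal.ofReal (‖DD (box V j c) (bN c) t‖ ^ 2 * ww X η t ^ 2) ≤
      ENNReal.ofReal (Real.log X ^ C / X) := by
  obtain ⟨C₁, X₁, hC₁, hX₁, H⟩ := US_bound hD J hJ 1 one_pos
  refine ⟨2 * C₁ + 1, max X₁ (Real.exp 3200), by linarith, hX₁.trans (le_max_left _ _), ?_⟩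
  intro X η hX V j c hB
  have hXe : Real.exp 3200 ≤ X := (le_max_right _ _).trans hX
  have hXe' : Real.exp 100 ≤ X := (Real.exp_le_exp.2 (by norm_num)).trans hXe
  have hX0 : 0 < X := (Real.exp_pos _).trans_le hXe
  have hL : 3200 ≤ Real.log X := (Real.le_log_iff_exp_le hX0).2 hXe
  have hη0 : 0 < η := lt_of_lt_of_le (by positivity) hB.hη
  have hη1 := a7_eta hXe' hB.hη1
  obtain ⟨hb, -⟩ := H X η ((le_max_left _ _).trans hX) V j c hB
  have hLC : 0 ≤ Real.log X ^ C₁ := Real.rpow_nonneg (by linarith) _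
  have hη2 : 1 / η ^ 2 ≤ 100 * X := by
    have h1 := hB.hη
    have hs : 0 < Real.sqrt X := Real.sqrt_pos.2 hX0
    have h2 : 1 / η ≤ 10 * Real.sqrt X := by
      rw [div_le_iff₀ hη0]
      rw [div_le_iff₀ (by positivity)] at h1
      linarith
    have h3 : (1 / η) ^ 2 ≤ (10 * Real.sqrt X) ^ 2 := pow_le_pow_left₀ (by positivity) h2 2
    rw [mul_pow, Real.sq_sqrt hX0.le] at h3
    have h4 : 1 / η ^ 2 = (1 / η) ^ 2 := by rw [div_pow, one_pow]
    rw [h4]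
    linarith
  have hbound : ∀ t ∈ {t : ℝ | X ^ 2 < |t|},
      ENNReal.ofReal (‖DD (box V j c) (bN c) t‖ ^ 2 * ww X η t ^ 2) ≤
        ENNReal.ofReal ((Real.log X ^ C₁) ^ 2 * (16 * (100 * X)) / t ^ 2) := by
    intro t ht
    apply ENNReal.ofReal_le_ofReal
    have ht1 : X ^ 2 < |t| := ht
    have ht0 : t ≠ 0 := by
      rintro rfl
      rw [abs_zero] at ht1
      have : 0 < X ^ 2 := by positivity
      linarith
    have h1 : ww X η t ≤ 4 / (η * |t|) := (ww_bds X η t hη0 hη1).2.1 ht0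
    have hw0 : 0 ≤ ww X η t := norm_nonneg _
    have h2 : ww X η t ^ 2 ≤ 16 * (100 * X) / t ^ 2 := by
      have h3 : ww X η t ^ 2 ≤ (4 / (η * |t|)) ^ 2 := pow_le_pow_left₀ hw0 h1 2
      have h4 : (4 / (η * |t|)) ^ 2 = 16 * (1 / η ^ 2) / t ^ 2 := by
        rw [div_pow, mul_pow, sq_abs]
        field_simp
        norm_num
      rw [h4] at h3
      refine h3.trans ?_
      apply div_le_div_of_nonneg_right _ (sq_nonneg t)
      linarith
    have h5 : ‖DD (box V j c) (bN c) t‖ ^ 2 ≤ (Real.log X ^ C₁) ^ 2 :=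
      pow_le_pow_left₀ (norm_nonneg _) (hb t) 2
    have h6 := mul_le_mul h5 h2 (sq_nonneg _) (sq_nonneg _)
    rw [mul_div_assoc]
    exact h6
  have hms : MeasurableSet {t : ℝ | X ^ 2 < |t|} := measurableSet_lt measurable_const measurable_id.abs
  calc ∫⁻ t in {t : ℝ | X ^ 2 < |t|}, ENNReal.ofReal (‖DD (box V j c) (bN c) t‖ ^ 2 * ww X η t ^ 2) ≤
      ∫⁻ t in {t : ℝ | X ^ 2 < |t|},
        ENNReal.ofReal ((Real.log X ^ C₁) ^ 2 * (16 * (100 * X)) / t ^ 2) :=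
        setLIntegral_mono' hms hbound
    _ ≤ ENNReal.ofReal (2 * ((Real.log X ^ C₁) ^ 2 * (16 * (100 * X))) / X ^ 2) :=
        a7_tail _ _ (by positivity) (by positivity)
    _ ≤ ENNReal.ofReal (Real.log X ^ (2 * C₁ + 1) / X) := by
        apply ENNReal.ofReal_le_ofReal
        have h1 : Real.log X ^ (2 * C₁ + 1) = (Real.log X ^ C₁) ^ 2 * Real.log X := by
          rw [Real.rpow_add (by linarith), Real.rpow_one, mul_comm 2 C₁, Real.rpow_mul (by linarith)]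
          norm_num
        rw [h1, div_le_div_iff₀ (by positivity) hX0]
        have h2 : 0 ≤ (Real.log X ^ C₁) ^ 2 * X ^ 2 := by positivity
        nlinarith

/-- **The last class** `US M`, `M = ⌊(log X)/2⌋`.

Proof. `dyad_sum` with `S = US M`, `H = 2`, `p = 1` (`vol {|t| ≤ T} = 2T`), `n = ⌈3 log X⌉₊`, bound of `US_bound`:
`exp (-(1-2Jδ₀)M) ≤ e X^(-(1-2Jδ₀)/2)` (`M ≥ (log X)/2 - 1`, `0 ≤ 1 - 2Jδ₀`). -/
theorem part_last (hD : BoxDDStm) (J : ℕ) (hJ : 1 ≤ J) (δ₀ : ℝ) (hδ : 0 < δ₀) (hδ1 : 2 * J * δ₀ ≤ 1) :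
    ∃ C X₀ : ℝ, 1 ≤ C ∧ 3 ≤ X₀ ∧ ∀ X η : ℝ, X₀ ≤ X → ∀ (V j : ℕ) (c : Fin (2 * j) → ℕ), BoxHyp J X η j c →
    ∫⁻ t in US V j c δ₀ X ⌊Real.log X / 2⌋₊, ENNReal.ofReal (‖DD (box V j c) (bN c) t‖ * ww X η t) ≤
      ENNReal.ofReal (Real.log X ^ C * X ^ (-(1 / 2) + J * δ₀) / η) ∧
    ∫⁻ t in US V j c δ₀ X ⌊Real.log X / 2⌋₊, ENNReal.ofReal (‖DD (box V j c) (bN c) t‖ ^ 2 * ww X η t ^ 2) ≤
      ENNReal.ofReal (Real.log X ^ C * X ^ (-1 + 2 * J * δ₀) / η) := by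
  obtain ⟨C₁, X₁, hC₁, hX₁, H⟩ := US_bound hD J hJ δ₀ hδ
  refine ⟨2 * C₁ + 2, max X₁ (Real.exp 300), by linarith, hX₁.trans (le_max_left _ _), ?_⟩
  intro X η hX V j c hB
  have hXe : Real.exp 300 ≤ X := (le_max_right _ _).trans hX
  have hXe' : Real.exp 100 ≤ X := (Real.exp_le_exp.2 (by norm_num)).trans hXe
  have hX0 : 0 < X := (Real.exp_pos _).trans_le hXe
  have hL : 300 ≤ Real.log X := (Real.le_log_iff_exp_le hX0).2 hXe
  have hX1 : 1 ≤ X := (Real.one_le_exp (by norm_num)).trans hXe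
  have hη0 : 0 < η := lt_of_lt_of_le (by positivity) hB.hη
  have hη1 := a7_eta hXe' hB.hη1
  have hηle : η ≤ 1 := hB.hη1.trans (Real.rpow_le_one_of_one_le_of_nonpos hX1 (by norm_num))
  have hinv : 1 ≤ 1 / η := by
    rw [le_div_iff₀ hη0]
    linarith
  set L := Real.log X with hLdef
  set M : ℕ := ⌊L / 2⌋₊ with hM
  have hM1 : (M : ℝ) ≤ L / 2 := Nat.floor_le (by linarith)
  have hM2 : L / 2 - 1 ≤ M := by
    have := Nat.lt_floor_add_one (L / 2)
    rw [← hM] at this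
    linarith
  obtain ⟨-, hb⟩ := H X η ((le_max_left _ _).trans hX) V j c hB
  have hb' := hb M hM1
  have hL1 : 1 ≤ L := by linarith
  have hLC : 0 < L ^ C₁ := Real.rpow_pos_of_pos (by linarith) _
  set q : ℝ := 1 - 2 * J * δ₀ with hq
  have hq0 : 0 ≤ q := by rw [hq]; linarith
  have hq1 : q ≤ 1 := by
    rw [hq]
    have : 0 ≤ 2 * (J : ℝ) * δ₀ := by positivity
    linarith
  have hXq : X ^ (-(1 / 2) + J * δ₀ : ℝ) = Real.exp (-(q * (L / 2))) := by
    rw [Real.rpow_def_of_pos hX0]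
    congr 1
    rw [hq]
    ring
  have hexp : Real.exp (-(q * M)) ≤ 3 * X ^ (-(1 / 2) + J * δ₀ : ℝ) := by
    rw [hXq]
    have h1 : -(q * (M : ℝ)) ≤ 1 + -(q * (L / 2)) := by
      have h2 : q * (L / 2 - 1) ≤ q * M := mul_le_mul_of_nonneg_left hM2 hq0
      nlinarith
    refine (Real.exp_le_exp.2 h1).trans ?_
    rw [Real.exp_add]
    refine mul_le_mul_of_nonneg_right ?_ (Real.exp_pos _).le
    have := Real.exp_one_lt_d9
    linarith
  set n : ℕ := ⌈3 * L⌉₊ with hn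
  have hn1 : 3 * L ≤ n := Nat.le_ceil _
  have hn2 : (n : ℝ) ≤ 3 * L + 1 := (Nat.ceil_lt_add_one (by linarith)).le
  have h2n : X ^ 2 ≤ 2 ^ n := by
    have h1 : X ^ 2 = Real.exp (2 * L) := by
      rw [hLdef, ← Real.exp_log hX0, Real.log_exp, ← Real.exp_nat_mul]
      norm_num
    have h2 : (2 : ℝ) ^ n = Real.exp (Real.log 2 * n) := by
      rw [← Real.rpow_natCast, Real.rpow_def_of_pos (by norm_num)]
    rw [h1, h2]
    apply Real.exp_le_exp.2
    have h3 := Real.log_two_gt_d9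
    have h4 : (0.6931471803 : ℝ) * (3 * L) ≤ Real.log 2 * n :=
      mul_le_mul h3.le hn1 (by linarith) (by linarith)
    linarith
  have hsum := dyad_sum X η hη0 hη1 (DD (box V j c) (bN c)) (US V j c δ₀ X M) (a7_meas V j c δ₀ X M)
    (L ^ C₁ * Real.exp (-(q * M))) 2 1 n (by positivity) (by norm_num) (by norm_num) le_rfl hb'
    (fun t ht => by
      have h1 : |t| ≤ X ^ 2 := ht.2.1
      have h2 : (1 : ℝ) * 2 ^ n ≤ 1 / η * 2 ^ n := mul_le_mul_of_nonneg_right hinv (by positivity)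
      linarith)
    (fun T hT => by
      rw [Real.rpow_one, ← a7_vol]
      exact measure_mono Set.inter_subset_right)
  rw [Real.rpow_one] at hsum
  have hXp : 0 < X ^ (-(1 / 2) + J * δ₀ : ℝ) := Real.rpow_pos_of_pos hX0 _
  have hLpow : L ^ (2 * C₁ + 2) = L ^ C₁ * L ^ C₁ * L ^ 2 := by
    have h1 : 2 * C₁ + 2 = C₁ + C₁ + ((2 : ℕ) : ℝ) := by push_cast; ring
    rw [h1, Real.rpow_add (by linarith), Real.rpow_add (by linarith), Real.rpow_natCast]
  have hLC1 : 1 ≤ L ^ C₁ := Real.one_le_rpow hL1 (by linarith)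
  refine ⟨hsum.1.trans (ENNReal.ofReal_le_ofReal ?_), hsum.2.trans (ENNReal.ofReal_le_ofReal ?_)⟩
  · have h1 : (8 * (n : ℝ) + 2) * (L ^ C₁ * Real.exp (-(q * M)) * (2 * (1 / η))) ≤
        (24 * L + 10) * (L ^ C₁ * (3 * X ^ (-(1 / 2) + J * δ₀ : ℝ)) * (2 * (1 / η))) := by
      refine mul_le_mul (by linarith) ?_ (by positivity) (by linarith)
      refine mul_le_mul_of_nonneg_right ?_ (by positivity)
      exact mul_le_mul_of_nonneg_left hexp hLC.le
    refine h1.trans ?_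
    have h2 : (24 * L + 10) * (L ^ C₁ * (3 * X ^ (-(1 / 2) + J * δ₀ : ℝ)) * (2 * (1 / η))) =
        ((24 * L + 10) * 6) * (L ^ C₁ * (X ^ (-(1 / 2) + J * δ₀ : ℝ) / η)) := by ring
    have h3 : L ^ (2 * C₁ + 2) * X ^ (-(1 / 2) + J * δ₀ : ℝ) / η =
        (L ^ C₁ * L ^ 2) * (L ^ C₁ * (X ^ (-(1 / 2) + J * δ₀ : ℝ) / η)) := by
      rw [hLpow]
      ring
    rw [h2, h3]
    refine mul_le_mul_of_nonneg_right ?_ (by positivity)
    have h4 : (24 * L + 10) * 6 ≤ 1 * L ^ 2 := by nlinarith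
    exact h4.trans (mul_le_mul_of_nonneg_right hLC1 (by positivity))
  · have hXsq : X ^ (-1 + 2 * J * δ₀ : ℝ) = (X ^ (-(1 / 2) + J * δ₀ : ℝ)) ^ 2 := by
      rw [← Real.rpow_natCast, ← Real.rpow_mul hX0.le]
      congr 1
      push_cast
      ring
    have h1 : 68 * ((L ^ C₁ * Real.exp (-(q * M))) ^ 2 * (2 * (1 / η))) ≤
        68 * ((L ^ C₁ * (3 * X ^ (-(1 / 2) + J * δ₀ : ℝ))) ^ 2 * (2 * (1 / η))) := by
      refine mul_le_mul_of_nonneg_left ?_ (by norm_num)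
      refine mul_le_mul_of_nonneg_right ?_ (by positivity)
      exact pow_le_pow_left₀ (by positivity) (mul_le_mul_of_nonneg_left hexp hLC.le) 2
    refine h1.trans ?_
    have h2 : 68 * ((L ^ C₁ * (3 * X ^ (-(1 / 2) + J * δ₀ : ℝ))) ^ 2 * (2 * (1 / η))) =
        1224 * (L ^ C₁ * L ^ C₁ * ((X ^ (-(1 / 2) + J * δ₀ : ℝ)) ^ 2 / η)) := by ring
    have h3 : L ^ (2 * C₁ + 2) * X ^ (-1 + 2 * J * δ₀ : ℝ) / η =
        L ^ 2 * (L ^ C₁ * L ^ C₁ * ((X ^ (-(1 / 2) + J * δ₀ : ℝ)) ^ 2 / η)) := by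
      rw [hLpow, hXsq]
      ring
    rw [h2, h3]
    refine mul_le_mul_of_nonneg_right ?_ (by positivity)
    nlinarith

end Pool.Agent.Lib.H31P
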