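import Pool.Agent.Lib.H31P.A1
import Pool.Agent.Lib.H31P.A6

/-!
# Chunk A8 (M): summation over the classes
-/

open Finset MeasureTheory

namespace Pool.Agent.Lib.H31P

open Pool.Agent.Lib.H31W

/-- `U a \ U b` is covered by the `U s \ U (s+1)`, `a ≤ s < b` (induction on `b`; `lintegral_union_le` and monotonicity). -/
theorem chain_le (U : ℕ → Set ℝ) (f : ℝ → ENNReal) (a b : ℕ) (hab : a ≤ b) :
    ∫⁻ t in U a \ U b, f t ≤ ∑ s ∈ Ico a b, ∫⁻ t in U s \ U (s + 1), f t := by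
  induction b, hab using Nat.le_induction with
  | base => simp
  | succ b hab ih =>
    rw [Finset.sum_Ico_succ_top hab]
    have hsub : U a \ U (b + 1) ⊆ (U a \ U b) ∪ (U b \ U (b + 1)) := by
      intro t ht
      by_cases h : t ∈ U b
      · exact Or.inr ⟨h, ht.2⟩
      · exact Or.inl ⟨ht.1, h⟩
    calc ∫⁻ t in U a \ U (b + 1), f t ≤ ∫⁻ t in (U a \ U b) ∪ (U b \ U (b + 1)), f t :=
          lintegral_mono_set hsub
      _ ≤ (∫⁻ t in U a \ U b, f t) + ∫⁻ t in U b \ U (b + 1), f t := lintegral_union_le _ _ _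
      _ ≤ _ := add_le_add ih le_rfl

private theorem A8_anti (V j : ℕ) (c : Fin (2 * j) → ℕ) (δ₀ X : ℝ) (hL : 0 < Real.log X) (s s' : ℕ) (h : s ≤ s') :
    US V j c δ₀ X s' ⊆ US V j c δ₀ X s := by
  intro t ht
  refine ⟨ht.1, ht.2.1, fun k hk => (ht.2.2 k hk).trans ?_⟩
  apply Real.exp_le_exp.2
  apply neg_le_neg
  apply mul_le_mul_of_nonneg_right _ (Nat.cast_nonneg _)
  have : (s : ℝ) ≤ s' := by exact_mod_cast h
  gcongr

private theorem A8_sum (F : ℕ → ENNReal) (a b : ℕ) (B T : ℝ) (hB : 0 ≤ B)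
    (hF : ∀ s, a ≤ s → s < b → F s ≤ ENNReal.ofReal B) (hT : (b : ℝ) * B ≤ T) :
    ∑ s ∈ Ico a b, F s ≤ ENNReal.ofReal T := by
  have h1 : ∑ s ∈ Ico a b, F s ≤ ∑ _s ∈ Ico a b, ENNReal.ofReal B :=
    Finset.sum_le_sum fun s hs => hF s (Finset.mem_Ico.1 hs).1 (Finset.mem_Ico.1 hs).2
  have h2 : ∑ _s ∈ Ico a b, ENNReal.ofReal B = ENNReal.ofReal (∑ _s ∈ Ico a b, B) :=
    (ENNReal.ofReal_sum_of_nonneg fun _ _ => hB).symm
  rw [h2] at h1
  refine h1.trans (ENNReal.ofReal_le_ofReal ?_)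
  rw [Finset.sum_const, nsmul_eq_mul, Nat.card_Ico]
  refine le_trans ?_ hT
  apply mul_le_mul_of_nonneg_right _ hB
  exact_mod_cast Nat.sub_le b a

/-- `τ = log (1/η)/log X`, `2/5 ≤ τ ≤ 1/2 + κ/100`, and `(1/η)^p = exp (τ p log X)`. -/
private theorem A8_tau (κ : ℝ) (hκ : 0 < κ) (J : ℕ) (X η : ℝ) (j : ℕ) (c : Fin (2 * j) → ℕ) (hB : BoxHyp J X η j c)
    (hX : 1 < X) (hL : 300 / κ ≤ Real.log X) :
    0 < η ∧ 2 / 5 ≤ Real.log (1 / η) / Real.log X ∧ Real.log (1 / η) / Real.log X ≤ 1 / 2 + κ / 100 ∧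
      (∀ p : ℝ, (1 / η) ^ p = Real.exp (Real.log (1 / η) / Real.log X * p * Real.log X)) ∧
      (∀ b : ℝ, X ^ b ≤ η → Real.log (1 / η) / Real.log X ≤ -b) ∧
      (∀ b : ℝ, η ≤ X ^ b → -b ≤ Real.log (1 / η) / Real.log X) := by
  have hX0 : 0 < X := by linarith
  have hL0 : 0 < Real.log X := Real.log_pos hX
  have hη : 0 < η := lt_of_lt_of_le (by positivity) hB.hη
  have hup : ∀ b : ℝ, X ^ b ≤ η → Real.log (1 / η) / Real.log X ≤ -b := by
    intro b hb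
    rw [div_le_iff₀ hL0, one_div, Real.log_inv]
    have h1 := Real.log_le_log (Real.rpow_pos_of_pos hX0 b) hb
    rw [Real.log_rpow hX0] at h1
    linarith
  have hlo : ∀ b : ℝ, η ≤ X ^ b → -b ≤ Real.log (1 / η) / Real.log X := by
    intro b hb
    rw [le_div_iff₀ hL0, one_div, Real.log_inv]
    have h1 := Real.log_le_log hη hb
    rw [Real.log_rpow hX0] at h1
    linarith
  refine ⟨hη, ?_, ?_, ?_, hup, hlo⟩
  · have := hlo (-(2 / 5)) hB.hη1
    linarith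
  · rw [div_le_iff₀ hL0, one_div, Real.log_inv]
    have h1 := Real.log_le_log (by positivity) hB.hη
    have hs : 0 < Real.sqrt X := Real.sqrt_pos.2 hX0
    rw [one_div, Real.log_inv, Real.log_mul (by norm_num) hs.ne', Real.log_sqrt hX0.le] at h1
    have h10 : Real.log 10 ≤ 3 := by
      rw [Real.log_le_iff_le_exp (by norm_num)]
      have h2 := Real.exp_one_gt_d9
      have h3 : Real.exp 3 = Real.exp 1 ^ 3 := by
        rw [← Real.exp_nat_mul]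
        norm_num
      rw [h3]
      nlinarith [pow_le_pow_left₀ (by norm_num : (0 : ℝ) ≤ 2.7) (by linarith : (2.7 : ℝ) ≤ Real.exp 1) 3]
    have h4 : 3 ≤ κ / 100 * Real.log X := by
      rw [div_le_iff₀ hκ] at hL
      nlinarith
    nlinarith
  · intro p
    rw [Real.rpow_def_of_pos (by positivity)]
    congr 1
    field_simp

/-- **`L¹` sum.** `τ = log (1/η)/log X ≤ 1/2 + κ/100`. `L¹` classes: either `η ≥ X^(-5/12+κ)` and `s₀` arbitrary, or
`s₀ ≤ (min (1/4) (2/3-τ) - κ/100) log X + 1`.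

Proof. `κ₃ = κ/100`, `J`, `δ₀`, `κ'` with `2Jδ₀ + κ' ≤ κ₃/2`. For `s ≤ s₀ - 1` put `α = s/log X ≤ 1/2`; `(1/η)^(pA α) = exp (τ pA(α) log X)`. First case:
`τ ≤ 5/12 - κ`, `pA α ≤ (12/5) α` (`pA_bds`): `τ pA(α) log X ≤ (1 - κ) s`. Second case: `pA_low` with `κ₃`: `≤ (1 - κ₃) s`. So the
class contributes at most `(log X)^C exp (-(1 - κ₃/2)s + (1-κ₃)s) = (log X)^C exp (-κ₃ s/2)`; the sum over `ℓ/2 - 1 ≤ s` has at most `log X` terms, each at
most `(log X)^C exp (-κ₃ (ℓ/2 - 1)/2)`. -/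
theorem sum_L1 (hD : BoxDDStm) (hM : MLStm) (J : ℕ) (hJ : 13 ≤ J) (κ κ' δ₀ : ℝ) (hκ : 0 < κ) (hκ1 : κ ≤ 1 / 10) (hκ' : 0 < κ')
    (hδ : 0 < δ₀) (h : 2 * J * δ₀ + κ' ≤ κ / 200) :
    ∃ C X₀ : ℝ, 1 ≤ C ∧ 3 ≤ X₀ ∧ ∀ X η : ℝ, X₀ ≤ X → ∀ (V j : ℕ) (c : Fin (2 * j) → ℕ), BoxHyp J X η j c →
    ∀ s₀ : ℕ, (s₀ : ℝ) ≤ Real.log X / 2 → (X ^ (-(5 / 12) + κ) ≤ η ∨
      (s₀ : ℝ) ≤ (min (1 / 4) (2 / 3 - Real.log (1 / η) / Real.log X) - κ / 100) * Real.log X + 1) →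
    ∫⁻ t in US V j c δ₀ X ⌊ell X / 2⌋₊ \ US V j c δ₀ X s₀, ENNReal.ofReal (‖DD (box V j c) (bN c) t‖ * ww X η t) ≤
      ENNReal.ofReal (Real.log X ^ C * Real.exp (-(κ / 400 * ell X))) := by
  have hJδ : 0 ≤ 2 * (J : ℝ) * δ₀ := by positivity
  obtain ⟨C, X₁, hC, hX₁, hcls⟩ := cls_box hD hM J hJ κ' δ₀ hκ' (by linarith) hδ
  refine ⟨C + 1, max X₁ (Real.exp (300 / κ)), by linarith, hX₁.trans (le_max_left _ _), ?_⟩
  intro X η hX V j c hB s₀ hs₀ hcase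
  have hXX₁ : X₁ ≤ X := (le_max_left _ _).trans hX
  have hXe : Real.exp (300 / κ) ≤ X := (le_max_right _ _).trans hX
  have hX1 : 1 < X := by linarith
  have hX0 : 0 < X := by linarith
  have hL : 300 / κ ≤ Real.log X := (Real.le_log_iff_exp_le hX0).2 hXe
  have hL0 : 0 < Real.log X := Real.log_pos hX1
  obtain ⟨hη, hτ1, hτ2, hpow, hup, -⟩ := A8_tau κ hκ J X η j c hB hX1 hL
  obtain ⟨τ, hτ⟩ : ∃ τ : ℝ, τ = Real.log (1 / η) / Real.log X := ⟨_, rfl⟩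
  rw [← hτ] at hτ1 hτ2 hcase hpow
  have hup' : ∀ b : ℝ, X ^ b ≤ η → τ ≤ -b := fun b hb => by
    rw [hτ]
    exact hup b hb
  rcases le_total s₀ ⌊ell X / 2⌋₊ with hle | hle
  · have he : US V j c δ₀ X ⌊ell X / 2⌋₊ \ US V j c δ₀ X s₀ = ∅ :=
      Set.diff_eq_empty.2 (A8_anti V j c δ₀ X hL0 _ _ hle)
    rw [he]
    simp
  refine (chain_le (US V j c δ₀ X) _ _ _ hle).trans ?_
  refine A8_sum _ _ _ (Real.log X ^ C * Real.exp (-(κ / 200 * (ell X / 2 - 1)))) _ (by positivity) ?_ ?_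
  · intro s hs1 hs2
    have hs2' : (s : ℝ) + 1 ≤ s₀ := by exact_mod_cast hs2
    refine (hcls X η hXX₁ V j c hB s (by linarith)).1.trans (ENNReal.ofReal_le_ofReal ?_)
    rw [hpow, mul_assoc, ← Real.exp_add]
    apply mul_le_mul_of_nonneg_left _ (by positivity)
    apply Real.exp_le_exp.2
    obtain ⟨α, hα⟩ : ∃ α : ℝ, α = (s : ℝ) / Real.log X := ⟨_, rfl⟩
    have hαL : α * Real.log X = s := by
      rw [hα]
      field_simp
    have hs0 : (0 : ℝ) ≤ s := Nat.cast_nonneg s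
    have hα0 : 0 ≤ α := by rw [hα]; positivity
    have hα1 : α ≤ 1 / 2 := by
      rw [hα, div_le_iff₀ hL0]
      linarith
    rw [← hα]
    have hsl : ell X / 2 - 1 ≤ s := by
      have h1 : ell X / 2 < (⌊ell X / 2⌋₊ : ℝ) + 1 := Nat.lt_floor_add_one _
      have h2 : ((⌊ell X / 2⌋₊ : ℕ) : ℝ) ≤ s := by exact_mod_cast hs1
      linarith
    have hmain : τ * pA α ≤ (1 - κ / 100) * α := by
      rcases hcase with hc | hc
      · have h1 := hup' _ hc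
        obtain ⟨hp0, -, hp2, -⟩ := pA_bds α α hα0 le_rfl hα1
        have h2 : τ * pA α ≤ τ * (12 / 5 * α) := mul_le_mul_of_nonneg_left hp2 (by linarith)
        have h3 : τ * (12 / 5 * α) ≤ (5 / 12 - κ) * (12 / 5 * α) :=
          mul_le_mul_of_nonneg_right (by linarith) (by positivity)
        have h4 : 0 ≤ κ * α := by positivity
        nlinarith
      · have h1 : α ≤ min (1 / 4) (2 / 3 - τ) - κ / 100 := by
          rw [hα, div_le_iff₀ hL0]
          linarith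
        have h2 := min_le_left (1 / 4 : ℝ) (2 / 3 - τ)
        have h3 := min_le_right (1 / 4 : ℝ) (2 / 3 - τ)
        exact pA_low τ (κ / 100) α (by linarith) (by linarith) (by linarith) (by linarith) hα0 (by linarith)
          (by linarith)
    have h5 : τ * pA α * Real.log X ≤ (1 - κ / 100) * s := by
      rw [← hαL, ← mul_assoc]
      exact mul_le_mul_of_nonneg_right hmain hL0.le
    have h6 : (2 * (J : ℝ) * δ₀ + κ') * s ≤ κ / 200 * s := mul_le_mul_of_nonneg_right h hs0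
    have h7 : κ / 200 * (ell X / 2 - 1) ≤ κ / 200 * s := mul_le_mul_of_nonneg_left hsl (by positivity)
    nlinarith
  · rw [Real.rpow_add hL0, Real.rpow_one]
    have h1 : Real.exp (-(κ / 200 * (ell X / 2 - 1))) = Real.exp (κ / 200) * Real.exp (-(κ / 400 * ell X)) := by
      rw [← Real.exp_add]
      congr 1
      ring
    have h2 : Real.exp (κ / 200) ≤ 2 := by
      have h3 : Real.exp (κ / 200) ≤ Real.exp (1 / 2) := Real.exp_le_exp.2 (by linarith)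
      have h4 : Real.exp (1 / 2) * Real.exp (1 / 2) = Real.exp 1 := by
        rw [← Real.exp_add]
        norm_num
      have h5 := Real.exp_one_lt_d9
      have h6 := Real.exp_pos (1 / 2)
      nlinarith
    rw [h1]
    have h3 : (s₀ : ℝ) * Real.exp (κ / 200) ≤ Real.log X := by
      have h4 : (s₀ : ℝ) * Real.exp (κ / 200) ≤ (Real.log X / 2) * 2 :=
        mul_le_mul hs₀ h2 (Real.exp_pos _).le (by linarith)
      linarith
    have h5 : 0 ≤ Real.log X ^ C * Real.exp (-(κ / 400 * ell X)) := by positivity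
    calc (s₀ : ℝ) * (Real.log X ^ C * (Real.exp (κ / 200) * Real.exp (-(κ / 400 * ell X)))) =
          ((s₀ : ℝ) * Real.exp (κ / 200)) * (Real.log X ^ C * Real.exp (-(κ / 400 * ell X))) := by ring
      _ ≤ Real.log X * (Real.log X ^ C * Real.exp (-(κ / 400 * ell X))) := mul_le_mul_of_nonneg_right h3 h5
      _ = Real.log X ^ C * Real.log X * Real.exp (-(κ / 400 * ell X)) := by ring

/-- **`L²` sum.** `η ≤ X^(-5/12+κ)`.

Proof. For `s₀ ≤ s < M`, `M = ⌊(log X)/2⌋`, `α = s/log X ≥ min (1/4) (2/3-τ) - κ/100`: the exponent of `X` in the bound of `cls_box` is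
`-(2 - 4Jδ₀ - κ')α + τ pA(α) ≤ -(2α - τ pA(α)) + κ/100 ≤ -(2/3 - τ) + κ/2 + κ/100` (`pA_high`; `τ ≥ 5/12 - κ`, `τ ≤ 1/2 + κ/100` for large `X`), at
most `log X` classes. -/
theorem sum_L2 (hD : BoxDDStm) (hM : MLStm) (J : ℕ) (hJ : 13 ≤ J) (κ κ' δ₀ : ℝ) (hκ : 0 < κ) (hκ1 : κ ≤ 1 / 10) (hκ' : 0 < κ')
    (hδ : 0 < δ₀) (h : 2 * J * δ₀ + κ' ≤ κ / 200) :
    ∃ X₀ : ℝ, 3 ≤ X₀ ∧ ∀ X η : ℝ, X₀ ≤ X → ∀ (V j : ℕ) (c : Fin (2 * j) → ℕ), BoxHyp J X η j c →
    η ≤ X ^ (-(5 / 12) + κ) → ∀ s₀ : ℕ, s₀ ≤ ⌊Real.log X / 2⌋₊ →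
    (min (1 / 4) (2 / 3 - Real.log (1 / η) / Real.log X) - κ / 100) * Real.log X ≤ s₀ →
    ∫⁻ t in US V j c δ₀ X s₀ \ US V j c δ₀ X ⌊Real.log X / 2⌋₊,
      ENNReal.ofReal (‖DD (box V j c) (bN c) t‖ ^ 2 * ww X η t ^ 2) ≤
      ENNReal.ofReal (X ^ (-(2 / 3) + 3 / 4 * κ) / η) := by
  have hJδ : 0 ≤ 2 * (J : ℝ) * δ₀ := by positivity
  obtain ⟨C, X₁, hC, hX₁, hcls⟩ := cls_box hD hM J hJ κ' δ₀ hκ' (by linarith) hδ
  have hev : ∀ᶠ X : ℝ in Filter.atTop, Real.log X ^ (C + 1) ≤ Real.exp (κ / 8 * Real.log X) := by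
    have h1 := (isLittleO_rpow_exp_pos_mul_atTop (C + 1) (by positivity : 0 < κ / 8)).bound (zero_lt_one)
    have h2 := Real.tendsto_log_atTop.eventually h1
    have h3 := Real.tendsto_log_atTop.eventually (Filter.eventually_ge_atTop (0 : ℝ))
    filter_upwards [h2, h3] with X hX hX'
    rw [one_mul, Real.norm_eq_abs, Real.norm_eq_abs, abs_of_nonneg (Real.exp_pos _).le,
      abs_of_nonneg (Real.rpow_nonneg hX' _)] at hX
    exact hX
  obtain ⟨X₂, hX₂⟩ := Filter.eventually_atTop.1 hev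
  refine ⟨max (max X₁ X₂) (Real.exp (300 / κ)), hX₁.trans ((le_max_left _ _).trans (le_max_left _ _)), ?_⟩
  intro X η hX V j c hB hη5 s₀ hs₀ hs₁
  have hXX₁ : X₁ ≤ X := ((le_max_left _ _).trans (le_max_left _ _)).trans hX
  have hXX₂ : X₂ ≤ X := ((le_max_right _ _).trans (le_max_left _ _)).trans hX
  have hXe : Real.exp (300 / κ) ≤ X := (le_max_right _ _).trans hX
  have hX1 : 1 < X := by linarith
  have hX0 : 0 < X := by linarith
  have hL : 300 / κ ≤ Real.log X := (Real.le_log_iff_exp_le hX0).2 hXe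
  have hL0 : 0 < Real.log X := Real.log_pos hX1
  obtain ⟨hη, hτ1, hτ2, hpow, -, hlo⟩ := A8_tau κ hκ J X η j c hB hX1 hL
  have hlo5 := hlo _ hη5
  obtain ⟨τ, hτ⟩ : ∃ τ : ℝ, τ = Real.log (1 / η) / Real.log X := ⟨_, rfl⟩
  rw [← hτ] at hτ1 hτ2 hs₁ hpow hlo5
  have hML : ((⌊Real.log X / 2⌋₊ : ℕ) : ℝ) ≤ Real.log X / 2 := Nat.floor_le (by linarith)
  refine (chain_le (US V j c δ₀ X) _ _ _ hs₀).trans ?_
  refine A8_sum _ _ _ (Real.log X ^ C * (Real.exp ((-(2 / 3) + κ / 2 + κ / 200) * Real.log X) / η)) _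
    (by positivity) ?_ ?_
  · intro s hs1 hs2
    have hs2' : (s : ℝ) + 1 ≤ (⌊Real.log X / 2⌋₊ : ℕ) := by exact_mod_cast hs2
    have hs1' : (s₀ : ℝ) ≤ s := by exact_mod_cast hs1
    refine (hcls X η hXX₁ V j c hB s (by linarith)).2.trans (ENNReal.ofReal_le_ofReal ?_)
    have hη1 : 1 / η = Real.exp (τ * 1 * Real.log X) := by
      rw [← hpow, Real.rpow_one]
    rw [hpow, mul_assoc, ← Real.exp_add, div_eq_mul_one_div _ η, hη1, ← Real.exp_add]
    apply mul_le_mul_of_nonneg_left _ (by positivity)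
    apply Real.exp_le_exp.2
    obtain ⟨α, hα⟩ : ∃ α : ℝ, α = (s : ℝ) / Real.log X := ⟨_, rfl⟩
    have hαL : α * Real.log X = s := by
      rw [hα]
      field_simp
    have hs0 : (0 : ℝ) ≤ s := Nat.cast_nonneg s
    have hα0 : 0 ≤ α := by rw [hα]; positivity
    have hα1 : α ≤ 1 / 2 := by
      rw [hα, div_le_iff₀ hL0]
      linarith
    rw [← hα]
    have hα2 : min (1 / 4) (2 / 3 - τ) - κ / 100 ≤ α := by
      rw [hα, le_div_iff₀ hL0]
      linarith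
    have h1 := pA_high τ κ α hκ hκ1 (by linarith) hτ2 hα0 hα2 hα1
    have h2 := mul_le_mul_of_nonneg_right h1 hL0.le
    have h3 : (2 * α - τ * pA α) * Real.log X = 2 * s - τ * pA α * Real.log X := by
      rw [sub_mul, mul_assoc 2 α, hαL]
    have h6 : (4 * (J : ℝ) * δ₀ + κ') * s ≤ κ / 100 * s := by
      apply mul_le_mul_of_nonneg_right _ hs0
      linarith
    have h7 : κ / 100 * s ≤ κ / 200 * Real.log X := by
      have h8 : (s : ℝ) ≤ Real.log X / 2 := by linarith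
      nlinarith
    nlinarith
  · have h1 := hX₂ X hXX₂
    rw [Real.rpow_add hL0, Real.rpow_one] at h1
    have h2 : X ^ (-(2 / 3) + 3 / 4 * κ) = Real.exp ((-(2 / 3) + 3 / 4 * κ) * Real.log X) := by
      rw [Real.rpow_def_of_pos hX0]
      congr 1
      ring
    rw [h2]
    have h3 : 0 ≤ Real.log X ^ C := by positivity
    have h4 : ((⌊Real.log X / 2⌋₊ : ℕ) : ℝ) ≤ Real.log X := by linarith
    have h5 : ((⌊Real.log X / 2⌋₊ : ℕ) : ℝ) * Real.log X ^ C ≤ Real.exp (κ / 8 * Real.log X) := by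
      refine le_trans ?_ h1
      rw [mul_comm (Real.log X ^ C)]
      exact mul_le_mul_of_nonneg_right h4 h3
    have h6 : Real.exp (κ / 8 * Real.log X) * Real.exp ((-(2 / 3) + κ / 2 + κ / 200) * Real.log X) ≤
        Real.exp ((-(2 / 3) + 3 / 4 * κ) * Real.log X) := by
      rw [← Real.exp_add]
      apply Real.exp_le_exp.2
      nlinarith [mul_pos hκ hL0]
    have h7 : 0 ≤ Real.exp ((-(2 / 3) + κ / 2 + κ / 200) * Real.log X) / η := by positivity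
    calc ((⌊Real.log X / 2⌋₊ : ℕ) : ℝ) *
          (Real.log X ^ C * (Real.exp ((-(2 / 3) + κ / 2 + κ / 200) * Real.log X) / η)) =
          (((⌊Real.log X / 2⌋₊ : ℕ) : ℝ) * Real.log X ^ C) *
            (Real.exp ((-(2 / 3) + κ / 2 + κ / 200) * Real.log X) / η) := by ring
      _ ≤ Real.exp (κ / 8 * Real.log X) * (Real.exp ((-(2 / 3) + κ / 2 + κ / 200) * Real.log X) / η) :=
          mul_le_mul_of_nonneg_right h5 h7
      _ = Real.exp (κ / 8 * Real.log X) * Real.exp ((-(2 / 3) + κ / 2 + κ / 200) * Real.log X) / η := by ring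
      _ ≤ _ := by gcongr

end Pool.Agent.Lib.H31P
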