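import Pool.Agent.Lib.H31P.A7
import Pool.Agent.Lib.H31P.A8

/-!
# Chunk A9 (M): one box (`BoxStm`)
-/

open Finset MeasureTheory

namespace Pool.Agent.Lib.H31P

open Pool.Agent.Lib.H31W

private lemma A9_three (f : ℝ → ENNReal) (E A B C : Set ℝ) (h : E ⊆ A ∪ B ∪ C) :
    ∫⁻ t in E, f t ≤ (∫⁻ t in A, f t) + (∫⁻ t in B, f t) + (∫⁻ t in C, f t) := by
  calc ∫⁻ t in E, f t ≤ ∫⁻ t in A ∪ B ∪ C, f t := lintegral_mono_set h
    _ ≤ (∫⁻ t in A ∪ B, f t) + (∫⁻ t in C, f t) := lintegral_union_le _ _ _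
    _ ≤ (∫⁻ t in A, f t) + (∫⁻ t in B, f t) + (∫⁻ t in C, f t) := by
        gcongr
        exact lintegral_union_le _ _ _

private lemma A9_add3 (x y z : ENNReal) (a b c d : ℝ) (ha : 0 ≤ a) (hb : 0 ≤ b) (hc : 0 ≤ c)
    (hx : x ≤ ENNReal.ofReal a) (hy : y ≤ ENNReal.ofReal b) (hz : z ≤ ENNReal.ofReal c) (h : a + b + c ≤ d) :
    x + y + z ≤ ENNReal.ofReal d := by
  calc x + y + z ≤ ENNReal.ofReal a + ENNReal.ofReal b + ENNReal.ofReal c := by gcongr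
    _ = ENNReal.ofReal (a + b + c) := by
        rw [ENNReal.ofReal_add (by positivity) hc, ENNReal.ofReal_add ha hb]
    _ ≤ ENNReal.ofReal d := ENNReal.ofReal_le_ofReal h

private lemma A9_Qb (κ₀ κ X η : ℝ) (h : κ₀ ≤ κ) (hX : 1 ≤ X) (hη : 0 < η) : Qb κ₀ X η ≤ Qb κ X η := by
  have h1 : X ^ (-(5 / 12) + κ₀) ≤ X ^ (-(5 / 12) + κ) := Real.rpow_le_rpow_of_exponent_le hX (by linarith)
  have h2 : X ^ (-(2 / 3) + κ₀) ≤ X ^ (-(2 / 3) + κ) := Real.rpow_le_rpow_of_exponent_le hX (by linarith)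
  have h3 : 0 ≤ X ^ (-(2 / 3) + κ) / η := by positivity
  unfold Qb
  by_cases h4 : X ^ (-(5 / 12) + κ) ≤ η
  · rw [if_pos h4, if_pos (h1.trans h4)]
  · rw [if_neg h4]
    by_cases h5 : X ^ (-(5 / 12) + κ₀) ≤ η
    · rw [if_pos h5]
      linarith
    · rw [if_neg h5]
      have : X ^ (-(2 / 3) + κ₀) / η ≤ X ^ (-(2 / 3) + κ) / η := by gcongr
      linarith

private lemma A9_ell_atTop : Filter.Tendsto ell Filter.atTop Filter.atTop := by
  have h1 : Filter.Tendsto (fun y : ℝ => y ^ (1 / 10 : ℝ)) Filter.atTop Filter.atTop :=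
    tendsto_rpow_atTop (by norm_num)
  exact h1.comp Real.tendsto_log_atTop

/-- `(log X)^C ≤ exp (ε ℓ)`. -/
private lemma A9_logC (C ε : ℝ) (hε : 0 < ε) : ∀ᶠ X : ℝ in Filter.atTop, Real.log X ^ C ≤ Real.exp (ε * ell X) := by
  have h1 := (isLittleO_rpow_exp_pos_mul_atTop (10 * C) hε).bound (c := 1) one_pos
  have h2 := A9_ell_atTop.eventually h1
  filter_upwards [h2, Filter.eventually_ge_atTop (1 : ℝ)] with X hX hX1
  have hL : 0 ≤ Real.log X := Real.log_nonneg hX1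
  have h3 : ell X ^ (10 * C) = Real.log X ^ C := by
    unfold ell
    rw [← Real.rpow_mul hL]
    congr 1
    ring
  rw [h3, Real.norm_eq_abs, abs_of_nonneg (Real.rpow_nonneg hL _), Real.norm_eq_abs, Real.abs_exp, one_mul] at hX
  exact hX

private lemma A9_three_le (ε : ℝ) (hε : 0 < ε) : ∀ᶠ X : ℝ in Filter.atTop, 3 ≤ Real.exp (ε * ell X) := by
  have h1 : Filter.Tendsto (fun X => Real.exp (ε * ell X)) Filter.atTop Filter.atTop :=
    Real.tendsto_exp_atTop.comp (A9_ell_atTop.const_mul_atTop hε)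
  exact h1.eventually_ge_atTop 3

/-- `ℓ ≤ ε log X`. -/
private lemma A9_ell_le (ε : ℝ) (hε : 0 < ε) : ∀ᶠ X : ℝ in Filter.atTop, ell X ≤ ε * Real.log X := by
  have h1 : Filter.Tendsto (fun y : ℝ => y ^ (-(9 / 10) : ℝ)) Filter.atTop (nhds 0) :=
    tendsto_rpow_neg_atTop (by norm_num)
  have h2 := (h1.comp Real.tendsto_log_atTop).eventually (ge_mem_nhds hε)
  filter_upwards [h2, Real.tendsto_log_atTop.eventually_gt_atTop 0] with X hX hL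
  have h3 : ell X = Real.log X ^ (-(9 / 10) : ℝ) * Real.log X := by
    unfold ell
    rw [← Real.rpow_add_one hL.ne']
    norm_num
  rw [h3]
  exact mul_le_mul_of_nonneg_right hX hL.le

private lemma A9_exp_comb (C a b : ℝ) (hab : b < a) : ∀ᶠ X : ℝ in Filter.atTop,
    Real.log X ^ C * Real.exp (-(a * ell X)) ≤ 1 / 3 * Real.exp (-(b * ell X)) := by
  have hε : 0 < (a - b) / 2 := by linarith
  filter_upwards [A9_logC C _ hε, A9_three_le _ hε] with X h1 h2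
  have h3 : Real.exp (-(b * ell X)) =
      Real.exp ((a - b) / 2 * ell X) * Real.exp ((a - b) / 2 * ell X) * Real.exp (-(a * ell X)) := by
    rw [← Real.exp_add, ← Real.exp_add]
    congr 1
    ring
  rw [h3]
  have h4 : 0 < Real.exp (-(a * ell X)) := Real.exp_pos _
  have h5 : 0 < Real.exp ((a - b) / 2 * ell X) := Real.exp_pos _
  have h6 : Real.log X ^ C ≤ 1 / 3 * (Real.exp ((a - b) / 2 * ell X) * Real.exp ((a - b) / 2 * ell X)) := by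
    nlinarith
  calc Real.log X ^ C * Real.exp (-(a * ell X))
      ≤ 1 / 3 * (Real.exp ((a - b) / 2 * ell X) * Real.exp ((a - b) / 2 * ell X)) * Real.exp (-(a * ell X)) :=
        mul_le_mul_of_nonneg_right h6 h4.le
    _ = _ := by ring

/-- `(log X)^C ≤ X^ε`. -/
private lemma A9_log_pow (C ε : ℝ) (hε : 0 < ε) : ∀ᶠ X : ℝ in Filter.atTop, Real.log X ^ C ≤ X ^ ε := by
  have h1 := (isLittleO_log_rpow_rpow_atTop C hε).bound (c := 1) one_pos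
  filter_upwards [h1, Filter.eventually_ge_atTop (1 : ℝ)] with X hX hX1
  have hL : 0 ≤ Real.log X := Real.log_nonneg hX1
  rw [Real.norm_eq_abs, abs_of_nonneg (Real.rpow_nonneg hL _), Real.norm_eq_abs,
    abs_of_nonneg (Real.rpow_nonneg (by linarith) _), one_mul] at hX
  exact hX

private lemma A9_asym (C₁ C₂ C₃ C₄ κ : ℝ) (hκ : 0 < κ) (hκ1 : κ ≤ 1 / 10) : ∀ᶠ X : ℝ in Filter.atTop,
    Real.log X ^ C₁ * Real.exp (-(4 * ell X)) ≤ 1 / 3 * Real.exp (-(κ / 800 * ell X)) ∧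
    Real.log X ^ C₄ * Real.exp (-(κ / 400 * ell X)) ≤ 1 / 3 * Real.exp (-(κ / 800 * ell X)) ∧
    Real.log X ^ C₃ * X ^ (-(1 / 12) : ℝ) ≤ 1 / 3 * Real.exp (-(κ / 800 * ell X)) ∧
    Real.log X ^ C₂ / X ≤ X ^ (-(19 / 20) : ℝ) ∧
    2 ≤ X ^ (κ / 4) ∧
    Real.log X ^ C₃ * X ^ (-(1 / 3) : ℝ) ≤ 1 / 2 ∧
    Real.log 10 ≤ κ / 100 * Real.log X ∧
    ell X ≤ 1 / 10 * Real.log X ∧
    4 ≤ Real.log X := by
  have e1 := A9_exp_comb C₁ 4 (κ / 800) (by linarith)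
  have e2 := A9_exp_comb C₄ (κ / 400) (κ / 800) (by linarith)
  have e3 := A9_exp_comb C₃ 1 (κ / 800) (by linarith)
  have e3' := A9_ell_le (1 / 12) (by norm_num)
  have e4 := A9_log_pow C₂ (1 / 20) (by norm_num)
  have e5 : ∀ᶠ X : ℝ in Filter.atTop, (2 : ℝ) ≤ X ^ (κ / 4) :=
    (tendsto_rpow_atTop (by positivity : 0 < κ / 4)).eventually_ge_atTop 2
  have e6 := A9_log_pow C₃ (1 / 6) (by norm_num)
  have e6' : ∀ᶠ X : ℝ in Filter.atTop, (2 : ℝ) ≤ X ^ (1 / 6 : ℝ) :=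
    (tendsto_rpow_atTop (by positivity : (0 : ℝ) < 1 / 6)).eventually_ge_atTop 2
  have e7 : ∀ᶠ X : ℝ in Filter.atTop, Real.log 10 ≤ κ / 100 * Real.log X :=
    (Real.tendsto_log_atTop.const_mul_atTop (by positivity : 0 < κ / 100)).eventually_ge_atTop _
  have e8 := A9_ell_le (1 / 10) (by norm_num)
  have e9 : ∀ᶠ X : ℝ in Filter.atTop, 4 ≤ Real.log X := Real.tendsto_log_atTop.eventually_ge_atTop _
  filter_upwards [e1, e2, e3, e3', e4, e5, e6, e6', e7, e8, e9, Filter.eventually_ge_atTop (1 : ℝ)] with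
    X h1 h2 h3 h3' h4 h5 h6 h6' h7 h8 h9 hX1
  have hX0 : 0 < X := by linarith
  refine ⟨h1, h2, ?_, ?_, h5, ?_, h7, h8, h9⟩
  · refine le_trans ?_ h3
    have : X ^ (-(1 / 12) : ℝ) ≤ Real.exp (-(1 * ell X)) := by
      rw [Real.rpow_def_of_pos hX0]
      apply Real.exp_le_exp.mpr
      linarith
    exact mul_le_mul_of_nonneg_left this (Real.rpow_nonneg (by linarith) _)
  · have : X ^ (-(19 / 20) : ℝ) = X ^ (1 / 20 : ℝ) / X := by
      rw [← Real.rpow_sub_one hX0.ne']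
      norm_num
    rw [this]
    gcongr
  · have h10 : X ^ (-(1 / 3) : ℝ) = (X ^ (1 / 6 : ℝ))⁻¹ * (X ^ (1 / 6 : ℝ))⁻¹ := by
      rw [← Real.rpow_neg hX0.le, ← Real.rpow_add hX0]
      norm_num
    have h11 : 0 < X ^ (1 / 6 : ℝ) := by positivity
    rw [h10, ← mul_assoc]
    have h12 : Real.log X ^ C₃ * (X ^ (1 / 6 : ℝ))⁻¹ ≤ 1 := by
      rw [← div_eq_mul_inv, div_le_one h11]
      exact h6
    have h13 : (X ^ (1 / 6 : ℝ))⁻¹ ≤ 1 / 2 := by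
      rw [show (1 / 2 : ℝ) = 2⁻¹ by norm_num]
      exact inv_anti₀ (by norm_num) h6'
    calc Real.log X ^ C₃ * (X ^ (1 / 6 : ℝ))⁻¹ * (X ^ (1 / 6 : ℝ))⁻¹ ≤ 1 * (1 / 2) := by
          apply mul_le_mul h12 h13 (by positivity) (by norm_num)
      _ = 1 / 2 := by norm_num

/-- **`BoxStm`.**

Proof. Replace `κ` by `κ₀ = min κ (1/10)` (`Qb κ₀ X η ≤ Qb κ X η`? The case distinction of `Qb` depends on `κ`: if `X^(-5/12+κ) ≤ η` then also
`X^(-5/12+κ₀) ≤ η` and both first terms vanish; otherwise `Qb κ` contains `X^(-2/3+κ)/η ≥ X^(-2/3+κ₀)/η`.) `J₀ = 13`. Given `J`: `κ' = κ₀/400`,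
`δ₀ = κ₀/(800 J)`, `κ₁ = 2/25` (so `BoxHyp` holds), `c₀ = κ₀/800`, `X₀` large. `L = log X`, `τ = log (1/η)/L`, `M = ⌊L/2⌋₊`, `s₁ = ⌊ℓ/2⌋₊`.

Case 1: `X^(-5/12+κ₀) ≤ η`. `E = {|t| ≤ X²} = {|t| ≤ e^(4ℓ)} ∪ (US s₁ \ US M) ∪ US M` (`US_low`). `L¹` integral: `part_low`
`L^C e^(-4ℓ)`, `sum_L1` `L^C e^(-κ₀ℓ/400)`, `part_last` `L^C X^(-1/2+Jδ₀) X^(5/12-κ₀)`, `Jδ₀ = κ₀/800`. Each is `≤ (1/3) e^(-c₀ℓ)` for large `X`.
`E^c = {|t| > X²}`: `part_high` `L^C/X ≤ X^(-19/20)`.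

Case 2: `η < X^(-5/12+κ₀)`. `s₀` = the least natural number `≥ (min (1/4) (2/3-τ) - κ₀/100) L` (`⌈·⌉₊`; `min ≥ 1/6 - κ₀/100`), at least `s₁`, at most `M` and
`≤ (...) L + 1`. `E = {|t| ≤ e^(4ℓ)} ∪ (US s₁ \ US s₀)`; `E^c ⊆ {|t| > X²} ∪ (US s₀ \ US M) ∪ US M` (`US_low`, `US_antitone`). `L¹`: `part_low`,
`sum_L1`. `L²`: `part_high` `≤ (1/3)X^(-19/20)`..., `sum_L2` `X^(-2/3+3κ₀/4)/η`, `part_last` `L^C X^(-1+2Jδ₀)/η`; together
`≤ X^(-2/3+κ₀)/η + X^(-19/20)`. `E` is measurable (`US_measurable`). `ww X η t ^ 2 = ‖mm η t - mm (eta1 X) t‖ ^ 2` by definition. -/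
theorem box_stm (hD : BoxDDStm) (hM : MLStm) (hS : SupStm) : BoxStm := by
  intro κ hκ
  refine ⟨13, by norm_num, fun J hJ => ?_⟩
  obtain ⟨κ₀, hκ₀, hκ₀1, hκ₀κ⟩ : ∃ κ₀ : ℝ, 0 < κ₀ ∧ κ₀ ≤ 1 / 10 ∧ κ₀ ≤ κ :=
    ⟨min κ (1 / 10), lt_min hκ (by norm_num), min_le_right _ _, min_le_left _ _⟩
  have hJ1 : 1 ≤ J := by omega
  have hJ0 : (0 : ℝ) < J := by exact_mod_cast hJ1
  obtain ⟨δ₀, hδdef⟩ : ∃ δ₀ : ℝ, δ₀ = κ₀ / (800 * J) := ⟨_, rfl⟩
  have hδ : 0 < δ₀ := by rw [hδdef]; positivity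
  have hJδ : (J : ℝ) * δ₀ = κ₀ / 800 := by
    rw [hδdef]
    field_simp
  have hδ1 : 2 * J * δ₀ ≤ 1 := by nlinarith
  have hκ' : 0 < κ₀ / 400 := by positivity
  have hsum : 2 * J * δ₀ + κ₀ / 400 ≤ κ₀ / 200 := by nlinarith
  obtain ⟨C₁, X₁, hC₁, hX₁, P₁⟩ := part_low hD J hJ1
  obtain ⟨C₂, X₂, hC₂, hX₂, P₂⟩ := part_high hD J hJ1
  obtain ⟨C₃, X₃, hC₃, hX₃, P₃⟩ := part_last hD J hJ1 δ₀ hδ hδ1
  obtain ⟨C₄, X₄, hC₄, hX₄, P₄⟩ := sum_L1 hD hM J hJ κ₀ (κ₀ / 400) δ₀ hκ₀ hκ₀1 hκ' hδ hsum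
  obtain ⟨X₅, hX₅, P₅⟩ := sum_L2 hD hM J hJ κ₀ (κ₀ / 400) δ₀ hκ₀ hκ₀1 hκ' hδ hsum
  obtain ⟨X₆, hX₆, P₆⟩ := US_low hS J δ₀ hδ
  obtain ⟨X₇, h7⟩ := Filter.eventually_atTop.mp (A9_asym C₁ C₂ C₃ C₄ κ₀ hκ₀ hκ₀1)
  obtain ⟨X₀, g1, g2, g3, g4, g5, g6, g7⟩ : ∃ X₀ : ℝ, X₁ ≤ X₀ ∧ X₂ ≤ X₀ ∧ X₃ ≤ X₀ ∧ X₄ ≤ X₀ ∧ X₅ ≤ X₀ ∧
      X₆ ≤ X₀ ∧ X₇ ≤ X₀ :=
    ⟨max X₁ (max X₂ (max X₃ (max X₄ (max X₅ (max X₆ X₇))))), by simp, by simp, by simp, by simp, by simp,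
      by simp, by simp⟩
  refine ⟨2 / 25, κ₀ / 800, X₀, by norm_num, by positivity, by linarith, ?_⟩
  intro X η hX hη hη1 j V hj hjJ c hc hcm hcs
  have hB : BoxHyp J X η j c := ⟨hη, hη1, hj, hjJ, hc, hcm, hcs⟩
  obtain ⟨a1, a2, a3, a4, a5, a6, a7, a8, a9⟩ := h7 X (by linarith)
  have p1 := P₁ X η (by linarith) V j c hB
  have p2 := P₂ X η (by linarith) V j c hB
  obtain ⟨p3, p3'⟩ := P₃ X η (by linarith) V j c hB
  have p4 := P₄ X η (by linarith) V j c hB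
  have p5 := P₅ X η (by linarith) V j c hB
  have p6 := P₆ X η (by linarith) V j c hB
  have hX3 : 3 ≤ X := by linarith
  have hX0 : 0 < X := by linarith
  have hX1 : 1 ≤ X := by linarith
  have hη0 : 0 < η := lt_of_lt_of_le (by positivity) hη
  have hL0 : 0 < Real.log X := by linarith
  have hell : 0 ≤ ell X := by
    unfold ell
    positivity
  have hs1 : ((⌊ell X / 2⌋₊ : ℕ) : ℝ) ≤ ell X / 2 := Nat.floor_le (by positivity)
  have hMle : ((⌊Real.log X / 2⌋₊ : ℕ) : ℝ) ≤ Real.log X / 2 := Nat.floor_le (by positivity)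
  have hlow : ∀ t : ℝ, ¬ |t| ≤ Real.exp (4 * ell X) → |t| ≤ X ^ 2 → t ∈ US V j c δ₀ X ⌊ell X / 2⌋₊ := by
    intro t h1 h2
    exact p6 _ hs1 t (not_le.mp h1) h2
  have hmeasLow : MeasurableSet {t : ℝ | |t| ≤ Real.exp (4 * ell X)} :=
    measurableSet_le (continuous_abs.measurable) measurable_const
  have hQ := A9_Qb κ₀ κ X η hκ₀κ hX1 hη0
  by_cases hcase : X ^ (-(5 / 12) + κ₀) ≤ η
  · -- case 1
    refine ⟨{t : ℝ | |t| ≤ X ^ 2}, measurableSet_le (continuous_abs.measurable) measurable_const, ?_, ?_⟩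
    · have hcov : {t : ℝ | |t| ≤ X ^ 2} ⊆ {t : ℝ | |t| ≤ Real.exp (4 * ell X)} ∪
          (US V j c δ₀ X ⌊ell X / 2⌋₊ \ US V j c δ₀ X ⌊Real.log X / 2⌋₊) ∪ US V j c δ₀ X ⌊Real.log X / 2⌋₊ := by
        intro t ht
        by_cases h1 : |t| ≤ Real.exp (4 * ell X)
        · exact Or.inl (Or.inl h1)
        · have h2 := hlow t h1 ht
          by_cases h3 : t ∈ US V j c δ₀ X ⌊Real.log X / 2⌋₊
          · exact Or.inr h3
          · exact Or.inl (Or.inr ⟨h2, h3⟩)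
      refine le_trans (A9_three _ _ _ _ _ hcov) ?_
      have q4 := p4 ⌊Real.log X / 2⌋₊ hMle (Or.inl hcase)
      refine A9_add3 _ _ _ _ _ _ _ ?_ ?_ ?_ p1 q4 p3 ?_
      · positivity
      · positivity
      · positivity
      · have h3 : Real.log X ^ C₃ * X ^ (-(1 / 2) + J * δ₀) / η ≤ Real.log X ^ C₃ * X ^ (-(1 / 12) : ℝ) := by
          rw [div_le_iff₀ hη0, mul_assoc]
          refine mul_le_mul_of_nonneg_left ?_ (by positivity)
          calc X ^ (-(1 / 2) + J * δ₀) ≤ X ^ (-(1 / 12) : ℝ) * X ^ (-(5 / 12) + κ₀) := by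
                rw [← Real.rpow_add hX0]
                apply Real.rpow_le_rpow_of_exponent_le hX1
                rw [hJδ]
                linarith
            _ ≤ X ^ (-(1 / 12) : ℝ) * η := mul_le_mul_of_nonneg_left hcase (by positivity)
        linarith
    · have hset : {t : ℝ | |t| ≤ X ^ 2}ᶜ = {t : ℝ | X ^ 2 < |t|} := by
        ext t
        simp
      rw [hset]
      refine le_trans p2 (ENNReal.ofReal_le_ofReal ?_)
      refine le_trans ?_ hQ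
      unfold Qb
      rw [if_pos hcase]
      linarith
  · -- case 2
    have hcase' : η < X ^ (-(5 / 12) + κ₀) := not_le.mp hcase
    obtain ⟨τ, hτ⟩ : ∃ τ : ℝ, τ = Real.log (1 / η) / Real.log X := ⟨_, rfl⟩
    rw [← hτ] at p4 p5
    have hτ1 : τ ≤ 1 / 2 + κ₀ / 100 := by
      rw [hτ, div_le_iff₀ hL0]
      have h1 : 1 / η ≤ 10 * Real.sqrt X := by
        rw [div_le_iff₀ hη0]
        rw [div_le_iff₀ (by positivity)] at hη
        linarith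
      have h2 : Real.log (1 / η) ≤ Real.log (10 * Real.sqrt X) := Real.log_le_log (by positivity) h1
      rw [Real.log_mul (by norm_num) (by positivity), Real.log_sqrt hX0.le] at h2
      linarith
    obtain ⟨μ, hμ⟩ : ∃ μ : ℝ, μ = min (1 / 4) (2 / 3 - τ) - κ₀ / 100 := ⟨_, rfl⟩
    rw [← hμ] at p4 p5
    have hμ1 : 1 / 10 ≤ μ := by
      rw [hμ]
      have : 1 / 6 - κ₀ / 100 ≤ min (1 / 4) (2 / 3 - τ) := by
        apply le_min <;> linarith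
      linarith
    have hμ2 : μ ≤ 1 / 4 := by
      rw [hμ]
      have := min_le_left (1 / 4 : ℝ) (2 / 3 - τ)
      linarith
    have hμL : 0 ≤ μ * Real.log X := by positivity
    obtain ⟨s₀, hs₀⟩ : ∃ s₀ : ℕ, s₀ = ⌈μ * Real.log X⌉₊ := ⟨_, rfl⟩
    have hs0a : μ * Real.log X ≤ s₀ := by
      rw [hs₀]
      exact Nat.le_ceil _
    have hs0b : (s₀ : ℝ) ≤ μ * Real.log X + 1 := by
      rw [hs₀]
      exact (Nat.ceil_lt_add_one hμL).le
    have hs0c : (s₀ : ℝ) ≤ Real.log X / 2 := by nlinarith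
    have hs0d : s₀ ≤ ⌊Real.log X / 2⌋₊ := Nat.le_floor hs0c
    have q4 := p4 s₀ hs0c (Or.inr hs0b)
    have q5 := p5 hcase'.le s₀ hs0d hs0a
    refine ⟨{t : ℝ | |t| ≤ Real.exp (4 * ell X)} ∪ (US V j c δ₀ X ⌊ell X / 2⌋₊ \ US V j c δ₀ X s₀),
      hmeasLow.union ((US_measurable V j c δ₀ X _).diff (US_measurable V j c δ₀ X _)), ?_, ?_⟩
    · have hcov : {t : ℝ | |t| ≤ Real.exp (4 * ell X)} ∪ (US V j c δ₀ X ⌊ell X / 2⌋₊ \ US V j c δ₀ X s₀) ⊆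
          {t : ℝ | |t| ≤ Real.exp (4 * ell X)} ∪ (US V j c δ₀ X ⌊ell X / 2⌋₊ \ US V j c δ₀ X s₀) ∪ ∅ := by
        simp
      refine le_trans (A9_three _ _ _ _ _ hcov) ?_
      refine A9_add3 _ _ _ _ _ 0 _ ?_ ?_ le_rfl p1 q4 (by simp) ?_
      · positivity
      · positivity
      · have : 0 < Real.exp (-(κ₀ / 800 * ell X)) := Real.exp_pos _
        linarith
    · have hcov : ({t : ℝ | |t| ≤ Real.exp (4 * ell X)} ∪ (US V j c δ₀ X ⌊ell X / 2⌋₊ \ US V j c δ₀ X s₀))ᶜ ⊆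
          {t : ℝ | X ^ 2 < |t|} ∪ (US V j c δ₀ X s₀ \ US V j c δ₀ X ⌊Real.log X / 2⌋₊) ∪
            US V j c δ₀ X ⌊Real.log X / 2⌋₊ := by
        intro t ht
        rw [Set.mem_compl_iff, Set.mem_union, not_or] at ht
        obtain ⟨h1, h2⟩ := ht
        by_cases h3 : X ^ 2 < |t|
        · exact Or.inl (Or.inl h3)
        · have h4 := hlow t h1 (not_lt.mp h3)
          have h5 : t ∈ US V j c δ₀ X s₀ := by
            by_contra h5
            exact h2 ⟨h4, h5⟩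
          by_cases h6 : t ∈ US V j c δ₀ X ⌊Real.log X / 2⌋₊
          · exact Or.inr h6
          · exact Or.inl (Or.inr ⟨h5, h6⟩)
      refine le_trans (A9_three _ _ _ _ _ hcov) ?_
      refine A9_add3 _ _ _ _ _ _ _ ?_ ?_ ?_ p2 q5 p3' ?_
      · positivity
      · positivity
      · positivity
      · refine le_trans ?_ hQ
        unfold Qb
        rw [if_neg hcase]
        have h1 : X ^ (-(2 / 3) + 3 / 4 * κ₀) / η ≤ 1 / 2 * (X ^ (-(2 / 3) + κ₀) / η) := by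
          rw [← mul_div_assoc]
          refine div_le_div_of_nonneg_right ?_ hη0.le
          have h2 : X ^ (-(2 / 3) + κ₀) = X ^ (-(2 / 3) + 3 / 4 * κ₀) * X ^ (κ₀ / 4) := by
            rw [← Real.rpow_add hX0]
            congr 1
            ring
          rw [h2]
          have h3 : 0 < X ^ (-(2 / 3) + 3 / 4 * κ₀) := by positivity
          nlinarith
        have h2 : Real.log X ^ C₃ * X ^ (-1 + 2 * J * δ₀) / η ≤ 1 / 2 * (X ^ (-(2 / 3) + κ₀) / η) := by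
          rw [← mul_div_assoc]
          refine div_le_div_of_nonneg_right ?_ hη0.le
          have h3 : X ^ (-1 + 2 * J * δ₀) ≤ X ^ (-(1 / 3) : ℝ) * X ^ (-(2 / 3) + κ₀) := by
            rw [← Real.rpow_add hX0]
            apply Real.rpow_le_rpow_of_exponent_le hX1
            have : 2 * (J : ℝ) * δ₀ = κ₀ / 400 := by linarith
            rw [this]
            linarith
          calc Real.log X ^ C₃ * X ^ (-1 + 2 * J * δ₀)
              ≤ Real.log X ^ C₃ * (X ^ (-(1 / 3) : ℝ) * X ^ (-(2 / 3) + κ₀)) :=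
                mul_le_mul_of_nonneg_left h3 (by positivity)
            _ = (Real.log X ^ C₃ * X ^ (-(1 / 3) : ℝ)) * X ^ (-(2 / 3) + κ₀) := by ring
            _ ≤ 1 / 2 * X ^ (-(2 / 3) + κ₀) := mul_le_mul_of_nonneg_right a6 (by positivity)
        linarith

end Pool.Agent.Lib.H31P
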