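import Pool.Agent.Lib.H31P.Top

/-!
# Module A: definitions and the hypotheses on a box
-/

open Finset MeasureTheory

namespace Pool.Agent.Lib.H31P

open Pool.Agent.Lib.H31W

noncomputable section

/-- The long factors of the box `c`. -/
def lng {j : ℕ} (δ₀ X : ℝ) (c : Fin (2 * j) → ℕ) : Finset (Fin (2 * j)) :=
  univ.filter (fun k => δ₀ * Real.log X ≤ c k)

/-- The `t`, `exp (4ℓ) < |t| ≤ X²`, where every long factor is at most `exp (-(s/log X) c_k)`. -/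
def US (V j : ℕ) (c : Fin (2 * j) → ℕ) (δ₀ X : ℝ) (s : ℕ) : Set ℝ :=
  {t | Real.exp (4 * ell X) < |t| ∧ |t| ≤ X ^ 2 ∧ ∀ k ∈ lng δ₀ X c,
    ‖Di (fac V j k (c k)) (c k) t‖ ≤ Real.exp (-((s : ℝ) / Real.log X * (c k : ℝ)))}

/-- The weight. -/
def ww (X η t : ℝ) : ℝ := ‖mm η t - mm (eta1 X) t‖

/-- The hypotheses of module A on `X`, `η` and the box `c`. -/
structure BoxHyp (J : ℕ) (X η : ℝ) (j : ℕ) (c : Fin (2 * j) → ℕ) : Prop where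
  hη : 1 / (10 * Real.sqrt X) ≤ η
  hη1 : η ≤ X ^ (-(2 / 5) : ℝ)
  hj : 1 ≤ j
  hJ : j ≤ J
  hc : |(∑ k, (c k : ℝ)) - Real.log X| ≤ 4 * J + 4
  hcm : ∀ k : Fin (2 * j), (k : ℕ) < j → (c k : ℝ) ≤ Real.log X / J + 4
  hcs : ∀ k : Fin (2 * j), j ≤ (k : ℕ) → (c k : ℝ) < Real.log (1 / η) + 2 / 25 * Real.log X

end

end Pool.Agent.Lib.H31P
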