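import Pool.Agent.Lib.H31P.Top
import Pool.Agent.Lib.H31W.P3

/-!
# Chunk C2 (M): `Λ` is a combination of relevant boxes
-/

open Finset MeasureTheory

namespace Pool.Agent.Lib.H31P

open Pool.Agent.Lib.H31W
open ArithmeticFunction (vonMangoldt)

noncomputable section

open Classical in
/-- The relevant boxes of the `j`-th term. -/
def RB (J : ℕ) (X : ℝ) (j : ℕ) : Finset (Fin (2 * j) → ℕ) :=
  (Fintype.piFinset (fun _ : Fin (2 * j) => range (⌈Real.log X + 2⌉₊ + 1))).filter (fun c =>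
    |(∑ k, (c k : ℝ)) - Real.log X| ≤ 4 * J + 4 ∧ ∀ k : Fin (2 * j), (k : ℕ) < j → (c k : ℝ) ≤ Real.log X / J + 4)

/-- The parameter `V` of Heath-Brown's identity. -/
def VV (J : ℕ) (X : ℝ) : ℕ := ⌊Real.exp ((Real.log X + 2) / J)⌋₊

/-- There are at most `(log X)^C` relevant boxes: `(⌈log X + 2⌉ + 1)^(2j) ≤ (2 log X)^(2J)` for large `X`. -/
theorem RB_card (J : ℕ) : ∃ C X₀ : ℝ, 1 ≤ C ∧ 3 ≤ X₀ ∧ ∀ X : ℝ, X₀ ≤ X → ∀ j : ℕ, j ≤ J →
    ((RB J X j).card : ℝ) ≤ Real.log X ^ C := by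
  refine ⟨4 * J + 1, Real.exp 4, ?_, ?_, fun X hX j hj => ?_⟩
  · have : (0 : ℝ) ≤ J := Nat.cast_nonneg J
    linarith
  · have := Real.add_one_le_exp (4 : ℝ)
    linarith
  · have hX0 : 0 < X := (Real.exp_pos 4).trans_le hX
    have hL : 4 ≤ Real.log X := (Real.le_log_iff_exp_le hX0).mpr hX
    have h1 : (RB J X j).card ≤ (⌈Real.log X + 2⌉₊ + 1) ^ (2 * j) := by
      refine (Finset.card_filter_le _ _).trans ?_
      rw [Fintype.card_piFinset]
      simp
    have h2 : ((⌈Real.log X + 2⌉₊ + 1 : ℕ) : ℝ) ≤ Real.log X ^ 2 := by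
      have h3 := (Nat.ceil_lt_add_one (show 0 ≤ Real.log X + 2 by linarith)).le
      push_cast
      nlinarith
    have h4 : ((RB J X j).card : ℝ) ≤ ((⌈Real.log X + 2⌉₊ + 1 : ℕ) : ℝ) ^ (2 * j) := by
      exact_mod_cast h1
    refine h4.trans ?_
    calc ((⌈Real.log X + 2⌉₊ + 1 : ℕ) : ℝ) ^ (2 * j) ≤ (Real.log X ^ 2) ^ (2 * j) :=
          pow_le_pow_left₀ (Nat.cast_nonneg _) h2 _
      _ = Real.log X ^ (2 * (2 * j)) := (pow_mul _ _ _).symm
      _ = Real.log X ^ ((2 * (2 * j) : ℕ) : ℝ) := by rw [Real.rpow_natCast]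
      _ ≤ Real.log X ^ (4 * (J : ℝ) + 1) := by
          refine Real.rpow_le_rpow_of_exponent_le (by linarith) ?_
          have h5 : (j : ℝ) ≤ J := by exact_mod_cast hj
          push_cast
          linarith

private theorem c2_smul (a : ℝ) (f : ℕ → ℝ) (η u : ℝ) : av (fun n => a * f n) η u = a * av f η u := by
  unfold av
  rw [mul_left_comm]
  congr 1
  rw [Finset.mul_sum]
  exact Finset.sum_congr rfl fun n _ => mul_div_assoc _ _ _

private theorem c2_main (hH : HBStm) (hB : BoxSuppStm) (J : ℕ) (hJ : 2 ≤ J) (X η u : ℝ) (hX : 3 ≤ X)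
    (hη1 : η ≤ 1) (hu : Real.log X ≤ u) (hu1 : u ≤ Real.log X + 1) :
    av (fun n => vonMangoldt n) η u =
      ∑ j ∈ Icc 1 J, (-1 : ℝ) ^ (j + 1) * (J.choose j : ℝ) * ∑ c ∈ RB J X j, av (box (VV J X) j c) η u := by
  have hJ0 : (0 : ℝ) < J := by exact_mod_cast (by omega : 0 < J)
  have hL0 : 0 ≤ Real.log X := Real.log_nonneg (by linarith)
  have key : ∀ n : ℕ, Real.exp u < n → (n : ℝ) ≤ Real.exp (u + η) → vonMangoldt n =
      ∑ j ∈ Icc 1 J, (-1 : ℝ) ^ (j + 1) * (J.choose j : ℝ) * ∑ c ∈ RB J X j, box (VV J X) j c n := by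
    intro n hn1 hn2
    have hn0 : (0 : ℝ) < n := (Real.exp_pos u).trans hn1
    have hn0' : 1 ≤ n := by exact_mod_cast (Nat.cast_pos.mp hn0 : 0 < n)
    have hl1 : Real.log X < Real.log n := hu.trans_lt ((Real.lt_log_iff_exp_lt hn0).mpr hn1)
    have hl2 : Real.log n ≤ Real.log X + 2 := by
      have := (Real.log_le_iff_le_exp hn0).mpr hn2
      linarith
    have hI : Real.log n ≤ (⌈Real.log X + 2⌉₊ : ℝ) := hl2.trans (Nat.le_ceil _)
    have hV : Real.exp ((Real.log X + 2) / J) < (VV J X : ℝ) + 1 := Nat.lt_floor_add_one _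
    have hVJ : n < (VV J X + 1) ^ J := by
      have h1 : Real.exp (Real.log X + 2) < ((VV J X : ℝ) + 1) ^ J := by
        have h2 : Real.exp (Real.log X + 2) = Real.exp ((Real.log X + 2) / J) ^ J := by
          rw [← Real.exp_nat_mul]
          congr 1
          field_simp
        rw [h2]
        exact pow_lt_pow_left₀ hV (Real.exp_pos _).le (by omega)
      have h3 : (n : ℝ) < ((VV J X : ℝ) + 1) ^ J := by
        refine lt_of_le_of_lt ?_ h1
        rw [← Real.log_le_iff_le_exp hn0]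
        exact hl2
      exact_mod_cast h3
    rw [hH J (VV J X) ⌈Real.log X + 2⌉₊ n (by omega) hn0' hVJ hI]
    refine Finset.sum_congr rfl fun j hj => ?_
    rw [Finset.mem_Icc] at hj
    congr 1
    symm
    refine Finset.sum_subset (Finset.filter_subset _ _) fun c hc hcn => ?_
    by_contra hne
    obtain ⟨-, hs2, -, hs4⟩ := hB (VV J X) j c hj.1
    obtain ⟨g1, g2⟩ := hs2 n hne
    apply hcn
    unfold RB
    rw [Finset.mem_filter]
    refine ⟨hc, ?_, fun k hk => ?_⟩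
    · rw [Finset.sum_sub_distrib] at g1
      rw [Finset.sum_add_distrib] at g2
      simp only [Finset.sum_const, Finset.card_univ, Fintype.card_fin, nsmul_eq_mul, mul_one] at g1 g2
      push_cast at g1 g2
      have hjJ : (j : ℝ) ≤ J := by exact_mod_cast hj.2
      rw [abs_le]
      constructor <;> linarith
    · by_contra hlt
      push Not at hlt
      apply hne
      refine hs4 k hk ?_ n
      have h1 : (VV J X : ℝ) ≤ Real.exp ((Real.log X + 2) / J) := Nat.floor_le (Real.exp_pos _).le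
      have h2 : (1 : ℝ) ≤ Real.exp ((Real.log X + 2) / J) := Real.one_le_exp (by positivity)
      have h3 : (2 : ℝ) ≤ Real.exp 1 := by
        have := Real.add_one_le_exp (1 : ℝ)
        linarith
      have h4 : (2 : ℝ) / J ≤ 1 := by
        rw [div_le_one hJ0]
        exact_mod_cast hJ
      calc (VV J X : ℝ) + 1 ≤ 2 * Real.exp ((Real.log X + 2) / J) := by linarith
        _ ≤ Real.exp 1 * Real.exp ((Real.log X + 2) / J) :=
            mul_le_mul_of_nonneg_right h3 (Real.exp_pos _).le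
        _ = Real.exp (1 + (Real.log X + 2) / J) := by rw [Real.exp_add]
        _ ≤ Real.exp ((c k : ℝ) - 1) := by
            apply Real.exp_le_exp.mpr
            rw [add_div]
            linarith
  rw [av_congr _ _ η u key, av_sum]
  refine Finset.sum_congr rfl fun j _ => ?_
  rw [c2_smul, av_sum]

/-- **Decomposition.** `f` is `η ↦` the average of a box; `X` large, `u ∈ [log X, log X + 1]`.

Proof. All averages only involve `n` with `X ≤ e^u < n ≤ e^(u + 1) ≤ e² X` (`η, η₁ ≤ 1`). For such `n`: `V = VV J X`, `I = ⌈log X + 2⌉₊`: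
`(V+1)^J > exp (log X + 2) ≥ n` (`Nat.lt_floor_add_one`, `pow`), `log n ≤ I`, so `HBStm` applies. If a box `c` has `box V j c n ≠ 0` for such an `n` then by
`BoxSuppStm` (2) `∑ (c_k - 1) < log n ≤ log X + 2` and `log X ≤ log n < ∑ (c_k + 1)`, so `|∑ c - log X| ≤ 2j + 2 ≤ 4J + 4`; and by (4) no `k < j` has
`V + 1 ≤ exp (c_k - 1)`; since `V + 1 ≤ 2 exp ((log X + 2)/J) ≤ exp (log X/J + 3)` (`J ≥ 2`, `2e ≤ e^3`) every `k < j` has `c_k ≤ log X/J + 4`. So only the
boxes in `RB J X j` contribute: `av_congr` and `av_sum`, `av` is linear (`av_sum`, and a constant factor comes out of the sum). -/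
theorem av_decomp (hH : HBStm) (hB : BoxSuppStm) (J : ℕ) (hJ : 2 ≤ J) : ∃ X₀ : ℝ, 3 ≤ X₀ ∧ ∀ X η u : ℝ, X₀ ≤ X → 0 < η → η ≤ 1 →
    Real.log X ≤ u → u ≤ Real.log X + 1 →
    av (fun n => vonMangoldt n) η u - av (fun n => vonMangoldt n) (eta1 X) u =
      ∑ j ∈ Icc 1 J, (-1 : ℝ) ^ (j + 1) * (J.choose j : ℝ) *
        ∑ c ∈ RB J X j, (av (box (VV J X) j c) η u - av (box (VV J X) j c) (eta1 X) u) := by
  refine ⟨3, le_rfl, fun X η u hX _ hη1 hu hu1 => ?_⟩
  have hL0 : 0 ≤ Real.log X := Real.log_nonneg (by linarith)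
  have h1 : eta1 X ≤ 1 := by
    unfold eta1
    apply Real.exp_le_one_iff.mpr
    have : 0 ≤ ell X := Real.rpow_nonneg hL0 _
    linarith
  rw [c2_main hH hB J hJ X η u hX hη1 hu hu1, c2_main hH hB J hJ X (eta1 X) u hX h1 hu hu1,
    ← Finset.sum_sub_distrib]
  refine Finset.sum_congr rfl fun j _ => ?_
  rw [← mul_sub, ← Finset.sum_sub_distrib]

end

end Pool.Agent.Lib.H31P
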