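import Pool.Agent.Lib.H31P.C2

/-!
# Chunk C3 (M): one relevant box against the indicator
-/

open Finset MeasureTheory

namespace Pool.Agent.Lib.H31P

open Pool.Agent.Lib.H31W

/-- `av f η` is bounded on bounded intervals and measurable, hence integrable on bounded measurable sets. (`av_measurable`; for `u ≤ b` the sum has at most
`e^(b+η)` terms, bounded by `∑_{n ≤ e^(b+η)} |f n|`.) -/
theorem av_integrableOn (f : ℕ → ℝ) (η a b : ℝ) (B : Set ℝ) (hB : MeasurableSet B) (hBab : B ⊆ Set.Icc a b) :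
    IntegrableOn (av f η) B := by
  have hfin : volume B ≠ ⊤ := by
    refine ne_top_of_le_ne_top ?_ (measure_mono hBab)
    rw [Real.volume_Icc]
    exact ENNReal.ofReal_ne_top
  refine Measure.integrableOn_of_bounded
    (M := |1 / η| * ∑ n ∈ range (⌊Real.exp (b + η)⌋₊ + 1), |f n / n|) hfin
    (av_measurable f η).aestronglyMeasurable ?_
  refine (ae_restrict_iff' hB).mpr (Filter.Eventually.of_forall fun u hu => ?_)
  have hub : u ≤ b := (hBab hu).2
  unfold av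
  rw [norm_mul, Real.norm_eq_abs]
  refine mul_le_mul_of_nonneg_left ?_ (abs_nonneg _)
  refine (norm_sum_le _ _).trans ?_
  refine Finset.sum_le_sum_of_subset_of_nonneg ?_ fun n _ _ => abs_nonneg _
  intro n hn
  rw [Finset.mem_Ioc] at hn
  rw [Finset.mem_range]
  have h1 : ⌊Real.exp (u + η)⌋₊ ≤ ⌊Real.exp (b + η)⌋₊ :=
    Nat.floor_le_floor (Real.exp_le_exp.mpr (by linarith))
  omega

/-- **One relevant box.**

Proof. If some smooth factor `k ≥ j` has `c_k ≥ log (1/η) + κ₁ log X` then `TyIStm` (`κ = κ₁`, `∑ c ≤ log X + 4J + 4`, `η ≤ X^(-2/5) ≤ X^(-1/3)`):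
`|av η u - av η₁ u| ≤ exp (-10ℓ)` on `B`, and `exp (-10ℓ) ≤ exp (-c₀ℓ)` if `c₀ ≤ 10` (replace `c₀` by `min c₀ 10`). Otherwise `BoxStm` gives `E`, and `ParStm` with
`f = box`, `N = bN c` (`BoxSuppStm` (1)), `η' = eta1 X`, `s = exp (-c₀ℓ)`, `Q = Qb κ X η` gives the second bound. (`J₀` = that of `BoxStm`.) -/
theorem one_box (hP : ParStm) (hBo : BoxStm) (hT : TyIStm) (hB : BoxSuppStm) (κ : ℝ) (hκ : 0 < κ) :
    ∃ J₀ : ℕ, 1 ≤ J₀ ∧ ∀ J : ℕ, J₀ ≤ J → ∃ c₀ X₀ : ℝ, 0 < c₀ ∧ 3 ≤ X₀ ∧ ∀ X η : ℝ, X₀ ≤ X → 1 / (10 * Real.sqrt X) ≤ η →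
    η ≤ X ^ (-(2 / 5) : ℝ) → ∀ j : ℕ, 1 ≤ j → j ≤ J → ∀ V : ℕ, ∀ c ∈ RB J X j, ∀ B : Set ℝ, MeasurableSet B →
    B ⊆ Set.Icc (Real.log X) (Real.log X + 1) →
    |∫ u in B, (av (box V j c) η u - av (box V j c) (eta1 X) u)| ≤
      Real.exp (-(c₀ * ell X)) * (volume B).toReal + Real.sqrt (Qb κ X η * (volume B).toReal) := by
  obtain ⟨J₀, hJ₀, hBox⟩ := hBo κ hκ
  refine ⟨J₀, hJ₀, fun J hJ => ?_⟩
  obtain ⟨κ₁, c₀, X₀, hκ₁, hc₀, hX₀, hmain⟩ := hBox J hJ
  obtain ⟨X₁, hX₁, hTy⟩ := hT J κ₁ hκ₁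
  refine ⟨min c₀ 10, max (max X₀ X₁) 3, lt_min hc₀ (by norm_num), le_max_right _ _, ?_⟩
  intro X η hX hη1 hη2 j hj1 hjJ V c hc B hBm hBab
  have hXX₀ : X₀ ≤ X := (le_max_left _ _).trans ((le_max_left _ _).trans hX)
  have hXX₁ : X₁ ≤ X := (le_max_right _ _).trans ((le_max_left _ _).trans hX)
  have hX3 : 3 ≤ X := (le_max_right _ _).trans hX
  have hX1 : 1 ≤ X := by linarith
  have hη0 : 0 < η := by
    refine lt_of_lt_of_le ?_ hη1
    have : 0 < Real.sqrt X := Real.sqrt_pos.mpr (by linarith)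
    positivity
  have hell : 0 ≤ ell X := Real.rpow_nonneg (Real.log_nonneg hX1) _
  have hvol : 0 ≤ (volume B).toReal := ENNReal.toReal_nonneg
  have hfin : volume B < ⊤ := by
    refine (measure_mono hBab).trans_lt ?_
    rw [Real.volume_Icc]
    exact ENNReal.ofReal_lt_top
  have hQ : 0 ≤ Qb κ X η := by
    unfold Qb
    refine add_nonneg ?_ (by positivity)
    split_ifs
    · exact le_rfl
    · positivity
  unfold RB at hc
  rw [Finset.mem_filter] at hc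
  obtain ⟨-, hc1, hc2⟩ := hc
  by_cases hk : ∃ k : Fin (2 * j), j ≤ (k : ℕ) ∧ Real.log (1 / η) + κ₁ * Real.log X ≤ c k
  · have hη3 : η ≤ X ^ (-(1 / 3) : ℝ) :=
      hη2.trans (Real.rpow_le_rpow_of_exponent_le hX1 (by norm_num))
    have hsum : (∑ k, (c k : ℝ)) ≤ Real.log X + (4 * J + 4) := by
      have := (abs_le.mp hc1).2
      linarith
    have hb := hTy X η hXX₁ hη1 hη3 j V hj1 hjJ c hsum hk
    have hE : Real.exp (-(10 * ell X)) ≤ Real.exp (-(min c₀ 10 * ell X)) := by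
      apply Real.exp_le_exp.mpr
      have := mul_le_mul_of_nonneg_right (min_le_right c₀ 10) hell
      linarith
    have h1 := norm_setIntegral_le_of_norm_le_const (μ := volume) (s := B)
      (f := fun u => av (box V j c) η u - av (box V j c) (eta1 X) u)
      (C := Real.exp (-(min c₀ 10 * ell X))) hfin (fun u hu => by
        rw [Real.norm_eq_abs]
        exact (hb u (hBab hu).1 (hBab hu).2).trans hE)
    rw [Real.norm_eq_abs] at h1
    refine h1.trans ?_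
    exact le_add_of_nonneg_right (Real.sqrt_nonneg _)
  · have hk' : ∀ k : Fin (2 * j), j ≤ (k : ℕ) →
        (c k : ℝ) < Real.log (1 / η) + κ₁ * Real.log X := by
      intro k hjk
      by_contra h
      exact hk ⟨k, hjk, not_lt.mp h⟩
    obtain ⟨E, hE, hE1, hE2⟩ := hmain X η hXX₀ hη1 hη2 j V hj1 hjJ c hc1 hc2 hk'
    have h1 := hP (box V j c) (bN c) η (eta1 X) (Real.log X) (Real.log X + 1)
      (Real.exp (-(c₀ * ell X))) (Qb κ X η) hη0 (Real.exp_pos _) (Real.exp_pos _).le hQ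
      (hB V j c hj1).1 B E hBm hBab hE hE1 hE2
    refine h1.trans ?_
    refine add_le_add ?_ le_rfl
    refine mul_le_mul_of_nonneg_right ?_ hvol
    apply Real.exp_le_exp.mpr
    have := mul_le_mul_of_nonneg_right (min_le_left c₀ 10) hell
    linarith

end Pool.Agent.Lib.H31P
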