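import Pool.Agent.Lib.H31P.C3

/-!
# Chunk C4 (M): the measure of the set where a short average is too large (`CoreStm`)
-/

open Finset MeasureTheory

namespace Pool.Agent.Lib.H31P

open Pool.Agent.Lib.H31W
open ArithmeticFunction (vonMangoldt)

private theorem c4_ev1 (a c : ℝ) (hc : 0 < c) : ∃ X₀ : ℝ, 3 ≤ X₀ ∧ ∀ X : ℝ, X₀ ≤ X →
    Real.log X ^ a * Real.exp (-(c * ell X)) ≤ 1 / 800 := by
  have h1 : Filter.Tendsto (fun s : ℝ => s ^ (10 * a) * Real.exp (-c * s)) Filter.atTop (nhds 0) :=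
    tendsto_rpow_mul_exp_neg_mul_atTop_nhds_zero _ _ hc
  have h2 : Filter.Tendsto ell Filter.atTop Filter.atTop :=
    (tendsto_rpow_atTop (by norm_num : (0 : ℝ) < 1 / 10)).comp Real.tendsto_log_atTop
  have h3 := (h1.comp h2).eventually_le_const (show (0 : ℝ) < 1 / 800 by norm_num)
  obtain ⟨X₀, hX₀⟩ := Filter.eventually_atTop.mp h3
  refine ⟨max 3 X₀, le_max_left _ _, fun X hX => ?_⟩
  have h4 := hX₀ X ((le_max_right _ _).trans hX)
  have h5 : (3 : ℝ) ≤ X := (le_max_left _ _).trans hX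
  have h6 : 0 ≤ Real.log X := Real.log_nonneg (by linarith)
  have h7 : ell X ^ (10 * a) = Real.log X ^ a := by
    unfold ell
    rw [← Real.rpow_mul h6]
    congr 1
    ring
  simp only [Function.comp_apply] at h4
  rw [h7, neg_mul] at h4
  exact h4

private theorem c4_ev2 (a κ : ℝ) (hκ : 0 < κ) : ∃ X₀ : ℝ, 3 ≤ X₀ ∧ ∀ X : ℝ, X₀ ≤ X →
    800 ^ 2 * Real.log X ^ a ≤ X ^ κ := by
  have h := (isLittleO_log_rpow_rpow_atTop a hκ).bound (show (0 : ℝ) < 1 / 800 ^ 2 by norm_num)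
  obtain ⟨X₀, hX₀⟩ := Filter.eventually_atTop.mp h
  refine ⟨max 3 X₀, le_max_left _ _, fun X hX => ?_⟩
  have h1 := hX₀ X ((le_max_right _ _).trans hX)
  have h3 : (3 : ℝ) ≤ X := (le_max_left _ _).trans hX
  rw [Real.norm_of_nonneg (Real.rpow_nonneg (Real.log_nonneg (by linarith)) _),
    Real.norm_of_nonneg (Real.rpow_nonneg (by linarith) _)] at h1
  linarith

private theorem c4_alg (b L A Q e : ℝ) (hb : 0 ≤ b) (hL : 1 ≤ L) (hQ : 0 ≤ Q)
    (h : 1 / (400 * L) * b ≤ A * (e * b + Real.sqrt (Q * b))) (he : L * A * e ≤ 1 / 800) :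
    b ≤ (800 * (L * A)) ^ 2 * Q := by
  rcases hb.eq_or_lt with h0 | h0
  · rw [← h0]; positivity
  have hL0 : 0 < L := by linarith
  have h1 : b ≤ 400 * (L * A * e) * b + 400 * (L * A) * Real.sqrt (Q * b) := by
    have h2 := mul_le_mul_of_nonneg_left h (show 0 ≤ 400 * L by linarith)
    have h3 : 400 * L * (1 / (400 * L) * b) = b := by field_simp
    rw [h3] at h2
    calc b ≤ _ := h2
      _ = _ := by ring
  have h4 : b ≤ 800 * (L * A) * Real.sqrt (Q * b) := by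
    have h5 : 400 * (L * A * e) * b ≤ 400 * (1 / 800) * b := by
      apply mul_le_mul_of_nonneg_right _ hb
      linarith
    linarith
  have h6 : b ^ 2 ≤ (800 * (L * A)) ^ 2 * Q * b := by
    calc b ^ 2 ≤ (800 * (L * A) * Real.sqrt (Q * b)) ^ 2 := pow_le_pow_left₀ hb h4 2
      _ = (800 * (L * A)) ^ 2 * (Real.sqrt (Q * b)) ^ 2 := by ring
      _ = (800 * (L * A)) ^ 2 * (Q * b) := by rw [Real.sq_sqrt (mul_nonneg hQ hb)]
      _ = _ := by ring
  have h7 : b * b ≤ (800 * (L * A)) ^ 2 * Q * b := by rw [← sq]; exact h6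
  exact le_of_mul_le_mul_right h7 h0

private theorem c4_Qb (κ X η : ℝ) (hX : 0 ≤ X) (hη : 0 ≤ η) : 0 ≤ Qb κ X η := by
  unfold Qb
  have h1 : 0 ≤ X ^ (-(19 / 20) : ℝ) := Real.rpow_nonneg hX _
  have h2 : 0 ≤ X ^ (-(2 / 3) + κ) / η := div_nonneg (Real.rpow_nonneg hX _) hη
  split_ifs <;> linarith

/-- the integrated decomposition -/
private theorem c4_sum (J : ℕ) (R : (j : ℕ) → Finset (Fin (2 * j) → ℕ)) (D : (j : ℕ) → (Fin (2 * j) → ℕ) → ℝ) (M S : ℝ)
    (hM : 0 ≤ M) (hS : 0 ≤ S) (hR : ∀ j ∈ Icc 1 J, ((R j).card : ℝ) ≤ M)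
    (hD : ∀ j ∈ Icc 1 J, ∀ c ∈ R j, |D j c| ≤ S) :
    ∑ j ∈ Icc 1 J, (-1 : ℝ) ^ (j + 1) * (J.choose j : ℝ) * ∑ c ∈ R j, D j c ≤ 2 ^ J * M * S := by
  have h1 : ∀ j ∈ Icc 1 J, (-1 : ℝ) ^ (j + 1) * (J.choose j : ℝ) * ∑ c ∈ R j, D j c ≤ (J.choose j : ℝ) * (M * S) := by
    intro j hj
    have h2 : |∑ c ∈ R j, D j c| ≤ M * S := by
      calc |∑ c ∈ R j, D j c| ≤ ∑ c ∈ R j, |D j c| := Finset.abs_sum_le_sum_abs _ _
        _ ≤ ∑ c ∈ R j, S := Finset.sum_le_sum (hD j hj)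
        _ = (R j).card * S := by rw [Finset.sum_const, nsmul_eq_mul]
        _ ≤ M * S := mul_le_mul_of_nonneg_right (hR j hj) hS
    calc (-1 : ℝ) ^ (j + 1) * (J.choose j : ℝ) * ∑ c ∈ R j, D j c ≤
          |(-1 : ℝ) ^ (j + 1) * (J.choose j : ℝ) * ∑ c ∈ R j, D j c| := le_abs_self _
      _ = (J.choose j : ℝ) * |∑ c ∈ R j, D j c| := by
          rw [abs_mul, abs_mul, abs_pow, abs_neg, abs_one, one_pow, one_mul, Nat.abs_cast]
      _ ≤ _ := mul_le_mul_of_nonneg_left h2 (Nat.cast_nonneg _)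
  calc _ ≤ ∑ j ∈ Icc 1 J, (J.choose j : ℝ) * (M * S) := Finset.sum_le_sum h1
    _ = (∑ j ∈ Icc 1 J, (J.choose j : ℝ)) * (M * S) := by rw [Finset.sum_mul]
    _ ≤ 2 ^ J * (M * S) := by
        apply mul_le_mul_of_nonneg_right _ (mul_nonneg hM hS)
        have h3 : ∑ j ∈ Icc 1 J, (J.choose j : ℝ) ≤ ∑ j ∈ range (J + 1), (J.choose j : ℝ) := by
          apply Finset.sum_le_sum_of_subset_of_nonneg
          · intro j hj
            rw [Finset.mem_Icc] at hj
            rw [Finset.mem_range]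
            omega
          · intro _ _ _
            exact Nat.cast_nonneg _
        have h4 : ∑ j ∈ range (J + 1), (J.choose j : ℝ) = 2 ^ J := by
          exact_mod_cast Nat.sum_range_choose J
        linarith
    _ = _ := by ring

/-- **`CoreStm`.**

Proof. `J = max J₀ 2`, `c₀` from `one_box` (with the same `κ`), `b = (vol B).toReal ≤ 1`. Integrate `av_decomp` over `B` (`av_integrableOn`):
`b/(400 log X) ≤ ∫_B (av Λ η - av Λ η₁) ≤ ∑_j binom(J,j) ∑_{c ∈ RB} |∫_B ...| ≤ (log X)^C (exp (-c₀ℓ) b + √(Qb κ X η · b))`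
(`RB_card`, `binom ≤ 2^J`). For large `X`: `(log X)^C exp (-c₀ℓ) ≤ 1/(800 log X)`, so `b/(800 log X) ≤ (log X)^C √(Qb b)`, hence
`b ≤ (800 (log X)^(C+1))² Qb ≤ Qb X^(κ/100)` (square; `b = 0` is trivial). -/
theorem core_stm (hH : HBStm) (hB : BoxSuppStm) (hP : ParStm) (hBo : BoxStm) (hT : TyIStm) : CoreStm := by
  intro κ hκ
  obtain ⟨J₀, -, hone⟩ := one_box hP hBo hT hB κ hκ
  obtain ⟨J, hJ0, hJ2⟩ : ∃ J : ℕ, J₀ ≤ J ∧ 2 ≤ J := ⟨max J₀ 2, le_max_left _ _, le_max_right _ _⟩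
  obtain ⟨c₀, X₁, hc₀, -, h1⟩ := hone J hJ0
  obtain ⟨X₂, -, h2⟩ := av_decomp hH hB J hJ2
  obtain ⟨C, X₃, -, -, h3⟩ := RB_card J
  obtain ⟨X₄, -, h4⟩ := c4_ev1 (C + J + 1) c₀ hc₀
  obtain ⟨X₅, -, h5⟩ := c4_ev2 (2 * (C + J + 1)) (1 / 100 * κ) (by positivity)
  refine ⟨max (max (max X₁ X₂) (max X₃ X₄)) (max X₅ (Real.exp 2)), ?_, fun X η hX hη1 hη2 B hBm hBs hBu => ?_⟩
  · exact le_trans (Real.one_le_exp (by norm_num)) ((le_max_right _ _).trans (le_max_right _ _))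
  simp only [max_le_iff] at hX
  obtain ⟨⟨⟨hX1, hX2⟩, hX3, hX4⟩, hX5, hXe⟩ := hX
  have hXpos : 0 < X := (Real.exp_pos 2).trans_le hXe
  have hL2 : 2 ≤ Real.log X := (Real.le_log_iff_exp_le hXpos).mpr hXe
  have hXone : 1 ≤ X := (Real.one_le_exp (by norm_num)).trans hXe
  have hη0 : 0 < η := by
    refine lt_of_lt_of_le ?_ hη1
    have := Real.sqrt_pos.mpr hXpos
    positivity
  have hη3 : η ≤ 1 := hη2.trans (Real.rpow_le_one_of_one_le_of_nonpos hXone (by norm_num))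
  have hQ : 0 ≤ Qb κ X η := c4_Qb κ X η hXpos.le hη0.le
  have hfin : volume B ≠ ⊤ := by
    refine ne_top_of_le_ne_top ?_ (measure_mono hBs)
    simp
  have hav : ∀ (f : ℕ → ℝ) (e : ℝ), IntegrableOn (av f e) B := fun f e =>
    av_integrableOn f e (Real.log X) (Real.log X + 1) B hBm hBs
  have hlow : 1 / (400 * Real.log X) * (volume B).toReal ≤
      ∫ u in B, (av (fun n => vonMangoldt n) η u - av (fun n => vonMangoldt n) (eta1 X) u) := by
    have h6 := setIntegral_mono_on (μ := volume) (f := fun _ : ℝ => 1 / (400 * Real.log X))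
      (g := fun u => av (fun n => vonMangoldt n) η u - av (fun n => vonMangoldt n) (eta1 X) u)
      (integrableOn_const hfin) ((hav _ _).sub (hav _ _)) hBm hBu
    rw [setIntegral_const, smul_eq_mul, mul_comm] at h6
    exact h6
  have hdec : ∫ u in B, (av (fun n => vonMangoldt n) η u - av (fun n => vonMangoldt n) (eta1 X) u) =
      ∑ j ∈ Icc 1 J, (-1 : ℝ) ^ (j + 1) * (J.choose j : ℝ) *
        ∑ c ∈ RB J X j, ∫ u in B, (av (box (VV J X) j c) η u - av (box (VV J X) j c) (eta1 X) u) := by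
    rw [setIntegral_congr_fun hBm (fun u hu => h2 X η u hX2 hη0 hη3 (hBs hu).1 (hBs hu).2)]
    rw [integral_finsetSum]
    · refine Finset.sum_congr rfl fun j _ => ?_
      rw [integral_const_mul, integral_finsetSum]
      intro c _
      exact (hav _ _).sub (hav _ _)
    · intro j _
      apply Integrable.const_mul
      apply integrable_finsetSum
      intro c _
      exact (hav _ _).sub (hav _ _)
  have hb0 : 0 ≤ (volume B).toReal := ENNReal.toReal_nonneg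
  have hS0 : 0 ≤ Real.exp (-(c₀ * ell X)) * (volume B).toReal + Real.sqrt (Qb κ X η * (volume B).toReal) := by
    positivity
  have hup := c4_sum J (fun j => RB J X j)
    (fun j c => ∫ u in B, (av (box (VV J X) j c) η u - av (box (VV J X) j c) (eta1 X) u)) (Real.log X ^ C)
    (Real.exp (-(c₀ * ell X)) * (volume B).toReal + Real.sqrt (Qb κ X η * (volume B).toReal))
    (by positivity) hS0 (fun j hj => h3 X hX3 j (Finset.mem_Icc.mp hj).2)
    (fun j hj c hc => h1 X η hX1 hη1 hη2 j (Finset.mem_Icc.mp hj).1 (Finset.mem_Icc.mp hj).2 _ c hc B hBm hBs)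
  have hA : (2 : ℝ) ^ J * Real.log X ^ C ≤ Real.log X ^ (C + J) := by
    rw [Real.rpow_add (by linarith), Real.rpow_natCast, mul_comm]
    exact mul_le_mul_of_nonneg_left (pow_le_pow_left₀ (by norm_num) hL2 _) (by positivity)
  have hfinal : 1 / (400 * Real.log X) * (volume B).toReal ≤ Real.log X ^ (C + J) *
      (Real.exp (-(c₀ * ell X)) * (volume B).toReal + Real.sqrt (Qb κ X η * (volume B).toReal)) := by
    refine (hlow.trans (hdec.trans_le hup)).trans ?_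
    exact mul_le_mul_of_nonneg_right hA hS0
  have hLA : Real.log X * Real.log X ^ (C + J) = Real.log X ^ (C + J + 1) := by
    rw [Real.rpow_add_one (by linarith), mul_comm]
  have hb := c4_alg (volume B).toReal (Real.log X) (Real.log X ^ (C + J)) (Qb κ X η) (Real.exp (-(c₀ * ell X)))
    hb0 (by linarith) hQ hfinal (by rw [hLA]; exact h4 X hX4)
  rw [hLA] at hb
  rw [← ENNReal.ofReal_toReal hfin]
  apply ENNReal.ofReal_le_ofReal
  refine hb.trans ?_
  rw [mul_comm]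
  apply mul_le_mul_of_nonneg_left _ hQ
  refine le_trans (le_of_eq ?_) (h5 X hX5)
  rw [mul_pow, ← Real.rpow_natCast (Real.log X ^ (C + J + 1)) 2, ← Real.rpow_mul (by linarith)]
  congr 2
  push_cast
  ring

end Pool.Agent.Lib.H31P
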