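import Pool.Agent.Lib.H31P.C1
import Pool.Agent.Lib.H31W.S2

/-!
# Chunk C5 (M): the measure of `MB` (`MBStm`)
-/

open Finset MeasureTheory

namespace Pool.Agent.Lib.H31P

open Pool.Agent.Lib.H31W
open ArithmeticFunction (vonMangoldt)

private theorem c5_large (κ : ℝ) (hκ : 0 < κ) (Y : ℝ) : ∃ N₀ : ℕ, ∀ N : ℕ, N₀ ≤ N →
    240 * ((Real.log N) ^ (1 / 10 : ℝ)) ^ 10 * Real.exp (-((Real.log N) ^ (1 / 10 : ℝ))) ≤ 1 ∧
    100 ≤ Real.log N ∧ 10 ≤ κ * Real.log N ∧ Y ≤ N := by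
  have h0 : Filter.Tendsto (fun N : ℕ => Real.log N) Filter.atTop Filter.atTop :=
    Real.tendsto_log_atTop.comp tendsto_natCast_atTop_atTop
  have h1 : Filter.Tendsto (fun N : ℕ => (Real.log N) ^ (1 / 10 : ℝ)) Filter.atTop Filter.atTop :=
    (tendsto_rpow_atTop (by norm_num)).comp h0
  have h3 := ((Real.tendsto_pow_mul_exp_neg_atTop_nhds_zero 10).const_mul 240).comp h1
  rw [mul_zero] at h3
  have h4 := h3.eventually (gt_mem_nhds (show (0 : ℝ) < 1 by norm_num))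
  have h5 := h0.eventually (Filter.eventually_ge_atTop 100)
  have h6 := h0.eventually (Filter.eventually_ge_atTop (10 / κ))
  have h7 := (tendsto_natCast_atTop_atTop (R := ℝ)).eventually (Filter.eventually_ge_atTop Y)
  obtain ⟨N₀, hN₀⟩ := Filter.eventually_atTop.mp (h4.and (h5.and (h6.and h7)))
  refine ⟨N₀, fun N hN => ?_⟩
  obtain ⟨a1, a2, a3, a4⟩ := hN₀ N hN
  simp only [Function.comp] at a1
  refine ⟨?_, a2, ?_, a4⟩
  · refine le_trans (le_of_eq ?_) a1.le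
    ring
  · rw [div_le_iff₀ hκ] at a3
    linarith

/-- **`MBStm`.**

Proof. As `MB_measure` (file `H31W/S2.lean`): `X_i = e^i N²/8`, `i = 0, ..., 4`; `[log (N²/8), log (16N²)]` is covered by the intervals
`[log X_i, log X_i + 1]` (`log 128 ≤ 5`). `B_i = MB N η ∩ [log X_i, log X_i + 1]`: measurable; on `B_i`, by `long_avg1`,
`av Λ η u - av Λ (eta1 X_i) u ≥ (1 + eps N/3) - 1 - exp (-ℓ(X_i)) ≥ 1/(60 log N) - exp (-ℓ) ≥ 1/(400 log X_i)` (`log X_i ≥ (3/2) log N`; `1/(60 log N)` minus a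
much smaller term is `≥ 1/(100 log N) ≥ 1/(400 log X_i)`). `1/(10√X_i) ≤ 1/(2N) ≤ η` (`√X_i ≥ N/√8`) and `η ≤ N^(-81/100) ≤ X_i^(-2/5)` for large `N`
(`X_i ≤ 8N²`, `X_i^(2/5) ≤ 8^(2/5) N^(4/5)`). `CoreStm` with `κ₀ = min (κ/4) (1/100)`: `vol B_i ≤ Qb κ₀ X_i η · X_i^(κ₀/100)`, `N²/8 ≤ X_i ≤ 8N²`. So, for large `N`,
`5 X_i^(-2/3+κ₀) X_i^(κ₀/100)/η ≤ N^(-4/3+κ)/η` (`X_i^(-2/3 + 1.01κ₀) ≤ 8^(2/3) N^(-4/3) (8N²)^(1.01κ₀)`, `2.02κ₀ < κ`) and `5 X_i^(-19/20) X_i^(κ₀/100) ≤ N^(-9/5)`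
(`N^(-19/10 + small)`). If `N^(-5/6+κ) ≤ η` then `X_i^(-5/12+κ₀) ≤ η` for large `N` (`X_i^(-5/12+κ₀) ≤ 8^(5/12) N^(-5/6) (8N²)^(κ₀)`, `2κ₀ < κ`), so the first term of
`Qb κ₀` is `0`. -/
theorem mb_stm (hC : CoreStm) : MBStm := by
  intro κ hκ
  set κ₀ : ℝ := min (κ / 4) (1 / 100) with hκ₀
  have hκ0 : 0 < κ₀ := lt_min (by linarith) (by norm_num)
  have hκ1 : κ₀ ≤ κ / 4 := min_le_left _ _
  have hκ2 : κ₀ ≤ 1 / 100 := min_le_right _ _
  obtain ⟨X₀, hX₀1, hX₀⟩ := hC κ₀ hκ0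
  obtain ⟨X₁, hX₁1, hX₁⟩ := long_avg1
  obtain ⟨N₁, hN₁⟩ := c5_large κ hκ (8 * (X₀ + X₁))
  refine ⟨N₁, fun N hN η hη1 hη2 => ?_⟩
  obtain ⟨hexpt, hL, hκL, hNX⟩ := hN₁ N hN
  have hN8 : (8 : ℝ) ≤ N := by linarith
  have hN0 : (0 : ℝ) < N := by linarith
  have hη0 : 0 < η := lt_of_lt_of_le (by positivity) hη1
  set L : ℝ := Real.log N with hLdef
  set t : ℝ := L ^ (1 / 10 : ℝ) with ht
  have ht10 : t ^ 10 = L := by
    rw [ht, ← Real.rpow_natCast, ← Real.rpow_mul (by linarith)]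
    norm_num
  rw [ht10] at hexpt
  set a : ℝ := Real.log ((N : ℝ) ^ 2 / 8) with ha
  have hexpa : Real.exp a = (N : ℝ) ^ 2 / 8 := Real.exp_log (by positivity)
  have haL : a = 2 * L - 3 * Real.log 2 := by
    rw [ha, Real.log_div (by positivity) (by norm_num), Real.log_pow,
      show (8 : ℝ) = 2 ^ 3 by norm_num, Real.log_pow]
    push_cast
    ring
  have hl2a := Real.log_two_lt_d9
  have hl2b := Real.log_two_gt_d9
  have ha1 : L ≤ a := by rw [haL]; linarith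
  have halo : 2 * L - 3 ≤ a := by rw [haL]; linarith
  have hahi : a + 4 ≤ 2 * L + 2 := by rw [haL]; linarith
  have heps : eps N = 1 / (20 * L) := rfl
  have hNr : ∀ y : ℝ, (N : ℝ) ^ y = Real.exp (L * y) := fun y => Real.rpow_def_of_pos hN0 y
  have hXr : ∀ (j : ℕ) (y : ℝ), (Real.exp (a + j)) ^ y = Real.exp ((a + j) * y) := by
    intro j y
    rw [Real.rpow_def_of_pos (Real.exp_pos _), Real.log_exp]
  have hell : ∀ j : ℕ, t ≤ ell (Real.exp (a + j)) := by
    intro j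
    unfold ell
    rw [Real.log_exp, ht]
    exact Real.rpow_le_rpow (by linarith) (by
      have : (0 : ℝ) ≤ j := Nat.cast_nonneg j
      linarith) (by norm_num)
  have hX : ∀ j : ℕ, X₀ ≤ Real.exp (a + j) ∧ X₁ ≤ Real.exp (a + j) ∧
      (N : ℝ) ^ 2 / 8 ≤ Real.exp (a + j) := by
    intro j
    have h1 : Real.exp a ≤ Real.exp (a + j) := Real.exp_le_exp.mpr (by
      have : (0 : ℝ) ≤ j := Nat.cast_nonneg j
      linarith)
    rw [hexpa] at h1
    have h3 : (N : ℝ) * 8 ≤ N * N := mul_le_mul_of_nonneg_left hN8 hN0.le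
    have h2 : X₀ + X₁ ≤ (N : ℝ) ^ 2 / 8 := by
      have h4 : (N : ℝ) ^ 2 = N * N := by ring
      rw [h4]
      linarith
    exact ⟨by linarith, by linarith, h1⟩
  -- the measure of one piece
  have hpiece : ∀ j ∈ Finset.range 5, volume (MB N η ∩ Set.Icc (a + j) (a + j + 1)) ≤
      ENNReal.ofReal (Qb κ₀ (Real.exp (a + j)) η * (Real.exp (a + j)) ^ (1 / 100 * κ₀)) := by
    intro j hj
    have hj4 : (j : ℝ) ≤ 4 := by
      have : j ≤ 4 := by have := Finset.mem_range.mp hj; omega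
      exact_mod_cast this
    have hj0 : (0 : ℝ) ≤ j := Nat.cast_nonneg j
    obtain ⟨hXa, hXb, hXc⟩ := hX j
    have hη1' : 1 / (10 * Real.sqrt (Real.exp (a + j))) ≤ η := by
      refine le_trans ?_ hη1
      refine one_div_le_one_div_of_le (by positivity) ?_
      have h1 : (N : ℝ) / 5 ≤ Real.sqrt (Real.exp (a + j)) := by
        refine Real.le_sqrt_of_sq_le ?_
        refine le_trans ?_ hXc
        nlinarith
      linarith
    have hη2' : η ≤ (Real.exp (a + j)) ^ (-(2 / 5) : ℝ) := by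
      refine le_trans hη2 ?_
      rw [hNr, hXr]
      refine Real.exp_le_exp.mpr ?_
      linarith
    refine hX₀ _ η hXa hη1' hη2' _ ((MB_measurable N η).inter measurableSet_Icc) ?_ ?_
    · rw [Real.log_exp]
      exact Set.inter_subset_right
    · intro u hu
      rw [Real.log_exp]
      have hlong := hX₁ _ hXb u (by rw [Real.log_exp]; exact hu.2.1) (by rw [Real.log_exp]; exact hu.2.2)
      have h1 : Real.exp (-ell (Real.exp (a + j))) ≤ Real.exp (-t) :=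
        Real.exp_le_exp.mpr (neg_le_neg (hell j))
      have h2 : Real.exp (-t) ≤ 1 / (240 * L) := by
        rw [le_div_iff₀ (by positivity)]
        linarith
      have h3 := hu.1.2.2
      rw [heps] at h3
      have h4 : 1 / (400 * (a + j)) ≤ 1 / (400 * L) :=
        one_div_le_one_div_of_le (by positivity) (by linarith)
      have h5 : 1 / (20 * L) / 3 = 4 * (1 / (240 * L)) := by
        field_simp
        norm_num
      have h6 : 1 / (400 * L) = 3 / 5 * (1 / (240 * L)) := by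
        field_simp
        norm_num
      have h7 : 0 < 1 / (240 * L) := by positivity
      linarith
  have hsub : MB N η ⊆ ⋃ j ∈ Finset.range 5, MB N η ∩ Set.Icc (a + j) (a + j + 1) := by
    intro u hu
    have hu1 := hu.1
    have hu2 := hu.2.1
    have h128 : Real.log (16 * (N : ℝ) ^ 2) < a + 5 := by
      have h1 : (16 : ℝ) * (N : ℝ) ^ 2 = 2 ^ 7 * ((N : ℝ) ^ 2 / 8) := by ring
      rw [h1, Real.log_mul (by norm_num) (by positivity), Real.log_pow]
      push_cast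
      linarith
    have hu0 : 0 ≤ u - a := by linarith
    set j : ℕ := ⌊u - a⌋₊ with hj
    have hj1 : (j : ℝ) ≤ u - a := Nat.floor_le hu0
    have hj2 : u - a < j + 1 := Nat.lt_floor_add_one _
    have hj5 : j < 5 := by
      rw [hj, Nat.floor_lt hu0]
      push_cast
      linarith
    rw [Set.mem_iUnion₂]
    exact ⟨j, Finset.mem_range.mpr hj5, hu, by linarith, by linarith⟩
  have htot : ∀ M : ℝ, 0 ≤ M → (∀ j ∈ Finset.range 5,
      Qb κ₀ (Real.exp (a + j)) η * (Real.exp (a + j)) ^ (1 / 100 * κ₀) ≤ M / 5) →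
      volume (MB N η) ≤ ENNReal.ofReal M := by
    intro M hM0 hM
    refine le_trans (measure_mono hsub) ?_
    refine le_trans (measure_biUnion_finset_le _ _) ?_
    refine le_trans (Finset.sum_le_sum fun j hj => le_trans (hpiece j hj)
      (ENNReal.ofReal_le_ofReal (hM j hj))) ?_
    rw [Finset.sum_const, Finset.card_range, nsmul_eq_mul]
    have h5 : ((5 : ℕ) : ENNReal) = ENNReal.ofReal 5 := by simp
    rw [h5, ← ENNReal.ofReal_mul (by norm_num)]
    refine ENNReal.ofReal_le_ofReal (le_of_eq ?_)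
    ring
  have hlog5 : (5 : ℝ) ≤ Real.exp 2 := by
    have h1 := Real.add_one_le_exp (1 : ℝ)
    have h2 : Real.exp 2 = Real.exp 1 * Real.exp 1 := by rw [← Real.exp_add]; norm_num
    have h3 := Real.exp_one_gt_d9
    rw [h2]
    nlinarith
  -- the second term
  have hsec : ∀ j ∈ Finset.range 5,
      Real.exp (a + j) ^ (-(19 / 20) : ℝ) * (Real.exp (a + j)) ^ (1 / 100 * κ₀) ≤
        (N : ℝ) ^ (-(9 / 5) : ℝ) / 5 := by
    intro j hj
    have hj0 : (0 : ℝ) ≤ j := Nat.cast_nonneg j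
    rw [le_div_iff₀ (by norm_num), hNr, hXr, hXr, ← Real.exp_add]
    refine le_trans (mul_le_mul_of_nonneg_left hlog5 (Real.exp_pos _).le) ?_
    rw [← Real.exp_add]
    refine Real.exp_le_exp.mpr ?_
    have h1 : (2 * L - 3) * (19 / 20 - 1 / 100 * κ₀) ≤ (a + j) * (19 / 20 - 1 / 100 * κ₀) :=
      mul_le_mul_of_nonneg_right (by linarith) (by linarith)
    have h2 : κ₀ * L ≤ 1 / 100 * L := mul_le_mul_of_nonneg_right hκ2 (by linarith)
    have h3 : (2 * L - 3) * (19 / 20 - 1 / 100 * κ₀) =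
      19 / 10 * L - 57 / 20 - 1 / 50 * (κ₀ * L) + 3 / 100 * κ₀ := by ring
    have h4 : (a + j) * (19 / 20 - 1 / 100 * κ₀) =
      -((a + j) * -(19 / 20) + (a + j) * (1 / 100 * κ₀)) := by ring
    linarith
  have hfst : ∀ j ∈ Finset.range 5,
      Real.exp (a + j) ^ (-(2 / 3) + κ₀ : ℝ) / η * (Real.exp (a + j)) ^ (1 / 100 * κ₀) ≤
        (N : ℝ) ^ (-(4 / 3) + κ) / η / 5 := by
    intro j hj
    have hj0 : (0 : ℝ) ≤ j := Nat.cast_nonneg j
    have h0 : Real.exp (a + j) ^ (-(2 / 3) + κ₀ : ℝ) * (Real.exp (a + j)) ^ (1 / 100 * κ₀) * 5 ≤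
        (N : ℝ) ^ (-(4 / 3) + κ) := by
      rw [hNr, hXr, hXr, ← Real.exp_add]
      refine le_trans (mul_le_mul_of_nonneg_left hlog5 (Real.exp_pos _).le) ?_
      rw [← Real.exp_add]
      refine Real.exp_le_exp.mpr ?_
      have h1 : (2 * L - 3) * (2 / 3 - 101 / 100 * κ₀) ≤ (a + j) * (2 / 3 - 101 / 100 * κ₀) :=
        mul_le_mul_of_nonneg_right (by linarith) (by linarith)
      have h2 : κ₀ * L ≤ κ / 4 * L := mul_le_mul_of_nonneg_right hκ1 (by linarith)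
      have h3 : (2 * L - 3) * (2 / 3 - 101 / 100 * κ₀) =
        4 / 3 * L - 2 - 101 / 50 * (κ₀ * L) + 303 / 100 * κ₀ := by ring
      have h4 : (a + j) * (2 / 3 - 101 / 100 * κ₀) =
        -((a + j) * (-(2 / 3) + κ₀) + (a + j) * (1 / 100 * κ₀)) := by ring
      have h5 : L * (-(4 / 3) + κ) = -(4 / 3 * L) + κ * L := by ring
      have h6 : κ / 4 * L = 1 / 4 * (κ * L) := by ring
      linarith
    rw [div_div, le_div_iff₀ (by positivity), div_mul_eq_mul_div, div_mul_eq_mul_div,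
      div_le_iff₀ hη0]
    calc Real.exp (a + j) ^ (-(2 / 3) + κ₀ : ℝ) * (Real.exp (a + j)) ^ (1 / 100 * κ₀) * (η * 5)
        = Real.exp (a + j) ^ (-(2 / 3) + κ₀ : ℝ) * (Real.exp (a + j)) ^ (1 / 100 * κ₀) * 5 * η := by ring
      _ ≤ (N : ℝ) ^ (-(4 / 3) + κ) * η := mul_le_mul_of_nonneg_right h0 hη0.le
  constructor
  · refine htot _ (by positivity) fun j hj => ?_
    have h1 := hsec j hj
    have h2 := hfst j hj
    have h3 : 0 ≤ Real.exp (a + j) ^ (-(2 / 3) + κ₀ : ℝ) / η := by positivity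
    have h4 : 0 ≤ (Real.exp (a + j)) ^ (1 / 100 * κ₀) := by positivity
    have h5 : Qb κ₀ (Real.exp (a + j)) η ≤ Real.exp (a + j) ^ (-(2 / 3) + κ₀ : ℝ) / η +
        Real.exp (a + j) ^ (-(19 / 20) : ℝ) := by
      unfold Qb
      split_ifs
      · linarith
      · exact le_refl _
    refine le_trans (mul_le_mul_of_nonneg_right h5 h4) ?_
    rw [add_mul, add_div]
    exact add_le_add h2 h1
  · intro hη3
    refine htot _ (by positivity) fun j hj => ?_
    have h1 := hsec j hj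
    have hj0 : (0 : ℝ) ≤ j := Nat.cast_nonneg j
    have h5 : Qb κ₀ (Real.exp (a + j)) η = Real.exp (a + j) ^ (-(19 / 20) : ℝ) := by
      unfold Qb
      rw [if_pos, zero_add]
      refine le_trans ?_ hη3
      rw [hNr, hXr]
      refine Real.exp_le_exp.mpr ?_
      have g1 : (2 * L - 3) * (5 / 12 - κ₀) ≤ (a + j) * (5 / 12 - κ₀) :=
        mul_le_mul_of_nonneg_right (by linarith) (by linarith)
      have g2 : κ₀ * L ≤ κ / 4 * L := mul_le_mul_of_nonneg_right hκ1 (by linarith)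
      have g3 : (2 * L - 3) * (5 / 12 - κ₀) = 5 / 6 * L - 5 / 4 - 2 * (κ₀ * L) + 3 * κ₀ := by ring
      have g4 : (a + j) * (5 / 12 - κ₀) = -((a + j) * (-(5 / 12) + κ₀)) := by ring
      have g5 : L * (-(5 / 6) + κ) = -(5 / 6 * L) + κ * L := by ring
      have g6 : κ / 4 * L = 1 / 4 * (κ * L) := by ring
      linarith
    rw [h5]
    exact h1

end Pool.Agent.Lib.H31P
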