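import Pool.Agent.Lib.H31W.Defs

/-!
# H31P: definitions (MP_da1588_nt, power savings)

See `PROOF.md` in this folder. `r_n = π(n^2)/n^2`. Dirichlet polynomials are `H31W.DD f N t = ∑_{n ≤ N} f(n) n^(-1-it)`,
averages `H31W.av f η u = (1/η) ∑_{e^u < n ≤ e^(u+η)} f(n)/n`, `H31W.mm η t = ∫_0^1 e^(iηtx) dx`,
`H31W.ell X = (log X)^(1/10)`.
-/

open Finset MeasureTheory

namespace Pool.Agent.Lib.H31P

open Pool.Agent.Lib.H31W
open ArithmeticFunction (vonMangoldt moebius)

noncomputable section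

/-- The tent function. -/
def psi (x : ℝ) : ℝ := max 0 (1 - |x|)

/-- The smooth factor `ψ(log n - i)`, supported in `e^(i-1) < n < e^(i+1)`; `∑_i fS i n = 1` for `n ≥ 1`. -/
def fS (i n : ℕ) : ℝ := if n = 0 then 0 else psi (Real.log n - i)

/-- The factor `log n ψ(log n - i)`. -/
def fL (i n : ℕ) : ℝ := Real.log n * fS i n

/-- The factor `μ(n) ψ(log n - i)`, `n ≤ V`. -/
def fM (V i n : ℕ) : ℝ := if n ≤ V then (moebius n : ℝ) * fS i n else 0

/-- The Dirichlet polynomial of a factor with support in `(e^(i-1), e^(i+1))`. -/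
def Di (f : ℕ → ℝ) (i : ℕ) (t : ℝ) : ℂ := DD f ⌊Real.exp ((i : ℝ) + 1)⌋₊ t

/-- The length of the long averages, `η₁ = exp (-12 ℓ(X))`. -/
def eta1 (X : ℝ) : ℝ := Real.exp (-(12 * ell X))

/-- The exponent of the large values: `|{|t| ≤ T : |D(t)| > e^(-αi)}|` is at most `T^(pA α)` essentially. -/
def pA (α : ℝ) : ℝ := if α ≤ 1 / 4 then 3 * α / (2 - 3 * α) else 3 * α / (1 + α)

/-- A function as a real arithmetic function. -/
def af (f : ℕ → ℝ) : ArithmeticFunction ℝ := ⟨fun n => if n = 0 then 0 else f n, by simp⟩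

/-- The factor number `k` (`k = 0, ..., 2j-1`) of the `j`-th term of Heath-Brown's identity, cut off by the tent at `i`:
the first `j` factors are of Moebius type, the next `j-1` are smooth, the last one has the logarithm. -/
def fac (V j k i : ℕ) : ℕ → ℝ := if k < j then fM V i else if k + 1 < 2 * j then fS i else fL i

/-- The box `c`: the Dirichlet convolution of the `2j` factors `fac V j k (c k)`. -/
def box (V j : ℕ) (c : Fin (2 * j) → ℕ) : ArithmeticFunction ℝ := ∏ k : Fin (2 * j), af (fac V j k (c k))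

/-- A number which bounds the support of the box `c`. -/
def bN {j : ℕ} (c : Fin (2 * j) → ℕ) : ℕ := ∏ k : Fin (2 * j), ⌊Real.exp ((c k : ℝ) + 1)⌋₊

end

end Pool.Agent.Lib.H31P
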