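import Pool.Agent.Lib.H31P.EDefs

/-!
# Chunk E1 (M): a bad near pair gives a window in the bad set
-/

open Finset MeasureTheory

namespace Pool.Agent.Lib.H31P

open Pool.Agent.Lib.H31W

private theorem e1_large : ∃ M₀ : ℕ, ∀ M : ℕ, M₀ ≤ M →
    1025 ≤ Real.log M ∧ 8 ≤ (M : ℝ) ^ (1 / 100 : ℝ) := by
  have h1 : Filter.Tendsto (fun N : ℕ => Real.log N) Filter.atTop Filter.atTop :=
    Real.tendsto_log_atTop.comp tendsto_natCast_atTop_atTop
  have h2 : Filter.Tendsto (fun N : ℕ => (N : ℝ) ^ (1 / 100 : ℝ)) Filter.atTop Filter.atTop :=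
    (tendsto_rpow_atTop (by norm_num)).comp tendsto_natCast_atTop_atTop
  obtain ⟨N₀, hN₀⟩ := Filter.eventually_atTop.mp
    ((h1.eventually_ge_atTop 1025).and (h2.eventually_ge_atTop 8))
  exact ⟨N₀, hN₀⟩

private theorem e1_pow (M : ℕ) (hM : (0 : ℝ) < M) (h : 8 ≤ (M : ℝ) ^ (1 / 100 : ℝ)) :
    8 * (M : ℝ) ^ (9 / 50 : ℝ) / M ≤ (M : ℝ) ^ (-(81 / 100) : ℝ) := by
  have h1 : (M : ℝ) ^ (9 / 50 : ℝ) = (M : ℝ) ^ (-(82 / 100) : ℝ) * (M : ℝ) ^ (1 : ℝ) := by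
    rw [← Real.rpow_add hM]
    norm_num
  rw [Real.rpow_one] at h1
  have h2 : (M : ℝ) ^ (-(81 / 100) : ℝ) =
      (M : ℝ) ^ (1 / 100 : ℝ) * (M : ℝ) ^ (-(82 / 100) : ℝ) := by
    rw [← Real.rpow_add hM]
    norm_num
  have h3 : 8 * (M : ℝ) ^ (-(82 / 100) : ℝ) ≤
      (M : ℝ) ^ (1 / 100 : ℝ) * (M : ℝ) ^ (-(82 / 100) : ℝ) :=
    mul_le_mul_of_nonneg_right h (by positivity)
  rw [h1, h2, div_le_iff₀ hM]
  calc 8 * ((M : ℝ) ^ (-(82 / 100) : ℝ) * M) = 8 * (M : ℝ) ^ (-(82 / 100) : ℝ) * M := by ring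
    _ ≤ _ := mul_le_mul_of_nonneg_right h3 hM.le

private theorem e1_near (M y : ℕ) (d : ℝ) (hlog : 1025 ≤ Real.log M) (hM0 : (0 : ℝ) < M)
    (hy : (M : ℝ) / 2 ≤ y) (hd : d ≤ (M : ℝ) ^ (9 / 50 : ℝ)) :
    d < y * Real.exp (-(9 * (Real.log y) ^ (1 / 10 : ℝ))) := by
  have hy0 : (0 : ℝ) < y := by linarith
  have hs : 1024 ≤ Real.log y := by
    have h1 : Real.log ((M : ℝ) / 2) ≤ Real.log y := Real.log_le_log (by positivity) hy
    rw [Real.log_div hM0.ne' (by norm_num)] at h1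
    have h2 := Real.log_two_lt_d9
    linarith
  obtain ⟨s, hsd⟩ : ∃ s : ℝ, s = Real.log y := ⟨_, rfl⟩
  have hys : (y : ℝ) = Real.exp s := by rw [hsd, Real.exp_log hy0]
  rw [← hsd] at hs ⊢
  obtain ⟨t, ht⟩ : ∃ t : ℝ, t = s ^ (1 / 10 : ℝ) := ⟨_, rfl⟩
  have ht2 : 2 ≤ t := by
    have h1 : (2 : ℝ) = (1024 : ℝ) ^ (1 / 10 : ℝ) := by
      rw [show (1024 : ℝ) = 2 ^ (10 : ℝ) by norm_num, ← Real.rpow_mul (by norm_num)]
      norm_num
    rw [ht, h1]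
    exact Real.rpow_le_rpow (by norm_num) hs (by norm_num)
  have hst : s = t ^ 10 := by
    rw [ht, ← Real.rpow_natCast, ← Real.rpow_mul (by linarith)]
    norm_num
  have h9 : 9 * t ≤ s / 2 := by
    rw [hst]
    have h1 : (2 : ℝ) ^ 9 ≤ t ^ 9 := pow_le_pow_left₀ (by norm_num) ht2 9
    have h2 : t ^ 10 = t ^ 9 * t := by ring
    rw [h2]
    nlinarith
  rw [← ht]
  have hM2 : (M : ℝ) ≤ Real.exp (2 * s) := by
    have h1 : (2 : ℝ) ≤ Real.exp s := by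
      have := Real.add_one_le_exp s
      linarith
    have h2 : Real.exp (2 * s) = Real.exp s * Real.exp s := by
      rw [← Real.exp_add]
      congr 1
      ring
    rw [h2]
    rw [hys] at hy
    nlinarith
  have h3 : (M : ℝ) ^ (9 / 50 : ℝ) ≤ Real.exp (2 * s * (9 / 50)) := by
    rw [Real.exp_mul]
    exact Real.rpow_le_rpow hM0.le hM2 (by norm_num)
  have h4 : (y : ℝ) * Real.exp (-(9 * t)) = Real.exp (s - 9 * t) := by
    rw [hys, ← Real.exp_add]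
    congr 1
  rw [h4]
  refine lt_of_le_of_lt (hd.trans h3) ?_
  exact Real.exp_lt_exp.2 (by linarith)

/-- **Windows.** Model: the private lemma `s4_vol` in `Lib/H31W/S4.lean` (and `s4_pair`); copy and adapt.

Proof. `ε = eps M = 1/(20 log M)`, `ℓ = 2 log y - 2 log x`. `y - x ≤ M^(9/50)`, `x ≥ M/2`, so
`y - x < y exp (-9 (log y)^(1/10))` for large `M`, and `ℓ ≤ 2 (y-x)/x ≤ 4 (y - x)/M`, `ℓ ≥ 2 (y - x)/y ≥ (y-x)/(2M)`. `grid`
(`e = ε`, `ℓ (1 + ε/4) ≤ 1`) gives `i ≤ (16/ε) log (1/ℓ) ≤ 320 log M · 2 log M ≤ 700 (log M)²` and `η = q^i` with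
`ℓ (1 + ε/4) ≤ η ≤ ℓ (1 + ε/2)`. So `(y-x)/(2M) ≤ ℓ ≤ η ≤ 2 ℓ ≤ 8 (y-x)/M ≤ 8 M^(-41/50) ≤ M^(-81/100)` and `1/(2M) ≤ η` (`y - x ≥ 1`).
By `near_bad` (with `N = M`) `av Λ η u ≥ 1 + ε/3` for `2 log x - ℓ ε/4 ≤ u ≤ 2 log x`, and `η ε/8 ≤ ℓ ε/4`. The conditions
`log (M²/8) ≤ u ≤ log (16 M²)` of `MB` hold as in `s4_vol` (`u ≥ 2 log (M/2) - 1/4`, `log 2 > 1/4`; `u ≤ 2 log (4M)`). -/
theorem window : ∃ M₀ : ℕ, ∀ M : ℕ, M₀ ≤ M → ∀ x y : ℕ, x < y → (M : ℝ) / 2 ≤ x → (y : ℝ) ≤ 4 * M →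
    (y : ℝ) - x ≤ (M : ℝ) ^ (9 / 50 : ℝ) → ¬ Cr x y → ∃ i : ℕ, (i : ℝ) ≤ 700 * Real.log M ^ 2 ∧
      1 / (2 * (M : ℝ)) ≤ qq M ^ i ∧ qq M ^ i ≤ (M : ℝ) ^ (-(81 / 100) : ℝ) ∧
      ((y : ℝ) - x) / (2 * M) ≤ qq M ^ i ∧ qq M ^ i ≤ 8 * ((y : ℝ) - x) / M ∧
      2 * Real.log y - 2 * Real.log x ≤ qq M ^ i ∧
      Set.Icc (2 * Real.log x - qq M ^ i * (eps M / 8)) (2 * Real.log x) ⊆ MB M (qq M ^ i) := by
  obtain ⟨N₁, hN₁⟩ := near_bad
  obtain ⟨N₂, hN₂⟩ := e1_large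
  refine ⟨max N₁ N₂, fun M hM x y hxy hx hy hd hC => ?_⟩
  have hM1 : N₁ ≤ M := le_trans (le_max_left _ _) hM
  have hM2 : N₂ ≤ M := le_trans (le_max_right _ _) hM
  obtain ⟨hlog, hp⟩ := hN₂ M hM2
  have hMbig : (1025 : ℝ) ≤ M := hlog.trans (Real.log_le_self (Nat.cast_nonneg _))
  have hM0 : (0 : ℝ) < M := by linarith
  have hx0 : (0 : ℝ) < x := by linarith
  have hxy' : (x : ℝ) + 1 ≤ y := by exact_mod_cast hxy
  have hy0 : (0 : ℝ) < y := by linarith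
  have hnear := e1_near M y ((y : ℝ) - x) hlog hM0 (by linarith) hd
  have hnb := hN₁ M hM1 x y hxy hx hy hnear hC
  have hpw := e1_pow M hM0 hp
  obtain ⟨d, hdd⟩ : ∃ d : ℝ, d = (y : ℝ) - x := ⟨_, rfl⟩
  obtain ⟨L, hLd⟩ : ∃ L : ℝ, L = 2 * Real.log y - 2 * Real.log x := ⟨_, rfl⟩
  have hd1 : 1 ≤ d := by
    rw [hdd]
    linarith
  have hL1 : d / (2 * M) ≤ L := by
    have h1 : Real.log ((x : ℝ) / y) ≤ (x : ℝ) / y - 1 := Real.log_le_sub_one_of_pos (by positivity)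
    rw [Real.log_div hx0.ne' hy0.ne'] at h1
    have h2 : (x : ℝ) / y - 1 ≤ -(d / (4 * (M : ℝ))) := by
      rw [div_sub_one hy0.ne', div_le_iff₀ hy0]
      have h3 : (y : ℝ) / (4 * M) ≤ 1 := by
        rw [div_le_one (by positivity)]
        exact hy
      have h4 : -(d / (4 * (M : ℝ))) * y = -(d * ((y : ℝ) / (4 * M))) := by ring
      rw [h4]
      have h5 : d * ((y : ℝ) / (4 * M)) ≤ d * 1 := mul_le_mul_of_nonneg_left h3 (by linarith)
      linarith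
    have h5 : d / (2 * (M : ℝ)) = 2 * (d / (4 * (M : ℝ))) := by
      field_simp
      norm_num
    rw [h5, hLd]
    linarith
  have hL2 : L ≤ 4 * d / M := by
    have h1 : Real.log ((y : ℝ) / x) ≤ (y : ℝ) / x - 1 := Real.log_le_sub_one_of_pos (by positivity)
    rw [Real.log_div hy0.ne' hx0.ne'] at h1
    have h2 : (y : ℝ) / x - 1 ≤ 2 * d / M := by
      rw [div_sub_one hx0.ne', ← hdd, div_le_div_iff₀ hx0 hM0]
      nlinarith
    have h3 : 4 * d / (M : ℝ) = 2 * (2 * d / M) := by ring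
    rw [h3, hLd]
    linarith
  rw [← hdd] at hd ⊢
  rw [← hLd] at hnb ⊢
  have hL0 : 0 < L := lt_of_lt_of_le (by positivity) hL1
  have hLp : 8 * d / M ≤ (M : ℝ) ^ (-(81 / 100) : ℝ) := by
    refine le_trans ?_ hpw
    rw [div_le_div_iff_of_pos_right hM0]
    linarith
  have hLp1 : (M : ℝ) ^ (-(81 / 100) : ℝ) ≤ 1 :=
    Real.rpow_le_one_of_one_le_of_nonpos (by linarith) (by norm_num)
  have h8 : 8 * d / (M : ℝ) = 2 * (4 * d / M) := by ring
  have hLh : L ≤ 1 / 2 := by linarith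
  have he0 : 0 < eps M := by
    unfold eps
    have : 0 < Real.log M := by linarith
    positivity
  have he1 : eps M ≤ 1 / 20 := by
    unfold eps
    exact one_div_le_one_div_of_le (by norm_num) (by linarith)
  have hg : L * (1 + eps M / 4) ≤ 1 := by nlinarith
  obtain ⟨i, hi, hη1, hη2⟩ := grid L (eps M) hL0 he0 (by linarith) hg
  have hq : qq M = 1 / (1 + eps M / 8) := rfl
  rw [← hq] at hη1 hη2
  obtain ⟨η, hηd⟩ : ∃ η : ℝ, η = qq M ^ i := ⟨_, rfl⟩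
  refine ⟨i, ?_, ?_⟩
  · refine hi.trans ?_
    have h1 : Real.log (1 / L) ≤ 2 * Real.log M := by
      have h2 : 1 / L ≤ (M : ℝ) ^ 2 := by
        rw [div_le_iff₀ hL0]
        rw [div_le_iff₀ (by positivity)] at hL1
        nlinarith
      have h3 := Real.log_le_log (by positivity) h2
      rw [Real.log_pow] at h3
      push_cast at h3
      exact h3
    have h2 : 16 / eps M = 320 * Real.log M := by
      have : Real.log M ≠ 0 := by linarith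
      unfold eps
      field_simp
      norm_num
    rw [h2]
    have h3 : 320 * Real.log M * Real.log (1 / L) ≤ 320 * Real.log M * (2 * Real.log M) :=
      mul_le_mul_of_nonneg_left h1 (by linarith)
    refine h3.trans ?_
    nlinarith [sq_nonneg (Real.log M)]
  · rw [← hηd] at hη1 hη2 ⊢
    have hηL : L ≤ η := by
      refine le_trans ?_ hη1
      nlinarith
    have hη2L : η ≤ 2 * L := by
      refine le_trans hη2 ?_
      nlinarith
    have hη8 : η ≤ 8 * d / M := by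
      rw [h8]
      linarith
    have hdM : 1 / (2 * (M : ℝ)) ≤ d / (2 * M) := by
      rw [div_le_div_iff_of_pos_right (by positivity)]
      exact hd1
    refine ⟨hdM.trans (hL1.trans hηL), hη8.trans hLp, hL1.trans hηL, hη8, hηL, ?_⟩
    intro u hu
    obtain ⟨hu1, hu2⟩ := hu
    have hLe : L * (eps M / 4) ≤ 1 / 4 := by nlinarith
    have hηe : η * (eps M / 8) ≤ L * (eps M / 4) := by nlinarith
    refine ⟨?_, ?_, ?_⟩
    · have h1 : Real.log ((M : ℝ) ^ 2 / 8) = 2 * Real.log ((M : ℝ) / 2) - Real.log 2 := by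
        have h2 : (M : ℝ) ^ 2 / 8 = ((M : ℝ) / 2) ^ 2 / 2 := by ring
        rw [h2, Real.log_div (by positivity) (by norm_num), Real.log_pow]
        push_cast
        ring
      have h3 : Real.log ((M : ℝ) / 2) ≤ Real.log x := Real.log_le_log (by positivity) hx
      have h4 := Real.log_two_gt_d9
      rw [h1]
      linarith
    · have h1 : Real.log (16 * (M : ℝ) ^ 2) = 2 * Real.log (4 * M) := by
        have h2 : 16 * (M : ℝ) ^ 2 = (4 * (M : ℝ)) ^ 2 := by ring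
        rw [h2, Real.log_pow]
        push_cast
        ring
      have h3 : Real.log x ≤ Real.log (4 * M) := by
        refine Real.log_le_log hx0 ?_
        linarith
      rw [h1]
      linarith
    · exact hnb η hη1 hη2 u (by linarith) hu2

end Pool.Agent.Lib.H31P
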