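import Pool.Agent.Lib.H31P.EDefs

/-!
# Chunk E10 (M): the sum over the classes (finite sums only)
-/

open Finset MeasureTheory

namespace Pool.Agent.Lib.H31P

private lemma E10_fib (V : Finset ℝ) (d : ℝ → ℕ) (k : ℕ)
    (hv : ∀ v ∈ V, 0 < v ∧ v ≤ 1 ∧ 1 ≤ d v ∧ ∃ t : ℕ, v * (d v : ℝ) ^ 2 = t) (hk : ∀ v ∈ V, d v = k) :
    V.card ≤ k ^ 2 := by
  have h1 : V.card ≤ (Finset.Icc 1 (k ^ 2)).card := by
    refine Finset.card_le_card_of_injOn (fun v => ⌊v * (k : ℝ) ^ 2⌋₊) ?_ ?_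
    · intro v hvV
      obtain ⟨h0, h1, h2, t, ht⟩ := hv v hvV
      rw [hk v hvV] at h2 ht
      have hk1 : (1 : ℝ) ≤ k := by exact_mod_cast h2
      show ⌊v * (k : ℝ) ^ 2⌋₊ ∈ Finset.Icc 1 (k ^ 2)
      rw [ht, Nat.floor_natCast, Finset.mem_Icc]
      constructor
      · have h3 : (0 : ℝ) < t := by
          rw [← ht]
          positivity
        exact_mod_cast h3
      · have h3 : (t : ℝ) ≤ ((k ^ 2 : ℕ) : ℝ) := by
          rw [← ht]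
          push_cast
          have h4 : (0 : ℝ) ≤ (k : ℝ) ^ 2 := by positivity
          nlinarith
        exact_mod_cast h3
    · intro v hvV w hwV hvw
      obtain ⟨h0, h1, h2, t, ht⟩ := hv v hvV
      obtain ⟨h0', h1', h2', t', ht'⟩ := hv w hwV
      rw [hk v hvV] at h2 ht
      rw [hk w hwV] at h2' ht'
      have h3 : ⌊v * (k : ℝ) ^ 2⌋₊ = ⌊w * (k : ℝ) ^ 2⌋₊ := hvw
      rw [ht, ht', Nat.floor_natCast, Nat.floor_natCast] at h3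
      rw [h3, ← ht'] at ht
      have hk1 : (1 : ℝ) ≤ k := by exact_mod_cast h2
      exact mul_right_cancel₀ (by positivity : (k : ℝ) ^ 2 ≠ 0) ht
  rw [Nat.card_Icc] at h1
  simpa using h1

private lemma E10_small (V : Finset ℝ) (d : ℝ → ℕ) (D : ℕ)
    (hv : ∀ v ∈ V, 0 < v ∧ v ≤ 1 ∧ 1 ≤ d v ∧ ∃ t : ℕ, v * (d v : ℝ) ^ 2 = t) (hD : ∀ v ∈ V, d v ≤ D) :
    ∑ v ∈ V, 1 / (d v : ℝ) ≤ (D : ℝ) ^ 2 := by
  have h1 : ∑ k ∈ Finset.Icc 1 D, ∑ v ∈ V with d v = k, 1 / (d v : ℝ) = ∑ v ∈ V, 1 / (d v : ℝ) :=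
    Finset.sum_fiberwise_of_maps_to (fun v hvV => Finset.mem_Icc.2 ⟨(hv v hvV).2.2.1, hD v hvV⟩) _
  rw [← h1]
  have h2 : ∀ k ∈ Finset.Icc 1 D, ∑ v ∈ V with d v = k, 1 / (d v : ℝ) ≤ (D : ℝ) := by
    intro k hk
    obtain ⟨hk1, hkD⟩ := Finset.mem_Icc.1 hk
    have hk1' : (1 : ℝ) ≤ k := by exact_mod_cast hk1
    have hkD' : (k : ℝ) ≤ D := by exact_mod_cast hkD
    have h3 : ∑ v ∈ V with d v = k, 1 / (d v : ℝ) = ((V.filter fun v => d v = k).card : ℝ) * (1 / k) := by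
      rw [← nsmul_eq_mul, ← Finset.sum_const]
      refine Finset.sum_congr rfl fun v hvV => ?_
      rw [(Finset.mem_filter.1 hvV).2]
    have h4 : (V.filter fun v => d v = k).card ≤ k ^ 2 :=
      E10_fib _ d k (fun v hvV => hv v (Finset.mem_filter.1 hvV).1) fun v hvV => (Finset.mem_filter.1 hvV).2
    have h5 : ((V.filter fun v => d v = k).card : ℝ) ≤ (k : ℝ) ^ 2 := by exact_mod_cast h4
    rw [h3]
    calc ((V.filter fun v => d v = k).card : ℝ) * (1 / k) ≤ (k : ℝ) ^ 2 * (1 / k) :=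
          mul_le_mul_of_nonneg_right h5 (by positivity)
      _ = k := by
        field_simp
      _ ≤ D := hkD'
  refine (Finset.sum_le_sum h2).trans ?_
  rw [Finset.sum_const, Nat.card_Icc, nsmul_eq_mul, Nat.add_sub_cancel]
  exact le_of_eq (by ring)

/-- **Sum of `1/d`.**

Proof. For each `k ≥ 1` the number of `v ∈ V` with `d v = k` is at most `k²` (`v ↦ t = v k² ∈ {1, ..., k²}` is injective, `0 < v ≤ 1`). So
`Σ_{v : d v ≤ D} 1/d(v) ≤ Σ_{k ≤ D} k ≤ D²` (`Finset.sum_fiberwise_of_maps_to` or induction), and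
`Σ_{v : d v > D} 1/d(v) ≤ |V|/(D+1)`. -/
theorem co_inv (V : Finset ℝ) (d : ℝ → ℕ) (D : ℕ)
    (hv : ∀ v ∈ V, 0 < v ∧ v ≤ 1 ∧ 1 ≤ d v ∧ ∃ t : ℕ, v * (d v : ℝ) ^ 2 = t) :
    ∑ v ∈ V, 1 / (d v : ℝ) ≤ (D : ℝ) ^ 2 + V.card / ((D : ℝ) + 1) := by
  rw [← Finset.sum_filter_add_sum_filter_not V (fun v => d v ≤ D)]
  refine add_le_add ?_ ?_
  · exact E10_small _ d D (fun v hvV => hv v (Finset.mem_filter.1 hvV).1) fun v hvV => (Finset.mem_filter.1 hvV).2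
  · have h1 : ∀ v ∈ V.filter (fun v => ¬ d v ≤ D), 1 / (d v : ℝ) ≤ 1 / ((D : ℝ) + 1) := by
      intro v hvV
      have h2 := (Finset.mem_filter.1 hvV).2
      have h3 : ((D : ℝ) + 1) ≤ d v := by
        have h4 : D + 1 ≤ d v := by omega
        exact_mod_cast h4
      exact one_div_le_one_div_of_le (by positivity) h3
    refine (Finset.sum_le_sum h1).trans ?_
    rw [Finset.sum_const, nsmul_eq_mul, mul_one_div]
    apply div_le_div_of_nonneg_right _ (by positivity)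
    exact_mod_cast Finset.card_filter_le _ _

/-- **One dyadic range of lengths.** `2^j ≤ ℓ(v) < 2^(j+1)`.

Proof. Every term is at most `2 ℓ/d ≤ 4 · 2^j/d` (`d ≤ ℓ`), so the sum is at most `4 · 2^j Σ 1/d(v)`. Let `y = 2^j`.
(a) `y ≤ Q^(1/5)`: `co_inv` with `D = 2 y` (natural number; all `d v < 2 y`, so use `D = 2y` and `|V|/(D+1)`: better directly
`Σ 1/d ≤ (2y)² + |V|/(2y+1)` and `|V| ≤ Σ_{k ≤ 2y} k² ≤ (2y)³`; or apply `co_inv` to `V` with `D = 2y` and note that `|V| ≤ (2y)^3`): the sum is at most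
`4 y (4 y² + 4 y²) = 32 y³ ≤ 32 Q^(3/5)`.
(b) `y > Q^(1/5)`: if `Q/y² < 1` then `V` is empty. Otherwise let `x = (Q/y²)^(1/3) ≥ 1`, `D = ⌊x⌋₊`: `D ≤ x < D + 1`, so
`Σ 1/d ≤ x² + (Q/y²)/x = 2 x²`, and the sum is at most `8 y x² = 8 Q^(2/3) y^(-1/3) ≤ 8 Q^(2/3 - 1/15) = 8 Q^(3/5)`. -/
theorem co_one (V : Finset ℝ) (d ℓ : ℝ → ℕ) (Q : ℝ) (hQ : 1 ≤ Q) (j : ℕ)
    (hv : ∀ v ∈ V, 0 < v ∧ v ≤ 1 ∧ 1 ≤ d v ∧ ∃ t : ℕ, v * (d v : ℝ) ^ 2 = t)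
    (hd : ∀ v ∈ V, d v ≤ ℓ v) (h1 : ∀ v ∈ V, 2 ^ j ≤ ℓ v ∧ ℓ v < 2 ^ (j + 1))
    (hc : (V.card : ℝ) ≤ Q / ((2 : ℝ) ^ j) ^ 2) :
    ∑ v ∈ V, ((ℓ v : ℝ) / d v + 1) ≤ 32 * Q ^ (3 / 5 : ℝ) := by
  have hQ0 : 0 ≤ Q := by linarith
  set q : ℝ := Q ^ (1 / 15 : ℝ) with hq
  have hq0 : 0 ≤ q := Real.rpow_nonneg hQ0 _
  have hq1 : 1 ≤ q := Real.one_le_rpow hQ (by norm_num)
  have hQq : Q = q ^ 15 := by
    rw [hq, ← Real.rpow_natCast, ← Real.rpow_mul hQ0]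
    norm_num
  have hQ9 : Q ^ (3 / 5 : ℝ) = q ^ 9 := by
    rw [hq, ← Real.rpow_natCast, ← Real.rpow_mul hQ0]
    norm_num
  rw [hQ9]
  set y : ℝ := (2 : ℝ) ^ j with hy
  have hy1 : 1 ≤ y := one_le_pow₀ (by norm_num)
  have hy0 : 0 < y := by linarith
  have hterm : ∀ v ∈ V, (ℓ v : ℝ) / d v + 1 ≤ 4 * y * (1 / (d v : ℝ)) := by
    intro v hvV
    have hd1 : (1 : ℝ) ≤ d v := by exact_mod_cast (hv v hvV).2.2.1
    have hdl : (d v : ℝ) ≤ ℓ v := by exact_mod_cast hd v hvV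
    have hl2 : (ℓ v : ℝ) ≤ 2 * y := by
      have h2 : ((ℓ v : ℕ) : ℝ) ≤ ((2 ^ (j + 1) : ℕ) : ℝ) := by exact_mod_cast (h1 v hvV).2.le
      push_cast at h2
      rw [pow_succ] at h2
      linarith
    have h3 : 4 * y * (1 / (d v : ℝ)) = 4 * y / d v := by ring
    rw [h3, div_add_one (by positivity), div_le_div_iff_of_pos_right (by positivity)]
    linarith
  have hsum : ∑ v ∈ V, ((ℓ v : ℝ) / d v + 1) ≤ 4 * y * ∑ v ∈ V, 1 / (d v : ℝ) := by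
    rw [Finset.mul_sum]
    exact Finset.sum_le_sum hterm
  rcases le_or_gt y (q ^ 3) with hyq | hyq
  · have h2 : ∑ v ∈ V, 1 / (d v : ℝ) ≤ (2 * y) ^ 2 := by
      have h3 := E10_small V d (2 ^ (j + 1)) hv fun v hvV => (hd v hvV).trans (h1 v hvV).2.le
      push_cast at h3
      rw [pow_succ 2 j] at h3
      calc ∑ v ∈ V, 1 / (d v : ℝ) ≤ ((2 : ℝ) ^ j * 2) ^ 2 := h3
        _ = (2 * y) ^ 2 := by rw [hy, mul_comm]
    have h4 : y ^ 3 ≤ (q ^ 3) ^ 3 := pow_le_pow_left₀ hy0.le hyq 3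
    have h5 : (q ^ 3) ^ 3 = q ^ 9 := by ring
    have h6 : 0 ≤ y ^ 3 := by positivity
    calc ∑ v ∈ V, ((ℓ v : ℝ) / d v + 1) ≤ 4 * y * ∑ v ∈ V, 1 / (d v : ℝ) := hsum
      _ ≤ 4 * y * (2 * y) ^ 2 := mul_le_mul_of_nonneg_left h2 (by positivity)
      _ = 16 * y ^ 3 := by ring
      _ ≤ 32 * q ^ 9 := by linarith
  · rcases V.eq_empty_or_nonempty with hV | hV
    · rw [hV, Finset.sum_empty]
      positivity
    · have hcard : (1 : ℝ) ≤ V.card := by exact_mod_cast hV.card_pos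
      have hz1 : 1 ≤ Q / y ^ 2 := hcard.trans hc
      set x : ℝ := (Q / y ^ 2) ^ (1 / 3 : ℝ) with hx
      have hx1 : 1 ≤ x := Real.one_le_rpow hz1 (by norm_num)
      have hx3 : x ^ 3 = Q / y ^ 2 := by
        rw [hx, ← Real.rpow_natCast, ← Real.rpow_mul (by linarith)]
        norm_num
      have hx0 : 0 < x := by linarith
      have h2 := co_inv V d ⌊x⌋₊ hv
      have hD1 : (⌊x⌋₊ : ℝ) ≤ x := Nat.floor_le hx0.le
      have hD2 : x < (⌊x⌋₊ : ℝ) + 1 := Nat.lt_floor_add_one x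
      have h3 : (⌊x⌋₊ : ℝ) ^ 2 ≤ x ^ 2 := pow_le_pow_left₀ (Nat.cast_nonneg _) hD1 2
      have h4 : (V.card : ℝ) / ((⌊x⌋₊ : ℝ) + 1) ≤ x ^ 2 := by
        rw [div_le_iff₀ (by linarith)]
        calc (V.card : ℝ) ≤ x ^ 3 := by rw [hx3]; exact hc
          _ = x ^ 2 * x := by ring
          _ ≤ x ^ 2 * ((⌊x⌋₊ : ℝ) + 1) := mul_le_mul_of_nonneg_left hD2.le (by positivity)
      have h5 : ∑ v ∈ V, 1 / (d v : ℝ) ≤ 2 * x ^ 2 := by linarith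
      have h6 : y * x ^ 2 ≤ q ^ 9 := by
        have h7 : (y * x ^ 2) ^ 3 ≤ (q ^ 9) ^ 3 := by
          have h8 : (y * x ^ 2) ^ 3 = y ^ 3 * (x ^ 3) ^ 2 := by ring
          rw [h8, hx3, hQq, div_pow, mul_div_assoc', div_le_iff₀ (by positivity)]
          have h9 : (q ^ 9) ^ 3 * (y ^ 2) ^ 2 = y ^ 3 * (q ^ 27 * y) := by ring
          rw [h9]
          apply mul_le_mul_of_nonneg_left _ (by positivity)
          have h10 : (q ^ 15) ^ 2 = q ^ 27 * q ^ 3 := by ring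
          rw [h10]
          exact mul_le_mul_of_nonneg_left hyq.le (by positivity)
        exact (pow_le_pow_iff_left₀ (by positivity) (by positivity) (by norm_num)).1 h7
      have hq9 : 0 ≤ q ^ 9 := by positivity
      calc ∑ v ∈ V, ((ℓ v : ℝ) / d v + 1) ≤ 4 * y * ∑ v ∈ V, 1 / (d v : ℝ) := hsum
        _ ≤ 4 * y * (2 * x ^ 2) := mul_le_mul_of_nonneg_left h5 (by positivity)
        _ = 8 * (y * x ^ 2) := by ring
        _ ≤ 32 * q ^ 9 := by linarith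

/-- **All lengths.**

Proof. `V` is the union of the sets `V_j = {v ∈ V : 2^j ≤ ℓ v < 2^(j+1)}`, `j < J` (`j = Nat.log 2 (ℓ v)`); `co_one` for each. -/
theorem co_all (V : Finset ℝ) (d ℓ : ℝ → ℕ) (Q : ℝ) (hQ : 1 ≤ Q) (J : ℕ)
    (hv : ∀ v ∈ V, 0 < v ∧ v ≤ 1 ∧ 1 ≤ d v ∧ ∃ t : ℕ, v * (d v : ℝ) ^ 2 = t)
    (hd : ∀ v ∈ V, d v ≤ ℓ v) (hJ : ∀ v ∈ V, ℓ v < 2 ^ J)
    (hc : ∀ j : ℕ, ((V.filter (fun v => 2 ^ j ≤ ℓ v)).card : ℝ) ≤ Q / ((2 : ℝ) ^ j) ^ 2) :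
    ∑ v ∈ V, ((ℓ v : ℝ) / d v + 1) ≤ J * (32 * Q ^ (3 / 5 : ℝ)) := by
  have hne : ∀ v ∈ V, ℓ v ≠ 0 := by
    intro v hvV
    have h1 := (hv v hvV).2.2.1
    have h2 := hd v hvV
    omega
  have h1 : ∑ j ∈ Finset.range J, ∑ v ∈ V with Nat.log 2 (ℓ v) = j, ((ℓ v : ℝ) / d v + 1) =
      ∑ v ∈ V, ((ℓ v : ℝ) / d v + 1) :=
    Finset.sum_fiberwise_of_maps_to
      (fun v hvV => Finset.mem_range.2 (Nat.log_lt_of_lt_pow (hne v hvV) (hJ v hvV))) _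
  rw [← h1]
  have h2 : ∀ j ∈ Finset.range J, ∑ v ∈ V with Nat.log 2 (ℓ v) = j, ((ℓ v : ℝ) / d v + 1) ≤
      32 * Q ^ (3 / 5 : ℝ) := by
    intro j _
    have hm : ∀ v ∈ V.filter (fun v => Nat.log 2 (ℓ v) = j), v ∈ V ∧ 2 ^ j ≤ ℓ v ∧ ℓ v < 2 ^ (j + 1) := by
      intro v hvV
      obtain ⟨h3, h4⟩ := Finset.mem_filter.1 hvV
      refine ⟨h3, ?_, ?_⟩
      · rw [← h4]
        exact Nat.pow_log_le_self 2 (hne v h3)
      · rw [← h4]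
        exact Nat.lt_pow_succ_log_self (by norm_num) _
    refine co_one _ d ℓ Q hQ j (fun v hvV => hv v (hm v hvV).1) (fun v hvV => hd v (hm v hvV).1)
      (fun v hvV => (hm v hvV).2) (le_trans ?_ (hc j))
    have h5 : (V.filter (fun v => Nat.log 2 (ℓ v) = j)).card ≤ (V.filter (fun v => 2 ^ j ≤ ℓ v)).card := by
      apply Finset.card_le_card
      intro v hvV
      exact Finset.mem_filter.2 ⟨(hm v hvV).1, (hm v hvV).2.1⟩
    exact_mod_cast h5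
  refine (Finset.sum_le_sum h2).trans ?_
  rw [Finset.sum_const, Finset.card_range, nsmul_eq_mul]

end Pool.Agent.Lib.H31P
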