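import Pool.Agent.Lib.H31P.E7

/-!
# Chunk E8 (M): classes are far apart
-/

open Finset MeasureTheory

namespace Pool.Agent.Lib.H31P

open Pool.Agent.Lib.H31W

private lemma e8_one_le (M : ℕ) (hM : 1 ≤ M) (v : ℝ) (a b : ℕ) (C : Cls M v a b) : 1 ≤ a := by
  have h1 : (1 : ℝ) ≤ (M : ℝ) := by exact_mod_cast hM
  have h2 := C.aM
  have h3 : (0 : ℝ) < (a : ℝ) := by linarith
  exact_mod_cast h3

/-- The denominator of a class is at most its length, and its elements are multiples.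

Proof. `d ∣ a` and `d ∣ b` (`Dn.dvd` and `r_nat`, `a ≥ 1` since `a ≥ M/2 > 0`), so `d ∣ b - a > 0`. -/
theorem cls_den (M : ℕ) (hM : 1 ≤ M) (v : ℝ) (a b d : ℕ) (C : Cls M v a b) (D : Dn v d) :
    d ≤ b - a ∧ ∀ k : ℕ, 1 ≤ k → r k = v → d ∣ k := by
  have hall : ∀ k : ℕ, 1 ≤ k → r k = v → d ∣ k := by
    intro k hk hr
    apply D.dvd
    rw [← hr]
    exact r_nat k hk
  have ha : 1 ≤ a := e8_one_le M hM v a b C
  have hab := C.ab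
  have hda : d ∣ a := hall a ha C.ra
  have hdb : d ∣ b := hall b (by omega) C.rb
  refine ⟨?_, hall⟩
  exact Nat.le_of_dvd (by omega) (Nat.dvd_sub hdb hda)

private lemma e8_lip (x y : ℕ) (M : ℝ) (hM : 0 < M) (hx : 1 ≤ x) (hxy : x ≤ y) (hy : M / 2 ≤ (y : ℝ)) :
    |r y - r x| ≤ 4 * ((y : ℝ) - x) / M := by
  have h := r_lip x y hx hxy
  have hyx : (0 : ℝ) ≤ (y : ℝ) - x := by
    have : (x : ℝ) ≤ (y : ℝ) := by exact_mod_cast hxy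
    linarith
  have hy0 : (0 : ℝ) < (y : ℝ) := by linarith
  refine h.trans ?_
  rw [div_le_div_iff₀ hy0 hM]
  nlinarith

private lemma e8_lip' (x y : ℕ) (M : ℝ) (hM : 0 < M) (hx : 1 ≤ x) (hy1 : 1 ≤ y) (hx2 : M / 2 ≤ (x : ℝ))
    (hy : M / 2 ≤ (y : ℝ)) :
    |r x - r y| ≤ 4 * |(x : ℝ) - y| / M := by
  rcases le_total x y with h | h
  · have h1 := e8_lip x y M hM hx h hy
    have hyx : (x : ℝ) - y ≤ 0 := by
      have : (x : ℝ) ≤ (y : ℝ) := by exact_mod_cast h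
      linarith
    rw [abs_of_nonpos hyx, abs_sub_comm]
    have e : -((x : ℝ) - y) = (y : ℝ) - x := by ring
    rw [e]
    exact h1
  · have h1 := e8_lip y x M hM hy1 h hx2
    have hyx : 0 ≤ (x : ℝ) - y := by
      have : (y : ℝ) ≤ (x : ℝ) := by exact_mod_cast h
      linarith
    rw [abs_of_nonneg hyx]
    exact h1

/-- **Separation of the classes.**

Proof. `1/M^(36/50) ≤ 1/(d² d'²) ≤ |v - v'| = |r a - r a'| ≤ 2 |a - a'|/max(a, a') ≤ 4 |a - a'|/M` (`cls_den`: `d, d' ≤ M^(9/50)`; `sep`,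
`r_lip`), so `|a - a'| ≥ M^(7/25)/4 ≥ M^(27/100)` for large `M`. -/
theorem cls_sep : ∃ M₀ : ℕ, ∀ M : ℕ, M₀ ≤ M → ∀ (v v' : ℝ) (a b a' b' d d' : ℕ), Cls M v a b →
    Cls M v' a' b' → Dn v d → Dn v' d' → v ≠ v' → (M : ℝ) ^ (27 / 100 : ℝ) ≤ |(a : ℝ) - a'| := by
  refine ⟨4 ^ 100, ?_⟩
  intro M hM v v' a b a' b' d d' C C' D D' hne
  have hM1 : 1 ≤ M := le_trans (Nat.one_le_pow _ _ (by norm_num)) hM
  have hMR : (1 : ℝ) ≤ (M : ℝ) := by exact_mod_cast hM1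
  have hM0 : (0 : ℝ) < (M : ℝ) := by linarith
  have ha : 1 ≤ a := e8_one_le M hM1 v a b C
  have ha' : 1 ≤ a' := e8_one_le M hM1 v' a' b' C'
  have hd : (d : ℝ) ≤ (M : ℝ) ^ (9 / 50 : ℝ) := by
    have h1 := (cls_den M hM1 v a b d C D).1
    have h2 : (d : ℝ) ≤ (b : ℝ) - a := by
      have h3 : (d : ℝ) ≤ ((b - a : ℕ) : ℝ) := by exact_mod_cast h1
      rwa [Nat.cast_sub C.ab.le] at h3
    exact h2.trans C.len
  have hd' : (d' : ℝ) ≤ (M : ℝ) ^ (9 / 50 : ℝ) := by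
    have h1 := (cls_den M hM1 v' a' b' d' C' D').1
    have h2 : (d' : ℝ) ≤ (b' : ℝ) - a' := by
      have h3 : (d' : ℝ) ≤ ((b' - a' : ℕ) : ℝ) := by exact_mod_cast h1
      rwa [Nat.cast_sub C'.ab.le] at h3
    exact h2.trans C'.len
  have hd1 : (1 : ℝ) ≤ (d : ℝ) := by exact_mod_cast D.pos
  have hd1' : (1 : ℝ) ≤ (d' : ℝ) := by exact_mod_cast D'.pos
  have hsep := sep v v' d d' D.pos D'.pos D.nat D'.nat hne
  have hlip := e8_lip' a a' (M : ℝ) hM0 ha ha' C.aM C'.aM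
  rw [C.ra, C'.ra] at hlip
  -- powers
  set P : ℝ := (M : ℝ) ^ (9 / 50 : ℝ) with hPdef
  have hP0 : 0 < P := Real.rpow_pos_of_pos hM0 _
  have hden : (d : ℝ) ^ 2 * (d' : ℝ) ^ 2 ≤ (M : ℝ) ^ (36 / 50 : ℝ) := by
    have h1 : (d : ℝ) ^ 2 ≤ P ^ 2 := by
      apply pow_le_pow_left₀ (by linarith) hd
    have h2 : (d' : ℝ) ^ 2 ≤ P ^ 2 := by
      apply pow_le_pow_left₀ (by linarith) hd'
    have h3 : P ^ 2 * P ^ 2 = (M : ℝ) ^ (36 / 50 : ℝ) := by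
      rw [← pow_add, hPdef, ← Real.rpow_natCast, ← Real.rpow_mul hM0.le]
      norm_num
    rw [← h3]
    exact mul_le_mul h1 h2 (by positivity) (by positivity)
  have hdpos : (0 : ℝ) < (d : ℝ) ^ 2 * (d' : ℝ) ^ 2 := by positivity
  have h5 : 1 / (M : ℝ) ^ (36 / 50 : ℝ) ≤ 4 * |(a : ℝ) - a'| / M :=
    (one_div_le_one_div_of_le hdpos hden).trans (hsep.trans hlip)
  have hQ0 : 0 < (M : ℝ) ^ (36 / 50 : ℝ) := Real.rpow_pos_of_pos hM0 _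
  rw [div_le_div_iff₀ hQ0 hM0] at h5
  -- M ≤ 4 |a - a'| M^(36/50)
  have h6 : (4 : ℝ) ≤ (M : ℝ) ^ (1 / 100 : ℝ) := by
    have h7 : ((4 : ℝ) ^ 100) ≤ (M : ℝ) := by exact_mod_cast hM
    have h8 : ((4 : ℝ) ^ 100) ^ (1 / 100 : ℝ) ≤ (M : ℝ) ^ (1 / 100 : ℝ) :=
      Real.rpow_le_rpow (by positivity) h7 (by norm_num)
    have h9 : ((4 : ℝ) ^ 100) ^ (1 / 100 : ℝ) = 4 := by
      rw [← Real.rpow_natCast, ← Real.rpow_mul (by norm_num)]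
      norm_num
    rwa [h9] at h8
  have h10 : (M : ℝ) = (M : ℝ) ^ (1 / 100 : ℝ) * (M : ℝ) ^ (27 / 100 : ℝ) * (M : ℝ) ^ (36 / 50 : ℝ) := by
    rw [← Real.rpow_add hM0, ← Real.rpow_add hM0]
    norm_num
  set T : ℝ := (M : ℝ) ^ (27 / 100 : ℝ) with hTdef
  have hT0 : 0 < T := Real.rpow_pos_of_pos hM0 _
  have h11 : 4 * T * (M : ℝ) ^ (36 / 50 : ℝ) ≤ (M : ℝ) := by
    calc 4 * T * (M : ℝ) ^ (36 / 50 : ℝ) ≤ (M : ℝ) ^ (1 / 100 : ℝ) * T * (M : ℝ) ^ (36 / 50 : ℝ) := by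
          apply mul_le_mul_of_nonneg_right _ hQ0.le
          exact mul_le_mul_of_nonneg_right h6 hT0.le
      _ = (M : ℝ) := h10.symm
  have h12 : 4 * T * (M : ℝ) ^ (36 / 50 : ℝ) ≤ 4 * |(a : ℝ) - a'| * (M : ℝ) ^ (36 / 50 : ℝ) := by
    linarith
  have h13 := le_of_mul_le_mul_right h12 hQ0
  linarith

end Pool.Agent.Lib.H31P
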