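import Pool.Agent.Lib.H31P.E1

/-!
# Chunk E9 (M/L): the number of classes of given length
-/

open Finset MeasureTheory

namespace Pool.Agent.Lib.H31P

open Pool.Agent.Lib.H31W

private theorem e9_sep (M : ℕ) (hM : 1 ≤ M) (a a' : ℕ) (s R : ℝ) (hs : 0 < s) (ha0 : (0 : ℝ) < a)
    (ha' : (a' : ℝ) ≤ 4 * M) (hR : s < R / (2 * M)) (haa : (a : ℝ) ≤ a') (hd : R ≤ |(a : ℝ) - a'|) :
    2 * Real.log a < 2 * Real.log a' - s := by
  have hM' : (1 : ℝ) ≤ M := by exact_mod_cast hM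
  have hM0 : (0 : ℝ) < M := by linarith
  have ha'0 : (0 : ℝ) < a' := by linarith
  have hR0 : 0 < R := by
    have h1 : 0 < R / (2 * (M : ℝ)) := hs.trans hR
    have h2 : R = R / (2 * (M : ℝ)) * (2 * M) := by
      field_simp
    rw [h2]
    positivity
  rw [abs_sub_comm, abs_of_nonneg (by linarith)] at hd
  have h1 : Real.log ((a : ℝ) / a') ≤ (a : ℝ) / a' - 1 := Real.log_le_sub_one_of_pos (by positivity)
  rw [Real.log_div ha0.ne' ha'0.ne'] at h1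
  have h2 : (a : ℝ) / a' - 1 ≤ -(R / (4 * (M : ℝ))) := by
    rw [div_sub_one ha'0.ne', div_le_iff₀ ha'0]
    have h3 : (a' : ℝ) / (4 * M) ≤ 1 := by
      rw [div_le_one (by positivity)]
      exact ha'
    have h4 : -(R / (4 * (M : ℝ))) * a' = -(R * ((a' : ℝ) / (4 * M))) := by ring
    rw [h4]
    have h5 : R * ((a' : ℝ) / (4 * M)) ≤ R * 1 := mul_le_mul_of_nonneg_left h3 hR0.le
    linarith
  have h5 : R / (2 * (M : ℝ)) = 2 * (R / (4 * (M : ℝ))) := by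
    field_simp
    norm_num
  rw [h5] at hR
  linarith

/-- Disjoint windows of one length.

Proof. `W_v = [2 log (a v) - s, 2 log (a v)]`, `v ∈ V`: contained in `B`, of measure `s`, pairwise disjoint: `|log a - log a'| ≥ |a - a'|/(4M)`
(`a, a' ≤ 4M`, `log y - log x ≥ (y-x)/y`), so `2 |log a - log a'| ≥ R/(2M) > s`. So `|V| s = Σ vol W_v = vol (⋃ W_v) ≤ vol B`
(`measure_biUnion_finset`). -/
theorem disj (M : ℕ) (hM : 1 ≤ M) (V : Finset ℝ) (a : ℝ → ℕ) (s R : ℝ) (B : Set ℝ) (hs : 0 < s)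
    (ha : ∀ v ∈ V, (M : ℝ) / 2 ≤ a v ∧ (a v : ℝ) ≤ 4 * M)
    (hB : ∀ v ∈ V, Set.Icc (2 * Real.log (a v) - s) (2 * Real.log (a v)) ⊆ B)
    (hsep : ∀ v ∈ V, ∀ v' ∈ V, v ≠ v' → R ≤ |(a v : ℝ) - a v'|) (hR : s < R / (2 * M)) :
    (V.card : ENNReal) * ENNReal.ofReal s ≤ volume B := by
  have hM' : (1 : ℝ) ≤ M := by exact_mod_cast hM
  have hdisj : (V : Set ℝ).PairwiseDisjoint
      (fun v => Set.Icc (2 * Real.log (a v) - s) (2 * Real.log (a v))) := by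
    intro v hv v' hv' hne
    rw [Function.onFun, Set.disjoint_left]
    intro u hu hu'
    have hv1 := ha v hv
    have hv2 := ha v' hv'
    rcases le_total (a v : ℝ) (a v') with h | h
    · have h1 := e9_sep M hM (a v) (a v') s R hs (by linarith [hv1.1]) hv2.2 hR h (hsep v hv v' hv' hne)
      linarith [hu.2, hu'.1]
    · have h1 := e9_sep M hM (a v') (a v) s R hs (by linarith [hv2.1]) hv1.2 hR h
        (hsep v' hv' v hv hne.symm)
      linarith [hu.1, hu'.2]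
  have h1 := measure_biUnion_finset (μ := volume) hdisj (fun v _ => measurableSet_Icc)
  have h2 : ∀ v ∈ V, volume (Set.Icc (2 * Real.log (a v) - s) (2 * Real.log (a v))) =
      ENNReal.ofReal s := by
    intro v _
    rw [Real.volume_Icc]
    congr 1
    ring
  rw [Finset.sum_congr rfl h2, Finset.sum_const, nsmul_eq_mul] at h1
  rw [← h1]
  refine measure_mono ?_
  intro u hu
  simp only [Set.mem_iUnion] at hu
  obtain ⟨v, hv, hu⟩ := hu
  exact hB v hv hu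

private theorem e9_large (κ : ℝ) (hκ : 0 < κ) : ∃ N₀ : ℕ, ∀ N : ℕ, N₀ ≤ N →
    672960 * Real.log N ^ 3 ≤ (N : ℝ) ^ (κ / 2) := by
  have h1 := isLittleO_log_rpow_rpow_atTop (3 : ℝ) (show (0 : ℝ) < κ / 2 by linarith)
  have h2 := h1.def (show (0 : ℝ) < 1 / 672960 by norm_num)
  have h3 := (h2.and (Filter.eventually_ge_atTop 1))
  obtain ⟨a, ha⟩ := Filter.eventually_atTop.mp h3
  refine ⟨⌈a⌉₊, fun N hN => ?_⟩
  have hN' : a ≤ N := (Nat.le_ceil a).trans (by exact_mod_cast hN)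
  obtain ⟨h4, h5⟩ := ha N hN'
  have hlog : 0 ≤ Real.log N := Real.log_nonneg h5
  rw [Real.norm_of_nonneg (Real.rpow_nonneg hlog _), Real.norm_of_nonneg (Real.rpow_nonneg (by linarith) _)] at h4
  have h6 : Real.log N ^ (3 : ℝ) = Real.log N ^ 3 := by
    exact_mod_cast Real.rpow_natCast (Real.log N) 3
  rw [h6] at h4
  linarith

/-- The count for one length. -/
private theorem e9_one (M : ℕ) (hM : 3 ≤ M) (hlog : 1 ≤ Real.log M) (κ η L : ℝ) (hκ : 0 < κ)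
    (V : Finset ℝ) (a : ℝ → ℕ) (hL : 1 ≤ L) (hL2 : L ≤ (M : ℝ) ^ (9 / 50 : ℝ))
    (hηL : L / (2 * M) ≤ η) (hη : η ≤ (M : ℝ) ^ (-(81 / 100) : ℝ))
    (hV : volume (MB M η) ≤ ENNReal.ofReal ((M : ℝ) ^ (-(4 / 3) + κ / 2) / η + (M : ℝ) ^ (-(9 / 5) : ℝ)))
    (ha : ∀ v ∈ V, (M : ℝ) / 2 ≤ a v ∧ (a v : ℝ) ≤ 4 * M)
    (hB : ∀ v ∈ V, Set.Icc (2 * Real.log (a v) - η * (eps M / 8)) (2 * Real.log (a v)) ⊆ MB M η)
    (hsep : ∀ v ∈ V, ∀ v' ∈ V, v ≠ v' → (M : ℝ) ^ (27 / 100 : ℝ) ≤ |(a v : ℝ) - a v'|) :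
    (V.card : ℝ) ≤ 960 * Real.log M * ((M : ℝ) ^ (2 / 3 + κ / 2) / L ^ 2) := by
  have hM' : (3 : ℝ) ≤ M := by exact_mod_cast hM
  have hM0 : (0 : ℝ) < M := by linarith
  have hM1 : (1 : ℝ) ≤ M := by linarith
  have hη0 : 0 < η := lt_of_lt_of_le (by positivity) hηL
  have he0 : 0 < eps M := by
    unfold eps
    positivity
  have he1 : eps M ≤ 1 / 20 := by
    unfold eps
    exact one_div_le_one_div_of_le (by norm_num) (by linarith)
  have hs0 : 0 < η * (eps M / 8) := by positivity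
  have hR : η * (eps M / 8) < (M : ℝ) ^ (27 / 100 : ℝ) / (2 * M) := by
    have h1 : (M : ℝ) ^ (27 / 100 : ℝ) = (M : ℝ) ^ (-(73 / 100) : ℝ) * M := by
      rw [← Real.rpow_add_one hM0.ne']
      norm_num
    have h2 : (M : ℝ) ^ (27 / 100 : ℝ) / (2 * M) = (M : ℝ) ^ (-(73 / 100) : ℝ) / 2 := by
      rw [h1]
      field_simp
    have h3 : (M : ℝ) ^ (-(81 / 100) : ℝ) ≤ (M : ℝ) ^ (-(73 / 100) : ℝ) :=
      Real.rpow_le_rpow_of_exponent_le hM1 (by norm_num)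
    rw [h2]
    have h4 : η * (eps M / 8) ≤ η * (1 / 160) := mul_le_mul_of_nonneg_left (by linarith) hη0.le
    have h5 : 0 < (M : ℝ) ^ (-(73 / 100) : ℝ) := by positivity
    linarith
  have hd := disj M (by omega) V a (η * (eps M / 8)) ((M : ℝ) ^ (27 / 100 : ℝ)) (MB M η) hs0 ha hB hsep hR
  obtain ⟨U, hU⟩ : ∃ U : ℝ, U = (M : ℝ) ^ (-(4 / 3) + κ / 2) / η + (M : ℝ) ^ (-(9 / 5) : ℝ) := ⟨_, rfl⟩
  have hU0 : 0 ≤ U := by
    rw [hU]
    positivity
  rw [← hU] at hV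
  have h6 := hd.trans hV
  rw [← ENNReal.ofReal_natCast, ← ENNReal.ofReal_mul (Nat.cast_nonneg _),
    ENNReal.ofReal_le_ofReal_iff hU0] at h6
  have h7 : 160 * Real.log M * eps M = 8 := by
    unfold eps
    field_simp
    norm_num
  obtain ⟨P, hP⟩ : ∃ P : ℝ, P = (M : ℝ) ^ (2 / 3 + κ / 2) / L ^ 2 := ⟨_, rfl⟩
  have hP0 : 0 < P := by
    rw [hP]
    positivity
  rw [← hP]
  -- `U ≤ 6 P η`
  have hU6 : U ≤ 6 * P * η := by
    have hA : (M : ℝ) ^ (-(4 / 3) + κ / 2) / η ≤ 4 * P * η := by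
      rw [div_le_iff₀ hη0]
      have h1 : (M : ℝ) ^ (2 / 3 + κ / 2) = (M : ℝ) ^ (-(4 / 3) + κ / 2) * (M : ℝ) ^ (2 : ℕ) := by
        rw [← Real.rpow_natCast, ← Real.rpow_add hM0]
        congr 1
        push_cast
        ring
      have h2 : (L / (2 * M)) ^ 2 ≤ η * η := by
        rw [← sq]
        exact pow_le_pow_left₀ (by positivity) hηL 2
      have h3 : 4 * P * η * η = 4 * P * (η * η) := by ring
      rw [h3]
      refine le_trans (le_of_eq ?_) (mul_le_mul_of_nonneg_left h2 (by positivity))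
      rw [hP, h1]
      field_simp
      norm_num
    have hBB : (M : ℝ) ^ (-(9 / 5) : ℝ) ≤ 2 * P * η := by
      have h1 : (M : ℝ) ^ (-(4 / 5) : ℝ) * L ≤ (M : ℝ) ^ (2 / 3 + κ / 2) := by
        calc (M : ℝ) ^ (-(4 / 5) : ℝ) * L ≤ (M : ℝ) ^ (-(4 / 5) : ℝ) * (M : ℝ) ^ (9 / 50 : ℝ) :=
              mul_le_mul_of_nonneg_left hL2 (by positivity)
          _ = (M : ℝ) ^ (-(4 / 5) + 9 / 50 : ℝ) := by rw [← Real.rpow_add hM0]
          _ ≤ (M : ℝ) ^ (2 / 3 + κ / 2) := Real.rpow_le_rpow_of_exponent_le hM1 (by linarith)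
      have h2 : (M : ℝ) ^ (-(4 / 5) : ℝ) = (M : ℝ) ^ (-(9 / 5) : ℝ) * M := by
        rw [← Real.rpow_add_one hM0.ne']
        norm_num
      have h3 : 2 * P * (L / (2 * M)) ≤ 2 * P * η := mul_le_mul_of_nonneg_left hηL (by positivity)
      refine le_trans ?_ h3
      have h4 : 2 * P * (L / (2 * M)) = (M : ℝ) ^ (2 / 3 + κ / 2) / (L * M) := by
        rw [hP]
        field_simp
      rw [h4, le_div_iff₀ (by positivity)]
      rw [h2] at h1
      linarith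
    rw [hU]
    linarith
  have h8 : (V.card : ℝ) * (η * (eps M / 8)) ≤ (960 * Real.log M * P) * (η * (eps M / 8)) := by
    refine h6.trans (hU6.trans (le_of_eq ?_))
    have h9 : (960 * Real.log M * P) * (η * (eps M / 8)) =
        6 * P * η * (160 * Real.log M * eps M / 8) := by ring
    rw [h9, h7]
    ring
  exact le_of_mul_le_mul_right h8 hs0

/-- **The number of classes of length at least `L`.**

Proof. `ε = eps M = 1/(20 log M)`. `window` gives for every `v ∈ V` an index `i = i(v) ≤ 700 (log M)²`. Fix `i`, `η = q^i`, and let `V_i` be the set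
of the `v` with `i(v) = i`. If it is not empty then `L/(2M) ≤ η ≤ M^(-81/100)`, `η ≥ 1/(2M)`. `disj` with `s = η ε/8`, `R = M^(27/100)`, `B = MB M η`
(`s ≤ M^(-81/100) < M^(-73/100)/2`): `|V_i| η ε/8 ≤ vol (MB M η) ≤ M^(-4/3+κ/2)/η + M^(-9/5)`. So
`|V_i| ≤ 160 log M (M^(-4/3+κ/2)/η² + M^(-9/5)/η) ≤ 160 log M (4 M^(2/3+κ/2)/L² + 2 M^(-4/5)/L) ≤ 960 log M · M^(2/3+κ/2)/L²`
(`1 ≤ L ≤ M^(9/50)`; if `V` is empty nothing is to be shown). Sum over `i`: at most `M^(2/3+κ)/L²` for large `M`. -/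
theorem classes (hM : MBStm) (κ : ℝ) (hκ : 0 < κ) : ∃ M₀ : ℕ, ∀ M : ℕ, M₀ ≤ M →
    ∀ (V : Finset ℝ) (a b : ℝ → ℕ) (L : ℝ), 1 ≤ L →
    (∀ v ∈ V, Cls M v (a v) (b v) ∧ L ≤ (b v : ℝ) - a v) →
    (∀ v ∈ V, ∀ v' ∈ V, v ≠ v' → (M : ℝ) ^ (27 / 100 : ℝ) ≤ |(a v : ℝ) - a v'|) →
    (V.card : ℝ) ≤ (M : ℝ) ^ (2 / 3 + κ) / L ^ 2 := by
  classical
  obtain ⟨N₁, hN₁⟩ := window
  obtain ⟨N₂, hN₂⟩ := hM (κ / 2) (by linarith)
  obtain ⟨N₃, hN₃⟩ := e9_large κ hκ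
  refine ⟨max (max N₁ N₂) (max N₃ 8), fun N hN V a b L hL hV hsep => ?_⟩
  have hNN1 : N₁ ≤ N := le_trans (le_trans (le_max_left _ _) (le_max_left _ _)) hN
  have hNN2 : N₂ ≤ N := le_trans (le_trans (le_max_right _ _) (le_max_left _ _)) hN
  have hNN3 : N₃ ≤ N := le_trans (le_trans (le_max_left _ _) (le_max_right _ _)) hN
  have hNN4 : 8 ≤ N := le_trans (le_trans (le_max_right _ _) (le_max_right _ _)) hN
  have hwin := hN₁ N hNN1
  have hmb := hN₂ N hNN2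
  have hlarge := hN₃ N hNN3
  have hN' : (8 : ℝ) ≤ N := by exact_mod_cast hNN4
  have hN0 : (0 : ℝ) < N := by linarith
  have hlog : 1 ≤ Real.log N := by
    rw [Real.le_log_iff_exp_le (by linarith)]
    have := Real.exp_one_lt_d9
    linarith
  obtain ⟨J, hJ⟩ : ∃ J : Finset ℕ, J = range (⌊700 * Real.log N ^ 2⌋₊ + 1) := ⟨_, rfl⟩
  have hJc : (J.card : ℝ) ≤ 701 * Real.log N ^ 2 := by
    have h1 : J.card ≤ ⌊700 * Real.log N ^ 2⌋₊ + 1 := by
      rw [hJ, card_range]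
    have h2 : (J.card : ℝ) ≤ (⌊700 * Real.log N ^ 2⌋₊ : ℝ) + 1 := by exact_mod_cast h1
    have h3 : (⌊700 * Real.log N ^ 2⌋₊ : ℝ) ≤ 700 * Real.log N ^ 2 := Nat.floor_le (by positivity)
    nlinarith
  obtain ⟨P, hP⟩ : ∃ P : ℝ, P = (N : ℝ) ^ (2 / 3 + κ / 2) / L ^ 2 := ⟨_, rfl⟩
  have hL0 : 0 < L := by linarith
  have hP0 : 0 < P := by
    rw [hP]
    positivity
  obtain ⟨Pr, hPr⟩ : ∃ Pr : ℕ → ℝ → Prop, Pr = fun i v => 1 / (2 * (N : ℝ)) ≤ qq N ^ i ∧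
      qq N ^ i ≤ (N : ℝ) ^ (-(81 / 100) : ℝ) ∧ L / (2 * N) ≤ qq N ^ i ∧
      Set.Icc (2 * Real.log (a v) - qq N ^ i * (eps N / 8)) (2 * Real.log (a v)) ⊆
        MB N (qq N ^ i) := ⟨_, rfl⟩
  have hsub : V ⊆ J.biUnion (fun i => V.filter (fun v => Pr i v)) := by
    intro v hv
    obtain ⟨hc, hl⟩ := hV v hv
    obtain ⟨i, hi1, hi2, hi3, hi4, _, _, hi7⟩ := hwin (a v) (b v) hc.ab hc.aM hc.bM hc.len hc.bad
    refine mem_biUnion.2 ⟨i, ?_, mem_filter.2 ⟨hv, ?_⟩⟩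
    · rw [hJ]
      exact mem_range.2 (Nat.lt_succ_of_le (Nat.le_floor hi1))
    · rw [hPr]
      refine ⟨hi2, hi3, ?_, hi7⟩
      refine le_trans ?_ hi4
      rw [div_le_div_iff_of_pos_right (by positivity)]
      exact hl
  have hone : ∀ i ∈ J, ((V.filter (fun v => Pr i v)).card : ℝ) ≤ 960 * Real.log N * P := by
    intro i _
    rcases (V.filter (fun v => Pr i v)).eq_empty_or_nonempty with he | ⟨w, hw⟩
    · rw [he, card_empty, Nat.cast_zero]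
      positivity
    · obtain ⟨hwV, hwP⟩ := mem_filter.1 hw
      rw [hPr] at hwP
      obtain ⟨h1, h2, h3, _⟩ := hwP
      have hLw := (hV w hwV).2.trans (hV w hwV).1.len
      rw [hP]
      refine e9_one N (by omega) hlog κ (qq N ^ i) L hκ _ a hL hLw h3 h2 (hmb _ h1 h2).1 ?_ ?_ ?_
      · intro v hv
        have hc := (hV v (mem_filter.1 hv).1).1
        have h4 : ((a v : ℕ) : ℝ) ≤ (b v : ℕ) := by exact_mod_cast hc.ab.le
        exact ⟨hc.aM, h4.trans hc.bM⟩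
      · intro v hv
        have h4 := (mem_filter.1 hv).2
        rw [hPr] at h4
        exact h4.2.2.2
      · intro v hv v' hv' hne
        exact hsep v (mem_filter.1 hv).1 v' (mem_filter.1 hv').1 hne
  have hcard : (V.card : ℝ) ≤ ∑ i ∈ J, ((V.filter (fun v => Pr i v)).card : ℝ) := by
    have h1 := (card_le_card hsub).trans card_biUnion_le
    exact_mod_cast h1
  calc (V.card : ℝ) ≤ ∑ i ∈ J, ((V.filter (fun v => Pr i v)).card : ℝ) := hcard
    _ ≤ ∑ _i ∈ J, 960 * Real.log N * P := sum_le_sum hone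
    _ = J.card * (960 * Real.log N * P) := by rw [sum_const, nsmul_eq_mul]
    _ ≤ 701 * Real.log N ^ 2 * (960 * Real.log N * P) :=
        mul_le_mul_of_nonneg_right hJc (by positivity)
    _ = (672960 * Real.log N ^ 3) * P := by ring
    _ ≤ (N : ℝ) ^ (κ / 2) * P := mul_le_mul_of_nonneg_right hlarge hP0.le
    _ = (N : ℝ) ^ (2 / 3 + κ) / L ^ 2 := by
        rw [hP, ← mul_div_assoc, ← Real.rpow_add hN0]
        congr 2
        ring

end Pool.Agent.Lib.H31P
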