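import Pool.Agent.Lib.H31P.E6
import Pool.Agent.Lib.H31P.E8
import Pool.Agent.Lib.H31P.E9
import Pool.Agent.Lib.H31P.E10

/-!
# Chunk E11 (M): coincidences in a dyadic block
-/

open Finset MeasureTheory

namespace Pool.Agent.Lib.H31P

open Pool.Agent.Lib.H31W

/-- The number of multiples of `d` in an interval. -/
private theorem e11_mult (T : Finset ℕ) (a b d : ℕ) (hd : 1 ≤ d)
    (hT : ∀ k ∈ T, a ≤ k ∧ k ≤ b ∧ d ∣ k) : (T.card : ℝ) ≤ ((b - a : ℕ) : ℝ) / d + 1 := by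
  rcases T.eq_empty_or_nonempty with rfl | hne
  · rw [Finset.card_empty, Nat.cast_zero]
    positivity
  · have hm := T.min'_mem hne
    set m := T.min' hne with hmdef
    have hsub : T.card ≤ (Finset.range ((b - a) / d + 1)).card := by
      refine Finset.card_le_card_of_injOn (fun k => (k - m) / d) ?_ ?_
      · intro k hk
        have h1 := hT k (by simpa using hk)
        have h2 := hT m hm
        have h3 : k - m ≤ b - a := by omega
        have h4 : (k - m) / d ≤ (b - a) / d := Nat.div_le_div_right h3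
        simp only [Finset.coe_range, Set.mem_Iio]
        omega
      · intro k hk l hl hkl
        have hk' : k ∈ T := by simpa using hk
        have hl' : l ∈ T := by simpa using hl
        have h1 := hT k hk'
        have h2 := hT m hm
        have h3 := hT l hl'
        have h4 : m ≤ k := T.min'_le k hk'
        have h5 : m ≤ l := T.min'_le l hl'
        have h6 : d ∣ k - m := Nat.dvd_sub h1.2.2 h2.2.2
        have h7 : d ∣ l - m := Nat.dvd_sub h3.2.2 h2.2.2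
        have hkl' : (k - m) / d = (l - m) / d := hkl
        have h8 : k - m = l - m := by
          rw [← Nat.div_mul_cancel h6, ← Nat.div_mul_cancel h7, hkl']
        omega
    rw [Finset.card_range] at hsub
    have hd0 : (0 : ℝ) < d := by exact_mod_cast hd
    calc (T.card : ℝ) ≤ (((b - a) / d + 1 : ℕ) : ℝ) := by exact_mod_cast hsub
      _ = (((b - a) / d : ℕ) : ℝ) + 1 := by push_cast; ring
      _ ≤ ((b - a : ℕ) : ℝ) / d + 1 := by
          have := @Nat.cast_div_le ℝ _ _ _ (b - a) d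
          linarith

/-- Logarithms are small. -/
private theorem e11_log (κ : ℝ) (hκ : 0 < κ) : ∃ M₀ : ℕ, ∀ M : ℕ, M₀ ≤ M →
    32 * ((Nat.log 2 M + 1 : ℕ) : ℝ) ≤ (M : ℝ) ^ (2 / 5 * κ) := by
  have hκ' : (0 : ℝ) < 2 / 5 * κ := by positivity
  have h1 := (isLittleO_log_rpow_atTop hκ').bound (by norm_num : (0 : ℝ) < 1 / 128)
  have h2 : ∀ᶠ x : ℝ in Filter.atTop, (64 : ℝ) ≤ x ^ (2 / 5 * κ) :=
    (tendsto_rpow_atTop hκ').eventually_ge_atTop _
  obtain ⟨x₀, hx₀⟩ := Filter.eventually_atTop.1 ((h1.and h2).and (Filter.eventually_ge_atTop 1))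
  refine ⟨⌈x₀⌉₊, fun M hM => ?_⟩
  obtain ⟨⟨h3, h4⟩, h5⟩ := hx₀ (M : ℝ) ((Nat.le_ceil x₀).trans (by exact_mod_cast hM))
  have hM0 : (0 : ℝ) < M := by linarith
  have hpos : (0 : ℝ) ≤ (M : ℝ) ^ (2 / 5 * κ) := (Real.rpow_pos_of_pos hM0 _).le
  rw [Real.norm_of_nonneg (Real.log_nonneg h5), Real.norm_of_nonneg hpos] at h3
  have h6 : (Nat.log 2 M : ℝ) ≤ 2 * Real.log M := by
    have h7 : (Nat.log 2 M : ℝ) ≤ Real.logb ((2 : ℕ) : ℝ) (M : ℝ) := Real.natLog_le_logb M 2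
    refine h7.trans ?_
    rw [Real.logb]
    push_cast
    have h8 : (1 / 2 : ℝ) ≤ Real.log 2 := by
      have := Real.log_two_gt_d9
      linarith
    have h9 : (0 : ℝ) < Real.log 2 := by linarith
    rw [div_le_iff₀ h9]
    have h10 := Real.log_nonneg h5
    nlinarith
  push_cast
  linarith

open Classical in
/-- **Coincidences in `(M, 2M]`.**

Proof. `S` the set of the `n ∈ (M, 2M]` with `Coin n`, `V = S.image r`. For `v ∈ V` choose `a v, b v` with `Cls M v (a v) (b v)` (`cls`) and `d v` with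
`Dn v (d v)` (`den`, `r_nat`); `ℓ v = b v - a v`. By `cls_den` the elements `n ∈ S` with `r n = v` are multiples of `d v` in `[a v, b v]`: at most
`ℓ v/d v + 1` of them. So `|S| ≤ Σ_{v ∈ V} (ℓ v/d v + 1)` (`Finset.card_eq_sum_card_image`). Use `co_all`: `0 < v ≤ 1` by `r_pos`, `d v ≤ ℓ v` by `cls_den`;
`J = Nat.log 2 M + 1` (`ℓ v ≤ M^(9/50) ≤ M < 2^J`); `Q = M^(2/3+κ)`: `classes` (with `L = 2^j`, separation by `cls_sep`) gives `hc`. So
`|S| ≤ 32 J Q^(3/5) = 32 J M^(2/5 + 3κ/5) ≤ M^(2/5+κ)` for large `M`. -/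
theorem co_blk (hP : PntProp) (hM : MBStm) (κ : ℝ) (hκ : 0 < κ) : ∃ M₀ : ℕ, ∀ M : ℕ, M₀ ≤ M →
    (((Ioc M (2 * M)).filter (fun n => Coin n)).card : ℝ) ≤ (M : ℝ) ^ (2 / 5 + κ) := by
  obtain ⟨M₁, h₁⟩ := cls hP hM
  obtain ⟨M₂, h₂⟩ := cls_sep
  obtain ⟨M₃, h₃⟩ := classes hM κ hκ
  obtain ⟨M₄, h₄⟩ := e11_log κ hκ
  refine ⟨max (max M₁ M₂) (max (max M₃ M₄) 2), fun M hMM => ?_⟩
  have g1 : M₁ ≤ M := (le_max_left _ _).trans ((le_max_left _ _).trans hMM)
  have g2 : M₂ ≤ M := (le_max_right _ _).trans ((le_max_left _ _).trans hMM)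
  have g3 : M₃ ≤ M := (le_max_left _ _).trans ((le_max_left _ _).trans ((le_max_right _ _).trans hMM))
  have g4 : M₄ ≤ M :=
    (le_max_right _ _).trans ((le_max_left _ _).trans ((le_max_right _ _).trans hMM))
  have g5 : 2 ≤ M := (le_max_right _ _).trans ((le_max_right _ _).trans hMM)
  have hM1 : (1 : ℝ) ≤ M := by exact_mod_cast (by omega : 1 ≤ M)
  have hM0 : (0 : ℝ) < M := by linarith
  set S := (Ioc M (2 * M)).filter (fun n => Coin n) with hS
  set V := S.image r with hV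
  have hVn : ∀ v ∈ V, ∃ n ∈ S, r n = v := fun v hv => Finset.mem_image.1 hv
  have hSn : ∀ n ∈ S, M < n ∧ n ≤ 2 * M ∧ Coin n := by
    intro n hn
    obtain ⟨h5, h6⟩ := Finset.mem_filter.1 hn
    exact ⟨(Finset.mem_Ioc.1 h5).1, (Finset.mem_Ioc.1 h5).2, h6⟩
  have hex1 : ∀ v ∈ V, ∃ a b : ℕ, Cls M v a b := by
    intro v hv
    obtain ⟨n, hn, rfl⟩ := hVn v hv
    obtain ⟨h5, h6⟩ := Finset.mem_filter.1 hn
    exact h₁ M g1 n h5 h6
  have hex2 : ∀ v ∈ V, ∃ d : ℕ, Dn v d := by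
    intro v hv
    obtain ⟨n, hn, rfl⟩ := hVn v hv
    have h5 : 1 ≤ n := by have := (hSn n hn).1; omega
    exact den (r n) n h5 (r_nat n h5)
  choose! a b hab using hex1
  choose! d hd using hex2
  have hden : ∀ v ∈ V, d v ≤ b v - a v ∧ ∀ k : ℕ, 1 ≤ k → r k = v → d v ∣ k := fun v hv =>
    cls_den M (by omega) v (a v) (b v) (d v) (hab v hv) (hd v hv)
  have hcast : ∀ v ∈ V, ((b v - a v : ℕ) : ℝ) = (b v : ℝ) - a v := fun v hv =>
    Nat.cast_sub (hab v hv).ab.le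
  have hsep : ∀ v ∈ V, ∀ v' ∈ V, v ≠ v' → (M : ℝ) ^ (27 / 100 : ℝ) ≤ |(a v : ℝ) - a v'| :=
    fun v hv v' hv' hne => h₂ M g2 v v' (a v) (b v) (a v') (b v') (d v) (d v') (hab v hv)
      (hab v' hv') (hd v hv) (hd v' hv') hne
  set Q : ℝ := (M : ℝ) ^ (2 / 3 + κ) with hQdef
  have hQ : 1 ≤ Q := Real.one_le_rpow hM1 (by positivity)
  -- the bound of the sum
  have hall := co_all V d (fun v => b v - a v) Q hQ (Nat.log 2 M + 1) ?_ (fun v hv => (hden v hv).1)
    ?_ ?_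
  · -- conclusion
    have hcard : (S.card : ℝ) ≤ ∑ v ∈ V, (((b v - a v : ℕ) : ℝ) / d v + 1) := by
      rw [Finset.card_eq_sum_card_image r S, Nat.cast_sum]
      refine Finset.sum_le_sum fun v hv => ?_
      refine e11_mult _ (a v) (b v) (d v) (hd v hv).pos fun k hk => ?_
      obtain ⟨h5, h6⟩ := Finset.mem_filter.1 hk
      have h7 : 1 ≤ k := by have := (hSn k h5).1; omega
      exact ⟨((hab v hv).all k h7 h6).1, ((hab v hv).all k h7 h6).2, (hden v hv).2 k h7 h6⟩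
    refine hcard.trans (hall.trans ?_)
    have h5 : Q ^ (3 / 5 : ℝ) = (M : ℝ) ^ (2 / 5 + 3 / 5 * κ) := by
      rw [hQdef, ← Real.rpow_mul hM0.le]
      congr 1
      ring
    have h6 := h₄ M g4
    have h7 : (0 : ℝ) < (M : ℝ) ^ (2 / 5 + 3 / 5 * κ) := Real.rpow_pos_of_pos hM0 _
    calc ((Nat.log 2 M + 1 : ℕ) : ℝ) * (32 * Q ^ (3 / 5 : ℝ))
        = (32 * ((Nat.log 2 M + 1 : ℕ) : ℝ)) * (M : ℝ) ^ (2 / 5 + 3 / 5 * κ) := by
          rw [h5]; ring
      _ ≤ (M : ℝ) ^ (2 / 5 * κ) * (M : ℝ) ^ (2 / 5 + 3 / 5 * κ) :=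
          mul_le_mul_of_nonneg_right h6 h7.le
      _ = (M : ℝ) ^ (2 / 5 + κ) := by
          rw [← Real.rpow_add hM0]
          congr 1
          ring
  · intro v hv
    obtain ⟨n, hn, hnv⟩ := hVn v hv
    have h5 : 2 ≤ n := by have := (hSn n hn).1; omega
    have h6 := r_pos n h5
    rw [hnv] at h6
    exact ⟨h6.1, h6.2, (hd v hv).pos, (hd v hv).nat⟩
  · intro v hv
    have h5 := (hab v hv).len
    rw [← hcast v hv] at h5
    have h6 : (M : ℝ) ^ (9 / 50 : ℝ) ≤ M := by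
      calc (M : ℝ) ^ (9 / 50 : ℝ) ≤ (M : ℝ) ^ (1 : ℝ) :=
            Real.rpow_le_rpow_of_exponent_le hM1 (by norm_num)
        _ = M := Real.rpow_one _
    have h7 : b v - a v ≤ M := by exact_mod_cast h5.trans h6
    exact lt_of_le_of_lt h7 (Nat.lt_pow_succ_log_self (by norm_num) M)
  · intro j
    refine h₃ M g3 _ a b ((2 : ℝ) ^ j) (one_le_pow₀ (by norm_num)) ?_ ?_
    · intro v hv
      obtain ⟨h5, h6⟩ := Finset.mem_filter.1 hv
      refine ⟨hab v h5, ?_⟩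
      rw [← hcast v h5]
      exact_mod_cast h6
    · intro v hv v' hv' hne
      exact hsep v (Finset.mem_filter.1 hv).1 v' (Finset.mem_filter.1 hv').1 hne

end Pool.Agent.Lib.H31P
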