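import Pool.Agent.Lib.H31P.E11

/-!
# Chunk E12 (M): CoStm
-/

open Finset MeasureTheory

namespace Pool.Agent.Lib.H31P

open Pool.Agent.Lib.H31W

private theorem E12_dyadic (A n : ℕ) (hA : 1 ≤ A) (hn : A < n) :
    ∃ i : ℕ, i ≤ Nat.log 2 n ∧ 2 ^ i * A < n ∧ n ≤ 2 * (2 ^ i * A) := by
  have hq : 1 ≤ (n - 1) / A := (Nat.one_le_div_iff hA).2 (by omega)
  refine ⟨Nat.log 2 ((n - 1) / A), ?_, ?_, ?_⟩
  · exact Nat.log_mono_right ((Nat.div_le_self _ _).trans (Nat.sub_le _ _))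
  · have h1 : 2 ^ Nat.log 2 ((n - 1) / A) ≤ (n - 1) / A := Nat.pow_log_le_self 2 (by omega)
    have h2 : 2 ^ Nat.log 2 ((n - 1) / A) * A ≤ (n - 1) / A * A := Nat.mul_le_mul_right A h1
    have h3 : (n - 1) / A * A ≤ n - 1 := Nat.div_mul_le_self _ _
    omega
  · have h1 : (n - 1) / A < 2 ^ (Nat.log 2 ((n - 1) / A) + 1) :=
      Nat.lt_pow_succ_log_self (by norm_num) _
    have h2 : (n - 1) / A + 1 ≤ 2 ^ (Nat.log 2 ((n - 1) / A) + 1) := h1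
    have h3 : ((n - 1) / A + 1) * A ≤ 2 ^ (Nat.log 2 ((n - 1) / A) + 1) * A :=
      Nat.mul_le_mul_right A h2
    have h4 : n - 1 < ((n - 1) / A + 1) * A :=
      (Nat.div_lt_iff_lt_mul hA).1 (Nat.lt_succ_self _)
    rw [pow_succ] at h3
    have h5 : 2 ^ Nat.log 2 ((n - 1) / A) * 2 * A = 2 * (2 ^ Nat.log 2 ((n - 1) / A) * A) := by
      ring
    omega

private theorem E12_ev (ε : ℝ) (hε : 0 < ε) (K : ℝ) :
    ∃ N₀ : ℕ, 1 ≤ N₀ ∧ ∀ N : ℕ, N₀ ≤ N → K ≤ (N : ℝ) ^ (2 / 5 : ℝ) ∧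
      2 * Real.log N + 2 ≤ (N : ℝ) ^ (ε / 2) := by
  have h1 : ∀ᶠ x : ℝ in Filter.atTop, K ≤ x ^ (2 / 5 : ℝ) :=
    (tendsto_rpow_atTop (by norm_num : (0 : ℝ) < 2 / 5)).eventually_ge_atTop K
  have h2 : ∀ᶠ x : ℝ in Filter.atTop, 4 ≤ x ^ (ε / 2) :=
    (tendsto_rpow_atTop (by positivity : (0 : ℝ) < ε / 2)).eventually_ge_atTop 4
  have h3 := (isLittleO_log_rpow_atTop (by positivity : (0 : ℝ) < ε / 2)).bound
    (c := 1 / 4) (by norm_num)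
  have h4 : ∀ᶠ x : ℝ in Filter.atTop, K ≤ x ^ (2 / 5 : ℝ) ∧
      2 * Real.log x + 2 ≤ x ^ (ε / 2) := by
    filter_upwards [h1, h2, h3, Filter.eventually_ge_atTop (1 : ℝ)] with x hx1 hx2 hx3 hx4
    refine ⟨hx1, ?_⟩
    have h5 : 0 ≤ x ^ (ε / 2) := by linarith
    rw [Real.norm_of_nonneg (Real.log_nonneg hx4), Real.norm_of_nonneg h5] at hx3
    linarith
  have h6 := tendsto_natCast_atTop_atTop (R := ℝ) |>.eventually h4
  obtain ⟨N₀, hN₀⟩ := Filter.eventually_atTop.1 h6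
  exact ⟨max N₀ 1, le_max_right _ _, fun N hN => hN₀ N ((le_max_left _ _).trans hN)⟩

/-- **CoStm.** Model: `H31W.final` (S6).

Proof. `M₀ = ⌊N^(2/5)⌋₊` (large), `M_i = 2^i M₀`. Every `n ≤ N` with `Coin n` is `≤ M₀` or lies in some `(M_i, 2 M_i]`, `M_i < N`. By `co_blk`
(`κ = ε/2`) the number is at most `N^(2/5) + ∑_{i : 2^i M₀ < N} M_i^(2/5+ε/2) ≤ N^(2/5) + (log N/log 2 + 1) N^(2/5+ε/2) ≤ N^(2/5+ε)` for large `N`. -/
theorem co (hP : PntProp) (hM : MBStm) : CoStm := by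
  classical
  intro ε hε
  obtain ⟨M₁, hM₁⟩ := co_blk hP hM (ε / 2) (by positivity)
  obtain ⟨N₀, hN₀1, hN₀⟩ := E12_ev ε hε ((M₁ : ℝ) + 1)
  refine ⟨N₀, fun N hN => ?_⟩
  obtain ⟨h1, h2⟩ := hN₀ N hN
  have hN1 : 1 ≤ N := hN₀1.trans hN
  have hN1R : (1 : ℝ) ≤ N := by exact_mod_cast hN1
  have hN0R : (0 : ℝ) < N := by linarith
  obtain ⟨A, hAd⟩ : ∃ A : ℕ, A = ⌊(N : ℝ) ^ (2 / 5 : ℝ)⌋₊ := ⟨_, rfl⟩
  have hA1 : M₁ + 1 ≤ A := by
    rw [hAd]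
    refine Nat.le_floor ?_
    push_cast
    exact h1
  have hAle : (A : ℝ) ≤ (N : ℝ) ^ (2 / 5 : ℝ) := by
    rw [hAd]
    exact Nat.floor_le (Real.rpow_nonneg hN0R.le _)
  have hsub : ((Icc 1 N).filter (fun n => ∃ m : ℕ, 1 ≤ m ∧ m ≠ n ∧ r m = r n)) ⊆
      Icc 1 A ∪ ((range (Nat.log 2 N + 1)).filter (fun i => 2 ^ i * A < N)).biUnion
        (fun i => (Ioc (2 ^ i * A) (2 * (2 ^ i * A))).filter (fun n => Coin n)) := by
    intro n hn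
    rw [Finset.mem_filter, Finset.mem_Icc] at hn
    rw [Finset.mem_union]
    by_cases hnA : n ≤ A
    · left
      exact Finset.mem_Icc.2 ⟨hn.1.1, hnA⟩
    · right
      obtain ⟨i, hi1, hi2, hi3⟩ := E12_dyadic A n (by omega) (by omega)
      rw [Finset.mem_biUnion]
      refine ⟨i, ?_, ?_⟩
      · rw [Finset.mem_filter, Finset.mem_range]
        have h3 : Nat.log 2 n ≤ Nat.log 2 N := Nat.log_mono_right hn.1.2
        exact ⟨by omega, lt_of_lt_of_le hi2 hn.1.2⟩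
      · rw [Finset.mem_filter, Finset.mem_Ioc]
        exact ⟨⟨hi2, hi3⟩, hn.2⟩
  have hblk : ∀ i ∈ (range (Nat.log 2 N + 1)).filter (fun i => 2 ^ i * A < N),
      (((Ioc (2 ^ i * A) (2 * (2 ^ i * A))).filter (fun n => Coin n)).card : ℝ) ≤
        (N : ℝ) ^ (2 / 5 + ε / 2) := by
    intro i hi
    rw [Finset.mem_filter] at hi
    have h3 : M₁ ≤ 2 ^ i * A := by
      have h4 : 1 * A ≤ 2 ^ i * A := Nat.mul_le_mul_right A Nat.one_le_two_pow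
      omega
    refine (hM₁ (2 ^ i * A) h3).trans ?_
    refine Real.rpow_le_rpow (Nat.cast_nonneg _) ?_ (by positivity)
    exact_mod_cast hi.2.le
  have hcard : ((((Icc 1 N).filter (fun n => ∃ m : ℕ, 1 ≤ m ∧ m ≠ n ∧ r m = r n)).card : ℕ) : ℝ) ≤
      (A : ℝ) + ((Nat.log 2 N + 1 : ℕ) : ℝ) * (N : ℝ) ^ (2 / 5 + ε / 2) := by
    have h3 := (Finset.card_le_card hsub).trans (Finset.card_union_le _ _)
    have h4 : (((Icc 1 A).card : ℕ) : ℝ) = A := by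
      rw [Nat.card_Icc]
      norm_num
    have h5 : (((((range (Nat.log 2 N + 1)).filter (fun i => 2 ^ i * A < N)).biUnion
        (fun i => (Ioc (2 ^ i * A) (2 * (2 ^ i * A))).filter (fun n => Coin n))).card : ℕ) : ℝ) ≤
        ((Nat.log 2 N + 1 : ℕ) : ℝ) * (N : ℝ) ^ (2 / 5 + ε / 2) := by
      have h6 : (((((range (Nat.log 2 N + 1)).filter (fun i => 2 ^ i * A < N)).biUnion
          (fun i => (Ioc (2 ^ i * A) (2 * (2 ^ i * A))).filter (fun n => Coin n))).card : ℕ) : ℝ) ≤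
          ∑ i ∈ (range (Nat.log 2 N + 1)).filter (fun i => 2 ^ i * A < N),
            (((Ioc (2 ^ i * A) (2 * (2 ^ i * A))).filter (fun n => Coin n)).card : ℝ) := by
        exact_mod_cast Finset.card_biUnion_le
      refine h6.trans ((Finset.sum_le_card_nsmul _ _ _ hblk).trans ?_)
      rw [nsmul_eq_mul]
      refine mul_le_mul_of_nonneg_right ?_ (Real.rpow_nonneg hN0R.le _)
      have h7 := Finset.card_filter_le (range (Nat.log 2 N + 1)) (fun i => 2 ^ i * A < N)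
      rw [Finset.card_range] at h7
      exact_mod_cast h7
    have h8 : ((((Icc 1 N).filter (fun n => ∃ m : ℕ, 1 ≤ m ∧ m ≠ n ∧ r m = r n)).card : ℕ) : ℝ) ≤
        (((Icc 1 A).card : ℕ) : ℝ) +
        (((((range (Nat.log 2 N + 1)).filter (fun i => 2 ^ i * A < N)).biUnion
        (fun i => (Ioc (2 ^ i * A) (2 * (2 ^ i * A))).filter (fun n => Coin n))).card : ℕ) : ℝ) := by
      exact_mod_cast h3
    rw [h4] at h8
    exact h8.trans (add_le_add (le_refl _) h5)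
  refine hcard.trans ?_
  have hlog : ((Nat.log 2 N : ℕ) : ℝ) ≤ 2 * Real.log N := by
    have h3 : (2 : ℝ) ^ (Nat.log 2 N) ≤ N := by
      exact_mod_cast Nat.pow_log_le_self 2 (by omega)
    have h4 : ((Nat.log 2 N : ℕ) : ℝ) * Real.log 2 ≤ Real.log N := by
      rw [← Real.log_pow]
      exact Real.log_le_log (by positivity) h3
    have h5 := Real.log_two_gt_d9
    have h6 : (0 : ℝ) ≤ ((Nat.log 2 N : ℕ) : ℝ) := Nat.cast_nonneg _
    nlinarith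
  have hP2 : (N : ℝ) ^ (2 / 5 : ℝ) ≤ (N : ℝ) ^ (2 / 5 + ε / 2) :=
    Real.rpow_le_rpow_of_exponent_le hN1R (by linarith)
  have hsplit : (N : ℝ) ^ (2 / 5 + ε) = (N : ℝ) ^ (2 / 5 + ε / 2) * (N : ℝ) ^ (ε / 2) := by
    rw [← Real.rpow_add hN0R]
    congr 1
    ring
  rw [hsplit]
  have hX0 : 0 ≤ (N : ℝ) ^ (2 / 5 + ε / 2) := Real.rpow_nonneg hN0R.le _
  calc (A : ℝ) + ((Nat.log 2 N + 1 : ℕ) : ℝ) * (N : ℝ) ^ (2 / 5 + ε / 2)
      ≤ (N : ℝ) ^ (2 / 5 + ε / 2) * (2 * Real.log N + 2) := by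
        push_cast
        nlinarith
    _ ≤ (N : ℝ) ^ (2 / 5 + ε / 2) * (N : ℝ) ^ (ε / 2) := mul_le_mul_of_nonneg_left h2 hX0

end Pool.Agent.Lib.H31P
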