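import Pool.Agent.Lib.H31P.E1

/-!
# Chunk E2 (M): the criterion for all pairs at distance about `x^(1/6+ε)`
-/

open Finset MeasureTheory

namespace Pool.Agent.Lib.H31P

open Pool.Agent.Lib.H31W

/-- **One step.**

Proof. Suppose `¬ Cr x y`; `window` with `M = x` (`y ≤ x + 3 x^(1/6+ε) ≤ 4x`, `y - x ≤ 3 x^(1/6+1/100) ≤ x^(9/50)` for large `x`)
gives `i`, `η = q^i`, and a window of length `η ε_x/8` (`ε_x = eps x = 1/(20 log x)`) in `MB x η`. `η ≥ (y - x)/(2x) ≥ x^(-5/6+ε)/2`, so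
`η ≥ x^(-5/6 + ε/2)` for large `x`, and `hM` with `κ = ε/2` gives `vol (MB x η) ≤ x^(-9/5)`. But the window has length
`η ε_x/8 ≥ x^(-5/6)/(160 log x) > x^(-9/5)` for large `x`. (`Real.volume_Icc`, `measure_mono`.) -/
theorem step (hM : MBStm) (ε : ℝ) (hε : 0 < ε) (hε1 : ε ≤ 1 / 100) : ∃ n₀ : ℕ, ∀ x y : ℕ, n₀ ≤ x →
    (x : ℝ) + (x : ℝ) ^ (1 / 6 + ε) ≤ y → (y : ℝ) ≤ x + 3 * (x : ℝ) ^ (1 / 6 + ε) → Cr x y := by
  obtain ⟨M₀, hM₀⟩ := window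
  obtain ⟨N₀, hN₀⟩ := hM (ε / 2) (by positivity)
  have g1 : ∀ᶠ t : ℝ in Filter.atTop, 3 ≤ t ^ (1 / 300 : ℝ) :=
    (tendsto_rpow_atTop (by norm_num)).eventually_ge_atTop 3
  have g2 : ∀ᶠ t : ℝ in Filter.atTop, 2 ≤ t ^ (ε / 2) :=
    (tendsto_rpow_atTop (by positivity)).eventually_ge_atTop 2
  have g3 : ∀ᶠ t : ℝ in Filter.atTop, ‖Real.log t‖ ≤ 1 / 320 * ‖t ^ (29 / 30 : ℝ)‖ :=
    (isLittleO_log_rpow_atTop (by norm_num : (0 : ℝ) < 29 / 30)).bound (by norm_num)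
  obtain ⟨T, hT⟩ := (g1.and (g2.and g3)).exists_forall_of_atTop
  refine ⟨max (max M₀ N₀) (max ⌈T⌉₊ 2), fun x y hx h1 h2 => ?_⟩
  have hxM : M₀ ≤ x := le_trans (le_trans (le_max_left _ _) (le_max_left _ _)) hx
  have hxN : N₀ ≤ x := le_trans (le_trans (le_max_right _ _) (le_max_left _ _)) hx
  have hxT : T ≤ (x : ℝ) := by
    refine (Nat.le_ceil T).trans ?_
    exact_mod_cast le_trans (le_trans (le_max_left _ _) (le_max_right _ _)) hx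
  have hx2n : 2 ≤ x := le_trans (le_trans (le_max_right _ _) (le_max_right _ _)) hx
  have hx2 : (2 : ℝ) ≤ x := by exact_mod_cast hx2n
  have hx0 : (0 : ℝ) < x := by linarith
  have hx1 : (1 : ℝ) ≤ x := by linarith
  obtain ⟨e1, e2, e3⟩ := hT (x : ℝ) hxT
  by_contra hCr
  have hpp : (0 : ℝ) < (x : ℝ) ^ (1 / 6 + ε) := Real.rpow_pos_of_pos hx0 _
  have hxy : (x : ℝ) < y := by linarith
  have hxyn : x < y := by exact_mod_cast hxy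
  -- `3 x^(1/6+ε) ≤ x^(9/50)`
  have h3 : 3 * (x : ℝ) ^ (1 / 6 + ε) ≤ (x : ℝ) ^ (9 / 50 : ℝ) := by
    have a1 : (x : ℝ) ^ (1 / 6 + ε) ≤ (x : ℝ) ^ (53 / 300 : ℝ) :=
      Real.rpow_le_rpow_of_exponent_le hx1 (by linarith)
    have a2 : (x : ℝ) ^ (9 / 50 : ℝ) = (x : ℝ) ^ (1 / 300 : ℝ) * (x : ℝ) ^ (53 / 300 : ℝ) := by
      rw [← Real.rpow_add hx0]
      norm_num
    have a3 : (0 : ℝ) < (x : ℝ) ^ (53 / 300 : ℝ) := Real.rpow_pos_of_pos hx0 _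
    rw [a2]
    nlinarith
  have h4 : (x : ℝ) ^ (9 / 50 : ℝ) ≤ x := by
    have a1 := Real.rpow_le_rpow_of_exponent_le hx1 (show (9 / 50 : ℝ) ≤ 1 by norm_num)
    rwa [Real.rpow_one] at a1
  obtain ⟨i, -, w1, w2, w3, -, -, w6⟩ := hM₀ x hxM x y hxyn (by linarith) (by linarith)
    (by linarith) hCr
  set η : ℝ := qq x ^ i with hη
  -- `x^(-5/6+ε/2) ≤ η`
  have h5 : (x : ℝ) ^ (-(5 / 6) + ε / 2 : ℝ) ≤ η := by
    refine le_trans ?_ w3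
    rw [le_div_iff₀ (by linarith)]
    have a1 : (x : ℝ) ^ (1 / 6 + ε) =
        (x : ℝ) ^ (ε / 2) * ((x : ℝ) ^ (-(5 / 6) + ε / 2 : ℝ) * x) := by
      have b1 : (x : ℝ) ^ (-(5 / 6) + ε / 2 : ℝ) * x =
          (x : ℝ) ^ (-(5 / 6) + ε / 2 + 1 : ℝ) := by
        rw [Real.rpow_add hx0 _ 1, Real.rpow_one]
      rw [b1, ← Real.rpow_add hx0]
      congr 1
      ring
    have a2 : 0 < (x : ℝ) ^ (-(5 / 6) + ε / 2 : ℝ) * x := mul_pos (Real.rpow_pos_of_pos hx0 _) hx0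
    have a3 : 2 * ((x : ℝ) ^ (-(5 / 6) + ε / 2 : ℝ) * x) ≤
        (x : ℝ) ^ (ε / 2) * ((x : ℝ) ^ (-(5 / 6) + ε / 2 : ℝ) * x) :=
      mul_le_mul_of_nonneg_right e2 a2.le
    linarith
  have h6 := (hN₀ x hxN η w1 w2).2 h5
  have h7 : ENNReal.ofReal (η * (eps x / 8)) ≤ ENNReal.ofReal ((x : ℝ) ^ (-(9 / 5) : ℝ)) := by
    have b1 := (measure_mono (μ := volume) w6).trans h6
    rw [Real.volume_Icc] at b1
    rwa [sub_sub_cancel] at b1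
  have h8 : η * (eps x / 8) ≤ (x : ℝ) ^ (-(9 / 5) : ℝ) :=
    (ENNReal.ofReal_le_ofReal_iff (Real.rpow_nonneg hx0.le _)).1 h7
  -- the window is too long
  have hlog : 0 < Real.log x := Real.log_pos (by linarith)
  have h9 : (x : ℝ) ^ (-(5 / 6) : ℝ) ≤ η := by
    refine le_trans ?_ h5
    exact Real.rpow_le_rpow_of_exponent_le hx1 (by linarith)
  have h10 : eps x / 8 = 1 / (160 * Real.log x) := by
    unfold eps
    field_simp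
    norm_num
  have h11 : Real.log x ≤ 1 / 320 * (x : ℝ) ^ (29 / 30 : ℝ) := by
    rw [Real.norm_of_nonneg hlog.le, Real.norm_of_nonneg (Real.rpow_nonneg hx0.le _)] at e3
    exact e3
  have h12 : (x : ℝ) ^ (-(5 / 6) : ℝ) = (x : ℝ) ^ (-(9 / 5) : ℝ) * (x : ℝ) ^ (29 / 30 : ℝ) := by
    rw [← Real.rpow_add hx0]
    norm_num
  have h13 : (0 : ℝ) < (x : ℝ) ^ (-(9 / 5) : ℝ) := Real.rpow_pos_of_pos hx0 _
  rw [h10, mul_one_div, div_le_iff₀ (by positivity)] at h8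
  have h14 : (x : ℝ) ^ (-(9 / 5) : ℝ) * (x : ℝ) ^ (29 / 30 : ℝ) ≤
      (x : ℝ) ^ (-(9 / 5) : ℝ) * (160 * Real.log x) := by
    rw [← h12]
    exact h9.trans h8
  have h15 : (x : ℝ) ^ (29 / 30 : ℝ) ≤ 160 * Real.log x := le_of_mul_le_mul_left h14 h13
  have h16 : (0 : ℝ) < (x : ℝ) ^ (29 / 30 : ℝ) := Real.rpow_pos_of_pos hx0 _
  linarith

end Pool.Agent.Lib.H31P
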