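import Pool.Agent.Lib.H31P.E2

/-!
# Chunk E3 (M): all pairs at distance at least `n^(1/6+ε)`
-/

open Finset MeasureTheory

namespace Pool.Agent.Lib.H31P

open Pool.Agent.Lib.H31W

private theorem E3_two {a : ℝ} (ha : a ≤ 1 / 2) : (2 : ℝ) ^ a ≤ 3 / 2 := by
  have h1 : (2 : ℝ) ^ a ≤ (2 : ℝ) ^ (1 / 2 : ℝ) := Real.rpow_le_rpow_of_exponent_le (by norm_num) ha
  have h2 : (2 : ℝ) ^ (1 / 2 : ℝ) ≤ 3 / 2 := by
    rw [← Real.sqrt_eq_rpow, Real.sqrt_le_left (by norm_num)]
    norm_num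
  exact h1.trans h2

private theorem E3_core (hP : PntProp) (hM : MBStm) (ε : ℝ) (hε : 0 < ε) (hε1 : ε ≤ 1 / 100) :
    ∃ n₀ : ℕ, ∀ n m : ℕ, n₀ ≤ n → (n : ℝ) + (n : ℝ) ^ (1 / 6 + ε) ≤ m → r m < r n := by
  obtain ⟨n₀, hstep⟩ := step hM ε hε hε1
  obtain ⟨m₀, -, hcrit⟩ := crit hP
  set a : ℝ := 1 / 6 + ε with ha
  have ha0 : 0 < a := by rw [ha]; positivity
  have ha2 : a ≤ 1 / 2 := by rw [ha]; linarith
  have htend : Filter.Tendsto (fun n : ℕ => (n : ℝ) ^ a) Filter.atTop Filter.atTop :=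
    (tendsto_rpow_atTop ha0).comp tendsto_natCast_atTop_atTop
  obtain ⟨n₂, hn₂⟩ := Filter.eventually_atTop.1 (htend.eventually_ge_atTop 10)
  refine ⟨max (max n₀ m₀) (max n₂ 4), ?_⟩
  have key : ∀ d : ℕ, ∀ n m : ℕ, max (max n₀ m₀) (max n₂ 4) ≤ n → m - n ≤ d →
      (n : ℝ) + (n : ℝ) ^ a ≤ m → r m < r n := by
    intro d
    induction d with
    | zero =>
      intro n m hn hd hnm
      exfalso
      have h10 : (10 : ℝ) ≤ (n : ℝ) ^ a :=
        hn₂ n ((le_max_left _ _).trans ((le_max_right _ _).trans hn))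
      have h1 : (m : ℝ) ≤ n := by
        have : m ≤ n := by omega
        exact_mod_cast this
      linarith
    | succ d ih =>
      intro n m hn hd hnm
      have h10 : (10 : ℝ) ≤ (n : ℝ) ^ a :=
        hn₂ n ((le_max_left _ _).trans ((le_max_right _ _).trans hn))
      have hn0 : n₀ ≤ n := (le_max_left _ _).trans ((le_max_left _ _).trans hn)
      have hm0 : m₀ ≤ n := (le_max_right _ _).trans ((le_max_left _ _).trans hn)
      have hn4 : 4 ≤ n := (le_max_right _ _).trans ((le_max_right _ _).trans hn)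
      have hn4r : (4 : ℝ) ≤ n := by exact_mod_cast hn4
      by_cases hcase : (m : ℝ) ≤ n + 3 * (n : ℝ) ^ a
      · have hcr := hstep n m hn0 hnm hcase
        have hlt : n < m := by
          have : (n : ℝ) < m := by linarith
          exact_mod_cast this
        exact hcrit n m hm0 hlt hcr
      · push Not at hcase
        set n' : ℕ := n + ⌈(n : ℝ) ^ a⌉₊ with hn'
        have hc1 : (n : ℝ) ^ a ≤ (⌈(n : ℝ) ^ a⌉₊ : ℝ) := Nat.le_ceil _
        have hc2 : (⌈(n : ℝ) ^ a⌉₊ : ℝ) < (n : ℝ) ^ a + 1 := Nat.ceil_lt_add_one (by linarith)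
        have hn'r : (n' : ℝ) = n + (⌈(n : ℝ) ^ a⌉₊ : ℝ) := by rw [hn']; push_cast; rfl
        have hlt : n < n' := by
          have : (n : ℝ) < n' := by rw [hn'r]; linarith
          exact_mod_cast this
        have hcr := hstep n n' hn0 (by rw [hn'r]; linarith) (by rw [hn'r]; linarith)
        have h1 : r n' < r n := hcrit n n' hm0 hlt hcr
        have hsq : (n : ℝ) ^ a ≤ n / 2 := by
          have e1 : (n : ℝ) ^ a ≤ (n : ℝ) ^ (1 / 2 : ℝ) :=
            Real.rpow_le_rpow_of_exponent_le (by linarith) ha2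
          rw [← Real.sqrt_eq_rpow] at e1
          have e2 : Real.sqrt n ≤ n / 2 := by
            rw [Real.sqrt_le_left (by linarith)]
            nlinarith
          exact e1.trans e2
        have hle2 : (n' : ℝ) ≤ 2 * n := by rw [hn'r]; linarith
        have hpow : (n' : ℝ) ^ a ≤ 3 / 2 * (n : ℝ) ^ a := by
          have e1 : (n' : ℝ) ^ a ≤ (2 * (n : ℝ)) ^ a :=
            Real.rpow_le_rpow (Nat.cast_nonneg _) hle2 ha0.le
          rw [Real.mul_rpow (by norm_num) (by linarith)] at e1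
          exact e1.trans (mul_le_mul_of_nonneg_right (E3_two ha2) (by linarith))
        have h2 : (n' : ℝ) + (n' : ℝ) ^ a ≤ m := by
          have : (n' : ℝ) ≤ n + ((n : ℝ) ^ a + 1) := by rw [hn'r]; linarith
          linarith
        have hmn : n' < m := by
          have h0 : (0 : ℝ) < (n' : ℝ) ^ a := Real.rpow_pos_of_pos (by
            have : (n : ℝ) < n' := by exact_mod_cast hlt
            linarith) a
          have : (n' : ℝ) < m := by linarith
          exact_mod_cast this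
        have h3 : r m < r n' := ih n' m (hn.trans hlt.le) (by omega) h2
        exact h3.trans h1
  intro n m hn hnm
  exact key (m - n) n m hn le_rfl hnm

/-- **Chains of steps.**

Proof. We may assume `ε ≤ 1/100` (`n^(1/6+ε)` is increasing in `ε` for `n ≥ 1`). `a = 1/6 + ε`; `n₀` from `step`, `m₀` from `crit`; let `n ≥ n₁`
be large, so that `n^a ≥ 10` and `2^a ≤ 3/2`. Strong induction on `m - n` (for all `n ≥ n₁`): if `m ≤ n + 3 n^a` then `Cr n m` by `step` and
`r m < r n` by `crit`. Otherwise let `n' = n + ⌈n^a⌉₊`: `n^a ≤ n' - n ≤ n^a + 1 ≤ 3 n^a`, so `r n' < r n`; and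
`m - n' ≥ 3 n^a - n^a - 1 ≥ (3/2) n^a ≥ (2n)^a ≥ n'^a` (`n' ≤ 2n`), so `r m < r n'` by induction (`n' < m`, `m - n' < m - n`). -/
theorem win (hP : PntProp) (hM : MBStm) : WinStm := by
  intro ε hε
  obtain ⟨n₀, h⟩ := E3_core hP hM (min ε (1 / 100)) (lt_min hε (by norm_num)) (min_le_right _ _)
  refine ⟨max n₀ 1, fun n m hn hnm => ?_⟩
  have hn1 : (1 : ℝ) ≤ n := by
    have : 1 ≤ n := (le_max_right _ _).trans hn
    exact_mod_cast this
  have h1 : (n : ℝ) ^ (1 / 6 + min ε (1 / 100)) ≤ (n : ℝ) ^ (1 / 6 + ε) :=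
    Real.rpow_le_rpow_of_exponent_le hn1 (by linarith [min_le_left ε (1 / 100)])
  exact h n m ((le_max_left _ _).trans hn) (by linarith)

end Pool.Agent.Lib.H31P
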