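import Pool.Agent.Lib.H31P.E1

/-!
# Chunk E4 (M): few near bad `n`
-/

open Finset MeasureTheory

namespace Pool.Agent.Lib.H31P

open Pool.Agent.Lib.H31W

private theorem e4_large (κ : ℝ) (hκ : 0 < κ) : ∃ N₀ : ℕ, ∀ N : ℕ, N₀ ≤ N →
    6729600 * Real.log N ^ 3 ≤ (N : ℝ) ^ (κ / 2) := by
  have h1 := isLittleO_log_rpow_rpow_atTop (3 : ℝ) (show (0 : ℝ) < κ / 2 by linarith)
  have h2 := h1.def (show (0 : ℝ) < 1 / 6729600 by norm_num)
  have h3 := (h2.and (Filter.eventually_ge_atTop 1))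
  obtain ⟨a, ha⟩ := Filter.eventually_atTop.mp h3
  refine ⟨⌈a⌉₊, fun N hN => ?_⟩
  have hN' : a ≤ N := (Nat.le_ceil a).trans (by exact_mod_cast hN)
  obtain ⟨h4, h5⟩ := ha N hN'
  have hlog : 0 ≤ Real.log N := Real.log_nonneg h5
  rw [Real.norm_of_nonneg (Real.rpow_nonneg hlog _), Real.norm_of_nonneg (Real.rpow_nonneg (by linarith) _)] at h4
  have h6 : Real.log N ^ (3 : ℝ) = Real.log N ^ 3 := by
    exact_mod_cast Real.rpow_natCast (Real.log N) 3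
  rw [h6] at h4
  linarith

open Classical in
/-- The count for one length. -/
private theorem e4_one (N : ℕ) (hN : 2 ≤ N) (hlog : 1 ≤ Real.log N) (η V : ℝ)
    (h1 : 1 / (2 * (N : ℝ)) ≤ η) (h4 : η ≤ 1 / 4) (hV : 0 ≤ V)
    (hM : volume (MB N η) ≤ ENNReal.ofReal V) :
    (((Ioc N (2 * N)).filter (fun n : ℕ => ENNReal.ofReal (η * (eps N / 8)) ≤
      volume (MB N η ∩ Set.Icc (2 * Real.log n - 2 * η) (2 * Real.log n + 2 * η)))).card : ℝ) ≤
      3200 * N * Real.log N * V := by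
  have hN' : (2 : ℝ) ≤ N := by exact_mod_cast hN
  have he0 : 0 < eps N := by
    unfold eps
    positivity
  have hη0 : 0 < η := lt_of_lt_of_le (by positivity) h1
  have h5 := count_killed N (by omega) (MB N η) (MB_measurable N η) η (η * (eps N / 8)) h1 h4
    (by positivity)
  obtain ⟨c, hc⟩ : ∃ c : ℕ, c = ((Ioc N (2 * N)).filter (fun n : ℕ => ENNReal.ofReal (η * (eps N / 8)) ≤
      volume (MB N η ∩ Set.Icc (2 * Real.log n - 2 * η) (2 * Real.log n + 2 * η)))).card := ⟨_, rfl⟩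
  rw [← hc] at h5 ⊢
  have h6 := h5.trans (mul_le_mul_right hM _)
  rw [← ENNReal.ofReal_natCast, ← ENNReal.ofReal_mul (Nat.cast_nonneg _),
    ← ENNReal.ofReal_mul (by positivity), ENNReal.ofReal_le_ofReal_iff (by positivity)] at h6
  have h7 : 160 * Real.log N * eps N = 8 := by
    unfold eps
    field_simp
    norm_num
  have h8 : (c : ℝ) * (η * (eps N / 8)) ≤
      (3200 * N * Real.log N * V) * (η * (eps N / 8)) := by
    refine h6.trans (le_of_eq ?_)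
    have h9 : (3200 * N * Real.log N * V) *
        (η * (eps N / 8)) = 20 * N * η * V *
        (160 * Real.log N * eps N / 8) := by ring
    rw [h9, h7]
    ring
  exact le_of_mul_le_mul_right h8 (by positivity)

/-- The window lies near `2 log n`. -/
private theorem e4_vol (N x y n : ℕ) (hlog : 1 ≤ Real.log N) (hx0 : (0 : ℝ) < x) (hxy : x < y)
    (η : ℝ) (hη : 0 < η) (hL : 2 * Real.log y - 2 * Real.log x ≤ η)
    (hW : Set.Icc (2 * Real.log x - η * (eps N / 8)) (2 * Real.log x) ⊆ MB N η)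
    (hn : n = x ∨ n = y) :
    ENNReal.ofReal (η * (eps N / 8)) ≤ volume (MB N η ∩
        Set.Icc (2 * Real.log n - 2 * η) (2 * Real.log n + 2 * η)) := by
  have he0 : 0 < eps N := by
    unfold eps
    positivity
  have he1 : eps N ≤ 1 / 20 := by
    unfold eps
    exact one_div_le_one_div_of_le (by norm_num) (by linarith)
  have hηe : η * (eps N / 8) ≤ η := by nlinarith
  have hxy' : Real.log x ≤ Real.log y := Real.log_le_log hx0 (by exact_mod_cast hxy.le)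
  have hsub : Set.Icc (2 * Real.log x - η * (eps N / 8)) (2 * Real.log x) ⊆
      MB N η ∩ Set.Icc (2 * Real.log n - 2 * η) (2 * Real.log n + 2 * η) := by
    intro u hu
    refine ⟨hW hu, ?_, ?_⟩
    · rcases hn with hn | hn
      · rw [hn]
        linarith [hu.1]
      · rw [hn]
        linarith [hu.1]
    · rcases hn with hn | hn
      · rw [hn]
        linarith [hu.2]
      · rw [hn]
        linarith [hu.2]
  refine le_trans ?_ (measure_mono hsub)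
  rw [Real.volume_Icc]
  refine ENNReal.ofReal_le_ofReal ?_
  linarith

open Classical in
/-- **Few `n` are near bad.** Model: `s4_one` and the proof of `near_count` in `Lib/H31W/S4.lean`; copy and adapt.

Proof. `ε = eps M = 1/(20 log M)`. Let `n ∈ (M, 2M]` be `NB M n` with partner `m`, `x < y` the pair in increasing order. `window` gives
`i ≤ 700 (log M)²`, `η = q^i`, and `W = [2 log x - η ε/8, 2 log x] ⊆ MB M η`. `n = x` or `n = y`, and
`2 log y - 2 log x ≤ η`, so `W ⊆ [2 log n - 2η, 2 log n + 2η]`. So `n` is counted in `count_killed` for the set `MB M η`, the length `η`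
(`1/(2M) ≤ η ≤ 1/4`) and `κ = η ε/8`: for each `i` the number of such `n` is at most `20 M η vol(MB M η)/(η ε/8) = 3200 M log M vol (MB M η)`,
and `vol (MB M η) ≤ M^(-4/3+κ/2)/η + M^(-9/5) ≤ 2 M^(-1/3+κ/2) + M^(-9/5)` (`hM` with `κ/2`, `η ≥ 1/(2M)`).
Sum over `i ≤ 700 (log M)²`: at most `M^(2/3+κ)` for large `M`. -/
theorem nb_count (hM : MBStm) (κ : ℝ) (hκ : 0 < κ) : ∃ M₀ : ℕ, ∀ M : ℕ, M₀ ≤ M →
    (((Ioc M (2 * M)).filter (fun n => NB M n)).card : ℝ) ≤ (M : ℝ) ^ (2 / 3 + κ) := by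
  obtain ⟨N₁, hN₁⟩ := window
  obtain ⟨N₂, hN₂⟩ := hM (κ / 2) (by linarith)
  obtain ⟨N₃, hN₃⟩ := e4_large κ hκ
  refine ⟨max (max N₁ N₂) (max N₃ 8), fun N hN => ?_⟩
  have hNN1 : N₁ ≤ N := le_trans (le_trans (le_max_left _ _) (le_max_left _ _)) hN
  have hNN2 : N₂ ≤ N := le_trans (le_trans (le_max_right _ _) (le_max_left _ _)) hN
  have hNN3 : N₃ ≤ N := le_trans (le_trans (le_max_left _ _) (le_max_right _ _)) hN
  have hNN4 : 8 ≤ N := le_trans (le_trans (le_max_right _ _) (le_max_right _ _)) hN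
  have hwin := hN₁ N hNN1
  have hmb := hN₂ N hNN2
  have hlarge := hN₃ N hNN3
  have hN' : (8 : ℝ) ≤ N := by exact_mod_cast hNN4
  have hN0 : (0 : ℝ) < N := by linarith
  have hlog : 1 ≤ Real.log N := by
    rw [Real.le_log_iff_exp_le (by linarith)]
    have := Real.exp_one_lt_d9
    linarith
  have h81 : (N : ℝ) ^ (-(81 / 100) : ℝ) ≤ 1 / 4 := by
    have h1 : (N : ℝ) ^ (-(81 / 100) : ℝ) ≤ (N : ℝ) ^ (-(2 / 3) : ℝ) :=
      Real.rpow_le_rpow_of_exponent_le (by linarith) (by norm_num)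
    have h2 : (N : ℝ) ^ (-(2 / 3) : ℝ) ≤ (8 : ℝ) ^ (-(2 / 3) : ℝ) :=
      Real.rpow_le_rpow_of_nonpos (by norm_num) hN' (by norm_num)
    have h3 : (8 : ℝ) ^ (-(2 / 3) : ℝ) = 1 / 4 := by
      rw [show (8 : ℝ) = (2 : ℝ) ^ (3 : ℝ) by norm_num, ← Real.rpow_mul (by norm_num)]
      norm_num
    linarith
  obtain ⟨J, hJ⟩ : ∃ J : Finset ℕ, J = (range (⌊700 * Real.log N ^ 2⌋₊ + 1)).filter (fun i : ℕ =>
      1 / (2 * (N : ℝ)) ≤ qq N ^ i ∧
      qq N ^ i ≤ (N : ℝ) ^ (-(81 / 100) : ℝ)) := ⟨_, rfl⟩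
  have hJc : (J.card : ℝ) ≤ 701 * Real.log N ^ 2 := by
    have h1 : J.card ≤ ⌊700 * Real.log N ^ 2⌋₊ + 1 := by
      rw [hJ]
      refine (card_filter_le _ _).trans ?_
      rw [card_range]
    have h2 : (J.card : ℝ) ≤ (⌊700 * Real.log N ^ 2⌋₊ : ℝ) + 1 := by exact_mod_cast h1
    have h3 : (⌊700 * Real.log N ^ 2⌋₊ : ℝ) ≤ 700 * Real.log N ^ 2 := Nat.floor_le (by positivity)
    nlinarith
  have hsub : (Ioc N (2 * N)).filter (fun n => NB N n) ⊆
      J.biUnion (fun i => (Ioc N (2 * N)).filter (fun n : ℕ =>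
        ENNReal.ofReal (qq N ^ i * (eps N / 8)) ≤ volume (MB N (qq N ^ i) ∩
          Set.Icc (2 * Real.log n - 2 * qq N ^ i) (2 * Real.log n + 2 * qq N ^ i)))) := by
    intro n hn
    obtain ⟨hnI, hnB⟩ := mem_filter.1 hn
    obtain ⟨hn1, hn2⟩ := mem_Ioc.1 hnI
    have hn1' : (N : ℝ) + 1 ≤ n := by exact_mod_cast hn1
    have hn2' : (n : ℝ) ≤ 2 * N := by exact_mod_cast hn2
    have key : ∃ i : ℕ, (i : ℝ) ≤ 700 * Real.log N ^ 2 ∧ 1 / (2 * (N : ℝ)) ≤ qq N ^ i ∧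
        qq N ^ i ≤ (N : ℝ) ^ (-(81 / 100) : ℝ) ∧
        ENNReal.ofReal (qq N ^ i * (eps N / 8)) ≤ volume (MB N (qq N ^ i) ∩
          Set.Icc (2 * Real.log n - 2 * qq N ^ i) (2 * Real.log n + 2 * qq N ^ i)) := by
      have haux : ∀ x y : ℕ, x < y → (N : ℝ) / 2 ≤ x → (y : ℝ) ≤ 4 * N →
          (y : ℝ) - x ≤ (N : ℝ) ^ (9 / 50 : ℝ) → ¬ Cr x y → (n = x ∨ n = y) →
          ∃ i : ℕ, (i : ℝ) ≤ 700 * Real.log N ^ 2 ∧ 1 / (2 * (N : ℝ)) ≤ qq N ^ i ∧
          qq N ^ i ≤ (N : ℝ) ^ (-(81 / 100) : ℝ) ∧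
          ENNReal.ofReal (qq N ^ i * (eps N / 8)) ≤ volume (MB N (qq N ^ i) ∩
            Set.Icc (2 * Real.log n - 2 * qq N ^ i) (2 * Real.log n + 2 * qq N ^ i)) := by
        intro x y hxy hx hy hd hC hnxy
        obtain ⟨i, hi1, hi2, hi3, _, _, hi6, hi7⟩ := hwin x y hxy hx hy hd hC
        exact ⟨i, hi1, hi2, hi3, e4_vol N x y n hlog (by linarith) hxy _
          (lt_of_lt_of_le (by positivity) hi2) hi6 hi7 hnxy⟩
      obtain ⟨m, hm1, hm2, ⟨h1, h2, h3⟩ | ⟨h1, h2, h3⟩⟩ := hnB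
      · exact haux m n h1 hm1 (by linarith) h2 h3 (Or.inr rfl)
      · exact haux n m h1 (by linarith) hm2 h2 h3 (Or.inl rfl)
    obtain ⟨i, hi1, hi2, hi3, hi4⟩ := key
    refine mem_biUnion.2 ⟨i, ?_, mem_filter.2 ⟨hnI, hi4⟩⟩
    rw [hJ]
    refine mem_filter.2 ⟨mem_range.2 (Nat.lt_succ_of_le (Nat.le_floor hi1)), hi2, hi3⟩
  obtain ⟨V, hVd⟩ : ∃ V : ℝ, V = 3 * (N : ℝ) ^ (-(1 / 3) + κ / 2) := ⟨_, rfl⟩
  have hV0 : 0 ≤ V := by
    rw [hVd]
    positivity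
  have hVle : ∀ η : ℝ, 1 / (2 * (N : ℝ)) ≤ η →
      (N : ℝ) ^ (-(4 / 3) + κ / 2) / η + (N : ℝ) ^ (-(9 / 5) : ℝ) ≤ V := by
    intro η hη
    have hη0 : 0 < η := lt_of_lt_of_le (by positivity) hη
    have h1 : 1 / η ≤ 2 * N := by
      rw [div_le_iff₀ hη0]
      rw [div_le_iff₀ (by positivity)] at hη
      linarith
    have h2 : (N : ℝ) ^ (-(1 / 3) + κ / 2) = (N : ℝ) ^ (-(4 / 3) + κ / 2) * N := by
      rw [← Real.rpow_add_one hN0.ne']
      congr 1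
      ring
    have h3 : (N : ℝ) ^ (-(4 / 3) + κ / 2) / η ≤ 2 * (N : ℝ) ^ (-(1 / 3) + κ / 2) := by
      rw [h2, div_eq_mul_one_div]
      refine (mul_le_mul_of_nonneg_left h1 (Real.rpow_nonneg hN0.le _)).trans (le_of_eq ?_)
      ring
    have h4 : (N : ℝ) ^ (-(9 / 5) : ℝ) ≤ (N : ℝ) ^ (-(1 / 3) + κ / 2) :=
      Real.rpow_le_rpow_of_exponent_le (by linarith) (by linarith)
    rw [hVd]
    linarith
  have h1 : (((Ioc N (2 * N)).filter (fun n => NB N n)).card : ℝ) ≤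
      J.card * (3200 * N * Real.log N * V) := by
    have h2 := (card_le_card hsub).trans card_biUnion_le
    have h3 : (((Ioc N (2 * N)).filter (fun n => NB N n)).card : ℝ) ≤
        ((∑ i ∈ J, ((Ioc N (2 * N)).filter (fun n : ℕ =>
        ENNReal.ofReal (qq N ^ i * (eps N / 8)) ≤ volume (MB N (qq N ^ i) ∩
          Set.Icc (2 * Real.log n - 2 * qq N ^ i) (2 * Real.log n + 2 * qq N ^ i)))).card : ℕ) : ℝ) := by
      exact_mod_cast h2
    refine h3.trans ?_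
    rw [Nat.cast_sum, ← nsmul_eq_mul]
    refine sum_le_card_nsmul _ _ _ fun i hi => ?_
    rw [hJ] at hi
    obtain ⟨_, hi2, hi3⟩ := mem_filter.1 hi
    exact e4_one N (by omega) hlog _ V hi2 (hi3.trans h81) hV0
      ((hmb _ hi2 hi3).1.trans (ENNReal.ofReal_le_ofReal (hVle _ hi2)))
  refine h1.trans ?_
  have h5 : (N : ℝ) ^ (2 / 3 + κ) = (N : ℝ) ^ (κ / 2) * ((N : ℝ) ^ (-(1 / 3) + κ / 2) * N) := by
    rw [← Real.rpow_add_one hN0.ne', ← Real.rpow_add hN0]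
    congr 1
    ring
  have h6 : 0 ≤ (N : ℝ) ^ (-(1 / 3) + κ / 2) * N := by positivity
  calc (J.card : ℝ) * (3200 * N * Real.log N * V)
      ≤ 701 * Real.log N ^ 2 * (3200 * N * Real.log N * V) :=
        mul_le_mul_of_nonneg_right hJc (by positivity)
    _ = 6729600 * Real.log N ^ 3 * ((N : ℝ) ^ (-(1 / 3) + κ / 2) * N) := by
        rw [hVd]
        ring
    _ ≤ (N : ℝ) ^ (κ / 2) * ((N : ℝ) ^ (-(1 / 3) + κ / 2) * N) :=
        mul_le_mul_of_nonneg_right hlarge h6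
    _ = (N : ℝ) ^ (2 / 3 + κ) := h5.symm

end Pool.Agent.Lib.H31P
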