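import Pool.Agent.Lib.H31P.E3
import Pool.Agent.Lib.H31P.E4

/-!
# Chunk E5 (M): almost all `n` are good
-/

open Finset MeasureTheory

namespace Pool.Agent.Lib.H31P

open Pool.Agent.Lib.H31W

private theorem E5_pow (M : ℕ) (hM53 : 2 ^ 53 ≤ M) :
    (2 * (M : ℝ)) ^ (1 / 6 + 1 / 100 : ℝ) ≤ (M : ℝ) ^ (9 / 50 : ℝ) ∧ (M : ℝ) ^ (9 / 50 : ℝ) ≤ M / 2 := by
  have hM53' : (2 : ℝ) ^ 53 ≤ M := by exact_mod_cast hM53
  have hM0 : (0 : ℝ) < M := lt_of_lt_of_le (by norm_num) hM53'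
  have hM1 : (1 : ℝ) ≤ M := le_trans (by norm_num) hM53'
  constructor
  · rw [Real.mul_rpow zero_le_two hM0.le]
    have h1 : (2 : ℝ) ^ (1 / 6 + 1 / 100 : ℝ) ≤ (M : ℝ) ^ (1 / 300 : ℝ) := by
      have h2 : (2 : ℝ) ^ (1 / 6 + 1 / 100 : ℝ) = ((2 : ℝ) ^ 53) ^ (1 / 300 : ℝ) := by
        rw [← Real.rpow_natCast, ← Real.rpow_mul zero_le_two]
        norm_num
      rw [h2]
      exact Real.rpow_le_rpow (by positivity) hM53' (by norm_num)
    have h3 : (M : ℝ) ^ (9 / 50 : ℝ) = (M : ℝ) ^ (1 / 300 : ℝ) * (M : ℝ) ^ (1 / 6 + 1 / 100 : ℝ) := by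
      rw [← Real.rpow_add hM0]
      norm_num
    rw [h3]
    exact mul_le_mul_of_nonneg_right h1 (by positivity)
  · have h1 : (M : ℝ) ^ (9 / 50 : ℝ) ≤ (M : ℝ) ^ (1 / 2 : ℝ) :=
      Real.rpow_le_rpow_of_exponent_le hM1 (by norm_num)
    rw [← Real.sqrt_eq_rpow] at h1
    refine h1.trans ?_
    rw [Real.sqrt_le_left (by positivity)]
    nlinarith [hM53']

/-- The asymptotic inequality. -/
private theorem E5_asym (ε : ℝ) (hε : 0 < ε) : ∃ N₀ : ℕ, ∀ N : ℕ, N₀ ≤ N →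
    2 ≤ N ∧ 2 * Real.log N + 2 ≤ (N : ℝ) ^ (ε / 2) := by
  have h1 := isLittleO_log_rpow_atTop (r := ε / 2) (by linarith)
  have h2 := h1.def (show (0 : ℝ) < 1 / 4 by norm_num)
  have h3 := (tendsto_rpow_atTop (show (0 : ℝ) < ε / 2 by linarith)).eventually_ge_atTop 4
  obtain ⟨a, ha⟩ := Filter.eventually_atTop.mp (h2.and h3)
  refine ⟨max ⌈a⌉₊ 2, fun N hN => ⟨(le_max_right _ _).trans hN, ?_⟩⟩
  have hN' : a ≤ N := (Nat.le_ceil a).trans (by exact_mod_cast (le_max_left _ _).trans hN)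
  have hN2 : 2 ≤ N := (le_max_right _ _).trans hN
  have hN2r : (2 : ℝ) ≤ N := by exact_mod_cast hN2
  obtain ⟨h4, h5⟩ := ha N hN'
  have hlog : 0 ≤ Real.log N := Real.log_nonneg (by linarith)
  rw [Real.norm_of_nonneg hlog, Real.norm_of_nonneg (Real.rpow_nonneg (by linarith) _)] at h4
  linarith

/-- **Good `n`.** Model: `H31W.good_of` (S5).

Proof. `n₁` = maximum of the constants of `win` (`ε = 1/100`) and of `crit`. `2 ≤ m < n`: if `m < n₁` then `small_m`. Otherwise if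
`m + m^(1/6+1/100) ≤ n` then `win`. Otherwise `n - m < m^(1/6+1/100) ≤ (2M)^(53/300) ≤ M^(9/50)` (`M` large), so `m ≥ M/2`, `m ≤ 4M`, and
`¬ NB M n` gives `Cr m n`; `crit`. `l > n`: if `n + n^(1/6+1/100) ≤ l` then `win`; otherwise `l - n < (2M)^(53/300) ≤ M^(9/50)`, `l ≤ 4M`,
`¬ NB M n` gives `Cr n l`. -/
theorem good_blk (hP : PntProp) (hM : MBStm) : ∃ M₀ : ℕ, ∀ M : ℕ, M₀ ≤ M → ∀ n ∈ Ioc M (2 * M),
    ¬ NB M n → GoodN n := by
  obtain ⟨n₀, hw⟩ := win hP hM (1 / 100) (by norm_num)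
  obtain ⟨m₀, -, hcr⟩ := crit hP
  obtain ⟨n₂, hsm⟩ := small_m (max n₀ m₀)
  refine ⟨max (max n₀ m₀) (max n₂ (2 ^ 53)), fun M hMM n hn hbad => ?_⟩
  have hMn₀ : n₀ ≤ M := (le_max_left _ _).trans ((le_max_left _ _).trans hMM)
  have hMm₀ : m₀ ≤ M := (le_max_right _ _).trans ((le_max_left _ _).trans hMM)
  have hMn₂ : n₂ ≤ M := (le_max_left _ _).trans ((le_max_right _ _).trans hMM)
  have hM53 : 2 ^ 53 ≤ M := (le_max_right _ _).trans ((le_max_right _ _).trans hMM)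
  obtain ⟨hpw, hhalf⟩ := E5_pow M hM53
  rw [mem_Ioc] at hn
  obtain ⟨hn1, hn2⟩ := hn
  have hn1r : (M : ℝ) < n := by exact_mod_cast hn1
  have hn2r : (n : ℝ) ≤ 2 * M := by exact_mod_cast hn2
  have hM0 : (0 : ℝ) ≤ M := Nat.cast_nonneg _
  have hle : ∀ k : ℕ, (k : ℝ) ≤ 2 * M → (k : ℝ) ^ (1 / 6 + 1 / 100 : ℝ) ≤ (M : ℝ) ^ (9 / 50 : ℝ) :=
    fun k hk => (Real.rpow_le_rpow (Nat.cast_nonneg _) hk (by norm_num)).trans hpw
  refine ⟨fun m hm2 hmn => ?_, fun l hnl => ?_⟩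
  · rcases lt_or_ge m (max n₀ m₀) with hm | hm
    · exact hsm n (by omega) m hm2 hm
    · have hmnr : (m : ℝ) < n := by exact_mod_cast hmn
      rcases le_or_gt ((m : ℝ) + (m : ℝ) ^ (1 / 6 + 1 / 100 : ℝ)) n with h | h
      · exact hw m n ((le_max_left _ _).trans hm) h
      · refine hcr m n ((le_max_right _ _).trans hm) hmn ?_
        by_contra hc
        have h1 := hle m (by linarith)
        exact hbad ⟨m, by linarith, by linarith, Or.inl ⟨hmn, by linarith, hc⟩⟩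
  · have hnlr : (n : ℝ) < l := by exact_mod_cast hnl
    rcases le_or_gt ((n : ℝ) + (n : ℝ) ^ (1 / 6 + 1 / 100 : ℝ)) l with h | h
    · exact hw n l (hMn₀.trans hn1.le) h
    · refine hcr n l (hMm₀.trans hn1.le) hnl ?_
      by_contra hc
      have h1 := hle n hn2r
      exact hbad ⟨l, by linarith, by linarith, Or.inr ⟨hnl, by linarith, hc⟩⟩

/-- **GoodStm.** Model: `H31W.final` (S6).

Proof. `M₀ = Nat.sqrt N`, `M_i = 2^i M₀`. Every `n ≤ N` that is not good is `≤ M₀` or lies in some `(M_i, 2 M_i]`, `M_i < N`, and is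
`NB M_i n` (`good_blk`). The number is at most `√N + ∑_{i : 2^i M₀ < N} M_i^(2/3+ε/2) ≤ √N + (log N/log 2 + 1) N^(2/3+ε/2) ≤ N^(2/3+ε)`
for large `N` (`nb_count` with `κ = ε/2`). -/
theorem good (hP : PntProp) (hM : MBStm) : GoodStm := by
  classical
  intro ε hε
  obtain ⟨N₁, hN₁⟩ := nb_count hM (ε / 2) (by linarith)
  obtain ⟨N₂, hN₂⟩ := good_blk hP hM
  obtain ⟨N₃, hN₃⟩ := E5_asym ε hε
  refine ⟨max ((N₁ + N₂ + 2) ^ 2) N₃, fun N hN => ?_⟩
  have hNa : (N₁ + N₂ + 2) ^ 2 ≤ N := (le_max_left _ _).trans hN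
  obtain ⟨hNb, hNc⟩ := hN₃ N ((le_max_right _ _).trans hN)
  have hN0 : (0 : ℝ) < N := by
    have : 0 < N := by omega
    exact_mod_cast this
  have hN1 : (1 : ℝ) ≤ N := by
    have : 1 ≤ N := by omega
    exact_mod_cast this
  obtain ⟨M₀, hM₀⟩ : ∃ M₀ : ℕ, M₀ = Nat.sqrt N := ⟨_, rfl⟩
  have hM₀ge : N₁ + N₂ + 2 ≤ M₀ := by
    rw [hM₀]
    exact Nat.le_sqrt'.2 hNa
  have hM₀sq : M₀ ^ 2 ≤ N := by
    rw [hM₀]
    exact Nat.sqrt_le' N
  -- the bound for one dyadic interval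
  obtain ⟨E, hE⟩ : ∃ E : ℝ, E = (N : ℝ) ^ (2 / 3 + ε / 2) := ⟨_, rfl⟩
  have hE0 : 0 ≤ E := by
    rw [hE]
    positivity
  have hdy : ∀ i : ℕ, 2 ^ i * M₀ < N →
      (((Ioc (2 ^ i * M₀) (2 * (2 ^ i * M₀))).filter (fun n => NB (2 ^ i * M₀) n)).card : ℝ) ≤ E := by
    intro i hi
    have h1 : M₀ ≤ 2 ^ i * M₀ := Nat.le_mul_of_pos_left _ (pow_pos (by norm_num) _)
    refine (hN₁ (2 ^ i * M₀) (by omega)).trans ?_
    have h2 : ((2 ^ i * M₀ : ℕ) : ℝ) ≤ N := by exact_mod_cast hi.le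
    rw [hE]
    exact Real.rpow_le_rpow (Nat.cast_nonneg _) h2 (by linarith)
  -- the covering
  have hsub : (Icc 1 N).filter (fun n => ¬ GoodN n) ⊆ Icc 1 M₀ ∪
      ((range (Nat.log 2 N + 1)).filter (fun i => 2 ^ i * M₀ < N)).biUnion (fun i =>
        (Ioc (2 ^ i * M₀) (2 * (2 ^ i * M₀))).filter (fun n => NB (2 ^ i * M₀) n)) := by
    intro n hn
    obtain ⟨hn1, hn2⟩ := Finset.mem_filter.1 hn
    obtain ⟨hn3, hn4⟩ := Finset.mem_Icc.1 hn1
    rw [Finset.mem_union]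
    by_cases hnM : n ≤ M₀
    · exact Or.inl (Finset.mem_Icc.2 ⟨hn3, hnM⟩)
    · right
      have hex : ∃ i : ℕ, n ≤ 2 * (2 ^ i * M₀) := by
        refine ⟨n, ?_⟩
        have h1 : n < 2 ^ n := Nat.lt_two_pow_self
        have h2 : 2 ^ n * 1 ≤ 2 ^ n * M₀ := Nat.mul_le_mul_left _ (by omega)
        omega
      obtain ⟨i, hi⟩ : ∃ i, i = Nat.find hex := ⟨_, rfl⟩
      have hi1 : n ≤ 2 * (2 ^ i * M₀) := by
        rw [hi]
        exact Nat.find_spec hex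
      have hi2 : 2 ^ i * M₀ < n := by
        rcases Nat.eq_zero_or_pos i with h0 | h0
        · rw [h0]
          omega
        · have h1 := Nat.find_min hex (m := i - 1) (by omega)
          have h2 : 2 ^ i * M₀ = 2 * (2 ^ (i - 1) * M₀) := by
            rw [← mul_assoc, ← pow_succ', Nat.sub_add_cancel h0]
          omega
      refine Finset.mem_biUnion.2 ⟨i, Finset.mem_filter.2 ⟨Finset.mem_range.2 ?_, by omega⟩, ?_⟩
      · have h1 : 2 ^ i ≤ N := by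
          have h2 : 2 ^ i * 1 ≤ 2 ^ i * M₀ := Nat.mul_le_mul_left _ (by omega)
          omega
        have h2 := Nat.le_log_of_pow_le (by norm_num) h1
        omega
      · refine Finset.mem_filter.2 ⟨Finset.mem_Ioc.2 ⟨hi2, hi1⟩, ?_⟩
        by_contra hnb
        refine hn2 (hN₂ (2 ^ i * M₀) ?_ n (Finset.mem_Ioc.2 ⟨hi2, hi1⟩) hnb)
        have h1 : M₀ ≤ 2 ^ i * M₀ := Nat.le_mul_of_pos_left _ (pow_pos (by norm_num) _)
        omega
  have hcard : (((Icc 1 N).filter (fun n => ¬ GoodN n)).card : ℝ) ≤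
      M₀ + (Nat.log 2 N + 1) * E := by
    have h1 := Finset.card_le_card hsub
    have h2 := h1.trans (Finset.card_union_le _ _)
    have h3 : ((((range (Nat.log 2 N + 1)).filter (fun i => 2 ^ i * M₀ < N)).biUnion (fun i =>
        (Ioc (2 ^ i * M₀) (2 * (2 ^ i * M₀))).filter
          (fun n => NB (2 ^ i * M₀) n))).card : ℝ) ≤ (Nat.log 2 N + 1) * E := by
      refine (Nat.cast_le.2 Finset.card_biUnion_le).trans ?_
      rw [Nat.cast_sum]
      refine (Finset.sum_le_card_nsmul _ _ E fun i hi => hdy i (Finset.mem_filter.1 hi).2).trans ?_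
      rw [nsmul_eq_mul]
      refine mul_le_mul_of_nonneg_right ?_ hE0
      have h4 := Finset.card_filter_le (range (Nat.log 2 N + 1)) (fun i => 2 ^ i * M₀ < N)
      rw [Finset.card_range] at h4
      exact_mod_cast h4
    have h4 : ((Icc 1 M₀).card : ℝ) = M₀ := by
      rw [Nat.card_Icc]
      simp
    calc (((Icc 1 N).filter (fun n => ¬ GoodN n)).card : ℝ)
        ≤ ((Icc 1 M₀).card : ℝ) + ((((range (Nat.log 2 N + 1)).filter
          (fun i => 2 ^ i * M₀ < N)).biUnion (fun i =>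
          (Ioc (2 ^ i * M₀) (2 * (2 ^ i * M₀))).filter
            (fun n => NB (2 ^ i * M₀) n))).card : ℝ) := by exact_mod_cast h2
      _ ≤ M₀ + (Nat.log 2 N + 1) * E := by linarith
  refine hcard.trans ?_
  -- the two summands
  have hlog2 : (Nat.log 2 N + 1 : ℝ) ≤ 2 * Real.log N + 1 := by
    have h1 : (2 : ℝ) ^ (Nat.log 2 N) ≤ N := by
      have := Nat.pow_log_le_self 2 (show N ≠ 0 by omega)
      exact_mod_cast this
    have h2 := Real.log_le_log (by positivity) h1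
    rw [Real.log_pow] at h2
    have h3 : (1 / 2 : ℝ) ≤ Real.log 2 := by
      have := Real.log_two_gt_d9
      linarith
    have h4 : (Nat.log 2 N : ℝ) * (1 / 2) ≤ (Nat.log 2 N : ℝ) * Real.log 2 :=
      mul_le_mul_of_nonneg_left h3 (Nat.cast_nonneg _)
    linarith
  have hA : (M₀ : ℝ) ≤ E := by
    have h1 : (M₀ : ℝ) ≤ Real.sqrt N := by
      refine Real.le_sqrt_of_sq_le ?_
      exact_mod_cast hM₀sq
    rw [Real.sqrt_eq_rpow] at h1
    rw [hE]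
    exact h1.trans (Real.rpow_le_rpow_of_exponent_le hN1 (by linarith))
  have hEE : (N : ℝ) ^ (2 / 3 + ε) = (N : ℝ) ^ (ε / 2) * E := by
    rw [hE, ← Real.rpow_add hN0]
    congr 1
    ring
  rw [hEE]
  obtain ⟨P, hP1⟩ : ∃ P : ℝ, P = (N : ℝ) ^ (ε / 2) := ⟨_, rfl⟩
  rw [← hP1] at hNc ⊢
  have h5 : (Nat.log 2 N + 1 : ℝ) + 1 ≤ P := by linarith
  calc (M₀ : ℝ) + (Nat.log 2 N + 1) * E ≤ E + (Nat.log 2 N + 1) * E := by linarith
    _ = ((Nat.log 2 N + 1 : ℝ) + 1) * E := by ring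
    _ ≤ P * E := mul_le_mul_of_nonneg_right h5 hE0

end Pool.Agent.Lib.H31P
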