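import Pool.Agent.Lib.H31P.E3

/-!
# Chunk E6 (M): the classes of coincidences
-/

open Finset MeasureTheory

namespace Pool.Agent.Lib.H31P

open Pool.Agent.Lib.H31W

/-- **Classes.**

Proof. `n₁` = maximum of the constants of `win` (`ε = 1/100`), of `crit` (`m₀`), and 2. Let `M` be large, `n ∈ (M, 2M]`, `v = r n > 0`
(`π(n²) ≥ 1`), `K = {k ≥ 1 : r k = v}`. `1 ∉ K` (`r 1 = 0`), no `k` with `2 ≤ k < n₁` is in `K` (`small_m n₁`: `r n < r k`). For `k < l` in `K`: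
`l < k + k^(1/6+1/100)` by `win` (otherwise `r l < r k`). So `K ⊆ [1, 4M]` is finite; let `a` be the minimum and `b` the maximum (`Coin n`: at
least two elements, `a < b`). `a ≤ n ≤ 2M`, so `b - a ≤ a^(53/300) ≤ (2M)^(53/300) ≤ M^(9/50)` and `a ≥ n - M^(9/50) ≥ M/2`, `b ≤ 4M`.
`bad`: `Cr a b` would give `r b < r a` by `crit`. -/
theorem cls (hP : PntProp) (hM : MBStm) : ∃ M₀ : ℕ, ∀ M : ℕ, M₀ ≤ M → ∀ n ∈ Ioc M (2 * M), Coin n →
    ∃ a b : ℕ, Cls M (r n) a b := by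
  classical
  obtain ⟨n₀, hw⟩ := win hP hM (1 / 100) (by norm_num)
  obtain ⟨m₀, hm2, hcr⟩ := crit hP
  obtain ⟨n₂, hsm⟩ := small_m (max n₀ (max m₀ 2))
  refine ⟨max n₂ (2 ^ 53), fun M hMM n hn hco => ?_⟩
  have hMn₂ : n₂ ≤ M := (le_max_left _ _).trans hMM
  have hM53 : 2 ^ 53 ≤ M := (le_max_right _ _).trans hMM
  rw [mem_Ioc] at hn
  obtain ⟨m, hm1, hmn, hmr⟩ := hco
  have hM53' : (2 : ℝ) ^ 53 ≤ M := by exact_mod_cast hM53
  have hM0 : (0 : ℝ) < M := lt_of_lt_of_le (by norm_num) hM53'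
  have hM1 : (1 : ℝ) ≤ M := le_trans (by norm_num) hM53'
  -- powers
  have hpw : (2 * (M : ℝ)) ^ (1 / 6 + 1 / 100 : ℝ) ≤ (M : ℝ) ^ (9 / 50 : ℝ) := by
    rw [Real.mul_rpow zero_le_two hM0.le]
    have h1 : (2 : ℝ) ^ (1 / 6 + 1 / 100 : ℝ) ≤ (M : ℝ) ^ (1 / 300 : ℝ) := by
      have h2 : (2 : ℝ) ^ (1 / 6 + 1 / 100 : ℝ) = ((2 : ℝ) ^ 53) ^ (1 / 300 : ℝ) := by
        rw [← Real.rpow_natCast, ← Real.rpow_mul zero_le_two]
        norm_num
      rw [h2]
      exact Real.rpow_le_rpow (by positivity) hM53' (by norm_num)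
    have h3 : (M : ℝ) ^ (9 / 50 : ℝ) = (M : ℝ) ^ (1 / 300 : ℝ) * (M : ℝ) ^ (1 / 6 + 1 / 100 : ℝ) := by
      rw [← Real.rpow_add hM0]
      norm_num
    rw [h3]
    exact mul_le_mul_of_nonneg_right h1 (by positivity)
  have hhalf : (M : ℝ) ^ (9 / 50 : ℝ) ≤ M / 2 := by
    have h1 : (M : ℝ) ^ (9 / 50 : ℝ) ≤ (M : ℝ) ^ (1 / 2 : ℝ) :=
      Real.rpow_le_rpow_of_exponent_le hM1 (by norm_num)
    rw [← Real.sqrt_eq_rpow] at h1
    refine h1.trans ?_
    rw [Real.sqrt_le_left (by positivity)]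
    nlinarith [hM53']
  have hn1 : (n : ℝ) ≤ 2 * M := by exact_mod_cast hn.2
  have hn2 : (M : ℝ) ≤ n := by exact_mod_cast hn.1.le
  -- positivity of the value
  have hv : 0 < r n := by
    unfold r
    have h1 : 2 ≤ n := by omega
    have h2 : 1 ≤ Nat.primeCounting (n ^ 2) := by
      have h3 : Nat.primeCounting 2 = 1 := by decide
      rw [← h3]
      exact Nat.monotone_primeCounting (by nlinarith)
    have h4 : (0 : ℝ) < Nat.primeCounting (n ^ 2) := by exact_mod_cast h2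
    have h5 : (0 : ℝ) < n := by exact_mod_cast (by omega : 0 < n)
    positivity
  have hr1 : r 1 = 0 := by
    unfold r
    have h3 : Nat.primeCounting (1 ^ 2) = 0 := by decide
    rw [h3]
    simp
  -- all members are large
  have hA : ∀ k : ℕ, 1 ≤ k → r k = r n → max n₀ (max m₀ 2) ≤ k := by
    intro k hk hkr
    by_contra hlt
    push Not at hlt
    rcases Nat.eq_or_lt_of_le hk with h1 | h1
    · rw [← h1, hr1] at hkr
      exact hv.ne hkr
    · exact (hsm n (hMn₂.trans hn.1.le) k h1 hlt).ne' hkr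
  have hB : ∀ k l : ℕ, 1 ≤ k → k < l → r k = r n → r l = r n →
      (l : ℝ) < k + (k : ℝ) ^ (1 / 6 + 1 / 100 : ℝ) := by
    intro k l hk hkl h1 h2
    by_contra hge
    push Not at hge
    have h3 := hw k l ((le_max_left _ _).trans (hA k hk h1)) hge
    rw [h1, h2] at h3
    exact lt_irrefl _ h3
  have hB' : ∀ k l : ℕ, 1 ≤ k → k ≤ l → (k : ℝ) ≤ 2 * M → r k = r n → r l = r n →
      (l : ℝ) ≤ k + (M : ℝ) ^ (9 / 50 : ℝ) := by
    intro k l hk hkl hkM h1 h2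
    rcases Nat.eq_or_lt_of_le hkl with h3 | h3
    · rw [← h3]
      have : (0 : ℝ) ≤ (M : ℝ) ^ (9 / 50 : ℝ) := by positivity
      linarith
    · have h4 := hB k l hk h3 h1 h2
      have h5 : (k : ℝ) ^ (1 / 6 + 1 / 100 : ℝ) ≤ (2 * (M : ℝ)) ^ (1 / 6 + 1 / 100 : ℝ) :=
        Real.rpow_le_rpow (by positivity) hkM (by norm_num)
      linarith
  have hup : ∀ k : ℕ, 1 ≤ k → r k = r n → (k : ℝ) ≤ 4 * M := by
    intro k hk hkr
    rcases le_total k n with h1 | h1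
    · have h2 : (k : ℝ) ≤ n := by exact_mod_cast h1
      linarith
    · have h2 := hB' n k (by omega) h1 hn1 rfl hkr
      linarith
  set S : Finset ℕ := (Icc 1 (4 * M)).filter (fun k => r k = r n) with hS
  have hmem : ∀ k : ℕ, k ∈ S ↔ 1 ≤ k ∧ r k = r n := by
    intro k
    rw [hS, mem_filter, mem_Icc]
    constructor
    · rintro ⟨⟨h1, _⟩, h2⟩
      exact ⟨h1, h2⟩
    · rintro ⟨h1, h2⟩
      have h3 : (k : ℝ) ≤ 4 * M := hup k h1 h2
      exact ⟨⟨h1, by exact_mod_cast h3⟩, h2⟩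
  have hnS : n ∈ S := (hmem n).2 ⟨by omega, rfl⟩
  have hmS : m ∈ S := (hmem m).2 ⟨hm1, hmr⟩
  have hne : S.Nonempty := ⟨n, hnS⟩
  have haS := (hmem _).1 (S.min'_mem hne)
  have hbS := (hmem _).1 (S.max'_mem hne)
  have han : S.min' hne ≤ n := S.min'_le n hnS
  have hbn : n ≤ S.max' hne := S.le_max' n hnS
  have ham : S.min' hne ≤ m := S.min'_le m hmS
  have hbm : m ≤ S.max' hne := S.le_max' m hmS
  have hab : S.min' hne < S.max' hne := by
    rcases Nat.lt_or_gt_of_ne hmn with h1 | h1 <;> omega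
  have haM : ((S.min' hne : ℕ) : ℝ) ≤ 2 * M := by
    have h1 : ((S.min' hne : ℕ) : ℝ) ≤ n := by exact_mod_cast han
    linarith
  have h1 := hB' _ _ haS.1 hab.le haM haS.2 hbS.2
  have h2 := hB' _ n haS.1 han haM haS.2 rfl
  refine ⟨S.min' hne, S.max' hne, ?_, hup _ hbS.1 hbS.2, hab, by linarith, haS.2, hbS.2, ?_, ?_⟩
  · linarith
  · intro hc
    have h3 := hcr _ _ (((le_max_left _ _).trans (le_max_right _ _)).trans (hA _ haS.1 haS.2)) hab hc
    rw [haS.2, hbS.2] at h3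
    exact lt_irrefl _ h3
  · intro k hk hkr
    have h3 : k ∈ S := (hmem k).2 ⟨hk, hkr⟩
    exact ⟨S.min'_le k h3, S.le_max' k h3⟩

end Pool.Agent.Lib.H31P
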