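import Pool.Agent.Lib.H31P.EDefs

/-!
# Chunk E7 (S/M): denominators with respect to squares, values of `r`
-/

open Finset MeasureTheory

namespace Pool.Agent.Lib.H31P

open Pool.Agent.Lib.H31W

private lemma e7_count_add (a b : ℕ) : Nat.primeCounting (a + b) ≤ Nat.primeCounting a + b := by
  have h1 : Nat.primeCounting (a + b) = Nat.count Nat.Prime (a + 1 + b) := by
    show Nat.count Nat.Prime (a + b + 1) = _
    rw [show a + b + 1 = a + 1 + b by ring]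
  have h2 : Nat.primeCounting a = Nat.count Nat.Prime (a + 1) := rfl
  rw [h1, h2, Nat.count_add]
  exact Nat.add_le_add_left (Nat.count_le _) _

private lemma e7_count_le (a : ℕ) : Nat.primeCounting a ≤ a := by
  have h := e7_count_add 0 a
  simpa using h

private lemma e7_mul (n : ℕ) (hn : 1 ≤ n) : r n * (n : ℝ) ^ 2 = (Nat.primeCounting (n ^ 2) : ℝ) := by
  have h0 : (n : ℝ) ≠ 0 := by positivity
  unfold r
  field_simp

private lemma e7_le_one (n : ℕ) (hn : 1 ≤ n) : r n ≤ 1 := by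
  have h0 : (0 : ℝ) < (n : ℝ) ^ 2 := by positivity
  unfold r
  rw [div_le_one h0]
  have h := e7_count_le (n ^ 2)
  calc (Nat.primeCounting (n ^ 2) : ℝ) ≤ ((n ^ 2 : ℕ) : ℝ) := by exact_mod_cast h
    _ = (n : ℝ) ^ 2 := by push_cast; ring

/-- **The denominator.**

Proof. `A = {k : v k² ∈ ℕ}`. `v = t/n²` is rational; write `v = p/q` in lowest terms (`p, q` natural numbers, `q ≥ 1`); then `k ∈ A` iff `q ∣ k²`
(`p k² = t q` and `p, q` coprime; if `p = 0` then `q = 1`). If `k, l ∈ A` then `q` divides `gcd (k²) (l²) = (gcd k l)²` (`Nat.pow_gcd_pow` or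
`Nat.Coprime.pow`), so `gcd k l ∈ A`. Let `d` be the least positive element of `A` (`Nat.find`; `n ∈ A`). For `k ∈ A`: `gcd d k ∈ A` is
positive and `≤ d`, so it is `d`. -/
theorem den (v : ℝ) (n : ℕ) (hn : 1 ≤ n) (hv : ∃ t : ℕ, v * (n : ℝ) ^ 2 = t) : ∃ d : ℕ, Dn v d := by
  classical
  obtain ⟨t, ht⟩ := hv
  have hn2 : 0 < n ^ 2 := by positivity
  have hg : 0 < Nat.gcd t (n ^ 2) := Nat.gcd_pos_of_pos_right _ hn2
  obtain ⟨p, Q, hpQ, hp, hQ⟩ := Nat.exists_coprime t (n ^ 2)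
  set g : ℕ := Nat.gcd t (n ^ 2) with hgdef
  have hgR : (0 : ℝ) < (g : ℝ) := by exact_mod_cast hg
  have hQ0 : 0 < Q := by
    rcases Nat.eq_zero_or_pos Q with h | h
    · rw [h] at hQ
      simp at hQ
      omega
    · exact h
  have hvQ : v * (Q : ℝ) = p := by
    have h1 : (n : ℝ) ^ 2 = (Q : ℝ) * g := by exact_mod_cast hQ
    have h2 : (t : ℝ) = (p : ℝ) * g := by exact_mod_cast hp
    rw [h1, h2] at ht
    have h3 : (v * (Q : ℝ)) * g = (p : ℝ) * g := by linarith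
    exact mul_right_cancel₀ hgR.ne' h3
  have key : ∀ k : ℕ, (∃ m : ℕ, v * (k : ℝ) ^ 2 = m) ↔ Q ∣ k ^ 2 := by
    intro k
    constructor
    · rintro ⟨m, hm⟩
      have h1 : (p : ℝ) * (k : ℝ) ^ 2 = (m : ℝ) * Q := by
        rw [← hvQ, ← hm]; ring
      have h2 : p * k ^ 2 = m * Q := by exact_mod_cast h1
      have h3 : Q ∣ p * k ^ 2 := ⟨m, by rw [h2]; ring⟩
      exact (Nat.Coprime.dvd_of_dvd_mul_left hpQ.symm h3)
    · rintro ⟨c, hc⟩
      refine ⟨p * c, ?_⟩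
      have h1 : (k : ℝ) ^ 2 = (Q : ℝ) * c := by exact_mod_cast hc
      rw [h1]
      push_cast
      rw [← hvQ]; ring
  have hex : ∃ d : ℕ, 1 ≤ d ∧ Q ∣ d ^ 2 := ⟨n, hn, ⟨g, hQ⟩⟩
  refine ⟨Nat.find hex, ?_, ?_, ?_⟩
  · exact (Nat.find_spec hex).1
  · exact (key _).2 (Nat.find_spec hex).2
  · intro k hk
    have hk' : Q ∣ k ^ 2 := (key k).1 hk
    have hd : Q ∣ (Nat.find hex) ^ 2 := (Nat.find_spec hex).2
    have hd1 : 1 ≤ Nat.find hex := (Nat.find_spec hex).1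
    have hgc : Q ∣ (Nat.gcd (Nat.find hex) k) ^ 2 := by
      rw [← Nat.pow_gcd_pow]
      exact Nat.dvd_gcd hd hk'
    have hgpos : 1 ≤ Nat.gcd (Nat.find hex) k := Nat.gcd_pos_of_pos_left _ hd1
    have hmin : Nat.find hex ≤ Nat.gcd (Nat.find hex) k := Nat.find_min' hex ⟨hgpos, hgc⟩
    have hle : Nat.gcd (Nat.find hex) k ≤ Nat.find hex := Nat.gcd_le_left _ hd1
    have heq : Nat.gcd (Nat.find hex) k = Nat.find hex := le_antisymm hle hmin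
    have hdv : Nat.gcd (Nat.find hex) k ∣ k := Nat.gcd_dvd_right _ _
    rw [heq] at hdv
    exact hdv

/-- `r n · n²` is a natural number.
Proof. Definition of `r` (`n ≠ 0`). -/
theorem r_nat (n : ℕ) (hn : 1 ≤ n) : ∃ t : ℕ, r n * (n : ℝ) ^ 2 = t :=
  ⟨Nat.primeCounting (n ^ 2), e7_mul n hn⟩

/-- `0 < r n ≤ 1` for `n ≥ 2`.
Proof. `1 ≤ π(n²) ≤ n²` (`π(4) = 2`, monotone; `Nat.primeCounting_le_self` or count at most `n²`). -/
theorem r_pos (n : ℕ) (hn : 2 ≤ n) : 0 < r n ∧ r n ≤ 1 := by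
  refine ⟨?_, e7_le_one n (by omega)⟩
  have h0 : (0 : ℝ) < (n : ℝ) ^ 2 := by positivity
  unfold r
  apply div_pos _ h0
  have h1 : Nat.primeCounting 2 ≤ Nat.primeCounting (n ^ 2) :=
    Nat.monotone_primeCounting (by nlinarith)
  have h2 : Nat.primeCounting 2 = 1 := by decide
  have h3 : 0 < Nat.primeCounting (n ^ 2) := by omega
  exact_mod_cast h3

/-- `|r y - r x| ≤ 2 (y - x)/y`.
Proof. `π(x²) ≤ π(y²) ≤ π(x²) + (y² - x²)`. So `r y ≤ r x + (y² - x²)/y²` and `r y ≥ r x · x²/y² ≥ r x - (y² - x²)/y²` (`r x ≤ 1`), and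
`(y² - x²)/y² = (y-x)(y+x)/y² ≤ 2 (y-x)/y`. -/
theorem r_lip (x y : ℕ) (hx : 1 ≤ x) (hxy : x ≤ y) : |r y - r x| ≤ 2 * ((y : ℝ) - x) / y := by
  have hy : 1 ≤ y := le_trans hx hxy
  have hxR : (1 : ℝ) ≤ (x : ℝ) := by exact_mod_cast hx
  have hyR : (1 : ℝ) ≤ (y : ℝ) := by exact_mod_cast hy
  have hxyR : (x : ℝ) ≤ (y : ℝ) := by exact_mod_cast hxy
  have hy0 : (0 : ℝ) < (y : ℝ) := by linarith
  have hy2 : (0 : ℝ) < (y : ℝ) ^ 2 := by positivity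
  have hsq : x ^ 2 ≤ y ^ 2 := Nat.pow_le_pow_left hxy 2
  have hup : Nat.primeCounting (y ^ 2) ≤ Nat.primeCounting (x ^ 2) + (y ^ 2 - x ^ 2) := by
    have h := e7_count_add (x ^ 2) (y ^ 2 - x ^ 2)
    rwa [Nat.add_sub_cancel' hsq] at h
  have hlo : Nat.primeCounting (x ^ 2) ≤ Nat.primeCounting (y ^ 2) := Nat.monotone_primeCounting hsq
  have hupR : (Nat.primeCounting (y ^ 2) : ℝ) ≤ (Nat.primeCounting (x ^ 2) : ℝ) + ((y : ℝ) ^ 2 - (x : ℝ) ^ 2) := by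
    have h : ((Nat.primeCounting (y ^ 2) : ℕ) : ℝ) ≤ ((Nat.primeCounting (x ^ 2) + (y ^ 2 - x ^ 2) : ℕ) : ℝ) := by
      exact_mod_cast hup
    rw [Nat.cast_add, Nat.cast_sub hsq] at h
    push_cast at h
    exact h
  have hloR : (Nat.primeCounting (x ^ 2) : ℝ) ≤ (Nat.primeCounting (y ^ 2) : ℝ) := by exact_mod_cast hlo
  have ex : (Nat.primeCounting (x ^ 2) : ℝ) = r x * (x : ℝ) ^ 2 := (e7_mul x hx).symm
  have ey : (Nat.primeCounting (y ^ 2) : ℝ) = r y * (y : ℝ) ^ 2 := (e7_mul y hy).symm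
  have hrx1 : r x ≤ 1 := e7_le_one x hx
  have hrx0 : 0 ≤ r x := by unfold r; positivity
  rw [ex, ey] at hupR hloR
  have hdiff : (y : ℝ) ^ 2 - (x : ℝ) ^ 2 ≤ 2 * ((y : ℝ) - x) / y * (y : ℝ) ^ 2 := by
    have h1 : 2 * ((y : ℝ) - x) / y * (y : ℝ) ^ 2 = 2 * ((y : ℝ) - x) * y := by
      field_simp
    rw [h1]
    nlinarith
  have hxy2 : (x : ℝ) ^ 2 ≤ (y : ℝ) ^ 2 := by nlinarith
  rw [abs_le]
  constructor
  · have h2 : -(2 * ((y : ℝ) - x) / y) * (y : ℝ) ^ 2 ≤ (r y - r x) * (y : ℝ) ^ 2 := by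
      nlinarith
    exact le_of_mul_le_mul_right h2 hy2
  · have h2 : (r y - r x) * (y : ℝ) ^ 2 ≤ (2 * ((y : ℝ) - x) / y) * (y : ℝ) ^ 2 := by
      nlinarith
    exact le_of_mul_le_mul_right h2 hy2

/-- Two different values are separated.
Proof. `v d² d'² - v' d² d'²` is an integer and not 0, so its absolute value is at least 1. -/
theorem sep (v v' : ℝ) (d d' : ℕ) (hd : 1 ≤ d) (hd' : 1 ≤ d') (h : ∃ t : ℕ, v * (d : ℝ) ^ 2 = t)
    (h' : ∃ t : ℕ, v' * (d' : ℝ) ^ 2 = t) (hne : v ≠ v') :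
    1 / ((d : ℝ) ^ 2 * (d' : ℝ) ^ 2) ≤ |v - v'| := by
  obtain ⟨t, ht⟩ := h
  obtain ⟨t', ht'⟩ := h'
  have hdR : (0 : ℝ) < (d : ℝ) := by exact_mod_cast hd
  have hdR' : (0 : ℝ) < (d' : ℝ) := by exact_mod_cast hd'
  have hD : (0 : ℝ) < (d : ℝ) ^ 2 * (d' : ℝ) ^ 2 := by positivity
  have e : (v - v') * ((d : ℝ) ^ 2 * (d' : ℝ) ^ 2)
      = (((t : ℤ) * (d' : ℤ) ^ 2 - (t' : ℤ) * (d : ℤ) ^ 2 : ℤ) : ℝ) := by
    push_cast
    rw [← ht, ← ht']
    ring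
  have hne0 : ((t : ℤ) * (d' : ℤ) ^ 2 - (t' : ℤ) * (d : ℤ) ^ 2 : ℤ) ≠ 0 := by
    intro h0
    rw [h0] at e
    simp only [Int.cast_zero, mul_eq_zero] at e
    rcases e with e | e
    · exact hne (sub_eq_zero.1 e)
    · rcases e with e | e
      · have := pow_ne_zero 2 hdR.ne'
        exact this e
      · have := pow_ne_zero 2 hdR'.ne'
        exact this e
  have habs : (1 : ℝ) ≤ |(v - v') * ((d : ℝ) ^ 2 * (d' : ℝ) ^ 2)| := by
    rw [e, ← Int.cast_abs]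
    exact_mod_cast Int.one_le_abs hne0
  rw [abs_mul, abs_of_pos hD] at habs
  rw [div_le_iff₀ hD]
  exact habs

end Pool.Agent.Lib.H31P
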