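import Pool.Agent.Lib.H31P.Top
import Pool.Agent.Lib.H31W.S4
import Pool.Agent.Lib.H31W.S5

/-!
# H31P, module E: definitions

The grid `qq M ^ i`, near bad `n`, coincidences.
-/

open Finset MeasureTheory

namespace Pool.Agent.Lib.H31P

open Pool.Agent.Lib.H31W

noncomputable section

/-- The ratio of the grid of lengths. -/
def qq (M : ℕ) : ℝ := 1 / (1 + eps M / 8)

/-- `n ∈ (M, 2M]` violates the criterion with a partner at distance at most `M^(9/50)`. -/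
def NB (M n : ℕ) : Prop := ∃ m : ℕ, (M : ℝ) / 2 ≤ m ∧ (m : ℝ) ≤ 4 * M ∧
  ((m < n ∧ (n : ℝ) - m ≤ (M : ℝ) ^ (9 / 50 : ℝ) ∧ ¬ Cr m n) ∨
    (n < m ∧ (m : ℝ) - n ≤ (M : ℝ) ^ (9 / 50 : ℝ) ∧ ¬ Cr n m))

/-- `n` takes part in a coincidence. -/
def Coin (n : ℕ) : Prop := ∃ m : ℕ, 1 ≤ m ∧ m ≠ n ∧ r m = r n

/-- A class of coincidences near `M`: all `k` with `r k = v` lie in `[a, b]`. -/
structure Cls (M : ℕ) (v : ℝ) (a b : ℕ) : Prop where
  aM : (M : ℝ) / 2 ≤ a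
  bM : (b : ℝ) ≤ 4 * M
  ab : a < b
  len : (b : ℝ) - a ≤ (M : ℝ) ^ (9 / 50 : ℝ)
  ra : r a = v
  rb : r b = v
  bad : ¬ Cr a b
  all : ∀ k : ℕ, 1 ≤ k → r k = v → a ≤ k ∧ k ≤ b

/-- `d` is the denominator of `v` with respect to squares: `v d²` is a natural number, and `d` divides every `k` such that
`v k²` is a natural number. -/
structure Dn (v : ℝ) (d : ℕ) : Prop where
  pos : 1 ≤ d
  nat : ∃ t : ℕ, v * (d : ℝ) ^ 2 = t
  dvd : ∀ k : ℕ, (∃ t : ℕ, v * (k : ℝ) ^ 2 = t) → d ∣ k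

end

end Pool.Agent.Lib.H31P
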