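import Pool.Agent.Lib.H31P.FDefs

/-!
# Chunk F0 (M): `ζ(s)²` as a Dirichlet series
-/

open Finset MeasureTheory

namespace Pool.Agent.Lib.H31P

private lemma F0_conv (n : ℕ) : LSeries.convolution (1 : ℕ → ℂ) 1 n = (dv n : ℂ) := by
  rw [LSeries.convolution_def]
  have h : (Nat.divisors n).card = (Nat.divisorsAntidiagonal n).card := by
    rw [← Nat.map_div_right_divisors, Finset.card_map]
  simp [dv, h]

theorem zeta_sq (z : ℂ) (hz : 1 < z.re) : Summable (fun n : ℕ => ‖(dv n : ℂ) * (n : ℂ) ^ (-z)‖) ∧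
    riemannZeta z ^ 2 = ∑' n : ℕ, (dv n : ℂ) * (n : ℂ) ^ (-z) := by
  have h1 : LSeriesHasSum (1 : ℕ → ℂ) z (riemannZeta z) := LSeriesHasSum_one hz
  have h2 := h1.convolution h1
  have ht : ∀ n : ℕ, LSeries.term (LSeries.convolution (1 : ℕ → ℂ) 1) z n = (dv n : ℂ) * (n : ℂ) ^ (-z) := by
    intro n
    rcases Nat.eq_zero_or_pos n with rfl | hn
    · simp [dv]
    · rw [LSeries.term_of_ne_zero hn.ne', F0_conv, Complex.cpow_neg]
      rfl
  have h3 : HasSum (fun n : ℕ => (dv n : ℂ) * (n : ℂ) ^ (-z)) (riemannZeta z * riemannZeta z) := by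
    have := h2
    unfold LSeriesHasSum at this
    rw [show (LSeries.term (LSeries.convolution (1 : ℕ → ℂ) 1) z) = (fun n : ℕ => (dv n : ℂ) * (n : ℂ) ^ (-z)) from funext ht] at this
    exact this
  refine ⟨h3.summable.norm, ?_⟩
  rw [h3.tsum_eq, sq]

theorem zeta_sq_split (N : ℕ) (τ : ℝ) :
    riemannZeta ((3 / 2 : ℂ) + (τ : ℂ) * Complex.I) ^ 2 = DL (3 / 2) N τ + DH N τ := by
  obtain ⟨hs, he⟩ := zeta_sq ((3 / 2 : ℂ) + (τ : ℂ) * Complex.I) (by
    have : ((3 / 2 : ℂ) + (τ : ℂ) * Complex.I).re = 3 / 2 := by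
      simp
    rw [this]; norm_num)
  have hs' := hs.of_norm
  rw [he]
  have h32 : ((3 / 2 : ℝ) : ℂ) = (3 / 2 : ℂ) := by push_cast; rfl
  have h1 : DL (3 / 2) N τ = ∑' n : ℕ, if n ≤ N then (dv n : ℂ) * (n : ℂ) ^ (-((3 / 2 : ℂ) + (τ : ℂ) * Complex.I)) else 0 := by
    rw [tsum_eq_sum (s := Icc 1 N)]
    · unfold DL
      rw [h32]
      refine Finset.sum_congr rfl fun n hn => ?_
      rw [if_pos (Finset.mem_Icc.mp hn).2]
    · intro n hn
      split_ifs with h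
      · have : n = 0 := by
          by_contra h0
          exact hn (Finset.mem_Icc.mpr ⟨by omega, h⟩)
        subst this
        simp [dv]
      · rfl
  rw [h1, DH, ← Summable.tsum_add]
  · refine tsum_congr fun n => ?_
    by_cases h : n ≤ N
    · rw [if_pos h, if_neg (by omega), add_zero]
    · rw [if_neg h, if_pos (by omega), zero_add]
  · exact summable_of_hasFiniteSupport ((Set.finite_Iic N).subset (by
      intro n hn
      by_contra h
      exact hn (if_neg (by simpa using h))))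
  · refine Summable.of_norm_bounded hs fun n => ?_
    split_ifs
    · exact le_refl _
    · rw [norm_zero]; exact norm_nonneg _

private lemma F0_conj (n : ℕ) (z : ℂ) : (n : ℂ) ^ (starRingEnd ℂ z) = starRingEnd ℂ ((n : ℂ) ^ z) := by
  have h : ((n : ℂ)).arg ≠ Real.pi := by
    rw [Complex.natCast_arg]; exact Real.pi_pos.ne
  have := Complex.cpow_conj (n : ℂ) z h
  simpa using this

private lemma F0_exp (σ τ : ℝ) : (-((σ : ℂ) + ((-τ : ℝ) : ℂ) * Complex.I)) = starRingEnd ℂ (-((σ : ℂ) + (τ : ℂ) * Complex.I)) := by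
  simp

theorem DL_neg (σ : ℝ) (N : ℕ) (τ : ℝ) : ‖DL σ N (-τ)‖ = ‖DL σ N τ‖ := by
  have h : DL σ N (-τ) = starRingEnd ℂ (DL σ N τ) := by
    unfold DL
    rw [map_sum]
    refine Finset.sum_congr rfl fun n _ => ?_
    rw [F0_exp, F0_conj]
    simp
  rw [h]; exact RCLike.norm_conj _

theorem DH_neg (N : ℕ) (τ : ℝ) : ‖DH N (-τ)‖ = ‖DH N τ‖ := by
  have h : DH N (-τ) = starRingEnd ℂ (DH N τ) := by
    unfold DH
    rw [Complex.conj_tsum]
    refine tsum_congr fun n => ?_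
    have h32 : (3 / 2 : ℂ) = ((3 / 2 : ℝ) : ℂ) := by push_cast; rfl
    rw [h32, F0_exp, F0_conj]
    split_ifs <;> simp
  rw [h]; exact RCLike.norm_conj _

theorem DL_cont (σ : ℝ) (N : ℕ) : Continuous (DL σ N) := by
  unfold DL
  refine continuous_finsetSum _ fun n hn => ?_
  have h0 : (n : ℂ) ≠ 0 := by
    have := (Finset.mem_Icc.mp hn).1
    exact_mod_cast (by omega : n ≠ 0)
  refine continuous_const.mul ?_
  refine Continuous.const_cpow (by fun_prop) (Or.inl h0)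

private lemma F0_norm (n : ℕ) (τ : ℝ) : ‖(dv n : ℂ) * (n : ℂ) ^ (-((3 / 2 : ℂ) + (τ : ℂ) * Complex.I))‖ =
    ‖(dv n : ℂ) * (n : ℂ) ^ (-((3 / 2 : ℂ)))‖ := by
  rcases Nat.eq_zero_or_pos n with rfl | hn
  · simp [dv]
  · rw [norm_mul, norm_mul, Complex.norm_natCast_cpow_of_pos hn, Complex.norm_natCast_cpow_of_pos hn]
    simp

private lemma F0_summ : Summable (fun n : ℕ => ‖(dv n : ℂ) * (n : ℂ) ^ (-((3 / 2 : ℂ)))‖) :=
  (zeta_sq (3 / 2 : ℂ) (by norm_num)).1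

/-- `continuous_tsum` with the summable bound `d(n) n^(-3/2)`. -/
theorem DH_cont (N : ℕ) : Continuous (DH N) := by
  unfold DH
  refine continuous_tsum (u := fun n : ℕ => ‖(dv n : ℂ) * (n : ℂ) ^ (-((3 / 2 : ℂ)))‖) ?_ F0_summ ?_
  · intro n
    by_cases h : N < n
    · simp only [if_pos h]
      have h0 : (n : ℂ) ≠ 0 := by
        exact_mod_cast (by omega : n ≠ 0)
      exact continuous_const.mul (Continuous.const_cpow (by fun_prop) (Or.inl h0))
    · simp only [if_neg h]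
      exact continuous_const
  · intro n τ
    split_ifs
    · rw [F0_norm]
    · rw [norm_zero]; exact norm_nonneg _

/-- `DH N` is bounded (by the convergent sum of `d(n) n^(-3/2)`), the limit of the partial sums. -/
theorem DH_lim (N : ℕ) (τ : ℝ) : Filter.Tendsto (fun M : ℕ =>
    ∑ n ∈ Icc 1 M, if N < n then (dv n : ℂ) * (n : ℂ) ^ (-((3 / 2 : ℂ) + (τ : ℂ) * Complex.I)) else 0)
    Filter.atTop (nhds (DH N τ)) ∧ ∃ B : ℝ, ∀ τ : ℝ, ‖DH N τ‖ ≤ B := by
  have hb : ∀ (τ : ℝ) (n : ℕ), ‖(if N < n then (dv n : ℂ) * (n : ℂ) ^ (-((3 / 2 : ℂ) + (τ : ℂ) * Complex.I)) else 0)‖ ≤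
      ‖(dv n : ℂ) * (n : ℂ) ^ (-((3 / 2 : ℂ)))‖ := by
    intro τ n
    split_ifs
    · rw [F0_norm]
    · rw [norm_zero]; exact norm_nonneg _
  have hsm : ∀ τ : ℝ, Summable (fun n : ℕ => (if N < n then (dv n : ℂ) * (n : ℂ) ^ (-((3 / 2 : ℂ) + (τ : ℂ) * Complex.I)) else 0)) :=
    fun τ => Summable.of_norm_bounded F0_summ (hb τ)
  refine ⟨?_, ∑' n : ℕ, ‖(dv n : ℂ) * (n : ℂ) ^ (-((3 / 2 : ℂ)))‖, fun τ => ?_⟩
  · have h1 := (hsm τ).hasSum.tendsto_sum_nat
    have h2 := h1.comp (Filter.tendsto_add_atTop_nat 1)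
    refine h2.congr fun M => ?_
    simp only [Function.comp]
    rw [Finset.range_eq_Ico, Finset.sum_eq_sum_Ico_succ_bot (Nat.succ_pos M)]
    rw [if_neg (Nat.not_lt_zero N), zero_add]
    rfl
  · exact (norm_tsum_le_tsum_norm (Summable.of_nonneg_of_le (fun _ => norm_nonneg _) (hb τ) F0_summ)).trans
      ((Summable.of_nonneg_of_le (fun _ => norm_nonneg _) (hb τ) F0_summ).tsum_le_tsum (hb τ) F0_summ)

end Pool.Agent.Lib.H31P
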