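import Pool.Agent.Lib.H31P.FDefs

/-!
# Chunk F1 (M/L): moving the line of integration past a simple pole
-/

open Finset MeasureTheory

namespace Pool.Agent.Lib.H31P

private theorem F1_K (c : ℝ) (hc : c ≠ 0) (v₀ R : ℝ) :
    ∫ v in (v₀ - R)..(v₀ + R), 1 / ((c : ℂ) + ((v - v₀ : ℝ) : ℂ) * Complex.I) =
      ((2 * Real.arctan (R / c) : ℝ) : ℂ) := by
  have hpos : ∀ s : ℝ, 0 < c ^ 2 + s ^ 2 := fun s => by positivity
  have hne : ∀ s : ℝ, (c : ℂ) + (s : ℂ) * Complex.I ≠ 0 := by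
    intro s h
    have h1 := congrArg Complex.re h
    simp at h1
    exact hc h1
  have hd : ∀ v : ℝ, HasDerivAt (fun v : ℝ => ((Real.arctan ((v - v₀) / c) : ℝ) : ℂ) -
      Complex.I / 2 * ((Real.log (c ^ 2 + (v - v₀) ^ 2) : ℝ) : ℂ))
      (1 / ((c : ℂ) + ((v - v₀ : ℝ) : ℂ) * Complex.I)) v := by
    intro v
    have e1 : HasDerivAt (fun v : ℝ => v - v₀) 1 v := (hasDerivAt_id v).sub_const v₀
    have e2 := (e1.div_const c).arctan
    have e3 : HasDerivAt (fun v : ℝ => c ^ 2 + (v - v₀) ^ 2) (2 * (v - v₀)) v := by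
      have := (e1.pow 2).const_add (c ^ 2)
      refine this.congr_deriv ?_
      norm_num
    have e4 := e3.log (hpos _).ne'
    have e5 := e2.ofReal_comp.sub (e4.ofReal_comp.const_mul (Complex.I / 2))
    refine e5.congr_deriv ?_
    rw [eq_div_iff (hne _)]
    have hp : ((c : ℂ) ^ 2 + ((v : ℂ) - v₀) ^ 2) ≠ 0 := by
      have h1 := (hpos (v - v₀)).ne'
      exact_mod_cast h1
    have hcc : (c : ℂ) ≠ 0 := by exact_mod_cast hc
    have hp2 : (1 + (((v : ℂ) - v₀) / c) ^ 2) ≠ 0 := by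
      intro h
      apply hp
      have : (c : ℂ) ^ 2 + ((v : ℂ) - v₀) ^ 2 = (c : ℂ) ^ 2 * (1 + (((v : ℂ) - v₀) / c) ^ 2) := by
        field_simp
      rw [this, h, mul_zero]
    have h3 : (1 : ℂ) / (1 + (((v : ℂ) - v₀) / c) ^ 2) * (1 / c) = c / ((c : ℂ) ^ 2 + ((v : ℂ) - v₀) ^ 2) := by
      rw [div_mul_div_comm, div_eq_div_iff (mul_ne_zero hp2 hcc) hp]
      field_simp
    push_cast
    rw [h3]
    have h4 : Complex.I / 2 * (2 * ((v : ℂ) - v₀) / ((c : ℂ) ^ 2 + ((v : ℂ) - v₀) ^ 2)) =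
        Complex.I * ((v : ℂ) - v₀) / ((c : ℂ) ^ 2 + ((v : ℂ) - v₀) ^ 2) := by ring
    rw [h4, ← sub_div, div_mul_eq_mul_div, div_eq_one_iff_eq hp]
    linear_combination (-((v : ℂ) - v₀) ^ 2) * Complex.I_sq
  have hint : IntervalIntegrable (fun v : ℝ => 1 / ((c : ℂ) + ((v - v₀ : ℝ) : ℂ) * Complex.I)) volume
      (v₀ - R) (v₀ + R) := by
    apply Continuous.intervalIntegrable
    exact continuous_const.div (by fun_prop) (fun v => hne _)
  rw [intervalIntegral.integral_eq_sub_of_hasDerivAt (fun v _ => hd v) hint]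
  have h1 : v₀ + R - v₀ = R := by ring
  have h2 : v₀ - R - v₀ = -R := by ring
  rw [h1, h2, neg_div, Real.arctan_neg, neg_sq]
  push_cast
  ring

private theorem F1_arctan (c : ℝ) (hc : 0 < c) :
    Filter.Tendsto (fun R : ℝ => ((2 * Real.arctan (R / c) : ℝ) : ℂ)) Filter.atTop (nhds ((Real.pi : ℝ) : ℂ)) := by
  have h1 : Filter.Tendsto (fun R : ℝ => R / c) Filter.atTop Filter.atTop := Filter.tendsto_id.atTop_div_const hc
  have h2 : Filter.Tendsto (fun R : ℝ => Real.arctan (R / c)) Filter.atTop (nhds (Real.pi / 2)) :=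
    (Real.tendsto_arctan_atTop.mono_right nhdsWithin_le_nhds).comp h1
  have h3 := (h2.const_mul 2)
  have h4 : 2 * (Real.pi / 2) = Real.pi := by ring
  rw [h4] at h3
  exact (Complex.continuous_ofReal.tendsto _).comp h3

/-- **Strip lemma.** `F` holomorphic in a neighbourhood of the strip `a ≤ Re w ≤ b` and bounded there, `a < Re w₀ < b`:
`∫ F(b+iv)/(b+iv-w₀) dv - ∫ F(a+iv)/(a+iv-w₀) dv = 2π F(w₀)` (both integrals absolutely convergent by hypothesis).

Proof. `G = dslope F w₀` is holomorphic in the open strip (`DifferentiableOn.dslope`-type lemma: `Complex.differentiableOn_dslope`), `F(w)/(w-w₀) = G(w) + F(w₀)/(w-w₀)` for `w ≠ w₀`. For `R > |Im w₀| + 1` the integral of `G` over the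
boundary of `[a, b] × [-R, R]` is `0` (`Complex.integral_boundary_rect_eq_zero_of_differentiableOn`), so
`i ∫_{-R}^{R} (G(b+iv) - G(a+iv)) dv = ± (∫_a^b G(u+iR) du - ∫_a^b G(u-iR) du)`, and on the horizontal sides `|G| ≤ 2M/(R - |Im w₀|)` (`|F(w)| + |F(w₀)|` over `|w - w₀|`), so this tends to `0` as `R → ∞`. The contribution of `F(w₀)/(w - w₀)`:
`∫_{-R}^{R} dv/(c + i(v - v₀))` with `c = b - Re w₀ > 0`, `v₀ = Im w₀`: real part `∫ c/(c² + (v-v₀)²) → π` (`integral_univ_inv_one_add_sq`/`arctan`), imaginary part `-∫ (v-v₀)/(c²+(v-v₀)²) dv = (1/2) log ((c²+(R+v₀)²)/(c²+(R-v₀)²)) → 0`; for `c = a - Re w₀ < 0` the real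
part tends to `-π`. So the difference tends to `2π F(w₀)`. The integrals over `[-R, R]` tend to the integrals over `ℝ` (`intervalIntegral_tendsto_integral`). -/
theorem strip_shift (a b a' b' : ℝ) (h1 : a' < a) (hab : a < b) (h2 : b < b') (w₀ : ℂ) (hw1 : a < w₀.re) (hw2 : w₀.re < b)
    (F : ℂ → ℂ) (hF : DifferentiableOn ℂ F {w : ℂ | a' < w.re ∧ w.re < b'}) (M : ℝ)
    (hM : ∀ w : ℂ, a ≤ w.re → w.re ≤ b → ‖F w‖ ≤ M)
    (hia : Integrable (fun v : ℝ => F ((a : ℂ) + (v : ℂ) * Complex.I) / ((a : ℂ) + (v : ℂ) * Complex.I - w₀)))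
    (hib : Integrable (fun v : ℝ => F ((b : ℂ) + (v : ℂ) * Complex.I) / ((b : ℂ) + (v : ℂ) * Complex.I - w₀))) :
    (∫ v : ℝ, F ((b : ℂ) + (v : ℂ) * Complex.I) / ((b : ℂ) + (v : ℂ) * Complex.I - w₀)) -
      (∫ v : ℝ, F ((a : ℂ) + (v : ℂ) * Complex.I) / ((a : ℂ) + (v : ℂ) * Complex.I - w₀)) = 2 * Real.pi * F w₀ := by
  have hopen : IsOpen {w : ℂ | a' < w.re ∧ w.re < b'} :=
    (isOpen_lt continuous_const Complex.continuous_re).inter (isOpen_lt Complex.continuous_re continuous_const)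
  have hw0S : w₀ ∈ {w : ℂ | a' < w.re ∧ w.re < b'} := ⟨by linarith, by linarith⟩
  have hG : DifferentiableOn ℂ (dslope F w₀) {w : ℂ | a' < w.re ∧ w.re < b'} :=
    (Complex.differentiableOn_dslope (hopen.mem_nhds hw0S)).2 hF
  have hGne : ∀ w : ℂ, w ≠ w₀ → dslope F w₀ w = F w / (w - w₀) - F w₀ * (1 / (w - w₀)) := by
    intro w hw
    rw [dslope_of_ne _ hw, slope_def_field]
    ring
  have hM0 : ‖F w₀‖ ≤ M := hM w₀ hw1.le hw2.le
  have hMn : 0 ≤ M := (norm_nonneg _).trans hM0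
  have hline : ∀ x v : ℝ, (x : ℂ) + (v : ℂ) * Complex.I - w₀ =
      ((x - w₀.re : ℝ) : ℂ) + ((v - w₀.im : ℝ) : ℂ) * Complex.I := by
    intro x v
    apply Complex.ext <;> simp
  have hseg : ∀ x : ℝ, x ≠ w₀.re →
      Integrable (fun v : ℝ => F ((x : ℂ) + (v : ℂ) * Complex.I) / ((x : ℂ) + (v : ℂ) * Complex.I - w₀)) →
      ∀ R : ℝ, ∫ v in (w₀.im - R)..(w₀.im + R), dslope F w₀ ((x : ℂ) + (v : ℂ) * Complex.I) =
        (∫ v in (w₀.im - R)..(w₀.im + R), F ((x : ℂ) + (v : ℂ) * Complex.I) /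
          ((x : ℂ) + (v : ℂ) * Complex.I - w₀)) - F w₀ * ((2 * Real.arctan (R / (x - w₀.re)) : ℝ) : ℂ) := by
    intro x hx hi R
    have hc : x - w₀.re ≠ 0 := sub_ne_zero.2 hx
    have hne : ∀ v : ℝ, (x : ℂ) + (v : ℂ) * Complex.I ≠ w₀ := by
      intro v h
      have h1 := congrArg Complex.re h
      simp at h1
      exact hx h1
    have h1 : ∀ v : ℝ, dslope F w₀ ((x : ℂ) + (v : ℂ) * Complex.I) =
        F ((x : ℂ) + (v : ℂ) * Complex.I) / ((x : ℂ) + (v : ℂ) * Complex.I - w₀) -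
        F w₀ * (1 / (((x - w₀.re : ℝ) : ℂ) + ((v - w₀.im : ℝ) : ℂ) * Complex.I)) := by
      intro v
      rw [hGne _ (hne v), hline]
    have h2 : IntervalIntegrable (fun v : ℝ => F w₀ * (1 / (((x - w₀.re : ℝ) : ℂ) +
        ((v - w₀.im : ℝ) : ℂ) * Complex.I))) volume (w₀.im - R) (w₀.im + R) := by
      apply Continuous.intervalIntegrable
      refine continuous_const.mul (continuous_const.div (by fun_prop) (fun v => ?_))
      rw [← hline]
      exact sub_ne_zero.2 (hne v)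
    have h3 := intervalIntegral.integral_sub (hi.intervalIntegrable (a := w₀.im - R) (b := w₀.im + R)) h2
    rw [intervalIntegral.integral_congr (fun v _ => h1 v), h3, intervalIntegral.integral_const_mul,
      F1_K _ hc]
  have hrect : ∀ R : ℝ, 0 < R →
      (∫ v in (w₀.im - R)..(w₀.im + R), F ((b : ℂ) + (v : ℂ) * Complex.I) / ((b : ℂ) + (v : ℂ) * Complex.I - w₀)) -
      (∫ v in (w₀.im - R)..(w₀.im + R), F ((a : ℂ) + (v : ℂ) * Complex.I) / ((a : ℂ) + (v : ℂ) * Complex.I - w₀)) =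
      F w₀ * (((2 * Real.arctan (R / (b - w₀.re)) : ℝ) : ℂ) - ((2 * Real.arctan (R / (a - w₀.re)) : ℝ) : ℂ)) +
      Complex.I * ((∫ u in a..b, dslope F w₀ ((u : ℂ) + ((w₀.im - R : ℝ) : ℂ) * Complex.I)) -
        (∫ u in a..b, dslope F w₀ ((u : ℂ) + ((w₀.im + R : ℝ) : ℂ) * Complex.I))) := by
    intro R hR
    have h1 := Complex.integral_boundary_rect_eq_zero_of_differentiableOn (dslope F w₀)
      ⟨a, w₀.im - R⟩ ⟨b, w₀.im + R⟩ (hG.mono (by
        intro w hw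
        have h2 : w.re ∈ Set.uIcc a b := hw.1
        rw [Set.uIcc_of_le hab.le] at h2
        exact ⟨by linarith [h2.1], by linarith [h2.2]⟩))
    simp only [smul_eq_mul] at h1
    rw [hseg b (by linarith [hw2] : b ≠ w₀.re) hib R] at h1
    rw [hseg a (by linarith [hw1] : a ≠ w₀.re) hia R] at h1
    have hI : Complex.I * Complex.I = -1 := Complex.I_mul_I
    generalize (∫ v in (w₀.im - R)..(w₀.im + R), F ((b : ℂ) + (v : ℂ) * Complex.I) /
      ((b : ℂ) + (v : ℂ) * Complex.I - w₀)) = Pb at h1 ⊢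
    generalize (∫ v in (w₀.im - R)..(w₀.im + R), F ((a : ℂ) + (v : ℂ) * Complex.I) /
      ((a : ℂ) + (v : ℂ) * Complex.I - w₀)) = Pa at h1 ⊢
    generalize (∫ u in a..b, dslope F w₀ ((u : ℂ) + ((w₀.im - R : ℝ) : ℂ) * Complex.I)) = Hm at h1 ⊢
    generalize (∫ u in a..b, dslope F w₀ ((u : ℂ) + ((w₀.im + R : ℝ) : ℂ) * Complex.I)) = Hp at h1 ⊢
    generalize ((2 * Real.arctan (R / (b - w₀.re)) : ℝ) : ℂ) = Kb at h1 ⊢
    generalize ((2 * Real.arctan (R / (a - w₀.re)) : ℝ) : ℂ) = Ka at h1 ⊢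
    linear_combination (-Complex.I) * h1 + (Pb - F w₀ * Kb - (Pa - F w₀ * Ka)) * hI
  -- the horizontal sides
  have hhor : ∀ R : ℝ, 0 < R → ∀ y : ℝ, |y - w₀.im| = R →
      ‖∫ u in a..b, dslope F w₀ ((u : ℂ) + (y : ℂ) * Complex.I)‖ ≤ 2 * M / R * |b - a| := by
    intro R hR y hy
    apply intervalIntegral.norm_integral_le_of_norm_le_const
    intro u hu
    rw [Set.uIoc_of_le hab.le] at hu
    have h3 : (u : ℂ) + (y : ℂ) * Complex.I - w₀ = ((u - w₀.re : ℝ) : ℂ) + ((y - w₀.im : ℝ) : ℂ) * Complex.I :=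
      hline u y
    have h4 : R ≤ ‖(u : ℂ) + (y : ℂ) * Complex.I - w₀‖ := by
      rw [← hy]
      have h5 := Complex.abs_im_le_norm ((u : ℂ) + (y : ℂ) * Complex.I - w₀)
      have h6 : ((u : ℂ) + (y : ℂ) * Complex.I - w₀).im = y - w₀.im := by simp
      rwa [h6] at h5
    have h5 : (u : ℂ) + (y : ℂ) * Complex.I ≠ w₀ := by
      intro h
      rw [h, sub_self, norm_zero] at h4
      linarith
    rw [dslope_of_ne _ h5, slope_def_field, norm_div]
    have h6 : ‖F ((u : ℂ) + (y : ℂ) * Complex.I)‖ ≤ M := by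
      apply hM <;> simp
      · exact hu.1.le
      · exact hu.2
    have h7 : ‖F ((u : ℂ) + (y : ℂ) * Complex.I) - F w₀‖ ≤ 2 * M := by
      have := norm_sub_le (F ((u : ℂ) + (y : ℂ) * Complex.I)) (F w₀)
      linarith
    exact div_le_div₀ (by linarith) h7 hR h4
  have hlim0 : Filter.Tendsto (fun R : ℝ => 2 * M / R * |b - a|) Filter.atTop (nhds 0) := by
    have h1 : Filter.Tendsto (fun R : ℝ => 2 * M / R) Filter.atTop (nhds 0) :=
      Filter.Tendsto.const_div_atTop Filter.tendsto_id _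
    have h2 := h1.mul_const |b - a|
    rwa [zero_mul] at h2
  have hHm : Filter.Tendsto (fun R : ℝ => ∫ u in a..b, dslope F w₀ ((u : ℂ) +
      ((w₀.im - R : ℝ) : ℂ) * Complex.I)) Filter.atTop (nhds 0) := by
    apply squeeze_zero_norm' _ hlim0
    filter_upwards [Filter.eventually_gt_atTop (0 : ℝ)] with R hR
    apply hhor R hR
    have : w₀.im - R - w₀.im = -R := by ring
    rw [this, abs_neg, abs_of_pos hR]
  have hHp : Filter.Tendsto (fun R : ℝ => ∫ u in a..b, dslope F w₀ ((u : ℂ) +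
      ((w₀.im + R : ℝ) : ℂ) * Complex.I)) Filter.atTop (nhds 0) := by
    apply squeeze_zero_norm' _ hlim0
    filter_upwards [Filter.eventually_gt_atTop (0 : ℝ)] with R hR
    apply hhor R hR
    have : w₀.im + R - w₀.im = R := by ring
    rw [this, abs_of_pos hR]
  have hKb := F1_arctan (b - w₀.re) (by linarith)
  have hKa : Filter.Tendsto (fun R : ℝ => ((2 * Real.arctan (R / (a - w₀.re)) : ℝ) : ℂ)) Filter.atTop
      (nhds (-((Real.pi : ℝ) : ℂ))) := by
    have h1 := (F1_arctan (w₀.re - a) (by linarith)).neg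
    refine h1.congr (fun R => ?_)
    have h2 : R / (a - w₀.re) = -(R / (w₀.re - a)) := by
      rw [← neg_sub w₀.re a, div_neg]
    rw [h2, Real.arctan_neg]
    push_cast
    ring
  have hbot : Filter.Tendsto (fun R : ℝ => w₀.im - R) Filter.atTop Filter.atBot :=
    Filter.tendsto_atBot_add_const_left _ _ Filter.tendsto_neg_atTop_atBot
  have htop : Filter.Tendsto (fun R : ℝ => w₀.im + R) Filter.atTop Filter.atTop :=
    Filter.tendsto_atTop_add_const_left _ _ Filter.tendsto_id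
  have hPb := intervalIntegral_tendsto_integral hib hbot htop
  have hPa := intervalIntegral_tendsto_integral hia hbot htop
  have hL := hPb.sub hPa
  have hRt := ((hKb.sub hKa).const_mul (F w₀)).add ((hHm.sub hHp).const_mul Complex.I)
  have heq : (fun R : ℝ => (∫ v in (w₀.im - R)..(w₀.im + R), F ((b : ℂ) + (v : ℂ) * Complex.I) /
      ((b : ℂ) + (v : ℂ) * Complex.I - w₀)) - (∫ v in (w₀.im - R)..(w₀.im + R), F ((a : ℂ) + (v : ℂ) * Complex.I) /
      ((a : ℂ) + (v : ℂ) * Complex.I - w₀))) =ᶠ[Filter.atTop] (fun R : ℝ =>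
      F w₀ * (((2 * Real.arctan (R / (b - w₀.re)) : ℝ) : ℂ) - ((2 * Real.arctan (R / (a - w₀.re)) : ℝ) : ℂ)) +
      Complex.I * ((∫ u in a..b, dslope F w₀ ((u : ℂ) + ((w₀.im - R : ℝ) : ℂ) * Complex.I)) -
        (∫ u in a..b, dslope F w₀ ((u : ℂ) + ((w₀.im + R : ℝ) : ℂ) * Complex.I)))) := by
    filter_upwards [Filter.eventually_gt_atTop (0 : ℝ)] with R hR
    exact hrect R hR
  have hfin := tendsto_nhds_unique (hL.congr' heq) hRt
  rw [hfin]
  ring

end Pool.Agent.Lib.H31P
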