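import Pool.Agent.Lib.H31P.FDefs

/-!
# Chunk F2 (M): the factor `(z-1) χ(z)` of the functional equation
-/

open Finset MeasureTheory

namespace Pool.Agent.Lib.H31P

open Pool.Agent.Lib.H68T (gl2_Z)

private theorem f2_two_pi_ne : (2 * Real.pi : ℂ) ≠ 0 := by
  have h : (Real.pi : ℂ) ≠ 0 := Complex.ofReal_ne_zero.mpr Real.pi_ne_zero
  exact mul_ne_zero two_ne_zero h

private theorem f2_gamma_half (τ : ℝ) :
    ‖Complex.Gamma (((1 / 2 : ℝ) : ℂ) - (τ : ℂ) * Complex.I)‖ ^ 2 = Real.pi / Real.cosh (Real.pi * τ) := by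
  set s : ℂ := ((1 / 2 : ℝ) : ℂ) - (τ : ℂ) * Complex.I with hs
  have h1 : (starRingEnd ℂ) s = 1 - s := by
    simp only [hs, map_sub, map_mul, Complex.conj_ofReal, Complex.conj_I]
    push_cast
    ring
  have h2 : ((‖Complex.Gamma s‖ ^ 2 : ℝ) : ℂ) = Complex.Gamma s * Complex.Gamma (1 - s) := by
    rw [← h1, Complex.Gamma_conj, Complex.mul_conj, Complex.normSq_eq_norm_sq]
  rw [Complex.Gamma_mul_Gamma_one_sub] at h2
  have h3 : Complex.sin (Real.pi * s) = ((Real.cosh (Real.pi * τ) : ℝ) : ℂ) := by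
    have h4 : (Real.pi : ℂ) * s = (Real.pi : ℂ) / 2 - ((Real.pi * τ : ℝ) : ℂ) * Complex.I := by
      simp only [hs]
      push_cast
      ring
    rw [h4, Complex.sin_pi_div_two_sub, Complex.cos_mul_I, Complex.ofReal_cosh]
  rw [h3] at h2
  exact_mod_cast h2

private theorem f2_norm_cos_sq (x y : ℝ) :
    ‖Complex.cos ((x : ℂ) - (y : ℂ) * Complex.I)‖ ^ 2 = (Real.cos (2 * x) + Real.cosh (2 * y)) / 2 := by
  have h1 : Complex.cos ((x : ℂ) - (y : ℂ) * Complex.I) =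
      ((Real.cos x * Real.cosh y : ℝ) : ℂ) + ((Real.sin x * Real.sinh y : ℝ) : ℂ) * Complex.I := by
    rw [Complex.cos_sub, Complex.cos_mul_I, Complex.sin_mul_I]
    push_cast
    ring
  rw [h1, ← Complex.normSq_eq_norm_sq, Complex.normSq_add_mul_I, Real.cos_two_mul, Real.cosh_two_mul]
  have h2 := Real.sin_sq_add_cos_sq x
  have h3 := Real.cosh_sq y
  have h4 : Real.sin x ^ 2 = 1 - Real.cos x ^ 2 := by linarith
  rw [mul_pow, mul_pow, h4, h3]
  ring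

private theorem f2_line (σ τ : ℝ) (hσ : Real.cos (Real.pi * (1 - σ)) = 0) :
    ‖XX ((σ : ℂ) + (τ : ℂ) * Complex.I)‖ ^ 2 =
      2 * ((2 * Real.pi) ^ (σ - 1)) ^ 2 * ‖Complex.Gamma (2 - ((σ : ℂ) + (τ : ℂ) * Complex.I))‖ ^ 2 *
        Real.cosh (Real.pi * τ) := by
  have hpi := Real.pi_pos
  have h1 : ‖XX ((σ : ℂ) + (τ : ℂ) * Complex.I)‖ =
      2 * ‖(2 * Real.pi : ℂ) ^ ((σ : ℂ) + (τ : ℂ) * Complex.I - 1)‖ *
        ‖Complex.Gamma (2 - ((σ : ℂ) + (τ : ℂ) * Complex.I))‖ *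
      ‖Complex.cos (Real.pi * (1 - ((σ : ℂ) + (τ : ℂ) * Complex.I)) / 2)‖ := by
    unfold XX
    rw [norm_mul, norm_mul, norm_mul, norm_neg]
    simp
  have h2 : ‖(2 * Real.pi : ℂ) ^ ((σ : ℂ) + (τ : ℂ) * Complex.I - 1)‖ = (2 * Real.pi) ^ (σ - 1) := by
    have h4 : (2 * Real.pi : ℂ) = ((2 * Real.pi : ℝ) : ℂ) := by push_cast; ring
    rw [h4, Complex.norm_cpow_eq_rpow_re_of_pos (by positivity)]
    congr 1
    simp
  have h3 : ‖Complex.cos (Real.pi * (1 - ((σ : ℂ) + (τ : ℂ) * Complex.I)) / 2)‖ ^ 2 =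
      Real.cosh (Real.pi * τ) / 2 := by
    have h4 : (Real.pi * (1 - ((σ : ℂ) + (τ : ℂ) * Complex.I)) / 2 : ℂ) =
        ((Real.pi * (1 - σ) / 2 : ℝ) : ℂ) - ((Real.pi * τ / 2 : ℝ) : ℂ) * Complex.I := by
      push_cast
      ring
    rw [h4, f2_norm_cos_sq]
    have h5 : 2 * (Real.pi * (1 - σ) / 2) = Real.pi * (1 - σ) := by ring
    have h6 : 2 * (Real.pi * τ / 2) = Real.pi * τ := by ring
    rw [h5, h6, hσ, zero_add]
  rw [h1, h2, mul_pow, mul_pow, mul_pow, h3]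
  ring

private theorem f2_norm_gamma_le (s : ℂ) (hs : 0 < s.re) : ‖Complex.Gamma s‖ ≤ Real.Gamma s.re := by
  rw [Complex.Gamma_eq_integral hs, Real.Gamma_eq_integral hs, Complex.GammaIntegral]
  refine (norm_integral_le_integral_norm _).trans (le_of_eq ?_)
  refine setIntegral_congr_fun measurableSet_Ioi fun x hx => ?_
  have hx0 : 0 < x := hx
  rw [norm_mul, Complex.norm_real, Real.norm_eq_abs, abs_of_pos (Real.exp_pos _),
    Complex.norm_cpow_eq_rpow_re_of_pos hx0]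
  congr 2

private theorem f2_norm_cos_le (w : ℂ) : ‖Complex.cos w‖ ≤ Real.exp |w.im| := by
  unfold Complex.cos
  rw [norm_div]
  have h1 : ‖Complex.exp (w * Complex.I)‖ ≤ Real.exp |w.im| := by
    rw [Complex.norm_exp, Real.exp_le_exp]
    simp only [Complex.mul_I_re]
    exact neg_le_abs _
  have h2 : ‖Complex.exp (-w * Complex.I)‖ ≤ Real.exp |w.im| := by
    rw [Complex.norm_exp, Real.exp_le_exp]
    simp only [Complex.mul_I_re, Complex.neg_im, neg_neg]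
    exact le_abs_self _
  have h3 : ‖(2 : ℂ)‖ = 2 := by simp
  rw [h3, div_le_iff₀ (by norm_num)]
  refine (norm_add_le _ _).trans ?_
  linarith

/-- Holomorphic for `Re z < 2` (`Γ(2-z)` has no pole there; `Complex.differentiableAt_Gamma`). -/
theorem XX_diff : DifferentiableOn ℂ XX {z : ℂ | z.re < 2} := by
  intro z hz
  refine DifferentiableAt.differentiableWithinAt ?_
  have hpi : (2 * Real.pi : ℂ) ≠ 0 := f2_two_pi_ne
  have h1 : DifferentiableAt ℂ (fun z : ℂ => (2 * Real.pi : ℂ) ^ (z - 1)) z :=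
    DifferentiableAt.const_cpow (by fun_prop) (Or.inl hpi)
  have h2 : DifferentiableAt ℂ (fun z : ℂ => Complex.Gamma (2 - z)) z := by
    have h3 : DifferentiableAt ℂ Complex.Gamma (2 - z) := by
      refine Complex.differentiableAt_Gamma _ fun m h => ?_
      have h4 := congrArg Complex.re h
      have h5 : (2 : ℝ) - z.re = -(m : ℝ) := by simpa using h4
      have h6 : z.re < 2 := hz
      have h7 : (0 : ℝ) ≤ m := Nat.cast_nonneg m
      linarith
    exact DifferentiableAt.comp (f := fun z : ℂ => 2 - z) z h3 (by fun_prop)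
  have h4 : DifferentiableAt ℂ (fun z : ℂ => Complex.cos (Real.pi * (1 - z) / 2)) z := by fun_prop
  exact (((differentiableAt_const _).mul h1).mul h2).mul h4

/-- **Functional equation**, for `Re z < 1`, `z ≠ 0`.

Proof. `riemannZeta_one_sub` with `s = 1 - z` (`1 - z ≠ -n` because `Re (1-z) > 0`, `1 - z ≠ 1`): `ζ(z) = 2 (2π)^(-(1-z)) Γ(1-z) cos (π(1-z)/2) ζ(1-z)`, and `(z-1) Γ(1-z) = -Γ(2-z)` (`Complex.Gamma_add_one`), `gl2_Z_eq`. -/
theorem XX_fe (z : ℂ) (hz : z.re < 1) (hz0 : z ≠ 0) : gl2_Z z = XX z * riemannZeta (1 - z) := by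
  have hz1 : z ≠ 1 := by
    intro h
    rw [h, Complex.one_re] at hz
    exact lt_irrefl _ hz
  have h1 := riemannZeta_one_sub (s := 1 - z) (by
    intro n h
    have h2 := congrArg Complex.re h
    have h3 : (1 : ℝ) - z.re = -(n : ℝ) := by simpa using h2
    have h4 : (0 : ℝ) ≤ n := Nat.cast_nonneg n
    linarith) (by
    intro h
    apply hz0
    have h5 : z = 1 - (1 - z) := by ring
    rw [h5, h, sub_self])
  rw [sub_sub_cancel] at h1
  have h6 : Complex.Gamma (2 - z) = (1 - z) * Complex.Gamma (1 - z) := by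
    have h7 := Complex.Gamma_add_one (1 - z) (sub_ne_zero.mpr (Ne.symm hz1))
    have h8 : 1 - z + 1 = 2 - z := by ring
    rw [h8] at h7
    exact h7
  rw [Pool.Agent.Lib.H68T.gl2_Z_eq z hz1, h1]
  unfold XX
  rw [h6]
  have h9 : -(1 - z) = z - 1 := by ring
  rw [h9]
  ring

/-- **Exact size on three lines.**

Proof. `|Γ(1/2 + iy)|² = Γ(1/2+iy) Γ(1/2-iy) = π/cosh (πy)` (`Complex.Gamma_mul_Gamma_one_sub`, `sin (π/2 + iπy) = cosh (πy)`, `Complex.Gamma_conj`), `|cos (x + iy)|² = cos² x + sinh² y`. `z = -1/2 + iτ`: `Γ(5/2 - iτ) = (3/2 - iτ)(1/2 - iτ) Γ(1/2 - iτ)`,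
`|cos (3π/4 - iπτ/2)|² = 1/2 + sinh² (πτ/2) = cosh (πτ)/2`, so `|XX z|² = 4 (2π)^(-3) |3/2-iτ|² |1/2-iτ|² (π/cosh)(cosh/2) = |3/2-iτ|² |1/2-iτ|²/(4π²)`. `z = 1/2 + iτ`: `Γ(3/2-iτ) = (1/2-iτ) Γ(1/2-iτ)`: `|XX z|² = 4 (2π)^(-1) |1/2-iτ|² (π/2) = |1/2-iτ|²`.
`z = 3/2 + iτ`: `|XX z|² = 4 (2π) (π/2) = 4π²`. -/
theorem XX_lines (τ : ℝ) :
    ‖XX (((-(1 / 2) : ℝ) : ℂ) + (τ : ℂ) * Complex.I)‖ ≤ (2 + |τ|) ^ 2 ∧
    ‖XX (((1 / 2 : ℝ) : ℂ) + (τ : ℂ) * Complex.I)‖ = ‖((1 / 2 : ℝ) : ℂ) - (τ : ℂ) * Complex.I‖ ∧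
    ‖XX (((3 / 2 : ℝ) : ℂ) + (τ : ℂ) * Complex.I)‖ ≤ 7 := by
  have hpi := Real.pi_pos
  have hpi0 : Real.pi ≠ 0 := hpi.ne'
  have hg := f2_gamma_half τ
  have hch : Real.cosh (Real.pi * τ) ≠ 0 := (Real.cosh_pos _).ne'
  have hI : ∀ x : ℝ, ‖(x : ℂ) - (τ : ℂ) * Complex.I‖ ≤ |x| + |τ| := by
    intro x
    refine (norm_sub_le _ _).trans ?_
    rw [norm_mul, Complex.norm_I, mul_one, Complex.norm_real, Complex.norm_real]
    exact le_refl _
  refine ⟨?_, ?_, ?_⟩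
  · -- the line -1/2
    have h1 := f2_line (-(1 / 2)) τ (by
      have : Real.pi * (1 - -(1 / 2)) = Real.pi + Real.pi / 2 := by ring
      rw [this, Real.cos_add, Real.cos_pi_div_two, Real.sin_pi]
      ring)
    have h2 : (2 : ℂ) - (((-(1 / 2) : ℝ) : ℂ) + (τ : ℂ) * Complex.I) =
        ((3 / 2 : ℝ) : ℂ) - (τ : ℂ) * Complex.I + 1 := by
      push_cast
      ring
    have hne1 : ((3 / 2 : ℝ) : ℂ) - (τ : ℂ) * Complex.I ≠ 0 := by
      intro h
      have := congrArg Complex.re h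
      simp at this
    have h3 : ((3 / 2 : ℝ) : ℂ) - (τ : ℂ) * Complex.I = ((1 / 2 : ℝ) : ℂ) - (τ : ℂ) * Complex.I + 1 := by
      push_cast
      ring
    have hne2 : ((1 / 2 : ℝ) : ℂ) - (τ : ℂ) * Complex.I ≠ 0 := by
      intro h
      have := congrArg Complex.re h
      simp at this
    have h4 : Complex.Gamma (2 - (((-(1 / 2) : ℝ) : ℂ) + (τ : ℂ) * Complex.I)) =
        (((3 / 2 : ℝ) : ℂ) - (τ : ℂ) * Complex.I) * ((((1 / 2 : ℝ) : ℂ) - (τ : ℂ) * Complex.I) *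
          Complex.Gamma (((1 / 2 : ℝ) : ℂ) - (τ : ℂ) * Complex.I)) := by
      rw [h2, Complex.Gamma_add_one _ hne1]
      congr 1
      rw [h3, Complex.Gamma_add_one _ hne2]
    rw [h4, norm_mul, norm_mul, mul_pow, mul_pow, hg] at h1
    set p := ‖((3 / 2 : ℝ) : ℂ) - (τ : ℂ) * Complex.I‖ with hp
    set q := ‖((1 / 2 : ℝ) : ℂ) - (τ : ℂ) * Complex.I‖ with hq
    have hp2 : p ≤ 3 / 2 + |τ| := by
      have := hI (3 / 2)
      rwa [abs_of_pos (by norm_num : (0 : ℝ) < 3 / 2)] at this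
    have hq2 : q ≤ 1 / 2 + |τ| := by
      have := hI (1 / 2)
      rwa [abs_of_pos (by norm_num : (0 : ℝ) < 1 / 2)] at this
    have hr : ((2 * Real.pi) ^ (-(1 / 2) - 1 : ℝ)) ^ 2 = 1 / (2 * Real.pi) ^ 3 := by
      rw [← Real.rpow_natCast, ← Real.rpow_mul (by positivity)]
      have : ((-(1 / 2) - 1 : ℝ)) * ((2 : ℕ) : ℝ) = -((3 : ℕ) : ℝ) := by push_cast; norm_num
      rw [this, Real.rpow_neg (by positivity), Real.rpow_natCast, one_div]
    rw [hr] at h1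
    have h5 : ‖XX (((-(1 / 2) : ℝ) : ℂ) + (τ : ℂ) * Complex.I)‖ ^ 2 = (p * q / (2 * Real.pi)) ^ 2 := by
      rw [h1]
      field_simp
    have h6 : ‖XX (((-(1 / 2) : ℝ) : ℂ) + (τ : ℂ) * Complex.I)‖ = p * q / (2 * Real.pi) := by
      exact (pow_left_inj₀ (norm_nonneg _) (by positivity) (by norm_num)).mp h5
    rw [h6, div_le_iff₀ (by positivity)]
    have hpi3 : 3 < Real.pi := Real.pi_gt_three
    have ht := abs_nonneg τ
    have hpn : 0 ≤ p := norm_nonneg _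
    have hqn : 0 ≤ q := norm_nonneg _
    have h7 : p * q ≤ (2 + |τ|) * (2 + |τ|) := by
      apply mul_le_mul (by linarith) (by linarith) hqn (by linarith)
    have h8 : (2 + |τ|) ^ 2 * 1 ≤ (2 + |τ|) ^ 2 * (2 * Real.pi) := by
      apply mul_le_mul_of_nonneg_left (by linarith) (by positivity)
    nlinarith
  · -- the line 1/2
    have h1 := f2_line (1 / 2) τ (by
      have : Real.pi * (1 - 1 / 2) = Real.pi / 2 := by ring
      rw [this, Real.cos_pi_div_two])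
    have h2 : (2 : ℂ) - (((1 / 2 : ℝ) : ℂ) + (τ : ℂ) * Complex.I) =
        ((1 / 2 : ℝ) : ℂ) - (τ : ℂ) * Complex.I + 1 := by
      push_cast
      ring
    have hne2 : ((1 / 2 : ℝ) : ℂ) - (τ : ℂ) * Complex.I ≠ 0 := by
      intro h
      have := congrArg Complex.re h
      simp at this
    rw [h2, Complex.Gamma_add_one _ hne2, norm_mul, mul_pow, hg] at h1
    set q := ‖((1 / 2 : ℝ) : ℂ) - (τ : ℂ) * Complex.I‖ with hq
    have hr : ((2 * Real.pi) ^ (1 / 2 - 1 : ℝ)) ^ 2 = 1 / (2 * Real.pi) := by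
      rw [← Real.rpow_natCast, ← Real.rpow_mul (by positivity)]
      have : ((1 / 2 - 1 : ℝ)) * ((2 : ℕ) : ℝ) = -1 := by push_cast; norm_num
      rw [this, Real.rpow_neg_one, one_div]
    rw [hr] at h1
    have h5 : ‖XX (((1 / 2 : ℝ) : ℂ) + (τ : ℂ) * Complex.I)‖ ^ 2 = q ^ 2 := by
      rw [h1]
      field_simp
    exact (pow_left_inj₀ (norm_nonneg _) (norm_nonneg _) (by norm_num)).mp h5
  · -- the line 3/2
    have h1 := f2_line (3 / 2) τ (by
      have : Real.pi * (1 - 3 / 2) = -(Real.pi / 2) := by ring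
      rw [this, Real.cos_neg, Real.cos_pi_div_two])
    have h2 : (2 : ℂ) - (((3 / 2 : ℝ) : ℂ) + (τ : ℂ) * Complex.I) =
        ((1 / 2 : ℝ) : ℂ) - (τ : ℂ) * Complex.I := by
      push_cast
      ring
    rw [h2, hg] at h1
    have hr : ((2 * Real.pi) ^ (3 / 2 - 1 : ℝ)) ^ 2 = 2 * Real.pi := by
      rw [← Real.rpow_natCast, ← Real.rpow_mul (by positivity)]
      have : ((3 / 2 - 1 : ℝ)) * ((2 : ℕ) : ℝ) = 1 := by push_cast; norm_num
      rw [this, Real.rpow_one]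
    rw [hr] at h1
    have h5 : ‖XX (((3 / 2 : ℝ) : ℂ) + (τ : ℂ) * Complex.I)‖ ^ 2 = (2 * Real.pi) ^ 2 := by
      rw [h1]
      field_simp
    have h6 : ‖XX (((3 / 2 : ℝ) : ℂ) + (τ : ℂ) * Complex.I)‖ = 2 * Real.pi :=
      (pow_left_inj₀ (norm_nonneg _) (by positivity) (by norm_num)).mp h5
    rw [h6]
    have := Real.pi_lt_d2
    linarith

/-- **Crude growth** in the strip.

Proof. `|(2π)^(z-1)| ≤ (2π)^(3/2)`... (`Re (z-1) ∈ [-3/2, 1/2]`), `|Γ(2-z)| ≤ Γ(Re (2-z))` (integral representation, `Re (2-z) ∈ [1/2, 5/2]`), which is bounded on the compact interval (continuity), `|cos (π(1-z)/2)| ≤ e^(π|τ|/2) ≤ e^(2|τ|)`. -/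
theorem XX_growth : ∃ C : ℝ, 1 ≤ C ∧ ∀ z : ℂ, -(1 / 2) ≤ z.re → z.re ≤ 3 / 2 → ‖XX z‖ ≤ C * Real.exp (2 * |z.im|) := by
  have hpi := Real.pi_pos
  have hpi3 := Real.pi_gt_three
  have hcont : ContinuousOn Real.Gamma (Set.Icc (1 / 2) (5 / 2)) := by
    intro x hx
    refine (Real.differentiableAt_Gamma fun m h => ?_).continuousAt.continuousWithinAt
    have h1 : (1 : ℝ) / 2 ≤ x := hx.1
    have h2 : (0 : ℝ) ≤ m := Nat.cast_nonneg m
    linarith
  obtain ⟨G, hG⟩ := isCompact_Icc.exists_bound_of_continuousOn hcont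
  refine ⟨max 1 (14 * G), le_max_left _ _, fun z h1 h2 => ?_⟩
  have hG0 : 0 ≤ G := (norm_nonneg _).trans (hG 1 ⟨by norm_num, by norm_num⟩)
  have h3 : ‖(2 * Real.pi : ℂ) ^ (z - 1)‖ ≤ 7 := by
    have h4 : (2 * Real.pi : ℂ) = ((2 * Real.pi : ℝ) : ℂ) := by push_cast; ring
    rw [h4, Complex.norm_cpow_eq_rpow_re_of_pos (by positivity)]
    have h5 : (z - 1).re ≤ 1 := by
      rw [Complex.sub_re, Complex.one_re]
      linarith
    have h6 : (2 * Real.pi) ^ (z - 1).re ≤ (2 * Real.pi) ^ (1 : ℝ) :=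
      Real.rpow_le_rpow_of_exponent_le (by linarith) h5
    rw [Real.rpow_one] at h6
    have := Real.pi_lt_d2
    linarith
  have h7 : ‖Complex.Gamma (2 - z)‖ ≤ G := by
    have h8 : (2 - z).re = 2 - z.re := by simp
    have h9 : 0 < (2 - z).re := by rw [h8]; linarith
    refine (f2_norm_gamma_le _ h9).trans ?_
    refine (le_abs_self _).trans ?_
    have := hG (2 - z).re ⟨by rw [h8]; linarith, by rw [h8]; linarith⟩
    rwa [Real.norm_eq_abs] at this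
  have h10 : ‖Complex.cos (Real.pi * (1 - z) / 2)‖ ≤ Real.exp (2 * |z.im|) := by
    refine (f2_norm_cos_le _).trans ?_
    rw [Real.exp_le_exp]
    have h11 : (Real.pi * (1 - z) / 2 : ℂ).im = -(Real.pi * z.im / 2) := by
      have h12 : (Real.pi * (1 - z) / 2 : ℂ) = ((Real.pi / 2 : ℝ) : ℂ) * (1 - z) := by
        push_cast
        ring
      rw [h12, Complex.im_ofReal_mul]
      simp only [Complex.sub_im, Complex.one_im]
      ring
    rw [h11, abs_neg, abs_div, abs_mul, abs_of_pos hpi, abs_of_pos (by norm_num : (0 : ℝ) < 2)]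
    have := Real.pi_lt_d2
    nlinarith [abs_nonneg z.im]
  have h13 : ‖XX z‖ = 2 * ‖(2 * Real.pi : ℂ) ^ (z - 1)‖ * ‖Complex.Gamma (2 - z)‖ *
      ‖Complex.cos (Real.pi * (1 - z) / 2)‖ := by
    unfold XX
    rw [norm_mul, norm_mul, norm_mul, norm_neg]
    simp
  rw [h13]
  have hE : 0 ≤ Real.exp (2 * |z.im|) := (Real.exp_pos _).le
  calc 2 * ‖(2 * Real.pi : ℂ) ^ (z - 1)‖ * ‖Complex.Gamma (2 - z)‖ *
      ‖Complex.cos (Real.pi * (1 - z) / 2)‖ ≤ 2 * 7 * G * Real.exp (2 * |z.im|) := by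
        gcongr
    _ ≤ max 1 (14 * G) * Real.exp (2 * |z.im|) := by
        refine mul_le_mul_of_nonneg_right ?_ hE
        refine le_trans (le_of_eq (by ring)) (le_max_right _ _)

/-- **Crude growth of `(z-1)ζ(z)`**: `Re z ≥ 1/2`: `gl2_Z_bound` (file `H68T/GL2.lean`). `Re z ≤ 1/2`, `|Im z| ≥ 1`: `XX_fe`, `XX_growth` and `ζ(1-z) = gl2_Z(1-z)/(-z)` (`gl2_Z_eq`). `|Im z| ≤ 1`: continuity on a compact set. -/
theorem Z_growth : ∃ C : ℝ, 1 ≤ C ∧ ∀ z : ℂ, -(1 / 2) ≤ z.re → z.re ≤ 5 / 2 → ‖gl2_Z z‖ ≤ C * Real.exp (3 * |z.im|) := by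
  obtain ⟨C₁, hC₁, hX⟩ := XX_growth
  have hK : IsCompact (Set.Icc (-(1 / 2) : ℝ) (5 / 2) ×ℂ Set.Icc (-1 : ℝ) 1) :=
    isCompact_Icc.reProdIm isCompact_Icc
  obtain ⟨C₂, hC₂⟩ := hK.exists_bound_of_continuousOn
    (Pool.Agent.Lib.H68T.gl2_Z_differentiable.continuous.continuousOn)
  have hpoly : ∀ x : ℝ, 4 * (|x| + 3) ^ 2 ≤ 36 * Real.exp |x| := by
    intro x
    have h1 : |x| / 3 + 1 ≤ Real.exp (|x| / 3) := Real.add_one_le_exp _
    have h2 : 0 ≤ |x| := abs_nonneg x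
    have h3 : Real.exp (|x| / 3) ^ 3 = Real.exp |x| := by
      rw [← Real.exp_nat_mul]
      congr 1
      push_cast
      ring
    have h4 : 1 ≤ Real.exp (|x| / 3) := by linarith
    have h5 : (|x| / 3 + 1) ^ 2 ≤ Real.exp (|x| / 3) ^ 2 := by
      apply pow_le_pow_left₀ (by linarith) h1
    have h6 : Real.exp (|x| / 3) ^ 2 ≤ Real.exp (|x| / 3) ^ 3 := pow_le_pow_right₀ h4 (by norm_num)
    nlinarith
  refine ⟨max (36 * C₁) C₂, ?_, fun z h1 h2 => ?_⟩
  · refine le_trans ?_ (le_max_left _ _)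
    linarith
  have hE : 1 ≤ Real.exp (2 * |z.im|) := Real.one_le_exp (by positivity)
  have hE3 : Real.exp (3 * |z.im|) = Real.exp |z.im| * Real.exp (2 * |z.im|) := by
    rw [← Real.exp_add]
    congr 1
    ring
  have hE1 : 0 < Real.exp |z.im| := Real.exp_pos _
  by_cases h3 : 1 / 2 ≤ z.re
  · have h4 := Pool.Agent.Lib.H68T.gl2_Z_bound z h3 (by linarith)
    have h5 := hpoly z.im
    calc ‖gl2_Z z‖ ≤ 36 * Real.exp |z.im| := h4.trans h5
      _ ≤ (36 * C₁) * Real.exp (3 * |z.im|) := by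
        rw [hE3]
        have h6 : Real.exp |z.im| * 1 ≤ Real.exp |z.im| * Real.exp (2 * |z.im|) :=
          mul_le_mul_of_nonneg_left hE hE1.le
        have h7 : (0 : ℝ) ≤ Real.exp |z.im| * Real.exp (2 * |z.im|) := by positivity
        nlinarith
      _ ≤ max (36 * C₁) C₂ * Real.exp (3 * |z.im|) :=
        mul_le_mul_of_nonneg_right (le_max_left _ _) (Real.exp_pos _).le
  · rw [not_le] at h3
    by_cases h4 : 1 ≤ |z.im|
    · have hz0 : z ≠ 0 := by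
        intro h
        rw [h, Complex.zero_im, abs_zero] at h4
        linarith
      have h5 : (1 : ℂ) - z ≠ 1 := by
        intro h
        apply hz0
        have h6 : z = 1 - (1 - z) := by ring
        rw [h6, h, sub_self]
      have h7 := Pool.Agent.Lib.H68T.gl2_Z_eq (1 - z) h5
      have h8 : ‖gl2_Z (1 - z)‖ = ‖z‖ * ‖riemannZeta (1 - z)‖ := by
        rw [h7]
        have h9 : (1 : ℂ) - z - 1 = -z := by ring
        rw [h9, norm_mul, norm_neg]
      have h10 : 1 ≤ ‖z‖ := h4.trans (Complex.abs_im_le_norm z)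
      have h11 : ‖riemannZeta (1 - z)‖ ≤ ‖gl2_Z (1 - z)‖ := by
        rw [h8]
        have := norm_nonneg (riemannZeta (1 - z))
        nlinarith
      have h12 : ‖gl2_Z (1 - z)‖ ≤ 36 * Real.exp |z.im| := by
        have h13 : (1 - z).re = 1 - z.re := by simp
        have h14 : |(1 - z).im| = |z.im| := by simp
        have h15 := Pool.Agent.Lib.H68T.gl2_Z_bound (1 - z) (by rw [h13]; linarith) (by rw [h13]; linarith)
        rw [h14] at h15
        exact h15.trans (hpoly z.im)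
      rw [XX_fe z (by linarith) hz0, norm_mul]
      calc ‖XX z‖ * ‖riemannZeta (1 - z)‖ ≤ (C₁ * Real.exp (2 * |z.im|)) * (36 * Real.exp |z.im|) := by
            apply mul_le_mul (hX z h1 (by linarith)) (h11.trans h12) (norm_nonneg _) (by positivity)
        _ = (36 * C₁) * Real.exp (3 * |z.im|) := by
            rw [hE3]
            ring
        _ ≤ max (36 * C₁) C₂ * Real.exp (3 * |z.im|) :=
            mul_le_mul_of_nonneg_right (le_max_left _ _) (Real.exp_pos _).le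
    · rw [not_le, abs_lt] at h4
      have h5 : ‖gl2_Z z‖ ≤ C₂ := hC₂ z ⟨⟨h1, h2⟩, ⟨h4.1.le, h4.2.le⟩⟩
      have h6 : 1 ≤ Real.exp (3 * |z.im|) := Real.one_le_exp (by positivity)
      have h7 : 0 ≤ C₂ := (norm_nonneg _).trans h5
      calc ‖gl2_Z z‖ ≤ C₂ := h5
        _ ≤ max (36 * C₁) C₂ := le_max_right _ _
        _ ≤ max (36 * C₁) C₂ * Real.exp (3 * |z.im|) :=
          le_mul_of_one_le_right (h7.trans (le_max_right _ _)) h6

end Pool.Agent.Lib.H31P
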