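import Pool.Agent.Lib.H31P.F0
import Pool.Agent.Lib.H31P.F1

/-!
# Chunk F3 (M): approximate functional equation, first half
-/

open Finset MeasureTheory

namespace Pool.Agent.Lib.H31P

open Pool.Agent.Lib.H68T (gl2_Z)

private theorem F3_kk_nonneg (v : ℝ) : 0 ≤ kk v := by
  unfold kk
  positivity

private theorem F3_kk_le (v : ℝ) : kk v ≤ 720 * Real.exp (5 / 2) * Real.exp (-(1 / 2) * v ^ 2) := by
  have h1 : (2 + |v|) ^ 6 / 720 ≤ Real.exp (2 + |v|) := by
    have := Real.pow_div_factorial_le_exp (2 + |v|) (by positivity) 6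
    have h6 : ((Nat.factorial 6 : ℕ) : ℝ) = 720 := by norm_num [Nat.factorial]
    rwa [h6] at this
  have h2 : |v| ≤ 1 / 2 * v ^ 2 + 1 / 2 := by
    have := sq_nonneg (|v| - 1)
    have h3 : |v| ^ 2 = v ^ 2 := sq_abs v
    nlinarith
  unfold kk
  calc (2 + |v|) ^ 6 * Real.exp (-v ^ 2) ≤ (720 * Real.exp (2 + |v|)) * Real.exp (-v ^ 2) :=
        mul_le_mul_of_nonneg_right (by linarith) (Real.exp_pos _).le
    _ ≤ (720 * Real.exp (5 / 2 + 1 / 2 * v ^ 2)) * Real.exp (-v ^ 2) := by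
        refine mul_le_mul_of_nonneg_right ?_ (Real.exp_pos _).le
        refine mul_le_mul_of_nonneg_left (Real.exp_le_exp.2 (by linarith)) (by norm_num)
    _ = _ := by
        have h7 : Real.exp (-(1 / 2) * v ^ 2) = Real.exp (1 / 2 * v ^ 2) * Real.exp (-v ^ 2) := by
          rw [← Real.exp_add]
          exact congrArg Real.exp (by ring)
        rw [h7, Real.exp_add]
        ring

private theorem F3_kk_cont : Continuous kk := by
  unfold kk
  fun_prop

private theorem F3_kk_int : Integrable kk := by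
  have h1 : Integrable (fun v : ℝ => 720 * Real.exp (5 / 2) * Real.exp (-(1 / 2) * v ^ 2)) :=
    (integrable_exp_neg_mul_sq (by norm_num : (0 : ℝ) < 1 / 2)).const_mul _
  refine h1.mono' F3_kk_cont.aestronglyMeasurable (Filter.Eventually.of_forall fun v => ?_)
  rw [Real.norm_eq_abs, abs_of_nonneg (F3_kk_nonneg v)]
  exact F3_kk_le v

private theorem F3_kk_bd (v : ℝ) : kk v ≤ 720 * Real.exp (5 / 2) := by
  refine (F3_kk_le v).trans ?_
  have h1 : Real.exp (-(1 / 2) * v ^ 2) ≤ 1 := by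
    rw [Real.exp_le_one_iff]
    have := sq_nonneg v
    linarith
  calc 720 * Real.exp (5 / 2) * Real.exp (-(1 / 2) * v ^ 2) ≤ 720 * Real.exp (5 / 2) * 1 :=
        mul_le_mul_of_nonneg_left h1 (by positivity)
    _ = _ := mul_one _

private theorem F3_sq_le (v : ℝ) : (2 + |v|) ^ 2 * Real.exp (-v ^ 2) ≤ kk v := by
  unfold kk
  refine mul_le_mul_of_nonneg_right ?_ (Real.exp_pos _).le
  have h : 1 ≤ 2 + |v| := by have := abs_nonneg v; linarith
  exact pow_le_pow_right₀ h (by norm_num)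

private theorem F3_E (s : ℂ) (N : ℕ) (hN : 1 ≤ N) (h1 : 1 ≤ ‖1 - s‖) (w : ℂ) (hw : |w.re| ≤ 1) :
    ‖Complex.exp (w ^ 2) * (N : ℂ) ^ w * ((s + w - 1) / (1 - s)) ^ 2‖ ≤
      Real.exp 1 * (N : ℝ) ^ w.re * kk w.im := by
  have e1 : ‖Complex.exp (w ^ 2)‖ ≤ Real.exp 1 * Real.exp (-w.im ^ 2) := by
    rw [Complex.norm_exp, ← Real.exp_add]
    refine Real.exp_le_exp.2 ?_
    have h2 : (w ^ 2).re = w.re ^ 2 - w.im ^ 2 := by
      rw [sq, Complex.mul_re]
      ring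
    rw [h2]
    have h3 : w.re ^ 2 ≤ 1 := by
      rw [← sq_abs]
      have := abs_nonneg w.re
      nlinarith
    linarith
  have e2 : ‖(N : ℂ) ^ w‖ = (N : ℝ) ^ w.re := Complex.norm_natCast_cpow_of_pos (by omega) w
  have e3 : ‖(s + w - 1) / (1 - s)‖ ≤ 2 + |w.im| := by
    rw [norm_div, div_le_iff₀ (by linarith)]
    have h4 : s + w - 1 = w - (1 - s) := by ring
    rw [h4]
    have h5 := norm_sub_le w (1 - s)
    have h6 : ‖w‖ ≤ 1 + |w.im| := by
      have := Complex.norm_le_abs_re_add_abs_im w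
      linarith
    have h7 : 0 ≤ |w.im| := abs_nonneg _
    nlinarith
  rw [norm_mul, norm_mul, norm_pow, e2]
  have h8 : ‖(s + w - 1) / (1 - s)‖ ^ 2 ≤ (2 + |w.im|) ^ 2 := pow_le_pow_left₀ (norm_nonneg _) e3 2
  have hNp : 0 ≤ (N : ℝ) ^ w.re := by positivity
  calc ‖Complex.exp (w ^ 2)‖ * (N : ℝ) ^ w.re * ‖(s + w - 1) / (1 - s)‖ ^ 2 ≤
        (Real.exp 1 * Real.exp (-w.im ^ 2)) * (N : ℝ) ^ w.re * (2 + |w.im|) ^ 2 := by
        refine mul_le_mul (mul_le_mul_of_nonneg_right e1 hNp) h8 (by positivity) (by positivity)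
    _ = Real.exp 1 * (N : ℝ) ^ w.re * ((2 + |w.im|) ^ 2 * Real.exp (-w.im ^ 2)) := by ring
    _ ≤ _ := mul_le_mul_of_nonneg_left (F3_sq_le _) (by positivity)

/-- The bound with the factor `1 / (2 π)`. -/
private theorem F3_pi : 1 / (2 * Real.pi) * Real.exp 1 ≤ 1 := by
  have h1 := Real.pi_gt_three
  have h2 := Real.exp_one_lt_d9
  rw [div_mul_eq_mul_div, one_mul, div_le_one (by linarith)]
  linarith

private theorem F3_DL_bd (σ : ℝ) (N : ℕ) : ∃ B : ℝ, 0 ≤ B ∧ ∀ τ, ‖DL σ N τ‖ ≤ B := by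
  refine ⟨∑ n ∈ Icc 1 N, dv n * (n : ℝ) ^ (-σ), ?_, fun τ => ?_⟩
  · refine Finset.sum_nonneg fun n _ => ?_
    unfold dv
    positivity
  · unfold DL
    refine (norm_sum_le _ _).trans (Finset.sum_le_sum fun n hn => ?_)
    rw [Finset.mem_Icc] at hn
    rw [norm_mul, Complex.norm_natCast_cpow_of_pos (by omega)]
    have h1 : (-((σ : ℂ) + (τ : ℂ) * Complex.I)).re = -σ := by simp
    rw [h1, Complex.norm_real, Real.norm_eq_abs, abs_of_nonneg (by unfold dv; positivity)]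

/-- **First half.** `s = 1/2 + it`, `|t| ≥ 1`, `N ≥ 1`. (`I₁ = (1/2π) ∫ gl2_Z(s+w)² e^(w²) N^w/((1-s)² w) dv`, `w = 1 + iv`.)

Proof. For `w = 1 + iv`: `gl2_Z(s+w) = (s+w-1) ζ(s+w)` (`gl2_Z_eq`), `ζ(s+w)² = DL (3/2) N (t+v) + DH N (t+v)` (`zeta_sq_split`). The part of `DH`: `|((s+w-1)/(1-s))²| ≤ (1 + (1+|v|)/|1-s|)² ≤ (2+|v|)^2` (`|1-s| ≥ 1`), `|e^(w²)| = e^(1-v²)`, `|N^w| = N`, `|w| ≥ 1`: it is at most
`(e/2π) N ∫ (2+|v|)² e^(-v²) ‖DH N (t+v)‖ dv ≤ N ∫ kk ‖DH‖`. The part of `DL`: `H(w) = ∑_{n ≤ N} d(n) n^(-s-w) N^w e^(w²) ((s+w-1)/(1-s))²` is entire, bounded in `|Re w| ≤ 1` (`e^(u²-v²)` beats the polynomial), so `strip_shift` with `a = -1`, `b = 1`, `w₀ = 0`: the integral over `Re w = 1` is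
`2π H(0) + ` the integral over `Re w = -1`, `H(0) = DL (1/2) N t`, and on `Re w = -1`: `∑ d(n) n^(-s-w) = DL (-1/2) N (t+v)`, `|N^w| = N^(-1)`. Integrability: continuous functions with Gaussian decay (`DL` bounded in `τ`, `DH_lim`). -/
theorem afe_first (N : ℕ) (t : ℝ) (hN : 1 ≤ N) (ht : 1 ≤ |t|) :
    ‖(1 / (2 * Real.pi : ℂ)) * (∫ v : ℝ, gl2_Z (1 / 2 + (t : ℂ) * Complex.I + (1 + (v : ℂ) * Complex.I)) ^ 2 *
        Complex.exp ((1 + (v : ℂ) * Complex.I) ^ 2) * (N : ℂ) ^ (1 + (v : ℂ) * Complex.I) /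
        ((1 - (1 / 2 + (t : ℂ) * Complex.I)) ^ 2) / (1 + (v : ℂ) * Complex.I)) - DL (1 / 2) N t‖ ≤
      1 / N * (∫ v : ℝ, kk v * ‖DL (-(1 / 2)) N (t + v)‖) + N * (∫ v : ℝ, kk v * ‖DH N (t + v)‖) := by
  obtain ⟨s, hs⟩ : ∃ s : ℂ, s = 1 / 2 + (t : ℂ) * Complex.I := ⟨_, rfl⟩
  rw [← hs]
  have h1s : 1 ≤ ‖1 - s‖ := by
    have h2 := Complex.abs_im_le_norm (1 - s)
    have h3 : (1 - s).im = -t := by rw [hs]; simp
    rw [h3, abs_neg] at h2
    linarith
  have h1s0 : (1 : ℂ) - s ≠ 0 := by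
    intro h
    rw [h, norm_zero] at h1s
    linarith
  have hNpos : (0 : ℝ) < N := by exact_mod_cast hN
  have hN0 : (N : ℂ) ≠ 0 := by
    have : N ≠ 0 := by omega
    exact_mod_cast this
  obtain ⟨E, hE⟩ : ∃ E : ℂ → ℂ, E = fun w => Complex.exp (w ^ 2) * (N : ℂ) ^ w *
    ((s + w - 1) / (1 - s)) ^ 2 := ⟨_, rfl⟩
  obtain ⟨P, hP⟩ : ∃ P : ℂ → ℂ, P = fun w => ∑ n ∈ Icc 1 N, (dv n : ℂ) * (n : ℂ) ^ (-(s + w)) :=
    ⟨_, rfl⟩
  have hEd : Differentiable ℂ E := by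
    rw [hE]
    refine ((Complex.differentiable_exp.comp (differentiable_id.pow 2)).mul ?_).mul ?_
    · intro w
      exact (differentiableAt_id).const_cpow (Or.inl hN0)
    · exact (((differentiable_const s).add differentiable_id).sub_const 1 |>.div_const _).pow 2
  have hPd : Differentiable ℂ P := by
    rw [hP]
    refine Differentiable.fun_sum fun n hn => ?_
    rw [Finset.mem_Icc] at hn
    have hn0 : (n : ℂ) ≠ 0 := by
      have : n ≠ 0 := by omega
      exact_mod_cast this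
    refine (differentiable_const _).mul ?_
    intro w
    exact (((differentiableAt_const s).add differentiableAt_id).neg).const_cpow (Or.inl hn0)
  have hEb : ∀ w : ℂ, |w.re| ≤ 1 → ‖E w‖ ≤ Real.exp 1 * (N : ℝ) ^ w.re * kk w.im := by
    intro w hw
    rw [hE]
    exact F3_E s N hN h1s w hw
  have hPline : ∀ σ v : ℝ, P ((σ : ℂ) + (v : ℂ) * Complex.I) = DL (1 / 2 + σ) N (t + v) := by
    intro σ v
    rw [hP]
    unfold DL
    refine Finset.sum_congr rfl fun n _ => ?_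
    congr 2
    rw [hs]
    push_cast
    ring
  have hre : ∀ σ v : ℝ, ((σ : ℂ) + (v : ℂ) * Complex.I).re = σ := by intro σ v; simp
  have him : ∀ σ v : ℝ, ((σ : ℂ) + (v : ℂ) * Complex.I).im = v := by intro σ v; simp
  have hnw : ∀ σ v : ℝ, |σ| = 1 → 1 ≤ ‖(σ : ℂ) + (v : ℂ) * Complex.I‖ := by
    intro σ v hσ
    have := Complex.abs_re_le_norm ((σ : ℂ) + (v : ℂ) * Complex.I)
    rwa [hre, hσ] at this
  have hne : ∀ σ v : ℝ, |σ| = 1 → (σ : ℂ) + (v : ℂ) * Complex.I ≠ 0 := by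
    intro σ v hσ h
    have := hnw σ v hσ
    rw [h, norm_zero] at this
    linarith
  have hline : ∀ σ : ℝ, Continuous fun v : ℝ => (σ : ℂ) + (v : ℂ) * Complex.I := by
    intro σ
    fun_prop
  have hEline : ∀ σ v : ℝ, |σ| = 1 → ‖E ((σ : ℂ) + (v : ℂ) * Complex.I) /
      ((σ : ℂ) + (v : ℂ) * Complex.I)‖ ≤ Real.exp 1 * (N : ℝ) ^ σ * kk v := by
    intro σ v hσ
    rw [norm_div]
    refine (div_le_self (norm_nonneg _) (hnw σ v hσ)).trans ?_
    have := hEb ((σ : ℂ) + (v : ℂ) * Complex.I) (by rw [hre]; exact hσ.le)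
    rwa [hre, him] at this
  -- integrability
  have hint : ∀ (σ : ℝ) (f : ℝ → ℂ) (B : ℝ), |σ| = 1 → Continuous f → (∀ v, ‖f v‖ ≤ B) →
      Integrable (fun v : ℝ => f v * (E ((σ : ℂ) + (v : ℂ) * Complex.I) /
        ((σ : ℂ) + (v : ℂ) * Complex.I))) := by
    intro σ f B hσ hf hB
    have hB0 : 0 ≤ B := (norm_nonneg _).trans (hB 0)
    refine (F3_kk_int.const_mul (B * (Real.exp 1 * (N : ℝ) ^ σ))).mono' ?_
      (Filter.Eventually.of_forall fun v => ?_)
    · exact (hf.mul ((hEd.continuous.comp (hline σ)).div (hline σ) fun v => hne σ v hσ)).aestronglyMeasurable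
    · rw [norm_mul]
      calc ‖f v‖ * ‖E ((σ : ℂ) + (v : ℂ) * Complex.I) / ((σ : ℂ) + (v : ℂ) * Complex.I)‖ ≤
            B * (Real.exp 1 * (N : ℝ) ^ σ * kk v) :=
            mul_le_mul (hB v) (hEline σ v hσ) (norm_nonneg _) hB0
        _ = _ := by ring
  obtain ⟨B1, hB10, hB1⟩ := F3_DL_bd (1 / 2 + 1) N
  obtain ⟨B2, hB20, hB2⟩ := F3_DL_bd (1 / 2 + (-1)) N
  obtain ⟨B3, hB3⟩ := (DH_lim N 0).2
  have hshift : Continuous fun v : ℝ => t + v := by fun_prop
  have habs1 : |(1 : ℝ)| = 1 := abs_one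
  have habs2 : |(-1 : ℝ)| = 1 := by rw [abs_neg, abs_one]
  have i1 := hint 1 (fun v => DL (1 / 2 + 1) N (t + v)) B1 habs1 ((DL_cont _ N).comp hshift)
    fun v => hB1 _
  have i2 := hint (-1) (fun v => DL (1 / 2 + (-1)) N (t + v)) B2 habs2 ((DL_cont _ N).comp hshift)
    fun v => hB2 _
  have i3 := hint 1 (fun v => DH N (t + v)) B3 habs1 ((DH_cont N).comp hshift) fun v => hB3 _
  -- the strip lemma
  have hF : ∀ σ v : ℝ, P ((σ : ℂ) + (v : ℂ) * Complex.I) * E ((σ : ℂ) + (v : ℂ) * Complex.I) /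
      ((σ : ℂ) + (v : ℂ) * Complex.I - 0) = DL (1 / 2 + σ) N (t + v) *
      (E ((σ : ℂ) + (v : ℂ) * Complex.I) / ((σ : ℂ) + (v : ℂ) * Complex.I)) := by
    intro σ v
    rw [hPline, sub_zero, mul_div_assoc]
  have hPb : ∃ B : ℝ, 0 ≤ B ∧ ∀ w : ℂ, -1 ≤ w.re → ‖P w‖ ≤ B := by
    refine ⟨∑ n ∈ Icc 1 N, dv n * (n : ℝ) ^ (1 / 2 : ℝ), ?_, fun w hw => ?_⟩
    · refine Finset.sum_nonneg fun n _ => ?_
      unfold dv
      positivity
    · rw [hP]
      refine (norm_sum_le _ _).trans (Finset.sum_le_sum fun n hn => ?_)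
      rw [Finset.mem_Icc] at hn
      rw [norm_mul, Complex.norm_natCast_cpow_of_pos (by omega)]
      have h1 : (-(s + w)).re = -(1 / 2) - w.re := by
        rw [hs]
        simp
        ring
      rw [h1, Complex.norm_real, Real.norm_eq_abs, abs_of_nonneg (by unfold dv; positivity)]
      refine mul_le_mul_of_nonneg_left ?_ (by unfold dv; positivity)
      exact Real.rpow_le_rpow_of_exponent_le (by exact_mod_cast hn.1) (by linarith)
  obtain ⟨B, hB0, hB⟩ := hPb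
  have hstrip := strip_shift (-1) 1 (-2) 2 (by norm_num) (by norm_num) (by norm_num) 0 (by simp)
    (by simp) (fun w => P w * E w) ((hPd.mul hEd).differentiableOn)
    (B * (Real.exp 1 * N * (720 * Real.exp (5 / 2)))) (by
      intro w hw1 hw2
      rw [norm_mul]
      refine mul_le_mul (hB w hw1) ?_ (norm_nonneg _) hB0
      refine (hEb w (abs_le.2 ⟨hw1, hw2⟩)).trans ?_
      have h2 : (N : ℝ) ^ w.re ≤ N := by
        calc (N : ℝ) ^ w.re ≤ (N : ℝ) ^ (1 : ℝ) :=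
              Real.rpow_le_rpow_of_exponent_le (by exact_mod_cast hN) hw2
          _ = N := Real.rpow_one _
      exact mul_le_mul (mul_le_mul_of_nonneg_left h2 (Real.exp_pos _).le) (F3_kk_bd _)
        (F3_kk_nonneg _) (by positivity)) (by
      simp only [hF]
      exact i2) (by
      simp only [hF]
      exact i1)
  simp only [hF] at hstrip
  have hF0 : P 0 * E 0 = DL (1 / 2) N t := by
    have h2 : E 0 = 1 := by
      rw [hE]
      have h3 : (s + 0 - 1) / (1 - s) = -1 := by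
        rw [add_zero, ← neg_sub 1 s, neg_div, div_self h1s0]
      simp only [h3]
      simp
    have h3 : P 0 = DL (1 / 2) N t := by
      have h4 := hPline 0 0
      simp only [Complex.ofReal_zero, zero_mul, add_zero] at h4
      exact h4
    rw [h2, h3, mul_one]
  rw [hF0] at hstrip
  -- the integral
  have hmain : ∀ v : ℝ, gl2_Z (s + (1 + (v : ℂ) * Complex.I)) ^ 2 *
        Complex.exp ((1 + (v : ℂ) * Complex.I) ^ 2) * (N : ℂ) ^ (1 + (v : ℂ) * Complex.I) /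
        ((1 - s) ^ 2) / (1 + (v : ℂ) * Complex.I) =
      DL (1 / 2 + 1) N (t + v) * (E (((1 : ℝ) : ℂ) + (v : ℂ) * Complex.I) /
        (((1 : ℝ) : ℂ) + (v : ℂ) * Complex.I)) +
      DH N (t + v) * (E (((1 : ℝ) : ℂ) + (v : ℂ) * Complex.I) /
        (((1 : ℝ) : ℂ) + (v : ℂ) * Complex.I)) := by
    intro v
    have hw : s + (1 + (v : ℂ) * Complex.I) = (3 / 2 : ℂ) + ((t + v : ℝ) : ℂ) * Complex.I := by
      rw [hs]
      push_cast
      ring
    have hw1 : s + (1 + (v : ℂ) * Complex.I) ≠ 1 := by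
      intro h
      rw [hw] at h
      have := congrArg Complex.re h
      simp at this
      norm_num at this
    have hsplit := zeta_sq_split N (t + v)
    rw [← hw] at hsplit
    have hhalf : (1 / 2 + 1 : ℝ) = 3 / 2 := by norm_num
    rw [Pool.Agent.Lib.H68T.gl2_Z_eq _ hw1, mul_pow, hsplit, hE, hhalf, Complex.ofReal_one]
    simp only [div_pow]
    ring
  have hI : (∫ v : ℝ, gl2_Z (s + (1 + (v : ℂ) * Complex.I)) ^ 2 *
        Complex.exp ((1 + (v : ℂ) * Complex.I) ^ 2) * (N : ℂ) ^ (1 + (v : ℂ) * Complex.I) /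
        ((1 - s) ^ 2) / (1 + (v : ℂ) * Complex.I)) =
      (∫ v : ℝ, DL (1 / 2 + 1) N (t + v) * (E (((1 : ℝ) : ℂ) + (v : ℂ) * Complex.I) /
        (((1 : ℝ) : ℂ) + (v : ℂ) * Complex.I))) +
      ∫ v : ℝ, DH N (t + v) * (E (((1 : ℝ) : ℂ) + (v : ℂ) * Complex.I) /
        (((1 : ℝ) : ℂ) + (v : ℂ) * Complex.I)) := by
    rw [integral_congr_ae (Filter.Eventually.of_forall hmain)]
    exact integral_add i1 i3
  rw [hI]
  have hpi : (2 * Real.pi : ℂ) ≠ 0 := by
    have := Real.pi_ne_zero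
    exact mul_ne_zero two_ne_zero (by exact_mod_cast this)
  have hsol : (1 / (2 * Real.pi : ℂ)) * ((∫ v : ℝ, DL (1 / 2 + 1) N (t + v) *
        (E (((1 : ℝ) : ℂ) + (v : ℂ) * Complex.I) / (((1 : ℝ) : ℂ) + (v : ℂ) * Complex.I))) +
      ∫ v : ℝ, DH N (t + v) * (E (((1 : ℝ) : ℂ) + (v : ℂ) * Complex.I) /
        (((1 : ℝ) : ℂ) + (v : ℂ) * Complex.I))) - DL (1 / 2) N t =
      (∫ v : ℝ, (1 / (2 * Real.pi : ℂ)) * (DL (1 / 2 + (-1)) N (t + v) *
        (E (((-1 : ℝ) : ℂ) + (v : ℂ) * Complex.I) / (((-1 : ℝ) : ℂ) + (v : ℂ) * Complex.I)))) +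
      ∫ v : ℝ, (1 / (2 * Real.pi : ℂ)) * (DH N (t + v) * (E (((1 : ℝ) : ℂ) + (v : ℂ) * Complex.I) /
        (((1 : ℝ) : ℂ) + (v : ℂ) * Complex.I))) := by
    rw [integral_const_mul, integral_const_mul]
    have h6 := eq_add_of_sub_eq hstrip
    generalize (∫ v : ℝ, DL (1 / 2 + 1) N (t + v) *
        (E (((1 : ℝ) : ℂ) + (v : ℂ) * Complex.I) / (((1 : ℝ) : ℂ) + (v : ℂ) * Complex.I))) = J1 at h6 ⊢
    generalize (∫ v : ℝ, DL (1 / 2 + (-1)) N (t + v) *
        (E (((-1 : ℝ) : ℂ) + (v : ℂ) * Complex.I) / (((-1 : ℝ) : ℂ) + (v : ℂ) * Complex.I))) = J2 at h6 ⊢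
    generalize (∫ v : ℝ, DH N (t + v) * (E (((1 : ℝ) : ℂ) + (v : ℂ) * Complex.I) /
        (((1 : ℝ) : ℂ) + (v : ℂ) * Complex.I))) = J3
    rw [h6]
    field_simp
    ring
  rw [hsol]
  refine (norm_add_le _ _).trans (add_le_add ?_ ?_)
  · rw [← integral_const_mul]
    have hg : Integrable (fun v : ℝ => 1 / (N : ℝ) * (kk v * ‖DL (-(1 / 2)) N (t + v)‖)) := by
      refine Integrable.const_mul ?_ _
      obtain ⟨B', hB'0, hB'⟩ := F3_DL_bd (-(1 / 2)) N
      refine (F3_kk_int.mul_const B').mono' (F3_kk_cont.mul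
        (((DL_cont _ N).comp hshift).norm)).aestronglyMeasurable (Filter.Eventually.of_forall fun v => ?_)
      rw [Real.norm_eq_abs, abs_mul, abs_of_nonneg (F3_kk_nonneg v), abs_of_nonneg (norm_nonneg _)]
      exact mul_le_mul_of_nonneg_left (hB' _) (F3_kk_nonneg v)
    refine norm_integral_le_of_norm_le hg (Filter.Eventually.of_forall fun v => ?_)
    have hhalf : (1 / 2 + (-1) : ℝ) = -(1 / 2) := by norm_num
    rw [hhalf, norm_mul, norm_mul]
    have h7 : ‖(1 / (2 * Real.pi : ℂ))‖ = 1 / (2 * Real.pi) := by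
      rw [norm_div, norm_one, norm_mul, Complex.norm_real, Real.norm_eq_abs, abs_of_pos Real.pi_pos]
      norm_num
    rw [h7]
    have h8 := hEline (-1) v habs2
    have h9 : (N : ℝ) ^ (-1 : ℝ) = 1 / N := by rw [Real.rpow_neg_one, one_div]
    rw [h9] at h8
    have h10 := F3_pi
    have hk := F3_kk_nonneg v
    have hD := norm_nonneg (DL (-(1 / 2)) N (t + v))
    calc 1 / (2 * Real.pi) * (‖DL (-(1 / 2)) N (t + v)‖ * ‖E (((-1 : ℝ) : ℂ) + (v : ℂ) * Complex.I) /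
          (((-1 : ℝ) : ℂ) + (v : ℂ) * Complex.I)‖) ≤
          1 / (2 * Real.pi) * (‖DL (-(1 / 2)) N (t + v)‖ * (Real.exp 1 * (1 / N) * kk v)) := by
          refine mul_le_mul_of_nonneg_left (mul_le_mul_of_nonneg_left h8 hD) ?_
          have := Real.pi_pos
          positivity
      _ = (1 / (2 * Real.pi) * Real.exp 1) * (1 / N * (kk v * ‖DL (-(1 / 2)) N (t + v)‖)) := by ring
      _ ≤ 1 * (1 / N * (kk v * ‖DL (-(1 / 2)) N (t + v)‖)) :=
          mul_le_mul_of_nonneg_right h10 (by positivity)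
      _ = _ := one_mul _
  · rw [← integral_const_mul]
    have hg : Integrable (fun v : ℝ => (N : ℝ) * (kk v * ‖DH N (t + v)‖)) := by
      refine Integrable.const_mul ?_ _
      refine (F3_kk_int.mul_const B3).mono' (F3_kk_cont.mul
        (((DH_cont N).comp hshift).norm)).aestronglyMeasurable (Filter.Eventually.of_forall fun v => ?_)
      rw [Real.norm_eq_abs, abs_mul, abs_of_nonneg (F3_kk_nonneg v), abs_of_nonneg (norm_nonneg _)]
      exact mul_le_mul_of_nonneg_left (hB3 _) (F3_kk_nonneg v)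
    refine norm_integral_le_of_norm_le hg (Filter.Eventually.of_forall fun v => ?_)
    rw [norm_mul, norm_mul]
    have h7 : ‖(1 / (2 * Real.pi : ℂ))‖ = 1 / (2 * Real.pi) := by
      rw [norm_div, norm_one, norm_mul, Complex.norm_real, Real.norm_eq_abs, abs_of_pos Real.pi_pos]
      norm_num
    rw [h7]
    have h8 := hEline 1 v habs1
    rw [Real.rpow_one] at h8
    have h10 := F3_pi
    have hk := F3_kk_nonneg v
    have hD := norm_nonneg (DH N (t + v))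
    calc 1 / (2 * Real.pi) * (‖DH N (t + v)‖ * ‖E (((1 : ℝ) : ℂ) + (v : ℂ) * Complex.I) /
          (((1 : ℝ) : ℂ) + (v : ℂ) * Complex.I)‖) ≤
          1 / (2 * Real.pi) * (‖DH N (t + v)‖ * (Real.exp 1 * N * kk v)) := by
          refine mul_le_mul_of_nonneg_left (mul_le_mul_of_nonneg_left h8 hD) ?_
          have := Real.pi_pos
          positivity
      _ = (1 / (2 * Real.pi) * Real.exp 1) * (N * (kk v * ‖DH N (t + v)‖)) := by ring
      _ ≤ 1 * (N * (kk v * ‖DH N (t + v)‖)) :=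
          mul_le_mul_of_nonneg_right h10 (by positivity)
      _ = _ := one_mul _

end Pool.Agent.Lib.H31P
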