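import Pool.Agent.Lib.H31P.F0
import Pool.Agent.Lib.H31P.F1
import Pool.Agent.Lib.H31P.F2

/-!
# Chunk F4 (M/L): approximate functional equation, second half
-/

open Finset MeasureTheory

namespace Pool.Agent.Lib.H31P

open Pool.Agent.Lib.H68T (gl2_Z)

private noncomputable def f4P (N : ℕ) (t : ℝ) (w : ℂ) : ℂ :=
  ∑ n ∈ Icc 1 N, (dv n : ℂ) * (n : ℂ) ^ (1 / 2 + (t : ℂ) * Complex.I + w - 1)

private noncomputable def f4G (N : ℕ) (t : ℝ) (w : ℂ) : ℂ :=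
  XX (1 / 2 + (t : ℂ) * Complex.I + w) ^ 2 * Complex.exp (w ^ 2) * (N : ℂ) ^ w /
    (1 - (1 / 2 + (t : ℂ) * Complex.I)) ^ 2

private theorem f4P_line (N : ℕ) (t σ v : ℝ) :
    f4P N t ((σ : ℂ) + (v : ℂ) * Complex.I) = DL (1 / 2 - σ) N (-(t + v)) := by
  unfold f4P DL
  refine sum_congr rfl fun n _ => ?_
  congr 2
  push_cast
  ring

private theorem f4P_zero (N : ℕ) (t : ℝ) : f4P N t 0 = DL (1 / 2) N (-t) := by
  unfold f4P DL
  refine sum_congr rfl fun n _ => ?_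
  congr 2
  push_cast
  ring

private theorem f4P_diff (N : ℕ) (t : ℝ) : Differentiable ℂ (f4P N t) := by
  unfold f4P
  refine Differentiable.fun_sum fun n hn => ?_
  have hn0 : (n : ℂ) ≠ 0 := by
    have := (mem_Icc.1 hn).1
    exact_mod_cast (by omega : n ≠ 0)
  refine (differentiable_const _).mul ?_
  refine Differentiable.const_cpow (by fun_prop) (Or.inl hn0)

private theorem f4P_bd (N : ℕ) (t : ℝ) (w : ℂ) (hw : w.re ≤ 1) :
    ‖f4P N t w‖ ≤ ∑ n ∈ Icc 1 N, dv n * n := by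
  unfold f4P
  refine (norm_sum_le _ _).trans (sum_le_sum fun n hn => ?_)
  have hn1 := (mem_Icc.1 hn).1
  have hn1' : (1 : ℝ) ≤ n := by exact_mod_cast hn1
  have hdv : 0 ≤ dv n := Nat.cast_nonneg _
  rw [norm_mul, Complex.norm_natCast_cpow_of_pos (by omega), Complex.norm_real,
    Real.norm_of_nonneg hdv]
  refine mul_le_mul_of_nonneg_left ?_ hdv
  refine (Real.rpow_le_rpow_of_exponent_le hn1' (y := (1 / 2 + (t : ℂ) * Complex.I + w - 1).re) (z := 1) ?_).trans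
    (le_of_eq (Real.rpow_one _))
  simp
  linarith

private theorem f4_gauss : Integrable (fun v : ℝ => Real.exp (-(1 / 2) * v ^ 2)) :=
  integrable_exp_neg_mul_sq (by norm_num)

private theorem f4_kk0 (v : ℝ) : 0 ≤ kk v := by
  unfold kk
  positivity

private theorem f4_kk_cont : Continuous kk := by
  unfold kk
  fun_prop

private theorem f4_kk_le (v : ℝ) : kk v ≤ 720 * Real.exp (5 / 2) * Real.exp (-(1 / 2) * v ^ 2) := by
  unfold kk
  have h2 := Real.pow_div_factorial_le_exp (2 + |v|) (by positivity) 6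
  have h3 : ((6 : ℕ).factorial : ℝ) = 720 := by norm_num [Nat.factorial]
  rw [h3, div_le_iff₀ (by norm_num)] at h2
  have h4 : Real.exp (2 + |v|) * Real.exp (-v ^ 2) ≤
      Real.exp (5 / 2) * Real.exp (-(1 / 2) * v ^ 2) := by
    rw [← Real.exp_add, ← Real.exp_add]
    refine Real.exp_le_exp.2 ?_
    nlinarith [sq_nonneg (|v| - 1), sq_abs v]
  calc (2 + |v|) ^ 6 * Real.exp (-v ^ 2) ≤ (Real.exp (2 + |v|) * 720) * Real.exp (-v ^ 2) :=
        mul_le_mul_of_nonneg_right h2 (Real.exp_pos _).le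
    _ = 720 * (Real.exp (2 + |v|) * Real.exp (-v ^ 2)) := by ring
    _ ≤ 720 * (Real.exp (5 / 2) * Real.exp (-(1 / 2) * v ^ 2)) := by linarith
    _ = _ := by ring

/-- A continuous bounded function is integrable against `kk`. -/
private theorem f4_kk_int (g : ℝ → ℝ) (hg : Continuous g) (B : ℝ) (hB : ∀ v, |g v| ≤ B) :
    Integrable (fun v => kk v * g v) := by
  refine Integrable.mono' (f4_gauss.const_mul (720 * Real.exp (5 / 2) * B))
    (f4_kk_cont.mul hg).aestronglyMeasurable (Filter.Eventually.of_forall fun v => ?_)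
  rw [norm_mul, Real.norm_of_nonneg (f4_kk0 v), Real.norm_eq_abs]
  calc kk v * |g v| ≤ (720 * Real.exp (5 / 2) * Real.exp (-(1 / 2) * v ^ 2)) * B :=
        mul_le_mul (f4_kk_le v) (hB v) (abs_nonneg _) (by positivity)
    _ = _ := by ring

private theorem f4G_diff (N : ℕ) (t : ℝ) (hN : 1 ≤ N) :
    DifferentiableOn ℂ (f4G N t) {w : ℂ | w.re < 3 / 2} := by
  unfold f4G
  have hN0 : (N : ℂ) ≠ 0 := by exact_mod_cast (by omega : N ≠ 0)
  refine DifferentiableOn.div_const ?_ _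
  refine DifferentiableOn.mul (DifferentiableOn.mul ?_ ?_) ?_
  · refine DifferentiableOn.pow ?_ 2
    refine XX_diff.comp (t := {w : ℂ | w.re < 2}) ?_ ?_
    · fun_prop
    · intro w hw
      have hw' : w.re < 3 / 2 := hw
      simp only [Set.mem_ofPred_eq]
      simp
      linarith
  · fun_prop
  · exact (Differentiable.const_cpow differentiable_id (Or.inl hN0)).differentiableOn

private theorem f4_exp_norm (w : ℂ) : ‖Complex.exp (w ^ 2)‖ = Real.exp (w.re ^ 2 - w.im ^ 2) := by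
  rw [Complex.norm_exp]
  congr 1
  rw [sq, Complex.mul_re]
  ring

private theorem f4G_norm (N : ℕ) (t : ℝ) (hN : 1 ≤ N) (w : ℂ) :
    ‖f4G N t w‖ = ‖XX (1 / 2 + (t : ℂ) * Complex.I + w)‖ ^ 2 * Real.exp (w.re ^ 2 - w.im ^ 2) *
      (N : ℝ) ^ w.re / ‖1 - (1 / 2 + (t : ℂ) * Complex.I)‖ ^ 2 := by
  unfold f4G
  rw [norm_div, norm_mul, norm_mul, norm_pow, norm_pow, f4_exp_norm,
    Complex.norm_natCast_cpow_of_pos (by omega)]

private theorem f4_1s (t T : ℝ) (ht : T ≤ |t|) :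
    T ≤ ‖1 - (1 / 2 + (t : ℂ) * Complex.I)‖ := by
  have h1 := Complex.abs_im_le_norm (1 - (1 / 2 + (t : ℂ) * Complex.I))
  have h2 : (1 - (1 / 2 + (t : ℂ) * Complex.I)).im = -t := by simp
  rw [h2, abs_neg] at h1
  exact ht.trans h1

/-- The crude bound in the strip. -/
private theorem f4G_bd (N : ℕ) (t : ℝ) (hN : 1 ≤ N) (ht : 1 ≤ |t|) : ∃ C : ℝ, 0 ≤ C ∧
    ∀ w : ℂ, -1 ≤ w.re → w.re ≤ 1 → ‖f4G N t w‖ ≤ C * Real.exp (-(1 / 2) * w.im ^ 2) := by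
  obtain ⟨C, hC1, hC⟩ := XX_growth
  refine ⟨C ^ 2 * Real.exp (4 * |t| + 9) * N, by positivity, fun w h1 h2 => ?_⟩
  rw [f4G_norm N t hN w]
  have hs := f4_1s t 1 ht
  have hs2 : (1 : ℝ) ≤ ‖1 - (1 / 2 + (t : ℂ) * Complex.I)‖ ^ 2 := by nlinarith
  have hN1 : (1 : ℝ) ≤ N := by exact_mod_cast hN
  have hNw : (N : ℝ) ^ w.re ≤ N :=
    (Real.rpow_le_rpow_of_exponent_le hN1 h2).trans (le_of_eq (Real.rpow_one _))
  have hre : (1 / 2 + (t : ℂ) * Complex.I + w).re = 1 / 2 + w.re := by simp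
  have him : (1 / 2 + (t : ℂ) * Complex.I + w).im = t + w.im := by simp
  have hX := hC (1 / 2 + (t : ℂ) * Complex.I + w) (by rw [hre]; linarith) (by rw [hre]; linarith)
  rw [him] at hX
  have hX2 : ‖XX (1 / 2 + (t : ℂ) * Complex.I + w)‖ ^ 2 ≤ C ^ 2 * Real.exp (4 * |t| + 4 * |w.im|) := by
    have h3 : ‖XX (1 / 2 + (t : ℂ) * Complex.I + w)‖ ^ 2 ≤ (C * Real.exp (2 * |t + w.im|)) ^ 2 :=
      pow_le_pow_left₀ (norm_nonneg _) hX 2
    refine h3.trans ?_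
    rw [mul_pow, ← Real.exp_nat_mul]
    refine mul_le_mul_of_nonneg_left (Real.exp_le_exp.2 ?_) (by positivity)
    have := abs_add_le t w.im
    push_cast
    linarith
  have hre2 : w.re ^ 2 ≤ 1 := by nlinarith
  have hE : Real.exp (4 * |t| + 4 * |w.im|) * Real.exp (w.re ^ 2 - w.im ^ 2) ≤
      Real.exp (4 * |t| + 9) * Real.exp (-(1 / 2) * w.im ^ 2) := by
    rw [← Real.exp_add, ← Real.exp_add]
    refine Real.exp_le_exp.2 ?_
    nlinarith [sq_nonneg (|w.im| - 4), sq_abs w.im]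
  have hnum : ‖XX (1 / 2 + (t : ℂ) * Complex.I + w)‖ ^ 2 * Real.exp (w.re ^ 2 - w.im ^ 2) *
      (N : ℝ) ^ w.re ≤ C ^ 2 * Real.exp (4 * |t| + 9) * N * Real.exp (-(1 / 2) * w.im ^ 2) := by
    calc ‖XX (1 / 2 + (t : ℂ) * Complex.I + w)‖ ^ 2 * Real.exp (w.re ^ 2 - w.im ^ 2) *
        (N : ℝ) ^ w.re ≤ (C ^ 2 * Real.exp (4 * |t| + 4 * |w.im|)) * Real.exp (w.re ^ 2 - w.im ^ 2) * N := by
          refine mul_le_mul (mul_le_mul_of_nonneg_right hX2 (Real.exp_pos _).le) hNw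
            (by positivity) (by positivity)
      _ = C ^ 2 * (Real.exp (4 * |t| + 4 * |w.im|) * Real.exp (w.re ^ 2 - w.im ^ 2)) * N := by ring
      _ ≤ C ^ 2 * (Real.exp (4 * |t| + 9) * Real.exp (-(1 / 2) * w.im ^ 2)) * N := by
          refine mul_le_mul_of_nonneg_right (mul_le_mul_of_nonneg_left hE (by positivity)) (by positivity)
      _ = _ := by ring
  refine le_trans (div_le_self (by positivity) hs2) hnum

/-- Integrability on a line. -/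
private theorem f4_int (N : ℕ) (t : ℝ) (hN : 1 ≤ N) (ht : 1 ≤ |t|) (σ : ℝ) (hσ : |σ| = 1)
    (g : ℝ → ℂ) (hg : Continuous g) (B : ℝ) (hB : ∀ v, ‖g v‖ ≤ B) :
    Integrable (fun v : ℝ => f4G N t ((σ : ℂ) + (v : ℂ) * Complex.I) * g v /
      ((σ : ℂ) + (v : ℂ) * Complex.I - 0)) := by
  obtain ⟨C, hC0, hC⟩ := f4G_bd N t hN ht
  have hσ1 : -1 ≤ σ ∧ σ ≤ 1 := abs_le.1 hσ.le
  have hB0 : 0 ≤ B := (norm_nonneg _).trans (hB 0)
  have hre : ∀ v : ℝ, ((σ : ℂ) + (v : ℂ) * Complex.I).re = σ := by intro v; simp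
  have him : ∀ v : ℝ, ((σ : ℂ) + (v : ℂ) * Complex.I).im = v := by intro v; simp
  have hw1 : ∀ v : ℝ, 1 ≤ ‖(σ : ℂ) + (v : ℂ) * Complex.I - 0‖ := by
    intro v
    have h1 := Complex.abs_re_le_norm ((σ : ℂ) + (v : ℂ) * Complex.I)
    rw [hre, hσ] at h1
    rw [sub_zero]
    exact h1
  refine Integrable.mono' (f4_gauss.const_mul (C * B)) ?_ (Filter.Eventually.of_forall fun v => ?_)
  · refine Continuous.aestronglyMeasurable ?_
    refine Continuous.div₀ ?_ (by fun_prop) ?_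
    · refine Continuous.mul ?_ hg
      have h1 := (f4G_diff N t hN).continuousOn
      rw [← continuousOn_univ]
      refine h1.comp (by fun_prop) ?_
      intro v _
      simp only [Set.mem_ofPred_eq]
      rw [hre]
      linarith [hσ1.2]
    · intro v h0
      have := hw1 v
      rw [h0, norm_zero] at this
      linarith
  · rw [norm_div, norm_mul]
    have h1 := hC ((σ : ℂ) + (v : ℂ) * Complex.I) (by rw [hre]; exact hσ1.1) (by rw [hre]; exact hσ1.2)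
    rw [him] at h1
    calc ‖f4G N t ((σ : ℂ) + (v : ℂ) * Complex.I)‖ * ‖g v‖ / ‖(σ : ℂ) + (v : ℂ) * Complex.I - 0‖ ≤
        ‖f4G N t ((σ : ℂ) + (v : ℂ) * Complex.I)‖ * ‖g v‖ := div_le_self (by positivity) (hw1 v)
      _ ≤ (C * Real.exp (-(1 / 2) * v ^ 2)) * B :=
          mul_le_mul h1 (hB v) (norm_nonneg _) (by positivity)
      _ = _ := by ring

private theorem f4_exp_one : Real.exp 1 ≤ 3 := by
  have := Real.exp_one_lt_d9
  linarith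

/-- The size of `f4G` on the line `-1`. -/
private theorem f4G_m1 (N : ℕ) (t T : ℝ) (hN : 1 ≤ N) (hT : 1 ≤ T) (ht : T ≤ |t|) (ht2 : |t| ≤ 2 * T) (v : ℝ) :
    ‖f4G N t (((-1 : ℝ) : ℂ) + (v : ℂ) * Complex.I)‖ ≤ 12 * (T ^ 2 / N) * kk v := by
  rw [f4G_norm N t hN]
  have hN1 : (1 : ℝ) ≤ N := by exact_mod_cast hN
  have hN0 : (0 : ℝ) < N := by linarith
  have hT0 : 0 < T := by linarith
  have hre : (((-1 : ℝ) : ℂ) + (v : ℂ) * Complex.I).re = -1 := by simp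
  have him : (((-1 : ℝ) : ℂ) + (v : ℂ) * Complex.I).im = v := by simp
  have harg : 1 / 2 + (t : ℂ) * Complex.I + (((-1 : ℝ) : ℂ) + (v : ℂ) * Complex.I) =
      (((-(1 / 2) : ℝ) : ℂ) + ((t + v : ℝ) : ℂ) * Complex.I) := by
    push_cast
    ring
  rw [hre, him, harg]
  have hX := (XX_lines (t + v)).1
  have hs := f4_1s t T ht
  have hs2 : T ^ 2 ≤ ‖1 - (1 / 2 + (t : ℂ) * Complex.I)‖ ^ 2 := pow_le_pow_left₀ (by linarith) hs 2
  have hb : 2 + |t + v| ≤ 2 * T * (2 + |v|) := by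
    have h1 := abs_add_le t v
    have h2 : |v| ≤ 2 * T * |v| := by nlinarith [abs_nonneg v]
    nlinarith
  have hX4 : ‖XX (((-(1 / 2) : ℝ) : ℂ) + ((t + v : ℝ) : ℂ) * Complex.I)‖ ^ 2 ≤
      16 * T ^ 4 * (2 + |v|) ^ 4 := by
    calc ‖XX (((-(1 / 2) : ℝ) : ℂ) + ((t + v : ℝ) : ℂ) * Complex.I)‖ ^ 2 ≤ ((2 + |t + v|) ^ 2) ^ 2 :=
          pow_le_pow_left₀ (norm_nonneg _) hX 2
      _ = (2 + |t + v|) ^ 4 := by ring
      _ ≤ (2 * T * (2 + |v|)) ^ 4 := pow_le_pow_left₀ (by positivity) hb 4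
      _ = _ := by ring
  have hexp : Real.exp ((-1) ^ 2 - v ^ 2) ≤ 3 * Real.exp (-v ^ 2) := by
    have h1 : (-1 : ℝ) ^ 2 - v ^ 2 = 1 + -v ^ 2 := by ring
    rw [h1, Real.exp_add]
    exact mul_le_mul_of_nonneg_right f4_exp_one (Real.exp_pos _).le
  have hNr : (N : ℝ) ^ (-1 : ℝ) = 1 / N := by
    rw [Real.rpow_neg_one, one_div]
  rw [hNr, div_le_iff₀ (lt_of_lt_of_le (by positivity) hs2)]
  have hkk : 4 * ((2 + |v|) ^ 4 * Real.exp (-v ^ 2)) ≤ kk v := by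
    unfold kk
    have h1 : (4 : ℝ) ≤ (2 + |v|) ^ 2 := by nlinarith [abs_nonneg v]
    have h2 : (2 + |v|) ^ 6 * Real.exp (-v ^ 2) = (2 + |v|) ^ 2 * ((2 + |v|) ^ 4 * Real.exp (-v ^ 2)) := by ring
    rw [h2]
    exact mul_le_mul_of_nonneg_right h1 (by positivity)
  have hpos : 0 ≤ (2 + |v|) ^ 4 * Real.exp (-v ^ 2) := by positivity
  calc ‖XX (((-(1 / 2) : ℝ) : ℂ) + ((t + v : ℝ) : ℂ) * Complex.I)‖ ^ 2 * Real.exp ((-1) ^ 2 - v ^ 2) *
      (1 / N) ≤ (16 * T ^ 4 * (2 + |v|) ^ 4) * (3 * Real.exp (-v ^ 2)) * (1 / N) := by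
        refine mul_le_mul_of_nonneg_right ?_ (by positivity)
        exact mul_le_mul hX4 hexp (Real.exp_pos _).le (by positivity)
    _ = 12 * (T ^ 2 / N) * (4 * ((2 + |v|) ^ 4 * Real.exp (-v ^ 2))) * T ^ 2 := by
        field_simp
        ring
    _ ≤ 12 * (T ^ 2 / N) * kk v * T ^ 2 := by
        refine mul_le_mul_of_nonneg_right ?_ (by positivity)
        exact mul_le_mul_of_nonneg_left hkk (by positivity)
    _ ≤ 12 * (T ^ 2 / N) * kk v * ‖1 - (1 / 2 + (t : ℂ) * Complex.I)‖ ^ 2 := by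
        refine mul_le_mul_of_nonneg_left hs2 ?_
        have := f4_kk0 v
        positivity

/-- The size of `f4G` on the line `1`. -/
private theorem f4G_p1 (N : ℕ) (t T : ℝ) (hN : 1 ≤ N) (hT : 1 ≤ T) (ht : T ≤ |t|) (v : ℝ) :
    ‖f4G N t (((1 : ℝ) : ℂ) + (v : ℂ) * Complex.I)‖ ≤ 3 * (N / T ^ 2) * kk v := by
  rw [f4G_norm N t hN]
  have hN1 : (1 : ℝ) ≤ N := by exact_mod_cast hN
  have hN0 : (0 : ℝ) < N := by linarith
  have hT0 : 0 < T := by linarith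
  have hre : (((1 : ℝ) : ℂ) + (v : ℂ) * Complex.I).re = 1 := by simp
  have him : (((1 : ℝ) : ℂ) + (v : ℂ) * Complex.I).im = v := by simp
  have harg : 1 / 2 + (t : ℂ) * Complex.I + (((1 : ℝ) : ℂ) + (v : ℂ) * Complex.I) =
      (((3 / 2 : ℝ) : ℂ) + ((t + v : ℝ) : ℂ) * Complex.I) := by
    push_cast
    ring
  rw [hre, him, harg]
  have hX := (XX_lines (t + v)).2.2
  have hs := f4_1s t T ht
  have hs2 : T ^ 2 ≤ ‖1 - (1 / 2 + (t : ℂ) * Complex.I)‖ ^ 2 := pow_le_pow_left₀ (by linarith) hs 2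
  have hX4 : ‖XX (((3 / 2 : ℝ) : ℂ) + ((t + v : ℝ) : ℂ) * Complex.I)‖ ^ 2 ≤ 49 := by
    calc ‖XX (((3 / 2 : ℝ) : ℂ) + ((t + v : ℝ) : ℂ) * Complex.I)‖ ^ 2 ≤ 7 ^ 2 :=
          pow_le_pow_left₀ (norm_nonneg _) hX 2
      _ = 49 := by norm_num
  have hexp : Real.exp (1 ^ 2 - v ^ 2) ≤ 3 * Real.exp (-v ^ 2) := by
    have h1 : (1 : ℝ) ^ 2 - v ^ 2 = 1 + -v ^ 2 := by ring
    rw [h1, Real.exp_add]
    exact mul_le_mul_of_nonneg_right f4_exp_one (Real.exp_pos _).le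
  rw [Real.rpow_one, div_le_iff₀ (lt_of_lt_of_le (by positivity) hs2)]
  have hkk : 64 * Real.exp (-v ^ 2) ≤ kk v := by
    unfold kk
    have h1 : (2 : ℝ) ^ 6 ≤ (2 + |v|) ^ 6 :=
      pow_le_pow_left₀ (by norm_num) (by linarith [abs_nonneg v]) 6
    exact mul_le_mul_of_nonneg_right (le_trans (by norm_num) h1) (Real.exp_pos _).le
  have hp := Real.exp_pos (-v ^ 2)
  calc ‖XX (((3 / 2 : ℝ) : ℂ) + ((t + v : ℝ) : ℂ) * Complex.I)‖ ^ 2 * Real.exp (1 ^ 2 - v ^ 2) *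
      N ≤ 49 * (3 * Real.exp (-v ^ 2)) * N := by
        refine mul_le_mul_of_nonneg_right ?_ (by positivity)
        exact mul_le_mul hX4 hexp (Real.exp_pos _).le (by positivity)
    _ ≤ 3 * kk v * N := by
        refine mul_le_mul_of_nonneg_right ?_ (by positivity)
        linarith
    _ = 3 * (N / T ^ 2) * kk v * T ^ 2 := by
        field_simp
    _ ≤ 3 * (N / T ^ 2) * kk v * ‖1 - (1 / 2 + (t : ℂ) * Complex.I)‖ ^ 2 := by
        refine mul_le_mul_of_nonneg_left hs2 ?_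
        have := f4_kk0 v
        positivity

/-- **Second half.** `s = 1/2 + it`, `1 ≤ T ≤ |t| ≤ 2T`, `N ≥ 1`. (`I₂` = the integral over `w = -1 + iv`.)

Proof. `z = s + w`, `Re z = -1/2`: `gl2_Z z = XX z ζ(1-z)` (`XX_fe`), `1 - z = 3/2 - i(t+v)`, `ζ(1-z)² = DL (3/2) N (-(t+v)) + DH N (-(t+v))` (`zeta_sq_split`), where `DL (3/2) N (-(t+v)) = ∑_{n ≤ N} d(n) n^(s+w-1)`.
Tail: `|XX z|² ≤ (2 + |t+v|)^4 ≤ (3T(2+|v|))^4`, `|1-s|² ≥ T²`, `|N^w| = 1/N`, `|e^(w²)| = e^(1-v²)`, `|w| ≥ 1`: at most `(e/2π) 81 (T²/N) ∫ (2+|v|)^4 e^(-v²) ‖DH N (t+v)‖ dv` (`DH_neg`).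
Main part: `H(w) = XX(s+w)² ∑_{n ≤ N} d(n) n^(s+w-1) N^w e^(w²)/(1-s)²`, holomorphic for `Re w < 3/2` (`XX_diff`), bounded in `|Re w| ≤ 1` (`XX_growth` against `e^(u²-v²)`): `strip_shift` (`a = -1`, `b = 1`, `w₀ = 0`): its integral over `Re w = -1` is the integral over `Re w = 1` minus `2π H(0)`.
`|H(0)| = |XX(s)|²/|1-s|² |∑ d(n) n^(s-1)| = ‖DL (1/2) N (-t)‖ = ‖DL (1/2) N t‖` (`XX_lines`, `DL_neg`). On `Re w = 1`: `|XX|² ≤ 49`, `|∑ d(n) n^(s+w-1)| = ‖DL (-1/2) N (-(t+v))‖`, `|N^w| = N`: at most `(e/2π) 49 (N/T²) ∫ e^(-v²) ‖DL (-1/2) N (t+v)‖ dv`. `C = 40`. -/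
theorem afe_second (N : ℕ) (t T : ℝ) (hN : 1 ≤ N) (hT : 1 ≤ T) (ht : T ≤ |t|) (ht2 : |t| ≤ 2 * T) :
    ‖(1 / (2 * Real.pi : ℂ)) * (∫ v : ℝ, gl2_Z (1 / 2 + (t : ℂ) * Complex.I + (-1 + (v : ℂ) * Complex.I)) ^ 2 *
        Complex.exp ((-1 + (v : ℂ) * Complex.I) ^ 2) * (N : ℂ) ^ (-1 + (v : ℂ) * Complex.I) /
        ((1 - (1 / 2 + (t : ℂ) * Complex.I)) ^ 2) / (-1 + (v : ℂ) * Complex.I))‖ ≤
      ‖DL (1 / 2) N t‖ + 40 * (N / T ^ 2 * (∫ v : ℝ, kk v * ‖DL (-(1 / 2)) N (t + v)‖) +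
        T ^ 2 / N * (∫ v : ℝ, kk v * ‖DH N (t + v)‖)) := by
  have ht1 : 1 ≤ |t| := hT.trans ht
  have hN1 : (1 : ℝ) ≤ N := by exact_mod_cast hN
  have hN0 : (0 : ℝ) < N := by linarith
  have hT0 : 0 < T := by linarith
  obtain ⟨-, BH, hBH⟩ := DH_lim N 0
  obtain ⟨BP, hBPd⟩ : ∃ BP : ℝ, BP = ∑ n ∈ Icc 1 N, dv n * n := ⟨_, rfl⟩
  have hP := f4P_bd N t
  rw [← hBPd] at hP
  -- the integrand
  have hsplit : ∀ v : ℝ, gl2_Z (1 / 2 + (t : ℂ) * Complex.I + (-1 + (v : ℂ) * Complex.I)) ^ 2 *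
        Complex.exp ((-1 + (v : ℂ) * Complex.I) ^ 2) * (N : ℂ) ^ (-1 + (v : ℂ) * Complex.I) /
        ((1 - (1 / 2 + (t : ℂ) * Complex.I)) ^ 2) / (-1 + (v : ℂ) * Complex.I) =
      f4G N t (((-1 : ℝ) : ℂ) + (v : ℂ) * Complex.I) * f4P N t (((-1 : ℝ) : ℂ) + (v : ℂ) * Complex.I) /
        (((-1 : ℝ) : ℂ) + (v : ℂ) * Complex.I - 0) +
      f4G N t (((-1 : ℝ) : ℂ) + (v : ℂ) * Complex.I) * DH N (-(t + v)) /
        (((-1 : ℝ) : ℂ) + (v : ℂ) * Complex.I - 0) := by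
    intro v
    have hz : 1 / 2 + (t : ℂ) * Complex.I + (-1 + (v : ℂ) * Complex.I) =
        1 - ((3 / 2 : ℂ) + ((-(t + v) : ℝ) : ℂ) * Complex.I) := by
      push_cast
      ring
    have hfe := XX_fe (1 / 2 + (t : ℂ) * Complex.I + (-1 + (v : ℂ) * Complex.I)) (by simp; norm_num)
      (by
        intro h0
        have h1 := congrArg Complex.re h0
        simp at h1
        norm_num at h1)
    have h1z : 1 - (1 / 2 + (t : ℂ) * Complex.I + (-1 + (v : ℂ) * Complex.I)) =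
        (3 / 2 : ℂ) + ((-(t + v) : ℝ) : ℂ) * Complex.I := by
      rw [hz]
      ring
    rw [hfe, h1z, mul_pow, zeta_sq_split N (-(t + v))]
    have hPl := f4P_line N t (-1) v
    have h32 : (1 / 2 - (-1) : ℝ) = 3 / 2 := by norm_num
    rw [h32] at hPl
    rw [hPl, sub_zero]
    unfold f4G
    have hc : ((-1 : ℝ) : ℂ) = -1 := by push_cast; rfl
    rw [hc]
    ring
  have hcl : ∀ σ : ℝ, Continuous (fun v : ℝ => f4P N t ((σ : ℂ) + (v : ℂ) * Complex.I)) := by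
    intro σ
    exact (f4P_diff N t).continuous.comp (by fun_prop)
  have hcH : Continuous (fun v : ℝ => DH N (-(t + v))) := (DH_cont N).comp (by fun_prop)
  have hi1 := f4_int N t hN ht1 (-1) (by norm_num) (fun v => f4P N t (((-1 : ℝ) : ℂ) + (v : ℂ) * Complex.I))
    (hcl (-1)) BP (fun v => hP _ (by simp))
  have hi2 := f4_int N t hN ht1 1 (by norm_num) (fun v => f4P N t (((1 : ℝ) : ℂ) + (v : ℂ) * Complex.I))
    (hcl 1) BP (fun v => hP _ (by simp))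
  have hi3 := f4_int N t hN ht1 (-1) (by norm_num) (fun v => DH N (-(t + v))) hcH BH (fun v => hBH _)
  have hint : (∫ v : ℝ, gl2_Z (1 / 2 + (t : ℂ) * Complex.I + (-1 + (v : ℂ) * Complex.I)) ^ 2 *
        Complex.exp ((-1 + (v : ℂ) * Complex.I) ^ 2) * (N : ℂ) ^ (-1 + (v : ℂ) * Complex.I) /
        ((1 - (1 / 2 + (t : ℂ) * Complex.I)) ^ 2) / (-1 + (v : ℂ) * Complex.I)) =
      (∫ v : ℝ, f4G N t (((-1 : ℝ) : ℂ) + (v : ℂ) * Complex.I) * f4P N t (((-1 : ℝ) : ℂ) + (v : ℂ) * Complex.I) /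
        (((-1 : ℝ) : ℂ) + (v : ℂ) * Complex.I - 0)) +
      ∫ v : ℝ, f4G N t (((-1 : ℝ) : ℂ) + (v : ℂ) * Complex.I) * DH N (-(t + v)) /
        (((-1 : ℝ) : ℂ) + (v : ℂ) * Complex.I - 0) := by
    rw [← integral_add hi1 hi3]
    exact integral_congr_ae (Filter.Eventually.of_forall hsplit)
  -- the shift
  have hshift := strip_shift (-1) 1 (-2) (3 / 2) (by norm_num) (by norm_num) (by norm_num) 0
    (by simp) (by simp) (fun w => f4G N t w * f4P N t w)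
    (by
      refine DifferentiableOn.mul ((f4G_diff N t hN).mono ?_) (f4P_diff N t).differentiableOn
      intro w hw
      exact hw.2)
  obtain ⟨C, hC0, hC⟩ := f4G_bd N t hN ht1
  have hshift' := hshift (C * BP)
    (by
      intro w h1 h2
      rw [norm_mul]
      refine mul_le_mul ((hC w h1 h2).trans ?_) (hP w h2) (norm_nonneg _) hC0
      refine mul_le_of_le_one_right hC0 ?_
      rw [Real.exp_le_one_iff]
      nlinarith [sq_nonneg w.im]) hi1 hi2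
  obtain ⟨A1, hA1⟩ : ∃ A1 : ℂ, A1 = ∫ v : ℝ, f4G N t (((-1 : ℝ) : ℂ) + (v : ℂ) * Complex.I) *
      f4P N t (((-1 : ℝ) : ℂ) + (v : ℂ) * Complex.I) /
        (((-1 : ℝ) : ℂ) + (v : ℂ) * Complex.I - 0) := ⟨_, rfl⟩
  obtain ⟨A2, hA2⟩ : ∃ A2 : ℂ, A2 = ∫ v : ℝ, f4G N t (((1 : ℝ) : ℂ) + (v : ℂ) * Complex.I) *
      f4P N t (((1 : ℝ) : ℂ) + (v : ℂ) * Complex.I) /
        (((1 : ℝ) : ℂ) + (v : ℂ) * Complex.I - 0) := ⟨_, rfl⟩
  obtain ⟨A3, hA3⟩ : ∃ A3 : ℂ, A3 = ∫ v : ℝ, f4G N t (((-1 : ℝ) : ℂ) + (v : ℂ) * Complex.I) *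
      DH N (-(t + v)) / (((-1 : ℝ) : ℂ) + (v : ℂ) * Complex.I - 0) := ⟨_, rfl⟩
  rw [← hA1, ← hA2] at hshift'
  rw [hint, ← hA1, ← hA3]
  -- the value at 0
  have hF0 : ‖f4G N t 0 * f4P N t 0‖ = ‖DL (1 / 2) N t‖ := by
    rw [norm_mul, f4P_zero, DL_neg, f4G_norm N t hN]
    have h1 := (XX_lines t).2.1
    have h2 : 1 / 2 + (t : ℂ) * Complex.I + 0 = ((1 / 2 : ℝ) : ℂ) + (t : ℂ) * Complex.I := by
      push_cast
      ring
    have h3 : 1 - (1 / 2 + (t : ℂ) * Complex.I) = ((1 / 2 : ℝ) : ℂ) - (t : ℂ) * Complex.I := by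
      push_cast
      ring
    have h4 := f4_1s t 1 ht1
    rw [h3] at h4
    rw [h2, h1, h3]
    simp only [Complex.zero_re, Complex.zero_im, Real.rpow_zero]
    have h5 : ‖((1 / 2 : ℝ) : ℂ) - (t : ℂ) * Complex.I‖ ≠ 0 := by
      intro h0
      rw [h0] at h4
      linarith
    norm_num
    have h6 : ‖(1 / 2 : ℂ) - (t : ℂ) * Complex.I‖ ≠ 0 := by
      have h7 : ((1 / 2 : ℝ) : ℂ) = 1 / 2 := by push_cast; rfl
      rw [h7] at h5
      exact h5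
    rw [div_self (pow_ne_zero 2 h6), one_mul]
  have hw1 : ∀ (σ : ℝ), |σ| = 1 → ∀ v : ℝ, 1 ≤ ‖(σ : ℂ) + (v : ℂ) * Complex.I - 0‖ := by
    intro σ hσ v
    have h1 := Complex.abs_re_le_norm ((σ : ℂ) + (v : ℂ) * Complex.I)
    have hre : ((σ : ℂ) + (v : ℂ) * Complex.I).re = σ := by simp
    rw [hre, hσ] at h1
    rw [sub_zero]
    exact h1
  have hDLc : Continuous (fun v : ℝ => ‖DL (-(1 / 2)) N (t + v)‖) :=
    ((DL_cont _ N).comp (by fun_prop : Continuous (fun v : ℝ => t + v))).norm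
  have hDHc : Continuous (fun v : ℝ => ‖DH N (t + v)‖) :=
    ((DH_cont N).comp (by fun_prop : Continuous (fun v : ℝ => t + v))).norm
  have hPl : ∀ v : ℝ, ‖f4P N t (((1 : ℝ) : ℂ) + (v : ℂ) * Complex.I)‖ = ‖DL (-(1 / 2)) N (t + v)‖ := by
    intro v
    rw [f4P_line, DL_neg]
    norm_num
  have hk1 : Integrable (fun v : ℝ => kk v * ‖DL (-(1 / 2)) N (t + v)‖) := by
    refine f4_kk_int _ hDLc BP fun v => ?_
    rw [abs_of_nonneg (norm_nonneg _), ← hPl v]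
    exact hP _ (by simp)
  have hk2 : Integrable (fun v : ℝ => kk v * ‖DH N (t + v)‖) := by
    refine f4_kk_int _ hDHc BH fun v => ?_
    rw [abs_of_nonneg (norm_nonneg _)]
    exact hBH _
  obtain ⟨K1, hK1⟩ : ∃ K1 : ℝ, K1 = ∫ v : ℝ, kk v * ‖DL (-(1 / 2)) N (t + v)‖ := ⟨_, rfl⟩
  obtain ⟨K2, hK2⟩ : ∃ K2 : ℝ, K2 = ∫ v : ℝ, kk v * ‖DH N (t + v)‖ := ⟨_, rfl⟩
  have hK1p : 0 ≤ K1 := by
    rw [hK1]
    exact integral_nonneg fun v => mul_nonneg (f4_kk0 v) (norm_nonneg _)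
  have hK2p : 0 ≤ K2 := by
    rw [hK2]
    exact integral_nonneg fun v => mul_nonneg (f4_kk0 v) (norm_nonneg _)
  have hA2b : ‖A2‖ ≤ 3 * (N / T ^ 2) * K1 := by
    rw [hA2, hK1, ← integral_const_mul]
    refine norm_integral_le_of_norm_le (hk1.const_mul _) (Filter.Eventually.of_forall fun v => ?_)
    rw [norm_div, norm_mul, hPl]
    calc ‖f4G N t (((1 : ℝ) : ℂ) + (v : ℂ) * Complex.I)‖ * ‖DL (-(1 / 2)) N (t + v)‖ /
        ‖((1 : ℝ) : ℂ) + (v : ℂ) * Complex.I - 0‖ ≤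
        ‖f4G N t (((1 : ℝ) : ℂ) + (v : ℂ) * Complex.I)‖ * ‖DL (-(1 / 2)) N (t + v)‖ :=
          div_le_self (by positivity) (hw1 1 (by norm_num) v)
      _ ≤ (3 * (N / T ^ 2) * kk v) * ‖DL (-(1 / 2)) N (t + v)‖ :=
          mul_le_mul_of_nonneg_right (f4G_p1 N t T hN hT ht v) (norm_nonneg _)
      _ = _ := by ring
  have hA3b : ‖A3‖ ≤ 12 * (T ^ 2 / N) * K2 := by
    rw [hA3, hK2, ← integral_const_mul]
    refine norm_integral_le_of_norm_le (hk2.const_mul _) (Filter.Eventually.of_forall fun v => ?_)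
    rw [norm_div, norm_mul, DH_neg]
    calc ‖f4G N t (((-1 : ℝ) : ℂ) + (v : ℂ) * Complex.I)‖ * ‖DH N (t + v)‖ /
        ‖((-1 : ℝ) : ℂ) + (v : ℂ) * Complex.I - 0‖ ≤
        ‖f4G N t (((-1 : ℝ) : ℂ) + (v : ℂ) * Complex.I)‖ * ‖DH N (t + v)‖ :=
          div_le_self (by positivity) (hw1 (-1) (by norm_num) v)
      _ ≤ (12 * (T ^ 2 / N) * kk v) * ‖DH N (t + v)‖ :=
          mul_le_mul_of_nonneg_right (f4G_m1 N t T hN hT ht ht2 v) (norm_nonneg _)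
      _ = _ := by ring
  rw [← hK1, ← hK2]
  have hA1e : A1 = A2 - 2 * Real.pi * (f4G N t 0 * f4P N t 0) := by
    rw [← hshift']
    ring
  have hpi := Real.pi_gt_three
  have hpi0 : (2 * Real.pi : ℝ) > 0 := by positivity
  have hnorm : ‖(1 / (2 * Real.pi : ℂ)) * (A1 + A3)‖ ≤ ‖DL (1 / 2) N t‖ + (‖A2‖ + ‖A3‖) / (2 * Real.pi) := by
    have h1 : (1 / (2 * Real.pi : ℂ)) * (A1 + A3) =
        (A2 + A3) / ((2 * Real.pi : ℝ) : ℂ) - f4G N t 0 * f4P N t 0 := by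
      rw [hA1e]
      have h2 : (2 * Real.pi : ℂ) ≠ 0 := by
        have := hpi0.ne'
        exact_mod_cast this
      push_cast
      field_simp
      ring
    rw [h1]
    refine (norm_sub_le _ _).trans ?_
    rw [hF0, norm_div, Complex.norm_real, Real.norm_of_nonneg hpi0.le, add_comm]
    gcongr
    exact norm_add_le _ _
  refine hnorm.trans ?_
  have hX : 0 ≤ (N : ℝ) / T ^ 2 * K1 := by positivity
  have hY : 0 ≤ T ^ 2 / (N : ℝ) * K2 := by positivity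
  have h5 : (‖A2‖ + ‖A3‖) / (2 * Real.pi) ≤ ‖A2‖ + ‖A3‖ := by
    refine div_le_self (by positivity) ?_
    linarith
  linarith

end Pool.Agent.Lib.H31P
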