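import Pool.Agent.Lib.H31P.F3
import Pool.Agent.Lib.H31P.F4

/-!
# Chunk F5 (S/M): the approximate functional equation as an inequality
-/

open Finset MeasureTheory

namespace Pool.Agent.Lib.H31P

open Pool.Agent.Lib.H68T (gl2_Z)

private noncomputable def f5F (N : ℕ) (s : ℂ) (w : ℂ) : ℂ :=
  gl2_Z (s + w) ^ 2 * Complex.exp (w ^ 2) * (N : ℂ) ^ w / ((1 - s) ^ 2)

private theorem f5_diff (N : ℕ) (hN : 1 ≤ N) (s : ℂ) : Differentiable ℂ (f5F N s) := by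
  unfold f5F
  have h1 : Differentiable ℂ fun w : ℂ => gl2_Z (s + w) :=
    Pool.Agent.Lib.H68T.gl2_Z_differentiable.comp (by fun_prop)
  have h2 : Differentiable ℂ fun w : ℂ => (N : ℂ) ^ w := by
    have hN0 : (N : ℂ) ≠ 0 := by
      have : N ≠ 0 := by omega
      exact_mod_cast this
    exact differentiable_id.const_cpow (Or.inl hN0)
  exact (((h1.pow 2).mul (by fun_prop)).mul h2).div_const _

private theorem f5_bound (N : ℕ) (hN : 1 ≤ N) (t : ℝ) (ht : 1 ≤ |t|) : ∃ K : ℝ, 0 ≤ K ∧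
    ∀ w : ℂ, -1 ≤ w.re → w.re ≤ 1 →
      ‖f5F N (1 / 2 + (t : ℂ) * Complex.I) w‖ ≤ K * Real.exp (-(1 / 2) * w.im ^ 2) := by
  obtain ⟨C, hC, hZ⟩ := Z_growth
  have hNr : (1 : ℝ) ≤ N := by exact_mod_cast hN
  refine ⟨C ^ 2 * Real.exp (6 * |t|) * Real.exp 1 * N * Real.exp 18, by positivity, ?_⟩
  intro w h1 h2
  unfold f5F
  have hre : (1 / 2 + (t : ℂ) * Complex.I + w).re = 1 / 2 + w.re := by simp
  have him : (1 / 2 + (t : ℂ) * Complex.I + w).im = t + w.im := by simp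
  have e1 : ‖gl2_Z (1 / 2 + (t : ℂ) * Complex.I + w)‖ ≤ C * Real.exp (3 * (|t| + |w.im|)) := by
    refine (hZ _ (by rw [hre]; linarith) (by rw [hre]; linarith)).trans ?_
    rw [him]
    refine mul_le_mul_of_nonneg_left (Real.exp_le_exp.2 ?_) (by linarith)
    have := abs_add_le t w.im
    linarith
  have e2 : ‖Complex.exp (w ^ 2)‖ ≤ Real.exp (1 - w.im ^ 2) := by
    rw [Complex.norm_exp, Real.exp_le_exp]
    have : (w ^ 2).re = w.re ^ 2 - w.im ^ 2 := by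
      rw [pow_two, Complex.mul_re]; ring
    rw [this]
    nlinarith
  have e3 : ‖(N : ℂ) ^ w‖ ≤ N := by
    have hNp : (0 : ℝ) < N := by linarith
    have : (N : ℂ) = ((N : ℝ) : ℂ) := by push_cast; rfl
    rw [this, Complex.norm_cpow_eq_rpow_re_of_pos hNp]
    calc (N : ℝ) ^ w.re ≤ (N : ℝ) ^ (1 : ℝ) := Real.rpow_le_rpow_of_exponent_le hNr h2
      _ = N := Real.rpow_one _
  have e4 : 1 ≤ ‖(1 - (1 / 2 + (t : ℂ) * Complex.I)) ^ 2‖ := by
    rw [norm_pow]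
    have h3 : |(1 - (1 / 2 + (t : ℂ) * Complex.I)).im| = |t| := by simp
    have h4 := Complex.abs_im_le_norm (1 - (1 / 2 + (t : ℂ) * Complex.I))
    rw [h3] at h4
    have h5 : 1 ≤ ‖1 - (1 / 2 + (t : ℂ) * Complex.I)‖ := ht.trans h4
    exact one_le_pow₀ h5
  rw [norm_div, norm_mul, norm_mul, norm_pow]
  refine (div_le_self (by positivity) e4).trans ?_
  have e5 : ‖gl2_Z (1 / 2 + (t : ℂ) * Complex.I + w)‖ ^ 2 ≤
      C ^ 2 * (Real.exp (6 * |t|) * Real.exp (6 * |w.im|)) := by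
    calc ‖gl2_Z (1 / 2 + (t : ℂ) * Complex.I + w)‖ ^ 2 ≤ (C * Real.exp (3 * (|t| + |w.im|))) ^ 2 :=
          pow_le_pow_left₀ (norm_nonneg _) e1 2
      _ = C ^ 2 * (Real.exp (6 * |t|) * Real.exp (6 * |w.im|)) := by
          rw [mul_pow, ← Real.exp_add, ← Real.exp_nat_mul]
          congr 2
          push_cast
          ring
  have e6 : Real.exp (6 * |w.im|) * Real.exp (1 - w.im ^ 2) ≤
      Real.exp 1 * Real.exp 18 * Real.exp (-(1 / 2) * w.im ^ 2) := by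
    rw [← Real.exp_add, ← Real.exp_add, ← Real.exp_add, Real.exp_le_exp]
    have h6 : |w.im| ^ 2 = w.im ^ 2 := sq_abs _
    nlinarith [sq_nonneg (|w.im| - 6)]
  calc ‖gl2_Z (1 / 2 + (t : ℂ) * Complex.I + w)‖ ^ 2 * ‖Complex.exp (w ^ 2)‖ * ‖(N : ℂ) ^ w‖
      ≤ (C ^ 2 * (Real.exp (6 * |t|) * Real.exp (6 * |w.im|))) * Real.exp (1 - w.im ^ 2) * N := by
        gcongr
    _ = C ^ 2 * Real.exp (6 * |t|) * N * (Real.exp (6 * |w.im|) * Real.exp (1 - w.im ^ 2)) := by ring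
    _ ≤ C ^ 2 * Real.exp (6 * |t|) * N * (Real.exp 1 * Real.exp 18 * Real.exp (-(1 / 2) * w.im ^ 2)) := by
        gcongr
    _ = C ^ 2 * Real.exp (6 * |t|) * Real.exp 1 * N * Real.exp 18 * Real.exp (-(1 / 2) * w.im ^ 2) := by
        ring

private theorem f5_int (N : ℕ) (hN : 1 ≤ N) (t : ℝ) (ht : 1 ≤ |t|) (x : ℝ) (hx : |x| = 1) :
    Integrable (fun v : ℝ => f5F N (1 / 2 + (t : ℂ) * Complex.I) ((x : ℂ) + (v : ℂ) * Complex.I) /
      ((x : ℂ) + (v : ℂ) * Complex.I - 0)) := by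
  obtain ⟨K, hK, hb⟩ := f5_bound N hN t ht
  have hx1 : -1 ≤ x ∧ x ≤ 1 := abs_le.1 hx.le
  have hnorm : ∀ v : ℝ, 1 ≤ ‖(x : ℂ) + (v : ℂ) * Complex.I - 0‖ := by
    intro v
    have h1 := Complex.abs_re_le_norm ((x : ℂ) + (v : ℂ) * Complex.I - 0)
    have h2 : ((x : ℂ) + (v : ℂ) * Complex.I - 0).re = x := by simp
    rw [h2, hx] at h1
    exact h1
  have hcont : Continuous fun v : ℝ => f5F N (1 / 2 + (t : ℂ) * Complex.I)
      ((x : ℂ) + (v : ℂ) * Complex.I) / ((x : ℂ) + (v : ℂ) * Complex.I - 0) := by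
    refine Continuous.div ((f5_diff N hN _).continuous.comp (by fun_prop)) (by fun_prop) ?_
    intro v h
    have := hnorm v
    rw [h, norm_zero] at this
    linarith
  refine Integrable.mono' ((integrable_exp_neg_mul_sq (by norm_num : (0 : ℝ) < 1 / 2)).const_mul K)
    hcont.aestronglyMeasurable (Filter.Eventually.of_forall fun v => ?_)
  rw [norm_div]
  refine (div_le_self (norm_nonneg _) (hnorm v)).trans ?_
  have h3 := hb ((x : ℂ) + (v : ℂ) * Complex.I) (by simp; linarith [hx1.1]) (by simp; linarith [hx1.2])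
  have h4 : ((x : ℂ) + (v : ℂ) * Complex.I).im = v := by simp
  rw [h4] at h3
  exact h3

/-- **Approximate functional equation.** `T ≥ 10`, `T ≤ |t| ≤ 2T`, `N = ⌊T⌋`.

Proof. `s = 1/2 + it`, `F(w) = gl2_Z(s+w)² e^(w²) N^w/(1-s)²` is entire and bounded in `|Re w| ≤ 1` (`Z_growth` against `e^(u²-v²)`), `F(0) = ζ(s)²` (`gl2_Z_eq`). `strip_shift` (`a = -1`, `b = 1`, `w₀ = 0`): `ζ(s)² = I₁ - I₂`; `afe_first`, `afe_second`, `T/2 ≤ N ≤ T`: `N/T² ≤ 1/T`, `T²/N ≤ 2T`, `1/N ≤ 2/T`. -/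
theorem afe (T t : ℝ) (hT : 10 ≤ T) (ht : T ≤ |t|) (ht2 : |t| ≤ 2 * T) :
    ‖riemannZeta (1 / 2 + (t : ℂ) * Complex.I)‖ ^ 2 ≤ 2 * ‖DL (1 / 2) ⌊T⌋₊ t‖ +
      100 * (1 / T * (∫ v : ℝ, kk v * ‖DL (-(1 / 2)) ⌊T⌋₊ (t + v)‖) + T * (∫ v : ℝ, kk v * ‖DH ⌊T⌋₊ (t + v)‖)) := by
  have hTr : (0 : ℝ) < T := by linarith
  have hN : 1 ≤ ⌊T⌋₊ := Nat.one_le_floor_iff _ |>.2 (by linarith)
  have hN1 : (⌊T⌋₊ : ℝ) ≤ T := Nat.floor_le hTr.le
  have hN2 : T / 2 ≤ (⌊T⌋₊ : ℝ) := by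
    have := Nat.lt_floor_add_one T
    linarith
  have ht1 : 1 ≤ |t| := by linarith
  generalize ⌊T⌋₊ = N at hN hN1 hN2 ⊢
  set s : ℂ := 1 / 2 + (t : ℂ) * Complex.I with hs
  have hA := afe_first N t hN ht1
  have hB := afe_second N t T hN (by linarith) ht ht2
  rw [← hs] at hA hB
  obtain ⟨K, hK, hb⟩ := f5_bound N hN t ht1
  rw [← hs] at hb
  have hia := f5_int N hN t ht1 (-1) (by norm_num)
  have hib := f5_int N hN t ht1 1 (by norm_num)
  rw [← hs] at hia hib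
  have hst := strip_shift (-1) 1 (-2) 2 (by norm_num) (by norm_num) (by norm_num) 0 (by simp) (by simp)
    (f5F N s) (f5_diff N hN s).differentiableOn K
    (fun w h1 h2 => (hb w h1 h2).trans (by
      have : Real.exp (-(1 / 2) * w.im ^ 2) ≤ 1 := by
        rw [Real.exp_le_one_iff]
        nlinarith [sq_nonneg w.im]
      nlinarith)) hia hib
  have hs1 : s ≠ 1 := by
    intro h
    have h1 := congrArg Complex.im h
    rw [hs] at h1
    simp at h1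
    rw [h1, abs_zero] at ht1
    linarith
  have hs2 : (1 - s) ≠ 0 := sub_ne_zero.2 hs1.symm
  have hF0 : f5F N s 0 = riemannZeta s ^ 2 := by
    unfold f5F
    rw [add_zero, Complex.cpow_zero, Pool.Agent.Lib.H68T.gl2_Z_eq s hs1]
    rw [div_eq_iff (pow_ne_zero 2 hs2)]
    have : Complex.exp ((0 : ℂ) ^ 2) = 1 := by simp
    rw [this]
    ring
  rw [hF0] at hst
  set I1 : ℂ := ∫ v : ℝ, gl2_Z (s + (1 + (v : ℂ) * Complex.I)) ^ 2 *
        Complex.exp ((1 + (v : ℂ) * Complex.I) ^ 2) * (N : ℂ) ^ (1 + (v : ℂ) * Complex.I) /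
        ((1 - s) ^ 2) / (1 + (v : ℂ) * Complex.I) with hI1
  set I2 : ℂ := ∫ v : ℝ, gl2_Z (s + (-1 + (v : ℂ) * Complex.I)) ^ 2 *
        Complex.exp ((-1 + (v : ℂ) * Complex.I) ^ 2) * (N : ℂ) ^ (-1 + (v : ℂ) * Complex.I) /
        ((1 - s) ^ 2) / (-1 + (v : ℂ) * Complex.I) with hI2
  have hj1 : (∫ v : ℝ, f5F N s (((1 : ℝ) : ℂ) + (v : ℂ) * Complex.I) /
      (((1 : ℝ) : ℂ) + (v : ℂ) * Complex.I - 0)) = I1 := by
    rw [hI1]
    refine integral_congr_ae (Filter.Eventually.of_forall fun v => ?_)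
    simp only [f5F, Complex.ofReal_one, sub_zero]
  have hj2 : (∫ v : ℝ, f5F N s (((-1 : ℝ) : ℂ) + (v : ℂ) * Complex.I) /
      (((-1 : ℝ) : ℂ) + (v : ℂ) * Complex.I - 0)) = I2 := by
    rw [hI2]
    refine integral_congr_ae (Filter.Eventually.of_forall fun v => ?_)
    simp only [f5F, Complex.ofReal_neg, Complex.ofReal_one, sub_zero]
  rw [hj1, hj2] at hst
  have hpi : (2 * Real.pi : ℂ) ≠ 0 := by
    have h : (Real.pi : ℂ) ≠ 0 := Complex.ofReal_ne_zero.mpr Real.pi_ne_zero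
    exact mul_ne_zero two_ne_zero h
  have hz : riemannZeta s ^ 2 = ((1 / (2 * Real.pi : ℂ)) * I1 - DL (1 / 2) N t) + DL (1 / 2) N t -
      (1 / (2 * Real.pi : ℂ)) * I2 := by
    have h1 : riemannZeta s ^ 2 = (1 / (2 * Real.pi : ℂ)) * (2 * Real.pi * riemannZeta s ^ 2) := by
      field_simp
    rw [h1, ← hst]
    ring
  set A : ℝ := ∫ v : ℝ, kk v * ‖DL (-(1 / 2)) N (t + v)‖ with hAd
  set B : ℝ := ∫ v : ℝ, kk v * ‖DH N (t + v)‖ with hBd
  have hkk : ∀ v : ℝ, 0 ≤ kk v := fun v => by unfold kk; positivity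
  have hA0 : 0 ≤ A := integral_nonneg fun v => mul_nonneg (hkk v) (norm_nonneg _)
  have hB0 : 0 ≤ B := integral_nonneg fun v => mul_nonneg (hkk v) (norm_nonneg _)
  have hNp : (0 : ℝ) < N := by linarith
  have hfin : ‖riemannZeta s‖ ^ 2 ≤ (1 / N * A + N * B) + ‖DL (1 / 2) N t‖ +
      (‖DL (1 / 2) N t‖ + 40 * (N / T ^ 2 * A + T ^ 2 / N * B)) := by
    rw [← norm_pow, hz]
    refine (norm_sub_le _ _).trans (add_le_add ((norm_add_le _ _).trans ?_) hB)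
    exact add_le_add hA le_rfl
  have g1 : 1 / (N : ℝ) ≤ 2 / T := by
    rw [div_le_div_iff₀ hNp hTr]; linarith
  have g2 : (N : ℝ) / T ^ 2 ≤ 1 / T := by
    rw [div_le_div_iff₀ (by positivity) hTr]
    nlinarith
  have g3 : T ^ 2 / (N : ℝ) ≤ 2 * T := by
    rw [div_le_iff₀ hNp]
    nlinarith
  have k1 := mul_le_mul_of_nonneg_right g1 hA0
  have k2 := mul_le_mul_of_nonneg_right g2 hA0
  have k3 := mul_le_mul_of_nonneg_right g3 hB0
  have k4 := mul_le_mul_of_nonneg_right hN1 hB0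
  have k5 : 2 / T * A = 2 * (1 / T * A) := by ring
  have k6 : 0 ≤ 1 / T * A := by positivity
  have k7 : 0 ≤ T * B := by positivity
  nlinarith

end Pool.Agent.Lib.H31P
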