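import Pool.Agent.Lib.H31P.Top

/-!
# Chunk L3 (S/M): powers of the divisor function on average
-/

open Finset

namespace Pool.Agent.Lib.H31P

private theorem card_div_mul_le (a b : ℕ) :
    ((a * b).divisors.card : ℝ) ≤ (a.divisors.card : ℝ) * (b.divisors.card : ℝ) := by
  have h : (a * b).divisors.card ≤ a.divisors.card * b.divisors.card := by
    rw [Nat.divisors_mul]
    exact Finset.card_mul_le
  exact_mod_cast h

/-- `∑_{n ≤ x} d(n)^k/n ≤ (1 + log x)^(2^k)`.

Proof. Induction on `k`. `k = 0`: `∑ 1/n ≤ 1 + log x` (`harmonic_le_one_add_log`; compare `H31W.T1_harm`). Step: `d(n)^(k+1) = ∑_{ab = n} d(n)^k ≤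
∑_{ab = n} d(a)^k d(b)^k` (`d(ab) ≤ d(a) d(b)`, e.g. from `H31W/Q1.lean`; `d(n)` = number of pairs in `divisorsAntidiagonal`), so the sum for `k + 1` is at
most the square of the sum for `k` (each pair `(a, b)` with `ab ≤ x` has `a, b ≤ x`). -/
theorem sum_d_pow (k x : ℕ) (hx : 1 ≤ x) :
    ∑ n ∈ Icc 1 x, ((n.divisors.card : ℝ)) ^ k / n ≤ (1 + Real.log x) ^ (2 ^ k) := by
  have hlog : 0 ≤ Real.log x := Real.log_nonneg (by exact_mod_cast hx)
  induction k with
  | zero =>
    have h := harmonic_le_one_add_log x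
    rw [harmonic_eq_sum_Icc] at h
    push_cast at h
    simp only [pow_zero, pow_one]
    refine le_trans (le_of_eq ?_) h
    exact sum_congr rfl fun n _ => by rw [one_div]
  | succ k ih =>
    set g : ℕ → ℝ := fun a => ((a.divisors.card : ℝ)) ^ k / a with hg
    have hg0 : ∀ a, 0 ≤ g a := fun a => by rw [hg]; positivity
    have h1 : ∀ n ∈ Icc 1 x, ((n.divisors.card : ℝ)) ^ (k + 1) / n ≤
        ∑ p ∈ Icc 1 x ×ˢ Icc 1 x, if p.1 * p.2 = n then g p.1 * g p.2 else 0 := by
      intro n hn
      rw [mem_Icc] at hn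
      rw [← sum_filter]
      have hsub : n.divisorsAntidiagonal ⊆ (Icc 1 x ×ˢ Icc 1 x).filter (fun p => p.1 * p.2 = n) := by
        intro p hp
        rw [Nat.mem_divisorsAntidiagonal] at hp
        have hp1 : p.1 ≠ 0 := by
          intro h0
          apply hp.2
          rw [← hp.1, h0, zero_mul]
        have hp2 : p.2 ≠ 0 := by
          intro h0
          apply hp.2
          rw [← hp.1, h0, mul_zero]
        rw [mem_filter, mem_product, mem_Icc, mem_Icc]
        refine ⟨⟨⟨Nat.pos_of_ne_zero hp1, ?_⟩, ⟨Nat.pos_of_ne_zero hp2, ?_⟩⟩, hp.1⟩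
        · exact (Nat.le_mul_of_pos_right p.1 (Nat.pos_of_ne_zero hp2)).trans (hp.1.le.trans hn.2)
        · exact (Nat.le_mul_of_pos_left p.2 (Nat.pos_of_ne_zero hp1)).trans (hp.1.le.trans hn.2)
      refine le_trans ?_ (sum_le_sum_of_subset_of_nonneg hsub
        (fun p _ _ => mul_nonneg (hg0 _) (hg0 _)))
      have hc : (n.divisors.card : ℝ) = ∑ p ∈ n.divisorsAntidiagonal, (1 : ℝ) := by
        rw [sum_const, nsmul_eq_mul, mul_one]
        congr 1
        rw [← Nat.map_div_right_divisors, card_map]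
      calc ((n.divisors.card : ℝ)) ^ (k + 1) / n
          = (n.divisors.card : ℝ) * (((n.divisors.card : ℝ)) ^ k / n) := by ring
        _ = ∑ p ∈ n.divisorsAntidiagonal, (((n.divisors.card : ℝ)) ^ k / n) := by
            have h4 : ∀ c : ℝ, (n.divisors.card : ℝ) * c = ∑ p ∈ n.divisorsAntidiagonal, c := by
              intro c
              rw [hc, sum_mul]
              exact sum_congr rfl fun p _ => one_mul _
            exact h4 _
        _ ≤ ∑ p ∈ n.divisorsAntidiagonal, g p.1 * g p.2 := by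
            refine sum_le_sum fun p hp => ?_
            rw [Nat.mem_divisorsAntidiagonal] at hp
            have h2 := card_div_mul_le p.1 p.2
            rw [hp.1] at h2
            have h3 : g p.1 * g p.2 =
                ((p.1.divisors.card : ℝ) * (p.2.divisors.card : ℝ)) ^ k / n := by
              rw [hg, ← hp.1]
              push_cast
              rw [mul_pow, div_mul_div_comm]
            rw [h3]
            exact div_le_div_of_nonneg_right (pow_le_pow_left₀ (Nat.cast_nonneg _) h2 k)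
              (Nat.cast_nonneg _)
    calc ∑ n ∈ Icc 1 x, ((n.divisors.card : ℝ)) ^ (k + 1) / n
        ≤ ∑ n ∈ Icc 1 x, ∑ p ∈ Icc 1 x ×ˢ Icc 1 x,
            (if p.1 * p.2 = n then g p.1 * g p.2 else 0) := sum_le_sum h1
      _ = ∑ p ∈ Icc 1 x ×ˢ Icc 1 x, ∑ n ∈ Icc 1 x,
            (if p.1 * p.2 = n then g p.1 * g p.2 else 0) := sum_comm
      _ ≤ ∑ p ∈ Icc 1 x ×ˢ Icc 1 x, g p.1 * g p.2 := by
          refine sum_le_sum fun p _ => ?_
          rw [sum_ite_eq]
          split_ifs
          · exact le_rfl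
          · exact mul_nonneg (hg0 _) (hg0 _)
      _ = (∑ a ∈ Icc 1 x, g a) * ∑ b ∈ Icc 1 x, g b := by
          rw [sum_product, sum_mul_sum]
      _ ≤ (1 + Real.log x) ^ (2 ^ k) * (1 + Real.log x) ^ (2 ^ k) :=
          mul_le_mul ih ih (sum_nonneg fun a _ => hg0 a) (by positivity)
      _ = (1 + Real.log x) ^ (2 ^ (k + 1)) := by
          rw [← pow_add, pow_succ]
          congr 1
          ring

end Pool.Agent.Lib.H31P
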