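import Pool.Agent.Lib.H31P.FDefs
import Pool.Agent.Lib.H31P.L3
import Pool.Agent.Lib.H31W.Q1

/-!
# Chunk F6 (M): mean squares of `DL`
-/

open Finset MeasureTheory

namespace Pool.Agent.Lib.H31P

private theorem F6_eq (σ : ℝ) (N : ℕ) (τ : ℝ) : DL σ N τ =
    ∑ n ∈ Icc 1 N, ((dv n * (n : ℝ) ^ (-σ) : ℝ) : ℂ) * (n : ℂ) ^ (-((τ : ℂ) * Complex.I)) := by
  unfold DL
  refine sum_congr rfl fun n hn => ?_
  have hn0 : (n : ℂ) ≠ 0 := by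
    have h1 := (mem_Icc.mp hn).1
    exact_mod_cast (by omega : n ≠ 0)
  rw [neg_add, Complex.cpow_add _ _ hn0, Complex.ofReal_mul, Complex.ofReal_cpow (Nat.cast_nonneg n)]
  push_cast
  ring

private theorem F6_gen {C : ℝ} (h : ∀ (a : ℕ → ℝ) (N : ℕ) (T : ℝ), 1 ≤ T →
    ∫⁻ t in Set.Icc (-T) T, ENNReal.ofReal
      (‖∑ n ∈ Icc 1 N, (a n : ℂ) * (n : ℂ) ^ (-((t : ℂ) * Complex.I))‖ ^ 2) ≤
    ENNReal.ofReal (C * ∑ n ∈ Icc 1 N, (T + n) * a n ^ 2)) (hC : 1 ≤ C) (σ : ℝ) (N : ℕ) (U : ℝ)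
    (hU : 1 ≤ U) (B : ℝ) (hB : ∑ n ∈ Icc 1 N, (U + n) * (dv n * (n : ℝ) ^ (-σ)) ^ 2 ≤ B) :
    ∫⁻ τ in Set.Icc (-U) U, ENNReal.ofReal (‖DL σ N τ‖ ^ 2) ≤ ENNReal.ofReal (C * B) := by
  have h1 := h (fun n => dv n * (n : ℝ) ^ (-σ)) N U hU
  refine le_trans (le_of_eq ?_) (le_trans h1 ?_)
  · refine lintegral_congr fun τ => ?_
    rw [F6_eq]
  · exact ENNReal.ofReal_le_ofReal (mul_le_mul_of_nonneg_left hB (by linarith))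

/-- **Mean squares of the finite sums.**

Proof. `MVStm` with `a n = d(n) n^(-σ)` (`n^(-(σ+iτ)) = n^(-σ) n^(-iτ)`): `∑ (U + n) d(n)² n^(-2σ)`. `σ = 1/2`: `∑ d²/n ≤ (1 + log N)^4` (`sum_d_pow`, `k = 2`), `∑ d² ≤ N (1 + log N)^3` (`H31W.sum_dsq`). `σ = -1/2`: `∑ d² n ≤ N² (1 + log N)^3`, `∑ d² n² ≤ N³ (1 + log N)^3`. -/
theorem DL_ms (hV : MVStm) : ∃ C : ℝ, 1 ≤ C ∧ ∀ (N : ℕ) (U : ℝ), 1 ≤ N → 1 ≤ U →
    ∫⁻ τ in Set.Icc (-U) U, ENNReal.ofReal (‖DL (1 / 2) N τ‖ ^ 2) ≤ ENNReal.ofReal (C * ((U + N) * (1 + Real.log N) ^ 4)) ∧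
    ∫⁻ τ in Set.Icc (-U) U, ENNReal.ofReal (‖DL (-(1 / 2)) N τ‖ ^ 2) ≤
      ENNReal.ofReal (C * ((U + N) * (N : ℝ) ^ 2 * (1 + Real.log N) ^ 4)) := by
  obtain ⟨C, hC, h⟩ := hV
  refine ⟨C, hC, fun N U hN hU => ?_⟩
  have hL : 0 ≤ Real.log N := Real.log_natCast_nonneg N
  have hU0 : 0 ≤ U := by linarith
  have hN1 : (1 : ℝ) ≤ N := by exact_mod_cast hN
  have hN0 : (0 : ℝ) ≤ N := Nat.cast_nonneg N
  have h1 : ∑ n ∈ Icc 1 N, dv n ^ 2 / n ≤ (1 + Real.log N) ^ 4 := sum_d_pow 2 N hN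
  have h2 : ∑ n ∈ Icc 1 N, dv n ^ 2 ≤ N * (1 + Real.log N) ^ 3 := Pool.Agent.Lib.H31W.sum_dsq N hN
  have h34 : (1 + Real.log N) ^ 3 ≤ (1 + Real.log N) ^ 4 :=
    pow_le_pow_right₀ (by linarith) (by norm_num)
  have h2' : ∑ n ∈ Icc 1 N, dv n ^ 2 ≤ N * (1 + Real.log N) ^ 4 :=
    le_trans h2 (mul_le_mul_of_nonneg_left h34 hN0)
  constructor
  · refine F6_gen h hC (1 / 2) N U hU _ ?_
    have h3 : ∑ n ∈ Icc 1 N, (U + n) * (dv n * (n : ℝ) ^ (-(1 / 2) : ℝ)) ^ 2 =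
        U * ∑ n ∈ Icc 1 N, dv n ^ 2 / n + ∑ n ∈ Icc 1 N, dv n ^ 2 := by
      rw [mul_sum, ← sum_add_distrib]
      refine sum_congr rfl fun n hn => ?_
      have hn0 : (0 : ℝ) < n := by exact_mod_cast (mem_Icc.mp hn).1
      have h4 : ((n : ℝ) ^ (-(1 / 2) : ℝ)) ^ 2 = 1 / n := by
        rw [← Real.rpow_natCast, ← Real.rpow_mul hn0.le]
        norm_num
        rw [Real.rpow_neg_one]
      rw [mul_pow, h4]
      field_simp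
    rw [h3]
    calc U * ∑ n ∈ Icc 1 N, dv n ^ 2 / n + ∑ n ∈ Icc 1 N, dv n ^ 2 ≤
          U * (1 + Real.log N) ^ 4 + N * (1 + Real.log N) ^ 4 :=
          add_le_add (mul_le_mul_of_nonneg_left h1 hU0) h2'
      _ = (U + N) * (1 + Real.log N) ^ 4 := by ring
  · refine F6_gen h hC (-(1 / 2)) N U hU _ ?_
    have h3 : ∑ n ∈ Icc 1 N, (U + n) * (dv n * (n : ℝ) ^ (-(-(1 / 2)) : ℝ)) ^ 2 ≤
        ∑ n ∈ Icc 1 N, ((U + N) * N) * dv n ^ 2 := by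
      refine sum_le_sum fun n hn => ?_
      have hn0 : (0 : ℝ) < n := by exact_mod_cast (mem_Icc.mp hn).1
      have hnN : (n : ℝ) ≤ N := by exact_mod_cast (mem_Icc.mp hn).2
      have h4 : ((n : ℝ) ^ (-(-(1 / 2)) : ℝ)) ^ 2 = n := by
        rw [← Real.rpow_natCast, ← Real.rpow_mul hn0.le]
        norm_num
      rw [mul_pow, h4]
      have h5 : (U + n) * n ≤ (U + N) * N := mul_le_mul (by linarith) hnN hn0.le (by linarith)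
      calc (U + n) * (dv n ^ 2 * n) = ((U + n) * n) * dv n ^ 2 := by ring
        _ ≤ ((U + N) * N) * dv n ^ 2 := mul_le_mul_of_nonneg_right h5 (sq_nonneg _)
    refine le_trans h3 ?_
    rw [← mul_sum]
    calc (U + N) * N * ∑ n ∈ Icc 1 N, dv n ^ 2 ≤ (U + N) * N * (N * (1 + Real.log N) ^ 4) :=
          mul_le_mul_of_nonneg_left h2' (by positivity)
      _ = (U + N) * (N : ℝ) ^ 2 * (1 + Real.log N) ^ 4 := by ring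

end Pool.Agent.Lib.H31P
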