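import Pool.Agent.Lib.H31P.F0
import Pool.Agent.Lib.H31W.Q1

/-!
# Chunk F7 (M): mean square of `DH`
-/

open Finset MeasureTheory

namespace Pool.Agent.Lib.H31P

private lemma F7_tail (e : ℕ) (he : 2 ≤ e) (N K : ℕ) (hN : 1 ≤ N) :
    ∑ n ∈ Ioc 0 (2 ^ K * N), (if N < n then dv n ^ 2 / (n : ℝ) ^ e else 0) ≤
      (∑ k ∈ range K, 2 * (((k : ℝ) + 2) ^ 3 * (1 / 2) ^ k)) *
        ((1 + Real.log N) ^ 3 / (N : ℝ) ^ (e - 1)) := by
  have hN' : (0 : ℝ) < N := by exact_mod_cast hN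
  have hL : 0 ≤ Real.log N := Real.log_natCast_nonneg N
  induction K with
  | zero =>
    rw [pow_zero, one_mul, range_zero, sum_empty, zero_mul]
    refine (sum_eq_zero fun n hn => ?_).le
    rw [mem_Ioc] at hn
    rw [if_neg (by omega)]
  | succ K ih =>
    have h1 : 2 ^ K * N ≤ 2 ^ (K + 1) * N :=
      Nat.mul_le_mul_right _ (Nat.pow_le_pow_right (by norm_num) (Nat.le_succ K))
    rw [← sum_Ioc_consecutive _ (Nat.zero_le _) h1, sum_range_succ, add_mul]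
    refine add_le_add ih ?_
    have hBe : ((2 ^ K * N : ℕ) : ℝ) = 2 ^ K * N := by push_cast; ring
    have hB : (0 : ℝ) < ((2 ^ K * N : ℕ) : ℝ) := by rw [hBe]; positivity
    have h2 : ∑ n ∈ Ioc (2 ^ K * N) (2 ^ (K + 1) * N),
        (if N < n then dv n ^ 2 / (n : ℝ) ^ e else 0) ≤
        ∑ n ∈ Ioc (2 ^ K * N) (2 ^ (K + 1) * N), dv n ^ 2 / ((2 ^ K * N : ℕ) : ℝ) ^ e := by
      refine sum_le_sum fun n hn => ?_
      rw [mem_Ioc] at hn
      split_ifs with h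
      · refine div_le_div_of_nonneg_left (sq_nonneg _) (pow_pos hB _) ?_
        refine pow_le_pow_left₀ hB.le ?_ _
        exact_mod_cast hn.1.le
      · exact div_nonneg (sq_nonneg _) (pow_pos hB _).le
    have h3 : ∑ n ∈ Ioc (2 ^ K * N) (2 ^ (K + 1) * N), dv n ^ 2 ≤
        ∑ n ∈ Icc 1 (2 ^ (K + 1) * N), ((n.divisors.card : ℝ)) ^ 2 := by
      refine sum_le_sum_of_subset_of_nonneg ?_ fun n _ _ => sq_nonneg _
      intro n hn
      rw [mem_Ioc] at hn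
      rw [mem_Icc]
      exact ⟨by omega, hn.2⟩
    have h4 := H31W.sum_dsq (2 ^ (K + 1) * N) (Nat.mul_pos (by positivity) hN)
    have h5 : (((2 ^ (K + 1) * N : ℕ)) : ℝ) = 2 * ((2 ^ K * N : ℕ) : ℝ) := by
      push_cast
      ring
    have h6 : 1 + Real.log ((2 ^ (K + 1) * N : ℕ) : ℝ) ≤ ((K : ℝ) + 2) * (1 + Real.log N) := by
      have h7 : Real.log ((2 ^ (K + 1) * N : ℕ) : ℝ) = ((K : ℝ) + 1) * Real.log 2 + Real.log N := by
        push_cast
        rw [Real.log_mul (by positivity) hN'.ne', Real.log_pow]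
        push_cast
        ring
      have h8 : Real.log 2 ≤ 1 := by
        have := Real.log_two_lt_d9
        linarith
      rw [h7]
      have h9 : ((K : ℝ) + 1) * Real.log 2 ≤ (K : ℝ) + 1 := by
        have : (0 : ℝ) ≤ (K : ℝ) + 1 := by positivity
        nlinarith
      have h10 : 0 ≤ (K : ℝ) * Real.log N := mul_nonneg (Nat.cast_nonneg _) hL
      nlinarith
    have h11 : 0 ≤ 1 + Real.log ((2 ^ (K + 1) * N : ℕ) : ℝ) := by
      have := Real.log_natCast_nonneg (2 ^ (K + 1) * N)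
      linarith
    have h12 : ∑ n ∈ Ioc (2 ^ K * N) (2 ^ (K + 1) * N), dv n ^ 2 ≤
        2 * ((2 ^ K * N : ℕ) : ℝ) * (((K : ℝ) + 2) * (1 + Real.log N)) ^ 3 := by
      refine h3.trans (h4.trans ?_)
      rw [h5]
      refine mul_le_mul_of_nonneg_left ?_ (by positivity)
      rw [← h5]
      exact pow_le_pow_left₀ h11 h6 3
    refine h2.trans ?_
    rw [← sum_div, div_le_iff₀ (pow_pos hB _)]
    refine h12.trans ?_
    obtain ⟨f, rfl⟩ : ∃ f, e = f + 2 := ⟨e - 2, by omega⟩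
    rw [show f + 2 - 1 = f + 1 by omega, hBe]
    have h13 : (1 : ℝ) ≤ (2 ^ K) ^ f := one_le_pow₀ (one_le_pow₀ (by norm_num))
    have h14 : 2 * (((K : ℝ) + 2) ^ 3 * (1 / 2) ^ K) *
        ((1 + Real.log N) ^ 3 / (N : ℝ) ^ (f + 1)) * (2 ^ K * (N : ℝ)) ^ (f + 2) =
        2 * (2 ^ K * (N : ℝ)) * (((K : ℝ) + 2) * (1 + Real.log N)) ^ 3 * (2 ^ K) ^ f := by
      rw [one_div, inv_pow]
      field_simp
      ring
    rw [h14]
    refine le_mul_of_one_le_right ?_ h13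
    positivity

private lemma F7_sum : Summable (fun k : ℕ => 2 * (((k : ℝ) + 2) ^ 3 * (1 / 2) ^ k)) := by
  have h1 : Summable (fun n : ℕ => ((n : ℝ)) ^ 3 * (1 / 2 : ℝ) ^ n) :=
    summable_pow_mul_geometric_of_norm_lt_one 3 (by rw [Real.norm_eq_abs, abs_of_pos] <;> norm_num)
  have h2 := (summable_nat_add_iff 2).2 h1
  refine (h2.mul_left 8).congr fun k => ?_
  push_cast
  rw [pow_add]
  ring

private lemma F7_tail' (e : ℕ) (he : 2 ≤ e) (N M : ℕ) (hN : 1 ≤ N) :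
    ∑ n ∈ Icc 1 M, (if N < n then dv n ^ 2 / (n : ℝ) ^ e else 0) ≤
      ((∑' k : ℕ, 2 * (((k : ℝ) + 2) ^ 3 * (1 / 2) ^ k)) + 1) *
        ((1 + Real.log N) ^ 3 / (N : ℝ) ^ (e - 1)) := by
  have hN' : (0 : ℝ) < N := by exact_mod_cast hN
  have hL : 0 ≤ Real.log N := Real.log_natCast_nonneg N
  have h1 : ∑ n ∈ Icc 1 M, (if N < n then dv n ^ 2 / (n : ℝ) ^ e else 0) ≤
      ∑ n ∈ Ioc 0 (2 ^ M * N), (if N < n then dv n ^ 2 / (n : ℝ) ^ e else 0) := by
    refine sum_le_sum_of_subset_of_nonneg ?_ fun n _ _ => ?_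
    · intro n hn
      rw [mem_Icc] at hn
      rw [mem_Ioc]
      refine ⟨by omega, hn.2.trans ?_⟩
      calc M ≤ 2 ^ M := Nat.lt_two_pow_self.le
        _ = 2 ^ M * 1 := (mul_one _).symm
        _ ≤ 2 ^ M * N := Nat.mul_le_mul_left _ hN
    · split_ifs
      · exact div_nonneg (sq_nonneg _) (by positivity)
      · exact le_rfl
  refine h1.trans ((F7_tail e he N M hN).trans ?_)
  refine mul_le_mul_of_nonneg_right ?_ (by positivity)
  have h2 := F7_sum.sum_le_tsum (range M) (fun k _ => by positivity)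
  linarith

/-- Tails: for `σ = 2, 3`: `∑_{N < n ≤ M} d(n)² n^(-σ) ≤ C N^(1-σ) (1 + log N)^3`.

Proof. Blocks `(2^k N, 2^(k+1) N]`: `∑ d² ≤ 2^(k+1) N (1 + log (2^(k+1) N))^3` (`H31W.sum_dsq`), `1 + log (2^(k+1) N) ≤ (k+2)(1 + log N)`; the sum is at most `N^(1-σ) (1 + log N)^3 ∑_k 2^(k+1) 2^(-kσ) (k+2)^3`, a convergent series. -/
theorem tail_dsq : ∃ C : ℝ, 1 ≤ C ∧ ∀ N M : ℕ, 1 ≤ N →
    ∑ n ∈ Icc 1 M, (if N < n then dv n ^ 2 / (n : ℝ) ^ 2 else 0) ≤ C * ((1 + Real.log N) ^ 3 / N) ∧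
    ∑ n ∈ Icc 1 M, (if N < n then dv n ^ 2 / (n : ℝ) ^ 3 else 0) ≤ C * ((1 + Real.log N) ^ 3 / (N : ℝ) ^ 2) := by
  refine ⟨(∑' k : ℕ, 2 * (((k : ℝ) + 2) ^ 3 * (1 / 2) ^ k)) + 1, ?_, fun N M hN => ⟨?_, ?_⟩⟩
  · have : 0 ≤ ∑' k : ℕ, 2 * (((k : ℝ) + 2) ^ 3 * (1 / 2) ^ k) :=
      tsum_nonneg fun k => by positivity
    linarith
  · have h := F7_tail' 2 le_rfl N M hN
    rwa [show 2 - 1 = 1 from rfl, pow_one] at h
  · exact F7_tail' 3 (by norm_num) N M hN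

/-- **Mean square of the tail.**

Proof. For the partial sums `D_M(τ)` over `N < n ≤ M`: `MVStm` with `a n = d(n) n^(-3/2)` for `n > N`, `0` for `n ≤ N`: `∑ (U + n) d² n^(-3)`, `tail_dsq`. `D_M → DH N` pointwise (`DH_lim`), Fatou (`lintegral_liminf_le`, or `lintegral` of the limit `≤ liminf`). -/
theorem DH_ms (hV : MVStm) : ∃ C : ℝ, 1 ≤ C ∧ ∀ (N : ℕ) (U : ℝ), 1 ≤ N → 1 ≤ U →
    ∫⁻ τ in Set.Icc (-U) U, ENNReal.ofReal (‖DH N τ‖ ^ 2) ≤
      ENNReal.ofReal (C * ((U / (N : ℝ) ^ 2 + 1 / N) * (1 + Real.log N) ^ 4)) := by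
  obtain ⟨C1, hC1, hmv⟩ := hV
  obtain ⟨C2, hC2, ht⟩ := tail_dsq
  refine ⟨C1 * C2, one_le_mul_of_one_le_of_one_le hC1 hC2, fun N U hN hU => ?_⟩
  have hN' : (0 : ℝ) < N := by exact_mod_cast hN
  have hL : 0 ≤ Real.log N := Real.log_natCast_nonneg N
  let a : ℕ → ℝ := fun n => if N < n then dv n * (n : ℝ) ^ (-(3 / 2) : ℝ) else 0
  let S : ℕ → ℝ → ℂ := fun M τ => ∑ n ∈ Icc 1 M,
    if N < n then (dv n : ℂ) * (n : ℂ) ^ (-((3 / 2 : ℂ) + (τ : ℂ) * Complex.I)) else 0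
  have hS : ∀ M τ, S M τ = ∑ n ∈ Icc 1 M, (a n : ℂ) * (n : ℂ) ^ (-((τ : ℂ) * Complex.I)) := by
    intro M τ
    refine sum_congr rfl fun n hn => ?_
    rw [mem_Icc] at hn
    have hn0 : (n : ℂ) ≠ 0 := by
      have : n ≠ 0 := by omega
      exact_mod_cast this
    by_cases h : N < n
    · simp only [a, if_pos h]
      rw [neg_add, Complex.cpow_add _ _ hn0, Complex.ofReal_mul,
        Complex.ofReal_cpow (Nat.cast_nonneg n)]
      push_cast
      ring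
    · simp only [a, if_neg h]
      rw [Complex.ofReal_zero, zero_mul]
  have hSc : ∀ M, Continuous (S M) := by
    intro M
    refine continuous_finsetSum _ fun n hn => ?_
    rw [mem_Icc] at hn
    split_ifs
    · refine continuous_const.mul (Continuous.const_cpow (by fun_prop) (Or.inl ?_))
      have : n ≠ 0 := by omega
      exact_mod_cast this
    · exact continuous_const
  have hM : ∀ M, ∫⁻ τ in Set.Icc (-U) U, ENNReal.ofReal (‖S M τ‖ ^ 2) ≤
      ENNReal.ofReal (C1 * C2 * ((U / (N : ℝ) ^ 2 + 1 / N) * (1 + Real.log N) ^ 4)) := by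
    intro M
    have h1 := hmv a M U hU
    have h2 : ∀ τ : ℝ, ENNReal.ofReal (‖S M τ‖ ^ 2) =
        ENNReal.ofReal (‖∑ n ∈ Icc 1 M, (a n : ℂ) * (n : ℂ) ^ (-((τ : ℂ) * Complex.I))‖ ^ 2) :=
      fun τ => by rw [hS]
    rw [lintegral_congr h2]
    refine h1.trans (ENNReal.ofReal_le_ofReal ?_)
    rw [mul_assoc]
    refine mul_le_mul_of_nonneg_left ?_ (by linarith)
    have h3 : ∑ n ∈ Icc 1 M, (U + n) * a n ^ 2 =
        U * ∑ n ∈ Icc 1 M, (if N < n then dv n ^ 2 / (n : ℝ) ^ 3 else 0) +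
          ∑ n ∈ Icc 1 M, (if N < n then dv n ^ 2 / (n : ℝ) ^ 2 else 0) := by
      rw [mul_sum, ← sum_add_distrib]
      refine sum_congr rfl fun n hn => ?_
      rw [mem_Icc] at hn
      have hn0 : (0 : ℝ) < n := by
        have : 0 < n := by omega
        exact_mod_cast this
      by_cases h : N < n
      · simp only [a, if_pos h]
        have h4 : ((n : ℝ) ^ (-(3 / 2) : ℝ)) ^ 2 = ((n : ℝ) ^ 3)⁻¹ := by
          rw [← Real.rpow_natCast, ← Real.rpow_mul hn0.le, ← Real.rpow_natCast,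
            ← Real.rpow_neg hn0.le]
          norm_num
        rw [mul_pow, h4]
        field_simp
      · simp only [a, if_neg h]
        ring
    rw [h3]
    obtain ⟨h5, h6⟩ := ht N M hN
    have h7 : U * ∑ n ∈ Icc 1 M, (if N < n then dv n ^ 2 / (n : ℝ) ^ 3 else 0) ≤
        U * (C2 * ((1 + Real.log N) ^ 3 / (N : ℝ) ^ 2)) :=
      mul_le_mul_of_nonneg_left h6 (by linarith)
    have h8 : U * (C2 * ((1 + Real.log N) ^ 3 / (N : ℝ) ^ 2)) + C2 * ((1 + Real.log N) ^ 3 / N) =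
        C2 * ((U / (N : ℝ) ^ 2 + 1 / N) * (1 + Real.log N) ^ 3) := by
      field_simp
    have h9 : (1 + Real.log N) ^ 3 ≤ (1 + Real.log N) ^ 4 :=
      pow_le_pow_right₀ (by linarith) (by norm_num)
    have h10 : C2 * ((U / (N : ℝ) ^ 2 + 1 / N) * (1 + Real.log N) ^ 3) ≤
        C2 * ((U / (N : ℝ) ^ 2 + 1 / N) * (1 + Real.log N) ^ 4) := by
      refine mul_le_mul_of_nonneg_left (mul_le_mul_of_nonneg_left h9 ?_) (by linarith)
      positivity
    linarith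
  have hlim : ∀ τ : ℝ, ENNReal.ofReal (‖DH N τ‖ ^ 2) =
      Filter.liminf (fun M : ℕ => ENNReal.ofReal (‖S M τ‖ ^ 2)) Filter.atTop := by
    intro τ
    have h1 := (DH_lim N τ).1
    have h2 := (ENNReal.continuous_ofReal.tendsto _).comp ((h1.norm).pow 2)
    exact h2.liminf_eq.symm
  rw [lintegral_congr hlim]
  refine (lintegral_liminf_le fun M => ?_).trans ?_
  · exact ENNReal.measurable_ofReal.comp ((hSc M).norm.pow 2).measurable
  · refine (Filter.liminf_le_liminf (Filter.Eventually.of_forall hM)).trans ?_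
    rw [Filter.liminf_const]

end Pool.Agent.Lib.H31P
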