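import Pool.Agent.Lib.H31P.FDefs

/-!
# Chunk F8 (M): mean squares of line integrals
-/

open Finset MeasureTheory

namespace Pool.Agent.Lib.H31P

private theorem F8_kk_pos (v : ℝ) : 0 < kk v := by
  unfold kk
  have : 0 ≤ |v| := abs_nonneg v
  positivity

private theorem F8_kk_cont : Continuous kk := by
  unfold kk
  fun_prop

/-- Cauchy-Schwarz -/
private theorem F8_cs {f g : ℝ → ENNReal} (hf : AEMeasurable f) (hg : AEMeasurable g) :
    (∫⁻ a, f a * g a) ^ 2 ≤ (∫⁻ a, f a ^ 2) * ∫⁻ a, g a ^ 2 := by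
  have h := ENNReal.lintegral_mul_le_Lp_mul_Lq volume (Real.HolderConjugate.two_two) hf hg
  have h2 := pow_le_pow_left' h 2
  simp only [Pi.mul_apply] at h2
  refine h2.trans (le_of_eq ?_)
  rw [mul_pow, ← ENNReal.rpow_natCast, ← ENNReal.rpow_natCast, ← ENNReal.rpow_mul,
    ← ENNReal.rpow_mul]
  norm_num

private theorem F8_int : Integrable (fun v : ℝ => (2 + |v|) * kk v) := by
  have h1 : Integrable (fun v : ℝ => v ^ (7 : ℝ) * Real.exp (-1 * v ^ 2)) :=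
    integrable_rpow_mul_exp_neg_mul_sq (by norm_num) (by norm_num)
  have h2 : Integrable (fun v : ℝ => Real.exp (-1 * v ^ 2)) :=
    integrable_exp_neg_mul_sq (by norm_num)
  have h3 := (h2.const_mul (2 ^ 13)).add (h1.norm.const_mul (2 ^ 6))
  refine h3.mono' ?_ (Filter.Eventually.of_forall fun v => ?_)
  · exact (((continuous_const.add continuous_abs).mul F8_kk_cont)).aestronglyMeasurable
  · have hv : 0 ≤ |v| := abs_nonneg v
    have h4 : (2 + |v|) ^ 7 ≤ 2 ^ 6 * (2 ^ 7 + |v| ^ 7) := add_pow_le (by norm_num) hv 7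
    have h5 : ‖v ^ (7 : ℝ) * Real.exp (-1 * v ^ 2)‖ = |v| ^ 7 * Real.exp (-1 * v ^ 2) := by
      rw [norm_mul, Real.norm_eq_abs, Real.norm_eq_abs, abs_of_pos (Real.exp_pos _),
        show (7 : ℝ) = ((7 : ℕ) : ℝ) by norm_num, Real.rpow_natCast, abs_pow]
    have h6 : 0 ≤ (2 + |v|) * kk v := mul_nonneg (by linarith) (F8_kk_pos v).le
    rw [Real.norm_of_nonneg h6]
    show (2 + |v|) * kk v ≤ 2 ^ 13 * Real.exp (-1 * v ^ 2) +
      2 ^ 6 * ‖v ^ (7 : ℝ) * Real.exp (-1 * v ^ 2)‖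
    rw [h5]
    have h7 : (2 + |v|) * kk v = (2 + |v|) ^ 7 * Real.exp (-1 * v ^ 2) := by
      unfold kk
      rw [neg_one_mul]
      ring
    rw [h7]
    calc (2 + |v|) ^ 7 * Real.exp (-1 * v ^ 2) ≤
          2 ^ 6 * (2 ^ 7 + |v| ^ 7) * Real.exp (-1 * v ^ 2) :=
          mul_le_mul_of_nonneg_right h4 (Real.exp_pos _).le
      _ = 2 ^ 13 * Real.exp (-1 * v ^ 2) + 2 ^ 6 * (|v| ^ 7 * Real.exp (-1 * v ^ 2)) := by ring

private theorem F8_shift {g : ℝ → ENNReal} (T v : ℝ) :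
    ∫⁻ t in Set.Icc (-(2 * T)) (2 * T), g (t + v) ≤
      ∫⁻ τ in Set.Icc (-(2 * T + |v|)) (2 * T + |v|), g τ := by
  rw [← lintegral_indicator measurableSet_Icc, ← lintegral_indicator measurableSet_Icc,
    ← lintegral_add_right_eq_self
      (Set.indicator (Set.Icc (-(2 * T + |v|)) (2 * T + |v|)) fun a => g a) v]
  refine lintegral_mono fun t => ?_
  have h1 := neg_abs_le v
  have h2 := le_abs_self v
  by_cases ht : t ∈ Set.Icc (-(2 * T)) (2 * T)
  · rw [Set.indicator_of_mem ht, Set.indicator_of_mem]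
    exact ⟨by linarith [ht.1], by linarith [ht.2]⟩
  · rw [Set.indicator_of_notMem ht]
    exact zero_le

/-- **Averaging.** `D` continuous with `∫_{-U}^{U} ‖D‖² ≤ UA + B` for all `U ≥ 1`.

Proof. `∫ kk ‖D(t+v)‖ dv ≤ (∫⁻ ...).toReal` (if the function is not integrable the Bochner integral is `0`), and by Cauchy-Schwarz (`ENNReal.lintegral_mul_le_Lp_mul_Lq`) `(∫⁻ kk ‖D(t+v)‖)² ≤ (∫⁻ kk)(∫⁻ kk ‖D(t+v)‖²)`; `∫ kk < ∞` (Gaussian times polynomial). Tonelli (`lintegral_lintegral_swap`; measurable because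
`D`, `kk` are continuous): `∫_{|t| ≤ 2T} ≤ (∫ kk) ∫ kk(v) (∫_{|t| ≤ 2T} ‖D(t+v)‖² dt) dv`, the inner integral is at most that over `|τ| ≤ 2T + |v|`: `≤ (2T + |v|) A + B ≤ (2 + |v|)(TA + B)`. `C₀ = (∫ kk)(∫ (2+|v|) kk)`. -/
theorem line_ms : ∃ C₀ : ℝ, 1 ≤ C₀ ∧ ∀ (D : ℝ → ℂ) (A B T : ℝ), Continuous D → 0 ≤ A → 0 ≤ B → 1 ≤ T →
    (∀ U : ℝ, 1 ≤ U → ∫⁻ τ in Set.Icc (-U) U, ENNReal.ofReal (‖D τ‖ ^ 2) ≤ ENNReal.ofReal (U * A + B)) →
    ∫⁻ t in Set.Icc (-(2 * T)) (2 * T), ENNReal.ofReal ((∫ v : ℝ, kk v * ‖D (t + v)‖) ^ 2) ≤ ENNReal.ofReal (C₀ * (T * A + B)) := by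
  set K₁ : ENNReal := ∫⁻ v : ℝ, ENNReal.ofReal (kk v) with hK₁
  set K₂ : ENNReal := ∫⁻ v : ℝ, ENNReal.ofReal ((2 + |v|) * kk v) with hK₂
  have hK₂f : K₂ ≠ ⊤ := by
    have h1 := F8_int.2
    rw [hasFiniteIntegral_iff_ofReal (Filter.Eventually.of_forall fun v =>
      mul_nonneg (by have := abs_nonneg v; linarith) (F8_kk_pos v).le)] at h1
    exact h1.ne
  have hK₁f : K₁ ≠ ⊤ := by
    refine ne_top_of_le_ne_top hK₂f (lintegral_mono fun v => ENNReal.ofReal_le_ofReal ?_)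
    have h1 := F8_kk_pos v
    have h2 : 0 ≤ |v| := abs_nonneg v
    calc kk v = 1 * kk v := (one_mul _).symm
      _ ≤ (2 + |v|) * kk v := mul_le_mul_of_nonneg_right (by linarith) h1.le
  refine ⟨max 1 (K₁ * K₂).toReal, le_max_left _ _, fun D A B T hD hA hB hT hms => ?_⟩
  have hTAB : 0 ≤ T * A + B := add_nonneg (mul_nonneg (by linarith) hA) hB
  -- pointwise
  have hpt : ∀ t : ℝ, ENNReal.ofReal ((∫ v : ℝ, kk v * ‖D (t + v)‖) ^ 2) ≤
      K₁ * ∫⁻ v : ℝ, ENNReal.ofReal (kk v) * ENNReal.ofReal (‖D (t + v)‖ ^ 2) := by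
    intro t
    have hDc : Continuous fun v : ℝ => D (t + v) := hD.comp (continuous_const.add continuous_id)
    have h0 : ∀ v : ℝ, 0 ≤ kk v * ‖D (t + v)‖ := fun v => mul_nonneg (F8_kk_pos v).le (norm_nonneg _)
    have h1 : ∫ v : ℝ, kk v * ‖D (t + v)‖ =
        (∫⁻ v : ℝ, ENNReal.ofReal (kk v * ‖D (t + v)‖)).toReal :=
      integral_eq_lintegral_of_nonneg_ae (Filter.Eventually.of_forall h0)
        (F8_kk_cont.mul hDc.norm).aestronglyMeasurable
    rw [h1, ENNReal.ofReal_pow ENNReal.toReal_nonneg]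
    refine le_trans (pow_le_pow_left' ENNReal.ofReal_toReal_le 2) ?_
    have h2 : ∀ v : ℝ, ENNReal.ofReal (kk v * ‖D (t + v)‖) =
        ENNReal.ofReal (Real.sqrt (kk v)) * ENNReal.ofReal (Real.sqrt (kk v) * ‖D (t + v)‖) := by
      intro v
      rw [← ENNReal.ofReal_mul (Real.sqrt_nonneg _), ← mul_assoc,
        Real.mul_self_sqrt (F8_kk_pos v).le]
    have h3 : ∀ v : ℝ, ENNReal.ofReal (Real.sqrt (kk v)) ^ 2 = ENNReal.ofReal (kk v) := by
      intro v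
      rw [← ENNReal.ofReal_pow (Real.sqrt_nonneg _), Real.sq_sqrt (F8_kk_pos v).le]
    have h4 : ∀ v : ℝ, ENNReal.ofReal (Real.sqrt (kk v) * ‖D (t + v)‖) ^ 2 =
        ENNReal.ofReal (kk v) * ENNReal.ofReal (‖D (t + v)‖ ^ 2) := by
      intro v
      rw [← ENNReal.ofReal_pow (mul_nonneg (Real.sqrt_nonneg _) (norm_nonneg _)), mul_pow,
        Real.sq_sqrt (F8_kk_pos v).le, ENNReal.ofReal_mul (F8_kk_pos v).le]
    have hs : Continuous fun v : ℝ => Real.sqrt (kk v) := F8_kk_cont.sqrt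
    have h5 := F8_cs (f := fun v : ℝ => ENNReal.ofReal (Real.sqrt (kk v)))
      (g := fun v : ℝ => ENNReal.ofReal (Real.sqrt (kk v) * ‖D (t + v)‖))
      hs.measurable.ennreal_ofReal.aemeasurable
      (hs.mul hDc.norm).measurable.ennreal_ofReal.aemeasurable
    simp only [h3, h4] at h5
    rw [lintegral_congr h2]
    exact h5
  have hmeas : Measurable (Function.uncurry fun (t v : ℝ) =>
      ENNReal.ofReal (kk v) * ENNReal.ofReal (‖D (t + v)‖ ^ 2)) := by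
    have m1 : Measurable fun p : ℝ × ℝ => ENNReal.ofReal (kk p.2) :=
      (F8_kk_cont.comp continuous_snd).measurable.ennreal_ofReal
    have m2 : Measurable fun p : ℝ × ℝ => ENNReal.ofReal (‖D (p.1 + p.2)‖ ^ 2) :=
      ((hD.comp (continuous_fst.add continuous_snd)).norm.pow 2).measurable.ennreal_ofReal
    exact m1.mul m2
  have hin : ∀ v : ℝ, ∫⁻ t in Set.Icc (-(2 * T)) (2 * T),
      ENNReal.ofReal (kk v) * ENNReal.ofReal (‖D (t + v)‖ ^ 2) ≤
        ENNReal.ofReal ((2 + |v|) * kk v) * ENNReal.ofReal (T * A + B) := by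
    intro v
    have hv : 0 ≤ |v| := abs_nonneg v
    rw [lintegral_const_mul' _ _ ENNReal.ofReal_ne_top]
    have h1 := F8_shift (g := fun τ => ENNReal.ofReal (‖D τ‖ ^ 2)) T v
    have h2 := hms (2 * T + |v|) (by linarith)
    have h3 : (2 * T + |v|) * A + B ≤ (2 + |v|) * (T * A + B) := by
      have h4 : 0 ≤ |v| * A := mul_nonneg hv hA
      have h5 : |v| * A * 1 ≤ |v| * A * T := mul_le_mul_of_nonneg_left hT h4
      have h6 : 0 ≤ |v| * B := mul_nonneg hv hB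
      have h7 : (2 + |v|) * (T * A + B) = 2 * T * A + |v| * A * T + 2 * B + |v| * B := by ring
      have h8 : (2 * T + |v|) * A = 2 * T * A + |v| * A * 1 := by ring
      linarith
    calc ENNReal.ofReal (kk v) * ∫⁻ t in Set.Icc (-(2 * T)) (2 * T), ENNReal.ofReal (‖D (t + v)‖ ^ 2)
        ≤ ENNReal.ofReal (kk v) * ENNReal.ofReal ((2 + |v|) * (T * A + B)) :=
          mul_le_mul_right (h1.trans (h2.trans (ENNReal.ofReal_le_ofReal h3))) _
      _ = ENNReal.ofReal ((2 + |v|) * kk v) * ENNReal.ofReal (T * A + B) := by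
          rw [← ENNReal.ofReal_mul (F8_kk_pos v).le,
            ← ENNReal.ofReal_mul (mul_nonneg (by linarith) (F8_kk_pos v).le)]
          congr 1
          ring
  calc ∫⁻ t in Set.Icc (-(2 * T)) (2 * T), ENNReal.ofReal ((∫ v : ℝ, kk v * ‖D (t + v)‖) ^ 2)
      ≤ ∫⁻ t in Set.Icc (-(2 * T)) (2 * T),
          K₁ * ∫⁻ v : ℝ, ENNReal.ofReal (kk v) * ENNReal.ofReal (‖D (t + v)‖ ^ 2) :=
        lintegral_mono fun t => hpt t
    _ = K₁ * ∫⁻ t in Set.Icc (-(2 * T)) (2 * T),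
          ∫⁻ v : ℝ, ENNReal.ofReal (kk v) * ENNReal.ofReal (‖D (t + v)‖ ^ 2) :=
        lintegral_const_mul' _ _ hK₁f
    _ = K₁ * ∫⁻ v : ℝ, ∫⁻ t in Set.Icc (-(2 * T)) (2 * T),
          ENNReal.ofReal (kk v) * ENNReal.ofReal (‖D (t + v)‖ ^ 2) := by
        rw [lintegral_lintegral_swap hmeas.aemeasurable]
    _ ≤ K₁ * ∫⁻ v : ℝ, ENNReal.ofReal ((2 + |v|) * kk v) * ENNReal.ofReal (T * A + B) :=
        mul_le_mul_right (lintegral_mono fun v => hin v) _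
    _ = K₁ * (K₂ * ENNReal.ofReal (T * A + B)) := by
        rw [lintegral_mul_const' _ _ ENNReal.ofReal_ne_top]
    _ = ENNReal.ofReal (K₁ * K₂).toReal * ENNReal.ofReal (T * A + B) := by
        rw [ENNReal.ofReal_toReal (ENNReal.mul_ne_top hK₁f hK₂f), mul_assoc]
    _ = ENNReal.ofReal ((K₁ * K₂).toReal * (T * A + B)) := by
        rw [ENNReal.ofReal_mul ENNReal.toReal_nonneg]
    _ ≤ ENNReal.ofReal (max 1 (K₁ * K₂).toReal * (T * A + B)) :=
        ENNReal.ofReal_le_ofReal (mul_le_mul_of_nonneg_right (le_max_right _ _) hTAB)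

end Pool.Agent.Lib.H31P
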