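import Pool.Agent.Lib.H31P.F5
import Pool.Agent.Lib.H31P.F6
import Pool.Agent.Lib.H31P.F7
import Pool.Agent.Lib.H31P.F8

/-!
# Chunk F9 (M): the fourth moment (`FourStm`)
-/

open Finset MeasureTheory

namespace Pool.Agent.Lib.H31P

private theorem F9_kk_cont : Continuous kk := by
  unfold kk
  fun_prop

private theorem F9_meas {D : ℝ → ℂ} (hD : Continuous D) :
    Measurable fun t : ℝ => ∫ v : ℝ, kk v * ‖D (t + v)‖ := by
  have h : Continuous (Function.uncurry fun (t v : ℝ) => kk v * ‖D (t + v)‖) :=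
    (F9_kk_cont.comp continuous_snd).mul (hD.comp (continuous_fst.add continuous_snd)).norm
  exact (h.stronglyMeasurable.integral_prod_right (ν := volume)).measurable

private theorem F9_block (hV : MVStm) : ∃ C1 : ℝ, 1 ≤ C1 ∧ ∀ T : ℝ, 10 ≤ T →
    ∫⁻ t in Set.Icc (-(2 * T)) (2 * T) ∩ {t | T ≤ |t|},
      ENNReal.ofReal (‖riemannZeta (1 / 2 + (t : ℂ) * Complex.I)‖ ^ 4) ≤
        ENNReal.ofReal (C1 * (T * (1 + Real.log T) ^ 4)) := by
  obtain ⟨C, hC, hDL⟩ := DL_ms hV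
  obtain ⟨C2, hC2, hDH⟩ := DH_ms hV
  obtain ⟨C0, hC0, hline⟩ := line_ms
  have hCC : 0 ≤ C0 * C := mul_nonneg (by linarith) (by linarith)
  have hCC2 : 0 ≤ C0 * C2 := mul_nonneg (by linarith) (by linarith)
  refine ⟨36 * C + 60000 * (C0 * C) + 180000 * (C0 * C2), by linarith, fun T hT => ?_⟩
  have hT0 : 0 < T := by linarith
  obtain ⟨N, hN⟩ : ∃ N : ℕ, N = ⌊T⌋₊ := ⟨_, rfl⟩
  have hNT : (N : ℝ) ≤ T := by rw [hN]; exact Nat.floor_le hT0.le
  have hNT1 : T < N + 1 := by rw [hN]; exact Nat.lt_floor_add_one T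
  have hN2 : T / 2 ≤ N := by linarith
  have hN1r : (1 : ℝ) ≤ N := by linarith
  have hN1 : 1 ≤ N := by exact_mod_cast hN1r
  have hN0 : (0 : ℝ) < N := by linarith
  obtain ⟨lam, hlam⟩ : ∃ lam : ℝ, lam = (1 + Real.log T) ^ 4 := ⟨_, rfl⟩
  have hlogN : 0 ≤ Real.log N := Real.log_nonneg hN1r
  have hlamN : (1 + Real.log N) ^ 4 ≤ lam := by
    rw [hlam]
    exact pow_le_pow_left₀ (by linarith) (by linarith [Real.log_le_log hN0 hNT]) 4
  have hl0 : 0 ≤ (1 + Real.log N) ^ 4 := by positivity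
  have hlam0 : 0 ≤ lam := hl0.trans hlamN
  rw [← hlam]
  -- the three mean squares
  have hA : ∫⁻ t in Set.Icc (-(2 * T)) (2 * T), ENNReal.ofReal (‖DL (1 / 2) N t‖ ^ 2) ≤
      ENNReal.ofReal (3 * C * T * lam) := by
    refine ((hDL N (2 * T) hN1 (by linarith)).1).trans (ENNReal.ofReal_le_ofReal ?_)
    have h1 : (2 * T + N) * (1 + Real.log N) ^ 4 ≤ (3 * T) * lam :=
      mul_le_mul (by linarith) hlamN hl0 (by linarith)
    have h2 := mul_le_mul_of_nonneg_left h1 (show 0 ≤ C by linarith)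
    linarith
  have hB : ∫⁻ t in Set.Icc (-(2 * T)) (2 * T),
      ENNReal.ofReal ((∫ v : ℝ, kk v * ‖DL (-(1 / 2)) N (t + v)‖) ^ 2) ≤
      ENNReal.ofReal (C0 * (T * (C * T ^ 2 * lam) + C * T ^ 3 * lam)) := by
    refine hline (DL (-(1 / 2)) N) (C * T ^ 2 * lam) (C * T ^ 3 * lam) T (DL_cont _ _)
      (by positivity) (by positivity) (by linarith) fun U hU => ?_
    refine ((hDL N U hN1 hU).2).trans (ENNReal.ofReal_le_ofReal ?_)
    have h1 : (N : ℝ) ^ 2 ≤ T ^ 2 := pow_le_pow_left₀ hN0.le hNT 2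
    have h2 : (U + N) * (N : ℝ) ^ 2 ≤ (U + T) * T ^ 2 :=
      mul_le_mul (by linarith) h1 (by positivity) (by linarith)
    have h3 : (U + N) * (N : ℝ) ^ 2 * (1 + Real.log N) ^ 4 ≤ (U + T) * T ^ 2 * lam :=
      mul_le_mul h2 hlamN hl0 (by positivity)
    have h4 := mul_le_mul_of_nonneg_left h3 (show 0 ≤ C by linarith)
    have h5 : C * ((U + T) * T ^ 2 * lam) = U * (C * T ^ 2 * lam) + C * T ^ 3 * lam := by ring
    linarith
  have hH : ∫⁻ t in Set.Icc (-(2 * T)) (2 * T),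
      ENNReal.ofReal ((∫ v : ℝ, kk v * ‖DH N (t + v)‖) ^ 2) ≤
      ENNReal.ofReal (C0 * (T * (4 * C2 * lam / T ^ 2) + 2 * C2 * lam / T)) := by
    refine hline (DH N) (4 * C2 * lam / T ^ 2) (2 * C2 * lam / T) T (DH_cont _)
      (by positivity) (by positivity) (by linarith) fun U hU => ?_
    refine ((hDH N U hN1 hU)).trans (ENNReal.ofReal_le_ofReal ?_)
    have h1 : 1 / (N : ℝ) ≤ 2 / T := by
      rw [div_le_div_iff₀ hN0 hT0]
      linarith
    have h2 : U / (N : ℝ) ^ 2 ≤ U * (4 / T ^ 2) := by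
      have h3 : (1 / (N : ℝ)) ^ 2 ≤ (2 / T) ^ 2 := pow_le_pow_left₀ (by positivity) h1 2
      calc U / (N : ℝ) ^ 2 = U * (1 / (N : ℝ)) ^ 2 := by ring
        _ ≤ U * (2 / T) ^ 2 := mul_le_mul_of_nonneg_left h3 (by linarith)
        _ = U * (4 / T ^ 2) := by ring
    have h3 : (U / (N : ℝ) ^ 2 + 1 / N) * (1 + Real.log N) ^ 4 ≤
        (U * (4 / T ^ 2) + 2 / T) * lam :=
      mul_le_mul (by linarith) hlamN hl0 (by positivity)
    have h4 := mul_le_mul_of_nonneg_left h3 (show 0 ≤ C2 by linarith)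
    have h5 : C2 * ((U * (4 / T ^ 2) + 2 / T) * lam) =
        U * (4 * C2 * lam / T ^ 2) + 2 * C2 * lam / T := by ring
    linarith
  have mA : Measurable fun t : ℝ => ENNReal.ofReal (‖DL (1 / 2) N t‖ ^ 2) :=
    ((DL_cont _ _).norm.pow 2).measurable.ennreal_ofReal
  have mB : Measurable fun t : ℝ =>
      ENNReal.ofReal ((∫ v : ℝ, kk v * ‖DL (-(1 / 2)) N (t + v)‖) ^ 2) :=
    ((F9_meas (DL_cont _ _)).pow_const 2).ennreal_ofReal
  have hpt : ∀ t ∈ Set.Icc (-(2 * T)) (2 * T) ∩ {t | T ≤ |t|},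
      ENNReal.ofReal (‖riemannZeta (1 / 2 + (t : ℂ) * Complex.I)‖ ^ 4) ≤
      ENNReal.ofReal 12 * ENNReal.ofReal (‖DL (1 / 2) N t‖ ^ 2) +
      (ENNReal.ofReal (30000 / T ^ 2) *
        ENNReal.ofReal ((∫ v : ℝ, kk v * ‖DL (-(1 / 2)) N (t + v)‖) ^ 2) +
      ENNReal.ofReal (30000 * T ^ 2) *
        ENNReal.ofReal ((∫ v : ℝ, kk v * ‖DH N (t + v)‖) ^ 2)) := by
    rintro t ⟨ht1, ht2⟩
    have ht3 : |t| ≤ 2 * T := abs_le.2 ht1
    have h1 := afe T t hT ht2 ht3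
    rw [← hN] at h1
    obtain ⟨α, hα⟩ : ∃ α : ℝ, α = ‖DL (1 / 2) N t‖ := ⟨_, rfl⟩
    obtain ⟨β, hβ⟩ : ∃ β : ℝ, β = ∫ v : ℝ, kk v * ‖DL (-(1 / 2)) N (t + v)‖ := ⟨_, rfl⟩
    obtain ⟨γ, hγ⟩ : ∃ γ : ℝ, γ = ∫ v : ℝ, kk v * ‖DH N (t + v)‖ := ⟨_, rfl⟩
    rw [← hα, ← hβ, ← hγ] at h1
    rw [← hα, ← hβ, ← hγ]
    rw [← ENNReal.ofReal_mul (by norm_num), ← ENNReal.ofReal_mul (by positivity),
      ← ENNReal.ofReal_mul (by positivity), ← ENNReal.ofReal_add (by positivity) (by positivity),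
      ← ENNReal.ofReal_add (by positivity) (by positivity)]
    refine ENNReal.ofReal_le_ofReal ?_
    have h2 : ‖riemannZeta (1 / 2 + (t : ℂ) * Complex.I)‖ ^ 4 =
        (‖riemannZeta (1 / 2 + (t : ℂ) * Complex.I)‖ ^ 2) ^ 2 := by ring
    rw [h2]
    refine (pow_le_pow_left₀ (by positivity) h1 2).trans ?_
    have h3 : (2 * α + 100 * (1 / T * β + T * γ)) ^ 2 ≤
        3 * ((2 * α) ^ 2 + (100 * (1 / T * β)) ^ 2 + (100 * (T * γ)) ^ 2) := by
      nlinarith [sq_nonneg (2 * α - 100 * (1 / T * β)), sq_nonneg (2 * α - 100 * (T * γ)),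
        sq_nonneg (100 * (1 / T * β) - 100 * (T * γ))]
    refine h3.trans (le_of_eq ?_)
    ring
  have hmeas : MeasurableSet (Set.Icc (-(2 * T)) (2 * T) ∩ {t : ℝ | T ≤ |t|}) :=
    measurableSet_Icc.inter (measurableSet_le measurable_const measurable_norm)
  refine (setLIntegral_mono' hmeas hpt).trans ?_
  refine (lintegral_mono_set Set.inter_subset_left).trans ?_
  rw [lintegral_add_left (mA.const_mul _), lintegral_add_left (mB.const_mul _),
    lintegral_const_mul' _ _ ENNReal.ofReal_ne_top, lintegral_const_mul' _ _ ENNReal.ofReal_ne_top,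
    lintegral_const_mul' _ _ ENNReal.ofReal_ne_top]
  refine (add_le_add (mul_le_mul' le_rfl hA) (add_le_add (mul_le_mul' le_rfl hB)
    (mul_le_mul' le_rfl hH))).trans ?_
  rw [← ENNReal.ofReal_mul (by norm_num), ← ENNReal.ofReal_mul (by positivity),
    ← ENNReal.ofReal_mul (by positivity), ← ENNReal.ofReal_add (by positivity) (by positivity),
    ← ENNReal.ofReal_add (by positivity) (by positivity)]
  refine ENNReal.ofReal_le_ofReal (le_of_eq ?_)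
  field_simp
  ring

private theorem F9_cont :
    Continuous fun t : ℝ => ‖riemannZeta (1 / 2 + (t : ℂ) * Complex.I)‖ ^ 4 := by
  have h : Continuous fun t : ℝ => riemannZeta (1 / 2 + (t : ℂ) * Complex.I) := by
    rw [continuous_iff_continuousAt]
    intro t
    have h1 : (1 / 2 + (t : ℂ) * Complex.I) ≠ 1 := by
      intro h2
      have := congrArg Complex.re h2
      simp at this
    have h3 : ContinuousAt (fun t : ℝ => (1 / 2 + (t : ℂ) * Complex.I)) t := by fun_prop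
    exact ContinuousAt.comp (f := fun t : ℝ => (1 / 2 + (t : ℂ) * Complex.I))
      (differentiableAt_riemannZeta h1).continuousAt h3
  exact h.norm.pow 4

private theorem F9_aux (hV : MVStm) : ∃ C : ℕ, 1 ≤ C ∧ ∀ T : ℝ, 2 ≤ T →
    ∫⁻ t in Set.Icc (-T) T, ENNReal.ofReal (‖riemannZeta (1 / 2 + (t : ℂ) * Complex.I)‖ ^ 4) ≤
      ENNReal.ofReal (C * T * Real.log (T + 2) ^ C) := by
  obtain ⟨C1, hC1, hblock⟩ := F9_block hV
  obtain ⟨I, hI⟩ : ∃ I : ℝ → ENNReal, I = fun R : ℝ => ∫⁻ t : ℝ in Set.Icc (-R) R,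
    ENNReal.ofReal (‖riemannZeta (1 / 2 + (t : ℂ) * Complex.I)‖ ^ 4) := ⟨_, rfl⟩
  have hfin : I 10 < ⊤ := by
    rw [hI]
    exact (F9_cont.integrableOn_Icc (a := (-10 : ℝ)) (b := 10)).lintegral_lt_top
  obtain ⟨M, hM⟩ : ∃ M : ℝ, M = (I 10).toReal := ⟨_, rfl⟩
  have hM0 : 0 ≤ M := by rw [hM]; exact ENNReal.toReal_nonneg
  have hI10 : I 10 ≤ ENNReal.ofReal M := by rw [hM, ENNReal.ofReal_toReal hfin.ne]
  have hstep : ∀ R : ℝ, 10 ≤ R →
      I (2 * R) ≤ I R + ENNReal.ofReal (C1 * (R * (1 + Real.log R) ^ 4)) := by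
    intro R hR
    have hsub : Set.Icc (-(2 * R)) (2 * R) ⊆
        Set.Icc (-R) R ∪ (Set.Icc (-(2 * R)) (2 * R) ∩ {t | R ≤ |t|}) := by
      intro t ht
      by_cases h : |t| ≤ R
      · exact Or.inl (abs_le.1 h)
      · exact Or.inr ⟨ht, (not_le.1 h).le⟩
    have h1 : I (2 * R) ≤ ∫⁻ t : ℝ in Set.Icc (-R) R ∪ (Set.Icc (-(2 * R)) (2 * R) ∩ {t | R ≤ |t|}),
        ENNReal.ofReal (‖riemannZeta (1 / 2 + (t : ℂ) * Complex.I)‖ ^ 4) := by
      rw [hI]
      exact lintegral_mono_set hsub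
    refine (h1.trans (lintegral_union_le _ _ _)).trans ?_
    rw [hI]
    exact add_le_add le_rfl (hblock R hR)
  have hpow : ∀ k : ℕ, I (10 * 2 ^ k) ≤
      ENNReal.ofReal (M + C1 * ((10 * 2 ^ k) * (1 + Real.log (10 * 2 ^ k)) ^ 4)) := by
    intro k
    induction k with
    | zero =>
      rw [pow_zero, mul_one]
      refine hI10.trans (ENNReal.ofReal_le_ofReal ?_)
      have h1 : 0 ≤ Real.log 10 := Real.log_nonneg (by norm_num)
      have h2 : 0 ≤ C1 * (10 * (1 + Real.log 10) ^ 4) := by positivity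
      linarith
    | succ k ih =>
      have h2k : (1 : ℝ) ≤ 2 ^ k := one_le_pow₀ (by norm_num)
      have h1 := hstep (10 * 2 ^ k) (by linarith)
      have h2 : (10 : ℝ) * 2 ^ (k + 1) = 2 * (10 * 2 ^ k) := by rw [pow_succ]; ring
      rw [h2]
      refine h1.trans ((add_le_add ih le_rfl).trans ?_)
      have hl : 0 ≤ Real.log (10 * 2 ^ k) := Real.log_nonneg (by linarith)
      have hl2 : Real.log (10 * 2 ^ k) ≤ Real.log (2 * (10 * 2 ^ k)) :=
        Real.log_le_log (by linarith) (by linarith)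
      have hp : 0 ≤ C1 * ((10 * 2 ^ k) * (1 + Real.log (10 * 2 ^ k)) ^ 4) := by positivity
      rw [← ENNReal.ofReal_add (by linarith) hp]
      refine ENNReal.ofReal_le_ofReal ?_
      have h3 : (1 + Real.log (10 * 2 ^ k)) ^ 4 ≤ (1 + Real.log (2 * (10 * 2 ^ k))) ^ 4 :=
        pow_le_pow_left₀ (by linarith) (by linarith) 4
      have h4 : C1 * (2 * (10 * 2 ^ k)) * (1 + Real.log (10 * 2 ^ k)) ^ 4 ≤
          C1 * (2 * (10 * 2 ^ k)) * (1 + Real.log (2 * (10 * 2 ^ k))) ^ 4 :=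
        mul_le_mul_of_nonneg_left h3 (by positivity)
      linarith
  obtain ⟨C, hC⟩ := exists_nat_ge (M + 6250 * C1 + 4)
  have hC4 : 4 ≤ C := by
    have : (4 : ℝ) ≤ C := by linarith
    exact_mod_cast this
  refine ⟨C, by omega, fun T hT => ?_⟩
  obtain ⟨n, hn1, hn2⟩ := exists_nat_pow_near (x := T) (y := 2) (by linarith) (by norm_num)
  have h1 : Set.Icc (-T) T ⊆ Set.Icc (-(10 * 2 ^ n)) (10 * 2 ^ n) := by
    have h2 : T ≤ 10 * 2 ^ n := by
      rw [pow_succ] at hn2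
      have : (0 : ℝ) < 2 ^ n := by positivity
      linarith
    exact Set.Icc_subset_Icc (by linarith) h2
  have h2 := hpow n
  rw [hI] at h2
  refine ((lintegral_mono_set h1).trans h2).trans (ENNReal.ofReal_le_ofReal ?_)
  obtain ⟨L, hL⟩ : ∃ L : ℝ, L = Real.log (T + 2) := ⟨_, rfl⟩
  rw [← hL]
  have hL1 : 1 ≤ L := by
    rw [hL, Real.le_log_iff_exp_le (by linarith)]
    have := Real.exp_one_lt_d9
    linarith
  have h2n : (1 : ℝ) ≤ 2 ^ n := one_le_pow₀ (by norm_num)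
  have h3 : Real.log (10 * 2 ^ n) ≤ 4 * L := by
    have h4 : (10 : ℝ) * 2 ^ n ≤ (T + 2) ^ 4 := by
      have h5 : (4 : ℝ) ^ 3 ≤ (T + 2) ^ 3 := pow_le_pow_left₀ (by norm_num) (by linarith) 3
      have h6 : (4 : ℝ) ^ 3 * (T + 2) ≤ (T + 2) ^ 3 * (T + 2) :=
        mul_le_mul_of_nonneg_right h5 (by linarith)
      have h7 : (T + 2) ^ 4 = (T + 2) ^ 3 * (T + 2) := by ring
      rw [h7]
      norm_num at h6
      linarith
    have h5 := Real.log_le_log (by linarith) h4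
    rw [Real.log_pow, ← hL] at h5
    push_cast at h5
    exact h5
  have hl0 : 0 ≤ Real.log (10 * 2 ^ n) := Real.log_nonneg (by linarith)
  have h4 : (1 + Real.log (10 * 2 ^ n)) ^ 4 ≤ (5 * L) ^ 4 :=
    pow_le_pow_left₀ (by linarith) (by linarith) 4
  have h5 : (10 : ℝ) * 2 ^ n ≤ 10 * T := by linarith
  have h6 : C1 * ((10 * 2 ^ n) * (1 + Real.log (10 * 2 ^ n)) ^ 4) ≤ C1 * ((10 * T) * (5 * L) ^ 4) :=
    mul_le_mul_of_nonneg_left (mul_le_mul h5 h4 (by positivity) (by linarith)) (by linarith)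
  have h7 : 1 ≤ T * L ^ 4 := one_le_mul_of_one_le_of_one_le (by linarith) (one_le_pow₀ hL1)
  have h8 : M * 1 ≤ M * (T * L ^ 4) := mul_le_mul_of_nonneg_left h7 hM0
  have h9 : L ^ 4 ≤ L ^ C := pow_le_pow_right₀ hL1 hC4
  have h10 : (M + 6250 * C1) * (T * L ^ 4) ≤ C * (T * L ^ C) := by
    refine mul_le_mul (by linarith) (mul_le_mul_of_nonneg_left h9 (by linarith)) (by positivity)
      (Nat.cast_nonneg _)
  calc M + C1 * ((10 * 2 ^ n) * (1 + Real.log (10 * 2 ^ n)) ^ 4)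
      ≤ M * (T * L ^ 4) + C1 * ((10 * T) * (5 * L) ^ 4) := by linarith
    _ = (M + 6250 * C1) * (T * L ^ 4) := by ring
    _ ≤ C * (T * L ^ C) := h10
    _ = C * T * L ^ C := by ring

/-- **`FourStm`.**

Proof. `T ≥ 10`, `N = ⌊T⌋ ∈ [T/2, T]`, `λ = (1 + log T)^4`. For `T ≤ |t| ≤ 2T`: `‖ζ‖⁴ ≤ 3 (4 ‖DL (1/2) N t‖² + 10⁴ T^(-2) (∫ kk ‖DL (-1/2)‖)² + 10⁴ T² (∫ kk ‖DH‖)²)` (`afe`). Mean squares: `DL_ms` (`U = 2T`): `C (3T) λ`; `line_ms` with `A = C N² λ`, `B = C N³ λ`: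
`T^(-2) C₀ (TA + B) ≤ 2 C C₀ T λ`; `line_ms` with `A = C N^(-2) λ`, `B = C N^(-1) λ`: `T² C₀ (T·4T^(-2) + 2T^(-1)) C λ = 6 C C₀ T λ`. So the integral over `T ≤ |t| ≤ 2T` is at most `C' T (1 + log T)^4`. Dyadic blocks `10·2^k ≤ |t| ≤ 10·2^(k+1)`, `2^k ≤ T`, and `|t| ≤ 10` (continuity of `ζ` on the line `Re s = 1/2`):
for `T ≥ 2` in all `≤ C'' T log (T+2)^5` (`log (T+2) ≥ 1`); finally one natural number `C` for the factor and the exponent (`log (T+2) ≥ 1`). -/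
theorem four_stm (hV : MVStm) : FourStm := F9_aux hV

end Pool.Agent.Lib.H31P
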