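import Pool.Agent.Lib.H31P.Top
import Pool.Agent.Lib.H68T.GL2

/-!
# Module F (fourth moment): definitions

`gl2_Z` (file `H68T/GL2.lean`) is the entire function `(s-1) ζ(s)`.
-/

open Finset MeasureTheory

namespace Pool.Agent.Lib.H31P

noncomputable section

/-- The number of divisors. -/
def dv (n : ℕ) : ℝ := (n.divisors.card : ℝ)

/-- `∑_{n ≤ N} d(n) n^(-σ-iτ)` -/
def DL (σ : ℝ) (N : ℕ) (τ : ℝ) : ℂ := ∑ n ∈ Icc 1 N, (dv n : ℂ) * (n : ℂ) ^ (-((σ : ℂ) + (τ : ℂ) * Complex.I))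

/-- `∑_{n > N} d(n) n^(-3/2-iτ)` -/
def DH (N : ℕ) (τ : ℝ) : ℂ :=
  ∑' n : ℕ, if N < n then (dv n : ℂ) * (n : ℂ) ^ (-((3 / 2 : ℂ) + (τ : ℂ) * Complex.I)) else 0

/-- `(z-1) χ(z)`, where `ζ(z) = χ(z) ζ(1-z)`. -/
def XX (z : ℂ) : ℂ := -2 * (2 * Real.pi : ℂ) ^ (z - 1) * Complex.Gamma (2 - z) * Complex.cos (Real.pi * (1 - z) / 2)

/-- A kernel. -/
def kk (v : ℝ) : ℝ := (2 + |v|) ^ 6 * Real.exp (-v ^ 2)

/-- The Mellin (Laplace) transform of the tent. -/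
def Ps (w : ℂ) : ℂ := ∫ x in (-1 : ℝ)..1, (psi x : ℂ) * Complex.exp (w * x)

/-- The transform of `x psi x`. -/
def Ps1 (w : ℂ) : ℂ := ∫ x in (-1 : ℝ)..1, ((x * psi x : ℝ) : ℂ) * Complex.exp (w * x)

/-- `J(t) = ∫ |ζ(1/2 + i(t+v))|/(1+v²) dv` -/
def JJ (t : ℝ) : ℝ := ∫ v : ℝ, 1 / (1 + v ^ 2) * ‖riemannZeta (1 / 2 + ((t + v : ℝ) : ℂ) * Complex.I)‖

end

end Pool.Agent.Lib.H31P
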