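import Pool.Agent.Lib.H31P.G3

/-!
# Chunk G4 (M): the fourth moment of `J`, and `M4Stm`
-/

open Finset MeasureTheory

namespace Pool.Agent.Lib.H31P

/-! ### Helpers -/

private noncomputable def G4z (τ : ℝ) : ℝ := ‖riemannZeta (1 / 2 + (τ : ℂ) * Complex.I)‖

private theorem G4z_cont : Continuous G4z := by
  unfold G4z
  refine Continuous.norm ?_
  rw [continuous_iff_continuousAt]
  intro τ
  have h1 : (1 / 2 + (τ : ℂ) * Complex.I) ≠ 1 := by
    intro h
    have := congrArg Complex.re h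
    norm_num at this
  have h2 : ContinuousAt (fun τ : ℝ => (1 / 2 + (τ : ℂ) * Complex.I)) τ := by fun_prop
  exact ContinuousAt.comp (f := fun τ : ℝ => (1 / 2 + (τ : ℂ) * Complex.I))
    (differentiableAt_riemannZeta h1).continuousAt h2

private noncomputable def G4W (v : ℝ) : ENNReal := ENNReal.ofReal (1 / (1 + v ^ 2))

private noncomputable def G4Z (τ : ℝ) : ENNReal := ENNReal.ofReal (G4z τ ^ 4)

private theorem G4W_meas : Measurable G4W := by
  unfold G4W
  fun_prop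

private theorem G4Z_meas : Measurable G4Z :=
  ((G4z_cont.pow 4).measurable).ennreal_ofReal

private theorem G4W_int : ∫⁻ v, G4W v = ENNReal.ofReal Real.pi := by
  unfold G4W
  rw [← integral_univ_inv_one_add_sq, ofReal_integral_eq_lintegral_ofReal integrable_inv_one_add_sq
    (Filter.Eventually.of_forall fun v => by positivity)]
  simp only [one_div]

private theorem G4_holder (w z : ℝ → ENNReal) (hw : Measurable w) (hz : Measurable z) :
    (∫⁻ v, w v * z v) ^ 4 ≤ (∫⁻ v, w v) ^ 3 * ∫⁻ v, w v * z v ^ 4 := by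
  have h1 : ∫⁻ v, w v * z v = ∫⁻ v, z v ∂(volume.withDensity w) := by
    rw [lintegral_withDensity_eq_lintegral_mul _ hw hz]
    rfl
  have h2 : ∫⁻ v, w v * z v ^ 4 = ∫⁻ v, z v ^ (4 : ℝ) ∂(volume.withDensity w) := by
    rw [lintegral_withDensity_eq_lintegral_mul _ hw (hz.pow_const (4 : ℝ))]
    refine lintegral_congr fun v => ?_
    simp only [Pi.mul_apply]
    congr 1
    exact_mod_cast (ENNReal.rpow_natCast (z v) 4).symm
  have h3 : ∫⁻ v, w v = ∫⁻ v, (1 : ENNReal) ^ (4 / 3 : ℝ) ∂(volume.withDensity w) := by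
    rw [lintegral_withDensity_eq_lintegral_mul _ hw measurable_const]
    refine lintegral_congr fun v => ?_
    simp
  have hpq : Real.HolderConjugate 4 (4 / 3) := by
    rw [Real.holderConjugate_iff]
    norm_num
  have h4 := ENNReal.lintegral_mul_le_Lp_mul_Lq (volume.withDensity w) hpq
    (f := z) (g := fun _ => 1) hz.aemeasurable aemeasurable_const
  have h5 : ∫⁻ v, (z * (fun _ => (1 : ENNReal)) : ℝ → ENNReal) v ∂(volume.withDensity w) =
      ∫⁻ v, z v ∂(volume.withDensity w) := lintegral_congr fun v => by simp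
  rw [h5, ← h1, ← h2, ← h3] at h4
  calc (∫⁻ v, w v * z v) ^ 4
      ≤ ((∫⁻ v, w v * z v ^ 4) ^ (1 / 4 : ℝ) * (∫⁻ v, w v) ^ (1 / (4 / 3) : ℝ)) ^ 4 :=
        pow_le_pow_left' h4 4
    _ = (∫⁻ v, w v) ^ 3 * ∫⁻ v, w v * z v ^ 4 := by
        rw [mul_pow, ← ENNReal.rpow_natCast, ← ENNReal.rpow_natCast, ← ENNReal.rpow_mul,
          ← ENNReal.rpow_mul]
        have e1 : (1 / 4 : ℝ) * ((4 : ℕ) : ℝ) = 1 := by norm_num
        have e2 : (1 / (4 / 3) : ℝ) * ((4 : ℕ) : ℝ) = ((3 : ℕ) : ℝ) := by norm_num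
        rw [e1, e2, ENNReal.rpow_one, ENNReal.rpow_natCast, mul_comm]

private theorem G4_JJ (t : ℝ) : ENNReal.ofReal (JJ t ^ 4) ≤
    ENNReal.ofReal (Real.pi ^ 3) * ∫⁻ v, G4W v * G4Z (t + v) := by
  have h0 : ∀ v : ℝ, ‖riemannZeta (1 / 2 + ((t + v : ℝ) : ℂ) * Complex.I)‖ = G4z (t + v) :=
    fun v => rfl
  have hc : Continuous fun v : ℝ => 1 / (1 + v ^ 2) * G4z (t + v) := by
    refine Continuous.mul ?_ (G4z_cont.comp (continuous_const.add continuous_id))
    exact Continuous.div continuous_const (by fun_prop) (fun v => by positivity)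
  have hn : ∀ v : ℝ, 0 ≤ 1 / (1 + v ^ 2) * G4z (t + v) := fun v =>
    mul_nonneg (by positivity) (norm_nonneg _)
  have h1 : JJ t = (∫⁻ v, ENNReal.ofReal (1 / (1 + v ^ 2) * G4z (t + v))).toReal := by
    unfold JJ
    simp only [h0]
    exact integral_eq_lintegral_of_nonneg_ae (Filter.Eventually.of_forall hn)
      hc.aestronglyMeasurable
  have h2 : ENNReal.ofReal (JJ t) ≤ ∫⁻ v, G4W v * ENNReal.ofReal (G4z (t + v)) := by
    rw [h1]
    refine ENNReal.ofReal_toReal_le.trans (le_of_eq ?_)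
    refine lintegral_congr fun v => ?_
    rw [ENNReal.ofReal_mul (by positivity)]
    rfl
  have hJ : 0 ≤ JJ t := by
    rw [h1]
    exact ENNReal.toReal_nonneg
  have hzm : Measurable fun v : ℝ => ENNReal.ofReal (G4z (t + v)) :=
    (G4z_cont.comp (continuous_const.add continuous_id)).measurable.ennreal_ofReal
  have h3 := G4_holder G4W (fun v => ENNReal.ofReal (G4z (t + v))) G4W_meas hzm
  rw [ENNReal.ofReal_pow hJ]
  refine (pow_le_pow_left' h2 4).trans (h3.trans (le_of_eq ?_))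
  rw [G4W_int, ENNReal.ofReal_pow Real.pi_pos.le]
  congr 1
  refine lintegral_congr fun v => ?_
  unfold G4Z
  rw [ENNReal.ofReal_pow (show 0 ≤ G4z (t + v) from norm_nonneg _)]

private theorem G4_shift (E : Set ℝ) (hE : MeasurableSet E) (v R : ℝ)
    (h : ∀ t ∈ E, |t + v| ≤ R) : ∫⁻ t in E, G4Z (t + v) ≤ ∫⁻ τ in Set.Icc (-R) R, G4Z τ := by
  rw [← lintegral_indicator hE, ← lintegral_indicator measurableSet_Icc,
    ← lintegral_add_right_eq_self ((Set.Icc (-R) R).indicator G4Z) v]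
  refine lintegral_mono fun t => ?_
  by_cases ht : t ∈ E
  · rw [Set.indicator_of_mem ht, Set.indicator_of_mem]
    exact ⟨(abs_le.mp (h t ht)).1, (abs_le.mp (h t ht)).2⟩
  · rw [Set.indicator_of_notMem ht]
    exact bot_le

private theorem G4_log (T : ℝ) (hT : 2 ≤ T) (m : ℕ) :
    Real.log (2 ^ m * T + 2) ≤ (m + 1) * Real.log (T + 2) := by
  have h1 : (1 : ℝ) ≤ 2 ^ m := one_le_pow₀ (by norm_num)
  have h2 : (2 : ℝ) ^ m * T + 2 ≤ (T + 2) ^ (m + 1) := by
    have h3 : (2 : ℝ) ^ m ≤ (T + 2) ^ m := pow_le_pow_left₀ (by norm_num) (by linarith) m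
    rw [pow_succ]
    nlinarith [mul_le_mul_of_nonneg_right h3 (show (0 : ℝ) ≤ T + 2 by linarith)]
  calc Real.log (2 ^ m * T + 2) ≤ Real.log ((T + 2) ^ (m + 1)) :=
        Real.log_le_log (by positivity) h2
    _ = (m + 1) * Real.log (T + 2) := by
        rw [Real.log_pow]
        push_cast
        ring

private theorem G4_one_le_log (T : ℝ) (hT : 2 ≤ T) : 1 ≤ Real.log (T + 2) := by
  rw [Real.le_log_iff_exp_le (by linarith)]
  have := Real.exp_one_lt_d9
  linarith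

private theorem G4_box (C : ℕ) (h4 : ∀ T : ℝ, 2 ≤ T →
    ∫⁻ t in Set.Icc (-T) T, ENNReal.ofReal (‖riemannZeta (1 / 2 + (t : ℂ) * Complex.I)‖ ^ 4) ≤
      ENNReal.ofReal (C * T * Real.log (T + 2) ^ C)) (T : ℝ) (hT : 2 ≤ T) (m : ℕ) :
    ∫⁻ τ in Set.Icc (-(2 ^ m * T)) (2 ^ m * T), G4Z τ ≤
      ENNReal.ofReal (C * (2 ^ m * T) * ((m + 1) * Real.log (T + 2)) ^ C) := by
  have h1 : (1 : ℝ) ≤ 2 ^ m := one_le_pow₀ (by norm_num)
  have h2 : 2 ≤ 2 ^ m * T := by nlinarith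
  refine (h4 (2 ^ m * T) h2).trans (ENNReal.ofReal_le_ofReal ?_)
  refine mul_le_mul_of_nonneg_left ?_ (by positivity)
  refine pow_le_pow_left₀ (Real.log_nonneg (by linarith)) (G4_log T hT m) C

private theorem G4_sum (C : ℕ) : Summable fun k : ℕ => ((k : ℝ) + 3) ^ C * (1 / 2) ^ k := by
  have h1 := summable_pow_mul_geometric_of_norm_lt_one C (r := (1 / 2 : ℝ)) (by norm_num)
  have h2 := (summable_nat_add_iff 3).mpr h1
  have h3 := h2.mul_left 8
  refine h3.congr fun k => ?_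
  push_cast
  rw [pow_add]
  ring

private theorem G4_total (C : ℕ) (h4 : ∀ T : ℝ, 2 ≤ T →
    ∫⁻ t in Set.Icc (-T) T, ENNReal.ofReal (‖riemannZeta (1 / 2 + (t : ℂ) * Complex.I)‖ ^ 4) ≤
      ENNReal.ofReal (C * T * Real.log (T + 2) ^ C)) (T : ℝ) (hT : 2 ≤ T) :
    ∫⁻ t in Set.Icc (-T) T, ∫⁻ v, G4W v * G4Z (t + v) ≤
      ENNReal.ofReal ((Real.pi * (C * 2 * 2 ^ C) + 8 * C * ∑' k : ℕ, ((k : ℝ) + 3) ^ C * (1 / 2) ^ k) *
        T * Real.log (T + 2) ^ C) := by
  have hT0 : 0 < T := by linarith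
  have hL := G4_one_le_log T hT
  have hL0 : 0 ≤ Real.log (T + 2) := by linarith
  set S : ℝ := ∑' k : ℕ, ((k : ℝ) + 3) ^ C * (1 / 2) ^ k with hS
  have hS0 : 0 ≤ S := tsum_nonneg fun k => by positivity
  have hm1 : Measurable (Function.uncurry fun t v : ℝ => G4Z (t + v)) :=
    G4Z_meas.comp measurable_add
  have hm2 : Measurable (Function.uncurry fun t v : ℝ => G4W v * G4Z (t + v)) :=
    (G4W_meas.comp measurable_snd).mul hm1
  rw [lintegral_lintegral_swap hm2.aemeasurable]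
  set G : ℝ → ENNReal := fun v => ∫⁻ t in Set.Icc (-T) T, G4Z (t + v) with hG
  have hstep : ∀ v : ℝ, ∫⁻ t in Set.Icc (-T) T, G4W v * G4Z (t + v) = G4W v * G v := by
    intro v
    rw [lintegral_const_mul]
    exact G4Z_meas.comp (measurable_id.add_const v)
  simp only [hstep]
  set A : Set ℝ := Set.Icc (-T) T with hA
  set Sk : ℕ → Set ℝ := fun k => {v | 2 ^ k * T ≤ |v| ∧ |v| ≤ 2 ^ (k + 1) * T} with hSk
  have hSkm : ∀ k, MeasurableSet (Sk k) := by
    intro k
    exact (measurableSet_le measurable_const continuous_abs.measurable).inter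
      (measurableSet_le continuous_abs.measurable measurable_const)
  have hcov : (Set.univ : Set ℝ) ⊆ A ∪ ⋃ k, Sk k := by
    intro v _
    by_cases hv : |v| ≤ T
    · exact Or.inl ⟨(abs_le.mp hv).1, (abs_le.mp hv).2⟩
    · rw [not_le] at hv
      right
      obtain ⟨n, hn1, hn2⟩ := exists_nat_pow_near (x := |v| / T) (y := (2 : ℝ))
        ((one_le_div hT0).mpr hv.le) (by norm_num)
      rw [Set.mem_iUnion]
      refine ⟨n, ?_, ?_⟩
      · rw [le_div_iff₀ hT0] at hn1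
        exact hn1
      · rw [div_lt_iff₀ hT0] at hn2
        exact hn2.le
  have hA1 : ∫⁻ v in A, G4W v * G v ≤
      ENNReal.ofReal (Real.pi * (C * 2 * 2 ^ C) * T * Real.log (T + 2) ^ C) := by
    have h1 : ∀ v ∈ A, G4W v * G v ≤
        ENNReal.ofReal (C * (2 ^ 1 * T) * (((1 : ℕ) + 1) * Real.log (T + 2)) ^ C) * G4W v := by
      intro v hv
      rw [mul_comm]
      refine mul_le_mul_left ?_ _
      refine (G4_shift A measurableSet_Icc v (2 ^ 1 * T) ?_).trans (G4_box C h4 T hT 1)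
      intro t ht
      have h2 := abs_le.mpr ⟨ht.1, ht.2⟩
      have h3 := abs_le.mpr ⟨hv.1, hv.2⟩
      have h4 := abs_add_le t v
      linarith
    calc ∫⁻ v in A, G4W v * G v
        ≤ ∫⁻ v in A, ENNReal.ofReal (C * (2 ^ 1 * T) * (((1 : ℕ) + 1) * Real.log (T + 2)) ^ C) *
            G4W v := setLIntegral_mono' measurableSet_Icc h1
      _ = ENNReal.ofReal (C * (2 ^ 1 * T) * (((1 : ℕ) + 1) * Real.log (T + 2)) ^ C) *
            ∫⁻ v in A, G4W v := by rw [lintegral_const_mul _ G4W_meas]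
      _ ≤ ENNReal.ofReal (C * (2 ^ 1 * T) * (((1 : ℕ) + 1) * Real.log (T + 2)) ^ C) *
            ENNReal.ofReal Real.pi := by
          refine mul_le_mul_right ?_ _
          rw [← G4W_int]
          exact setLIntegral_le_lintegral _ _
      _ = ENNReal.ofReal (Real.pi * (C * 2 * 2 ^ C) * T * Real.log (T + 2) ^ C) := by
          rw [← ENNReal.ofReal_mul (by positivity)]
          congr 1
          rw [mul_pow]
          push_cast
          ring
  have hSk1 : ∀ k, ∫⁻ v in Sk k, G4W v * G v ≤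
      ENNReal.ofReal (8 * C * Real.log (T + 2) ^ C * (((k : ℝ) + 3) ^ C * (1 / 2) ^ k)) := by
    intro k
    have hk0 : (0 : ℝ) < 2 ^ k * T := by positivity
    have h1 : ∀ v ∈ Sk k, G4W v * G v ≤ ENNReal.ofReal (1 / (2 ^ k * T) ^ 2) * G v := by
      intro v hv
      refine mul_le_mul_left (ENNReal.ofReal_le_ofReal ?_) _
      refine one_div_le_one_div_of_le (by positivity) ?_
      have h2 : (2 ^ k * T) ^ 2 ≤ v ^ 2 := by
        rw [← sq_abs v]
        exact pow_le_pow_left₀ hk0.le hv.1 2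
      linarith
    have h3 : ∫⁻ v in Sk k, G v ≤ ENNReal.ofReal (2 * T) *
        ENNReal.ofReal (C * (2 ^ (k + 2) * T) * (((k + 2 : ℕ) + 1) * Real.log (T + 2)) ^ C) := by
      have h4' : ∫⁻ v in Sk k, G v = ∫⁻ t in A, ∫⁻ v in Sk k, G4Z (t + v) := by
        exact lintegral_lintegral_swap
          (G4Z_meas.comp (measurable_snd.add measurable_fst)).aemeasurable
      rw [h4']
      have h5 : ∀ t ∈ A, ∫⁻ v in Sk k, G4Z (t + v) ≤
          ENNReal.ofReal (C * (2 ^ (k + 2) * T) * (((k + 2 : ℕ) + 1) * Real.log (T + 2)) ^ C) := by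
        intro t ht
        have h6 : ∫⁻ v in Sk k, G4Z (t + v) = ∫⁻ v in Sk k, G4Z (v + t) := by
          refine lintegral_congr fun v => ?_
          rw [add_comm]
        rw [h6]
        refine (G4_shift (Sk k) (hSkm k) t (2 ^ (k + 2) * T) ?_).trans (G4_box C h4 T hT (k + 2))
        intro v hv
        have h7 := abs_le.mpr ⟨ht.1, ht.2⟩
        have h8 := abs_add_le v t
        have h9 := hv.2
        have h10 : T ≤ 2 ^ (k + 1) * T := by
          have : (1 : ℝ) ≤ 2 ^ (k + 1) := one_le_pow₀ (by norm_num)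
          nlinarith
        have h11 : (2 : ℝ) ^ (k + 2) * T = 2 ^ (k + 1) * T + 2 ^ (k + 1) * T := by ring
        linarith
      calc ∫⁻ t in A, ∫⁻ v in Sk k, G4Z (t + v)
          ≤ ∫⁻ t in A, ENNReal.ofReal (C * (2 ^ (k + 2) * T) *
              (((k + 2 : ℕ) + 1) * Real.log (T + 2)) ^ C) := setLIntegral_mono' measurableSet_Icc h5
        _ = _ := by
            rw [setLIntegral_const, hA, Real.volume_Icc, mul_comm]
            congr 2
            ring
    calc ∫⁻ v in Sk k, G4W v * G v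
        ≤ ∫⁻ v in Sk k, ENNReal.ofReal (1 / (2 ^ k * T) ^ 2) * G v := setLIntegral_mono' (hSkm k) h1
      _ = ENNReal.ofReal (1 / (2 ^ k * T) ^ 2) * ∫⁻ v in Sk k, G v :=
          lintegral_const_mul' _ _ ENNReal.ofReal_ne_top
      _ ≤ ENNReal.ofReal (1 / (2 ^ k * T) ^ 2) * (ENNReal.ofReal (2 * T) *
            ENNReal.ofReal (C * (2 ^ (k + 2) * T) *
              (((k + 2 : ℕ) + 1) * Real.log (T + 2)) ^ C)) := mul_le_mul_right h3 _
      _ = ENNReal.ofReal (8 * C * Real.log (T + 2) ^ C * (((k : ℝ) + 3) ^ C * (1 / 2) ^ k)) := by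
          rw [← ENNReal.ofReal_mul (by positivity), ← ENNReal.ofReal_mul (by positivity)]
          congr 1
          have h20 : (2 : ℝ) ^ k ≠ 0 := by positivity
          have h21 : (1 / 2 : ℝ) ^ k = 1 / 2 ^ k := by rw [one_div, inv_pow, one_div]
          rw [h21]
          push_cast
          have h22 : ((k : ℝ) + 2 + 1) = (k : ℝ) + 3 := by ring
          have h23 : (((k : ℝ) + 3) * Real.log (T + 2)) ^ C =
              ((k : ℝ) + 3) ^ C * Real.log (T + 2) ^ C := mul_pow _ _ _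
          rw [h22, h23]
          field_simp
          ring
  calc ∫⁻ v, G4W v * G v = ∫⁻ v in Set.univ, G4W v * G v := by rw [setLIntegral_univ]
    _ ≤ ∫⁻ v in A ∪ ⋃ k, Sk k, G4W v * G v := lintegral_mono_set hcov
    _ ≤ (∫⁻ v in A, G4W v * G v) + ∫⁻ v in ⋃ k, Sk k, G4W v * G v := lintegral_union_le _ _ _
    _ ≤ (∫⁻ v in A, G4W v * G v) + ∑' k, ∫⁻ v in Sk k, G4W v * G v :=
        add_le_add le_rfl (lintegral_iUnion_le _ _)
    _ ≤ ENNReal.ofReal (Real.pi * (C * 2 * 2 ^ C) * T * Real.log (T + 2) ^ C) +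
        ∑' k : ℕ, ENNReal.ofReal (8 * C * Real.log (T + 2) ^ C * (((k : ℝ) + 3) ^ C * (1 / 2) ^ k)) :=
        add_le_add hA1 (ENNReal.tsum_le_tsum hSk1)
    _ = ENNReal.ofReal (Real.pi * (C * 2 * 2 ^ C) * T * Real.log (T + 2) ^ C) +
        ENNReal.ofReal (8 * C * Real.log (T + 2) ^ C * S) := by
        rw [← ENNReal.ofReal_tsum_of_nonneg (fun k => by positivity) ((G4_sum C).mul_left _),
          tsum_mul_left]
    _ = ENNReal.ofReal (Real.pi * (C * 2 * 2 ^ C) * T * Real.log (T + 2) ^ C +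
          8 * C * Real.log (T + 2) ^ C * S) :=
        (ENNReal.ofReal_add (by positivity) (by positivity)).symm
    _ ≤ _ := by
        refine ENNReal.ofReal_le_ofReal ?_
        have h30 : 8 * (C : ℝ) * Real.log (T + 2) ^ C * S ≤ 8 * C * Real.log (T + 2) ^ C * S * T := by
          have : 0 ≤ 8 * (C : ℝ) * Real.log (T + 2) ^ C * S := by positivity
          nlinarith
        linarith [h30]

private theorem G4_lv (C : ℕ) (hJ : ∀ T : ℝ, 2 ≤ T →
    ∫⁻ t in Set.Icc (-T) T, ENNReal.ofReal (JJ t ^ 4) ≤ ENNReal.ofReal (C * T * Real.log (T + 2) ^ C))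
    (i : ℕ) (hi : 1 ≤ i) (T α K : ℝ) (hT : 2 ≤ T) (hα : 0 ≤ α) (hK : 60 ≤ K) (hK2 : K ≤ 120 * i)
    (f : ℝ → ℝ) (hf : ∀ t, f t ≤ K * (1 / (1 + t ^ 2) + Real.exp (-((i : ℝ) / 2)) * JJ t))
    (D : ℕ) (h3 : (480 : ℝ) ≤ D) (hCD : C + 4 ≤ D) (h6 : (240 : ℝ) ^ 4 * C ≤ D) :
    volume {t : ℝ | |t| ≤ T ∧ Real.exp (-(α * i)) < f t} ≤
      ENNReal.ofReal (D * (i * Real.log (T + 2)) ^ D *
        (Real.exp (α * i) + T * Real.exp ((4 * α - 2) * i))) := by
  have hL := G4_one_le_log T hT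
  have hi' : (1 : ℝ) ≤ i := by exact_mod_cast hi
  have hK0 : 0 < K := by linarith
  set x : ℝ := 2 * K * Real.exp (α * i) with hx
  set θ : ℝ := Real.exp (-(α * i)) * Real.exp ((i : ℝ) / 2) / (2 * K) with hθ
  have hθ0 : 0 < θ := by positivity
  have hx1 : 1 ≤ x := by
    have h1 : 1 ≤ Real.exp (α * i) := Real.one_le_exp (by positivity)
    rw [hx]
    nlinarith
  have hel : Real.exp (α * i) * Real.exp (-(α * i)) = 1 := by
    rw [← Real.exp_add]
    simp
  have hei : Real.exp (-((i : ℝ) / 2)) * Real.exp ((i : ℝ) / 2) = 1 := by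
    rw [← Real.exp_add]
    simp
  have hJm : Measurable fun t : ℝ => ENNReal.ofReal (JJ t ^ 4) := by
    have h1 : Continuous (Function.uncurry fun t v : ℝ => 1 / (1 + v ^ 2) * G4z (t + v)) := by
      refine Continuous.mul ?_ (G4z_cont.comp (continuous_fst.add continuous_snd))
      exact Continuous.div continuous_const (by fun_prop) (fun v => by positivity)
    have h2 : StronglyMeasurable JJ := h1.stronglyMeasurable.integral_prod_right
    exact (h2.measurable.pow_const 4).ennreal_ofReal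
  have hsub : {t : ℝ | |t| ≤ T ∧ Real.exp (-(α * i)) < f t} ⊆ Set.Icc (-x) x ∪
      ({t : ℝ | ENNReal.ofReal (θ ^ 4) ≤ ENNReal.ofReal (JJ t ^ 4)} ∩ Set.Icc (-T) T) := by
    rintro t ⟨ht, hft⟩
    by_cases h1 : Real.exp (-(α * i)) / 2 < K / (1 + t ^ 2)
    · left
      have h2 : (0 : ℝ) < 1 + t ^ 2 := by positivity
      rw [lt_div_iff₀ h2] at h1
      have h3 : 1 + t ^ 2 < x := by
        have h4 := mul_lt_mul_of_pos_left h1 (Real.exp_pos (α * i))
        have h5 : Real.exp (α * i) * (Real.exp (-(α * i)) / 2 * (1 + t ^ 2)) = (1 + t ^ 2) / 2 := by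
          calc _ = (Real.exp (α * i) * Real.exp (-(α * i))) * ((1 + t ^ 2) / 2) := by ring
            _ = _ := by rw [hel, one_mul]
        rw [h5] at h4
        rw [hx]
        linarith
      have h4 : |t| ≤ x := by
        by_contra h5
        rw [not_le] at h5
        have h6 : x ^ 2 < |t| ^ 2 := pow_lt_pow_left₀ h5 (by linarith) (by norm_num)
        rw [sq_abs] at h6
        nlinarith
      exact ⟨(abs_le.mp h4).1, (abs_le.mp h4).2⟩
    · right
      rw [not_lt] at h1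
      refine ⟨?_, (abs_le.mp ht).1, (abs_le.mp ht).2⟩
      have h2 := hf t
      have h3 : Real.exp (-(α * i)) / 2 < K * (Real.exp (-((i : ℝ) / 2)) * JJ t) := by
        have h4 : K * (1 / (1 + t ^ 2) + Real.exp (-((i : ℝ) / 2)) * JJ t) =
            K / (1 + t ^ 2) + K * (Real.exp (-((i : ℝ) / 2)) * JJ t) := by ring
        linarith
      have h5 : θ < JJ t := by
        rw [hθ, div_lt_iff₀ (by linarith)]
        have h6 := mul_lt_mul_of_pos_left h3 (Real.exp_pos ((i : ℝ) / 2))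
        have h7 : Real.exp ((i : ℝ) / 2) * (K * (Real.exp (-((i : ℝ) / 2)) * JJ t)) = K * JJ t := by
          calc _ = (Real.exp (-((i : ℝ) / 2)) * Real.exp ((i : ℝ) / 2)) * (K * JJ t) := by ring
            _ = _ := by rw [hei, one_mul]
        rw [h7] at h6
        linarith
      exact ENNReal.ofReal_le_ofReal (pow_le_pow_left₀ hθ0.le h5.le 4)
  have hS2 : volume ({t : ℝ | ENNReal.ofReal (θ ^ 4) ≤ ENNReal.ofReal (JJ t ^ 4)} ∩ Set.Icc (-T) T) ≤
      ENNReal.ofReal (C * T * Real.log (T + 2) ^ C / θ ^ 4) := by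
    have h1 := mul_meas_ge_le_lintegral₀ (μ := volume.restrict (Set.Icc (-T) T)) hJm.aemeasurable
      (ENNReal.ofReal (θ ^ 4))
    have h2 := h1.trans (hJ T hT)
    rw [Measure.restrict_apply (measurableSet_le measurable_const hJm)] at h2
    have h3 : ENNReal.ofReal (θ ^ 4) ≠ 0 := by
      rw [Ne, ENNReal.ofReal_eq_zero, not_le]
      positivity
    rw [ENNReal.ofReal_div_of_pos (by positivity), ENNReal.le_div_iff_mul_le (Or.inl h3)
      (Or.inl ENNReal.ofReal_ne_top), mul_comm]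
    exact h2
  have hθ4 : C * T * Real.log (T + 2) ^ C / θ ^ 4 =
      (2 * K) ^ 4 * C * Real.log (T + 2) ^ C * (T * Real.exp ((4 * α - 2) * i)) := by
    have h1 : θ ^ 4 * Real.exp ((4 * α - 2) * i) = 1 / (2 * K) ^ 4 := by
      rw [hθ, div_pow, mul_pow, ← Real.exp_nat_mul, ← Real.exp_nat_mul, div_mul_eq_mul_div,
        ← Real.exp_add, ← Real.exp_add]
      congr 1
      rw [← Real.exp_zero]
      congr 1
      push_cast
      ring
    rw [div_eq_iff (by positivity)]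
    calc C * T * Real.log (T + 2) ^ C
        = (2 * K) ^ 4 * C * Real.log (T + 2) ^ C * T * (1 / (2 * K) ^ 4) := by
          field_simp
      _ = _ := by
          rw [← h1]
          ring
  set P : ℝ := (i * Real.log (T + 2)) with hP
  have hP1 : 1 ≤ P := by
    rw [hP]
    nlinarith
  have hPD : ∀ m : ℕ, m ≤ D → P ^ m ≤ P ^ D := fun m hm => pow_le_pow_right₀ hP1 hm
  have hb1 : 4 * K ≤ D * P ^ D := by
    have h1 : (i : ℝ) ≤ P := by
      rw [hP]
      nlinarith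
    have h2 : P ≤ P ^ D := by
      have := hPD 1 (by omega : 1 ≤ D)
      rwa [pow_one] at this
    calc 4 * K ≤ 480 * i := by linarith
      _ ≤ D * P ^ D := mul_le_mul h3 (h1.trans h2) (by positivity) (by positivity)
  have hb2 : (2 * K) ^ 4 * C * Real.log (T + 2) ^ C ≤ D * P ^ D := by
    have h1 : (2 * K) ^ 4 ≤ (240 * i) ^ 4 := pow_le_pow_left₀ (by positivity) (by linarith) 4
    have h2 : (i : ℝ) ^ 4 * Real.log (T + 2) ^ C ≤ P ^ (C + 4) := by
      have h3 : (i : ℝ) ^ 4 ≤ P ^ 4 := pow_le_pow_left₀ (by positivity) (by rw [hP]; nlinarith) 4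
      have h4 : Real.log (T + 2) ^ C ≤ P ^ C := pow_le_pow_left₀ (by linarith)
        (by rw [hP]; nlinarith) C
      calc (i : ℝ) ^ 4 * Real.log (T + 2) ^ C ≤ P ^ 4 * P ^ C :=
            mul_le_mul h3 h4 (by positivity) (by positivity)
        _ = P ^ (C + 4) := by ring
    have h5 : P ^ (C + 4) ≤ P ^ D := hPD _ hCD
    calc (2 * K) ^ 4 * C * Real.log (T + 2) ^ C
        ≤ (240 * i) ^ 4 * C * Real.log (T + 2) ^ C := by gcongr
      _ = 240 ^ 4 * C * ((i : ℝ) ^ 4 * Real.log (T + 2) ^ C) := by ring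
      _ ≤ D * P ^ D := mul_le_mul h6 (h2.trans h5) (by positivity) (by positivity)
  calc volume {t : ℝ | |t| ≤ T ∧ Real.exp (-(α * i)) < f t}
      ≤ volume (Set.Icc (-x) x ∪
          ({t : ℝ | ENNReal.ofReal (θ ^ 4) ≤ ENNReal.ofReal (JJ t ^ 4)} ∩ Set.Icc (-T) T)) :=
        measure_mono hsub
    _ ≤ volume (Set.Icc (-x) x) + volume
          ({t : ℝ | ENNReal.ofReal (θ ^ 4) ≤ ENNReal.ofReal (JJ t ^ 4)} ∩ Set.Icc (-T) T) :=
        measure_union_le _ _
    _ ≤ ENNReal.ofReal (4 * K * Real.exp (α * i)) +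
          ENNReal.ofReal ((2 * K) ^ 4 * C * Real.log (T + 2) ^ C * (T * Real.exp ((4 * α - 2) * i))) := by
        refine add_le_add (le_of_eq ?_) (hS2.trans (le_of_eq (by rw [hθ4])))
        rw [Real.volume_Icc]
        congr 1
        rw [hx]
        ring
    _ = ENNReal.ofReal (4 * K * Real.exp (α * i) +
          (2 * K) ^ 4 * C * Real.log (T + 2) ^ C * (T * Real.exp ((4 * α - 2) * i))) :=
        (ENNReal.ofReal_add (by positivity) (by positivity)).symm
    _ ≤ _ := by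
        refine ENNReal.ofReal_le_ofReal ?_
        rw [mul_add]
        exact add_le_add (mul_le_mul_of_nonneg_right hb1 (Real.exp_pos _).le)
          (mul_le_mul_of_nonneg_right hb2 (by positivity))

/-- **Fourth moment of `J`.**

Proof. `JJ` is measurable (continuous, or parametric integral). Hölder (twice Cauchy-Schwarz): `JJ(t)⁴ ≤ π³ ∫ |ζ(1/2+i(t+v))|⁴/(1+v²) dv` (in `ℝ≥0∞`). Tonelli: `∫_{|t| ≤ T} JJ⁴ ≤ π³ ∫ |ζ(1/2+iτ)|⁴ W(τ) dτ`, `W(τ) = ∫_{|t| ≤ T} dt/(1+(τ-t)²) ≤ π`, and for `|τ| ≥ 2T`: `|τ-t| ≥ |τ|/2`, `W ≤ 8T/τ²`.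
`|τ| ≤ 2T`: `FourStm`. `2^k T ≤ |τ| ≤ 2^(k+1) T`, `k ≥ 1`: `8T (2^k T)^(-2) C 2^(k+1) T log (2^(k+1) T + 2)^C ≤ 16 C 2^(-k) ((k+2) log (T+2))^C`; the sum over `k` converges. -/
theorem JJ_four (h4 : FourStm) : ∃ C : ℕ, 1 ≤ C ∧ ∀ T : ℝ, 2 ≤ T →
    ∫⁻ t in Set.Icc (-T) T, ENNReal.ofReal (JJ t ^ 4) ≤ ENNReal.ofReal (C * T * Real.log (T + 2) ^ C) := by
  obtain ⟨C, hC, h4⟩ := h4
  set K : ℝ := Real.pi ^ 3 * (Real.pi * (C * 2 * 2 ^ C) +
    8 * C * ∑' k : ℕ, ((k : ℝ) + 3) ^ C * (1 / 2) ^ k) with hK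
  refine ⟨max C ⌈K⌉₊, hC.trans (le_max_left _ _), fun T hT => ?_⟩
  have hL := G4_one_le_log T hT
  have h1 : ∫⁻ t in Set.Icc (-T) T, ENNReal.ofReal (JJ t ^ 4) ≤
      ENNReal.ofReal (Real.pi ^ 3) * ∫⁻ t in Set.Icc (-T) T, ∫⁻ v, G4W v * G4Z (t + v) := by
    rw [← lintegral_const_mul' _ _ ENNReal.ofReal_ne_top]
    exact lintegral_mono fun t => G4_JJ t
  refine h1.trans ((mul_le_mul_right (G4_total C h4 T hT) _).trans ?_)
  rw [← ENNReal.ofReal_mul (by positivity)]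
  refine ENNReal.ofReal_le_ofReal ?_
  have h2 : K ≤ ((max C ⌈K⌉₊ : ℕ) : ℝ) := (Nat.le_ceil K).trans (by exact_mod_cast le_max_right _ _)
  have h3 : Real.log (T + 2) ^ C ≤ Real.log (T + 2) ^ (max C ⌈K⌉₊) :=
    pow_le_pow_right₀ hL (le_max_left _ _)
  calc Real.pi ^ 3 * ((Real.pi * (C * 2 * 2 ^ C) +
        8 * C * ∑' k : ℕ, ((k : ℝ) + 3) ^ C * (1 / 2) ^ k) * T * Real.log (T + 2) ^ C)
      = K * T * Real.log (T + 2) ^ C := by
        rw [hK]
        ring
    _ ≤ ((max C ⌈K⌉₊ : ℕ) : ℝ) * T * Real.log (T + 2) ^ (max C ⌈K⌉₊) := by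
        refine mul_le_mul (mul_le_mul_of_nonneg_right h2 (by linarith)) h3 (by positivity)
          (by positivity)

/-- **`M4Stm`.**

Proof. `exp (-αi) < ‖Di (fS i) i t‖` implies (`smooth_pt`) `60/(1+t²) > e^(-αi)/2`, so `t² < 120 e^(αi)`, a set of measure `≤ 22 e^(αi/2) ≤ 22 e^(αi)`, or `60 e^(-i/2) JJ t > e^(-αi)/2`, so `JJ(t)⁴ > (e^((1/2-α)i)/120)⁴`: by Chebyshev (`mul_meas_ge_le_lintegral`) the measure of these `t ∈ [-T, T]` is at most
`120⁴ e^((4α-2)i) ∫_{|t| ≤ T} JJ⁴` (`JJ_four`). For `fL` with `120(i+1)` in place of `120` (`(i+1) ≤ 2i`). One natural number `C` for factor and exponent (`i log (T+2) ≥ 1`). -/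
theorem m4_stm (h4 : FourStm) : M4Stm := by
  obtain ⟨C, hC, hJ⟩ := JJ_four h4
  obtain ⟨D, hD⟩ := exists_nat_ge (max (480 : ℝ) (max ((C + 4 : ℕ) : ℝ) ((240 : ℝ) ^ 4 * C)))
  have hD1 : (480 : ℝ) ≤ D := (le_max_left _ _).trans hD
  have hD2 : C + 4 ≤ D := by
    exact_mod_cast ((le_max_left _ _).trans (le_max_right _ _)).trans hD
  have hD3 : (240 : ℝ) ^ 4 * C ≤ D := ((le_max_right _ _).trans (le_max_right _ _)).trans hD
  refine ⟨D, by omega, fun i T α hi hT hα hα2 => ?_⟩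
  have hi' : (1 : ℝ) ≤ i := by exact_mod_cast hi
  refine ⟨?_, ?_⟩
  · exact G4_lv C hJ i hi T α 60 hT hα le_rfl (by linarith) (fun t => ‖Di (fS i) i t‖)
      (fun t => (smooth_pt i t).1) D hD1 hD2 hD3
  · exact G4_lv C hJ i hi T α (60 * ((i : ℝ) + 1)) hT hα (by linarith) (by linarith)
      (fun t => ‖Di (fL i) i t‖) (fun t => (smooth_pt i t).2) D hD1 hD2 hD3

end Pool.Agent.Lib.H31P
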