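import Pool.Agent.Lib.H31P.Top
import Pool.Agent.Lib.H68T.HBI

/-!
# Chunk H2 (M): Heath-Brown's identity with `J` factors
-/

open Finset ArithmeticFunction

namespace Pool.Agent.Lib.H31P

open Pool.Agent.Lib.H68T (muV one1 logf)

/-- **Heath-Brown's identity.** `n < (V+1)^J`.

Proof (compare `H68T/HBI.lean`, `heath_brown`, `J = 3`; `HBI_eps`, `HBI_vanish` by induction on `J`). `ε = 1 - μ_V * 1` vanishes at all `m ≤ V`, so `ε^J` at all
`m < (V+1)^J`, and `Λ ε^J` too. Binomial theorem in the commutative ring of arithmetic functions (`sub_pow` or `add_pow` with `1 + (-(μ_V * 1))`):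
`Λ ε^J = ∑_{j=0}^J binom(J,j) (-1)^j μ_V^j 1^j Λ = Λ - ∑_{j=1}^J (-1)^(j+1) binom(J,j) μ_V^j 1^(j-1) log`, because `1 * Λ = log`
(`HBI_one1`, `HBI_logf`, `vonMangoldt_mul_zeta`). Evaluate at `n`. -/
theorem hb_gen (J V n : ℕ) (hJ : 1 ≤ J) (hn : n < (V + 1) ^ J) :
    vonMangoldt n = ∑ j ∈ Icc 1 J, (-1 : ℝ) ^ (j + 1) * (J.choose j : ℝ) *
      (muV V ^ j * one1 ^ (j - 1) * logf : ArithmeticFunction ℝ) n := by
  obtain ⟨y, hy⟩ : ∃ y : ArithmeticFunction ℝ, y = muV V * one1 := ⟨_, rfl⟩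
  have hlog : logf = one1 * vonMangoldt := by
    rw [Pool.Agent.Lib.H68T.HBI_logf, Pool.Agent.Lib.H68T.HBI_one1, mul_comm, vonMangoldt_mul_zeta]
  have he : ∀ m < V + 1, (1 - y : ArithmeticFunction ℝ) m = 0 := by
    rw [hy]
    exact Pool.Agent.Lib.H68T.HBI_eps V
  have hv : ∀ K : ℕ, ∀ m < (V + 1) ^ K, ((1 - y) ^ K : ArithmeticFunction ℝ) m = 0 := by
    intro K
    induction K with
    | zero =>
      intro m hm
      have hm0 : m = 0 := by
        rw [pow_zero] at hm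
        omega
      rw [hm0, ArithmeticFunction.map_zero]
    | succ K ih =>
      intro m hm
      rw [pow_succ]
      rw [pow_succ] at hm
      exact Pool.Agent.Lib.H68T.HBI_vanish _ _ _ _ ih he m hm
  have hz : ((1 - y) ^ J * vonMangoldt : ArithmeticFunction ℝ) n = 0 := by
    refine Pool.Agent.Lib.H68T.HBI_vanish _ _ _ 1 (hv J) ?_ n (by rw [mul_one]; exact hn)
    intro m hm
    have hm0 : m = 0 := by omega
    rw [hm0, ArithmeticFunction.map_zero]
  let ev : ArithmeticFunction ℝ →+ ℝ :=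
    { toFun := fun f => f n
      map_zero' := rfl
      map_add' := fun f g => ArithmeticFunction.add_apply }
  have hev : ∀ f : ArithmeticFunction ℝ, f n = ev f := fun f => rfl
  have hexp : ((1 - y) ^ J * vonMangoldt : ArithmeticFunction ℝ) =
      ∑ m ∈ range (J + 1), ((-1 : ℤ) ^ m * (J.choose m : ℤ)) • (y ^ m * vonMangoldt) := by
    rw [show (1 : ArithmeticFunction ℝ) - y = -y + 1 by ring, add_pow, Finset.sum_mul]
    refine Finset.sum_congr rfl fun m _ => ?_
    rw [zsmul_eq_mul, neg_pow, one_pow]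
    push_cast
    ring
  rw [hexp, hev, map_sum] at hz
  have hterm : ∀ m : ℕ, ev (((-1 : ℤ) ^ m * (J.choose m : ℤ)) • (y ^ m * vonMangoldt)) =
      (-1 : ℝ) ^ m * (J.choose m : ℝ) * (y ^ m * vonMangoldt : ArithmeticFunction ℝ) n := by
    intro m
    rw [map_zsmul, zsmul_eq_mul, ← hev]
    push_cast
    ring
  rw [Finset.sum_congr rfl fun m _ => hterm m, Finset.sum_range_succ'] at hz
  have h0 : (-1 : ℝ) ^ 0 * (J.choose 0 : ℝ) * (y ^ 0 * vonMangoldt : ArithmeticFunction ℝ) n =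
      vonMangoldt n := by
    rw [pow_zero, pow_zero, Nat.choose_zero_right, one_mul]
    simp
  rw [h0] at hz
  have hsum : ∑ j ∈ Icc 1 J, (-1 : ℝ) ^ (j + 1) * (J.choose j : ℝ) *
      (muV V ^ j * one1 ^ (j - 1) * logf : ArithmeticFunction ℝ) n =
      ∑ k ∈ range J, (-1 : ℝ) ^ (k + 1 + 1) * (J.choose (k + 1) : ℝ) *
        (y ^ (k + 1) * vonMangoldt : ArithmeticFunction ℝ) n := by
    have hI : Icc 1 J = (range J).map ⟨fun k => k + 1, fun a b h => Nat.succ.inj h⟩ := by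
      ext j
      simp only [mem_Icc, mem_map, mem_range, Function.Embedding.coeFn_mk]
      constructor
      · intro h
        exact ⟨j - 1, by omega, by omega⟩
      · rintro ⟨k, hk, rfl⟩
        omega
    rw [hI, Finset.sum_map]
    refine Finset.sum_congr rfl fun k _ => ?_
    show (-1 : ℝ) ^ (k + 1 + 1) * (J.choose (k + 1) : ℝ) *
      (muV V ^ (k + 1) * one1 ^ (k + 1 - 1) * logf : ArithmeticFunction ℝ) n = _
    rw [Nat.add_sub_cancel]
    have hpe : (muV V ^ (k + 1) * one1 ^ k * logf : ArithmeticFunction ℝ) =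
        y ^ (k + 1) * vonMangoldt := by
      rw [hlog, hy]
      ring
    rw [hpe]
  rw [hsum]
  have hneg : ∑ k ∈ range J, (-1 : ℝ) ^ (k + 1 + 1) * (J.choose (k + 1) : ℝ) *
        (y ^ (k + 1) * vonMangoldt : ArithmeticFunction ℝ) n =
      - ∑ k ∈ range J, (-1 : ℝ) ^ (k + 1) * (J.choose (k + 1) : ℝ) *
        (y ^ (k + 1) * vonMangoldt : ArithmeticFunction ℝ) n := by
    rw [← Finset.sum_neg_distrib]
    refine Finset.sum_congr rfl fun k _ => ?_
    rw [pow_succ (-1 : ℝ) (k + 1)]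
    ring
  rw [hneg]
  linarith

end Pool.Agent.Lib.H31P
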