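import Pool.Agent.Lib.H31P.H1
import Pool.Agent.Lib.H31P.H2

/-!
# Chunk H3 (M): expansion into boxes, `HBStm`
-/

open Finset ArithmeticFunction

namespace Pool.Agent.Lib.H31P

open Pool.Agent.Lib.H68T (muV one1 logf)

/-- A product of arithmetic functions at `n ≥ 1` depends only on the values at the divisors of `n`. Induction on `s` for all `d ∣ n` at once
(`ArithmeticFunction.mul_apply`, `Nat.mem_divisorsAntidiagonal`; both entries of an antidiagonal pair of `d` divide `n`). -/
theorem prod_congr_dvd {ι : Type*} (s : Finset ι) (f g : ι → ArithmeticFunction ℝ) (n : ℕ)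
    (h : ∀ k ∈ s, ∀ d, d ∣ n → f k d = g k d) : (∏ k ∈ s, f k) n = (∏ k ∈ s, g k) n := by
  classical
  suffices H : ∀ d, d ∣ n → (∏ k ∈ s, f k) d = (∏ k ∈ s, g k) d from H n dvd_rfl
  induction s using Finset.induction_on with
  | empty => intro d _; simp
  | insert a s ha ih =>
    intro d hd
    rw [Finset.prod_insert ha, Finset.prod_insert ha, mul_apply, mul_apply]
    refine Finset.sum_congr rfl fun p hp => ?_
    rw [Nat.mem_divisorsAntidiagonal] at hp
    have h1 : p.1 ∣ d := ⟨p.2, hp.1.symm⟩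
    have h2 : p.2 ∣ d := ⟨p.1, by rw [mul_comm]; exact hp.1.symm⟩
    rw [h a (Finset.mem_insert_self a s) p.1 (h1.trans hd),
      ih (fun k hk => h k (Finset.mem_insert_of_mem hk)) p.2 (h2.trans hd)]

private theorem h3_sum_apply {ι : Type*} (s : Finset ι) (f : ι → ArithmeticFunction ℝ) (n : ℕ) :
    (∑ k ∈ s, f k) n = ∑ k ∈ s, f k n := by
  classical
  induction s using Finset.induction_on with
  | empty => simp
  | insert a s ha ih =>
    rw [Finset.sum_insert ha, Finset.sum_insert ha, ArithmeticFunction.add_apply, ih]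

/-- The factors before the cut off, as a function on the natural numbers. -/
private noncomputable def h3_G (V j k : ℕ) : ArithmeticFunction ℝ :=
  if k < j then muV V else if k + 1 < 2 * j then one1 else logf

private theorem h3_prod (V j : ℕ) (hj : 1 ≤ j) :
    (muV V ^ j * one1 ^ (j - 1) * logf : ArithmeticFunction ℝ) =
      ∏ k : Fin (2 * j), h3_G V j k := by
  obtain ⟨i, rfl⟩ : ∃ i, j = i + 1 := ⟨j - 1, by omega⟩
  rw [Fin.prod_univ_eq_prod_range (fun k => h3_G V (i + 1) k) (2 * (i + 1))]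
  have h1 : 2 * (i + 1) = ((i + 1) + i) + 1 := by ring
  rw [h1, Finset.prod_range_succ, Finset.prod_range_add]
  have h2 : ∏ x ∈ range (i + 1), h3_G V (i + 1) x = muV V ^ (i + 1) := by
    rw [Finset.prod_congr rfl (fun x hx => ?_), Finset.prod_const, Finset.card_range]
    unfold h3_G
    rw [if_pos (Finset.mem_range.1 hx)]
  have h3 : ∏ x ∈ range i, h3_G V (i + 1) (i + 1 + x) = one1 ^ i := by
    rw [Finset.prod_congr rfl (fun x hx => ?_), Finset.prod_const, Finset.card_range]
    have hx' := Finset.mem_range.1 hx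
    unfold h3_G
    rw [if_neg (by omega), if_pos (by omega)]
  have h4 : h3_G V (i + 1) (i + 1 + i) = logf := by
    unfold h3_G
    rw [if_neg (by omega), if_neg (by omega)]
  rw [h2, h3, h4, Nat.add_sub_cancel]

/-- **Boxes.**

Proof. `F_k = ∑_{i ≤ I} af (fac V j k i)`, `G_k = muV V` (`k < j`), `one1` (`j ≤ k`, `k + 1 < 2j`), `logf` (`k + 1 = 2j`). For `d ∣ n`: `F_k d = G_k d` (`fac_sum`, `d ≥ 1`,
`log d ≤ log n ≤ I`; `H68T.af` and `muV`, `one1`, `logf` unfold to the same values). `∏_k G_k = muV V^j * one1^(j-1) * logf` (`Fin.prod_univ_eq_prod_range` or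
`Finset.prod_ite`; `range (2j) = range j ∪ [j, 2j-1) ∪ {2j-1}`), `∏_k F_k = ∑_c ∏_k af (fac V j k (c k)) = ∑_c box V j c` (`Finset.prod_univ_sum`), and
`prod_congr_dvd`; evaluation of a finite sum of arithmetic functions at `n`: `ArithmeticFunction.sum_apply` or induction. -/
theorem box_expand (V j I n : ℕ) (hj : 1 ≤ j) (hn : 1 ≤ n) (hI : Real.log n ≤ I) :
    (muV V ^ j * one1 ^ (j - 1) * logf : ArithmeticFunction ℝ) n =
      ∑ c ∈ Fintype.piFinset (fun _ : Fin (2 * j) => range (I + 1)), box V j c n := by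
  classical
  have h1 : ∑ c ∈ Fintype.piFinset (fun _ : Fin (2 * j) => range (I + 1)), box V j c n =
      (∏ k : Fin (2 * j), ∑ i ∈ range (I + 1), af (fac V j k i)) n := by
    rw [Finset.prod_univ_sum, h3_sum_apply]
    rfl
  rw [h1, h3_prod V j hj]
  refine prod_congr_dvd _ _ _ n fun k _ d hd => ?_
  have hd0 : d ≠ 0 := by
    rintro rfl
    have := Nat.eq_zero_of_zero_dvd hd
    omega
  have hd1 : 1 ≤ d := Nat.one_le_iff_ne_zero.2 hd0
  have hdn : d ≤ n := Nat.le_of_dvd (by omega) hd
  have hlog : Real.log d ≤ I := by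
    refine le_trans (Real.log_le_log ?_ ?_) hI
    · exact_mod_cast hd1
    · exact_mod_cast hdn
  have h2 : (∑ i ∈ range (I + 1), af (fac V j k i)) d = ∑ i ∈ range (I + 1), fac V j k i d := by
    rw [h3_sum_apply]
    refine Finset.sum_congr rfl fun i _ => ?_
    simp only [af, coe_mk, if_neg hd0]
  rw [h2, fac_sum V j k I d hd1 hlog]
  unfold h3_G
  split_ifs with a b c
  · simp only [muV, Pool.Agent.Lib.H68T.af, coe_mk, if_neg hd0, if_pos b]
  · simp only [muV, Pool.Agent.Lib.H68T.af, coe_mk, if_neg hd0, if_neg b]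
  · simp only [one1, Pool.Agent.Lib.H68T.af, coe_mk, if_neg hd0]
  · simp only [logf, Pool.Agent.Lib.H68T.af, coe_mk, if_neg hd0]

/-- `HBStm`: `hb_gen` and `box_expand`. -/
theorem hb_stm : HBStm := by
  intro J V I n hJ hn hlt hI
  rw [hb_gen J V n hJ hlt]
  refine Finset.sum_congr rfl fun j hj => ?_
  rw [box_expand V j I n (Finset.mem_Icc.1 hj).1 hn hI]

end Pool.Agent.Lib.H31P
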