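import Pool.Agent.Lib.H31P.H1
import Pool.Agent.Lib.H31W.Q3
import Pool.Agent.Lib.H31W.P3

/-!
# Chunk H4 (M): `BoxDDStm`
-/

open Finset

namespace Pool.Agent.Lib.H31P

open Pool.Agent.Lib.H31W

private theorem H4_DD_af (f : ℕ → ℝ) (N : ℕ) (t : ℝ) : DD (fun n => af f n) N t = DD f N t := by
  unfold DD
  refine Finset.sum_congr rfl fun n hn => ?_
  have h1 : 1 ≤ n := (Finset.mem_Icc.1 hn).1
  have h2 : af f n = f n := by
    show (if n = 0 then 0 else f n) = f n
    rw [if_neg (by omega)]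
  show ((af f n : ℝ) : ℂ) * _ = _
  rw [h2]

private theorem H4_af_zero (f : ℕ → ℝ) (N : ℕ) (hf : ∀ n, N < n → f n = 0) (n : ℕ) (hn : N < n) :
    af f n = 0 := by
  show (if n = 0 then 0 else f n) = 0
  rw [if_neg (by omega)]
  exact hf n hn

private theorem H4_fac_zero (V j k i n : ℕ) (hn : ⌊Real.exp ((i : ℝ) + 1)⌋₊ < n) :
    fac V j k i n = 0 := by
  by_contra h
  have h1 := ((fac_props V j k i n).2 h).2.2.2
  omega

private theorem H4_ind (V j : ℕ) (c : Fin (2 * j) → ℕ) (t : ℝ) (s : Finset (Fin (2 * j))) :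
    (∀ n, (∏ k ∈ s, ⌊Real.exp ((c k : ℝ) + 1)⌋₊) < n →
      (∏ k ∈ s, af (fac V j k (c k))) n = 0) ∧
    DD (fun n => (∏ k ∈ s, af (fac V j k (c k))) n) (∏ k ∈ s, ⌊Real.exp ((c k : ℝ) + 1)⌋₊) t =
      ∏ k ∈ s, Di (fac V j k (c k)) (c k) t := by
  classical
  induction s using Finset.induction_on with
  | empty =>
    refine ⟨?_, ?_⟩
    · intro n hn
      rw [Finset.prod_empty] at hn ⊢
      exact ArithmeticFunction.one_apply_ne (by omega)
    · rw [Finset.prod_empty, Finset.prod_empty, Finset.prod_empty]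
      unfold DD
      simp
  | insert a s ha ih =>
    rw [Finset.prod_insert ha, Finset.prod_insert ha, Finset.prod_insert ha]
    have hmul : ∀ n : ℕ, (af (fac V j a (c a)) * ∏ k ∈ s, af (fac V j k (c k))) n =
        conv (fun n => af (fac V j a (c a)) n) (fun n => (∏ k ∈ s, af (fac V j k (c k))) n) n := by
      intro n
      rw [ArithmeticFunction.mul_apply]
      rfl
    have hz : ∀ n, ⌊Real.exp ((c a : ℝ) + 1)⌋₊ < n → af (fac V j a (c a)) n = 0 :=
      fun n hn => H4_af_zero _ _ (fun m hm => H4_fac_zero V j a (c a) m hm) n hn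
    refine ⟨?_, ?_⟩
    · intro n hn
      rw [hmul n]
      exact conv_zero _ _ _ _ hz ih.1 n hn
    · rw [show (fun n => (af (fac V j a (c a)) * ∏ k ∈ s, af (fac V j k (c k))) n) =
          conv (fun n => af (fac V j a (c a)) n) (fun n => (∏ k ∈ s, af (fac V j k (c k))) n) from
        funext hmul]
      rw [DD_conv _ _ _ _ _ hz ih.1 le_rfl t, ih.2, H4_DD_af]
      rfl

/-- **`BoxDDStm`.**

Proof. For a finite set `s` of indices, by induction: `P_s = ∏_{k ∈ s} af (fac V j k (c k))` vanishes beyond `N_s = ∏_{k ∈ s} ⌊e^(c_k + 1)⌋₊` and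
`DD P_s N_s t = ∏_{k ∈ s} Di (fac V j k (c k)) (c k) t`. Empty set: `P = 1`, `N = 1`, `DD 1 1 t = 1`. Step: `(af f * P_s) n = conv f P_s n` (`ArithmeticFunction.mul_apply`;
the value of `af f` at `0` plays no role, `divisorsAntidiagonal` has no zero entries), `conv_zero` and `DD_conv` (file `H31W/Q3.lean`) with
`Nf = ⌊e^(c_k+1)⌋₊` (`fac_props`) and `N = Nf * N_s`; `DD (af f) = DD f` (the sum starts at `n = 1`). Take `s = univ`. -/
theorem boxdd_stm : BoxDDStm := by
  intro V j c t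
  exact (H4_ind V j c t Finset.univ).2

end Pool.Agent.Lib.H31P
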