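import Pool.Agent.Lib.H31P.H1

/-!
# Chunk H5 (M): `BoxSuppStm`
-/

open Finset

namespace Pool.Agent.Lib.H31P

/-- Mean of a convolution: `∑_{n ≤ N} |(f * g) n|/n ≤ (∑_{n ≤ N} |f n|/n)(∑_{n ≤ N} |g n|/n)` (all pairs `(a, b)` with `ab ≤ N` have `a, b ≤ N`). -/
theorem mean_mul (f g : ArithmeticFunction ℝ) (N : ℕ) :
    ∑ n ∈ Icc 1 N, |(f * g) n| / n ≤ (∑ n ∈ Icc 1 N, |f n| / n) * (∑ n ∈ Icc 1 N, |g n| / n) := by
  have h1 : ∀ n ∈ Icc 1 N, |(f * g) n| / n ≤
      ∑ x ∈ n.divisorsAntidiagonal, (|f x.1| / x.1) * (|g x.2| / x.2) := by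
    intro n _
    rw [ArithmeticFunction.mul_apply]
    have h2 : |∑ x ∈ n.divisorsAntidiagonal, f x.1 * g x.2| / (n : ℝ) ≤
        (∑ x ∈ n.divisorsAntidiagonal, |f x.1 * g x.2|) / (n : ℝ) :=
      div_le_div_of_nonneg_right (abs_sum_le_sum_abs _ _) (Nat.cast_nonneg n)
    refine h2.trans ?_
    rw [Finset.sum_div]
    refine (Finset.sum_congr rfl fun x hx => ?_).le
    have hx' := (Nat.mem_divisorsAntidiagonal.mp hx).1
    rw [abs_mul, ← hx', Nat.cast_mul, mul_div_mul_comm]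
  refine (Finset.sum_le_sum h1).trans ?_
  rw [Finset.sum_mul_sum, ← Finset.sum_product', Finset.sum_sigma']
  have hinj : Set.InjOn (fun y : (_ : ℕ) × (ℕ × ℕ) => y.2) (((Icc 1 N).sigma fun n => n.divisorsAntidiagonal) : Set ((_ : ℕ) × (ℕ × ℕ))) := by
    intro a ha b hb hab
    rw [Finset.mem_coe, Finset.mem_sigma] at ha hb
    have ha2 := (Nat.mem_divisorsAntidiagonal.mp ha.2).1
    have hb2 := (Nat.mem_divisorsAntidiagonal.mp hb.2).1
    obtain ⟨a1, a2⟩ := a
    obtain ⟨b1, b2⟩ := b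
    simp only at hab ha2 hb2
    subst hab
    rw [← ha2, ← hb2]
  have hmap : ∑ y ∈ (Icc 1 N).sigma (fun n => n.divisorsAntidiagonal), (|f y.2.1| / y.2.1) * (|g y.2.2| / y.2.2) =
      ∑ x ∈ ((Icc 1 N).sigma fun n => n.divisorsAntidiagonal).image (fun y => y.2),
        (|f x.1| / x.1) * (|g x.2| / x.2) := by
    rw [Finset.sum_image hinj]
  rw [hmap]
  refine Finset.sum_le_sum_of_subset_of_nonneg ?_ ?_
  · intro x hx
    obtain ⟨y, hy, rfl⟩ := Finset.mem_image.mp hx
    rw [Finset.mem_sigma] at hy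
    obtain ⟨hy1, hy2⟩ := hy
    obtain ⟨hy3, hy4⟩ := Nat.mem_divisorsAntidiagonal.mp hy2
    rw [Finset.mem_Icc] at hy1
    have ha : 0 < y.2.1 := Nat.pos_of_ne_zero fun h => by rw [h, zero_mul] at hy3; omega
    have hb : 0 < y.2.2 := Nat.pos_of_ne_zero fun h => by rw [h, mul_zero] at hy3; omega
    rw [Finset.mem_product, Finset.mem_Icc, Finset.mem_Icc]
    refine ⟨⟨ha, ?_⟩, hb, ?_⟩
    · exact (Nat.le_mul_of_pos_right _ hb).trans (hy3.le.trans hy1.2)
    · exact (Nat.le_mul_of_pos_left _ ha).trans (hy3.le.trans hy1.2)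
  · intro x _ _
    positivity

private theorem h5_support {ι : Type*} (g : ι → ArithmeticFunction ℝ) (s : Finset ι) :
    ∀ n, (∏ k ∈ s, g k) n ≠ 0 → ∃ a : ι → ℕ, n = ∏ k ∈ s, a k ∧ ∀ k ∈ s, g k (a k) ≠ 0 := by
  classical
  induction s using Finset.induction_on with
  | empty =>
    intro n hn
    refine ⟨fun _ => 1, ?_, by simp⟩
    rw [Finset.prod_empty] at hn ⊢
    by_contra h
    exact hn (ArithmeticFunction.one_apply_ne h)
  | insert a s ha ih =>
    intro n hn
    rw [Finset.prod_insert ha, ArithmeticFunction.mul_apply] at hn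
    obtain ⟨x, hx, hx0⟩ := Finset.exists_ne_zero_of_sum_ne_zero hn
    have h1 : g a x.1 ≠ 0 := left_ne_zero_of_mul hx0
    have h2 : (∏ k ∈ s, g k) x.2 ≠ 0 := right_ne_zero_of_mul hx0
    obtain ⟨b, hb1, hb2⟩ := ih x.2 h2
    refine ⟨Function.update b a x.1, ?_, ?_⟩
    · rw [Finset.prod_insert ha, Function.update_self, ← (Nat.mem_divisorsAntidiagonal.mp hx).1, hb1]
      have : ∏ k ∈ s, Function.update b a x.1 k = ∏ k ∈ s, b k :=
        Finset.prod_congr rfl fun k hk => Function.update_of_ne (ne_of_mem_of_not_mem hk ha) _ _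
      rw [this]
    · intro k hk
      rcases Finset.mem_insert.mp hk with rfl | hk'
      · rw [Function.update_self]; exact h1
      · rw [Function.update_of_ne (ne_of_mem_of_not_mem hk' ha)]; exact hb2 k hk'

private theorem h5_mean {ι : Type*} (g : ι → ArithmeticFunction ℝ) (B : ι → ℝ)
    (hB : ∀ k N, ∑ n ∈ Icc 1 N, |g k n| / n ≤ B k) (s : Finset ι) :
    ∀ N : ℕ, ∑ n ∈ Icc 1 N, |(∏ k ∈ s, g k) n| / n ≤ ∏ k ∈ s, B k := by
  classical
  have hB0 : ∀ k, 0 ≤ B k := fun k => by simpa using hB k 0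
  induction s using Finset.induction_on with
  | empty =>
    intro N
    rw [Finset.prod_empty, Finset.prod_empty]
    have h1 : ∀ n ∈ Icc 1 N, |(1 : ArithmeticFunction ℝ) n| / n = if n = 1 then (1 : ℝ) else 0 := by
      intro n _
      by_cases h : n = 1
      · subst h; simp
      · rw [ArithmeticFunction.one_apply_ne h, if_neg h]; simp
    rw [Finset.sum_congr rfl h1, Finset.sum_ite_eq']
    split_ifs <;> norm_num
  | insert a s ha ih =>
    intro N
    rw [Finset.prod_insert ha, Finset.prod_insert ha]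
    refine (mean_mul _ _ N).trans ?_
    refine mul_le_mul (hB a N) (ih N) ?_ (hB0 a)
    exact Finset.sum_nonneg fun n _ => by positivity

private theorem h5_fac_mean (V j k i N : ℕ) :
    ∑ n ∈ Icc 1 N, |af (fac V j k i) n| / n ≤ 9 * ((i : ℝ) + 1) := by
  set M := ⌊Real.exp ((i : ℝ) + 1)⌋₊ with hM
  have h1 : ∀ n ∈ Icc 1 N, |af (fac V j k i) n| / n ≤
      if n ∈ Icc 1 M then ((i : ℝ) + 1) * Real.exp (1 - (i : ℝ)) else 0 := by
    intro n hn
    have hn1 : 1 ≤ n := (Finset.mem_Icc.mp hn).1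
    have haf : af (fac V j k i) n = fac V j k i n := by
      change (if n = 0 then 0 else fac V j k i n) = _
      rw [if_neg (by omega)]
    rw [haf]
    obtain ⟨hle, hsup⟩ := fac_props V j k i n
    by_cases h0 : fac V j k i n = 0
    · rw [h0]
      split_ifs
      · simp only [abs_zero, zero_div]; positivity
      · simp
    · obtain ⟨_, h3, _, h5⟩ := hsup h0
      rw [if_pos (Finset.mem_Icc.mpr ⟨hn1, h5⟩)]
      have hnpos : (0 : ℝ) < n := by exact_mod_cast hn1
      rw [div_le_iff₀ hnpos]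
      have h6 : 1 ≤ Real.exp (1 - (i : ℝ)) * n := by
        have h7 : Real.exp (1 - (i : ℝ)) * Real.exp ((i : ℝ) - 1) = 1 := by
          rw [← Real.exp_add]; simp
        calc (1 : ℝ) = Real.exp (1 - (i : ℝ)) * Real.exp ((i : ℝ) - 1) := h7.symm
          _ ≤ _ := mul_le_mul_of_nonneg_left h3.le (Real.exp_pos _).le
      calc |fac V j k i n| ≤ ((i : ℝ) + 1) * 1 := by rw [mul_one]; exact hle
        _ ≤ ((i : ℝ) + 1) * (Real.exp (1 - (i : ℝ)) * n) :=
          mul_le_mul_of_nonneg_left h6 (by positivity)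
        _ = _ := by ring
  refine (Finset.sum_le_sum h1).trans ?_
  rw [← Finset.sum_filter, Finset.sum_const, nsmul_eq_mul]
  have hcard : (((Icc 1 N).filter fun n => n ∈ Icc 1 M).card : ℝ) ≤ Real.exp ((i : ℝ) + 1) := by
    have h2 : ((Icc 1 N).filter fun n => n ∈ Icc 1 M).card ≤ M := by
      refine (Finset.card_le_card (t := Icc 1 M) ?_).trans (by simp)
      intro x hx
      exact (Finset.mem_filter.mp hx).2
    calc (((Icc 1 N).filter fun n => n ∈ Icc 1 M).card : ℝ) ≤ (M : ℝ) := by exact_mod_cast h2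
      _ ≤ _ := Nat.floor_le (Real.exp_pos _).le
  have he : Real.exp 2 ≤ 9 := by
    have h := Real.exp_one_lt_d9
    have h2 : Real.exp 2 = Real.exp 1 * Real.exp 1 := by rw [← Real.exp_add]; norm_num
    rw [h2]
    have h3 : 0 < Real.exp 1 := Real.exp_pos 1
    nlinarith
  calc (((Icc 1 N).filter fun n => n ∈ Icc 1 M).card : ℝ) * (((i : ℝ) + 1) * Real.exp (1 - (i : ℝ)))
      ≤ Real.exp ((i : ℝ) + 1) * (((i : ℝ) + 1) * Real.exp (1 - (i : ℝ))) :=
        mul_le_mul_of_nonneg_right hcard (by positivity)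
    _ = ((i : ℝ) + 1) * (Real.exp ((i : ℝ) + 1) * Real.exp (1 - (i : ℝ))) := by ring
    _ = ((i : ℝ) + 1) * Real.exp 2 := by
        rw [← Real.exp_add]
        have : (i : ℝ) + 1 + (1 - (i : ℝ)) = 2 := by ring
        rw [this]
    _ ≤ ((i : ℝ) + 1) * 9 := mul_le_mul_of_nonneg_left he (by positivity)
    _ = _ := by ring

/-- **`BoxSuppStm`.**

Proof. Induction over finite sets `s ⊆ Fin (2j)` for `P_s = ∏_{k ∈ s} af (fac V j k (c k))`: `P_s n ≠ 0` implies `n = ∏_{k ∈ s} a_k` with `fac V j k (c k) a_k ≠ 0` for all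
`k ∈ s` (`ArithmeticFunction.mul_apply`), so with `fac_props`: (1) `n ≤ ∏ ⌊e^(c_k+1)⌋₊ = bN c`; (2) `∑ (c_k - 1) < log n < ∑ (c_k + 1)` for `s = univ` (not
empty because `j ≥ 1`; `Real.log_prod`); (4) if `k < j` and `V + 1 ≤ e^(c_k - 1)` then `fM V (c_k)` is identically `0` (`a ≤ V` and `a > e^(c_k-1) ≥ V + 1`), so `box = 0`.
(3) `mean_mul` and `∑_{n ≤ N} |fac V j k i n|/n ≤ 9(i + 1)`: at most `e^(i+1)` numbers `n < e^(i+1)`, each term `≤ (i+1) e^(1-i)`, `e² ≤ 9`; the product over `k` is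
`9^(2j) ∏ (c_k + 1)`. -/
theorem boxsupp_stm : BoxSuppStm := by
  intro V j c hj
  have hsup : ∀ n, box V j c n ≠ 0 → ∃ a : Fin (2 * j) → ℕ, n = ∏ k, a k ∧ ∀ k : Fin (2 * j),
      fac V j k (c k) (a k) ≠ 0 := by
    intro n hn
    obtain ⟨a, ha1, ha2⟩ := h5_support (fun k : Fin (2 * j) => af (fac V j k (c k))) univ n hn
    refine ⟨a, ha1, fun k => ?_⟩
    have h := ha2 k (Finset.mem_univ k)
    change (if a k = 0 then 0 else fac V j k (c k) (a k)) ≠ 0 at h
    intro h0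
    apply h
    rw [h0]
    split_ifs <;> rfl
  refine ⟨fun n hn => ?_, fun n hn => ?_, fun N => ?_, fun k hk hV n => ?_⟩
  · by_contra h0
    obtain ⟨a, ha1, ha2⟩ := hsup n h0
    have : n ≤ bN c := by
      rw [ha1]
      unfold bN
      exact Finset.prod_le_prod' fun k _ => ((fac_props V j k (c k) (a k)).2 (ha2 k)).2.2.2
    omega
  · obtain ⟨a, ha1, ha2⟩ := hsup n hn
    have hpos : ∀ k : Fin (2 * j), (0 : ℝ) < a k := fun k => by
      exact_mod_cast ((fac_props V j k (c k) (a k)).2 (ha2 k)).1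
    have hlog : Real.log n = ∑ k, Real.log (a k) := by
      rw [ha1, Nat.cast_prod, Real.log_prod (fun k _ => (hpos k).ne')]
    have hne : (univ : Finset (Fin (2 * j))).Nonempty := ⟨⟨0, by omega⟩, Finset.mem_univ _⟩
    rw [hlog]
    constructor
    · refine Finset.sum_lt_sum_of_nonempty hne fun k _ => ?_
      exact (Real.lt_log_iff_exp_lt (hpos k)).mpr ((fac_props V j k (c k) (a k)).2 (ha2 k)).2.1
    · refine Finset.sum_lt_sum_of_nonempty hne fun k _ => ?_
      exact (Real.log_lt_iff_lt_exp (hpos k)).mpr ((fac_props V j k (c k) (a k)).2 (ha2 k)).2.2.1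
  · have h := h5_mean (fun k : Fin (2 * j) => af (fac V j k (c k))) (fun k => 9 * ((c k : ℝ) + 1))
      (fun k N => h5_fac_mean V j k (c k) N) univ N
    refine h.trans ?_
    rw [Finset.prod_mul_distrib, Finset.prod_const, Finset.card_univ, Fintype.card_fin]
  · by_contra h0
    obtain ⟨a, _, ha2⟩ := hsup n h0
    have h1 := ha2 k
    have h2 := ((fac_props V j k (c k) (a k)).2 h1).2.1
    have h3 : fac V j k (c k) (a k) = fM V (c k) (a k) := by
      unfold fac
      rw [if_pos hk]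
    rw [h3] at h1
    unfold fM at h1
    by_cases h4 : a k ≤ V
    · have h5 : ((a k : ℕ) : ℝ) ≤ V := by exact_mod_cast h4
      linarith
    · rw [if_neg h4] at h1
      exact h1 rfl

end Pool.Agent.Lib.H31P
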