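import Pool.Agent.Lib.H31P.L1
import Pool.Agent.Lib.H31W.P2

/-!
# Chunk L2 (M): the mean value theorem (`MVStm`)
-/

open Finset MeasureTheory

namespace Pool.Agent.Lib.H31P

open Pool.Agent.Lib.H31W

/-- `‖mm η t‖ ≥ 1/2` for `η|t| ≤ 1`: the real part is `∫_0^1 cos (ηtx) dx ≥ cos 1 ≥ 1/2` (`cos` is even and decreasing on `[0, 1]`;
`Real.cos_one_pos`... or `cos y ≥ 1 - y²/2 ≥ 1/2`, `Real.one_sub_sq_div_two_le_cos`). -/
theorem mm_lower (η t : ℝ) (hη : 0 ≤ η) (h : η * |t| ≤ 1) : 1 / 2 ≤ ‖mm η t‖ := by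
  have hcont : Continuous (fun x : ℝ => Complex.exp ((η * t * x : ℝ) * Complex.I)) := by
    fun_prop
  have hre : (mm η t).re = ∫ x in (0 : ℝ)..1, Real.cos (η * t * x) := by
    have h1 := Complex.reCLM.intervalIntegral_comp_comm
      (hcont.intervalIntegrable (μ := volume) 0 1)
    unfold mm
    rw [← Complex.reCLM_apply, ← h1]
    refine intervalIntegral.integral_congr fun x _ => ?_
    simp only [Complex.reCLM_apply, Complex.exp_ofReal_mul_I_re]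
  have hlow : ∫ _x in (0 : ℝ)..1, (1 / 2 : ℝ) ≤ ∫ x in (0 : ℝ)..1, Real.cos (η * t * x) := by
    refine intervalIntegral.integral_mono_on zero_le_one ?_ ?_ fun x hx => ?_
    · exact continuous_const.intervalIntegrable _ _
    · exact (by fun_prop : Continuous fun x : ℝ => Real.cos (η * t * x)).intervalIntegrable _ _
    · have h2 := Real.one_sub_sq_div_two_le_cos (x := η * t * x)
      have h3 : |η * t * x| ≤ 1 := by
        rw [abs_mul, abs_mul, abs_of_nonneg hη, abs_of_nonneg hx.1]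
        exact mul_le_one₀ h hx.1 hx.2
      have h4 : (η * t * x) ^ 2 ≤ 1 := by
        rw [← sq_abs]
        exact pow_le_one₀ (abs_nonneg _) h3
      linarith
  have hconst : ∫ _x in (0 : ℝ)..1, (1 / 2 : ℝ) = 1 / 2 := by
    simp
  calc (1 / 2 : ℝ) ≤ (mm η t).re := by rw [hre, ← hconst]; exact hlow
    _ ≤ ‖mm η t‖ := Complex.re_le_norm _

/-- **Mean value theorem.**

Proof. `η = 1/T ≤ 1`, `f n = n a_n` for `n ≤ N`, `f n = 0` for `n > N`; `DD f N t = ∑_{n ≤ N} a_n n^(-it)` (`n · n^(-(1+it)) = n^(-it)`). `planch`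
(`c₁ = 1`, `c₂ = 0`, `η₀ = η`): `∫ ‖DD f N t‖² ‖mm η t‖² dt = 2π ∫ (av f η u)² du ≤ 2π ∑ a_n² (2n + T)` (`short_sq`), and `‖mm η t‖² ≥ 1/4` on `[-T, T]`
(`mm_lower`): `∫_{-T}^T ≤ 8π ∑ a_n² (2n + T) ≤ 16π ∑ (T + n) a_n²`. -/
theorem mv_stm : MVStm := by
  refine ⟨16 * Real.pi, by nlinarith [Real.pi_gt_three], ?_⟩
  intro a N T hT
  have hT0 : 0 < T := lt_of_lt_of_le one_pos hT
  have hπ := Real.pi_pos
  set η : ℝ := 1 / T with hηdef
  have hη : 0 < η := by positivity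
  have hη1 : η ≤ 1 := by
    rw [hηdef, div_le_one hT0]
    exact hT
  set f : ℕ → ℝ := fun n => if n ≤ N then (n : ℝ) * a n else 0 with hfdef
  have hf : ∀ n, N < n → f n = 0 := fun n hn => if_neg (not_le.mpr hn)
  have hfn : ∀ n ∈ Icc 1 N, f n = n * a n := fun n hn => if_pos (Finset.mem_Icc.mp hn).2
  have hDD : ∀ t : ℝ, DD f N t =
      ∑ n ∈ Icc 1 N, (a n : ℂ) * (n : ℂ) ^ (-((t : ℂ) * Complex.I)) := by
    intro t
    unfold DD
    refine sum_congr rfl fun n hn => ?_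
    have hn0 : (n : ℂ) ≠ 0 := by
      have := (Finset.mem_Icc.mp hn).1
      exact_mod_cast (by omega : n ≠ 0)
    rw [hfn n hn, neg_add, Complex.cpow_add _ _ hn0, Complex.cpow_neg_one]
    push_cast
    field_simp
  have hpl := planch f N hf η η 1 0 hη hη
  have hsh := short_sq f N η hf hη hη1
  have hpl' : ENNReal.ofReal (2 * Real.pi) * ∫⁻ u : ℝ, ENNReal.ofReal ((av f η u) ^ 2) =
      ∫⁻ t : ℝ, ENNReal.ofReal (‖DD f N t‖ ^ 2 * ‖mm η t‖ ^ 2) := by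
    have h1 : ∫⁻ u : ℝ, ENNReal.ofReal ((av f η u) ^ 2) = ENNReal.ofReal (1 / (2 * Real.pi)) *
        ∫⁻ t : ℝ, ENNReal.ofReal (‖DD f N t‖ ^ 2 * ‖mm η t‖ ^ 2) := by
      simpa using hpl
    rw [h1, ← mul_assoc, ← ENNReal.ofReal_mul (by positivity)]
    rw [show 2 * Real.pi * (1 / (2 * Real.pi)) = 1 by field_simp, ENNReal.ofReal_one, one_mul]
  have hsum : ∑ n ∈ Icc 1 N, (f n / n) ^ 2 * (2 * n + 1 / η) =
      ∑ n ∈ Icc 1 N, a n ^ 2 * (2 * n + T) := by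
    refine sum_congr rfl fun n hn => ?_
    have hn0 : (n : ℝ) ≠ 0 := by
      have := (Finset.mem_Icc.mp hn).1
      exact_mod_cast (by omega : n ≠ 0)
    rw [hfn n hn, hηdef, one_div_one_div, mul_div_cancel_left₀ _ hn0]
  calc ∫⁻ t in Set.Icc (-T) T, ENNReal.ofReal
        (‖∑ n ∈ Icc 1 N, (a n : ℂ) * (n : ℂ) ^ (-((t : ℂ) * Complex.I))‖ ^ 2)
      ≤ ∫⁻ t in Set.Icc (-T) T, ENNReal.ofReal 4 *
          ENNReal.ofReal (‖DD f N t‖ ^ 2 * ‖mm η t‖ ^ 2) := by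
        refine setLIntegral_mono' measurableSet_Icc fun t ht => ?_
        rw [← ENNReal.ofReal_mul (by norm_num), hDD t]
        refine ENNReal.ofReal_le_ofReal ?_
        have habs : |t| ≤ T := abs_le.mpr ht
        have h1 : η * |t| ≤ 1 := by
          rw [hηdef, one_div, inv_mul_le_iff₀ hT0, mul_one]
          exact habs
        have h2 := mm_lower η t hη.le h1
        have h3 : 1 / 4 ≤ ‖mm η t‖ ^ 2 := by nlinarith
        have h4 : 0 ≤ ‖∑ n ∈ Icc 1 N, (a n : ℂ) * (n : ℂ) ^ (-((t : ℂ) * Complex.I))‖ ^ 2 :=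
          by positivity
        nlinarith [mul_le_mul_of_nonneg_left h3 h4]
    _ ≤ ∫⁻ t : ℝ, ENNReal.ofReal 4 * ENNReal.ofReal (‖DD f N t‖ ^ 2 * ‖mm η t‖ ^ 2) :=
        setLIntegral_le_lintegral _ _
    _ = ENNReal.ofReal 4 * ∫⁻ t : ℝ, ENNReal.ofReal (‖DD f N t‖ ^ 2 * ‖mm η t‖ ^ 2) :=
        lintegral_const_mul' _ _ ENNReal.ofReal_ne_top
    _ = ENNReal.ofReal 4 * (ENNReal.ofReal (2 * Real.pi) *
          ∫⁻ u : ℝ, ENNReal.ofReal ((av f η u) ^ 2)) := by rw [hpl']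
    _ ≤ ENNReal.ofReal 4 * (ENNReal.ofReal (2 * Real.pi) *
          ENNReal.ofReal (∑ n ∈ Icc 1 N, a n ^ 2 * (2 * n + T))) := by
        rw [← hsum]
        gcongr
    _ = ENNReal.ofReal (4 * (2 * Real.pi * ∑ n ∈ Icc 1 N, a n ^ 2 * (2 * n + T))) := by
        rw [← ENNReal.ofReal_mul (by positivity), ← ENNReal.ofReal_mul (by norm_num)]
    _ ≤ ENNReal.ofReal (16 * Real.pi * ∑ n ∈ Icc 1 N, (T + n) * a n ^ 2) := by
        refine ENNReal.ofReal_le_ofReal ?_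
        rw [← mul_assoc, Finset.mul_sum, Finset.mul_sum]
        refine sum_le_sum fun n _ => ?_
        have h5 : 0 ≤ a n ^ 2 * T * Real.pi := by positivity
        nlinarith [h5]

end Pool.Agent.Lib.H31P
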