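import Pool.Agent.Lib.H31P.L6

/-!
# Chunk L7 (M): large values on a short interval
-/

open Finset MeasureTheory

namespace Pool.Agent.Lib.H31P

private theorem l7_cont : Continuous fun u : ℝ => 1 / (1 + |u|) := by
  refine Continuous.div continuous_const (continuous_const.add continuous_abs) fun u => ?_
  have := abs_nonneg u
  positivity

private theorem l7_int_pos {T : ℝ} (hT : 0 ≤ T) :
    ∫ u in (0 : ℝ)..T, 1 / (1 + |u|) = Real.log (1 + T) := by
  have h : ∀ u ∈ Set.uIcc 0 T, HasDerivAt (fun u : ℝ => Real.log (1 + u)) (1 / (1 + |u|)) u := by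
    intro u hu
    rw [Set.uIcc_of_le hT] at hu
    have hu0 : 0 ≤ u := hu.1
    rw [abs_of_nonneg hu0]
    have h1 : HasDerivAt (fun u : ℝ => 1 + u) 1 u := by
      simpa using (hasDerivAt_id u).const_add 1
    exact h1.log (by positivity)
  rw [intervalIntegral.integral_eq_sub_of_hasDerivAt h (l7_cont.intervalIntegrable _ _)]
  simp

private theorem l7_int {T x t : ℝ} (hT : 0 ≤ T) (ht : t ∈ Set.Icc x (x + T)) :
    ∫ s in Set.Icc x (x + T), 1 / (1 + |t - s|) ≤ 2 * Real.log (1 + T) := by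
  rw [MeasureTheory.integral_Icc_eq_integral_Ioc,
    ← intervalIntegral.integral_of_le (by linarith),
    intervalIntegral.integral_comp_sub_left (fun u => 1 / (1 + |u|)) t]
  have h1 : ∫ u in (t - (x + T))..(t - x), 1 / (1 + |u|) ≤ ∫ u in (-T)..T, 1 / (1 + |u|) := by
    refine intervalIntegral.integral_mono_interval (by linarith [ht.1]) (by linarith)
      (by linarith [ht.2]) ?_ (l7_cont.intervalIntegrable _ _)
    refine Filter.Eventually.of_forall fun u => ?_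
    show (0 : ℝ) ≤ 1 / (1 + |u|)
    have := abs_nonneg u
    positivity
  have h2 : ∫ u in (-T)..T, 1 / (1 + |u|) =
      (∫ u in (-T)..0, 1 / (1 + |u|)) + ∫ u in (0 : ℝ)..T, 1 / (1 + |u|) :=
    (intervalIntegral.integral_add_adjacent_intervals (l7_cont.intervalIntegrable _ _)
      (l7_cont.intervalIntegrable _ _)).symm
  have h3 : ∫ u in (-T)..0, 1 / (1 + |u|) = ∫ u in (0 : ℝ)..T, 1 / (1 + |u|) := by
    have := intervalIntegral.integral_comp_neg (a := 0) (b := T) (fun u : ℝ => 1 / (1 + |u|))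
    simp only [abs_neg, neg_zero] at this
    exact this.symm
  rw [h2, h3, l7_int_pos hT] at h1
  linarith

private theorem l7_P_cont (g : ℕ → ℝ) (a b : ℕ) (ha : 1 ≤ a) : Continuous fun t : ℝ =>
    ‖∑ n ∈ Icc a b, (g n : ℂ) * (n : ℂ) ^ (-(1 + (t : ℂ) * Complex.I))‖ := by
  refine continuous_norm.comp (continuous_finsetSum _ fun n hn => ?_)
  have hn1 : 1 ≤ n := ha.trans (mem_Icc.1 hn).1
  have hn0 : (n : ℂ) ≠ 0 := by
    exact_mod_cast (by omega : n ≠ 0)
  refine continuous_const.mul ?_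
  refine Continuous.const_cpow (by fun_prop) (Or.inl hn0)

/-- **Halasz-Montgomery on an interval of length `T₁`.** `C` is the constant of `KerStm` for `r`; `G ≥ ∑ g(n)²/n`.

Proof. `μ = (vol S).toReal`. `V μ ≤ ∫_S ‖P‖` (`‖P‖ > V` on `S`). By `hm_dual` and `KerStm` (`|t - t'| ≤ T₁` for `t, t' ∈ S ⊆ [x, x + T₁]`; at `τ = 0` the convention
`|τ|^(1/2) = 0` is harmless): `V² μ² ≤ (G/a) ∫_S ∫_S C (b/(1 + |t-t'|) + T₁^(1/2)) ≤ (GC/a)(2b log (1 + T₁) μ + T₁^(1/2) μ²)`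
(`∫_{|τ| ≤ T₁} dτ/(1+|τ|) = 2 log (1 + T₁)`). Since `b ≤ ra` and `GC T₁^(1/2)/a ≤ V²/2`: `(V²/2) μ² ≤ 2rGC log (1+T₁) μ`, and `μ = 0` or divide. -/
theorem hm_short (r : ℕ) (C : ℝ) (hC : 1 ≤ C)
    (hK : ∀ (a b : ℕ) (τ : ℝ), 1 ≤ a → b ≤ r * a →
      ‖∑ n ∈ Icc a b, (n : ℂ) ^ (-((τ : ℂ) * Complex.I))‖ ≤ C * (b / (1 + |τ|) + |τ| ^ (1 / 2 : ℝ)))
    (g : ℕ → ℝ) (a b : ℕ) (ha : 1 ≤ a) (hb : b ≤ r * a) (G V T₁ x : ℝ) (hG : 0 ≤ G) (hV : 0 < V) (hT : 0 ≤ T₁)
    (hg : ∑ n ∈ Icc a b, g n ^ 2 / n ≤ G) (hVT : 2 * G * C * T₁ ^ (1 / 2 : ℝ) / a ≤ V ^ 2)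
    (S : Set ℝ) (hS : MeasurableSet S) (hSx : S ⊆ Set.Icc x (x + T₁))
    (hP : ∀ t ∈ S, V < ‖∑ n ∈ Icc a b, (g n : ℂ) * (n : ℂ) ^ (-(1 + (t : ℂ) * Complex.I))‖) :
    volume S ≤ ENNReal.ofReal (4 * r * G * C * Real.log (1 + T₁) / V ^ 2) := by
  have hSfin : volume S < ⊤ := by
    refine lt_of_le_of_lt (measure_mono hSx) ?_
    rw [Real.volume_Icc]
    exact ENNReal.ofReal_lt_top
  set μ : ℝ := (volume S).toReal with hμ
  have hμ0 : 0 ≤ μ := ENNReal.toReal_nonneg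
  have hvol : volume S = ENNReal.ofReal μ := (ENNReal.ofReal_toReal hSfin.ne).symm
  have hfin : IsFiniteMeasure (volume.restrict S) := ⟨by rw [Measure.restrict_apply_univ]; exact hSfin⟩
  have hconst : ∀ c : ℝ, ∫ _ in S, c = c * μ := by
    intro c
    rw [setIntegral_const, smul_eq_mul, mul_comm]
    rfl
  -- the lower bound
  have h1 : V * μ ≤ ∫ t in S, ‖∑ n ∈ Icc a b, (g n : ℂ) * (n : ℂ) ^ (-(1 + (t : ℂ) * Complex.I))‖ := by
    rw [← hconst V]
    have hint : IntegrableOn (fun t : ℝ =>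
        ‖∑ n ∈ Icc a b, (g n : ℂ) * (n : ℂ) ^ (-(1 + (t : ℂ) * Complex.I))‖) S :=
      ((l7_P_cont g a b ha).continuousOn.integrableOn_compact isCompact_Icc).mono_set hSx
    exact setIntegral_mono_on (integrable_const V) hint hS fun t ht => (hP t ht).le
  have h2 := hm_dual g a b ha S hS x (x + T₁) hSx
  have hb0 : (0 : ℝ) ≤ b := Nat.cast_nonneg b
  have ha0 : (0 : ℝ) < a := by exact_mod_cast ha
  have hr0 : (0 : ℝ) ≤ T₁ ^ (1 / 2 : ℝ) := Real.rpow_nonneg hT _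
  have hlog : 0 ≤ Real.log (1 + T₁) := Real.log_nonneg (by linarith)
  have hC0 : 0 ≤ C := by linarith
  -- the inner integral
  have h3 : ∀ t ∈ S, ∫ t' in S, ‖∑ n ∈ Icc a b, (n : ℂ) ^ (-(((t - t' : ℝ) : ℂ) * Complex.I))‖ ≤
      C * (2 * b * Real.log (1 + T₁) + T₁ ^ (1 / 2 : ℝ) * μ) := by
    intro t ht
    have hcont : Continuous fun s : ℝ => 1 / (1 + |t - s|) :=
      l7_cont.comp (continuous_const.sub continuous_id)
    have hi1 : IntegrableOn (fun s : ℝ => 1 / (1 + |t - s|)) (Set.Icc x (x + T₁)) :=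
      hcont.continuousOn.integrableOn_compact isCompact_Icc
    have hi2 : IntegrableOn (fun s : ℝ => 1 / (1 + |t - s|)) S := hi1.mono_set hSx
    have hi3 : Integrable (fun s : ℝ => C * (b * (1 / (1 + |t - s|)) + T₁ ^ (1 / 2 : ℝ)))
        (volume.restrict S) :=
      ((hi2.const_mul (b : ℝ)).add (integrable_const _)).const_mul C
    have h4 : ∫ t' in S, ‖∑ n ∈ Icc a b, (n : ℂ) ^ (-(((t - t' : ℝ) : ℂ) * Complex.I))‖ ≤
        ∫ t' in S, C * (b * (1 / (1 + |t - t'|)) + T₁ ^ (1 / 2 : ℝ)) := by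
      refine integral_mono_of_nonneg (Filter.Eventually.of_forall fun _ => norm_nonneg _) hi3 ?_
      refine (ae_restrict_iff' hS).2 (Filter.Eventually.of_forall fun t' ht' => ?_)
      have h5 := hK a b (t - t') ha hb
      have h6 : |t - t'| ≤ T₁ := by
        have e1 := hSx ht
        have e2 := hSx ht'
        rw [abs_le]
        constructor <;> linarith [e1.1, e1.2, e2.1, e2.2]
      have h7 : |t - t'| ^ (1 / 2 : ℝ) ≤ T₁ ^ (1 / 2 : ℝ) :=
        Real.rpow_le_rpow (abs_nonneg _) h6 (by norm_num)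
      refine h5.trans (mul_le_mul_of_nonneg_left ?_ hC0)
      rw [mul_one_div]
      linarith
    refine h4.trans ?_
    rw [integral_const_mul, integral_add (hi2.const_mul (b : ℝ)) (integrable_const _),
      integral_const_mul, hconst]
    refine mul_le_mul_of_nonneg_left ?_ hC0
    have h8 : ∫ s in S, 1 / (1 + |t - s|) ≤ ∫ s in Set.Icc x (x + T₁), 1 / (1 + |t - s|) := by
      refine setIntegral_mono_set hi1 (Filter.Eventually.of_forall fun s => ?_)
        (Filter.Eventually.of_forall hSx)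
      show (0 : ℝ) ≤ 1 / (1 + |t - s|)
      have := abs_nonneg (t - s)
      positivity
    have h9 := h8.trans (l7_int hT (hSx ht))
    have h10 := mul_le_mul_of_nonneg_left h9 hb0
    linarith
  -- the outer integral
  have h4 : ∫ t in S, ∫ t' in S, ‖∑ n ∈ Icc a b, (n : ℂ) ^ (-(((t - t' : ℝ) : ℂ) * Complex.I))‖ ≤
      C * (2 * b * Real.log (1 + T₁) + T₁ ^ (1 / 2 : ℝ) * μ) * μ := by
    rw [← hconst]
    refine integral_mono_of_nonneg (Filter.Eventually.of_forall fun _ =>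
      integral_nonneg fun _ => norm_nonneg _) (integrable_const _) ?_
    exact (ae_restrict_iff' hS).2 (Filter.Eventually.of_forall h3)
  -- the inequality for μ
  have h5 : (V * μ) ^ 2 ≤ G * (1 / a * (C * (2 * b * Real.log (1 + T₁) +
      T₁ ^ (1 / 2 : ℝ) * μ) * μ)) := by
    refine le_trans (pow_le_pow_left₀ (by positivity) h1 2) (h2.trans ?_)
    have hin0 : 0 ≤ ∫ t in S, ∫ t' in S,
        ‖∑ n ∈ Icc a b, (n : ℂ) ^ (-(((t - t' : ℝ) : ℂ) * Complex.I))‖ :=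
      integral_nonneg fun _ => integral_nonneg fun _ => norm_nonneg _
    exact mul_le_mul hg (mul_le_mul_of_nonneg_left h4 (by positivity)) (by positivity) hG
  have hba : (b : ℝ) / a ≤ r := by
    rw [div_le_iff₀ ha0]
    exact_mod_cast hb
  have h6 : G * (1 / a * (C * (2 * b * Real.log (1 + T₁) + T₁ ^ (1 / 2 : ℝ) * μ) * μ)) =
      (2 * G * C * Real.log (1 + T₁) * μ) * (b / a) +
        (2 * G * C * T₁ ^ (1 / 2 : ℝ) / a) * μ ^ 2 / 2 := by
    field_simp
  have h7 : (2 * G * C * Real.log (1 + T₁) * μ) * (b / a) ≤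
      (2 * G * C * Real.log (1 + T₁) * μ) * r := mul_le_mul_of_nonneg_left hba (by positivity)
  have h8 : (2 * G * C * T₁ ^ (1 / 2 : ℝ) / a) * μ ^ 2 / 2 ≤ V ^ 2 * μ ^ 2 / 2 := by
    have := mul_le_mul_of_nonneg_right hVT (sq_nonneg μ)
    linarith
  have h9 : V ^ 2 * μ * μ ≤ 4 * r * G * C * Real.log (1 + T₁) * μ := by
    nlinarith
  rw [hvol]
  refine ENNReal.ofReal_le_ofReal ?_
  rw [le_div_iff₀ (by positivity)]
  rcases hμ0.eq_or_lt with h0 | h0
  · rw [← h0]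
    have : (0 : ℝ) ≤ 4 * r * G * C * Real.log (1 + T₁) := by positivity
    linarith
  · have h10 := le_of_mul_le_mul_right h9 h0
    linarith

end Pool.Agent.Lib.H31P
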