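import Pool.Agent.Lib.H31P.L4
import Pool.Agent.Lib.H31P.L7
import Pool.Agent.Lib.H31W.P3

/-!
# Chunk L8 (M): large values, second bound
-/

open Finset MeasureTheory

namespace Pool.Agent.Lib.H31P

open Pool.Agent.Lib.H31W

/-- **Subdivision.** A measurable set `S ⊆ [-T, T]` which meets every interval of length `T₁ > 0` in a set of measure at most `B` has measure at most
`(2T/T₁ + 1) B`: cover `[-T, T]` by the intervals `[-T + lT₁, -T + (l+1)T₁]`, `0 ≤ l < ⌈2T/T₁⌉` (at least one). -/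
theorem subdiv (S : Set ℝ) (T T₁ B : ℝ) (hT : 0 ≤ T) (hT₁ : 0 < T₁) (hB : 0 ≤ B) (hS : S ⊆ Set.Icc (-T) T)
    (h : ∀ x : ℝ, volume (S ∩ Set.Icc x (x + T₁)) ≤ ENNReal.ofReal B) :
    volume S ≤ ENNReal.ofReal ((2 * T / T₁ + 1) * B) := by
  have hL0 : 0 ≤ 2 * T / T₁ := by positivity
  set L : ℕ := ⌊2 * T / T₁⌋₊ + 1 with hL
  have hcov : S ⊆ ⋃ l ∈ range L, S ∩ Set.Icc (-T + l * T₁) (-T + l * T₁ + T₁) := by
    intro t ht
    have ht' := hS ht
    have h0 : 0 ≤ (t + T) / T₁ := div_nonneg (by linarith [ht'.1]) hT₁.le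
    have h1 : (t + T) / T₁ ≤ 2 * T / T₁ := div_le_div_of_nonneg_right (by linarith [ht'.2]) hT₁.le
    simp only [Set.mem_iUnion, Set.mem_inter_iff, exists_prop]
    refine ⟨⌊(t + T) / T₁⌋₊, ?_, ht, ?_⟩
    · rw [mem_range, hL]
      exact Nat.lt_succ_of_le (Nat.floor_le_floor h1)
    · have h2 := Nat.floor_le h0
      have h3 := Nat.lt_floor_add_one ((t + T) / T₁)
      rw [le_div_iff₀ hT₁] at h2
      rw [div_lt_iff₀ hT₁] at h3
      constructor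
      · linarith
      · linarith
  calc volume S ≤ volume (⋃ l ∈ range L, S ∩ Set.Icc (-T + l * T₁) (-T + l * T₁ + T₁)) := measure_mono hcov
    _ ≤ ∑ l ∈ range L, volume (S ∩ Set.Icc (-T + l * T₁) (-T + l * T₁ + T₁)) := measure_biUnion_finset_le _ _
    _ ≤ ∑ _l ∈ range L, ENNReal.ofReal B := sum_le_sum fun l _ => h _
    _ = ENNReal.ofReal (L * B) := by
      rw [sum_const, card_range, nsmul_eq_mul, ENNReal.ofReal_mul (Nat.cast_nonneg L), ENNReal.ofReal_natCast]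
    _ ≤ ENNReal.ofReal ((2 * T / T₁ + 1) * B) := by
      refine ENNReal.ofReal_le_ofReal (mul_le_mul_of_nonneg_right ?_ hB)
      rw [hL]
      push_cast
      linarith [Nat.floor_le hL0]

/-- **Second bound.** `m = m' + 1`, `Y = e^(mi)`, `G = A^(2m) (1 + m(i+1))^(4^m')`, `i ≥ 1`.

Proof. `P = Di f i ^ m` has the coefficients `g = (af f)^m` (`pow_poly`), supported in `[a, b]`, `a = ⌊e^(m(i-1))⌋₊ + 1`, `b = ⌊e^(m(i+1))⌋₊ ≤ r a`,
`r = ⌈e^(2m)⌉₊`. `C` = constant of `KerStm` for `r`. `V = e^(-αmi)`, `T₁ = (V² a/(2GC))²`, so that `2GC T₁^(1/2)/a = V²`. `hm_short` on every interval of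
length `T₁`: `B = 4rGC log (1+T₁) V^(-2)`, `log (1 + T₁) ≤ 2m(i+1)` (`T₁ ≤ (a/2)² ≤ e^(2mi)`, `V ≤ 1`, `G, C ≥ 1`, and `1 + e^(2mi) ≤ e^(2m(i+1))`). `subdiv`:
measure `≤ (2T/T₁ + 1) B`, `1/T₁ = 4G²C²/(V⁴a²) ≤ 4G²C² e^(4αmi) e^(-2m(i-1))`. Total at most
`8rGC m(i+1) (e^(2αmi) + 8G²C² e^(2m) T e^((6α-2)mi))`. `C' = 64 r C³ m e^(2m)`. -/
theorem lv_second (hK : KerStm) (m' : ℕ) : ∃ C : ℝ, 1 ≤ C ∧ ∀ (f : ℕ → ℝ) (i : ℕ) (A T α : ℝ), 1 ≤ i → 1 ≤ A → 1 ≤ T → 0 ≤ α →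
    (∀ n, f n ≠ 0 → Real.exp ((i : ℝ) - 1) < n ∧ (n : ℝ) < Real.exp ((i : ℝ) + 1)) → (∀ n, |f n| ≤ A) →
    volume {t : ℝ | |t| ≤ T ∧ Real.exp (-(α * i)) < ‖Di f i t‖} ≤
      ENNReal.ofReal (C * ((i : ℝ) + 1) * (A ^ (2 * (m' + 1)) * (1 + (m' + 1 : ℝ) * ((i : ℝ) + 1)) ^ (4 ^ m')) ^ 3 *
        (Real.exp (2 * α * ((m' + 1 : ℝ) * i)) + T * Real.exp ((6 * α - 2) * ((m' + 1 : ℝ) * i)))) := by
  obtain ⟨C, hC, hKC⟩ := hK ⌈Real.exp (2 * (m' + 1 : ℝ))⌉₊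
  generalize hr : ⌈Real.exp (2 * (m' + 1 : ℝ))⌉₊ = r at hKC
  have hr1 : Real.exp (2 * (m' + 1 : ℝ)) ≤ r := by rw [← hr]; exact Nat.le_ceil _
  have hm1 : (1 : ℝ) ≤ (m' : ℝ) + 1 := by linarith [(Nat.cast_nonneg m' : (0 : ℝ) ≤ m')]
  have hexp1 : 1 ≤ Real.exp (2 * (m' + 1 : ℝ)) := Real.one_le_exp (by positivity)
  have hr0 : (1 : ℝ) ≤ r := hexp1.trans hr1
  refine ⟨64 * r * C ^ 3 * (m' + 1 : ℝ) * Real.exp (2 * (m' + 1 : ℝ)), ?_, ?_⟩
  · have h1 : (1 : ℝ) ≤ C ^ 3 := one_le_pow₀ hC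
    have h2 : (1 : ℝ) ≤ r * C ^ 3 := one_le_mul_of_one_le_of_one_le hr0 h1
    have h3 : (1 : ℝ) ≤ (r * C ^ 3) * (m' + 1 : ℝ) := one_le_mul_of_one_le_of_one_le h2 hm1
    have h4 : (1 : ℝ) ≤ (r * C ^ 3) * (m' + 1 : ℝ) * Real.exp (2 * (m' + 1 : ℝ)) :=
      one_le_mul_of_one_le_of_one_le h3 hexp1
    nlinarith
  intro f i A T α hi hA hT hα hs hb
  obtain ⟨hP, hsupp, hsq⟩ := pow_poly f i m' A hA hs hb
  have hir : (1 : ℝ) ≤ i := by exact_mod_cast hi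
  have hG1 : 1 ≤ A ^ (2 * (m' + 1)) * (1 + (m' + 1 : ℝ) * ((i : ℝ) + 1)) ^ (4 ^ m') := by
    refine one_le_mul_of_one_le_of_one_le (one_le_pow₀ hA) (one_le_pow₀ ?_)
    have : 0 ≤ (m' + 1 : ℝ) * ((i : ℝ) + 1) := by positivity
    linarith
  generalize hGdef : A ^ (2 * (m' + 1)) * (1 + (m' + 1 : ℝ) * ((i : ℝ) + 1)) ^ (4 ^ m') = G at hsq hG1 ⊢
  generalize hNdef : ⌊Real.exp ((i : ℝ) + 1)⌋₊ ^ (m' + 1) = N at hP hsupp hsq
  set m : ℝ := (m' + 1 : ℝ) with hm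
  set g : ℕ → ℝ := fun n => ((af f) ^ (m' + 1)) n with hg
  set E : ℝ := Real.exp (m * ((i : ℝ) - 1)) with hE
  have hE0 : 0 < E := Real.exp_pos _
  have hE1 : 1 ≤ E := Real.one_le_exp (mul_nonneg (by linarith) (by linarith))
  set a : ℕ := ⌊E⌋₊ + 1 with ha
  set b : ℕ := ⌊Real.exp (m * ((i : ℝ) + 1))⌋₊ with hbd
  have ha1 : 1 ≤ a := by omega
  have haE : E ≤ a := by
    rw [ha]; push_cast
    exact (Nat.lt_floor_add_one E).le
  have haE2 : (a : ℝ) ≤ 2 * E := by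
    rw [ha]; push_cast
    linarith [Nat.floor_le hE0.le]
  have ha0 : (0 : ℝ) < a := by linarith
  have hEE : Real.exp (m * ((i : ℝ) + 1)) = Real.exp (2 * m) * E := by
    rw [hE, ← Real.exp_add]
    congr 1
    ring
  have hbra : b ≤ r * a := by
    have h1 : (b : ℝ) ≤ r * a := by
      refine (Nat.floor_le (Real.exp_pos _).le).trans ?_
      rw [hEE]
      exact mul_le_mul hr1 haE hE0.le (by linarith)
    exact_mod_cast h1
  have hNb : N ≤ b := by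
    rw [hbd]
    refine Nat.le_floor ?_
    rw [← hNdef]
    push_cast
    calc (⌊Real.exp ((i : ℝ) + 1)⌋₊ : ℝ) ^ (m' + 1) ≤ (Real.exp ((i : ℝ) + 1)) ^ (m' + 1) :=
          pow_le_pow_left₀ (Nat.cast_nonneg _) (Nat.floor_le (Real.exp_pos _).le) _
      _ = Real.exp (m * ((i : ℝ) + 1)) := by
          rw [← Real.exp_nat_mul]
          congr 1
          rw [hm]
          push_cast
          ring
  have hsupa : ∀ n, n < a → g n = 0 := by
    intro n hn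
    by_contra h
    have h1 := (hsupp n h).1
    have h2 : n ≤ ⌊E⌋₊ := by omega
    have h3 : (n : ℝ) ≤ E := (Nat.le_floor_iff hE0.le).mp h2
    linarith
  have hsupN : ∀ n, N < n → g n = 0 := by
    intro n hn
    by_contra h
    have h1 := (hsupp n h).2.2
    omega
  -- the polynomial
  have hpoly : ∀ t : ℝ, ∑ n ∈ Icc a b, (g n : ℂ) * (n : ℂ) ^ (-(1 + (t : ℂ) * Complex.I)) =
      Di f i t ^ (m' + 1) := by
    intro t
    rw [← hP t]
    unfold DD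
    have e1 : ∑ n ∈ Icc a b, (g n : ℂ) * (n : ℂ) ^ (-(1 + (t : ℂ) * Complex.I)) =
        ∑ n ∈ Icc 1 b, (g n : ℂ) * (n : ℂ) ^ (-(1 + (t : ℂ) * Complex.I)) := by
      refine sum_subset (Icc_subset_Icc_left ha1) fun n hn hn' => ?_
      rw [mem_Icc] at hn hn'
      rw [hsupa n (by omega)]
      simp
    have e2 : ∑ n ∈ Icc 1 N, (g n : ℂ) * (n : ℂ) ^ (-(1 + (t : ℂ) * Complex.I)) =
        ∑ n ∈ Icc 1 b, (g n : ℂ) * (n : ℂ) ^ (-(1 + (t : ℂ) * Complex.I)) := by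
      refine sum_subset (Icc_subset_Icc_right hNb) fun n hn hn' => ?_
      rw [mem_Icc] at hn hn'
      rw [hsupN n (by omega)]
      simp
    rw [e1, ← e2]
  have hgsq : ∑ n ∈ Icc a b, g n ^ 2 / n ≤ G := by
    have e1 : ∑ n ∈ Icc a b, g n ^ 2 / n = ∑ n ∈ Icc 1 b, g n ^ 2 / n := by
      refine sum_subset (Icc_subset_Icc_left ha1) fun n hn hn' => ?_
      rw [mem_Icc] at hn hn'
      rw [hsupa n (by omega)]
      simp
    have e2 : ∑ n ∈ Icc 1 N, g n ^ 2 / n = ∑ n ∈ Icc 1 b, g n ^ 2 / n := by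
      refine sum_subset (Icc_subset_Icc_right hNb) fun n hn hn' => ?_
      rw [mem_Icc] at hn hn'
      rw [hsupN n (by omega)]
      simp
    rw [e1, ← e2]
    exact hsq
  -- the parameters
  have hG0 : 0 < G := by linarith
  have hC0 : 0 < C := by linarith
  set V : ℝ := Real.exp (-(α * (m * i))) with hV
  have hV0 : 0 < V := Real.exp_pos _
  have hV1 : V ≤ 1 := by
    rw [hV, Real.exp_le_one_iff]
    have : 0 ≤ α * (m * i) := by positivity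
    linarith
  set q : ℝ := V ^ 2 * a / (2 * G * C) with hq
  have hq0 : 0 < q := by positivity
  have hqT : (q ^ 2) ^ (1 / 2 : ℝ) = q := by
    rw [← Real.sqrt_eq_rpow, Real.sqrt_sq hq0.le]
  have hVT : 2 * G * C * (q ^ 2) ^ (1 / 2 : ℝ) / a ≤ V ^ 2 := by
    rw [hqT, hq]
    refine le_of_eq ?_
    field_simp
  have hqE : q ≤ E := by
    rw [hq, div_le_iff₀ (by positivity)]
    have h1 : V ^ 2 ≤ 1 := pow_le_one₀ hV0.le hV1
    have h2 : (1 : ℝ) ≤ G * C := one_le_mul_of_one_le_of_one_le hG1 hC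
    have h3 : V ^ 2 * a ≤ 1 * (2 * E) := mul_le_mul h1 haE2 ha0.le (by norm_num)
    nlinarith
  have hlog : Real.log (1 + q ^ 2) ≤ 2 * (m * ((i : ℝ) + 1)) := by
    rw [Real.log_le_iff_le_exp (by positivity)]
    have h1 : Real.exp (2 * (m * ((i : ℝ) + 1))) = Real.exp (m * ((i : ℝ) + 1)) ^ 2 := by
      rw [← Real.exp_nat_mul]; norm_num
    rw [h1, hEE, mul_pow]
    have h2 : q ^ 2 ≤ E ^ 2 := pow_le_pow_left₀ hq0.le hqE 2
    have h3 : (1 : ℝ) ≤ E ^ 2 := one_le_pow₀ hE1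
    have h4 : (2 : ℝ) ≤ Real.exp (2 * m) := by
      have := Real.add_one_le_exp (2 * m)
      linarith
    have h5 : (2 : ℝ) ≤ Real.exp (2 * m) ^ 2 := by nlinarith
    nlinarith
  have hlog0 : 0 ≤ Real.log (1 + q ^ 2) := Real.log_nonneg (by nlinarith [sq_nonneg q])
  -- the set
  have hSm : MeasurableSet {t : ℝ | |t| ≤ T ∧ Real.exp (-(α * i)) < ‖Di f i t‖} := by
    have h1 : MeasurableSet {t : ℝ | |t| ≤ T} := measurableSet_le (by fun_prop) (by fun_prop)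
    have h2 : MeasurableSet {t : ℝ | Real.exp (-(α * i)) < ‖Di f i t‖} :=
      measurableSet_lt measurable_const (DD_continuous f _).norm.measurable
    exact h1.inter h2
  have hmain := subdiv {t : ℝ | |t| ≤ T ∧ Real.exp (-(α * i)) < ‖Di f i t‖} T (q ^ 2)
    (4 * r * G * C * Real.log (1 + q ^ 2) / V ^ 2) (by linarith) (by positivity) (by positivity)
    (fun t ht => abs_le.mp ht.1) (by
      intro x
      refine hm_short r C hC hKC g a b ha1 hbra G V (q ^ 2) x hG0.le hV0 (by positivity) hgsq hVT _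
        (hSm.inter measurableSet_Icc) Set.inter_subset_right ?_
      rintro t ⟨⟨_, ht⟩, _⟩
      rw [hpoly t, norm_pow]
      have h1 : V = Real.exp (-(α * i)) ^ (m' + 1) := by
        rw [hV, ← Real.exp_nat_mul]
        congr 1
        rw [hm]
        push_cast
        ring
      rw [h1]
      exact pow_lt_pow_left₀ ht (Real.exp_pos _).le (by omega))
  refine hmain.trans (ENNReal.ofReal_le_ofReal ?_)
  -- the final computation
  set X1 : ℝ := Real.exp (2 * α * (m * i)) with hX1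
  set X2 : ℝ := Real.exp ((6 * α - 2) * (m * i)) with hX2
  have hVX1 : X1 * V ^ 2 = 1 := by
    rw [hX1, hV, ← Real.exp_nat_mul, ← Real.exp_add, Real.exp_eq_one_iff]
    push_cast
    ring
  have hVX2 : Real.exp (2 * m) * X2 * V ^ 6 * E ^ 2 = 1 := by
    rw [hX2, hV, hE, ← Real.exp_nat_mul, ← Real.exp_nat_mul, ← Real.exp_add, ← Real.exp_add, ← Real.exp_add,
      Real.exp_eq_one_iff]
    push_cast
    ring
  have hX10 : 0 < X1 := Real.exp_pos _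
  have hX20 : 0 < X2 := Real.exp_pos _
  set e2 : ℝ := Real.exp (2 * m) with he2
  have he20 : 0 < e2 := Real.exp_pos _
  have hiV : 1 / V ^ 2 = X1 := by
    rw [div_eq_iff (by positivity)]
    linarith
  have hi6 : 1 / (V ^ 6 * E ^ 2) = e2 * X2 := by
    rw [div_eq_iff (by positivity)]
    linarith [hVX2]
  have hTq : 2 * T / q ^ 2 ≤ 8 * T * (G ^ 2 * C ^ 2) / (V ^ 4 * E ^ 2) := by
    have h1 : 2 * T / q ^ 2 = 8 * T * (G ^ 2 * C ^ 2) / (V ^ 4 * (a : ℝ) ^ 2) := by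
      rw [hq]
      field_simp
      ring
    rw [h1]
    refine div_le_div_of_nonneg_left (by positivity) (by positivity) ?_
    exact mul_le_mul_of_nonneg_left (pow_le_pow_left₀ hE0.le haE 2) (by positivity)
  have hlogB : 4 * r * G * C * Real.log (1 + q ^ 2) / V ^ 2 ≤ 8 * r * G * C * (m * ((i : ℝ) + 1)) / V ^ 2 := by
    refine div_le_div_of_nonneg_right ?_ (by positivity)
    have := mul_le_mul_of_nonneg_left hlog (by positivity : 0 ≤ 4 * r * G * C)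
    linarith
  calc (2 * T / q ^ 2 + 1) * (4 * r * G * C * Real.log (1 + q ^ 2) / V ^ 2)
      ≤ (8 * T * (G ^ 2 * C ^ 2) / (V ^ 4 * E ^ 2) + 1) * (8 * r * G * C * (m * ((i : ℝ) + 1)) / V ^ 2) := by
        refine mul_le_mul ?_ hlogB (by positivity) (by positivity)
        linarith
    _ = 8 * r * G * C * (m * ((i : ℝ) + 1)) * (8 * T * (G ^ 2 * C ^ 2) * (1 / (V ^ 6 * E ^ 2)) + 1 / V ^ 2) := by
        field_simp
    _ = 8 * r * G * C * (m * ((i : ℝ) + 1)) * (8 * T * (G ^ 2 * C ^ 2) * (e2 * X2) + X1) := by rw [hiV, hi6]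
    _ ≤ 8 * r * G * C * (m * ((i : ℝ) + 1)) * ((8 * (G ^ 2 * C ^ 2) * e2) * (X1 + T * X2)) := by
        refine mul_le_mul_of_nonneg_left ?_ (by positivity)
        have h1 : (1 : ℝ) ≤ G ^ 2 * C ^ 2 := one_le_mul_of_one_le_of_one_le (one_le_pow₀ hG1) (one_le_pow₀ hC)
        have h2 : (1 : ℝ) ≤ G ^ 2 * C ^ 2 * e2 := one_le_mul_of_one_le_of_one_le h1 hexp1
        have h3 := mul_le_mul_of_nonneg_right h2 hX10.le
        nlinarith
    _ = 64 * r * C ^ 3 * m * e2 * ((i : ℝ) + 1) * G ^ 3 * (X1 + T * X2) := by ring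

end Pool.Agent.Lib.H31P
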