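import Pool.Agent.Lib.H31P.L5
import Pool.Agent.Lib.H31P.L8

/-!
# Chunk L9 (S/M): `LVStm`
-/

open Finset MeasureTheory

namespace Pool.Agent.Lib.H31P

private theorem l9_aux (e D : ℕ) (M A I L : ℝ) (hM : 1 ≤ M) (hA : 1 ≤ A) (hI : 1 ≤ I) (hL : 1 ≤ L) :
    A ^ e * (1 + M * (I + 1)) ^ D ≤ (3 * M) ^ D * (A * I * L) ^ (e + D) := by
  have hA0 : 0 ≤ A := by linarith
  have hI0 : 0 ≤ I := by linarith
  have hAI : 1 ≤ A * I := one_le_mul_of_one_le_of_one_le hA hI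
  have hIL : 1 ≤ I * L := one_le_mul_of_one_le_of_one_le hI hL
  have hAL : 1 ≤ A * L := one_le_mul_of_one_le_of_one_le hA hL
  have h1 : A ≤ A * I * L := by
    calc A = A * 1 := (mul_one A).symm
      _ ≤ A * (I * L) := mul_le_mul_of_nonneg_left hIL hA0
      _ = A * I * L := by ring
  have h2 : I ≤ A * I * L := by
    calc I = I * 1 := (mul_one I).symm
      _ ≤ I * (A * L) := mul_le_mul_of_nonneg_left hAL hI0
      _ = A * I * L := by ring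
  have hMI : 1 ≤ M * I := one_le_mul_of_one_le_of_one_le hM hI
  have hMI2 : M ≤ M * I := by
    calc M = M * 1 := (mul_one M).symm
      _ ≤ M * I := mul_le_mul_of_nonneg_left hI (by linarith)
  have h3 : 1 + M * (I + 1) ≤ 3 * M * I := by
    have : 1 + M * (I + 1) = 1 + M * I + M := by ring
    rw [this]
    have : 3 * M * I = M * I + M * I + M * I := by ring
    rw [this]
    linarith
  have h30 : 0 ≤ 1 + M * (I + 1) := by
    have : 0 ≤ M * (I + 1) := mul_nonneg (by linarith) (by linarith)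
    linarith
  calc A ^ e * (1 + M * (I + 1)) ^ D ≤ (A * I * L) ^ e * (3 * M * I) ^ D :=
        mul_le_mul (pow_le_pow_left₀ hA0 h1 e) (pow_le_pow_left₀ h30 h3 D) (pow_nonneg h30 D)
          (pow_nonneg (by linarith) e)
    _ = (3 * M) ^ D * ((A * I * L) ^ e * I ^ D) := by rw [mul_pow]; ring
    _ ≤ (3 * M) ^ D * ((A * I * L) ^ e * (A * I * L) ^ D) := by
        refine mul_le_mul_of_nonneg_left ?_ (pow_nonneg (by linarith) D)
        exact mul_le_mul_of_nonneg_left (pow_le_pow_left₀ hI0 h2 D) (pow_nonneg (by linarith) e)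
    _ = (3 * M) ^ D * (A * I * L) ^ (e + D) := by rw [pow_add]

private theorem l9_mono (B K : ℝ) (E C : ℕ) (hB : 1 ≤ B) (hK0 : 0 ≤ K) (hK : K ≤ C) (hE : E ≤ C) :
    K * B ^ E ≤ C * B ^ C :=
  mul_le_mul hK (pow_le_pow_right₀ hB hE) (pow_nonneg (by linarith) E) (hK0.trans hK)

/-- **`LVStm`.** `m = m' + 1`.

Proof. `lv_first` and `lv_second`. `i ≥ 1`, `A ≥ 1`, `log (T+2) ≥ 1` (`T ≥ 1`, `log 3 ≥ 1`). `1 + m(i+1) ≤ 3mi`, `i + 1 ≤ 2i`; so both constants are at most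
`C' (3m)^(3·4^m') (A i)^(6m + 3·4^m' + 1)`; take the natural number `C ≥` both the factor and the exponent (`pow_le_pow_right₀`, base `≥ 1`; `Nat.ceil`). -/
theorem lv_stm (hV : MVStm) (hK : KerStm) : LVStm := by
  intro m hm
  obtain ⟨m', rfl⟩ : ∃ m', m = m' + 1 := ⟨m - 1, by omega⟩
  obtain ⟨C1, hC1, h1⟩ := lv_first hV
  obtain ⟨C2, hC2, h2⟩ := lv_second hK m'
  have hM : (1 : ℝ) ≤ (m' + 1 : ℝ) := by
    have : (0 : ℝ) ≤ m' := Nat.cast_nonneg m'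
    linarith
  have hM0 : (0 : ℝ) ≤ 3 * (m' + 1 : ℝ) := by linarith
  have hC10 : 0 ≤ C1 := by linarith
  have hC20 : 0 ≤ C2 := by linarith
  have hK10 : 0 ≤ C1 * Real.exp (m' + 1 : ℝ) * (3 * (m' + 1 : ℝ)) ^ (4 ^ m') :=
    mul_nonneg (mul_nonneg hC10 (Real.exp_pos _).le) (pow_nonneg hM0 _)
  have hK20 : 0 ≤ C2 * 2 * ((3 * (m' + 1 : ℝ)) ^ (4 ^ m')) ^ 3 :=
    mul_nonneg (mul_nonneg hC20 (by norm_num)) (pow_nonneg (pow_nonneg hM0 _) _)
  refine ⟨⌈C1 * Real.exp (m' + 1 : ℝ) * (3 * (m' + 1 : ℝ)) ^ (4 ^ m')⌉₊ +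
    ⌈C2 * 2 * ((3 * (m' + 1 : ℝ)) ^ (4 ^ m')) ^ 3⌉₊ + (3 * (2 * (m' + 1) + 4 ^ m') + 1), by omega, ?_⟩
  intro f i A T α hi hA hT hα _ hf hfA
  generalize hCd : ⌈C1 * Real.exp (m' + 1 : ℝ) * (3 * (m' + 1 : ℝ)) ^ (4 ^ m')⌉₊ +
    ⌈C2 * 2 * ((3 * (m' + 1 : ℝ)) ^ (4 ^ m')) ^ 3⌉₊ + (3 * (2 * (m' + 1) + 4 ^ m') + 1) = C
  have hc1 : C1 * Real.exp (m' + 1 : ℝ) * (3 * (m' + 1 : ℝ)) ^ (4 ^ m') ≤ (C : ℝ) := by
    refine (Nat.le_ceil _).trans ?_
    exact_mod_cast (by omega : ⌈C1 * Real.exp (m' + 1 : ℝ) * (3 * (m' + 1 : ℝ)) ^ (4 ^ m')⌉₊ ≤ C)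
  have hc2 : C2 * 2 * ((3 * (m' + 1 : ℝ)) ^ (4 ^ m')) ^ 3 ≤ (C : ℝ) := by
    refine (Nat.le_ceil _).trans ?_
    exact_mod_cast (by omega : ⌈C2 * 2 * ((3 * (m' + 1 : ℝ)) ^ (4 ^ m')) ^ 3⌉₊ ≤ C)
  have he2 : 3 * (2 * (m' + 1) + 4 ^ m') + 1 ≤ C := by omega
  have he1 : 2 * (m' + 1) + 4 ^ m' ≤ C := by omega
  clear hCd
  have hiR : (1 : ℝ) ≤ i := by exact_mod_cast hi
  have hL : 1 ≤ Real.log (T + 2) := by
    rw [Real.le_log_iff_exp_le (by linarith)]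
    have := Real.exp_one_lt_d9
    linarith
  have hB : 1 ≤ A * i * Real.log (T + 2) :=
    one_le_mul_of_one_le_of_one_le (one_le_mul_of_one_le_of_one_le hA hiR) hL
  have hiB : (i : ℝ) ≤ A * i * Real.log (T + 2) := by
    have h3 : 1 ≤ A * Real.log (T + 2) := one_le_mul_of_one_le_of_one_le hA hL
    calc (i : ℝ) = i * 1 := (mul_one _).symm
      _ ≤ i * (A * Real.log (T + 2)) := mul_le_mul_of_nonneg_left h3 (by linarith)
      _ = A * i * Real.log (T + 2) := by ring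
  have haux := l9_aux (2 * (m' + 1)) (4 ^ m') (m' + 1 : ℝ) A i (Real.log (T + 2)) hM hA hiR hL
  have hG0 : 0 ≤ A ^ (2 * (m' + 1)) * (1 + (m' + 1 : ℝ) * ((i : ℝ) + 1)) ^ (4 ^ m') := by
    refine mul_nonneg (pow_nonneg (by linarith) _) (pow_nonneg ?_ _)
    have : 0 ≤ (m' + 1 : ℝ) * ((i : ℝ) + 1) := mul_nonneg (by linarith) (by linarith)
    linarith
  generalize hGd : A ^ (2 * (m' + 1)) * (1 + (m' + 1 : ℝ) * ((i : ℝ) + 1)) ^ (4 ^ m') = G at haux hG0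
  have hT0 : 0 ≤ T := by linarith
  push_cast
  constructor
  · refine (h1 f i m' A T α hA hT hf hfA).trans (ENNReal.ofReal_le_ofReal ?_)
    rw [hGd]
    have hex : 1 ≤ Real.exp (m' + 1 : ℝ) := Real.one_le_exp (by linarith)
    have hu : 0 ≤ Real.exp (2 * α * ((m' + 1 : ℝ) * i)) := (Real.exp_pos _).le
    have hv : 0 ≤ T * Real.exp ((2 * α - 1) * ((m' + 1 : ℝ) * i)) :=
      mul_nonneg hT0 (Real.exp_pos _).le
    generalize Real.exp (2 * α * ((m' + 1 : ℝ) * i)) = u at hu ⊢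
    generalize T * Real.exp ((2 * α - 1) * ((m' + 1 : ℝ) * i)) = v at hv ⊢
    have hs : u + Real.exp (m' + 1 : ℝ) * v ≤ Real.exp (m' + 1 : ℝ) * (u + v) := by
      have : u ≤ Real.exp (m' + 1 : ℝ) * u := le_mul_of_one_le_left hu hex
      rw [mul_add]
      linarith
    calc C1 * G * (u + Real.exp (m' + 1 : ℝ) * v)
        = C1 * (G * (u + Real.exp (m' + 1 : ℝ) * v)) := by ring
      _ ≤ C1 * ((3 * (m' + 1 : ℝ)) ^ (4 ^ m') *
            (A * i * Real.log (T + 2)) ^ (2 * (m' + 1) + 4 ^ m') *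
            (Real.exp (m' + 1 : ℝ) * (u + v))) := by
          refine mul_le_mul_of_nonneg_left (mul_le_mul haux hs ?_ (hG0.trans haux)) hC10
          exact add_nonneg hu (mul_nonneg (Real.exp_pos _).le hv)
      _ = (C1 * Real.exp (m' + 1 : ℝ) * (3 * (m' + 1 : ℝ)) ^ (4 ^ m')) *
            (A * i * Real.log (T + 2)) ^ (2 * (m' + 1) + 4 ^ m') * (u + v) := by ring
      _ ≤ C * (A * i * Real.log (T + 2)) ^ C * (u + v) :=
          mul_le_mul_of_nonneg_right (l9_mono _ _ _ _ hB hK10 hc1 he1) (add_nonneg hu hv)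
  · refine (h2 f i A T α hi hA hT hα hf hfA).trans (ENNReal.ofReal_le_ofReal ?_)
    rw [hGd]
    have hu : 0 ≤ Real.exp (2 * α * ((m' + 1 : ℝ) * i)) := (Real.exp_pos _).le
    have hv : 0 ≤ T * Real.exp ((6 * α - 2) * ((m' + 1 : ℝ) * i)) :=
      mul_nonneg hT0 (Real.exp_pos _).le
    generalize Real.exp (2 * α * ((m' + 1 : ℝ) * i)) = u at hu ⊢
    generalize T * Real.exp ((6 * α - 2) * ((m' + 1 : ℝ) * i)) = v at hv ⊢
    have hi2 : (i : ℝ) + 1 ≤ 2 * (A * i * Real.log (T + 2)) := by linarith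
    have hG3 : G ^ 3 ≤ ((3 * (m' + 1 : ℝ)) ^ (4 ^ m') *
            (A * i * Real.log (T + 2)) ^ (2 * (m' + 1) + 4 ^ m')) ^ 3 :=
      pow_le_pow_left₀ hG0 haux 3
    have hB0 : 0 ≤ A * i * Real.log (T + 2) := by linarith
    calc C2 * ((i : ℝ) + 1) * G ^ 3 * (u + v)
        ≤ C2 * (2 * (A * i * Real.log (T + 2))) * ((3 * (m' + 1 : ℝ)) ^ (4 ^ m') *
            (A * i * Real.log (T + 2)) ^ (2 * (m' + 1) + 4 ^ m')) ^ 3 * (u + v) := by
          refine mul_le_mul_of_nonneg_right (mul_le_mul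
            (mul_le_mul_of_nonneg_left hi2 hC20) hG3 (pow_nonneg hG0 3) ?_) (add_nonneg hu hv)
          exact mul_nonneg hC20 (mul_nonneg (by norm_num) hB0)
      _ = (C2 * 2 * ((3 * (m' + 1 : ℝ)) ^ (4 ^ m')) ^ 3) *
            (A * i * Real.log (T + 2)) ^ (3 * (2 * (m' + 1) + 4 ^ m') + 1) * (u + v) := by
          rw [mul_pow, ← pow_mul (A * i * Real.log (T + 2))]
          ring
      _ ≤ C * (A * i * Real.log (T + 2)) ^ C * (u + v) :=
          mul_le_mul_of_nonneg_right (l9_mono _ _ _ _ hB hK20 hc2 he2) (add_nonneg hu hv)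

end Pool.Agent.Lib.H31P
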