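import Pool.Agent.Lib.H31P.Top

/-!
# Chunk H1 (S/M): tents and factors
-/

open Finset

namespace Pool.Agent.Lib.H31P

/-- Elementary properties of the tent (`unfold psi`; `max`, `abs` case distinctions). -/
theorem psi_props (x y : ℝ) : 0 ≤ psi x ∧ psi x ≤ 1 ∧ (psi x ≠ 0 → |x| < 1) ∧ |psi x - psi y| ≤ |x - y| := by
  unfold psi
  refine ⟨le_max_left _ _, max_le zero_le_one (by linarith [abs_nonneg x]), ?_, ?_⟩
  · intro h
    by_contra hx
    apply h
    exact max_eq_left (by linarith)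
  · have h1 : |max (1 - |x|) 0 - max (1 - |y|) 0| ≤ |(1 - |x|) - (1 - |y|)| :=
      abs_max_sub_max_le_abs _ _ _
    rw [max_comm 0, max_comm 0]
    refine h1.trans ?_
    have h2 : (1 - |x|) - (1 - |y|) = |y| - |x| := by ring
    rw [h2, abs_sub_comm x y]
    exact abs_abs_sub_abs_le y x

private theorem psi_zero_of {x : ℝ} (h : 1 ≤ |x|) : psi x = 0 := by
  by_contra h1
  have := (psi_props x 0).2.2.1 h1
  linarith

/-- Partition of unity: for `0 ≤ x ≤ I` only `i = ⌊x⌋` and `i = ⌊x⌋ + 1` contribute, `1 - (x - ⌊x⌋)` and `x - ⌊x⌋` (the second one is `0` if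
`x = I`, `⌊x⌋ + 1 = I + 1 ∉ range (I + 1)`). Or induction on `I`. -/
theorem psi_sum (x : ℝ) (I : ℕ) (h0 : 0 ≤ x) (h1 : x ≤ I) : ∑ i ∈ range (I + 1), psi (x - i) = 1 := by
  induction I with
  | zero =>
    have hx : x = 0 := le_antisymm (by simpa using h1) h0
    subst hx
    simp [psi]
  | succ I ih =>
    rw [Finset.sum_range_succ]
    by_cases hI : x ≤ I
    · rw [ih hI, psi_zero_of, add_zero]
      push_cast
      rw [abs_of_nonpos (by linarith)]
      linarith
    · push Not at hI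
      rw [Finset.sum_range_succ, Finset.sum_eq_zero, zero_add]
      · push_cast at h1 ⊢
        have h2 : |x - (I : ℝ)| = x - I := abs_of_nonneg (by linarith)
        have h3 : |x - ((I : ℝ) + 1)| = I + 1 - x := by
          rw [abs_of_nonpos (by linarith)]
          ring
        unfold psi
        rw [h2, h3, max_eq_right (by linarith), max_eq_right (by linarith)]
        ring
      · intro i hi
        apply psi_zero_of
        have h4 : (i : ℝ) + 1 ≤ I := by exact_mod_cast Finset.mem_range.1 hi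
        rw [abs_of_nonneg (by linarith)]
        linarith

private theorem h1_fS (i n : ℕ) : |fS i n| ≤ 1 ∧ (fS i n ≠ 0 → 1 ≤ n ∧ (i : ℝ) - 1 < Real.log n ∧
    Real.log n < i + 1) := by
  unfold fS
  split_ifs with h
  · simp
  · have hp := psi_props (Real.log n - i) 0
    refine ⟨by rw [abs_of_nonneg hp.1]; exact hp.2.1, fun h1 => ?_⟩
    have h2 := abs_lt.1 (hp.2.2.1 h1)
    exact ⟨Nat.one_le_iff_ne_zero.2 h, by linarith [h2.1], by linarith [h2.2]⟩

private theorem h1_supp {i n : ℕ} (hn : 1 ≤ n) (h1 : (i : ℝ) - 1 < Real.log n)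
    (h2 : Real.log n < i + 1) : 1 ≤ n ∧ Real.exp ((i : ℝ) - 1) < n ∧ (n : ℝ) < Real.exp ((i : ℝ) + 1) ∧
      n ≤ ⌊Real.exp ((i : ℝ) + 1)⌋₊ := by
  have hn' : (0 : ℝ) < n := by exact_mod_cast hn
  have h3 : Real.exp ((i : ℝ) - 1) < n := (Real.lt_log_iff_exp_lt hn').1 h1
  have h4 : (n : ℝ) < Real.exp ((i : ℝ) + 1) := (Real.log_lt_iff_lt_exp hn').1 h2
  exact ⟨hn, h3, h4, Nat.le_floor h4.le⟩

/-- Supports and sizes of the factors: `fac V j k i` is `fM V i`, `fS i` or `fL i`; all contain the factor `psi (log n - i)`, `|μ| ≤ 1`,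
`0 ≤ log n ≤ i + 1` on the support. -/
theorem fac_props (V j k i n : ℕ) : |fac V j k i n| ≤ (i : ℝ) + 1 ∧
    (fac V j k i n ≠ 0 → 1 ≤ n ∧ Real.exp ((i : ℝ) - 1) < n ∧ (n : ℝ) < Real.exp ((i : ℝ) + 1) ∧
      n ≤ ⌊Real.exp ((i : ℝ) + 1)⌋₊) := by
  have hS := h1_fS i n
  have hi : (0 : ℝ) ≤ i := Nat.cast_nonneg i
  unfold fac
  split_ifs with h1 h2
  · unfold fM
    split_ifs with h3
    · constructor
      · rw [abs_mul]
        have hm : |(ArithmeticFunction.moebius n : ℝ)| ≤ 1 := by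
          exact_mod_cast (ArithmeticFunction.abs_moebius_le_one (n := n))
        calc |(ArithmeticFunction.moebius n : ℝ)| * |fS i n| ≤ 1 * 1 :=
              mul_le_mul hm hS.1 (abs_nonneg _) zero_le_one
          _ ≤ (i : ℝ) + 1 := by linarith
      · intro h4
        have h5 := hS.2 (right_ne_zero_of_mul h4)
        exact h1_supp h5.1 h5.2.1 h5.2.2
    · exact ⟨by rw [abs_zero]; linarith, fun h => absurd rfl h⟩
  · refine ⟨hS.1.trans (by linarith), fun h4 => ?_⟩
    have h5 := hS.2 h4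
    exact h1_supp h5.1 h5.2.1 h5.2.2
  · unfold fL
    constructor
    · by_cases h4 : fS i n = 0
      · rw [h4, mul_zero, abs_zero]
        linarith
      · have h5 := hS.2 h4
        have h6 : 0 ≤ Real.log n := Real.log_nonneg (by exact_mod_cast h5.1)
        rw [abs_mul, abs_of_nonneg h6]
        calc Real.log n * |fS i n| ≤ ((i : ℝ) + 1) * 1 :=
              mul_le_mul h5.2.2.le hS.1 (abs_nonneg _) (by linarith)
          _ = (i : ℝ) + 1 := mul_one _
    · intro h4
      have h5 := hS.2 (right_ne_zero_of_mul h4)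
      exact h1_supp h5.1 h5.2.1 h5.2.2

/-- The sums over `i`: `∑_{i ≤ I} fac V j k i m` is `μ(m) 1[m ≤ V]`, `1` or `log m` for `1 ≤ m`, `log m ≤ I` (`psi_sum`). -/
theorem fac_sum (V j k I m : ℕ) (hm : 1 ≤ m) (hI : Real.log m ≤ I) :
    ∑ i ∈ range (I + 1), fac V j k i m =
      if k < j then (if m ≤ V then (ArithmeticFunction.moebius m : ℝ) else 0)
      else if k + 1 < 2 * j then 1 else Real.log m := by
  have h6 : 0 ≤ Real.log m := Real.log_nonneg (by exact_mod_cast hm)
  have hS : ∑ i ∈ range (I + 1), fS i m = 1 := by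
    rw [← psi_sum (Real.log m) I h6 hI]
    refine Finset.sum_congr rfl fun i _ => ?_
    unfold fS
    rw [if_neg (by omega)]
  unfold fac
  split_ifs with h1 h2 h3
  · unfold fM
    simp only [if_pos h2]
    rw [← Finset.mul_sum, hS, mul_one]
  · unfold fM
    simp only [if_neg h2, Finset.sum_const_zero]
  · exact hS
  · unfold fL
    rw [← Finset.mul_sum, hS, mul_one]

end Pool.Agent.Lib.H31P
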