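import Pool.Agent.Lib.H31P.N1

/-!
# Chunk N3 (M): large values of smooth factors of length at least `T^(3a/4)`
-/

open Finset MeasureTheory

namespace Pool.Agent.Lib.H31P

private theorem N3_core {C4 : ℕ} (hC4 : 1 ≤ C4) {CP κ : ℝ} (hCP : 1 ≤ CP) (hκ : 0 < κ)
    (hκ1 : κ ≤ 1 / 10) {X T α : ℝ} (hX0 : 3 ≤ X) (hX8 : 8 ≤ Real.log X)
    (hX4 : 2 * (C4 : ℝ) ≤ Real.log X) (hX16 : 16 * CP ≤ Real.log X)
    (hXp : 8 * CP * Real.log X < X ^ (κ / 720)) (hT1 : X ^ (1 / 3 : ℝ) ≤ T) (hT2 : T ≤ X ^ 2)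
    (h0 : 0 ≤ α) (h1 : α ≤ 1 / 2) {i : ℕ} (hi1 : 3 / 4 * aa α * Real.log T ≤ i)
    (hi2 : (i : ℝ) ≤ 6 / 5 * Real.log T) (D : ℝ → ℝ)
    (h4 : 1 ≤ i → 2 ≤ T → volume {t : ℝ | |t| ≤ T ∧ Real.exp (-(α * i)) < D t} ≤
      ENNReal.ofReal (C4 * (i * Real.log (T + 2)) ^ C4 *
        (Real.exp (α * i) + T * Real.exp ((4 * α - 2) * i))))
    (hP : ∀ t : ℝ, 1 ≤ |t| → D t ≤ CP * (i + 1) *
      (|t| ^ (1 / 6 : ℝ) * Real.exp (-((i : ℝ) / 2)) + 1 / |t|)) :
    volume {t : ℝ | |t| ≤ T ∧ Real.exp (-(α * i)) < D t} ≤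
      ENNReal.ofReal (Real.log X ^ (3 * (C4 : ℝ) + 2) * X ^ (κ * α) * T ^ pA α) := by
  obtain ⟨l, hl⟩ : ∃ l, l = Real.log X := ⟨_, rfl⟩
  obtain ⟨L, hL⟩ : ∃ L, L = Real.log T := ⟨_, rfl⟩
  rw [← hl] at hX8 hX4 hX16 hXp ⊢
  rw [← hL] at hi1 hi2
  have hXpos : 0 < X := by linarith
  have hX1 : 1 ≤ X := by linarith
  have hTpos : 0 < T := (Real.rpow_pos_of_pos hXpos _).trans_le hT1
  have hL1 : l / 3 ≤ L := by
    have := Real.log_le_log (Real.rpow_pos_of_pos hXpos _) hT1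
    rw [Real.log_rpow hXpos, ← hl, ← hL] at this
    linarith
  have hL2 : L ≤ 2 * l := by
    have := Real.log_le_log hTpos hT2
    rw [Real.log_pow, ← hl, ← hL] at this
    push_cast at this
    exact this
  have hLpos : 0 < L := by linarith
  have hTexp : Real.exp L = T := by rw [hL, Real.exp_log hTpos]
  have hT2' : 2 ≤ T := by
    have := Real.add_one_le_exp L
    linarith
  have hT1' : 1 ≤ T := by linarith
  obtain ⟨ha1, ha2⟩ := aa_bds α h0 h1
  obtain ⟨ν, hν⟩ : ∃ ν, ν = (i : ℝ) / L := ⟨_, rfl⟩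
  have hiν : (i : ℝ) = ν * L := by rw [hν, div_mul_cancel₀ _ hLpos.ne']
  have hν1 : 3 / 4 * aa α ≤ ν := by
    rw [hν, le_div_iff₀ hLpos]
    exact hi1
  have hν2 : ν ≤ 6 / 5 := by
    rw [hν, div_le_iff₀ hLpos]
    exact hi2
  have hexp : ∀ c : ℝ, Real.exp (c * i) = T ^ (c * ν) := by
    intro c
    rw [Real.rpow_def_of_pos hTpos, ← hL, hiν]
    congr 1
    ring
  have hi8 : (1 : ℝ) ≤ i := by
    rw [hiν]
    have h3 : 3 / 8 ≤ ν := by linarith
    have h5 : 3 / 8 * (8 / 3) ≤ ν * L := mul_le_mul h3 (by linarith) (by norm_num) (by linarith)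
    linarith
  have hiN : 1 ≤ i := by exact_mod_cast hi8
  have hil : (i : ℝ) ≤ 12 / 5 * l := by linarith
  have hXκ : 1 ≤ X ^ (κ * α) := Real.one_le_rpow hX1 (by positivity)
  have hTp : 0 < T ^ pA α := Real.rpow_pos_of_pos hTpos _
  have hl1 : 1 ≤ l := by linarith
  by_cases hα : 1 / 6 - κ / 30 ≤ α
  · -- the fourth moment
    obtain ⟨κ', hκ'0, hκ'α, hκ'T⟩ : ∃ κ' : ℝ, 0 ≤ κ' ∧ 1 / 6 - κ' ≤ α ∧
        T ^ (2 * κ') ≤ X ^ (κ * α) := by
      by_cases hα6 : 1 / 6 ≤ α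
      · refine ⟨0, le_rfl, by linarith, ?_⟩
        rw [mul_zero, Real.rpow_zero]
        exact hXκ
      · refine ⟨κ / 30, by positivity, hα, ?_⟩
        calc T ^ (2 * (κ / 30)) ≤ (X ^ 2) ^ (2 * (κ / 30)) :=
              Real.rpow_le_rpow hTpos.le hT2 (by positivity)
          _ = X ^ (4 * (κ / 30)) := by
              rw [← Real.rpow_natCast X 2, ← Real.rpow_mul hXpos.le]
              congr 1
              push_cast
              ring
          _ ≤ X ^ (κ * α) := by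
              refine Real.rpow_le_rpow_of_exponent_le hX1 ?_
              have h6 : 4 / 30 ≤ α := by linarith
              have h7 := mul_le_mul_of_nonneg_left h6 hκ.le
              linarith
    obtain ⟨w1, w2⟩ := win_four α ν κ' h0 h1 hκ'0 hκ'α hν1 hν2
    have b1 : Real.exp (α * i) ≤ X ^ (κ * α) * T ^ pA α := by
      rw [hexp α]
      refine (Real.rpow_le_rpow_of_exponent_le hT1' w1).trans ?_
      exact le_mul_of_one_le_left hTp.le hXκ
    have b2 : T * Real.exp ((4 * α - 2) * i) ≤ X ^ (κ * α) * T ^ pA α := by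
      rw [hexp (4 * α - 2)]
      calc T * T ^ ((4 * α - 2) * ν) = T ^ (1 + (4 * α - 2) * ν) := by
            rw [Real.rpow_add hTpos, Real.rpow_one]
        _ ≤ T ^ (pA α + 2 * κ') := Real.rpow_le_rpow_of_exponent_le hT1' w2
        _ = T ^ pA α * T ^ (2 * κ') := Real.rpow_add hTpos _ _
        _ ≤ T ^ pA α * X ^ (κ * α) := mul_le_mul_of_nonneg_left hκ'T hTp.le
        _ = X ^ (κ * α) * T ^ pA α := mul_comm _ _
    have b3 : Real.log (T + 2) ≤ 3 * l := by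
      have h5 : T + 2 ≤ X ^ 3 := by
        have h6 : X ^ 2 + 2 ≤ X ^ 3 := by
          have h7 : 9 ≤ X ^ 2 := by
            calc (9 : ℝ) = 3 ^ 2 := by norm_num
              _ ≤ X ^ 2 := pow_le_pow_left₀ (by norm_num) hX0 2
          have h8 : X ^ 2 * 3 ≤ X ^ 2 * X := mul_le_mul_of_nonneg_left hX0 (by positivity)
          calc X ^ 2 + 2 ≤ X ^ 2 * 3 := by linarith
            _ ≤ X ^ 2 * X := h8
            _ = X ^ 3 := by ring
        exact (by linarith : T + 2 ≤ X ^ 2 + 2).trans h6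
      have := Real.log_le_log (by linarith) h5
      rw [Real.log_pow, ← hl] at this
      push_cast at this
      exact this
    have b4 : 0 ≤ Real.log (T + 2) := Real.log_nonneg (by linarith)
    have b5 : (i : ℝ) * Real.log (T + 2) ≤ l ^ 3 := by
      calc (i : ℝ) * Real.log (T + 2) ≤ (12 / 5 * l) * (3 * l) :=
            mul_le_mul hil b3 b4 (by positivity)
        _ = 36 / 5 * l ^ 2 := by ring
        _ ≤ l * l ^ 2 := mul_le_mul_of_nonneg_right (by linarith) (by positivity)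
        _ = l ^ 3 := by ring
    have b6 : (C4 : ℝ) * (i * Real.log (T + 2)) ^ C4 ≤ C4 * (l ^ 3) ^ C4 :=
      mul_le_mul_of_nonneg_left (pow_le_pow_left₀ (by positivity) b5 _) (Nat.cast_nonneg _)
    refine (h4 hiN hT2').trans (ENNReal.ofReal_le_ofReal ?_)
    have b7 : (2 * (C4 : ℝ)) * (l ^ 3) ^ C4 ≤ l ^ (3 * (C4 : ℝ) + 2) := by
      have e : l ^ (3 * (C4 : ℝ) + 2) = l ^ 2 * (l ^ 3) ^ C4 := by
        rw [← pow_mul, ← pow_add, ← Real.rpow_natCast]
        congr 1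
        push_cast
        ring
      rw [e]
      refine mul_le_mul_of_nonneg_right ?_ (by positivity)
      exact hX4.trans (le_self_pow₀ hl1 two_ne_zero)
    have b8 : 0 ≤ X ^ (κ * α) * T ^ pA α := by positivity
    calc (C4 : ℝ) * (i * Real.log (T + 2)) ^ C4 *
          (Real.exp (α * i) + T * Real.exp ((4 * α - 2) * i))
        ≤ C4 * (l ^ 3) ^ C4 * (X ^ (κ * α) * T ^ pA α + X ^ (κ * α) * T ^ pA α) := by
          refine mul_le_mul b6 (add_le_add b1 b2) (by positivity) (by positivity)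
      _ = (2 * (C4 : ℝ)) * (l ^ 3) ^ C4 * (X ^ (κ * α) * T ^ pA α) := by ring
      _ ≤ l ^ (3 * (C4 : ℝ) + 2) * (X ^ (κ * α) * T ^ pA α) := mul_le_mul_of_nonneg_right b7 b8
      _ = l ^ (3 * (C4 : ℝ) + 2) * X ^ (κ * α) * T ^ pA α := by ring
  · -- the pointwise bound
    push Not at hα
    have hptw := win_pt α ν (κ / 30) h0 (by positivity) hα.le hν1
    have hE := Real.exp_pos (α * (i : ℝ))
    have hi0 : (0 : ℝ) ≤ i := Nat.cast_nonneg _
    obtain ⟨R, hR⟩ : ∃ R : ℝ, R = 2 * CP * (i + 1) * Real.exp (α * i) := ⟨_, rfl⟩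
    have hE1 : 1 ≤ Real.exp (α * (i : ℝ)) := Real.one_le_exp (by positivity)
    have hR1 : 1 ≤ R := by
      rw [hR]
      have h5 : 1 ≤ 2 * CP * ((i : ℝ) + 1) :=
        one_le_mul_of_one_le_of_one_le (by linarith) (by linarith)
      exact one_le_mul_of_one_le_of_one_le h5 hE1
    have hsub : {t : ℝ | |t| ≤ T ∧ Real.exp (-(α * i)) < D t} ⊆ Set.Icc (-R) R := by
      rintro t ⟨htT, htD⟩
      rw [Set.mem_Icc, ← abs_le]
      by_cases ht1 : |t| ≤ 1
      · linarith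
      push Not at ht1
      have htpos : 0 < |t| := by linarith
      by_contra htR
      push Not at htR
      have h5 := htD.trans_le (hP t ht1.le)
      have h6 : 1 / |t| * (CP * (i + 1)) ≤ Real.exp (-(α * i)) / 2 := by
        rw [Real.exp_neg, div_mul_eq_mul_div, one_mul, div_le_iff₀ htpos]
        have h7 : (Real.exp (α * (i : ℝ)))⁻¹ / 2 * R ≤ (Real.exp (α * (i : ℝ)))⁻¹ / 2 * |t| :=
          mul_le_mul_of_nonneg_left htR.le (by positivity)
        have h8 : (Real.exp (α * (i : ℝ)))⁻¹ / 2 * R = CP * (i + 1) := by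
          rw [hR]
          field_simp
        linarith
      have h7 : |t| ^ (1 / 6 : ℝ) ≤ T ^ (1 / 6 : ℝ) :=
        Real.rpow_le_rpow htpos.le htT (by norm_num)
      have h8 : Real.exp (-(α * i)) / 2 <
          CP * (i + 1) * (T ^ (1 / 6 : ℝ) * Real.exp (-((i : ℝ) / 2))) := by
        have h9 : CP * (i + 1) * (|t| ^ (1 / 6 : ℝ) * Real.exp (-((i : ℝ) / 2))) ≤
            CP * (i + 1) * (T ^ (1 / 6 : ℝ) * Real.exp (-((i : ℝ) / 2))) := by
          refine mul_le_mul_of_nonneg_left ?_ (by positivity)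
          exact mul_le_mul_of_nonneg_right h7 (Real.exp_pos _).le
        rw [mul_add] at h5
        linarith
      have h9 : Real.exp ((1 / 2 - α) * i) < 2 * CP * (i + 1) * T ^ (1 / 6 : ℝ) := by
        have e1 : Real.exp ((1 / 2 - α) * i) =
            Real.exp (-(α * i)) / 2 * (2 * Real.exp ((i : ℝ) / 2)) := by
          have : Real.exp ((1 / 2 - α) * i) = Real.exp (-(α * i)) * Real.exp ((i : ℝ) / 2) := by
            rw [← Real.exp_add]
            congr 1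
            ring
          rw [this]
          ring
        have e2 : CP * (i + 1) * (T ^ (1 / 6 : ℝ) * Real.exp (-((i : ℝ) / 2))) *
            (2 * Real.exp ((i : ℝ) / 2)) = 2 * CP * (i + 1) * T ^ (1 / 6 : ℝ) := by
          have : Real.exp (-((i : ℝ) / 2)) * Real.exp ((i : ℝ) / 2) = 1 := by
            rw [← Real.exp_add, neg_add_cancel, Real.exp_zero]
          linear_combination (2 * CP * (i + 1) * T ^ (1 / 6 : ℝ)) * this
        rw [e1, ← e2]
        exact mul_lt_mul_of_pos_right h8 (by positivity)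
      have h10 : T ^ (1 / 6 : ℝ) * X ^ (κ / 720) ≤ Real.exp ((1 / 2 - α) * i) := by
        rw [hexp]
        calc T ^ (1 / 6 : ℝ) * X ^ (κ / 720)
            = T ^ (1 / 6 : ℝ) * (X ^ (1 / 3 : ℝ)) ^ (κ / 30 / 8) := by
              rw [← Real.rpow_mul hXpos.le]
              congr 2
              ring
          _ ≤ T ^ (1 / 6 : ℝ) * T ^ (κ / 30 / 8) := by
              refine mul_le_mul_of_nonneg_left ?_ (by positivity)
              exact Real.rpow_le_rpow (by positivity) hT1 (by positivity)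
          _ = T ^ (1 / 6 + κ / 30 / 8) := by rw [Real.rpow_add hTpos]
          _ ≤ T ^ ((1 / 2 - α) * ν) := Real.rpow_le_rpow_of_exponent_le hT1' hptw
      have h11 : 2 * CP * ((i : ℝ) + 1) ≤ 8 * CP * l := by
        have h13 : (i : ℝ) + 1 ≤ 4 * l := by linarith
        have h14 := mul_le_mul_of_nonneg_left h13 (show 0 ≤ 2 * CP by linarith)
        linarith
      have hT6 : 0 < T ^ (1 / 6 : ℝ) := Real.rpow_pos_of_pos hTpos _
      have h12 : 2 * CP * ((i : ℝ) + 1) * T ^ (1 / 6 : ℝ) ≤ X ^ (κ / 720) * T ^ (1 / 6 : ℝ) :=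
        mul_le_mul_of_nonneg_right (h11.trans hXp.le) hT6.le
      linarith
    refine (measure_mono hsub).trans ?_
    rw [Real.volume_Icc]
    refine ENNReal.ofReal_le_ofReal ?_
    have w1 : α * ν ≤ pA α := by
      unfold pA
      rw [if_pos (by linarith)]
      rw [le_div_iff₀ (by linarith)]
      have h5 : ν * (2 - 3 * α) ≤ 6 / 5 * 2 :=
        mul_le_mul hν2 (by linarith) (by linarith) (by norm_num)
      have h6 := mul_le_mul_of_nonneg_left h5 h0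
      have h7 : α * ν * (2 - 3 * α) = α * (ν * (2 - 3 * α)) := by ring
      rw [h7]
      linarith
    have b1 : Real.exp (α * i) ≤ T ^ pA α := by
      rw [hexp α]
      exact Real.rpow_le_rpow_of_exponent_le hT1' w1
    have b2 : l ^ 2 ≤ l ^ (3 * (C4 : ℝ) + 2) := by
      have h5 : (l : ℝ) ^ 2 = l ^ (2 : ℝ) := by norm_num
      rw [h5]
      refine Real.rpow_le_rpow_of_exponent_le hl1 ?_
      have : (0 : ℝ) ≤ C4 := Nat.cast_nonneg _
      linarith
    have b3 : 4 * CP * ((i : ℝ) + 1) ≤ l ^ 2 := by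
      have h13 : (i : ℝ) + 1 ≤ 4 * l := by linarith
      have h14 := mul_le_mul_of_nonneg_left h13 (show 0 ≤ 4 * CP by linarith)
      have h15 := mul_le_mul_of_nonneg_right hX16 (show 0 ≤ l by linarith)
      have h16 : l ^ 2 = l * l := by ring
      rw [h16]
      linarith
    calc R - -R = 4 * CP * (i + 1) * Real.exp (α * i) := by rw [hR]; ring
      _ ≤ l ^ 2 * T ^ pA α := mul_le_mul b3 b1 hE.le (by positivity)
      _ ≤ l ^ (3 * (C4 : ℝ) + 2) * T ^ pA α := mul_le_mul_of_nonneg_right b2 hTp.le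
      _ ≤ l ^ (3 * (C4 : ℝ) + 2) * X ^ (κ * α) * T ^ pA α := by
          refine mul_le_mul_of_nonneg_right ?_ hTp.le
          exact le_mul_of_one_le_right (by positivity) hXκ

/-- **Long smooth factors.** `κ' = κ/30`.

Proof. `ν = i/log T`, `(3/4)a ≤ ν ≤ 6/5`. Case `α ≥ 1/6 - κ'`: `M4Stm`: the measure is at most `C(...)^C (T^(αν) + T^(1+(4α-2)ν)) ≤ 2C(...)^C T^(pA α + 2κ')` (`win_four`), and for
`α ≥ 1/6` one has `1 + (4α-2)ν ≤ pA α` (use `win_four` with `κ' = 0`); for `α < 1/6`: `T^(2κ') ≤ X^(4κ') = X^(4κ/30) ≤ X^(κα)` because `α ≥ 1/6 - κ/30 ≥ 4/30` (`κ ≤ 1/10`... `1/6 - 1/300 > 4/30`).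
Case `α < 1/6 - κ'`: let `|t| ≤ T`, `|t| ≥ 1` and `exp (-αi) < ‖Di ..‖ ≤ C(i+1)(|t|^(1/6) e^(-i/2) + 1/|t|)` (`PtStm`). Either `2C(i+1) T^(1/6) ≥ e^((1/2-α)i) = T^((1/2-α)ν) ≥ T^(1/6+κ'/8)`
(`win_pt`), impossible for large `X` (`T ≥ X^(1/3)`, `i + 1 ≤ 4 log X`), or `|t| ≤ 2C(i+1) e^(αi)`: measure `≤ 4C(i+1) T^(αν) ≤ (log X)^(C') T^(pA α)` (`αν ≤ (6/5)α ≤ pA α`). The `|t| ≤ 1` add `2`. -/
theorem smooth_part (h4 : M4Stm) (hP : PtStm) (κ : ℝ) (hκ : 0 < κ) (hκ1 : κ ≤ 1 / 10) : ∃ C X₀ : ℝ, 1 ≤ C ∧ 3 ≤ X₀ ∧ ∀ X T α : ℝ, X₀ ≤ X →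
    X ^ (1 / 3 : ℝ) ≤ T → T ≤ X ^ 2 → 0 ≤ α → α ≤ 1 / 2 → ∀ i : ℕ, 3 / 4 * aa α * Real.log T ≤ i → (i : ℝ) ≤ 6 / 5 * Real.log T →
    volume {t : ℝ | |t| ≤ T ∧ Real.exp (-(α * i)) < ‖Di (fS i) i t‖} ≤
      ENNReal.ofReal (Real.log X ^ C * X ^ (κ * α) * T ^ pA α) ∧
    volume {t : ℝ | |t| ≤ T ∧ Real.exp (-(α * i)) < ‖Di (fL i) i t‖} ≤
      ENNReal.ofReal (Real.log X ^ C * X ^ (κ * α) * T ^ pA α) := by
  obtain ⟨C4, hC4, h4⟩ := h4
  obtain ⟨CP, hCP, hP⟩ := hP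
  have hev : ∀ᶠ X : ℝ in Filter.atTop, 3 ≤ X ∧ 8 ≤ Real.log X ∧ 2 * (C4 : ℝ) ≤ Real.log X ∧
      16 * CP ≤ Real.log X ∧ 8 * CP * Real.log X < X ^ (κ / 720) := by
    have h5 := (isLittleO_log_rpow_atTop (show (0 : ℝ) < κ / 720 by positivity)).def
      (show (0 : ℝ) < 1 / (16 * CP) by positivity)
    filter_upwards [Filter.eventually_ge_atTop 3,
      Real.tendsto_log_atTop.eventually_ge_atTop 8,
      Real.tendsto_log_atTop.eventually_ge_atTop (2 * (C4 : ℝ)),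
      Real.tendsto_log_atTop.eventually_ge_atTop (16 * CP), h5] with X a1 a2 a3 a4 a5
    refine ⟨a1, a2, a3, a4, ?_⟩
    have hXp : 0 < X ^ (κ / 720) := Real.rpow_pos_of_pos (by linarith) _
    rw [Real.norm_eq_abs, Real.norm_eq_abs, abs_of_nonneg (by linarith : 0 ≤ Real.log X),
      abs_of_pos hXp] at a5
    have h6 : 8 * CP * Real.log X ≤ 8 * CP * (1 / (16 * CP) * X ^ (κ / 720)) :=
      mul_le_mul_of_nonneg_left a5 (by linarith)
    have h7 : 8 * CP * (1 / (16 * CP) * X ^ (κ / 720)) = X ^ (κ / 720) / 2 := by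
      have : CP ≠ 0 := by linarith
      field_simp
      ring
    linarith
  obtain ⟨X₀, hX₀⟩ := Filter.eventually_atTop.1 hev
  refine ⟨3 * (C4 : ℝ) + 2, max X₀ 3, ?_, le_max_right _ _, ?_⟩
  · have : (0 : ℝ) ≤ C4 := Nat.cast_nonneg _
    linarith
  intro X T α hX hT1 hT2 h0 h1 i hi1 hi2
  obtain ⟨a1, a2, a3, a4, a5⟩ := hX₀ X ((le_max_left _ _).trans hX)
  have hi0 : (0 : ℝ) ≤ i := Nat.cast_nonneg _
  constructor
  · refine N3_core hC4 hCP hκ hκ1 a1 a2 a3 a4 a5 hT1 hT2 h0 h1 hi1 hi2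
      (fun t => ‖Di (fS i) i t‖) (fun hi hT => (h4 i T α hi hT h0 h1).1) fun t ht => ?_
    refine ((hP i t ht).1).trans ?_
    refine mul_le_mul_of_nonneg_right ?_ (by positivity)
    exact le_mul_of_one_le_right (by linarith) (by linarith)
  · exact N3_core hC4 hCP hκ hκ1 a1 a2 a3 a4 a5 hT1 hT2 h0 h1 hi1 hi2
      (fun t => ‖Di (fL i) i t‖) (fun hi hT => (h4 i T α hi hT h0 h1).2) fun t ht => (hP i t ht).2

end Pool.Agent.Lib.H31P
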