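import Pool.Agent.Lib.H31P.N2
import Pool.Agent.Lib.H31P.N3
import Pool.Agent.Lib.H31P.H1

/-!
# Chunk N4 (S/M): `MLStm`
-/

open Finset MeasureTheory

namespace Pool.Agent.Lib.H31P

private lemma N4_fM (V i n : ℕ) : |fM V i n| ≤ (i : ℝ) + 1 ∧
    (fM V i n ≠ 0 → Real.exp ((i : ℝ) - 1) < n ∧ (n : ℝ) < Real.exp ((i : ℝ) + 1)) := by
  have h1 : fac V 1 0 i = fM V i := by
    unfold fac
    rw [if_pos Nat.zero_lt_one]
  have h2 := fac_props V 1 0 i n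
  rw [h1] at h2
  exact ⟨h2.1, fun h => ⟨(h2.2 h).2.1, (h2.2 h).2.2.1⟩⟩

private lemma N4_fS (i n : ℕ) : |fS i n| ≤ (i : ℝ) + 1 ∧
    (fS i n ≠ 0 → Real.exp ((i : ℝ) - 1) < n ∧ (n : ℝ) < Real.exp ((i : ℝ) + 1)) := by
  have h1 : fac 0 2 2 i = fS i := by
    unfold fac
    rw [if_neg (lt_irrefl 2), if_pos (by norm_num)]
  have h2 := fac_props 0 2 2 i n
  rw [h1] at h2
  exact ⟨h2.1, fun h => ⟨(h2.2 h).2.1, (h2.2 h).2.2.1⟩⟩

private lemma N4_fL (i n : ℕ) : |fL i n| ≤ (i : ℝ) + 1 ∧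
    (fL i n ≠ 0 → Real.exp ((i : ℝ) - 1) < n ∧ (n : ℝ) < Real.exp ((i : ℝ) + 1)) := by
  have h1 : fac 0 1 1 i = fL i := by
    unfold fac
    rw [if_neg (lt_irrefl 1), if_neg (by norm_num)]
  have h2 := fac_props 0 1 1 i n
  rw [h1] at h2
  exact ⟨h2.1, fun h => ⟨(h2.2 h).2.1, (h2.2 h).2.2.1⟩⟩

/-- **`MLStm`.** `fM`: `i ≤ log X/12 ≤ (1/4) log T ≤ (3/4)(1/2) log T` (`aa_bds`), `lv_part`. `fS`, `fL`: `lv_part` if `i ≤ (3/4) aa α log T`, otherwise `smooth_part`. Supports and sizes: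
`fac_props` (`fM V i = fac V 1 0 i`, `fS i = fac V 2 2 i`, `fL i = fac V 1 1 i`) or directly. `X^(κα) ≥ 1`. -/
theorem ml_stm (hL : LVStm) (h4 : M4Stm) (hP : PtStm) : MLStm := by
  intro κ δ hκ hκ1 hδ
  obtain ⟨C₁, X₁, hC₁, hX₁, hl⟩ := lv_part hL δ hδ
  obtain ⟨C₂, X₂, hC₂, hX₂, hs⟩ := smooth_part h4 hP κ hκ hκ1
  refine ⟨max C₁ C₂, max X₁ X₂, hC₁.trans (le_max_left _ _), hX₁.trans (le_max_left _ _), ?_⟩
  intro X T α hX hT hT2 hα0 hα1 i V hi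
  have hXX₁ : X₁ ≤ X := (le_max_left _ _).trans hX
  have hXX₂ : X₂ ≤ X := (le_max_right _ _).trans hX
  have hX3 : 3 ≤ X := hX₁.trans hXX₁
  have hX0 : 0 < X := by linarith
  have hX1 : 1 ≤ X := by linarith
  have hlog : 1 ≤ Real.log X := by
    rw [Real.le_log_iff_exp_le hX0]
    exact Real.exp_one_lt_d9.le.trans (by linarith)
  have hT0 : 0 < T := lt_of_lt_of_le (Real.rpow_pos_of_pos hX0 _) hT
  have hlT : Real.log X / 3 ≤ Real.log T := by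
    have h1 := Real.log_le_log (Real.rpow_pos_of_pos hX0 _) hT
    rw [Real.log_rpow hX0] at h1
    linarith
  have hpow : 1 ≤ X ^ (κ * α) := Real.one_le_rpow hX1 (mul_nonneg hκ.le hα0)
  have hTp : 0 ≤ T ^ pA α := Real.rpow_nonneg hT0.le _
  have hm1 : Real.log X ^ C₁ ≤ Real.log X ^ (max C₁ C₂) := Real.rpow_le_rpow_of_exponent_le hlog (le_max_left _ _)
  have hm2 : Real.log X ^ C₂ ≤ Real.log X ^ (max C₁ C₂) := Real.rpow_le_rpow_of_exponent_le hlog (le_max_right _ _)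
  have hm0 : 0 ≤ Real.log X ^ (max C₁ C₂) := Real.rpow_nonneg (by linarith) _
  have hb1 : ENNReal.ofReal (Real.log X ^ C₁ * T ^ pA α) ≤
      ENNReal.ofReal (Real.log X ^ (max C₁ C₂) * X ^ (κ * α) * T ^ pA α) := by
    apply ENNReal.ofReal_le_ofReal
    apply mul_le_mul_of_nonneg_right _ hTp
    calc Real.log X ^ C₁ ≤ Real.log X ^ (max C₁ C₂) := hm1
      _ = Real.log X ^ (max C₁ C₂) * 1 := (mul_one _).symm
      _ ≤ Real.log X ^ (max C₁ C₂) * X ^ (κ * α) := mul_le_mul_of_nonneg_left hpow hm0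
  have hb2 : ENNReal.ofReal (Real.log X ^ C₂ * X ^ (κ * α) * T ^ pA α) ≤
      ENNReal.ofReal (Real.log X ^ (max C₁ C₂) * X ^ (κ * α) * T ^ pA α) := by
    apply ENNReal.ofReal_le_ofReal
    apply mul_le_mul_of_nonneg_right _ hTp
    exact mul_le_mul_of_nonneg_right hm2 (by linarith)
  refine ⟨fun hi2 => ?_, fun hi2 => ?_, fun hi2 => ?_⟩
  · have hb := (aa_bds α hα0 hα1).1
    have hi3 : (i : ℝ) ≤ 3 / 4 * aa α * Real.log T := by
      have h1 : 3 / 4 * (1 / 2) * Real.log T ≤ 3 / 4 * aa α * Real.log T := by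
        apply mul_le_mul_of_nonneg_right _ (by linarith)
        linarith
      linarith
    exact (hl X T α hXX₁ hT hT2 hα0 hα1 (fM V i) i hi hi3 (fun n => (N4_fM V i n).2) (fun n => (N4_fM V i n).1)).trans hb1
  · rcases le_total (i : ℝ) (3 / 4 * aa α * Real.log T) with hi3 | hi3
    · exact (hl X T α hXX₁ hT hT2 hα0 hα1 (fS i) i hi hi3 (fun n => (N4_fS i n).2) (fun n => (N4_fS i n).1)).trans hb1
    · exact ((hs X T α hXX₂ hT hT2 hα0 hα1 i hi3 hi2).1).trans hb2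
  · rcases le_total (i : ℝ) (3 / 4 * aa α * Real.log T) with hi3 | hi3
    · exact (hl X T α hXX₁ hT hT2 hα0 hα1 (fL i) i hi hi3 (fun n => (N4_fL i n).2) (fun n => (N4_fL i n).1)).trans hb1
    · exact ((hs X T α hXX₂ hT hT2 hα0 hα1 i hi3 hi2).2).trans hb2

end Pool.Agent.Lib.H31P
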