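import Pool.Agent.Lib.H31P.Top
import Pool.Agent.Lib.H31W.P1

/-!
# Chunk P2 (S/M): the Fourier transform of the averages
-/

open Finset MeasureTheory FourierTransform

namespace Pool.Agent.Lib.H31P

open Pool.Agent.Lib.H31W

/-- The indicator of `log n - η ≤ u < log n`. -/
private noncomputable def hpBox (n : ℕ) (η u : ℝ) : ℝ :=
  Set.indicator (Set.Ico (Real.log n - η) (Real.log n)) (fun _ => (1 : ℝ)) u

private theorem hp2_av (f : ℕ → ℝ) (N : ℕ) (hf : ∀ n, N < n → f n = 0) (η u : ℝ) :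
    av f η u = ∑ n ∈ Icc 1 N, (f n / n) * (1 / η * hpBox n η u) := by
  have h2 : ∑ n ∈ Icc 1 N, (f n / n) * hpBox n η u =
      ∑ n ∈ (Icc 1 N).filter (fun n => n ∈ Ioc ⌊Real.exp u⌋₊ ⌊Real.exp (u + η)⌋₊), f n / n := by
    rw [Finset.sum_filter]
    refine sum_congr rfl fun n hn => ?_
    have hn1 : 1 ≤ n := (Finset.mem_Icc.mp hn).1
    have hiff : n ∈ Ioc ⌊Real.exp u⌋₊ ⌊Real.exp (u + η)⌋₊ ↔
        u ∈ Set.Ico (Real.log n - η) (Real.log n) := by
      have hnpos : (0 : ℝ) < n := by exact_mod_cast hn1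
      rw [Finset.mem_Ioc, Nat.floor_lt (Real.exp_pos u).le, Nat.le_floor_iff (Real.exp_pos _).le,
        Set.mem_Ico, Real.lt_log_iff_exp_lt hnpos, sub_le_iff_le_add,
        Real.log_le_iff_le_exp hnpos]
      exact and_comm
    rw [hpBox]
    by_cases hh : n ∈ Ioc ⌊Real.exp u⌋₊ ⌊Real.exp (u + η)⌋₊
    · rw [if_pos hh, Set.indicator_of_mem (hiff.mp hh), mul_one]
    · rw [if_neg hh, Set.indicator_of_notMem (fun h => hh (hiff.mpr h)), mul_zero]
  have h1 : ∑ n ∈ Ioc ⌊Real.exp u⌋₊ ⌊Real.exp (u + η)⌋₊, f n / n =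
      ∑ n ∈ Icc 1 N, (f n / n) * hpBox n η u := by
    rw [h2]
    symm
    apply Finset.sum_subset
    · intro n hn
      exact (Finset.mem_filter.mp hn).2
    · intro n hn hnn
      have hn0 : 1 ≤ n := by
        have := (Finset.mem_Ioc.mp hn).1
        omega
      have hN : N < n := by
        by_contra hcon
        exact hnn (Finset.mem_filter.mpr ⟨Finset.mem_Icc.mpr ⟨hn0, not_lt.mp hcon⟩, hn⟩)
      rw [hf n hN, zero_div]
  rw [av, h1, Finset.mul_sum]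
  exact sum_congr rfl fun n _ => by ring

private theorem hp2_box_int (n : ℕ) (η : ℝ) : Integrable (fun u => (hpBox n η u : ℂ)) := by
  have h1 : Integrable (fun u => hpBox n η u) := by
    unfold hpBox
    rw [integrable_indicator_iff measurableSet_Ico]
    exact integrableOn_const (by simp)
  exact h1.ofReal

private theorem hp2_box_le (n : ℕ) (η u : ℝ) : |hpBox n η u| ≤ 1 := by
  unfold hpBox
  by_cases h : u ∈ Set.Ico (Real.log n - η) (Real.log n)
  · rw [Set.indicator_of_mem h]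
    simp
  · rw [Set.indicator_of_notMem h]
    simp

/-- The Fourier transform of the indicator. -/
private theorem hp2_box_fourier (n : ℕ) (hn : 1 ≤ n) (η ξ : ℝ) (hη : 0 < η) :
    (1 / (η : ℂ)) * ∫ v : ℝ, Complex.exp (↑(-2 * Real.pi * v * ξ) * Complex.I) * (hpBox n η v : ℂ) =
      (n : ℂ) ^ (-((2 * Real.pi * ξ : ℝ) : ℂ) * Complex.I) * mm η (2 * Real.pi * ξ) := by
  have h1 : (∫ v : ℝ, Complex.exp (↑(-2 * Real.pi * v * ξ) * Complex.I) * (hpBox n η v : ℂ)) =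
      ∫ v in (Real.log n - η)..(Real.log n),
        Complex.exp (↑(-2 * Real.pi * v * ξ) * Complex.I) := by
    rw [intervalIntegral.integral_of_le (by linarith), ← integral_Ico_eq_integral_Ioc,
      ← integral_indicator measurableSet_Ico]
    congr 1
    funext v
    unfold hpBox
    by_cases h : v ∈ Set.Ico (Real.log n - η) (Real.log n)
    · rw [Set.indicator_of_mem h, Set.indicator_of_mem h]
      simp
    · rw [Set.indicator_of_notMem h, Set.indicator_of_notMem h]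
      simp
  have h2 := intervalIntegral.integral_comp_sub_mul (a := 0) (b := 1) (c := η)
    (fun v : ℝ => Complex.exp (↑(-2 * Real.pi * v * ξ) * Complex.I)) hη.ne' (Real.log n)
  rw [mul_zero, mul_one, sub_zero] at h2
  have h3 : (1 / (η : ℂ)) * ∫ v : ℝ, Complex.exp (↑(-2 * Real.pi * v * ξ) * Complex.I) *
      (hpBox n η v : ℂ) =
      ∫ x in (0 : ℝ)..1, Complex.exp (↑(-2 * Real.pi * (Real.log n - η * x) * ξ) * Complex.I) := by
    rw [h1, h2, Complex.real_smul, Complex.ofReal_inv, one_div]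
  rw [h3, mm, ← intervalIntegral.integral_const_mul]
  congr 1
  funext x
  have hn0 : (n : ℂ) ≠ 0 := by
    exact_mod_cast (by omega : n ≠ 0)
  rw [Complex.cpow_def_of_ne_zero hn0, ← Complex.exp_add]
  congr 1
  rw [← Complex.natCast_log]
  push_cast
  ring

private theorem hp2_main (f : ℕ → ℝ) (N : ℕ) (hf : ∀ n, N < n → f n = 0) (η η₀ c₁ c₂ : ℝ) (hη : 0 < η)
    (hη₀ : 0 < η₀) :
    Integrable (fun u : ℝ => ((c₁ * av f η u + c₂ * av f η₀ u : ℝ) : ℂ)) ∧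
    (∃ C : ℝ, ∀ u : ℝ, ‖((c₁ * av f η u + c₂ * av f η₀ u : ℝ) : ℂ)‖ ≤ C) ∧
    ∀ ξ : ℝ, 𝓕 (fun u : ℝ => ((c₁ * av f η u + c₂ * av f η₀ u : ℝ) : ℂ)) ξ =
      DD f N (2 * Real.pi * ξ) *
        ((c₁ : ℂ) * mm η (2 * Real.pi * ξ) + (c₂ : ℂ) * mm η₀ (2 * Real.pi * ξ)) := by
  have hrep : ∀ u : ℝ, ((c₁ * av f η u + c₂ * av f η₀ u : ℝ) : ℂ) =
      ∑ n ∈ Icc 1 N, ((f n / n : ℝ) : ℂ) * ((c₁ : ℂ) * (1 / (η : ℂ) * (hpBox n η u : ℂ)) +
        (c₂ : ℂ) * (1 / (η₀ : ℂ) * (hpBox n η₀ u : ℂ))) := by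
    intro u
    rw [hp2_av f N hf, hp2_av f N hf, Finset.mul_sum, Finset.mul_sum, ← Finset.sum_add_distrib]
    push_cast
    exact sum_congr rfl fun n _ => by ring
  have hint : Integrable (fun u : ℝ => ((c₁ * av f η u + c₂ * av f η₀ u : ℝ) : ℂ)) := by
    simp only [hrep]
    refine integrable_finsetSum _ fun n _ => Integrable.const_mul ?_ _
    exact (((hp2_box_int n η).const_mul _).const_mul _).add
      (((hp2_box_int n η₀).const_mul _).const_mul _)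
  have hbd : ∀ u : ℝ, ‖((c₁ * av f η u + c₂ * av f η₀ u : ℝ) : ℂ)‖ ≤
      ∑ n ∈ Icc 1 N, ‖((f n / n : ℝ) : ℂ)‖ * (‖(c₁ : ℂ)‖ * ‖(1 / (η : ℂ))‖ +
        ‖(c₂ : ℂ)‖ * ‖(1 / (η₀ : ℂ))‖) := by
    intro u
    rw [hrep]
    refine (norm_sum_le _ _).trans (sum_le_sum fun n _ => ?_)
    rw [norm_mul]
    refine mul_le_mul_of_nonneg_left ((norm_add_le _ _).trans (add_le_add ?_ ?_)) (norm_nonneg _)
    · rw [norm_mul, norm_mul]
      refine mul_le_mul_of_nonneg_left ?_ (norm_nonneg _)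
      refine (mul_le_mul_of_nonneg_left ?_ (norm_nonneg _)).trans_eq (mul_one _)
      rw [Complex.norm_real]
      exact hp2_box_le n η u
    · rw [norm_mul, norm_mul]
      refine mul_le_mul_of_nonneg_left ?_ (norm_nonneg _)
      refine (mul_le_mul_of_nonneg_left ?_ (norm_nonneg _)).trans_eq (mul_one _)
      rw [Complex.norm_real]
      exact hp2_box_le n η₀ u
  have hF : ∀ ξ : ℝ, 𝓕 (fun u : ℝ => ((c₁ * av f η u + c₂ * av f η₀ u : ℝ) : ℂ)) ξ =
      DD f N (2 * Real.pi * ξ) *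
        ((c₁ : ℂ) * mm η (2 * Real.pi * ξ) + (c₂ : ℂ) * mm η₀ (2 * Real.pi * ξ)) := by
    intro ξ
    have hE : ∀ v : ℝ, ‖Complex.exp (↑(-2 * Real.pi * v * ξ) * Complex.I)‖ ≤ 1 := fun v => by
      rw [Complex.norm_exp_ofReal_mul_I]
    have hEm : AEStronglyMeasurable
        (fun v : ℝ => Complex.exp (↑(-2 * Real.pi * v * ξ) * Complex.I)) volume := by
      refine Continuous.aestronglyMeasurable ?_
      fun_prop
    have hi : ∀ (n : ℕ) (η' : ℝ), Integrable (fun v : ℝ =>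
        Complex.exp (↑(-2 * Real.pi * v * ξ) * Complex.I) * (hpBox n η' v : ℂ)) := fun n η' =>
      (hp2_box_int n η').bdd_mul hEm (Filter.Eventually.of_forall hE)
    rw [Real.fourier_real_eq_integral_exp_smul]
    simp only [hrep, smul_eq_mul]
    have h1 : ∀ v : ℝ, Complex.exp (↑(-2 * Real.pi * v * ξ) * Complex.I) *
        (∑ n ∈ Icc 1 N, ((f n / n : ℝ) : ℂ) * ((c₁ : ℂ) * (1 / (η : ℂ) * (hpBox n η v : ℂ)) +
          (c₂ : ℂ) * (1 / (η₀ : ℂ) * (hpBox n η₀ v : ℂ)))) =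
        ∑ n ∈ Icc 1 N, (((f n / n : ℝ) : ℂ) * ((c₁ : ℂ) * (1 / (η : ℂ))) *
            (Complex.exp (↑(-2 * Real.pi * v * ξ) * Complex.I) * (hpBox n η v : ℂ)) +
          ((f n / n : ℝ) : ℂ) * ((c₂ : ℂ) * (1 / (η₀ : ℂ))) *
            (Complex.exp (↑(-2 * Real.pi * v * ξ) * Complex.I) * (hpBox n η₀ v : ℂ))) := by
      intro v
      rw [Finset.mul_sum]
      exact sum_congr rfl fun n _ => by ring
    simp only [h1]
    have hI : ∀ n ∈ Icc 1 N, Integrable (fun v : ℝ => ((f n / n : ℝ) : ℂ) *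
          ((c₁ : ℂ) * (1 / (η : ℂ))) *
            (Complex.exp (↑(-2 * Real.pi * v * ξ) * Complex.I) * (hpBox n η v : ℂ)) +
          ((f n / n : ℝ) : ℂ) * ((c₂ : ℂ) * (1 / (η₀ : ℂ))) *
            (Complex.exp (↑(-2 * Real.pi * v * ξ) * Complex.I) * (hpBox n η₀ v : ℂ))) :=
      fun n _ => ((hi n η).const_mul _).add ((hi n η₀).const_mul _)
    rw [integral_finsetSum _ hI, DD, Finset.sum_mul]
    refine sum_congr rfl fun n hn => ?_
    have hn1 : 1 ≤ n := (Finset.mem_Icc.mp hn).1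
    rw [integral_add ((hi n η).const_mul _) ((hi n η₀).const_mul _), integral_const_mul,
      integral_const_mul]
    have hb1 := hp2_box_fourier n hn1 η ξ hη
    have hb2 := hp2_box_fourier n hn1 η₀ ξ hη₀
    have hn0 : (n : ℂ) ≠ 0 := by
      exact_mod_cast (by omega : n ≠ 0)
    have hpow : (n : ℂ) ^ (-(1 + ((2 * Real.pi * ξ : ℝ) : ℂ) * Complex.I)) =
        (n : ℂ)⁻¹ * (n : ℂ) ^ (-((2 * Real.pi * ξ : ℝ) : ℂ) * Complex.I) := by
      rw [neg_add, Complex.cpow_add _ _ hn0, Complex.cpow_neg_one, neg_mul]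
    rw [hpow]
    calc ((f n / n : ℝ) : ℂ) * ((c₁ : ℂ) * (1 / (η : ℂ))) *
            (∫ v : ℝ, Complex.exp (↑(-2 * Real.pi * v * ξ) * Complex.I) * (hpBox n η v : ℂ)) +
          ((f n / n : ℝ) : ℂ) * ((c₂ : ℂ) * (1 / (η₀ : ℂ))) *
            (∫ v : ℝ, Complex.exp (↑(-2 * Real.pi * v * ξ) * Complex.I) * (hpBox n η₀ v : ℂ))
        = ((f n / n : ℝ) : ℂ) * ((c₁ : ℂ) * ((1 / (η : ℂ)) *
            (∫ v : ℝ, Complex.exp (↑(-2 * Real.pi * v * ξ) * Complex.I) * (hpBox n η v : ℂ))) +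
          (c₂ : ℂ) * ((1 / (η₀ : ℂ)) *
            (∫ v : ℝ, Complex.exp (↑(-2 * Real.pi * v * ξ) * Complex.I) *
              (hpBox n η₀ v : ℂ)))) := by
          ring
      _ = _ := by
          rw [hb1, hb2]
          push_cast
          rw [div_eq_mul_inv]
          ring
  exact ⟨hint, ⟨_, hbd⟩, hF⟩

/-- **Fourier transform of `av f η - av f η'`.** `f` vanishes beyond `N`.

Proof. This is contained in the proof of `H31W.planch` (file `H31W/P2.lean`, `hint`, `hbd`, `hF` with `c₁ = 1`, `c₂ = -1`): copy the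
private lemmas and these three steps. -/
theorem four_av (f : ℕ → ℝ) (N : ℕ) (hf : ∀ n, N < n → f n = 0) (η η' : ℝ) (hη : 0 < η) (hη' : 0 < η') :
    Integrable (fun u : ℝ => ((av f η u - av f η' u : ℝ) : ℂ)) ∧
    (∃ C : ℝ, ∀ u : ℝ, ‖((av f η u - av f η' u : ℝ) : ℂ)‖ ≤ C) ∧
    ∀ ξ : ℝ, 𝓕 (fun u : ℝ => ((av f η u - av f η' u : ℝ) : ℂ)) ξ =
      DD f N (2 * Real.pi * ξ) * (mm η (2 * Real.pi * ξ) - mm η' (2 * Real.pi * ξ)) := by
  obtain ⟨h1, ⟨C, h2⟩, h3⟩ := hp2_main f N hf η η' 1 (-1) hη hη'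
  have e : ∀ u : ℝ, (1 : ℝ) * av f η u + (-1) * av f η' u = av f η u - av f η' u := fun u => by ring
  simp only [e] at h1 h2 h3
  refine ⟨h1, ⟨C, h2⟩, fun ξ => ?_⟩
  rw [h3 ξ]
  congr 1
  push_cast
  ring

end Pool.Agent.Lib.H31P
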