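import Pool.Agent.Lib.H31P.P1
import Pool.Agent.Lib.H31P.P2
import Pool.Agent.Lib.H31W.P3

/-!
# Chunk P3 (M): Parseval against the indicator of a bounded set (`ParStm`)
-/

open Finset MeasureTheory FourierTransform

namespace Pool.Agent.Lib.H31P

open Pool.Agent.Lib.H31W

/-- The substitution `t = 2πξ`. -/
private theorem p3_sub (g : ℝ → ENNReal) :
    ∫⁻ ξ : ℝ, g (2 * Real.pi * ξ) = ENNReal.ofReal (1 / (2 * Real.pi)) * ∫⁻ t : ℝ, g t := by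
  have h2pi : (2 * Real.pi : ℝ) ≠ 0 := by positivity
  have hmap := Real.map_volume_mul_left h2pi
  have hsub := lintegral_map_equiv (μ := (volume : Measure ℝ)) g
    (Homeomorph.mulLeft₀ (2 * Real.pi : ℝ) h2pi).toMeasurableEquiv
  have hcoe : (⇑(Homeomorph.mulLeft₀ (2 * Real.pi : ℝ) h2pi).toMeasurableEquiv : ℝ → ℝ) =
      fun x => 2 * Real.pi * x := rfl
  rw [hcoe, hmap, lintegral_smul_measure] at hsub
  have hcst : ENNReal.ofReal |(2 * Real.pi)⁻¹| = ENNReal.ofReal (1 / (2 * Real.pi)) := by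
    rw [abs_of_pos (by positivity), one_div]
  rw [hcst, smul_eq_mul] at hsub
  rw [hsub]

/-- The substitution `t = 2πξ` on a set. -/
private theorem p3_sub_set (g : ℝ → ENNReal) (E : Set ℝ) (hE : MeasurableSet E) :
    ∫⁻ ξ in {ξ : ℝ | 2 * Real.pi * ξ ∈ E}, g (2 * Real.pi * ξ) ≤ ∫⁻ t in E, g t := by
  have hm : MeasurableSet {ξ : ℝ | 2 * Real.pi * ξ ∈ E} :=
    hE.preimage (measurable_const_mul (2 * Real.pi))
  rw [← lintegral_indicator hm, ← lintegral_indicator hE]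
  have h1 : ∀ ξ : ℝ, Set.indicator {ξ : ℝ | 2 * Real.pi * ξ ∈ E} (fun ξ => g (2 * Real.pi * ξ)) ξ =
      (fun t => Set.indicator E g t) (2 * Real.pi * ξ) := by
    intro ξ
    by_cases h : 2 * Real.pi * ξ ∈ E
    · have h' : ξ ∈ {ξ : ℝ | 2 * Real.pi * ξ ∈ E} := h
      simp only [Set.indicator_of_mem h, Set.indicator_of_mem h']
    · have h' : ξ ∉ {ξ : ℝ | 2 * Real.pi * ξ ∈ E} := h
      simp only [Set.indicator_of_notMem h, Set.indicator_of_notMem h']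
  rw [lintegral_congr h1, p3_sub]
  have h2 : ENNReal.ofReal (1 / (2 * Real.pi)) ≤ 1 := by
    rw [← ENNReal.ofReal_one]
    apply ENNReal.ofReal_le_ofReal
    rw [div_le_one (by positivity)]
    nlinarith [Real.pi_gt_three]
  calc ENNReal.ofReal (1 / (2 * Real.pi)) * ∫⁻ t : ℝ, Set.indicator E g t
      ≤ 1 * ∫⁻ t : ℝ, Set.indicator E g t := mul_le_mul_left h2 _
    _ = _ := one_mul _

/-- **`ParStm`.**

Proof. `F(u) = av f η u - av f η' u` (`four_av`), `G = 1_B` (complex valued indicator; integrable and bounded because `B ⊆ [a, b]`).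
`∫_B F = ∫ conj(G) F` (`integral_indicator`), so by `parseval`
`|∫_B F| ≤ ∫⁻ ‖𝓕F‖‖𝓕G‖ = ∫⁻_{ξ ∈ E'} + ∫⁻_{ξ ∉ E'}`, `E' = {ξ : 2πξ ∈ E}` (`lintegral_add_compl`).
On `E'`: `‖𝓕 G ξ‖ ≤ ∫ |G| = vol B` (`VectorFourier.norm_fourierIntegral_le_integral_norm` or `norm_integral_le_integral_norm`), so this
part is at most `vol B · ∫⁻_{E'} ‖𝓕F ξ‖ dξ = vol B · (1/2π) ∫⁻_E ‖DD f N t‖ ‖mm η t - mm η' t‖ dt ≤ vol B · s` (substitution `t = 2πξ` as at
the end of `planch`, file `H31W/P2.lean`: `Real.map_volume_mul_left`, `lintegral_map_equiv`).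
Outside: Cauchy-Schwarz (`ENNReal.lintegral_mul_le_Lp_mul_Lq` with `p = q = 2`) and `plancherel` (H31W) for `G`:
`(∫⁻_{E'^c} ‖𝓕F‖²)^(1/2) (∫⁻ ‖𝓕G‖²)^(1/2) ≤ (Q/2π)^(1/2) (vol B)^(1/2)`.
Everything is finite; take `ENNReal.toReal` (or compare `ENNReal.ofReal` of both sides, `ENNReal.ofReal_le_ofReal_iff`).
Measurability of `av`, `DD`, `mm`: file `H31W/P3.lean`. -/
theorem par_stm : ParStm := by
  intro f N η η' a b s Q hη hη' hs hQ hf B E hB hBab hE h1 h2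
  obtain ⟨hFi, ⟨C, hC⟩, hFF⟩ := four_av f N hf η η' hη hη'
  obtain ⟨F, hFd⟩ : ∃ F : ℝ → ℂ, F = fun u : ℝ => ((av f η u - av f η' u : ℝ) : ℂ) := ⟨_, rfl⟩
  rw [← hFd] at hFi hFF
  have hC' : ∀ u, ‖F u‖ ≤ C := by
    intro u
    rw [hFd]
    exact hC u
  obtain ⟨G, hGd⟩ : ∃ G : ℝ → ℂ, G = Set.indicator B (fun _ => (1 : ℂ)) := ⟨_, rfl⟩
  have hBfin : volume B < ⊤ := (measure_mono hBab).trans_lt (by simp)
  have hGi : Integrable G := by
    rw [hGd, integrable_indicator_iff hB]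
    exact integrableOn_const hBfin.ne
  have hGb : ∀ x, ‖G x‖ ≤ 1 := by
    intro x
    rw [hGd]
    by_cases h : x ∈ B
    · rw [Set.indicator_of_mem h]; simp
    · rw [Set.indicator_of_notMem h]; simp
  obtain ⟨v, hv⟩ : ∃ v : ℝ, v = (volume B).toReal := ⟨_, rfl⟩
  have hv0 : 0 ≤ v := by rw [hv]; exact ENNReal.toReal_nonneg
  have hvB : ENNReal.ofReal v = volume B := by rw [hv]; exact ENNReal.ofReal_toReal hBfin.ne
  have hnormG : ∀ x, ‖G x‖ = Set.indicator B (fun _ => (1 : ℝ)) x := by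
    intro x
    rw [hGd]
    by_cases h : x ∈ B
    · rw [Set.indicator_of_mem h, Set.indicator_of_mem h]; simp
    · rw [Set.indicator_of_notMem h, Set.indicator_of_notMem h]; simp
  -- the Fourier transform of `G` is bounded by `v`
  have hGv : ∀ ξ, ‖𝓕 G ξ‖ ≤ v := by
    intro ξ
    rw [Real.fourier_real_eq_integral_exp_smul]
    refine (norm_integral_le_integral_norm _).trans (le_of_eq ?_)
    have h3 : ∀ x : ℝ, ‖Complex.exp (↑(-2 * Real.pi * x * ξ) * Complex.I) • G x‖ =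
        Set.indicator B (fun _ => (1 : ℝ)) x := by
      intro x
      rw [norm_smul, Complex.norm_exp_ofReal_mul_I, one_mul, hnormG]
    simp only [h3]
    rw [integral_indicator hB, integral_const, smul_eq_mul, mul_one, hv]
    simp [Measure.real]
  -- Plancherel for `G`
  have hPG : ∫⁻ ξ : ℝ, ENNReal.ofReal (‖𝓕 G ξ‖ ^ 2) = ENNReal.ofReal v := by
    rw [plancherel G hGi 1 hGb]
    have h3 : ∀ x : ℝ, ENNReal.ofReal (‖G x‖ ^ 2) = Set.indicator B (fun _ => (1 : ENNReal)) x := by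
      intro x
      rw [hnormG]
      by_cases h : x ∈ B
      · rw [Set.indicator_of_mem h, Set.indicator_of_mem h]; simp
      · rw [Set.indicator_of_notMem h, Set.indicator_of_notMem h]; simp
    rw [lintegral_congr h3, lintegral_indicator hB]
    simp [hvB]
  -- the integral over `B`
  have hI : ∫ x : ℝ, (starRingEnd ℂ) (G x) * F x = ((∫ u in B, (av f η u - av f η' u) : ℝ) : ℂ) := by
    have h3 : ∀ x : ℝ, (starRingEnd ℂ) (G x) * F x = Set.indicator B F x := by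
      intro x
      rw [hGd]
      by_cases h : x ∈ B
      · rw [Set.indicator_of_mem h, Set.indicator_of_mem h]; simp
      · rw [Set.indicator_of_notMem h, Set.indicator_of_notMem h]; simp
    simp only [h3]
    rw [integral_indicator hB, hFd]
    exact integral_ofReal
  have hpar := parseval F G hFi hGi (max C 1) (fun x => (hC' x).trans (le_max_left _ _))
    (fun x => (hGb x).trans (le_max_right _ _))
  rw [hI, Complex.norm_real, Real.norm_eq_abs] at hpar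
  -- measurability
  have hDc : Continuous (fun t : ℝ => ‖DD f N t‖ * ‖mm η t - mm η' t‖) :=
    ((DD_continuous f N).norm).mul (((mm_continuous η).sub (mm_continuous η')).norm)
  obtain ⟨E', hE'd⟩ : ∃ E' : Set ℝ, E' = {ξ : ℝ | 2 * Real.pi * ξ ∈ E} := ⟨_, rfl⟩
  have hE' : MeasurableSet E' := by
    rw [hE'd]
    exact hE.preimage (measurable_const_mul (2 * Real.pi))
  have hnF : ∀ ξ : ℝ, ‖𝓕 F ξ‖ =
      ‖DD f N (2 * Real.pi * ξ)‖ * ‖mm η (2 * Real.pi * ξ) - mm η' (2 * Real.pi * ξ)‖ := by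
    intro ξ
    rw [hFF, norm_mul]
  have hFm : Measurable (fun ξ : ℝ => ENNReal.ofReal ‖𝓕 F ξ‖) := by
    simp only [hnF]
    exact (ENNReal.measurable_ofReal.comp hDc.measurable).comp (measurable_const_mul (2 * Real.pi))
  have hGc : Continuous (𝓕 G) :=
    VectorFourier.fourierIntegral_continuous Real.continuous_fourierChar continuous_inner hGi
  have hGm : Measurable (fun ξ : ℝ => ENNReal.ofReal ‖𝓕 G ξ‖) :=
    ENNReal.measurable_ofReal.comp hGc.norm.measurable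
  -- first part
  have hA : ∫⁻ ξ in E', ENNReal.ofReal (‖𝓕 F ξ‖ * ‖𝓕 G ξ‖) ≤ ENNReal.ofReal (s * v) := by
    calc ∫⁻ ξ in E', ENNReal.ofReal (‖𝓕 F ξ‖ * ‖𝓕 G ξ‖)
        ≤ ∫⁻ ξ in E', ENNReal.ofReal ‖𝓕 F ξ‖ * ENNReal.ofReal v := by
          refine lintegral_mono fun ξ => ?_
          rw [← ENNReal.ofReal_mul (norm_nonneg _)]
          exact ENNReal.ofReal_le_ofReal (mul_le_mul_of_nonneg_left (hGv ξ) (norm_nonneg _))
      _ = (∫⁻ ξ in E', ENNReal.ofReal ‖𝓕 F ξ‖) * ENNReal.ofReal v := by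
          rw [lintegral_mul_const _ hFm]
      _ ≤ ENNReal.ofReal s * ENNReal.ofReal v := by
          refine mul_le_mul_left ?_ _
          simp only [hnF]
          rw [hE'd]
          exact (p3_sub_set (fun t => ENNReal.ofReal (‖DD f N t‖ * ‖mm η t - mm η' t‖)) E hE).trans h1
      _ = ENNReal.ofReal (s * v) := (ENNReal.ofReal_mul hs).symm
  -- second part
  have hE'c : E'ᶜ = {ξ : ℝ | 2 * Real.pi * ξ ∈ Eᶜ} := by
    rw [hE'd]
    rfl
  have hsq : ∀ x : ℝ, 0 ≤ x → ENNReal.ofReal x ^ (2 : ℝ) = ENNReal.ofReal (x ^ 2) := by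
    intro x hx
    rw [ENNReal.ofReal_rpow_of_nonneg hx (by norm_num)]
    congr 1
    exact_mod_cast Real.rpow_natCast x 2
  have hhalf : ∀ x : ℝ, 0 ≤ x → ENNReal.ofReal x ^ (1 / 2 : ℝ) = ENNReal.ofReal (Real.sqrt x) := by
    intro x hx
    rw [ENNReal.ofReal_rpow_of_nonneg hx (by norm_num), Real.sqrt_eq_rpow]
  have hBp : ∫⁻ ξ in E'ᶜ, ENNReal.ofReal (‖𝓕 F ξ‖ * ‖𝓕 G ξ‖) ≤ ENNReal.ofReal (Real.sqrt (Q * v)) := by
    have hcs := ENNReal.lintegral_mul_le_Lp_mul_Lq (volume.restrict E'ᶜ)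
      (p := 2) (q := 2) Real.HolderConjugate.two_two
      (f := fun ξ : ℝ => ENNReal.ofReal ‖𝓕 F ξ‖) (g := fun ξ : ℝ => ENNReal.ofReal ‖𝓕 G ξ‖)
      hFm.aemeasurable hGm.aemeasurable
    have h3 : ∫⁻ ξ in E'ᶜ, ENNReal.ofReal (‖𝓕 F ξ‖ * ‖𝓕 G ξ‖) =
        ∫⁻ ξ in E'ᶜ, ((fun ξ : ℝ => ENNReal.ofReal ‖𝓕 F ξ‖) * fun ξ : ℝ => ENNReal.ofReal ‖𝓕 G ξ‖) ξ := by
      refine lintegral_congr fun ξ => ?_
      rw [Pi.mul_apply, ENNReal.ofReal_mul (norm_nonneg _)]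
    rw [h3]
    refine hcs.trans ?_
    have h4 : (∫⁻ ξ in E'ᶜ, ENNReal.ofReal ‖𝓕 F ξ‖ ^ (2 : ℝ)) ≤ ENNReal.ofReal Q := by
      have h5 : ∀ ξ : ℝ, ENNReal.ofReal ‖𝓕 F ξ‖ ^ (2 : ℝ) =
          (fun t : ℝ => ENNReal.ofReal (‖DD f N t‖ ^ 2 * ‖mm η t - mm η' t‖ ^ 2)) (2 * Real.pi * ξ) := by
        intro ξ
        rw [hsq _ (norm_nonneg _), hnF, mul_pow]
      rw [lintegral_congr h5, hE'c]
      exact (p3_sub_set _ Eᶜ hE.compl).trans h2
    have h6 : (∫⁻ ξ in E'ᶜ, ENNReal.ofReal ‖𝓕 G ξ‖ ^ (2 : ℝ)) ≤ ENNReal.ofReal v := by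
      rw [← hPG]
      refine (setLIntegral_le_lintegral _ _).trans (le_of_eq ?_)
      refine lintegral_congr fun ξ => ?_
      exact hsq _ (norm_nonneg _)
    calc (∫⁻ ξ in E'ᶜ, ENNReal.ofReal ‖𝓕 F ξ‖ ^ (2 : ℝ)) ^ (1 / 2 : ℝ) *
          (∫⁻ ξ in E'ᶜ, ENNReal.ofReal ‖𝓕 G ξ‖ ^ (2 : ℝ)) ^ (1 / 2 : ℝ)
        ≤ ENNReal.ofReal Q ^ (1 / 2 : ℝ) * ENNReal.ofReal v ^ (1 / 2 : ℝ) :=
          mul_le_mul' (ENNReal.rpow_le_rpow h4 (by norm_num)) (ENNReal.rpow_le_rpow h6 (by norm_num))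
      _ = ENNReal.ofReal (Real.sqrt (Q * v)) := by
          rw [hhalf Q hQ, hhalf v hv0, ← ENNReal.ofReal_mul (Real.sqrt_nonneg _), Real.sqrt_mul hQ]
  have hsplit : ∫⁻ ξ : ℝ, ENNReal.ofReal (‖𝓕 F ξ‖ * ‖𝓕 G ξ‖) =
      (∫⁻ ξ in E', ENNReal.ofReal (‖𝓕 F ξ‖ * ‖𝓕 G ξ‖)) +
        ∫⁻ ξ in E'ᶜ, ENNReal.ofReal (‖𝓕 F ξ‖ * ‖𝓕 G ξ‖) :=
    (lintegral_add_compl (μ := (volume : Measure ℝ)) (fun ξ : ℝ => ENNReal.ofReal (‖𝓕 F ξ‖ * ‖𝓕 G ξ‖)) hE').symm
  rw [hsplit] at hpar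
  have hfin := hpar.trans (add_le_add hA hBp)
  rw [← ENNReal.ofReal_add (mul_nonneg hs hv0) (Real.sqrt_nonneg _)] at hfin
  rw [← hv]
  exact (ENNReal.ofReal_le_ofReal_iff (add_nonneg (mul_nonneg hs hv0) (Real.sqrt_nonneg _))).mp hfin

end Pool.Agent.Lib.H31P
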