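import Pool.Agent.Lib.H31P.T1
import Pool.Agent.Lib.H31P.H5
import Pool.Agent.Lib.H31W.Q3
import Pool.Agent.Lib.H31W.P3

/-!
# Chunk T2 (M): boxes with a long smooth factor (`TyIStm`)
-/

open Finset

namespace Pool.Agent.Lib.H31P

open Pool.Agent.Lib.H31W

private theorem T2_supp {ι : Type*} [DecidableEq ι] (s : Finset ι) (F : ι → ArithmeticFunction ℝ)
    (N : ι → ℕ) (h : ∀ l ∈ s, ∀ n, F l n ≠ 0 → n ≤ N l) :
    ∀ n, (∏ l ∈ s, F l) n ≠ 0 → n ≤ ∏ l ∈ s, N l := by
  induction s using Finset.induction_on with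
  | empty =>
    intro n hn
    rw [Finset.prod_empty] at hn ⊢
    by_contra hc
    apply hn
    rw [ArithmeticFunction.one_apply_ne (by omega)]
  | insert a s ha ih =>
    intro n hn
    rw [Finset.prod_insert ha] at hn ⊢
    rw [ArithmeticFunction.mul_apply] at hn
    obtain ⟨x, hx, hx2⟩ := Finset.exists_ne_zero_of_sum_ne_zero hn
    rw [Nat.mem_divisorsAntidiagonal] at hx
    have h1 := h a (Finset.mem_insert_self a s) x.1 (left_ne_zero_of_mul hx2)
    have h2 := ih (fun l hl => h l (Finset.mem_insert_of_mem hl)) x.2 (right_ne_zero_of_mul hx2)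
    rw [← hx.1]
    exact Nat.mul_le_mul h1 h2

private theorem T2_nonneg (f : ℕ → ℝ) (N : ℕ) : 0 ≤ ∑ n ∈ Icc 1 N, |f n| / n :=
  Finset.sum_nonneg fun n _ => div_nonneg (abs_nonneg _) (Nat.cast_nonneg n)

private theorem T2_mean {ι : Type*} [DecidableEq ι] (s : Finset ι) (F : ι → ArithmeticFunction ℝ)
    (B : ι → ℝ) (N : ℕ) (hB : ∀ l ∈ s, 0 ≤ B l)
    (h : ∀ l ∈ s, ∑ n ∈ Icc 1 N, |F l n| / n ≤ B l) :
    ∑ n ∈ Icc 1 N, |(∏ l ∈ s, F l) n| / n ≤ ∏ l ∈ s, B l := by
  induction s using Finset.induction_on with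
  | empty =>
    rw [Finset.prod_empty, Finset.prod_empty]
    calc ∑ n ∈ Icc 1 N, |(1 : ArithmeticFunction ℝ) n| / n
        ≤ ∑ n ∈ Icc 1 N, (if n = 1 then (1 : ℝ) else 0) := by
          refine Finset.sum_le_sum fun n _ => ?_
          by_cases h1 : n = 1
          · subst h1
            simp
          · rw [ArithmeticFunction.one_apply_ne h1, if_neg h1]
            simp
      _ ≤ 1 := by
          rw [Finset.sum_ite_eq']
          split_ifs <;> norm_num
  | insert a s ha ih =>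
    rw [Finset.prod_insert ha, Finset.prod_insert ha]
    refine (mean_mul _ _ N).trans ?_
    exact mul_le_mul (h a (Finset.mem_insert_self a s))
      (ih (fun l hl => hB l (Finset.mem_insert_of_mem hl))
        (fun l hl => h l (Finset.mem_insert_of_mem hl)))
      (T2_nonneg _ N) (hB a (Finset.mem_insert_self a s))

private theorem T2_af (f : ℕ → ℝ) (n : ℕ) (hn : n ≠ 0) : af f n = f n := by
  show (if n = 0 then 0 else f n) = f n
  rw [if_neg hn]

private theorem T2_af_ne (f : ℕ → ℝ) (n : ℕ) (h : af f n ≠ 0) : f n ≠ 0 := by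
  have h' : (if n = 0 then 0 else f n) ≠ 0 := h
  split_ifs at h' with h1
  · exact absurd rfl h'
  · exact h'

private theorem T2_one (V j k i N : ℕ) :
    ∑ n ∈ Icc 1 N, |af (fac V j k i) n| / n ≤ 9 * ((i : ℝ) + 1) := by
  have hi0 : (0 : ℝ) ≤ (i : ℝ) + 1 := by positivity
  have hterm : ∀ n ∈ Icc 1 N, |af (fac V j k i) n| / n ≤
      if n ∈ Icc 1 ⌊Real.exp ((i : ℝ) + 1)⌋₊ then ((i : ℝ) + 1) * Real.exp (1 - i) else 0 := by
    intro n hn
    rw [Finset.mem_Icc] at hn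
    rw [T2_af _ n (by omega)]
    by_cases h0 : fac V j k i n = 0
    · rw [h0, abs_zero, zero_div]
      split_ifs
      · exact mul_nonneg hi0 (Real.exp_pos _).le
      · exact le_refl _
    · obtain ⟨h1, h2⟩ := fac_props V j k i n
      obtain ⟨h3, h4, h5, h6⟩ := h2 h0
      rw [if_pos (Finset.mem_Icc.2 ⟨h3, h6⟩)]
      have hn0 : (0 : ℝ) < n := by exact_mod_cast h3
      rw [div_le_iff₀ hn0]
      have h7 : 1 ≤ Real.exp (1 - i) * n := by
        calc (1 : ℝ) = Real.exp (1 - i) * Real.exp ((i : ℝ) - 1) := by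
              rw [← Real.exp_add, show (1 - (i : ℝ)) + ((i : ℝ) - 1) = 0 by ring, Real.exp_zero]
          _ ≤ Real.exp (1 - i) * n := mul_le_mul_of_nonneg_left h4.le (Real.exp_pos _).le
      calc |fac V j k i n| ≤ ((i : ℝ) + 1) * 1 := by rw [mul_one]; exact h1
        _ ≤ ((i : ℝ) + 1) * (Real.exp (1 - i) * n) := mul_le_mul_of_nonneg_left h7 hi0
        _ = ((i : ℝ) + 1) * Real.exp (1 - i) * n := by ring
  refine (Finset.sum_le_sum hterm).trans ?_
  rw [Finset.sum_ite_mem, Finset.sum_const, nsmul_eq_mul]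
  have hcard : (((Icc 1 N ∩ Icc 1 ⌊Real.exp ((i : ℝ) + 1)⌋₊).card : ℕ) : ℝ) ≤
      Real.exp ((i : ℝ) + 1) := by
    have h1 : (Icc 1 N ∩ Icc 1 ⌊Real.exp ((i : ℝ) + 1)⌋₊).card ≤ ⌊Real.exp ((i : ℝ) + 1)⌋₊ := by
      refine (Finset.card_le_card Finset.inter_subset_right).trans ?_
      rw [Nat.card_Icc]
      omega
    exact (Nat.cast_le.2 h1).trans (Nat.floor_le (Real.exp_pos _).le)
  have hE : 0 ≤ ((i : ℝ) + 1) * Real.exp (1 - i) := mul_nonneg hi0 (Real.exp_pos _).le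
  refine (mul_le_mul_of_nonneg_right hcard hE).trans ?_
  have he : Real.exp ((i : ℝ) + 1) * (((i : ℝ) + 1) * Real.exp (1 - i)) =
      (Real.exp 1) ^ 2 * ((i : ℝ) + 1) := by
    have h1 : Real.exp ((i : ℝ) + 1) * Real.exp (1 - i) = (Real.exp 1) ^ 2 := by
      rw [← Real.exp_add, ← Real.exp_nat_mul]
      congr 1
      push_cast
      ring
    rw [← h1]
    ring
  rw [he]
  have he1 := Real.exp_one_lt_d9
  have he0 := Real.exp_pos 1
  have h9 : (Real.exp 1) ^ 2 ≤ 9 := by nlinarith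
  exact mul_le_mul_of_nonneg_right h9 hi0

private theorem T2_ev (J : ℕ) (κ : ℝ) (hκ : 0 < κ) (K : ℝ) (hK : 0 ≤ K) :
    ∃ X₀ : ℝ, 1 ≤ X₀ ∧ ∀ X : ℝ, X₀ ≤ X → 6 ≤ Real.log X ∧ 12 * ell X ≤ κ * Real.log X ∧
      12 * ell X ≤ 1 / 3 * Real.log X ∧ 0 ≤ ell X ∧
      K * Real.log X ^ (2 * J + 1) ≤ Real.exp (2 * ell X) := by
  have h1 : ∀ᶠ y : ℝ in Filter.atTop, 36 ≤ y ∧ 12 / κ ≤ y ∧
      K * y ^ (10 * (2 * J + 1)) ≤ Real.exp (2 * y) := by
    have ho := (Real.isLittleO_pow_exp_atTop (n := 10 * (2 * J + 1))).bound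
      (c := 1 / (K + 1)) (by positivity)
    filter_upwards [Filter.eventually_ge_atTop (36 : ℝ), Filter.eventually_ge_atTop (12 / κ), ho]
      with y hy1 hy2 hy3
    refine ⟨hy1, hy2, ?_⟩
    have hy0 : 0 ≤ y := by linarith
    rw [Real.norm_of_nonneg (pow_nonneg hy0 _), Real.norm_of_nonneg (Real.exp_pos _).le] at hy3
    have h4 : (K + 1) * y ^ (10 * (2 * J + 1)) ≤ Real.exp y := by
      calc (K + 1) * y ^ (10 * (2 * J + 1)) ≤ (K + 1) * (1 / (K + 1) * Real.exp y) :=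
            mul_le_mul_of_nonneg_left hy3 (by linarith)
        _ = Real.exp y := by field_simp
    have h5 : Real.exp y ≤ Real.exp (2 * y) := Real.exp_le_exp.2 (by linarith)
    have h6 : 0 ≤ y ^ (10 * (2 * J + 1)) := pow_nonneg hy0 _
    linarith
  have h2 : Filter.Tendsto ell Filter.atTop Filter.atTop :=
    (tendsto_rpow_atTop (by norm_num : (0 : ℝ) < 1 / 10)).comp Real.tendsto_log_atTop
  have h3 := (h2.eventually h1).and (Filter.eventually_ge_atTop (1 : ℝ))
  obtain ⟨X₀, hX₀⟩ := Filter.eventually_atTop.1 h3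
  refine ⟨max X₀ 1, le_max_right _ _, fun X hX => ?_⟩
  obtain ⟨⟨hy1, hy2, hy3⟩, hX1⟩ := hX₀ X ((le_max_left _ _).trans hX)
  have hL0 : 0 ≤ Real.log X := Real.log_nonneg hX1
  have hL : Real.log X = ell X ^ 10 := by
    unfold ell
    rw [← Real.rpow_natCast, ← Real.rpow_mul hL0]
    norm_num
  generalize ell X = y at hy1 hy2 hy3 hL
  rw [hL]
  have hy0 : 0 ≤ y := by linarith
  have hyy : y ^ 2 ≤ y ^ 10 := pow_le_pow_right₀ (by linarith) (by norm_num)
  have hκy : 12 ≤ κ * y := by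
    rw [div_le_iff₀ hκ] at hy2
    linarith
  refine ⟨?_, ?_, ?_, hy0, ?_⟩
  · nlinarith
  · calc 12 * y ≤ (κ * y) * y := mul_le_mul_of_nonneg_right hκy hy0
      _ = κ * y ^ 2 := by ring
      _ ≤ κ * y ^ 10 := mul_le_mul_of_nonneg_left hyy hκ.le
  · nlinarith
  · rw [← pow_mul]
    exact hy3

/-- **`TyIStm`.**

Proof. `i = c k`, `k` the long smooth factor, `h = fac V j k i ∈ {fS i, fL i}`, `g` = the product of the `af (fac V j l (c l))`, `l ≠ k`
(`Finset.mul_prod_erase`): `box = g * af h`, `(box) n = conv g h n`. `g` vanishes beyond some `C` (finite supports), so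
`av box η u = ∑_{m ≤ C} (g m/m) av h η (u - log m)` (`av_conv`, file `H31W/Q3.lean`), the same for `η₁ = eta1 X ≥ η` (`η ≤ X^(-1/3)`, `X` large). `av_smooth`:
the difference is at most `60 (i+1)(η₁ + e^(-i)/η) ∑ |g m|/m`, `e^(-i)/η ≤ X^(-κ)` (`i ≥ log (1/η) + κ log X`), `∑ |g m|/m ≤ 9^(2j-1) ∏_{l ≠ k} (c_l + 1) ≤
(9 (log X + 4J + 5))^(2J)` (`mean_mul`, `fac_props`, as in the proof of `BoxSuppStm` (3)), `i + 1 ≤ log X + 4J + 5`. Total
`≤ (log X)^(C') (exp (-12ℓ) + X^(-κ)) ≤ exp (-10ℓ)` for large `X`. -/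
theorem tyI_stm : TyIStm := by
  intro J κ hκ
  have hq0 : (0 : ℝ) ≤ 4 * J + 6 := by positivity
  obtain ⟨X₀, hX₀1, hX₀⟩ := T2_ev J κ hκ (120 * ((4 * J + 6 : ℝ) * (9 * (4 * J + 6 : ℝ)) ^ (2 * J)))
    (by positivity)
  refine ⟨X₀, hX₀1, ?_⟩
  intro X η hX hη1 hη2 j V hj hjJ c hc hk u hu1 hu2
  obtain ⟨hL6, hκL, h3L, hell, hbig⟩ := hX₀ X hX
  obtain ⟨k, hkj, hck⟩ := hk
  have hXpos : 0 < X := by linarith
  have hηpos : 0 < η := by
    refine lt_of_lt_of_le ?_ hη1
    exact div_pos one_pos (mul_pos (by norm_num) (Real.sqrt_pos.2 hXpos))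
  have hlog1 : Real.log (1 / η) = -Real.log η := by
    rw [one_div, Real.log_inv]
  rw [hlog1] at hck
  have hlogη : 1 / 3 * Real.log X ≤ -Real.log η := by
    have h1 : Real.log η ≤ Real.log (X ^ (-(1 / 3) : ℝ)) := Real.log_le_log hηpos hη2
    rw [Real.log_rpow hXpos] at h1
    linarith
  have hηη : η ≤ eta1 X := by
    unfold eta1
    rw [← Real.log_le_iff_le_exp hηpos]
    linarith
  have hη11 : eta1 X ≤ 1 := by
    unfold eta1
    rw [← Real.exp_zero]
    exact Real.exp_le_exp.2 (by linarith)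
  have hi2R : (2 : ℝ) ≤ (c k : ℝ) := by
    have : 0 ≤ κ * Real.log X := mul_nonneg hκ.le (by linarith)
    linarith
  have hi2 : 2 ≤ c k := by exact_mod_cast hi2R
  -- each c l + 1 is at most S
  have hcl : ∀ l : Fin (2 * j), (c l : ℝ) + 1 ≤ Real.log X + (4 * J + 5) := by
    intro l
    have h1 : (c l : ℝ) ≤ ∑ k, (c k : ℝ) :=
      Finset.single_le_sum (f := fun k => (c k : ℝ)) (fun k _ => Nat.cast_nonneg (c k))
        (Finset.mem_univ l)
    linarith
  have hS : Real.log X + (4 * J + 5) ≤ (4 * J + 6 : ℝ) * Real.log X := by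
    have hJ0 : (0 : ℝ) ≤ 4 * J + 5 := by positivity
    nlinarith
  have hcl' : ∀ l : Fin (2 * j), (c l : ℝ) + 1 ≤ (4 * J + 6 : ℝ) * Real.log X :=
    fun l => (hcl l).trans hS
  have hS1 : 1 ≤ 9 * ((4 * J + 6 : ℝ) * Real.log X) := by
    have h1 := hcl' k
    have h2 : (0 : ℝ) ≤ c k := Nat.cast_nonneg _
    linarith
  -- the smooth factor
  have hsm : ∀ v : ℝ, |av (fac V j k (c k)) η v - av (fac V j k (c k)) (eta1 X) v| ≤
      60 * ((c k : ℝ) + 1) * (eta1 X + Real.exp (-(c k : ℝ)) / η) := by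
    intro v
    have h1 := av_smooth (c k) hi2 η (eta1 X) v hηpos hηη hη11
    unfold fac
    rw [if_neg (by omega)]
    split_ifs
    · exact h1.1
    · exact h1.2
  -- the other factors
  set G : ArithmeticFunction ℝ := ∏ l ∈ univ.erase k, af (fac V j l (c l)) with hG
  have hbox : (fun n => box V j c n) = conv (fun n => G n) (fac V j k (c k)) := by
    funext n
    have h1 : box V j c = G * af (fac V j k (c k)) := by
      rw [hG]
      exact (Finset.prod_erase_mul univ (fun l : Fin (2 * j) => af (fac V j l (c l)))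
        (Finset.mem_univ k)).symm
    rw [h1, ArithmeticFunction.mul_apply]
    unfold conv
    refine Finset.sum_congr rfl fun x hx => ?_
    rw [Nat.mem_divisorsAntidiagonal] at hx
    rw [T2_af]
    intro h2
    apply hx.2
    rw [← hx.1, h2, mul_zero]
  have hGs : ∀ n, (∏ l ∈ univ.erase k, ⌊Real.exp ((c l : ℝ) + 1)⌋₊) < n → G n = 0 := by
    intro n hn
    by_contra h1
    have h2 := T2_supp (univ.erase k) (fun l => af (fac V j l (c l)))
      (fun l => ⌊Real.exp ((c l : ℝ) + 1)⌋₊)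
      (fun l _ m hm => ((fac_props V j l (c l) m).2 (T2_af_ne _ _ hm)).2.2.2) n h1
    omega
  have hGm : ∑ n ∈ Icc 1 (∏ l ∈ univ.erase k, ⌊Real.exp ((c l : ℝ) + 1)⌋₊), |G n| / n ≤
      (9 * ((4 * J + 6 : ℝ) * Real.log X)) ^ (2 * J) := by
    refine (T2_mean (univ.erase k) (fun l => af (fac V j l (c l)))
      (fun l => 9 * ((c l : ℝ) + 1)) _ (fun l _ => by positivity)
      (fun l _ => T2_one V j l (c l) _)).trans ?_
    calc ∏ l ∈ univ.erase k, 9 * ((c l : ℝ) + 1)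
        ≤ ∏ _l ∈ univ.erase k, 9 * ((4 * J + 6 : ℝ) * Real.log X) := by
          refine Finset.prod_le_prod (fun l _ => by positivity) (fun l _ => ?_)
          exact mul_le_mul_of_nonneg_left (hcl' l) (by norm_num)
      _ = (9 * ((4 * J + 6 : ℝ) * Real.log X)) ^ (univ.erase k).card := Finset.prod_const _
      _ ≤ (9 * ((4 * J + 6 : ℝ) * Real.log X)) ^ (2 * J) := by
          refine pow_le_pow_right₀ hS1 ?_
          rw [Finset.card_erase_of_mem (Finset.mem_univ k), Finset.card_univ, Fintype.card_fin]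
          omega
  have hav : ∀ θ : ℝ, av (box V j c) θ u =
      ∑ m ∈ Icc 1 (∏ l ∈ univ.erase k, ⌊Real.exp ((c l : ℝ) + 1)⌋₊),
        G m / m * av (fac V j k (c k)) θ (u - Real.log m) := by
    intro θ
    have h1 : av (box V j c) θ u = av (fun n => box V j c n) θ u := rfl
    rw [h1, hbox]
    exact av_conv (fun n => G n) (fac V j k (c k)) _ hGs θ u
  rw [hav, hav, ← Finset.sum_sub_distrib]
  have hD0 : 0 ≤ 60 * ((c k : ℝ) + 1) * (eta1 X + Real.exp (-(c k : ℝ)) / η) := by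
    have h1 : 0 ≤ eta1 X := (Real.exp_pos _).le
    have h2 : 0 ≤ Real.exp (-(c k : ℝ)) / η := div_nonneg (Real.exp_pos _).le hηpos.le
    positivity
  calc |∑ m ∈ Icc 1 (∏ l ∈ univ.erase k, ⌊Real.exp ((c l : ℝ) + 1)⌋₊),
        (G m / m * av (fac V j k (c k)) η (u - Real.log m) -
          G m / m * av (fac V j k (c k)) (eta1 X) (u - Real.log m))|
      ≤ ∑ m ∈ Icc 1 (∏ l ∈ univ.erase k, ⌊Real.exp ((c l : ℝ) + 1)⌋₊),
        |G m| / m * (60 * ((c k : ℝ) + 1) * (eta1 X + Real.exp (-(c k : ℝ)) / η)) := by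
        refine (Finset.abs_sum_le_sum_abs _ _).trans (Finset.sum_le_sum fun m _ => ?_)
        rw [← mul_sub, abs_mul, abs_div, Nat.abs_cast]
        exact mul_le_mul_of_nonneg_left (hsm _) (div_nonneg (abs_nonneg _) (Nat.cast_nonneg m))
    _ = (∑ m ∈ Icc 1 (∏ l ∈ univ.erase k, ⌊Real.exp ((c l : ℝ) + 1)⌋₊), |G m| / m) *
        (60 * ((c k : ℝ) + 1) * (eta1 X + Real.exp (-(c k : ℝ)) / η)) := by
        rw [Finset.sum_mul]
    _ ≤ (9 * ((4 * J + 6 : ℝ) * Real.log X)) ^ (2 * J) *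
        (60 * ((4 * J + 6 : ℝ) * Real.log X) * (Real.exp (-(12 * ell X)) +
          Real.exp (-(12 * ell X)))) := by
        refine mul_le_mul hGm ?_ hD0 (pow_nonneg (by linarith) _)
        refine mul_le_mul ?_ ?_ ?_ ?_
        · exact mul_le_mul_of_nonneg_left (hcl' k) (by norm_num)
        · refine add_le_add (le_refl _) ?_
          rw [div_le_iff₀ hηpos]
          have h1 : Real.exp (-(c k : ℝ)) ≤ Real.exp (Real.log η - κ * Real.log X) := by
            refine Real.exp_le_exp.2 ?_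
            linarith
          refine h1.trans ?_
          rw [Real.exp_sub, Real.exp_log hηpos, div_eq_mul_inv, mul_comm, ← Real.exp_neg]
          exact mul_le_mul_of_nonneg_right (Real.exp_le_exp.2 (by linarith)) hηpos.le
        · have h1 : 0 ≤ eta1 X := (Real.exp_pos _).le
          have h2 : 0 ≤ Real.exp (-(c k : ℝ)) / η := div_nonneg (Real.exp_pos _).le hηpos.le
          linarith
        · linarith
    _ = (120 * ((4 * J + 6 : ℝ) * (9 * (4 * J + 6 : ℝ)) ^ (2 * J)) *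
          Real.log X ^ (2 * J + 1)) * Real.exp (-(12 * ell X)) := by
        rw [← mul_assoc 9, mul_pow]
        ring
    _ ≤ Real.exp (2 * ell X) * Real.exp (-(12 * ell X)) :=
        mul_le_mul_of_nonneg_right hbig (Real.exp_pos _).le
    _ = Real.exp (-(10 * ell X)) := by
        rw [← Real.exp_add]
        congr 1
        ring

end Pool.Agent.Lib.H31P
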