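import Pool.Agent.Lib.H31P.W0

/-!
# Chunk W10 (S/M): summation by parts, dyadic blocks
-/

open Finset

namespace Pool.Agent.Lib.H31P

private theorem abel_id (w : ℕ → ℝ) (a : ℕ → ℂ) (N : ℕ) : ∀ M, N < M →
    ∑ n ∈ Ioc N M, (w n : ℂ) * a n = (w M : ℂ) * ∑ n ∈ Ioc N M, a n +
      ∑ n ∈ Ioo N M, (((w n - w (n + 1) : ℝ)) : ℂ) * ∑ k ∈ Ioc N n, a k := by
  intro M hM
  induction M, hM using Nat.le_induction with
  | base =>
    have h1 : Ioc N (N + 1) = {N + 1} := by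
      ext x; simp only [mem_Ioc, mem_singleton]; omega
    have h2 : Ioo N (N + 1) = ∅ := by
      ext x; simp only [mem_Ioo, notMem_empty, iff_false]; omega
    rw [Nat.succ_eq_add_one, h1, h2]
    simp
  | succ M hM ih =>
    have h1 : Ioc N (M + 1) = insert (M + 1) (Ioc N M) := by
      ext x; simp only [mem_Ioc, mem_insert]; omega
    have h2 : Ioo N (M + 1) = insert M (Ioo N M) := by
      ext x; simp only [mem_Ioo, mem_insert]; omega
    rw [h1, h2, sum_insert (by simp), sum_insert (by simp), sum_insert (by simp), ih]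
    push_cast
    ring

/-- Summation by parts.

Proof. `A m = ∑_{n ∈ Ioc N m} a n`, `|A m| ≤ K` for `N ≤ m ≤ M`. If `N = M` the sum is 0 (`K ≥ 0` from `hK N`). Induction on `M ≥ N + 1`:
`∑_{n ∈ Ioc N M} w n a n = w M A M + ∑_{n ∈ Ioo N M} (w n - w (n+1)) A n`. -/
theorem abel (w : ℕ → ℝ) (a : ℕ → ℂ) (N M : ℕ) (K : ℝ) (hN : N ≤ M)
    (hK : ∀ m, N ≤ m → m ≤ M → ‖∑ n ∈ Ioc N m, a n‖ ≤ K) :
    ‖∑ n ∈ Ioc N M, (w n : ℂ) * a n‖ ≤ K * (|w M| + ∑ n ∈ Ioo N M, |w n - w (n + 1)|) := by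
  rcases hN.eq_or_lt with h | h
  · subst h
    have h0 : 0 ≤ K := (norm_nonneg _).trans (hK N le_rfl le_rfl)
    rw [Ioc_self, sum_empty, norm_zero]
    exact mul_nonneg h0 (add_nonneg (abs_nonneg _) (sum_nonneg fun _ _ => abs_nonneg _))
  · rw [abel_id w a N M h]
    refine (norm_add_le _ _).trans ?_
    rw [mul_add]
    refine add_le_add ?_ ?_
    · rw [norm_mul, Complex.norm_real, Real.norm_eq_abs, mul_comm]
      exact mul_le_mul_of_nonneg_right (hK M hN le_rfl) (abs_nonneg _)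
    · refine (norm_sum_le _ _).trans ?_
      rw [mul_sum]
      refine sum_le_sum fun n hn => ?_
      rw [norm_mul, Complex.norm_real, Real.norm_eq_abs, mul_comm]
      rw [mem_Ioo] at hn
      exact mul_le_mul_of_nonneg_right (hK n hn.1.le hn.2.le) (abs_nonneg _)

/-- One block with a weight of variation `O(1/N)`.

Proof. `abel` with `hK` (only blocks inside `(N, M]`): `|w M| ≤ A/M ≤ A/N`, and there are at most `N` numbers in `Ioo N M`, each with
`|w n - w (n+1)| ≤ 4A/n^2 ≤ 4A/N^2`. (If `N = M` the sum is empty.) -/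
theorem abel_block (w : ℕ → ℝ) (a : ℕ → ℂ) (N M : ℕ) (K A : ℝ) (hN1 : 1 ≤ N) (hN : N ≤ M) (hM : M ≤ 2 * N)
    (hA : 0 ≤ A) (hw : ∀ n, 1 ≤ n → |w n| ≤ A / n) (hw' : ∀ n, 1 ≤ n → |w n - w (n + 1)| ≤ 4 * A / (n : ℝ) ^ 2)
    (hK : ∀ m, N ≤ m → m ≤ M → ‖∑ n ∈ Ioc N m, a n‖ ≤ K) :
    ‖∑ n ∈ Ioc N M, (w n : ℂ) * a n‖ ≤ K * (5 * A / N) := by
  have h0 : 0 ≤ K := (norm_nonneg _).trans (hK N le_rfl hN)
  refine (abel w a N M K hN hK).trans (mul_le_mul_of_nonneg_left ?_ h0)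
  have hNr : (1 : ℝ) ≤ N := by exact_mod_cast hN1
  have hMr : (N : ℝ) ≤ M := by exact_mod_cast hN
  have e1 : |w M| ≤ A / N :=
    (hw M (hN1.trans hN)).trans (div_le_div_of_nonneg_left hA (by linarith) hMr)
  have e2 : ∑ n ∈ Ioo N M, |w n - w (n + 1)| ≤ ∑ n ∈ Ioo N M, 4 * A / (N : ℝ) ^ 2 := by
    refine sum_le_sum fun n hn => ?_
    rw [mem_Ioo] at hn
    refine (hw' n (by omega)).trans ?_
    have hn' : (N : ℝ) ≤ n := by exact_mod_cast hn.1.le
    exact div_le_div_of_nonneg_left (by positivity) (by positivity) (by gcongr)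
  have e3 : ∑ n ∈ Ioo N M, 4 * A / (N : ℝ) ^ 2 ≤ 4 * A / N := by
    rw [sum_const, nsmul_eq_mul, Nat.card_Ioo]
    have hc : ((M - N - 1 : ℕ) : ℝ) ≤ N := by
      have : M - N - 1 ≤ N := by omega
      exact_mod_cast this
    calc ((M - N - 1 : ℕ) : ℝ) * (4 * A / (N : ℝ) ^ 2) ≤ N * (4 * A / (N : ℝ) ^ 2) :=
          mul_le_mul_of_nonneg_right hc (by positivity)
      _ = 4 * A / N := by field_simp
  calc |w M| + ∑ n ∈ Ioo N M, |w n - w (n + 1)| ≤ A / N + 4 * A / N := by linarith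
    _ = 5 * A / N := by ring

/-- Dyadic blocks.

Proof. Induction on `m`: if `M ≤ 2^m N₀` use the induction hypothesis; otherwise `Ioc N₀ M = Ioc N₀ (2^m N₀) ∪ Ioc (2^m N₀) M`
(`Finset.sum_Ioc_consecutive`), the first part by the induction hypothesis, the second by `hK` (`M ≤ 2^(m+1) N₀`). -/
theorem dyad (F : ℕ → ℂ) (N₀ : ℕ) (K : ℝ) (B : ℕ)
    (hK : ∀ j N M : ℕ, N = 2 ^ j * N₀ → N ≤ M → M ≤ 2 * N → M ≤ B → ‖∑ n ∈ Ioc N M, F n‖ ≤ K) (hK0 : 0 ≤ K) :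
    ∀ (m M : ℕ), N₀ ≤ M → M ≤ 2 ^ m * N₀ → M ≤ B → ‖∑ n ∈ Ioc N₀ M, F n‖ ≤ m * K := by
  intro m
  induction m with
  | zero =>
    intro M h1 h2 _
    have h : M = N₀ := by simp only [pow_zero, one_mul] at h2; omega
    subst h
    simp
  | succ m ih =>
    intro M h1 h2 h3
    by_cases h : M ≤ 2 ^ m * N₀
    · refine (ih M h1 h h3).trans ?_
      push_cast
      nlinarith
    · rw [not_le] at h
      have h4 : N₀ ≤ 2 ^ m * N₀ := Nat.le_mul_of_pos_left _ (by positivity)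
      rw [← sum_Ioc_consecutive F h4 h.le]
      refine (norm_add_le _ _).trans ?_
      have e1 := ih (2 ^ m * N₀) h4 le_rfl (h.le.trans h3)
      have e2 := hK m (2 ^ m * N₀) M rfl h.le (by
        calc M ≤ 2 ^ (m + 1) * N₀ := h2
          _ = 2 * (2 ^ m * N₀) := by ring) h3
      push_cast
      linarith

end Pool.Agent.Lib.H31P
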