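import Pool.Agent.Lib.H31P.W0

/-!
# Chunk W11 (S/M): the weights `ψ(log n - i)/n` and `log n ψ(log n - i)/n`
-/

open Finset

namespace Pool.Agent.Lib.H31P

private theorem psi_lip (x y : ℝ) : |psi x - psi y| ≤ |x - y| := by
  unfold psi
  have h1 : |max 0 (1 - |x|) - max 0 (1 - |y|)| ≤ |(1 - |x|) - (1 - |y|)| := by
    rw [max_comm 0, max_comm 0]
    exact abs_max_sub_max_le_abs _ _ _
  refine h1.trans ?_
  have h2 : (1 - |x|) - (1 - |y|) = |y| - |x| := by ring
  rw [h2, abs_sub_comm x y]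
  exact abs_abs_sub_abs_le y x

private theorem psi_nonneg (x : ℝ) : 0 ≤ psi x := le_max_left _ _

private theorem psi_le_one (x : ℝ) : psi x ≤ 1 := by
  unfold psi
  refine max_le zero_le_one ?_
  linarith [abs_nonneg x]

private theorem log_succ_sub (n : ℕ) (hn : 1 ≤ n) :
    Real.log ((n + 1 : ℕ) : ℝ) - Real.log n ≤ 1 / n := by
  have hn' : (0 : ℝ) < n := by exact_mod_cast hn
  rw [← Real.log_div (by positivity) hn'.ne']
  refine (Real.log_le_sub_one_of_pos (by positivity)).trans_eq ?_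
  push_cast
  field_simp
  ring

private theorem log_mono_succ (n : ℕ) (hn : 1 ≤ n) :
    Real.log n ≤ Real.log ((n + 1 : ℕ) : ℝ) := by
  have hn' : (0 : ℝ) < n := by exact_mod_cast hn
  refine Real.log_le_log hn' ?_
  push_cast
  linarith

/-- `|log (n+1) - log n| ≤ 1/n`, so `|ψ(log (n+1) - i) - ψ(log n - i)| ≤ 1/n` (`ψ` is Lipschitz with constant 1), `0 ≤ ψ ≤ 1`. -/
theorem fS_lip (i n : ℕ) (hn : 1 ≤ n) : |fS i n - fS i (n + 1)| ≤ 1 / n := by
  have hn0 : n ≠ 0 := by omega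
  unfold fS
  rw [if_neg hn0, if_neg (Nat.succ_ne_zero n)]
  refine (psi_lip _ _).trans ?_
  have h : Real.log n - i - (Real.log ((n + 1 : ℕ) : ℝ) - i) =
      -(Real.log ((n + 1 : ℕ) : ℝ) - Real.log n) := by ring
  rw [h, abs_neg, abs_of_nonneg (sub_nonneg.mpr (log_mono_succ n hn))]
  exact log_succ_sub n hn

theorem fS_nonneg (i n : ℕ) : 0 ≤ fS i n := by
  unfold fS
  split_ifs
  · exact le_rfl
  · exact psi_nonneg _

theorem fS_le_one (i n : ℕ) : fS i n ≤ 1 := by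
  unfold fS
  split_ifs
  · exact zero_le_one
  · exact psi_le_one _

/-- Support. -/
theorem fS_supp (i n : ℕ) (h : fS i n ≠ 0) : Real.exp ((i : ℝ) - 1) < n ∧ (n : ℝ) < Real.exp ((i : ℝ) + 1) := by
  unfold fS at h
  split_ifs at h with hn
  · exact absurd rfl h
  · have hn' : (0 : ℝ) < n := by exact_mod_cast Nat.pos_of_ne_zero hn
    have h1 : |Real.log n - i| < 1 := by
      by_contra hc
      rw [not_lt] at hc
      apply h
      unfold psi
      exact max_eq_left (by linarith)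
    rw [abs_lt] at h1
    refine ⟨?_, ?_⟩
    · rw [← Real.lt_log_iff_exp_lt hn']
      linarith
    · rw [← Real.log_lt_iff_lt_exp hn']
      linarith

private theorem wS2 (i n : ℕ) (hn : 1 ≤ n) :
    |fS i n / n - fS i (n + 1) / ((n + 1 : ℕ) : ℝ)| ≤ 2 / (n : ℝ) ^ 2 := by
  have hn' : (0 : ℝ) < n := by exact_mod_cast hn
  have h1 : fS i n / n - fS i (n + 1) / ((n + 1 : ℕ) : ℝ) =
      (fS i n - fS i (n + 1)) / n + fS i (n + 1) * (1 / ((n : ℝ) * (n + 1))) := by
    push_cast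
    field_simp
    ring
  have h2 : |(fS i n - fS i (n + 1)) / n| ≤ 1 / (n : ℝ) ^ 2 := by
    rw [abs_div, abs_of_pos hn']
    refine (div_le_div_of_nonneg_right (fS_lip i n hn) hn'.le).trans_eq ?_
    field_simp
  have h3 : |fS i (n + 1) * (1 / ((n : ℝ) * (n + 1)))| ≤ 1 / (n : ℝ) ^ 2 := by
    rw [abs_of_nonneg (mul_nonneg (fS_nonneg _ _) (by positivity))]
    calc fS i (n + 1) * (1 / ((n : ℝ) * (n + 1))) ≤ 1 * (1 / ((n : ℝ) * (n + 1))) :=
          mul_le_mul_of_nonneg_right (fS_le_one _ _) (by positivity)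
      _ = 1 / ((n : ℝ) * (n + 1)) := one_mul _
      _ ≤ 1 / (n : ℝ) ^ 2 := by
          refine one_div_le_one_div_of_le (by positivity) ?_
          nlinarith
  rw [h1]
  refine (abs_add_le _ _).trans ?_
  have h4 : (2 : ℝ) / (n : ℝ) ^ 2 = 1 / (n : ℝ) ^ 2 + 1 / (n : ℝ) ^ 2 := by ring
  rw [h4]
  exact add_le_add h2 h3

/-- The weight `fS i n / n`. Proof. `|fS n/n - fS (n+1)/(n+1)| ≤ |fS n - fS (n+1)|/n + fS (n+1) (1/n - 1/(n+1)) ≤ 2/n^2`. -/
theorem wS (i n : ℕ) (hn : 1 ≤ n) :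
    |fS i n / n| ≤ 1 / n ∧ |fS i n / n - fS i (n + 1) / ((n + 1 : ℕ) : ℝ)| ≤ 4 * 1 / (n : ℝ) ^ 2 := by
  have hn' : (0 : ℝ) < n := by exact_mod_cast hn
  refine ⟨?_, (wS2 i n hn).trans ?_⟩
  · rw [abs_div, abs_of_pos hn', abs_of_nonneg (fS_nonneg _ _)]
    exact div_le_div_of_nonneg_right (fS_le_one _ _) hn'.le
  · exact div_le_div_of_nonneg_right (by norm_num) (by positivity)

/-- The weight `fL i n / n`.

Proof. If `fS i n ≠ 0` then `0 ≤ log n < i + 1` (`fS_supp`). The difference: if `fS i (n+1) = 0` it is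
`log n fS i n/n`, and `fS i n = |fS i n - fS i (n+1)| ≤ 1/n`: at most `(i+1)/n^2`. Otherwise `log (n+1) < i + 1` and the difference is
`(fS n/n)(log n - log (n+1)) + log (n+1)(fS n/n - fS (n+1)/(n+1))`: at most `1/n^2 + (i+1) 2/n^2` (use `≤ 2/n^2` for `fS`, see `wS`). -/
theorem wL (i n : ℕ) (hn : 1 ≤ n) :
    |fL i n / n| ≤ ((i : ℝ) + 1) / n ∧
    |fL i n / n - fL i (n + 1) / ((n + 1 : ℕ) : ℝ)| ≤ 4 * ((i : ℝ) + 1) / (n : ℝ) ^ 2 := by
  have hn' : (0 : ℝ) < n := by exact_mod_cast hn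
  have hi : (0 : ℝ) ≤ i := Nat.cast_nonneg i
  have hlog : ∀ m : ℕ, 1 ≤ m → 0 ≤ Real.log m := fun m hm =>
    Real.log_nonneg (by exact_mod_cast hm)
  have hsup : ∀ m : ℕ, 1 ≤ m → fS i m ≠ 0 → Real.log m ≤ (i : ℝ) + 1 := by
    intro m hm h
    have hm' : (0 : ℝ) < m := by exact_mod_cast hm
    exact ((Real.log_lt_iff_lt_exp hm').mpr (fS_supp i m h).2).le
  have hfL : ∀ m : ℕ, 1 ≤ m → 0 ≤ fL i m ∧ fL i m ≤ (i : ℝ) + 1 := by
    intro m hm
    unfold fL
    refine ⟨mul_nonneg (hlog m hm) (fS_nonneg _ _), ?_⟩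
    by_cases h : fS i m = 0
    · rw [h, mul_zero]
      linarith
    · calc Real.log m * fS i m ≤ ((i : ℝ) + 1) * 1 :=
            mul_le_mul (hsup m hm h) (fS_le_one _ _) (fS_nonneg _ _) (by linarith)
        _ = (i : ℝ) + 1 := mul_one _
  refine ⟨?_, ?_⟩
  · rw [abs_div, abs_of_pos hn', abs_of_nonneg (hfL n hn).1]
    exact div_le_div_of_nonneg_right (hfL n hn).2 hn'.le
  · have hlip := fS_lip i n hn
    by_cases h : fS i (n + 1) = 0
    · by_cases h' : fS i n = 0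
      · unfold fL
        rw [h, h']
        simp only [mul_zero, zero_div, sub_zero, abs_zero]
        positivity
      · unfold fL
        rw [h]
        rw [h, sub_zero, abs_of_nonneg (fS_nonneg _ _)] at hlip
        simp only [mul_zero, zero_div, sub_zero]
        rw [abs_div, abs_of_pos hn', abs_of_nonneg (mul_nonneg (hlog n hn) (fS_nonneg _ _))]
        calc Real.log n * fS i n / n ≤ ((i : ℝ) + 1) * (1 / n) / n := by
              refine div_le_div_of_nonneg_right ?_ hn'.le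
              exact mul_le_mul (hsup n hn h') hlip (fS_nonneg _ _) (by linarith)
          _ = ((i : ℝ) + 1) / (n : ℝ) ^ 2 := by field_simp
          _ ≤ 4 * ((i : ℝ) + 1) / (n : ℝ) ^ 2 := by
              refine div_le_div_of_nonneg_right ?_ (by positivity)
              linarith
    · have hl := hsup (n + 1) (by omega) h
      have hl0 := hlog (n + 1) (by omega)
      have e : fL i n / n - fL i (n + 1) / ((n + 1 : ℕ) : ℝ) =
          fS i n / n * (Real.log n - Real.log ((n + 1 : ℕ) : ℝ)) +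
          Real.log ((n + 1 : ℕ) : ℝ) * (fS i n / n - fS i (n + 1) / ((n + 1 : ℕ) : ℝ)) := by
        unfold fL
        ring
      rw [e]
      refine (abs_add_le _ _).trans ?_
      have e1 : |fS i n / n * (Real.log n - Real.log ((n + 1 : ℕ) : ℝ))| ≤ 1 / (n : ℝ) ^ 2 := by
        rw [abs_mul, abs_sub_comm, abs_of_nonneg (sub_nonneg.mpr (log_mono_succ n hn))]
        calc |fS i n / n| * (Real.log ((n + 1 : ℕ) : ℝ) - Real.log n) ≤ (1 / n) * (1 / n) :=
              mul_le_mul (wS i n hn).1 (log_succ_sub n hn)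
                (sub_nonneg.mpr (log_mono_succ n hn)) (by positivity)
          _ = 1 / (n : ℝ) ^ 2 := by field_simp
      have e2 : |Real.log ((n + 1 : ℕ) : ℝ) *
          (fS i n / n - fS i (n + 1) / ((n + 1 : ℕ) : ℝ))| ≤ ((i : ℝ) + 1) * (2 / (n : ℝ) ^ 2) := by
        rw [abs_mul, abs_of_nonneg hl0]
        exact mul_le_mul hl (wS2 i n hn) (abs_nonneg _) (by linarith)
      calc _ ≤ 1 / (n : ℝ) ^ 2 + ((i : ℝ) + 1) * (2 / (n : ℝ) ^ 2) := add_le_add e1 e2
        _ = (2 * (i : ℝ) + 3) / (n : ℝ) ^ 2 := by ring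
        _ ≤ 4 * ((i : ℝ) + 1) / (n : ℝ) ^ 2 := by
            refine div_le_div_of_nonneg_right ?_ (by positivity)
            linarith

end Pool.Agent.Lib.H31P
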