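import Pool.Agent.Lib.H31P.W9
import Pool.Agent.Lib.H31P.W10
import Pool.Agent.Lib.H31P.W11

/-!
# Chunk W12 (M): pointwise bounds for the smooth factors
-/

open Finset

namespace Pool.Agent.Lib.H31P

/-- One dyadic block, both ranges. -/
private theorem pt_block (Cw Ck : ℝ) (hCw : 1 ≤ Cw) (hCk : 0 < Ck)
    (hw : ∀ (t : ℝ) (N N' : ℕ), 1 ≤ N → (N : ℝ) ≤ |t| → N ≤ N' → N' ≤ 2 * N →
      ‖∑ n ∈ Ioc N N', (n : ℂ) ^ ((t : ℂ) * Complex.I)‖ ≤ Cw * ((N : ℝ) ^ (1 / 2 : ℝ) * |t| ^ (1 / 6 : ℝ)))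
    (hk : ∀ (t : ℝ) (N N' : ℕ), 1 ≤ |t| → |t| ≤ N → N ≤ N' → N' ≤ 2 * N →
      ‖∑ n ∈ Ioc N N', (n : ℂ) ^ ((t : ℂ) * Complex.I)‖ ≤ Ck * (N / |t|))
    (w : ℕ → ℝ) (A E : ℝ) (t : ℝ) (ht : 1 ≤ |t|) (hA : 0 ≤ A) (hE : 0 < E)
    (h1 : ∀ n, 1 ≤ n → |w n| ≤ A / n) (h2 : ∀ n, 1 ≤ n → |w n - w (n + 1)| ≤ 4 * A / (n : ℝ) ^ 2)
    (N M : ℕ) (hN1 : 1 ≤ N) (hNE : E ^ 2 ≤ 9 * N) (hN : N ≤ M) (hM : M ≤ 2 * N) :
    ‖∑ n ∈ Ioc N M, (w n : ℂ) * nit (-t) n‖ ≤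
      15 * (Cw + Ck) * A * (|t| ^ (1 / 6 : ℝ) * (1 / E) + 1 / |t|) := by
  have ht0 : 0 < |t| := by linarith
  have hNr : (1 : ℝ) ≤ N := by exact_mod_cast hN1
  have hN0 : (0 : ℝ) < N := by linarith
  have hp : 0 ≤ |t| ^ (1 / 6 : ℝ) := by positivity
  have hiE : 0 < 1 / E := by positivity
  have hit : 0 < 1 / |t| := by positivity
  rcases le_or_gt (N : ℝ) |t| with hc | hc
  · have hK : ∀ m, N ≤ m → m ≤ M →
        ‖∑ n ∈ Ioc N m, nit (-t) n‖ ≤ Cw * ((N : ℝ) ^ (1 / 2 : ℝ) * |t| ^ (1 / 6 : ℝ)) := by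
      intro m hm1 hm2
      rw [norm_sum_nit_neg, ← sum_nit_eq]
      exact hw t N m hN1 hc hm1 (hm2.trans hM)
    refine (abel_block w (fun n => nit (-t) n) N M _ A hN1 hN hM hA h1 h2 hK).trans ?_
    rw [← Real.sqrt_eq_rpow]
    have hs0 : 0 < √(N : ℝ) := Real.sqrt_pos.mpr hN0
    have hss : √(N : ℝ) * √(N : ℝ) = N := Real.mul_self_sqrt hN0.le
    have hEs : E ≤ 3 * √(N : ℝ) := by
      nlinarith
    have e1 : Cw * (√(N : ℝ) * |t| ^ (1 / 6 : ℝ)) * (5 * A / N) =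
        5 * Cw * A * |t| ^ (1 / 6 : ℝ) * (1 / √(N : ℝ)) := by
      have : (N : ℝ) = √(N : ℝ) * √(N : ℝ) := hss.symm
      field_simp
      rw [Real.sq_sqrt hN0.le]
      ring
    have e2 : 1 / √(N : ℝ) ≤ 3 * (1 / E) := by
      rw [div_le_iff₀ hs0]
      have : 3 * (1 / E) * √(N : ℝ) = (3 * √(N : ℝ)) / E := by ring
      rw [this, le_div_iff₀ hE]
      linarith
    have e3 : 5 * Cw * A * |t| ^ (1 / 6 : ℝ) * (1 / √(N : ℝ)) ≤ 5 * Cw * A * |t| ^ (1 / 6 : ℝ) * (3 * (1 / E)) :=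
      mul_le_mul_of_nonneg_left e2 (by positivity)
    rw [e1]
    refine e3.trans ?_
    have e4 : 0 ≤ 15 * Ck * A * (|t| ^ (1 / 6 : ℝ) * (1 / E)) := by positivity
    have e5 : 0 ≤ 15 * (Cw + Ck) * A * (1 / |t|) := by positivity
    linarith
  · have hK : ∀ m, N ≤ m → m ≤ M →
        ‖∑ n ∈ Ioc N m, nit (-t) n‖ ≤ Ck * (N / |t|) := by
      intro m hm1 hm2
      rw [norm_sum_nit_neg, ← sum_nit_eq]
      exact hk t N m ht hc.le hm1 (hm2.trans hM)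
    refine (abel_block w (fun n => nit (-t) n) N M _ A hN1 hN hM hA h1 h2 hK).trans ?_
    have e1 : Ck * (N / |t|) * (5 * A / N) = 5 * Ck * A * (1 / |t|) := by
      field_simp
    rw [e1]
    have e4 : 0 ≤ 15 * (Cw + Ck) * A * (|t| ^ (1 / 6 : ℝ) * (1 / E)) := by positivity
    have e5 : 0 ≤ (15 * Cw + 10 * Ck) * A * (1 / |t|) := by positivity
    linarith

/-- General weight. `N₀ = ⌊e^(i-1)⌋₊`, `i ≥ 1`, so `N₀ ≥ 1`, `e^(i-1)/2 ≤ N₀ ≤ e^(i-1)`, `e^(i+1) ≤ 16 N₀` (as `e^2 < 8`).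

Proof. `dyad` with `N₀`, `m = 4`, `B = M`, `F n = w n * nit (-t) n`: for `N = 2^j N₀ ≤ M' ≤ 2N`: if `N ≤ |t|`, `weyl` gives
`K = C N^(1/2) |t|^(1/6)` for all partial sums, `abel_block`: at most `5 A C |t|^(1/6) N^(-1/2)`, and `N ≥ N₀ ≥ e^(i-1)/2 ≥ e^i/6`; if `N > |t|`, `H31X.kl`
gives `K = C N/|t|`, `abel_block`: at most `5 A C/|t|`. (`norm_sum_nit_abs`, `nit_eq` to pass between `nit (-t)` and the powers.) -/
theorem pt_gen : ∃ C : ℝ, 1 ≤ C ∧ ∀ (w : ℕ → ℝ) (A : ℝ) (i M : ℕ) (t : ℝ), 1 ≤ i → 1 ≤ |t| → 0 ≤ A →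
    (∀ n, 1 ≤ n → |w n| ≤ A / n) → (∀ n, 1 ≤ n → |w n - w (n + 1)| ≤ 4 * A / (n : ℝ) ^ 2) →
    ⌊Real.exp ((i : ℝ) - 1)⌋₊ ≤ M → (M : ℝ) ≤ Real.exp ((i : ℝ) + 1) →
    ‖∑ n ∈ Ioc ⌊Real.exp ((i : ℝ) - 1)⌋₊ M, (w n : ℂ) * nit (-t) n‖ ≤
      C * A * (|t| ^ (1 / 6 : ℝ) * Real.exp (-((i : ℝ) / 2)) + 1 / |t|) := by
  obtain ⟨Cw, hCw, hw⟩ := weyl
  obtain ⟨Ck, hCk, hk⟩ := H31X.kl
  refine ⟨60 * (Cw + Ck), by linarith, ?_⟩
  intro w A i M t hi ht hA h1 h2 hM1 hM2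
  have hir : (1 : ℝ) ≤ i := by exact_mod_cast hi
  have hex1 : 1 ≤ Real.exp ((i : ℝ) - 1) := Real.one_le_exp (by linarith)
  have hN0 : 1 ≤ ⌊Real.exp ((i : ℝ) - 1)⌋₊ := Nat.le_floor (by simpa using hex1)
  obtain ⟨N₀, hN₀⟩ : ∃ N₀ : ℕ, N₀ = ⌊Real.exp ((i : ℝ) - 1)⌋₊ := ⟨_, rfl⟩
  rw [← hN₀] at hM1 hN0 ⊢
  have hlt : Real.exp ((i : ℝ) - 1) < N₀ + 1 := by rw [hN₀]; exact Nat.lt_floor_add_one _
  have hN0r : (1 : ℝ) ≤ N₀ := by exact_mod_cast hN0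
  have he1 : Real.exp ((i : ℝ) + 1) = Real.exp 1 * Real.exp 1 * Real.exp ((i : ℝ) - 1) := by
    rw [← Real.exp_add, ← Real.exp_add]
    congr 1
    ring
  have he2 : Real.exp (i : ℝ) = Real.exp 1 * Real.exp ((i : ℝ) - 1) := by
    rw [← Real.exp_add]
    congr 1
    ring
  have he := Real.exp_one_lt_d9
  have he0 := Real.exp_pos 1
  have hee : Real.exp 1 * Real.exp 1 ≤ 8 := by nlinarith
  have hM16 : M ≤ 2 ^ 4 * N₀ := by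
    have : (M : ℝ) ≤ 2 ^ 4 * N₀ := by
      calc (M : ℝ) ≤ Real.exp 1 * Real.exp 1 * Real.exp ((i : ℝ) - 1) := by rw [← he1]; exact hM2
        _ ≤ 8 * Real.exp ((i : ℝ) - 1) := mul_le_mul_of_nonneg_right hee (by positivity)
        _ ≤ 8 * (2 * N₀) := by linarith
        _ = 2 ^ 4 * N₀ := by ring
    exact_mod_cast this
  have hE2 : (Real.exp ((i : ℝ) / 2)) ^ 2 = Real.exp (i : ℝ) := by
    rw [sq, ← Real.exp_add]
    congr 1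
    ring
  have hEi : Real.exp (-((i : ℝ) / 2)) = 1 / Real.exp ((i : ℝ) / 2) := by
    rw [Real.exp_neg, one_div]
  have hblock : ∀ j N M' : ℕ, N = 2 ^ j * N₀ → N ≤ M' → M' ≤ 2 * N → M' ≤ M →
      ‖∑ n ∈ Ioc N M', (w n : ℂ) * nit (-t) n‖ ≤
        15 * (Cw + Ck) * A * (|t| ^ (1 / 6 : ℝ) * (1 / Real.exp ((i : ℝ) / 2)) + 1 / |t|) := by
    intro j N M' hNj hNM hM2N _
    have hNN : N₀ ≤ N := by rw [hNj]; exact Nat.le_mul_of_pos_left _ (by positivity)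
    have hNNr : (N₀ : ℝ) ≤ N := by exact_mod_cast hNN
    refine pt_block Cw Ck hCw hCk hw hk w A _ t ht hA (Real.exp_pos _) h1 h2 N M' (hN0.trans hNN) ?_ hNM hM2N
    rw [hE2, he2]
    have : Real.exp 1 * Real.exp ((i : ℝ) - 1) ≤ 3 * Real.exp ((i : ℝ) - 1) :=
      mul_le_mul_of_nonneg_right (by linarith) (by positivity)
    linarith
  have hK0 : 0 ≤ 15 * (Cw + Ck) * A * (|t| ^ (1 / 6 : ℝ) * (1 / Real.exp ((i : ℝ) / 2)) + 1 / |t|) := by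
    positivity
  have hfin := dyad (fun n => (w n : ℂ) * nit (-t) n) N₀ _ M hblock hK0 4 M hM1 hM16 le_rfl
  refine hfin.trans (le_of_eq ?_)
  rw [hEi]
  push_cast
  ring

private theorem term_eq (f : ℕ → ℝ) (t : ℝ) {n : ℕ} (hn : 1 ≤ n) :
    (f n : ℂ) * (n : ℂ) ^ (-(1 + (t : ℂ) * Complex.I)) = (((f n / n : ℝ)) : ℂ) * nit (-t) n := by
  have hn0 : (n : ℂ) ≠ 0 := by
    have : n ≠ 0 := by omega
    exact_mod_cast this
  rw [neg_add, Complex.cpow_add _ _ hn0, nit_eq_neg t hn, Complex.cpow_neg_one]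
  push_cast
  ring

private theorem Di_eq (f : ℕ → ℝ) (i : ℕ) (t : ℝ) (N₀ : ℕ)
    (h0 : ∀ n, 1 ≤ n → n ≤ N₀ → f n = 0) :
    Di f i t = ∑ n ∈ Ioc N₀ ⌊Real.exp ((i : ℝ) + 1)⌋₊, (((f n / n : ℝ)) : ℂ) * nit (-t) n := by
  unfold Di Pool.Agent.Lib.H31W.DD
  have hsub : Ioc N₀ ⌊Real.exp ((i : ℝ) + 1)⌋₊ ⊆ Icc 1 ⌊Real.exp ((i : ℝ) + 1)⌋₊ := by
    intro n hn
    rw [mem_Ioc] at hn
    rw [mem_Icc]
    omega
  rw [← sum_subset hsub]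
  · exact sum_congr rfl fun n hn => term_eq f t (by have := (mem_Ioc.mp hn).1; omega)
  · intro n hn1 hn2
    rw [mem_Icc] at hn1
    have h3 : n ≤ N₀ := by
      by_contra hc
      exact hn2 (mem_Ioc.mpr ⟨by omega, hn1.2⟩)
    rw [h0 n hn1.1 h3]
    simp

private theorem fS_zero (i n : ℕ) (hn : n ≤ ⌊Real.exp ((i : ℝ) - 1)⌋₊) : fS i n = 0 := by
  by_contra hc
  have h1 := (fS_supp i n hc).1
  have h2 : (n : ℝ) ≤ Real.exp ((i : ℝ) - 1) := by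
    have h3 : (n : ℝ) ≤ (⌊Real.exp ((i : ℝ) - 1)⌋₊ : ℝ) := by exact_mod_cast hn
    exact h3.trans (Nat.floor_le (Real.exp_pos _).le)
  linarith

private theorem Di_zero (f : ℕ → ℝ) (t : ℝ) (hf : ∀ n, 1 ≤ n → |f n / n| ≤ 1 / n) :
    ‖Di f 0 t‖ ≤ 2 := by
  have hfl : ⌊Real.exp (((0 : ℕ) : ℝ) + 1)⌋₊ = 2 := by
    rw [Nat.floor_eq_iff (Real.exp_pos _).le]
    have h1 := Real.exp_one_gt_d9
    have h2 := Real.exp_one_lt_d9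
    push_cast
    rw [zero_add]
    constructor <;> linarith
  rw [Di_eq f 0 t 0 (fun n h1 h2 => by omega), hfl]
  refine (norm_sum_le _ _).trans ?_
  have h2 : ∑ n ∈ Ioc 0 2, ‖(((f n / n : ℝ)) : ℂ) * nit (-t) n‖ ≤ ∑ n ∈ Ioc (0 : ℕ) 2, (1 : ℝ) := by
    refine sum_le_sum fun n hn => ?_
    rw [mem_Ioc] at hn
    have hn1 : 1 ≤ n := by omega
    rw [norm_mul, norm_nit, mul_one, Complex.norm_real, Real.norm_eq_abs]
    refine (hf n hn1).trans ?_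
    have : (1 : ℝ) ≤ n := by exact_mod_cast hn1
    rw [div_le_one (by linarith)]
    exact this
  refine h2.trans ?_
  simp

/-- Proof. `Di f i t = DD f ⌊e^(i+1)⌋₊ t = ∑_{n ∈ Icc 1 M} (f n/n) nit (-t) n`, `M = ⌊e^(i+1)⌋₊` (`n^(-(1+it)) = n^(-1) n^(-it)`, `Complex.cpow_add`, `nit_eq_neg`).
`i = 0`: at most two terms (`e < 3`), norm at most `2` resp. `2` (`log 2 ≤ 1`), and `|t|^(1/6) e^0 ≥ 1`. `i ≥ 1`: the terms with `n ≤ e^(i-1)` vanish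
(`fS_supp`), so `pt_gen` with `w n = fS i n/n`, `A = 1` (`wS`), resp. `w n = fL i n/n`, `A = i + 1` (`wL`). -/
theorem pt : PtStm := by
  obtain ⟨C, hC, hpt⟩ := pt_gen
  refine ⟨C + 2, by linarith, ?_⟩
  intro i t ht
  have ht0 : 0 < |t| := by linarith
  have h6 : 1 ≤ |t| ^ (1 / 6 : ℝ) := Real.one_le_rpow ht (by norm_num)
  have hit : 0 < 1 / |t| := by positivity
  rcases Nat.eq_zero_or_pos i with hi | hi
  · subst hi
    have hQ : 1 ≤ |t| ^ (1 / 6 : ℝ) * Real.exp (-(((0 : ℕ) : ℝ) / 2)) + 1 / |t| := by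
      have : Real.exp (-(((0 : ℕ) : ℝ) / 2)) = 1 := by simp
      rw [this, mul_one]
      linarith
    have hS : ‖Di (fS 0) 0 t‖ ≤ 2 := Di_zero (fS 0) t fun n hn => (wS 0 n hn).1
    have hL : ‖Di (fL 0) 0 t‖ ≤ 2 := Di_zero (fL 0) t fun n hn => by
      have := (wL 0 n hn).1
      simpa using this
    constructor
    · nlinarith
    · push_cast
      push_cast at hQ
      nlinarith
  · have hfl : ⌊Real.exp ((i : ℝ) - 1)⌋₊ ≤ ⌊Real.exp ((i : ℝ) + 1)⌋₊ :=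
      Nat.floor_le_floor (Real.exp_le_exp.mpr (by linarith))
    have hM : ((⌊Real.exp ((i : ℝ) + 1)⌋₊ : ℕ) : ℝ) ≤ Real.exp ((i : ℝ) + 1) :=
      Nat.floor_le (Real.exp_pos _).le
    have hQ : 0 ≤ |t| ^ (1 / 6 : ℝ) * Real.exp (-((i : ℝ) / 2)) + 1 / |t| := by positivity
    constructor
    · rw [Di_eq (fS i) i t _ fun n _ hn => fS_zero i n hn]
      have h := hpt (fun n => fS i n / n) 1 i _ t hi ht zero_le_one
        (fun n hn => (wS i n hn).1) (fun n hn => (wS i n hn).2) hfl hM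
      refine h.trans ?_
      nlinarith
    · rw [Di_eq (fL i) i t _ fun n _ hn => by unfold fL; rw [fS_zero i n hn, mul_zero]]
      have h := hpt (fun n => fL i n / n) ((i : ℝ) + 1) i _ t hi ht (by positivity)
        (fun n hn => (wL i n hn).1) (fun n hn => (wL i n hn).2) hfl hM
      refine h.trans ?_
      have h3 : C * ((i : ℝ) + 1) ≤ (C + 2) * ((i : ℝ) + 1) := by
        have : (0 : ℝ) ≤ i := Nat.cast_nonneg i
        nlinarith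
      exact mul_le_mul_of_nonneg_right h3 hQ

end Pool.Agent.Lib.H31P
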