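import Pool.Agent.Lib.H31P.W6
import Pool.Agent.Lib.H31P.W10

/-!
# Chunk W13 (S/M): the kernel
-/

open Finset

namespace Pool.Agent.Lib.H31P

private lemma W13_inv {x : ℝ} (h : 1 ≤ x) : 1 / x ≤ 2 / (1 + x) := by
  rw [div_le_div_iff₀ (by linarith) (by linarith)]
  linarith

private lemma W13_term (τ : ℝ) {n : ℕ} (hn : 1 ≤ n) : ‖(n : ℂ) ^ (-((τ : ℂ) * Complex.I))‖ = 1 := by
  rw [nit_eq_neg τ hn, norm_nit]

private lemma W13_neg (τ : ℝ) (n : ℕ) :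
    (n : ℂ) ^ (-((τ : ℂ) * Complex.I)) = (n : ℂ) ^ (((-τ : ℝ) : ℂ) * Complex.I) := by
  congr 1
  push_cast
  ring

/-- Proof. `|τ| ≤ 1`: the number of terms is at most `b ≤ 2b/(1+|τ|)` (`b < a`: empty sum; `0 ≤` right side). `|τ| > 1`, `a ≤ b`: the term `n = a` has norm `1 ≤ |τ|^(1/2)`,
and `Ioc a b` is treated by `dyad` with `N₀ = a`, `m = r`, `B = b` (`b ≤ r a ≤ 2^r a`, `Nat.lt_two_pow_self`): a block `Ioc N M`, `N = 2^j a ≤ M ≤ 2N`, `M ≤ b`: if `N ≤ |τ|`, `vc2`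
gives `C |τ|^(1/2)`; if `N > |τ|`, `H31X.kl` gives `C N/|τ| ≤ C b/|τ| ≤ 2 C b/(1+|τ|)`. (Use `n^(-iτ) = n^(i(-τ))`.) -/
theorem ker : KerStm := by
  intro r
  obtain ⟨C₁, hC₁, hv⟩ := vc2
  obtain ⟨C₂, hC₂, hk⟩ := Pool.Agent.Lib.H31X.kl
  refine ⟨2 + r * (C₁ + 2 * C₂), ?_, ?_⟩
  · have : (0 : ℝ) ≤ r * (C₁ + 2 * C₂) := by positivity
    linarith
  intro a b τ ha hb
  set C : ℝ := 2 + r * (C₁ + 2 * C₂) with hC
  have hr0 : (0 : ℝ) ≤ r := Nat.cast_nonneg r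
  have hC2 : 2 ≤ C := by
    have : (0 : ℝ) ≤ r * (C₁ + 2 * C₂) := by positivity
    linarith
  have hτ0 : 0 ≤ |τ| := abs_nonneg τ
  have hS0 : 0 ≤ |τ| ^ (1 / 2 : ℝ) := Real.rpow_nonneg hτ0 _
  have hB0 : (0 : ℝ) ≤ b / (1 + |τ|) := by positivity
  rcases lt_or_ge b a with hab | hab
  · rw [Icc_eq_empty (by omega), sum_empty, norm_zero]
    positivity
  rcases le_or_gt |τ| 1 with h1 | h1
  · have hcard : ‖∑ n ∈ Icc a b, (n : ℂ) ^ (-((τ : ℂ) * Complex.I))‖ ≤ b := by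
      refine (norm_sum_le _ _).trans ?_
      rw [sum_congr rfl fun n hn => W13_term τ (ha.trans (mem_Icc.mp hn).1)]
      simp only [sum_const, Nat.card_Icc, nsmul_eq_mul, mul_one]
      have : b + 1 - a ≤ b := by omega
      exact_mod_cast this
    refine hcard.trans ?_
    have h2 : (b : ℝ) ≤ 2 * (b / (1 + |τ|)) := by
      rw [mul_div_assoc', le_div_iff₀ (by linarith)]
      have hb0 : (0 : ℝ) ≤ b := Nat.cast_nonneg b
      nlinarith
    calc (b : ℝ) ≤ 2 * (b / (1 + |τ|)) := h2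
      _ ≤ C * (b / (1 + |τ|)) := mul_le_mul_of_nonneg_right hC2 hB0
      _ ≤ C * (b / (1 + |τ|) + |τ| ^ (1 / 2 : ℝ)) := by
        apply mul_le_mul_of_nonneg_left _ (by linarith)
        linarith
  · have hIoc : ‖∑ n ∈ Ioc a b, (n : ℂ) ^ (-((τ : ℂ) * Complex.I))‖ ≤
        r * (C₁ * |τ| ^ (1 / 2 : ℝ) + 2 * C₂ * (b / (1 + |τ|))) := by
      refine dyad (fun n => (n : ℂ) ^ (-((τ : ℂ) * Complex.I))) a
        (C₁ * |τ| ^ (1 / 2 : ℝ) + 2 * C₂ * (b / (1 + |τ|))) b ?_ (by positivity) r b hab ?_ le_rfl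
      · intro j N M hN hNM hM2 hMb
        have hN1 : 1 ≤ N := by
          rw [hN]
          exact Nat.one_le_iff_ne_zero.mpr (by positivity)
        have hsum : ∑ n ∈ Ioc N M, (n : ℂ) ^ (-((τ : ℂ) * Complex.I)) =
            ∑ n ∈ Ioc N M, (n : ℂ) ^ (((-τ : ℝ) : ℂ) * Complex.I) :=
          sum_congr rfl fun n _ => W13_neg τ n
        rw [hsum]
        rcases le_or_gt (N : ℝ) |τ| with h2 | h2
        · have h3 := hv (-τ) N M hN1 (by rw [abs_neg]; exact h2) hNM hM2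
          rw [abs_neg] at h3
          refine h3.trans ?_
          have : 0 ≤ 2 * C₂ * (b / (1 + |τ|)) := by positivity
          linarith
        · have h3 := hk (-τ) N M (by rw [abs_neg]; exact h1.le) (by rw [abs_neg]; exact h2.le) hNM hM2
          rw [abs_neg] at h3
          refine h3.trans ?_
          have hNb : (N : ℝ) ≤ b := by exact_mod_cast hNM.trans hMb
          have h4 : (N : ℝ) / |τ| ≤ 2 * (b / (1 + |τ|)) := by
            calc (N : ℝ) / |τ| ≤ b / |τ| := div_le_div_of_nonneg_right hNb hτ0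
              _ = b * (1 / |τ|) := by ring
              _ ≤ b * (2 / (1 + |τ|)) := mul_le_mul_of_nonneg_left (W13_inv h1.le) (Nat.cast_nonneg b)
              _ = 2 * (b / (1 + |τ|)) := by ring
          have h5 : C₂ * ((N : ℝ) / |τ|) ≤ C₂ * (2 * (b / (1 + |τ|))) := mul_le_mul_of_nonneg_left h4 hC₂.le
          have h6 : 0 ≤ C₁ * |τ| ^ (1 / 2 : ℝ) := by positivity
          linarith
      · refine hb.trans (Nat.mul_le_mul_right a ?_)
        exact Nat.lt_two_pow_self.le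
    have hsplit : ∑ n ∈ Icc a b, (n : ℂ) ^ (-((τ : ℂ) * Complex.I)) =
        (a : ℂ) ^ (-((τ : ℂ) * Complex.I)) + ∑ n ∈ Ioc a b, (n : ℂ) ^ (-((τ : ℂ) * Complex.I)) := by
      rw [← Finset.Ioc_insert_left hab, sum_insert (by simp)]
    rw [hsplit]
    refine (norm_add_le _ _).trans ?_
    rw [W13_term τ ha]
    have hS1 : 1 ≤ |τ| ^ (1 / 2 : ℝ) := Real.one_le_rpow h1.le (by norm_num)
    have hx : 0 ≤ r * C₂ * |τ| ^ (1 / 2 : ℝ) := by positivity
    have hy : 0 ≤ r * C₁ * (b / (1 + |τ|)) := by positivity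
    rw [hC]
    nlinarith [hIoc, hS1, hx, hy, hB0]

end Pool.Agent.Lib.H31P
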