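import Pool.Agent.Lib.H31P.A9
import Pool.Agent.Lib.H31P.C4
import Pool.Agent.Lib.H31P.C5
import Pool.Agent.Lib.H31P.E3
import Pool.Agent.Lib.H31P.E5
import Pool.Agent.Lib.H31P.E12
import Pool.Agent.Lib.H31P.F9
import Pool.Agent.Lib.H31P.G4
import Pool.Agent.Lib.H31P.H3
import Pool.Agent.Lib.H31P.H4
import Pool.Agent.Lib.H31P.H5
import Pool.Agent.Lib.H31P.L2
import Pool.Agent.Lib.H31P.L9
import Pool.Agent.Lib.H31P.N4
import Pool.Agent.Lib.H31P.P3
import Pool.Agent.Lib.H31P.S4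
import Pool.Agent.Lib.H31P.T2
import Pool.Agent.Lib.H31P.W12
import Pool.Agent.Lib.H31P.W13
import Pool.Agent.Lib.H31X.X11

/-!
# H31P: assembly
-/

namespace Pool.Agent.Lib.H31P

open Pool.Agent.Lib.H31W

theorem lvF : LVStm := lv_stm mv_stm ker

theorem m4F : M4Stm := m4_stm (four_stm mv_stm)

theorem mlF : MLStm := ml_stm lvF m4F pt

theorem boxF : BoxStm := box_stm boxdd_stm mlF sup_stm

theorem coreF : CoreStm := core_stm hb_stm boxsupp_stm par_stm boxF tyI_stm

theorem mbF : MBStm := mb_stm coreF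

theorem goodF : GoodStm := good Pool.Agent.Lib.H31X.pnt_prop mbF

theorem winF : WinStm := win Pool.Agent.Lib.H31X.pnt_prop mbF

theorem coF : CoStm := co Pool.Agent.Lib.H31X.pnt_prop mbF

end Pool.Agent.Lib.H31P
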