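import Pool.Agent.Lib.H31P.FDefs

/-!
# Chunk G1 (M): the transforms of the tents
-/

open Finset MeasureTheory

namespace Pool.Agent.Lib.H31P

private theorem G1_deriv (g : ℝ → ℝ) (hg : Continuous g) (w₀ : ℂ) :
    HasDerivAt (fun w : ℂ => ∫ x in (-1 : ℝ)..1, (g x : ℂ) * Complex.exp (w * x))
      (∫ x in (-1 : ℝ)..1, ((x * g x : ℝ) : ℂ) * Complex.exp (w₀ * x)) w₀ := by
  have hc : ∀ w : ℂ, Continuous (fun x : ℝ => (g x : ℂ) * Complex.exp (w * x)) := fun w => by fun_prop
  have hc' : ∀ w : ℂ, Continuous (fun x : ℝ => ((x * g x : ℝ) : ℂ) * Complex.exp (w * x)) := fun w => by fun_prop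
  refine (intervalIntegral.hasDerivAt_integral_of_dominated_loc_of_deriv_le (μ := volume) (a := -1) (b := 1)
    (F := fun (w : ℂ) (x : ℝ) => (g x : ℂ) * Complex.exp (w * x))
    (F' := fun (w : ℂ) (x : ℝ) => ((x * g x : ℝ) : ℂ) * Complex.exp (w * x))
    (x₀ := w₀) (s := Metric.ball w₀ 1) (bound := fun x => |x * g x| * Real.exp (‖w₀‖ + 1))
    (Metric.ball_mem_nhds _ one_pos) ?_ ?_ ?_ ?_ ?_ ?_).2
  · exact Filter.Eventually.of_forall fun w => (hc w).aestronglyMeasurable
  · exact (hc w₀).intervalIntegrable _ _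
  · exact (hc' w₀).aestronglyMeasurable
  · refine Filter.Eventually.of_forall fun x hx w hw => ?_
    rw [norm_mul, Complex.norm_real, Complex.norm_exp, Real.norm_eq_abs]
    apply mul_le_mul_of_nonneg_left _ (abs_nonneg _)
    apply Real.exp_le_exp.2
    rw [Set.uIoc_of_le (by norm_num)] at hx
    have h1 : |x| ≤ 1 := abs_le.2 ⟨hx.1.le, hx.2⟩
    have h2 : ‖w‖ ≤ ‖w₀‖ + 1 := by
      have h3 : ‖w - w₀‖ < 1 := by rwa [← dist_eq_norm]
      have h4 : ‖w‖ ≤ ‖w₀‖ + ‖w - w₀‖ := by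
        have := norm_add_le w₀ (w - w₀)
        rwa [add_sub_cancel] at this
      linarith
    calc (w * (x : ℂ)).re ≤ ‖w * (x : ℂ)‖ := Complex.re_le_norm _
      _ = ‖w‖ * |x| := by rw [norm_mul, Complex.norm_real, Real.norm_eq_abs]
      _ ≤ ‖w‖ * 1 := mul_le_mul_of_nonneg_left h1 (norm_nonneg _)
      _ ≤ _ := by linarith
  · apply Continuous.intervalIntegrable
    fun_prop
  · refine Filter.Eventually.of_forall fun x _ w _ => ?_
    have h1 : HasDerivAt (fun w : ℂ => w * (x : ℂ)) (x : ℂ) w := by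
      simpa using (hasDerivAt_id w).mul_const (x : ℂ)
    refine (h1.cexp.const_mul (g x : ℂ)).congr_deriv ?_
    push_cast
    ring

private theorem G1_psi_cont : Continuous psi := by
  unfold psi
  fun_prop

private theorem G1_psi_zero (x : ℝ) (h : 1 ≤ |x|) : psi x = 0 := by
  unfold psi
  exact max_eq_left (by linarith)

private theorem G1_psi_le (x : ℝ) : |psi x| ≤ 1 := by
  unfold psi
  rw [abs_of_nonneg (le_max_left _ _)]
  exact max_le (by norm_num) (by linarith [abs_nonneg x])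

private theorem G1_Ps (w : ℂ) : HasDerivAt Ps (Ps1 w) w := G1_deriv psi G1_psi_cont w

private theorem G1_formula (w : ℂ) (hw : w ≠ 0) :
    Ps w = (Complex.exp w + Complex.exp (-w) - 2) / w ^ 2 := by
  have hexp : ∀ x : ℝ, HasDerivAt (fun x : ℝ => Complex.exp (w * x)) (Complex.exp (w * x) * w) x := by
    intro x
    have h1 : HasDerivAt (fun x : ℝ => w * (x : ℂ)) w x := by
      simpa using (Complex.ofRealCLM.hasDerivAt (x := x)).const_mul w
    exact h1.cexp
  have hx : ∀ x : ℝ, HasDerivAt (fun x : ℝ => (x : ℂ)) 1 x := fun x => Complex.ofRealCLM.hasDerivAt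
  have hpc : Continuous (fun x : ℝ => (psi x : ℂ) * Complex.exp (w * x)) := by
    have := G1_psi_cont
    fun_prop
  have hA : ∫ x in (-1 : ℝ)..0, (psi x : ℂ) * Complex.exp (w * x) = 1 / w - 1 / w ^ 2 + Complex.exp (-w) / w ^ 2 := by
    have h1 : ∀ x ∈ Set.uIcc (-1 : ℝ) 0, (psi x : ℂ) * Complex.exp (w * x) =
        (1 + (x : ℂ)) * Complex.exp (w * x) := by
      intro x hx
      rw [Set.uIcc_of_le (by norm_num)] at hx
      have : psi x = 1 + x := by
        unfold psi
        rw [abs_of_nonpos hx.2, max_eq_right (by linarith [hx.1])]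
        ring
      rw [this]
      push_cast
      ring
    rw [intervalIntegral.integral_congr h1]
    have h2 : ∀ x : ℝ, HasDerivAt (fun x : ℝ => (1 + (x : ℂ)) * Complex.exp (w * x) / w -
        Complex.exp (w * x) / w ^ 2) ((1 + (x : ℂ)) * Complex.exp (w * x)) x := by
      intro x
      have h3 := ((((hx x).const_add 1).mul (hexp x)).div_const w).sub ((hexp x).div_const (w ^ 2))
      refine h3.congr_deriv ?_
      field_simp
      ring
    rw [intervalIntegral.integral_eq_sub_of_hasDerivAt (fun x _ => h2 x)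
      (Continuous.intervalIntegrable (by fun_prop) _ _)]
    push_cast
    simp only [mul_zero, Complex.exp_zero, add_zero, mul_neg, mul_one]
    ring
  have hB : ∫ x in (0 : ℝ)..1, (psi x : ℂ) * Complex.exp (w * x) = Complex.exp w / w ^ 2 - 1 / w - 1 / w ^ 2 := by
    have h1 : ∀ x ∈ Set.uIcc (0 : ℝ) 1, (psi x : ℂ) * Complex.exp (w * x) =
        (1 - (x : ℂ)) * Complex.exp (w * x) := by
      intro x hx
      rw [Set.uIcc_of_le (by norm_num)] at hx
      have : psi x = 1 - x := by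
        unfold psi
        rw [abs_of_nonneg hx.1, max_eq_right (by linarith [hx.2])]
      rw [this]
      push_cast
      ring
    rw [intervalIntegral.integral_congr h1]
    have h2 : ∀ x : ℝ, HasDerivAt (fun x : ℝ => (1 - (x : ℂ)) * Complex.exp (w * x) / w +
        Complex.exp (w * x) / w ^ 2) ((1 - (x : ℂ)) * Complex.exp (w * x)) x := by
      intro x
      have h3 := ((((hx x).const_sub 1).mul (hexp x)).div_const w).add ((hexp x).div_const (w ^ 2))
      refine h3.congr_deriv ?_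
      field_simp
      ring
    rw [intervalIntegral.integral_eq_sub_of_hasDerivAt (fun x _ => h2 x)
      (Continuous.intervalIntegrable (by fun_prop) _ _)]
    push_cast
    simp only [mul_zero, Complex.exp_zero, sub_zero, mul_one]
    ring
  unfold Ps
  rw [← intervalIntegral.integral_add_adjacent_intervals (hpc.intervalIntegrable (-1) 0)
    (hpc.intervalIntegrable 0 1), hA, hB]
  ring

private theorem G1_formula1 (w : ℂ) (hw : w ≠ 0) :
    Ps1 w = (Complex.exp w - Complex.exp (-w)) / w ^ 2 - 2 * (Complex.exp w + Complex.exp (-w) - 2) / w ^ 3 := by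
  have h1 := G1_Ps w
  have h2 : HasDerivAt (fun w : ℂ => (Complex.exp w + Complex.exp (-w) - 2) / w ^ 2)
      ((Complex.exp w - Complex.exp (-w)) / w ^ 2 - 2 * (Complex.exp w + Complex.exp (-w) - 2) / w ^ 3) w := by
    have h3 : HasDerivAt (fun w : ℂ => Complex.exp w + Complex.exp (-w) - 2) (Complex.exp w - Complex.exp (-w)) w := by
      have h4 := ((Complex.hasDerivAt_exp w).add ((hasDerivAt_neg w).cexp)).sub_const 2
      refine h4.congr_deriv ?_
      ring
    have h5 := h3.div (hasDerivAt_pow 2 w) (pow_ne_zero 2 hw)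
    refine h5.congr_deriv ?_
    field_simp
    ring
  refine h1.unique (h2.congr_of_eventuallyEq ?_)
  filter_upwards [isOpen_ne.mem_nhds hw] with z hz
  exact G1_formula z hz

private theorem G1_small (g : ℝ → ℝ) (hg : ∀ x ∈ Set.Icc (-1 : ℝ) 1, |g x| ≤ 1) (w : ℂ) (hw : |w.re| ≤ 1) :
    ‖∫ x in (-1 : ℝ)..1, (g x : ℂ) * Complex.exp (w * x)‖ ≤ 6 := by
  have he := Real.exp_one_lt_d9
  have h1 : ‖∫ x in (-1 : ℝ)..1, (g x : ℂ) * Complex.exp (w * x)‖ ≤ 3 * |1 - (-1 : ℝ)| := by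
    apply intervalIntegral.norm_integral_le_of_norm_le_const
    intro x hx
    rw [Set.uIoc_of_le (by norm_num)] at hx
    rw [norm_mul, Complex.norm_real, Complex.norm_exp, Real.norm_eq_abs]
    have h2 : |x| ≤ 1 := abs_le.2 ⟨hx.1.le, hx.2⟩
    have h3 : Real.exp ((w * (x : ℂ)).re) ≤ 3 := by
      have h4 : (w * (x : ℂ)).re ≤ 1 := by
        have h5 : (w * (x : ℂ)).re = w.re * x := by simp
        rw [h5]
        calc w.re * x ≤ |w.re * x| := le_abs_self _
          _ = |w.re| * |x| := abs_mul _ _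
          _ ≤ 1 * 1 := mul_le_mul hw h2 (abs_nonneg _) zero_le_one
          _ = 1 := one_mul 1
      have h6 := Real.exp_le_exp.2 h4
      linarith
    calc |g x| * Real.exp ((w * (x : ℂ)).re) ≤ 1 * 3 :=
          mul_le_mul (hg x ⟨hx.1.le, hx.2⟩) h3 (Real.exp_pos _).le zero_le_one
      _ = 3 := one_mul 3
  have h2 : |1 - (-1 : ℝ)| = 2 := by norm_num
  rw [h2] at h1
  linarith

private theorem G1_inv (g : ℝ → ℝ) (hg : Continuous g) (hs : ∀ x, 1 ≤ |x| → g x = 0) (c B : ℝ)
    (hb : ∀ v : ℝ, ‖∫ x in (-1 : ℝ)..1, (g x : ℂ) * Complex.exp (((c : ℂ) + (v : ℂ) * Complex.I) * x)‖ ≤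
      B / (1 + v ^ 2)) (y : ℝ) :
    (g y : ℂ) = 1 / (2 * Real.pi : ℂ) * ∫ v : ℝ,
      (∫ x in (-1 : ℝ)..1, (g x : ℂ) * Complex.exp (((c : ℂ) + (v : ℂ) * Complex.I) * x)) *
        Complex.exp (-((c : ℂ) + (v : ℂ) * Complex.I) * y) := by
  obtain ⟨Φ, hΦ⟩ : ∃ Φ : ℝ → ℂ, Φ = fun v : ℝ => ∫ x in (-1 : ℝ)..1, (g x : ℂ) *
    Complex.exp (((c : ℂ) + (v : ℂ) * Complex.I) * x) := ⟨_, rfl⟩
  obtain ⟨f, hf⟩ : ∃ f : ℝ → ℂ, f = fun x : ℝ => (g x : ℂ) * Complex.exp ((c : ℂ) * x) := ⟨_, rfl⟩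
  have hfc : Continuous f := by
    rw [hf]
    fun_prop
  have hfs : HasCompactSupport f := by
    apply HasCompactSupport.intro (isCompact_Icc (a := (-1 : ℝ)) (b := 1))
    intro x hx
    have h1 : 1 ≤ |x| := by
      by_contra h2
      exact hx ⟨(abs_lt.1 (not_le.1 h2)).1.le, (abs_lt.1 (not_le.1 h2)).2.le⟩
    rw [hf]
    simp [hs x h1]
  have hfi : Integrable f := hfc.integrable_of_hasCompactSupport hfs
  have hΦc : Continuous Φ := by
    have h1 : Differentiable ℂ (fun w : ℂ => ∫ x in (-1 : ℝ)..1, (g x : ℂ) * Complex.exp (w * x)) :=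
      fun w => (G1_deriv g hg w).differentiableAt
    rw [hΦ]
    exact h1.continuous.comp (by fun_prop : Continuous fun v : ℝ => (c : ℂ) + (v : ℂ) * Complex.I)
  have hΦi : Integrable Φ := by
    have h1 : Integrable (fun v : ℝ => B * (1 + v ^ 2)⁻¹) := integrable_inv_one_add_sq.const_mul B
    refine h1.mono' hΦc.aestronglyMeasurable (Filter.Eventually.of_forall fun v => ?_)
    have h2 := hb v
    rw [div_eq_mul_inv] at h2
    rw [hΦ]
    exact h2
  have hF : ∀ ξ : ℝ, FourierTransform.fourier f ξ = Φ (-2 * Real.pi * ξ) := by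
    intro ξ
    rw [Real.fourier_real_eq_integral_exp_smul, hΦ]
    have h1 : ∀ x : ℝ, Complex.exp (↑(-2 * Real.pi * x * ξ) * Complex.I) • f x = (g x : ℂ) *
        Complex.exp (((c : ℂ) + ((-2 * Real.pi * ξ : ℝ) : ℂ) * Complex.I) * x) := by
      intro x
      rw [hf, smul_eq_mul]
      have h2 : ((c : ℂ) + ((-2 * Real.pi * ξ : ℝ) : ℂ) * Complex.I) * x =
          ↑(-2 * Real.pi * x * ξ) * Complex.I + (c : ℂ) * x := by
        push_cast
        ring
      rw [h2, Complex.exp_add]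
      ring
    simp only [h1]
    rw [intervalIntegral.integral_of_le (by norm_num)]
    refine (setIntegral_eq_integral_of_forall_compl_eq_zero ?_).symm
    intro x hx
    have h3 : 1 ≤ |x| := by
      by_contra h2
      exact hx ⟨(abs_lt.1 (not_le.1 h2)).1, (abs_lt.1 (not_le.1 h2)).2.le⟩
    rw [hs x h3]
    simp
  have hFi : Integrable (FourierTransform.fourier f) := by
    have h1 : FourierTransform.fourier f = fun ξ : ℝ => Φ (-2 * Real.pi * ξ) := funext hF
    rw [h1]
    exact hΦi.comp_mul_left' (by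
      have := Real.pi_pos
      intro h
      nlinarith)
  have hinv := hfi.fourierInv_fourier_eq hFi (hfc.continuousAt (x := y))
  rw [Real.fourierInv_eq_fourier_neg, Real.fourier_real_eq_integral_exp_smul] at hinv
  have h4 : ∀ ξ : ℝ, Complex.exp (↑(-2 * Real.pi * ξ * -y) * Complex.I) • FourierTransform.fourier f ξ =
      (fun v : ℝ => Φ v * Complex.exp (-((v : ℂ) * Complex.I) * y)) (-2 * Real.pi * ξ) := by
    intro ξ
    rw [hF, smul_eq_mul, mul_comm]
    congr 2
    push_cast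
    ring
  simp only [h4] at hinv
  rw [Measure.integral_comp_mul_left (fun v : ℝ => Φ v * Complex.exp (-((v : ℂ) * Complex.I) * y))
    (-2 * Real.pi)] at hinv
  have h5 : |(-2 * Real.pi)⁻¹| = 1 / (2 * Real.pi) := by
    have hp := Real.pi_pos
    rw [abs_inv, abs_of_neg (by linarith), one_div]
    congr 1
    ring
  rw [h5] at hinv
  have h6 : (g y : ℂ) = f y * Complex.exp (-((c : ℂ) * y)) := by
    rw [hf]
    simp only
    rw [mul_assoc, ← Complex.exp_add]
    simp
  rw [h6, ← hinv, Complex.real_smul, mul_assoc, ← MeasureTheory.integral_mul_const]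
  push_cast
  congr 1
  apply MeasureTheory.integral_congr_ae
  refine Filter.Eventually.of_forall fun v => ?_
  simp only
  rw [hΦ, mul_assoc, ← Complex.exp_add]
  congr 2
  ring

/-- Entire functions (`intervalIntegral` of an entire function of `w` with a continuous weight; `hasDerivAt_integral_of_dominated_loc_of_deriv_le`, or explicit formulas away from `0` and a power series). A way without parametric integrals: `Ps w = ∑ moments w^k/k!`. -/
theorem Ps_diff : Differentiable ℂ Ps ∧ Differentiable ℂ Ps1 :=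
  ⟨fun w => (G1_Ps w).differentiableAt,
    fun w => (G1_deriv (fun x => x * psi x) (continuous_id.mul G1_psi_cont) w).differentiableAt⟩

/-- **Decay.** For `|Re w| ≤ 1`.

Proof. `w ≠ 0`: `Ps w = (e^w + e^(-w) - 2)/w²` (integrate by parts twice on `[-1, 0]` and `[0, 1]`), `Ps1 w = (e^w - e^(-w))/w² - 2 (e^w + e^(-w) - 2)/w³` (its derivative, or by parts). For `|Im w| ≥ 1`: `|Ps| ≤ (2e + 2)/v² ≤ 8/v²`, `|Ps1| ≤ 6/v² + 16/v²`, and `1/v² ≤ 2/(1+v²)`. For `|Im w| ≤ 1`:
`|Ps|, |Ps1| ≤ ∫ psi e^(|x|) ≤ e ≤ 6/(1+v²)`. -/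
theorem Ps_bound (w : ℂ) (hw : |w.re| ≤ 1) : ‖Ps w‖ ≤ 60 / (1 + w.im ^ 2) ∧ ‖Ps1 w‖ ≤ 60 / (1 + w.im ^ 2) := by
  have hpos : 0 < 1 + w.im ^ 2 := by positivity
  rcases le_total |w.im| 1 with h | h
  · have h1 : w.im ^ 2 ≤ 1 := by
      rw [← sq_abs]
      exact pow_le_one₀ (abs_nonneg _) h
    have h2 : (6 : ℝ) ≤ 60 / (1 + w.im ^ 2) := by
      rw [le_div_iff₀ hpos]
      linarith
    have h3 := G1_small psi (fun x _ => G1_psi_le x) w hw
    have h4 := G1_small (fun x => x * psi x) (fun x hx => by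
      rw [abs_mul]
      have h5 : |x| ≤ 1 := abs_le.2 ⟨hx.1, hx.2⟩
      exact mul_le_one₀ h5 (abs_nonneg _) (G1_psi_le x)) w hw
    exact ⟨le_trans h3 h2, le_trans h4 h2⟩
  · have hw0 : w ≠ 0 := by
      intro h0
      rw [h0] at h
      simp at h
      linarith
    have he := Real.exp_one_lt_d9
    have hre := abs_le.1 hw
    have hE1 : ‖Complex.exp w‖ ≤ 3 := by
      rw [Complex.norm_exp]
      have := Real.exp_le_exp.2 hre.2
      linarith
    have hE2 : ‖Complex.exp (-w)‖ ≤ 3 := by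
      rw [Complex.norm_exp]
      have h1 : (-w).re ≤ 1 := by
        rw [Complex.neg_re]
        linarith
      have := Real.exp_le_exp.2 h1
      linarith
    have hn : |w.im| ≤ ‖w‖ := Complex.abs_im_le_norm w
    have hn1 : 1 ≤ ‖w‖ := h.trans hn
    have hn2 : w.im ^ 2 ≤ ‖w‖ ^ 2 := by
      rw [← sq_abs]
      exact pow_le_pow_left₀ (abs_nonneg _) hn 2
    have hn3 : 1 + w.im ^ 2 ≤ 2 * ‖w‖ ^ 2 := by
      have : 1 ≤ ‖w‖ ^ 2 := one_le_pow₀ hn1
      linarith
    have hS : ‖Complex.exp w + Complex.exp (-w) - 2‖ ≤ 8 := by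
      have h1 := norm_sub_le (Complex.exp w + Complex.exp (-w)) 2
      have h2 := norm_add_le (Complex.exp w) (Complex.exp (-w))
      have h3 : ‖(2 : ℂ)‖ = 2 := by norm_num
      linarith
    have hD : ‖Complex.exp w - Complex.exp (-w)‖ ≤ 6 := by
      have h2 := norm_sub_le (Complex.exp w) (Complex.exp (-w))
      linarith
    have hw2 : 0 < ‖w‖ ^ 2 := by positivity
    have hw3 : 0 < ‖w‖ ^ 3 := by positivity
    constructor
    · rw [G1_formula w hw0, norm_div, norm_pow, div_le_div_iff₀ hw2 hpos]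
      nlinarith [norm_nonneg (Complex.exp w + Complex.exp (-w) - 2)]
    · rw [G1_formula1 w hw0]
      have h1 : ‖(Complex.exp w - Complex.exp (-w)) / w ^ 2‖ ≤ 6 / ‖w‖ ^ 2 := by
        rw [norm_div, norm_pow]
        gcongr
      have h2 : ‖2 * (Complex.exp w + Complex.exp (-w) - 2) / w ^ 3‖ ≤ 16 / ‖w‖ ^ 2 := by
        rw [norm_div, norm_pow, norm_mul]
        have h3 : ‖(2 : ℂ)‖ = 2 := by norm_num
        rw [h3]
        have h4 : ‖w‖ ^ 2 ≤ ‖w‖ ^ 3 := pow_le_pow_right₀ hn1 (by norm_num)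
        have h5 : 2 * ‖Complex.exp w + Complex.exp (-w) - 2‖ ≤ 16 := by linarith
        exact div_le_div₀ (by norm_num) h5 hw2 h4
      have h3 := norm_sub_le ((Complex.exp w - Complex.exp (-w)) / w ^ 2)
        (2 * (Complex.exp w + Complex.exp (-w) - 2) / w ^ 3)
      have h4 : 6 / ‖w‖ ^ 2 + 16 / ‖w‖ ^ 2 ≤ 60 / (1 + w.im ^ 2) := by
        rw [← add_div, div_le_div_iff₀ hw2 hpos]
        nlinarith
      linarith

/-- **Inversion** on the line `Re w = c`, `|c| ≤ 1`.

Proof. `v ↦ Ps(c + iv) = ∫ psi(x) e^(cx) e^(ivx) dx` is the Fourier transform (up to `v = -2πξ`) of the continuous integrable function `psi(x) e^(cx)`, and it is integrable by `Ps_bound`; Fourier inversion (`MeasureTheory.Integrable.fourierInv_fourier_eq` / `Continuous.fourierInv_fourier_eq`), substitution `v = ∓2πξ`. -/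
theorem Ps_inv (c y : ℝ) (hc : |c| ≤ 1) :
    (psi y : ℂ) = 1 / (2 * Real.pi : ℂ) * ∫ v : ℝ, Ps ((c : ℂ) + (v : ℂ) * Complex.I) * Complex.exp (-((c : ℂ) + (v : ℂ) * Complex.I) * y) ∧
    ((y * psi y : ℝ) : ℂ) = 1 / (2 * Real.pi : ℂ) *
      ∫ v : ℝ, Ps1 ((c : ℂ) + (v : ℂ) * Complex.I) * Complex.exp (-((c : ℂ) + (v : ℂ) * Complex.I) * y) := by
  have hb : ∀ v : ℝ, ‖Ps ((c : ℂ) + (v : ℂ) * Complex.I)‖ ≤ 60 / (1 + v ^ 2) ∧
      ‖Ps1 ((c : ℂ) + (v : ℂ) * Complex.I)‖ ≤ 60 / (1 + v ^ 2) := by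
    intro v
    have h1 : ((c : ℂ) + (v : ℂ) * Complex.I).re = c := by simp
    have h2 : ((c : ℂ) + (v : ℂ) * Complex.I).im = v := by simp
    have h3 := Ps_bound ((c : ℂ) + (v : ℂ) * Complex.I) (by rw [h1]; exact hc)
    rwa [h2] at h3
  exact ⟨G1_inv psi G1_psi_cont G1_psi_zero c 60 (fun v => (hb v).1) y,
    G1_inv (fun x => x * psi x) (continuous_id.mul G1_psi_cont) (fun x hx => by rw [G1_psi_zero x hx, mul_zero])
      c 60 (fun v => (hb v).2) y⟩

end Pool.Agent.Lib.H31P
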