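import Pool.Agent.Lib.H31P.G1

/-!
# Chunk G2 (M): smooth factors as line integrals
-/

open Finset MeasureTheory

namespace Pool.Agent.Lib.H31P

/-- **Line integral at `Re w = 1`.** `g` is a function with `g y = (1/2π) ∫ Q(1+iv) e^(-(1+iv)y) dv`, `Q(1+iv) = O(1/(1+v²))`, and `g y = 0` for `|y| ≥ 1`; then
`∑_{1 ≤ n ≤ e^(i+1)} g(log n - i) n^(-1-it) = (1/2π) ∫ Q(1+iv) e^((1+iv)i) ζ(2+i(t+v)) dv`.

Proof. `g(log n - i) = (1/2π) ∫ Q(1+iv) e^((1+iv)i) n^(-(1+iv)) dv`. The sum may be extended over all `n ≥ 1` (`g(log n - i) = 0` for `n > ⌊e^(i+1)⌋`). Sum and integral may be interchanged (`integral_tsum` or `hasSum_integral_of_summable_integral_norm`: `∑ n^(-2) ∫ |Q| < ∞`), and `∑ n^(-1-it) n^(-(1+iv)) = ζ(2 + i(t+v))`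
(`zeta_eq_tsum_one_div_nat_cpow`). -/
theorem line_one (g : ℝ → ℝ) (Q : ℂ → ℂ) (B : ℝ) (hQc : Continuous Q)
    (hQ : ∀ v : ℝ, ‖Q ((1 : ℂ) + (v : ℂ) * Complex.I)‖ ≤ B / (1 + v ^ 2)) (hg0 : ∀ y : ℝ, 1 ≤ |y| → g y = 0)
    (hg : ∀ y : ℝ, (g y : ℂ) = 1 / (2 * Real.pi : ℂ) *
      ∫ v : ℝ, Q ((1 : ℂ) + (v : ℂ) * Complex.I) * Complex.exp (-((1 : ℂ) + (v : ℂ) * Complex.I) * y)) (i : ℕ) (t : ℝ) :
    ∑ n ∈ Icc 1 ⌊Real.exp ((i : ℝ) + 1)⌋₊, (g (Real.log n - i) : ℂ) * (n : ℂ) ^ (-(1 + (t : ℂ) * Complex.I)) =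
      1 / (2 * Real.pi : ℂ) * ∫ v : ℝ, Q ((1 : ℂ) + (v : ℂ) * Complex.I) * Complex.exp (((1 : ℂ) + (v : ℂ) * Complex.I) * i) *
        riemannZeta (2 + ((t + v : ℝ) : ℂ) * Complex.I) := by
  classical
  set w : ℝ → ℂ := fun v => (1 : ℂ) + (v : ℂ) * Complex.I with hw
  set F : ℕ → ℝ → ℂ := fun n v => Q (w v) * Complex.exp (w v * i) *
    (1 / ((n : ℂ) + 1) ^ (2 + ((t + v : ℝ) : ℂ) * Complex.I)) with hF
  have hwc : Continuous w := by
    simp only [hw]
    fun_prop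
  have hpos : ∀ n : ℕ, (0 : ℝ) < (n : ℝ) + 1 := fun n => by positivity
  have hne : ∀ n : ℕ, ((n : ℂ) + 1) ≠ 0 := fun n => by exact_mod_cast Nat.succ_ne_zero n
  -- the norms
  have hnp : ∀ (n : ℕ) (v : ℝ), ‖((n : ℂ) + 1) ^ (2 + ((t + v : ℝ) : ℂ) * Complex.I)‖ = ((n : ℝ) + 1) ^ 2 := by
    intro n v
    have h1 : ((n : ℂ) + 1) = (((n : ℝ) + 1 : ℝ) : ℂ) := by push_cast; ring
    rw [h1, Complex.norm_cpow_eq_rpow_re_of_pos (hpos n)]
    have h2 : (2 + ((t + v : ℝ) : ℂ) * Complex.I).re = 2 := by simp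
    rw [h2]
    exact Real.rpow_two _
  have hexp : ∀ v : ℝ, ‖Complex.exp (w v * i)‖ = Real.exp i := by
    intro v
    rw [Complex.norm_exp]
    congr 1
    simp [hw]
  have hFn : ∀ (n : ℕ) (v : ℝ), ‖F n v‖ = ‖Q (w v)‖ * Real.exp i * (1 / ((n : ℝ) + 1) ^ 2) := by
    intro n v
    simp only [hF]
    rw [norm_mul, norm_mul, norm_div, hnp, hexp, norm_one]
  have hB : 0 ≤ B := by
    have h1 := hQ 0
    have h2 := norm_nonneg (Q ((1 : ℂ) + ((0 : ℝ) : ℂ) * Complex.I))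
    have h3 : (0 : ℝ) ≤ B / (1 + 0 ^ 2) := h2.trans h1
    simpa using h3
  have hQint : Integrable (fun v : ℝ => Q (w v)) := by
    refine (integrable_inv_one_add_sq.const_mul B).mono' ((hQc.comp hwc).aestronglyMeasurable) ?_
    refine Filter.Eventually.of_forall fun v => ?_
    have := hQ v
    simp only [hw]
    rw [div_eq_mul_inv] at this
    exact this
  have hFc : ∀ n, Continuous (F n) := by
    intro n
    have h1 : Continuous fun v : ℝ => ((n : ℂ) + 1) ^ (2 + ((t + v : ℝ) : ℂ) * Complex.I) := by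
      have h2 : Continuous fun v : ℝ => (2 + ((t + v : ℝ) : ℂ) * Complex.I) := by fun_prop
      exact h2.const_cpow (Or.inl (hne n))
    have h3 : Continuous fun v : ℝ => (1 : ℂ) / ((n : ℂ) + 1) ^ (2 + ((t + v : ℝ) : ℂ) * Complex.I) := by
      refine continuous_const.div h1 fun v h4 => ?_
      have h5 := hnp n v
      rw [h4, norm_zero] at h5
      have h6 := hpos n
      have h7 : (0 : ℝ) < ((n : ℝ) + 1) ^ 2 := by positivity
      linarith
    have h8 : Continuous fun v : ℝ => Complex.exp (w v * i) :=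
      Complex.continuous_exp.comp (hwc.mul continuous_const)
    exact ((hQc.comp hwc).mul h8).mul h3
  have hFint : ∀ n, Integrable (F n) := by
    intro n
    refine (hQint.norm.mul_const (Real.exp i * (1 / ((n : ℝ) + 1) ^ 2))).mono'
      (hFc n).aestronglyMeasurable ?_
    refine Filter.Eventually.of_forall fun v => ?_
    rw [hFn, mul_assoc]
  have hsum : Summable fun n => ∫ v, ‖F n v‖ := by
    have h1 : (fun n : ℕ => ∫ v, ‖F n v‖) =
        fun n : ℕ => ((∫ v, ‖Q (w v)‖) * Real.exp i) * (1 / ((n : ℝ) + 1) ^ 2) := by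
      funext n
      rw [← integral_mul_const, ← integral_mul_const]
      exact integral_congr_ae (Filter.Eventually.of_forall fun v => hFn n v)
    rw [h1]
    refine Summable.mul_left _ ?_
    have h2 := (summable_nat_add_iff 1).mpr (Real.summable_one_div_nat_pow.mpr (by norm_num : 1 < 2))
    refine h2.congr fun n => ?_
    push_cast
    rfl
  have hS := hasSum_integral_of_summable_integral_norm hFint hsum
  have hz : ∀ v : ℝ, ∑' n, F n v = Q (w v) * Complex.exp (w v * i) *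
      riemannZeta (2 + ((t + v : ℝ) : ℂ) * Complex.I) := by
    intro v
    have h1 : 1 < (2 + ((t + v : ℝ) : ℂ) * Complex.I).re := by simp
    rw [zeta_eq_tsum_one_div_nat_add_one_cpow h1, ← tsum_mul_left]
  -- the terms
  set a : ℕ → ℂ := fun n => (g (Real.log n - i) : ℂ) * (n : ℂ) ^ (-(1 + (t : ℂ) * Complex.I)) with ha
  have hterm : ∀ k : ℕ, a (k + 1) = 1 / (2 * Real.pi : ℂ) * ∫ v, F k v := by
    intro k
    simp only [ha]
    rw [hg, mul_assoc, ← integral_mul_const]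
    congr 1
    refine integral_congr_ae (Filter.Eventually.of_forall fun v => ?_)
    simp only [hF, hw]
    have h1 : (((k + 1 : ℕ) : ℂ)) = (k : ℂ) + 1 := by push_cast; ring
    have h2 : ((Real.log ((k + 1 : ℕ) : ℝ) : ℝ) : ℂ) = Complex.log ((k : ℂ) + 1) := by
      rw [← h1, ← Complex.natCast_log]
    rw [h1, Complex.cpow_def_of_ne_zero (hne k), Complex.cpow_def_of_ne_zero (hne k), one_div,
      ← Complex.exp_neg, Complex.ofReal_sub, h2, Complex.ofReal_natCast, mul_assoc, mul_assoc,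
      ← Complex.exp_add, ← Complex.exp_add]
    congr 2
    push_cast
    ring
  have hzero : ∀ k ∉ range ⌊Real.exp ((i : ℝ) + 1)⌋₊, a (k + 1) = 0 := by
    intro k hk
    rw [mem_range, not_lt] at hk
    have h1 : ⌊Real.exp ((i : ℝ) + 1)⌋₊ < k + 1 := by omega
    have h2 : Real.exp ((i : ℝ) + 1) < ((k + 1 : ℕ) : ℝ) := Nat.lt_of_floor_lt h1
    have h3 : (i : ℝ) + 1 < Real.log ((k + 1 : ℕ) : ℝ) := by
      rw [Real.lt_log_iff_exp_lt (by positivity)]
      exact h2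
    have h4 : g (Real.log ((k + 1 : ℕ) : ℝ) - i) = 0 := by
      refine hg0 _ ?_
      rw [abs_of_nonneg (by linarith)]
      linarith
    simp only [ha]
    rw [h4]
    simp
  have hfin : HasSum (fun k => a (k + 1)) (∑ k ∈ range ⌊Real.exp ((i : ℝ) + 1)⌋₊, a (k + 1)) :=
    hasSum_sum_of_ne_finset_zero hzero
  have hall : HasSum (fun k => a (k + 1)) (1 / (2 * Real.pi : ℂ) * ∫ v, ∑' n, F n v) := by
    have h1 := hS.mul_left (1 / (2 * Real.pi : ℂ))
    have h2 : (fun k => a (k + 1)) = fun k => 1 / (2 * Real.pi : ℂ) * ∫ v, F k v := by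
      funext k
      exact hterm k
    rw [h2]
    exact h1
  have hIcc : ∑ n ∈ Icc 1 ⌊Real.exp ((i : ℝ) + 1)⌋₊, a n =
      ∑ k ∈ range ⌊Real.exp ((i : ℝ) + 1)⌋₊, a (k + 1) := by
    symm
    refine sum_bij (fun k _ => k + 1) ?_ ?_ ?_ ?_
    · intro k hk
      rw [mem_range] at hk
      rw [mem_Icc]
      omega
    · intro x _ y _ hxy
      exact Nat.succ_injective hxy
    · intro b hb
      rw [mem_Icc] at hb
      refine ⟨b - 1, ?_, ?_⟩
      · rw [mem_range]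
        omega
      · omega
    · intro k _
      rfl
  have hfinal : ∑ n ∈ Icc 1 ⌊Real.exp ((i : ℝ) + 1)⌋₊, a n =
      1 / (2 * Real.pi : ℂ) * ∫ v, ∑' n, F n v := by
    rw [hIcc]
    exact hfin.unique hall
  rw [hfinal]
  congr 1
  refine integral_congr_ae (Filter.Eventually.of_forall fun v => ?_)
  exact hz v

end Pool.Agent.Lib.H31P
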