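import Pool.Agent.Lib.H31P.F1
import Pool.Agent.Lib.H31P.G2
import Pool.Agent.Lib.H31X.X2

/-!
# Chunk G3 (M): pointwise bound of the smooth factors by an average of zeta on the critical line
-/

open Finset MeasureTheory

namespace Pool.Agent.Lib.H31P

open Pool.Agent.Lib.H68T (gl2_Z)

theorem g3_sum (K : ℕ) : ∑ n ∈ Icc 1 K, ((n : ℝ)) ^ (-(1 / 2) : ℝ) ≤ 2 * Real.sqrt K := by
  induction K with
  | zero => simp
  | succ K ih =>
    rw [Finset.sum_Icc_succ_top (by omega)]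
    have h1 : (((K + 1 : ℕ) : ℝ)) ^ (-(1 / 2) : ℝ) = 1 / Real.sqrt ((K : ℝ) + 1) := by
      rw [Real.rpow_neg (by positivity), Real.sqrt_eq_rpow]
      push_cast
      exact (one_div _).symm
    rw [h1]
    have h2 : 0 < Real.sqrt ((K : ℝ) + 1) := Real.sqrt_pos.2 (by positivity)
    have h3 : Real.sqrt (K : ℝ) ≤ Real.sqrt ((K : ℝ) + 1) := Real.sqrt_le_sqrt (by linarith)
    have h4 : Real.sqrt ((K : ℝ) + 1) ^ 2 = (K : ℝ) + 1 := Real.sq_sqrt (by positivity)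
    have h5 : Real.sqrt (K : ℝ) ^ 2 = (K : ℝ) := Real.sq_sqrt (by positivity)
    have h6 : 1 / Real.sqrt ((K : ℝ) + 1) ≤ 2 * (Real.sqrt ((K : ℝ) + 1) - Real.sqrt K) := by
      rw [div_le_iff₀ h2]
      nlinarith [Real.sqrt_nonneg (K : ℝ)]
    push_cast
    linarith

/-- `‖ζ(1/2+iτ)‖ ≤ C (1+|τ|)^(1/2)`.

Proof. `|τ| ≤ 1`: continuity. `|τ| ≥ 1`: `H31X.zeta_partial` with `K = ⌊|τ|⌋₊`: `∑_{n ≤ K} n^(-1/2) ≤ 2√K`, `(K+1)^(1/2)/|τ| + 2 (1+|τ|)(K+1)^(-1/2)`. -/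
theorem zeta_half : ∃ C : ℝ, 1 ≤ C ∧ ∀ τ : ℝ, ‖riemannZeta (1 / 2 + (τ : ℂ) * Complex.I)‖ ≤ C * (1 + |τ|) ^ (1 / 2 : ℝ) := by
  refine ⟨8, by norm_num, fun τ => ?_⟩
  set s : ℂ := 1 / 2 + (τ : ℂ) * Complex.I with hs
  have hre : s.re = 1 / 2 := by simp [hs]
  have hs1 : s ≠ 1 := by
    intro h
    rw [h] at hre
    norm_num at hre
  set K : ℕ := ⌊|τ|⌋₊ with hK
  have hK1 : (K : ℝ) ≤ |τ| := Nat.floor_le (abs_nonneg τ)
  have hK2 : |τ| < (K : ℝ) + 1 := Nat.lt_floor_add_one _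
  have h0 := Pool.Agent.Lib.H31X.zeta_partial s K (by rw [hre]) hs1
  have hn1 : 1 / 2 ≤ ‖s - 1‖ := by
    have h1 := Complex.abs_re_le_norm (s - 1)
    rw [Complex.sub_re, hre, Complex.one_re] at h1
    have h2 : |(1 / 2 - 1 : ℝ)| = 1 / 2 := by norm_num [abs_of_nonpos]
    linarith
  have hn2 : ‖s‖ ≤ 1 / 2 + |τ| := by
    rw [hs]
    refine (norm_add_le _ _).trans ?_
    rw [norm_mul, Complex.norm_I, mul_one, Complex.norm_real, Real.norm_eq_abs]
    norm_num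
  have hsum : ‖∑ n ∈ Icc 1 K, (n : ℂ) ^ (-s)‖ ≤ 2 * Real.sqrt K := by
    refine (norm_sum_le _ _).trans (le_trans (le_of_eq ?_) (g3_sum K))
    refine sum_congr rfl fun n hn => ?_
    have hn1 : 0 < n := by
      rw [mem_Icc] at hn
      omega
    rw [Complex.norm_natCast_cpow_of_pos hn1, Complex.neg_re, hre]
  have ht : 0 ≤ |τ| := abs_nonneg τ
  have hr : (1 + |τ|) ^ (1 / 2 : ℝ) = Real.sqrt (1 + |τ|) := by rw [Real.sqrt_eq_rpow]
  rw [hr]
  have e1 : ((K : ℝ) + 1) ^ (1 - s.re) = Real.sqrt ((K : ℝ) + 1) := by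
    rw [hre, Real.sqrt_eq_rpow]
    norm_num
  have e2 : ((K : ℝ) + 1) ^ (-s.re) = 1 / Real.sqrt ((K : ℝ) + 1) := by
    rw [hre, Real.rpow_neg (by positivity), Real.sqrt_eq_rpow]
    exact (one_div _).symm
  rw [e1, e2] at h0
  set R := Real.sqrt (1 + |τ|) with hR
  set r := Real.sqrt ((K : ℝ) + 1) with hr
  have hR2 : R ^ 2 = 1 + |τ| := Real.sq_sqrt (by positivity)
  have hr2 : r ^ 2 = (K : ℝ) + 1 := Real.sq_sqrt (by positivity)
  have hR0 : 0 < R := Real.sqrt_pos.2 (by positivity)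
  have hr0 : 0 < r := Real.sqrt_pos.2 (by positivity)
  have hrR : r ≤ R := Real.sqrt_le_sqrt (by linarith)
  have hKR : Real.sqrt K ≤ R := Real.sqrt_le_sqrt (by linarith)
  have b1 : r / ‖s - 1‖ ≤ 2 * R := by
    rw [div_le_iff₀ (by linarith)]
    nlinarith
  have b2 : 2 * ‖s‖ * (1 / r) ≤ 4 * R := by
    rw [mul_one_div, div_le_iff₀ hr0]
    -- R^2 ≤ 2 r^2 , R ≤ 2 r
    have h1 : R ^ 2 ≤ 2 * r ^ 2 := by
      have : (1 : ℝ) ≤ (K : ℝ) + 1 := by
        have : (0 : ℝ) ≤ K := Nat.cast_nonneg K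
        linarith
      nlinarith
    have h2 : R ≤ 2 * r := by nlinarith
    nlinarith
  have h4 : ‖riemannZeta s‖ ≤ ‖riemannZeta s - ∑ n ∈ Icc 1 K, (n : ℂ) ^ (-s)‖ +
      ‖∑ n ∈ Icc 1 K, (n : ℂ) ^ (-s)‖ := by
    have := norm_add_le (riemannZeta s - ∑ n ∈ Icc 1 K, (n : ℂ) ^ (-s)) (∑ n ∈ Icc 1 K, (n : ℂ) ^ (-s))
    rwa [sub_add_cancel] at this
  linarith


theorem g3_zc (a t : ℝ) (ha : a ≠ 1) : Continuous fun v : ℝ => riemannZeta ((a : ℂ) + ((t + v : ℝ) : ℂ) * Complex.I) := by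
  rw [continuous_iff_continuousAt]
  intro v
  have h1 : ((a : ℂ) + ((t + v : ℝ) : ℂ) * Complex.I) ≠ 1 := by
    intro h
    have h2 := congrArg Complex.re h
    simp at h2
    exact ha h2
  have h3 : ContinuousAt riemannZeta ((a : ℂ) + ((t + v : ℝ) : ℂ) * Complex.I) :=
    (differentiableAt_riemannZeta h1).continuousAt
  have h4 : ContinuousAt (fun v : ℝ => ((a : ℂ) + ((t + v : ℝ) : ℂ) * Complex.I)) v := by
    fun_prop
  exact ContinuousAt.comp (g := riemannZeta) h3 h4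

theorem g3_int (t : ℝ) : Integrable fun v : ℝ => 1 / (1 + v ^ 2) * (1 + |t + v|) ^ (1 / 2 : ℝ) := by
  have h0 : Integrable fun v : ℝ => (2 * (1 + |t|)) * (1 + ‖v‖) ^ (-(3 / 2) : ℝ) := by
    refine (integrable_one_add_norm ?_).const_mul _
    simp
    norm_num
  refine h0.mono' ?_ ?_
  · refine Continuous.aestronglyMeasurable ?_
    refine Continuous.mul ?_ ?_
    · refine continuous_const.div (by fun_prop) fun v => ?_
      positivity
    · refine Continuous.rpow_const (by fun_prop) fun v => ?_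
      right
      norm_num
  · refine Filter.Eventually.of_forall fun v => ?_
    rw [Real.norm_eq_abs, abs_of_nonneg (by positivity), Real.norm_eq_abs]
    have hv : 0 ≤ |v| := abs_nonneg v
    have ht : 0 ≤ |t| := abs_nonneg t
    -- 1 + |t+v| ≤ (1+|t|)(1+|v|)
    have h1 : 1 + |t + v| ≤ (1 + |t|) * (1 + |v|) := by
      have := abs_add_le t v
      nlinarith
    have h2 : (1 + |t + v|) ^ (1 / 2 : ℝ) ≤ (1 + |t|) * (1 + |v|) ^ (1 / 2 : ℝ) := by
      refine (Real.rpow_le_rpow (by positivity) h1 (by norm_num)).trans ?_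
      rw [Real.mul_rpow (by positivity) (by positivity)]
      refine mul_le_mul_of_nonneg_right ?_ (by positivity)
      have h3 : (1 + |t|) ^ (1 / 2 : ℝ) ≤ (1 + |t|) ^ (1 : ℝ) :=
        Real.rpow_le_rpow_of_exponent_le (by linarith) (by norm_num)
      rwa [Real.rpow_one] at h3
    have h3 : 1 / (1 + v ^ 2) ≤ 2 * (1 + |v|) ^ (-2 : ℝ) := by
      rw [Real.rpow_neg (by positivity), Real.rpow_two, div_le_iff₀ (by positivity)]
      have h4 : (1 + |v|) ^ 2 ≤ 2 * (1 + v ^ 2) := by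
        have : |v| ^ 2 = v ^ 2 := sq_abs v
        nlinarith [sq_nonneg (1 - |v|)]
      have h5 : 0 < (1 + |v|) ^ 2 := by positivity
      have h6 : 2 * ((1 + |v|) ^ 2)⁻¹ * (1 + v ^ 2) = (2 * (1 + v ^ 2)) / (1 + |v|) ^ 2 := by
        field_simp
      rw [h6, le_div_iff₀ h5]
      linarith
    calc 1 / (1 + v ^ 2) * (1 + |t + v|) ^ (1 / 2 : ℝ)
        ≤ (2 * (1 + |v|) ^ (-2 : ℝ)) * ((1 + |t|) * (1 + |v|) ^ (1 / 2 : ℝ)) :=
          mul_le_mul h3 h2 (by positivity) (by positivity)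
      _ = (2 * (1 + |t|)) * ((1 + |v|) ^ (-2 : ℝ) * (1 + |v|) ^ (1 / 2 : ℝ)) := by ring
      _ = (2 * (1 + |t|)) * (1 + |v|) ^ (-(3 / 2) : ℝ) := by
          rw [← Real.rpow_add (by positivity)]
          norm_num

theorem g3_JJ_int (t : ℝ) : Integrable fun v : ℝ =>
    1 / (1 + v ^ 2) * ‖riemannZeta (1 / 2 + ((t + v : ℝ) : ℂ) * Complex.I)‖ := by
  obtain ⟨C, hC1, hC⟩ := zeta_half
  refine ((g3_int t).const_mul C).mono' ?_ ?_
  · refine Continuous.aestronglyMeasurable ?_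
    refine Continuous.mul ?_ ?_
    · refine continuous_const.div (by fun_prop) fun v => ?_
      positivity
    · have h1 := (g3_zc (1 / 2) t (by norm_num)).norm
      simpa using h1
  · refine Filter.Eventually.of_forall fun v => ?_
    rw [Real.norm_eq_abs, abs_of_nonneg (by positivity)]
    have h1 := hC (t + v)
    have h2 : 0 ≤ 1 / (1 + v ^ 2) := by positivity
    calc 1 / (1 + v ^ 2) * ‖riemannZeta (1 / 2 + ((t + v : ℝ) : ℂ) * Complex.I)‖
        ≤ 1 / (1 + v ^ 2) * (C * (1 + |t + v|) ^ (1 / 2 : ℝ)) := mul_le_mul_of_nonneg_left h1 h2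
      _ = C * (1 / (1 + v ^ 2) * (1 + |t + v|) ^ (1 / 2 : ℝ)) := by ring


theorem g3_exp (w : ℂ) (i : ℕ) : ‖Complex.exp (w * i)‖ = Real.exp (w.re * i) := by
  rw [Complex.norm_exp]
  congr 1
  simp

/-- **Shift to the critical line.** `Q` entire, `‖Q w‖ ≤ B/(1+(Im w)²)` for `|Re w| ≤ 1`.

Proof. `F(w) = Q(w) e^(wi) gl2_Z(1+it+w)` is entire and bounded in `-1/2 ≤ Re w ≤ 1` (`gl2_Z_bound`: `≤ 4(|t+v|+3)²`); `ζ(1+it+w) = gl2_Z(1+it+w)/(w+it)`. `strip_shift` with `a = -1/2`, `b = 1`, `w₀ = -it`: `(1/2π) ∫_{Re w = 1} = F(-it) + (1/2π) ∫_{Re w = -1/2}`, `F(-it) = Q(-it) e^(-iti) gl2_Z(1)`, `gl2_Z_one`.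
Integrability on `Re w = -1/2`: `zeta_half`, `(1+|t+v|)^(1/2)/(1+v²)`; on `Re w = 1`: `ζ` is bounded. `|e^(wi)| = e^(-i/2)` on `Re w = -1/2`. -/
theorem shift_half (Q : ℂ → ℂ) (B : ℝ) (hQd : Differentiable ℂ Q) (hB : 0 ≤ B)
    (hQ : ∀ w : ℂ, |w.re| ≤ 1 → ‖Q w‖ ≤ B / (1 + w.im ^ 2)) (i : ℕ) (t : ℝ) :
    ‖1 / (2 * Real.pi : ℂ) * ∫ v : ℝ, Q ((1 : ℂ) + (v : ℂ) * Complex.I) * Complex.exp (((1 : ℂ) + (v : ℂ) * Complex.I) * i) *
        riemannZeta (2 + ((t + v : ℝ) : ℂ) * Complex.I)‖ ≤ B / (1 + t ^ 2) + B * Real.exp (-((i : ℝ) / 2)) * JJ t := by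
  set F : ℂ → ℂ := fun w => Q w * Complex.exp (w * i) * gl2_Z (1 + (t : ℂ) * Complex.I + w) with hF
  set w₀ : ℂ := -((t : ℂ) * Complex.I) with hw₀
  have hFd : Differentiable ℂ F := by
    have h1 : Differentiable ℂ fun w : ℂ => gl2_Z (1 + (t : ℂ) * Complex.I + w) :=
      Pool.Agent.Lib.H68T.gl2_Z_differentiable.comp (by fun_prop)
    have h2 : Differentiable ℂ fun w : ℂ => Complex.exp (w * i) := by fun_prop
    exact (hQd.mul h2).mul h1
  have hM : ∀ w : ℂ, ((-(1 / 2) : ℝ)) ≤ w.re → w.re ≤ (1 : ℝ) → ‖F w‖ ≤ B * Real.exp i * (8 * (|t| + 3) ^ 2) := by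
    intro w h1 h2
    simp only [hF]
    rw [norm_mul, norm_mul, g3_exp]
    have hq := hQ w (abs_le.2 ⟨by linarith, h2⟩)
    have he : Real.exp (w.re * i) ≤ Real.exp i := by
      refine Real.exp_le_exp.2 ?_
      have : (0 : ℝ) ≤ i := Nat.cast_nonneg i
      nlinarith
    have hz := Pool.Agent.Lib.H68T.gl2_Z_bound (1 + (t : ℂ) * Complex.I + w)
      (by simp; linarith) (by simp; linarith)
    have him : (1 + (t : ℂ) * Complex.I + w).im = t + w.im := by simp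
    rw [him] at hz
    have h3 : |t + w.im| ≤ |t| + |w.im| := abs_add_le _ _
    have h4 : (|t + w.im| + 3) ^ 2 ≤ 2 * (|t| + 3) ^ 2 * (1 + w.im ^ 2) := by
      have e1 : |w.im| ^ 2 = w.im ^ 2 := sq_abs _
      have e2 : 0 ≤ |t| := abs_nonneg t
      have e3 : 0 ≤ |w.im| := abs_nonneg _
      have e4 : 0 ≤ |t + w.im| := abs_nonneg _
      have e5 : (|t + w.im| + 3) ^ 2 ≤ (|t| + |w.im| + 3) ^ 2 := by
        apply pow_le_pow_left₀ (by positivity)
        linarith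
      have e6 : (|t| + |w.im| + 3) ^ 2 ≤ 2 * (|t| + 3) ^ 2 + 2 * |w.im| ^ 2 := by
        nlinarith [sq_nonneg (|t| + 3 - |w.im|)]
      have e7 : 1 ≤ (|t| + 3) ^ 2 := by nlinarith
      rw [e1] at e6
      nlinarith [sq_nonneg w.im]
    have hpos : (0 : ℝ) < 1 + w.im ^ 2 := by positivity
    calc ‖Q w‖ * Real.exp (w.re * i) * ‖gl2_Z (1 + (t : ℂ) * Complex.I + w)‖
        ≤ (B / (1 + w.im ^ 2)) * Real.exp i * (4 * (2 * (|t| + 3) ^ 2 * (1 + w.im ^ 2))) := by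
          refine mul_le_mul (mul_le_mul hq he (by positivity) (by positivity)) ?_ (by positivity) (by positivity)
          linarith
      _ = B * Real.exp i * (8 * (|t| + 3) ^ 2) := by
          field_simp
          ring
  -- the two lines
  have hne : ∀ (a v : ℝ), a ≠ 0 → ((a : ℂ) + (v : ℂ) * Complex.I - w₀) ≠ 0 := by
    intro a v ha h
    have h2 := congrArg Complex.re h
    simp [hw₀] at h2
    exact ha h2
  have hline : ∀ (a v : ℝ), a ≠ 0 → F ((a : ℂ) + (v : ℂ) * Complex.I) / ((a : ℂ) + (v : ℂ) * Complex.I - w₀) =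
      Q ((a : ℂ) + (v : ℂ) * Complex.I) * Complex.exp (((a : ℂ) + (v : ℂ) * Complex.I) * i) *
        riemannZeta (((1 + a : ℝ) : ℂ) + ((t + v : ℝ) : ℂ) * Complex.I) := by
    intro a v ha
    have e1 : (1 + (t : ℂ) * Complex.I + ((a : ℂ) + (v : ℂ) * Complex.I)) =
        ((1 + a : ℝ) : ℂ) + ((t + v : ℝ) : ℂ) * Complex.I := by
      push_cast
      ring
    have e2 : ((1 + a : ℝ) : ℂ) + ((t + v : ℝ) : ℂ) * Complex.I ≠ 1 := by
      intro h
      have h2 := congrArg Complex.re h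
      simp at h2
      exact ha h2
    simp only [hF]
    rw [e1, Pool.Agent.Lib.H68T.gl2_Z_eq _ e2]
    have e3 : ((1 + a : ℝ) : ℂ) + ((t + v : ℝ) : ℂ) * Complex.I - 1 = (a : ℂ) + (v : ℂ) * Complex.I - w₀ := by
      rw [hw₀]
      push_cast
      ring
    rw [e3]
    have e4 := hne a v ha
    field_simp
  have hcont : ∀ a : ℝ, a ≠ 0 → Continuous fun v : ℝ =>
      F ((a : ℂ) + (v : ℂ) * Complex.I) / ((a : ℂ) + (v : ℂ) * Complex.I - w₀) := by
    intro a ha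
    refine Continuous.div (hFd.continuous.comp (by fun_prop)) (by fun_prop) fun v => hne a v ha
  have hhalf : (((-(1 / 2) : ℝ)) : ℂ) = -(1 / 2) := by push_cast; ring
  have hnl : ∀ v : ℝ, ‖F (((-(1 / 2) : ℝ) : ℂ) + (v : ℂ) * Complex.I) / (((-(1 / 2) : ℝ) : ℂ) + (v : ℂ) * Complex.I - w₀)‖ ≤
      (B * Real.exp (-((i : ℝ) / 2))) * (1 / (1 + v ^ 2) * ‖riemannZeta (1 / 2 + ((t + v : ℝ) : ℂ) * Complex.I)‖) := by
    intro v
    rw [hline _ v (by norm_num)]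
    rw [norm_mul, norm_mul, g3_exp]
    have e1 : (((-(1 / 2) : ℝ) : ℂ) + (v : ℂ) * Complex.I).re = -(1 / 2) := by simp
    have e2 : (((-(1 / 2) : ℝ) : ℂ) + (v : ℂ) * Complex.I).im = v := by simp
    have hq := hQ (((-(1 / 2) : ℝ) : ℂ) + (v : ℂ) * Complex.I) (by rw [e1, abs_le]; constructor <;> norm_num)
    rw [e2] at hq
    rw [e1]
    have e3 : (((1 + -(1 / 2) : ℝ)) : ℂ) = 1 / 2 := by push_cast; norm_num
    rw [e3]
    have e4 : Real.exp (-(1 / 2) * (i : ℝ)) = Real.exp (-((i : ℝ) / 2)) := by congr 1; ring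
    rw [e4]
    calc ‖Q (((-(1 / 2) : ℝ) : ℂ) + (v : ℂ) * Complex.I)‖ * Real.exp (-((i : ℝ) / 2)) *
          ‖riemannZeta (1 / 2 + ((t + v : ℝ) : ℂ) * Complex.I)‖
        ≤ (B / (1 + v ^ 2)) * Real.exp (-((i : ℝ) / 2)) *
          ‖riemannZeta (1 / 2 + ((t + v : ℝ) : ℂ) * Complex.I)‖ :=
          mul_le_mul_of_nonneg_right (mul_le_mul_of_nonneg_right hq (by positivity)) (norm_nonneg _)
      _ = _ := by ring
  have hia : Integrable (fun v : ℝ => F (((-(1 / 2) : ℝ) : ℂ) + (v : ℂ) * Complex.I) /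
      (((-(1 / 2) : ℝ) : ℂ) + (v : ℂ) * Complex.I - w₀)) := by
    refine ((g3_JJ_int t).const_mul (B * Real.exp (-((i : ℝ) / 2)))).mono'
      (hcont _ (by norm_num)).aestronglyMeasurable (Filter.Eventually.of_forall hnl)
  have hib : Integrable (fun v : ℝ => F (((1 : ℝ) : ℂ) + (v : ℂ) * Complex.I) /
      (((1 : ℝ) : ℂ) + (v : ℂ) * Complex.I - w₀)) := by
    refine ((integrable_inv_one_add_sq).const_mul (B * Real.exp i * 2)).mono'
      (hcont _ (by norm_num)).aestronglyMeasurable (Filter.Eventually.of_forall fun v => ?_)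
    rw [hline _ v (by norm_num), norm_mul, norm_mul, g3_exp]
    have e1 : (((1 : ℝ) : ℂ) + (v : ℂ) * Complex.I).re = 1 := by simp
    have e2 : (((1 : ℝ) : ℂ) + (v : ℂ) * Complex.I).im = v := by simp
    have hq := hQ (((1 : ℝ) : ℂ) + (v : ℂ) * Complex.I) (by rw [e1, abs_le]; constructor <;> norm_num)
    rw [e2] at hq
    rw [e1, one_mul]
    have hz : ‖riemannZeta (((1 + 1 : ℝ) : ℂ) + ((t + v : ℝ) : ℂ) * Complex.I)‖ ≤ 2 := by
      set z : ℂ := ((1 + 1 : ℝ) : ℂ) + ((t + v : ℝ) : ℂ) * Complex.I with hz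
      have hzr : z.re = 2 := by simp [hz]; norm_num
      have hz1 : 1 < z.re := by rw [hzr]; norm_num
      rw [zeta_eq_tsum_one_div_nat_add_one_cpow hz1]
      have hn : ∀ n : ℕ, ‖1 / ((n : ℂ) + 1) ^ z‖ = 1 / ((n : ℝ) + 1) ^ 2 := by
        intro n
        have h1 : ((n : ℂ) + 1) = (((n : ℝ) + 1 : ℝ) : ℂ) := by push_cast; ring
        rw [norm_div, norm_one, h1, Complex.norm_cpow_eq_rpow_re_of_pos (by positivity), hzr, Real.rpow_two]
      have hs : Summable fun n : ℕ => 1 / ((n : ℝ) + 1) ^ 2 := by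
        have h2 := (summable_nat_add_iff 1).mpr (Real.summable_one_div_nat_pow.mpr (by norm_num : 1 < 2))
        refine h2.congr fun n => ?_
        push_cast
        rfl
      have hs' : Summable fun n : ℕ => ‖1 / ((n : ℂ) + 1) ^ z‖ := hs.congr fun n => (hn n).symm
      refine (norm_tsum_le_tsum_norm hs').trans ?_
      rw [tsum_congr hn]
      refine Real.tsum_le_of_sum_range_le (fun n => by positivity) fun N => ?_
      have h3 : ∀ N : ℕ, ∑ n ∈ range N, 1 / ((n : ℝ) + 1) ^ 2 ≤ 2 - 1 / (N : ℝ) := by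
        intro N
        induction N with
        | zero => norm_num
        | succ N ih =>
          rw [sum_range_succ]
          rcases Nat.eq_zero_or_pos N with h0 | h0
          · subst h0
            norm_num
          · have h4 : (0 : ℝ) < N := Nat.cast_pos.2 h0
            have h5 : 1 / ((N : ℝ) + 1) ^ 2 ≤ 1 / (N : ℝ) - 1 / ((N : ℝ) + 1) := by
              rw [div_sub_div _ _ h4.ne' (by positivity), div_le_div_iff₀ (by positivity) (by positivity)]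
              nlinarith
            push_cast
            linarith
      have := h3 N
      have h5 : 0 ≤ 1 / (N : ℝ) := by positivity
      linarith
    calc ‖Q (((1 : ℝ) : ℂ) + (v : ℂ) * Complex.I)‖ * Real.exp (i : ℝ) *
          ‖riemannZeta (((1 + 1 : ℝ) : ℂ) + ((t + v : ℝ) : ℂ) * Complex.I)‖
        ≤ (B / (1 + v ^ 2)) * Real.exp (i : ℝ) * 2 :=
          mul_le_mul (mul_le_mul_of_nonneg_right hq (by positivity)) hz (norm_nonneg _) (by positivity)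
      _ = B * Real.exp (i : ℝ) * 2 * (1 + v ^ 2)⁻¹ := by
          rw [div_eq_mul_inv]
          ring
  have key := strip_shift (-(1 / 2)) 1 (-1) 2 (by norm_num) (by norm_num) (by norm_num) w₀
    (by simp [hw₀]) (by simp [hw₀]) F hFd.differentiableOn _ hM hia hib
  have hF0 : ‖F w₀‖ ≤ B / (1 + t ^ 2) := by
    simp only [hF]
    have e1 : (1 + (t : ℂ) * Complex.I + w₀) = 1 := by rw [hw₀]; ring
    rw [e1, Pool.Agent.Lib.H68T.gl2_Z_one, mul_one, norm_mul, g3_exp]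
    have e2 : w₀.re = 0 := by simp [hw₀]
    have e3 : w₀.im = -t := by simp [hw₀]
    have hq := hQ w₀ (by rw [e2]; norm_num)
    rw [e3, neg_sq] at hq
    rw [e2, zero_mul, Real.exp_zero, mul_one]
    exact hq
  have hI1 : (∫ v : ℝ, Q ((1 : ℂ) + (v : ℂ) * Complex.I) * Complex.exp (((1 : ℂ) + (v : ℂ) * Complex.I) * i) *
        riemannZeta (2 + ((t + v : ℝ) : ℂ) * Complex.I)) =
      ∫ v : ℝ, F (((1 : ℝ) : ℂ) + (v : ℂ) * Complex.I) / (((1 : ℝ) : ℂ) + (v : ℂ) * Complex.I - w₀) := by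
    refine integral_congr_ae (Filter.Eventually.of_forall fun v => ?_)
    have h1 := hline 1 v (by norm_num)
    have e3 : (((1 + 1 : ℝ)) : ℂ) = 2 := by push_cast; norm_num
    rw [e3] at h1
    simp only [Complex.ofReal_one] at h1 ⊢
    exact h1.symm
  have hJ : ‖∫ v : ℝ, F (((-(1 / 2) : ℝ) : ℂ) + (v : ℂ) * Complex.I) / (((-(1 / 2) : ℝ) : ℂ) + (v : ℂ) * Complex.I - w₀)‖ ≤
      B * Real.exp (-((i : ℝ) / 2)) * JJ t := by
    refine (norm_integral_le_of_norm_le ((g3_JJ_int t).const_mul (B * Real.exp (-((i : ℝ) / 2))))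
      (Filter.Eventually.of_forall hnl)).trans (le_of_eq ?_)
    rw [integral_const_mul]
    rfl
  have hJJ : 0 ≤ B * Real.exp (-((i : ℝ) / 2)) * JJ t := le_trans (norm_nonneg _) hJ
  rw [hI1]
  have e5 : (∫ v : ℝ, F (((1 : ℝ) : ℂ) + (v : ℂ) * Complex.I) / (((1 : ℝ) : ℂ) + (v : ℂ) * Complex.I - w₀)) =
      (∫ v : ℝ, F (((-(1 / 2) : ℝ) : ℂ) + (v : ℂ) * Complex.I) / (((-(1 / 2) : ℝ) : ℂ) + (v : ℂ) * Complex.I - w₀)) +
        2 * Real.pi * F w₀ := by
    rw [← key]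
    ring
  rw [e5, mul_add]
  have hpi : (2 * Real.pi : ℂ) ≠ 0 := by
    exact_mod_cast (by positivity : (2 * Real.pi : ℝ) ≠ 0)
  have e6 : 1 / (2 * Real.pi : ℂ) * (2 * Real.pi * F w₀) = F w₀ := by
    field_simp
  rw [e6]
  refine (norm_add_le _ _).trans ?_
  rw [norm_mul]
  have e7 : ‖1 / (2 * Real.pi : ℂ)‖ ≤ 1 := by
    rw [norm_div, norm_one, norm_mul, Complex.norm_real, Real.norm_eq_abs, abs_of_pos Real.pi_pos,
      div_le_one (by norm_num; positivity)]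
    have := Real.pi_gt_three
    norm_num
    linarith
  have e8 := mul_le_mul e7 hJ (norm_nonneg _) (by norm_num)
  linarith

/-- **Pointwise bound.** `fS i n = psi (log n - i)`, `fL i n = i psi (log n - i) + (log n - i) psi (log n - i)` for `n ≥ 1`: `line_one` and `shift_half` for `Ps`, `Ps1` (`B = 60`; `Ps_inv` with `c = 1`, `Ps_bound`, `Ps_diff`). -/
theorem smooth_pt (i : ℕ) (t : ℝ) :
    ‖Di (fS i) i t‖ ≤ 60 * (1 / (1 + t ^ 2) + Real.exp (-((i : ℝ) / 2)) * JJ t) ∧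
    ‖Di (fL i) i t‖ ≤ 60 * ((i : ℝ) + 1) * (1 / (1 + t ^ 2) + Real.exp (-((i : ℝ) / 2)) * JJ t) := by
  have h1 := Ps_diff
  have hps0 : ∀ y : ℝ, 1 ≤ |y| → psi y = 0 := by
    intro y hy
    rw [psi, max_eq_left]
    linarith
  -- `psi`
  have hA : ‖∑ n ∈ Icc 1 ⌊Real.exp ((i : ℝ) + 1)⌋₊, (psi (Real.log n - i) : ℂ) * (n : ℂ) ^ (-(1 + (t : ℂ) * Complex.I))‖ ≤
      60 / (1 + t ^ 2) + 60 * Real.exp (-((i : ℝ) / 2)) * JJ t := by
    rw [line_one psi Ps 60 h1.1.continuous (fun v => by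
      have := (Ps_bound ((1 : ℂ) + (v : ℂ) * Complex.I) (by simp)).1
      simpa using this) hps0 (fun y => by
      have := (Ps_inv 1 y (by norm_num)).1
      simpa using this) i t]
    exact shift_half Ps 60 h1.1 (by norm_num) (fun w hw => (Ps_bound w hw).1) i t
  have hB : ‖∑ n ∈ Icc 1 ⌊Real.exp ((i : ℝ) + 1)⌋₊, (((Real.log n - i) * psi (Real.log n - i) : ℝ) : ℂ) *
      (n : ℂ) ^ (-(1 + (t : ℂ) * Complex.I))‖ ≤
      60 / (1 + t ^ 2) + 60 * Real.exp (-((i : ℝ) / 2)) * JJ t := by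
    rw [line_one (fun y => y * psi y) Ps1 60 h1.2.continuous (fun v => by
      have := (Ps_bound ((1 : ℂ) + (v : ℂ) * Complex.I) (by simp)).2
      simpa using this) (fun y hy => by rw [hps0 y hy, mul_zero]) (fun y => by
      have := (Ps_inv 1 y (by norm_num)).2
      simpa using this) i t]
    exact shift_half Ps1 60 h1.2 (by norm_num) (fun w hw => (Ps_bound w hw).2) i t
  have hS : Di (fS i) i t = ∑ n ∈ Icc 1 ⌊Real.exp ((i : ℝ) + 1)⌋₊, (psi (Real.log n - i) : ℂ) *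
      (n : ℂ) ^ (-(1 + (t : ℂ) * Complex.I)) := by
    rw [Di, Pool.Agent.Lib.H31W.DD]
    refine sum_congr rfl fun n hn => ?_
    rw [mem_Icc] at hn
    rw [fS, if_neg (by omega)]
  have hL : Di (fL i) i t = (i : ℂ) * (∑ n ∈ Icc 1 ⌊Real.exp ((i : ℝ) + 1)⌋₊, (psi (Real.log n - i) : ℂ) *
      (n : ℂ) ^ (-(1 + (t : ℂ) * Complex.I))) +
      ∑ n ∈ Icc 1 ⌊Real.exp ((i : ℝ) + 1)⌋₊, (((Real.log n - i) * psi (Real.log n - i) : ℝ) : ℂ) *
      (n : ℂ) ^ (-(1 + (t : ℂ) * Complex.I)) := by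
    rw [Di, Pool.Agent.Lib.H31W.DD, mul_sum, ← sum_add_distrib]
    refine sum_congr rfl fun n hn => ?_
    rw [mem_Icc] at hn
    rw [fL, fS, if_neg (by omega)]
    push_cast
    ring
  constructor
  · rw [hS]
    refine hA.trans (le_of_eq ?_)
    ring
  · rw [hL]
    refine (norm_add_le _ _).trans ?_
    rw [norm_mul, Complex.norm_natCast]
    have hi : (0 : ℝ) ≤ i := Nat.cast_nonneg i
    have h2 := mul_le_mul_of_nonneg_left hA hi
    calc _ ≤ (i : ℝ) * (60 / (1 + t ^ 2) + 60 * Real.exp (-((i : ℝ) / 2)) * JJ t) +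
          (60 / (1 + t ^ 2) + 60 * Real.exp (-((i : ℝ) / 2)) * JJ t) := add_le_add h2 hB
      _ = _ := by ring

end Pool.Agent.Lib.H31P
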