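import Pool.Agent.Lib.H31P.Top
import Pool.Agent.Lib.H31W.P3

/-!
# Chunk L1 (M): mean square of short averages
-/

open Finset MeasureTheory

namespace Pool.Agent.Lib.H31P

open Pool.Agent.Lib.H31W

private theorem L1_exp (η : ℝ) (hη : 0 < η) (hη1 : η ≤ 1) : Real.exp η - 1 ≤ 2 * η := by
  have h := Real.abs_exp_sub_one_sub_id_le (x := η) (by rw [abs_of_pos hη]; exact hη1)
  have h1 := (abs_le.1 h).2
  nlinarith

private theorem L1_mem {n : ℕ} (hn : 0 < n) {η u : ℝ} :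
    n ∈ Ioc ⌊Real.exp u⌋₊ ⌊Real.exp (u + η)⌋₊ ↔ u ∈ Set.Ico (Real.log n - η) (Real.log n) := by
  have hn' : (0 : ℝ) < n := by exact_mod_cast hn
  rw [Finset.mem_Ioc, Nat.floor_lt (Real.exp_pos u).le, Nat.le_floor_iff (Real.exp_pos _).le,
    Set.mem_Ico, Real.lt_log_iff_exp_lt hn', sub_le_iff_le_add, Real.log_le_iff_le_exp hn']
  exact and_comm

private theorem L1_point (f : ℕ → ℝ) (N : ℕ) (η : ℝ) (hη : 0 < η) (hη1 : η ≤ 1)
    (hf : ∀ n, N < n → f n = 0) (u : ℝ) :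
    (av f η u) ^ 2 ≤ ∑ n ∈ Icc 1 N,
      (if n ∈ Ioc ⌊Real.exp u⌋₊ ⌊Real.exp (u + η)⌋₊ then
        1 / η ^ 2 * (2 * η * n + 1) * (f n / n) ^ 2 else 0) := by
  classical
  obtain ⟨I, hI⟩ : ∃ I, I = Ioc ⌊Real.exp u⌋₊ ⌊Real.exp (u + η)⌋₊ := ⟨_, rfl⟩
  obtain ⟨J, hJ⟩ : ∃ J, J = Icc 1 N := ⟨_, rfl⟩
  have hsum : ∑ n ∈ I, f n / n = ∑ n ∈ J.filter (fun n => n ∈ I), f n / n := by
    symm
    refine Finset.sum_subset (fun n hn => (Finset.mem_filter.1 hn).2) fun n hn hn' => ?_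
    by_cases h0 : f n = 0
    · rw [h0, zero_div]
    · exfalso
      refine hn' (Finset.mem_filter.2 ⟨?_, hn⟩)
      rw [hJ, Finset.mem_Icc]
      rw [hI, Finset.mem_Ioc] at hn
      refine ⟨by omega, ?_⟩
      by_contra h
      exact h0 (hf n (by omega))
  have hcard : ∀ n ∈ J.filter (fun n => n ∈ I),
      ((J.filter (fun n => n ∈ I)).card : ℝ) ≤ 2 * η * n + 1 := by
    intro n hn
    obtain ⟨hn1, hn2⟩ := Finset.mem_filter.1 hn
    have h1 : (J.filter (fun n => n ∈ I)).card ≤ I.card :=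
      Finset.card_le_card fun m hm => (Finset.mem_filter.1 hm).2
    have h2 : I.card = ⌊Real.exp (u + η)⌋₊ - ⌊Real.exp u⌋₊ := by rw [hI, Nat.card_Ioc]
    have h3 : ⌊Real.exp u⌋₊ ≤ ⌊Real.exp (u + η)⌋₊ :=
      Nat.floor_le_floor (Real.exp_le_exp.2 (by linarith))
    have h4 : (I.card : ℝ) = (⌊Real.exp (u + η)⌋₊ : ℝ) - (⌊Real.exp u⌋₊ : ℝ) := by
      rw [h2, Nat.cast_sub h3]
    have h5 : (⌊Real.exp (u + η)⌋₊ : ℝ) ≤ Real.exp (u + η) := Nat.floor_le (Real.exp_pos _).le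
    have h6 : Real.exp u < ⌊Real.exp u⌋₊ + 1 := Nat.lt_floor_add_one _
    have h7 : Real.exp u < n := by
      rw [hI, Finset.mem_Ioc, Nat.floor_lt (Real.exp_pos u).le] at hn2
      exact hn2.1
    have h9 : Real.exp u * (Real.exp η - 1) ≤ n * (2 * η) :=
      mul_le_mul h7.le (L1_exp η hη hη1)
        (by have := Real.add_one_le_exp η; linarith) (Nat.cast_nonneg n)
    have h10 : Real.exp (u + η) = Real.exp u * Real.exp η := Real.exp_add u η
    have h11 : ((J.filter (fun n => n ∈ I)).card : ℝ) ≤ (I.card : ℝ) := by exact_mod_cast h1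
    have h12 : Real.exp u * (Real.exp η - 1) = Real.exp u * Real.exp η - Real.exp u := by ring
    have h13 : (n : ℝ) * (2 * η) = 2 * η * n := by ring
    linarith
  have hcs := sq_sum_le_card_mul_sum_sq (s := J.filter (fun n => n ∈ I)) (f := fun n : ℕ => f n / n)
  have hav : (av f η u) ^ 2 = 1 / η ^ 2 * (∑ n ∈ J.filter (fun n => n ∈ I), f n / n) ^ 2 := by
    unfold av
    rw [← hI, hsum]
    ring
  rw [hav, ← hI, ← hJ, ← Finset.sum_filter]
  have h20 : ∑ n ∈ J.filter (fun n => n ∈ I), 1 / η ^ 2 * (2 * η * n + 1) * (f n / n) ^ 2 =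
      1 / η ^ 2 * ∑ n ∈ J.filter (fun n => n ∈ I), (2 * η * n + 1) * (f n / n) ^ 2 := by
    rw [Finset.mul_sum]
    exact Finset.sum_congr rfl fun n _ => by ring
  rw [h20]
  refine mul_le_mul_of_nonneg_left (hcs.trans ?_) (by positivity)
  rw [Finset.mul_sum]
  exact Finset.sum_le_sum fun n hn => mul_le_mul_of_nonneg_right (hcard n hn) (sq_nonneg _)

/-- **Mean square of short averages.** `f` vanishes beyond `N`, `0 < η ≤ 1`.

Proof (compare `H31W/P4.lean`). `I_u = {n : e^u < n ≤ e^(u+η)}`. Cauchy-Schwarz: `(av f η u)² ≤ η^(-2) |I_u| ∑_{n ∈ I_u} (f n/n)²`, and for `n ∈ I_u`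
`|I_u| ≤ e^u (e^η - 1) + 1 ≤ 2 η e^u + 1 ≤ 2ηn + 1` (`e^η - 1 ≤ 2η`). So `(av f η u)² ≤ η^(-2) ∑_{n ∈ I_u} (f n/n)² (2ηn + 1)`. Integrate over `u`: the set of the
`u` with `n ∈ I_u` is `[log n - η, log n)`, of length `η` (only `1 ≤ n ≤ N` matter): the total is
`η^(-1) ∑ (f n/n)² (2ηn + 1) = ∑ (f n/n)² (2n + 1/η)`. -/
theorem short_sq (f : ℕ → ℝ) (N : ℕ) (η : ℝ) (hf : ∀ n, N < n → f n = 0) (hη : 0 < η) (hη1 : η ≤ 1) :
    ∫⁻ u : ℝ, ENNReal.ofReal ((av f η u) ^ 2) ≤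
      ENNReal.ofReal (∑ n ∈ Icc 1 N, (f n / n) ^ 2 * (2 * n + 1 / η)) := by
  have hpt : ∀ u : ℝ, ENNReal.ofReal ((av f η u) ^ 2) ≤ ∑ n ∈ Icc 1 N,
      (Set.Ico (Real.log n - η) (Real.log n)).indicator
        (fun _ => ENNReal.ofReal (1 / η ^ 2 * (2 * η * n + 1) * (f n / n) ^ 2)) u := by
    intro u
    refine (ENNReal.ofReal_le_ofReal (L1_point f N η hη hη1 hf u)).trans ?_
    rw [ENNReal.ofReal_sum_of_nonneg]
    · refine Finset.sum_le_sum fun n hn => ?_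
      have hn0 : 0 < n := by have := (Finset.mem_Icc.1 hn).1; omega
      by_cases h : n ∈ Ioc ⌊Real.exp u⌋₊ ⌊Real.exp (u + η)⌋₊
      · rw [if_pos h, Set.indicator_of_mem ((L1_mem hn0).1 h)]
      · rw [if_neg h, ENNReal.ofReal_zero]
        exact zero_le
    · intro n _
      split_ifs
      · positivity
      · exact le_rfl
  have hint : ∫⁻ u : ℝ, (∑ n ∈ Icc 1 N,
      (Set.Ico (Real.log n - η) (Real.log n)).indicator
        (fun _ => ENNReal.ofReal (1 / η ^ 2 * (2 * η * n + 1) * (f n / n) ^ 2)) u) =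
      ENNReal.ofReal (∑ n ∈ Icc 1 N, 1 / η ^ 2 * (2 * η * n + 1) * (f n / n) ^ 2 * η) := by
    rw [lintegral_finsetSum _ fun n _ => measurable_const.indicator measurableSet_Ico,
      ENNReal.ofReal_sum_of_nonneg fun n _ => by positivity]
    refine Finset.sum_congr rfl fun n _ => ?_
    rw [lintegral_indicator_const measurableSet_Ico, Real.volume_Ico, sub_sub_cancel,
      ← ENNReal.ofReal_mul (by positivity)]
  refine (lintegral_mono hpt).trans ?_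
  rw [hint]
  refine ENNReal.ofReal_le_ofReal (le_of_eq (Finset.sum_congr rfl fun n _ => ?_))
  have hη0 : η ≠ 0 := hη.ne'
  field_simp

end Pool.Agent.Lib.H31P
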