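import Pool.Agent.Lib.H31P.L3
import Pool.Agent.Lib.H31W.Q3

/-!
# Chunk L4 (M): the `m`-th power of a Dirichlet polynomial
-/

open Finset

namespace Pool.Agent.Lib.H31P

open Pool.Agent.Lib.H31W

private theorem L4_card (n : ℕ) : n.divisorsAntidiagonal.card = n.divisors.card := by
  rw [← Nat.map_div_right_divisors, Finset.card_map]

private theorem L4_core (f : ℕ → ℝ) (i : ℕ) (A : ℝ) (hA : 1 ≤ A)
    (hs : ∀ n, f n ≠ 0 → Real.exp ((i : ℝ) - 1) < n ∧ (n : ℝ) < Real.exp ((i : ℝ) + 1)) (hb : ∀ n, |f n| ≤ A)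
    (m' : ℕ) :
    (∀ t : ℝ, DD (fun n => ((af f) ^ (m' + 1)) n) (⌊Real.exp ((i : ℝ) + 1)⌋₊ ^ (m' + 1)) t = Di f i t ^ (m' + 1)) ∧
    (∀ n : ℕ, ((af f) ^ (m' + 1)) n ≠ 0 → Real.exp ((m' + 1 : ℝ) * ((i : ℝ) - 1)) < n ∧
      (n : ℝ) < Real.exp ((m' + 1 : ℝ) * ((i : ℝ) + 1)) ∧ n ≤ ⌊Real.exp ((i : ℝ) + 1)⌋₊ ^ (m' + 1)) ∧
    (∀ n : ℕ, |((af f) ^ (m' + 1)) n| ≤ A ^ (m' + 1) * (n.divisors.card : ℝ) ^ m') := by
  have hA0 : 0 ≤ A := zero_le_one.trans hA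
  have hf0 : f 0 = 0 := by
    by_contra h
    have h1 := (hs 0 h).1
    have h2 := Real.exp_pos ((i : ℝ) - 1)
    rw [Nat.cast_zero] at h1
    linarith
  have haf : ∀ n, af f n = f n := by
    intro n
    show (if n = 0 then 0 else f n) = f n
    by_cases h : n = 0
    · rw [if_pos h, h, hf0]
    · rw [if_neg h]
  have hM : ∀ n, f n ≠ 0 → n ≤ ⌊Real.exp ((i : ℝ) + 1)⌋₊ := fun n hn => Nat.le_floor (hs n hn).2.le
  have hM0 : ∀ n, ⌊Real.exp ((i : ℝ) + 1)⌋₊ < n → f n = 0 := by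
    intro n hn
    by_contra h
    exact absurd (hM n h) (by omega)
  induction m' with
  | zero =>
    refine ⟨fun t => ?_, fun n hn => ?_, fun n => ?_⟩
    · have h1 : (fun n => ((af f) ^ (0 + 1)) n) = f := by
        funext n
        rw [zero_add, pow_one, haf]
      rw [h1, zero_add, pow_one, pow_one]
      rfl
    · rw [zero_add, pow_one, haf] at hn
      have h1 := hs n hn
      refine ⟨?_, ?_, ?_⟩
      · simpa using h1.1
      · simpa using h1.2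
      · rw [zero_add, pow_one]
        exact hM n hn
    · rw [zero_add, pow_one, haf, pow_one, pow_zero, mul_one]
      exact hb n
  | succ k ih =>
    obtain ⟨ih1, ih2, ih3⟩ := ih
    have hval : ∀ n, ((af f) ^ (k + 1 + 1)) n = conv (fun n => ((af f) ^ (k + 1)) n) f n := by
      intro n
      rw [pow_succ, ArithmeticFunction.mul_apply]
      unfold conv
      refine Finset.sum_congr rfl fun x _ => ?_
      rw [haf]
    refine ⟨fun t => ?_, fun n hn => ?_, fun n => ?_⟩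
    · have h1 : (fun n => ((af f) ^ (k + 1 + 1)) n) = conv (fun n => ((af f) ^ (k + 1)) n) f := funext hval
      rw [h1, DD_conv (fun n => ((af f) ^ (k + 1)) n) f (⌊Real.exp ((i : ℝ) + 1)⌋₊ ^ (k + 1))
        ⌊Real.exp ((i : ℝ) + 1)⌋₊ (⌊Real.exp ((i : ℝ) + 1)⌋₊ ^ (k + 1 + 1)) ?_ hM0 (by rw [pow_succ _ (k + 1)]) t,
        ih1 t, pow_succ _ (k + 1)]
      · rfl
      · intro n hn
        by_contra h
        exact absurd (ih2 n h).2.2 (by omega)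
    · rw [hval n] at hn
      unfold conv at hn
      obtain ⟨x, hx, hx0⟩ := Finset.exists_ne_zero_of_sum_ne_zero hn
      have hg : ((af f) ^ (k + 1)) x.1 ≠ 0 := left_ne_zero_of_mul hx0
      have hf : f x.2 ≠ 0 := right_ne_zero_of_mul hx0
      rw [Nat.mem_divisorsAntidiagonal] at hx
      obtain ⟨a1, a2, a3⟩ := ih2 x.1 hg
      obtain ⟨b1, b2⟩ := hs x.2 hf
      have b3 := hM x.2 hf
      have hn1 : (n : ℝ) = (x.1 : ℝ) * (x.2 : ℝ) := by
        rw [← hx.1, Nat.cast_mul]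
      have e1 : Real.exp (((k + 1 : ℕ) + 1 : ℝ) * ((i : ℝ) - 1)) =
          Real.exp ((k + 1 : ℝ) * ((i : ℝ) - 1)) * Real.exp ((i : ℝ) - 1) := by
        rw [← Real.exp_add]
        congr 1
        push_cast
        ring
      have e2 : Real.exp (((k + 1 : ℕ) + 1 : ℝ) * ((i : ℝ) + 1)) =
          Real.exp ((k + 1 : ℝ) * ((i : ℝ) + 1)) * Real.exp ((i : ℝ) + 1) := by
        rw [← Real.exp_add]
        congr 1
        push_cast
        ring
      refine ⟨?_, ?_, ?_⟩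
      · rw [e1, hn1]
        exact mul_lt_mul'' a1 b1 (Real.exp_pos _).le (Real.exp_pos _).le
      · rw [e2, hn1]
        exact mul_lt_mul'' a2 b2 (Nat.cast_nonneg _) (Nat.cast_nonneg _)
      · rw [← hx.1, pow_succ _ (k + 1)]
        exact Nat.mul_le_mul a3 b3
    · rw [hval n]
      unfold conv
      calc |∑ d ∈ n.divisorsAntidiagonal, ((af f) ^ (k + 1)) d.1 * f d.2|
          ≤ ∑ d ∈ n.divisorsAntidiagonal, |((af f) ^ (k + 1)) d.1 * f d.2| := Finset.abs_sum_le_sum_abs _ _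
        _ ≤ ∑ _d ∈ n.divisorsAntidiagonal, A ^ (k + 1 + 1) * (n.divisors.card : ℝ) ^ k := by
          refine Finset.sum_le_sum fun x hx => ?_
          rw [Nat.mem_divisorsAntidiagonal] at hx
          have hdv : x.1 ∣ n := ⟨x.2, hx.1.symm⟩
          have hcard : ((x.1.divisors.card : ℕ) : ℝ) ≤ n.divisors.card := by
            exact_mod_cast Finset.card_le_card (Nat.divisors_subset_of_dvd hx.2 hdv)
          rw [abs_mul]
          calc |((af f) ^ (k + 1)) x.1| * |f x.2| ≤ (A ^ (k + 1) * (x.1.divisors.card : ℝ) ^ k) * A :=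
                mul_le_mul (ih3 x.1) (hb x.2) (abs_nonneg _) (by positivity)
            _ ≤ (A ^ (k + 1) * (n.divisors.card : ℝ) ^ k) * A := by
                refine mul_le_mul_of_nonneg_right ?_ hA0
                refine mul_le_mul_of_nonneg_left ?_ (by positivity)
                exact pow_le_pow_left₀ (Nat.cast_nonneg _) hcard k
            _ = A ^ (k + 1 + 1) * (n.divisors.card : ℝ) ^ k := by ring
        _ = A ^ (k + 1 + 1) * (n.divisors.card : ℝ) ^ (k + 1) := by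
          rw [Finset.sum_const, L4_card, nsmul_eq_mul]
          ring

/-- **Powers.** `M = ⌊e^(i+1)⌋₊`, `G = (af f)^m` (Dirichlet powers, `ArithmeticFunction`), `m = m' + 1`.

Proof. Induction on `m'`; `(af f * g) n = ∑_{(a,b)} f a g b` (`ArithmeticFunction.mul_apply`) is `H31W.conv` (`H31W.DD_conv`, file `H31W/Q3.lean`, for the first
claim with `Nf = M`, `Ng = M^(m)`, `f n = 0` for `n > M` because `f n ≠ 0` implies `n < e^(i+1)`).
Support: `n = ab` with `f a ≠ 0`, `g b ≠ 0`: multiply the bounds (`Real.exp_add`). Size: `|G n| ≤ ∑_{ab = n} A · A^m d(b)^(m') ≤ A^(m+1) d(n) d(n)^(m')`,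
because `d(b) ≤ d(n)` for `b ∣ n`. Mean square: `G(n)² ≤ A^(2m) d(n)^(2m')`, `sum_d_pow` with `k = 2m'` and `x = M^m ≤ e^(m(i+1))`. -/
theorem pow_poly (f : ℕ → ℝ) (i m' : ℕ) (A : ℝ) (hA : 1 ≤ A)
    (hs : ∀ n, f n ≠ 0 → Real.exp ((i : ℝ) - 1) < n ∧ (n : ℝ) < Real.exp ((i : ℝ) + 1)) (hb : ∀ n, |f n| ≤ A) :
    (∀ t : ℝ, DD (fun n => ((af f) ^ (m' + 1)) n) (⌊Real.exp ((i : ℝ) + 1)⌋₊ ^ (m' + 1)) t = Di f i t ^ (m' + 1)) ∧
    (∀ n : ℕ, ((af f) ^ (m' + 1)) n ≠ 0 → Real.exp ((m' + 1 : ℝ) * ((i : ℝ) - 1)) < n ∧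
      (n : ℝ) < Real.exp ((m' + 1 : ℝ) * ((i : ℝ) + 1)) ∧ n ≤ ⌊Real.exp ((i : ℝ) + 1)⌋₊ ^ (m' + 1)) ∧
    (∑ n ∈ Icc 1 (⌊Real.exp ((i : ℝ) + 1)⌋₊ ^ (m' + 1)), (((af f) ^ (m' + 1)) n) ^ 2 / n ≤
      A ^ (2 * (m' + 1)) * (1 + (m' + 1 : ℝ) * ((i : ℝ) + 1)) ^ (4 ^ m')) := by
  obtain ⟨h1, h2, h3⟩ := L4_core f i A hA hs hb m'
  refine ⟨h1, h2, ?_⟩
  have hA0 : 0 ≤ A := zero_le_one.trans hA
  have hM1 : 1 ≤ ⌊Real.exp ((i : ℝ) + 1)⌋₊ := by
    apply Nat.le_floor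
    rw [Nat.cast_one]
    exact Real.one_le_exp (by positivity)
  have hx : 1 ≤ ⌊Real.exp ((i : ℝ) + 1)⌋₊ ^ (m' + 1) := Nat.one_le_pow _ _ hM1
  have hlog : Real.log ((⌊Real.exp ((i : ℝ) + 1)⌋₊ ^ (m' + 1) : ℕ) : ℝ) ≤ (m' + 1 : ℝ) * ((i : ℝ) + 1) := by
    rw [Nat.cast_pow, Real.log_pow]
    have h4 : Real.log (⌊Real.exp ((i : ℝ) + 1)⌋₊ : ℝ) ≤ (i : ℝ) + 1 := by
      rw [Real.log_le_iff_le_exp (by exact_mod_cast hM1)]
      exact Nat.floor_le (Real.exp_pos _).le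
    push_cast
    exact mul_le_mul_of_nonneg_left h4 (by positivity)
  have hlog0 : 0 ≤ Real.log ((⌊Real.exp ((i : ℝ) + 1)⌋₊ ^ (m' + 1) : ℕ) : ℝ) :=
    Real.log_nonneg (by exact_mod_cast hx)
  calc ∑ n ∈ Icc 1 (⌊Real.exp ((i : ℝ) + 1)⌋₊ ^ (m' + 1)), (((af f) ^ (m' + 1)) n) ^ 2 / n
      ≤ ∑ n ∈ Icc 1 (⌊Real.exp ((i : ℝ) + 1)⌋₊ ^ (m' + 1)),
          A ^ (2 * (m' + 1)) * ((n.divisors.card : ℝ) ^ (2 * m') / n) := by
        refine Finset.sum_le_sum fun n _ => ?_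
        rw [← mul_div_assoc]
        refine div_le_div_of_nonneg_right ?_ (Nat.cast_nonneg n)
        rw [← sq_abs]
        calc |((af f) ^ (m' + 1)) n| ^ 2 ≤ (A ^ (m' + 1) * (n.divisors.card : ℝ) ^ m') ^ 2 :=
              pow_le_pow_left₀ (abs_nonneg _) (h3 n) 2
          _ = A ^ (2 * (m' + 1)) * (n.divisors.card : ℝ) ^ (2 * m') := by ring
    _ = A ^ (2 * (m' + 1)) * ∑ n ∈ Icc 1 (⌊Real.exp ((i : ℝ) + 1)⌋₊ ^ (m' + 1)),
          ((n.divisors.card : ℝ) ^ (2 * m') / n) := by rw [Finset.mul_sum]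
    _ ≤ A ^ (2 * (m' + 1)) * (1 + (m' + 1 : ℝ) * ((i : ℝ) + 1)) ^ (4 ^ m') := by
        refine mul_le_mul_of_nonneg_left ?_ (by positivity)
        refine (sum_d_pow (2 * m') _ hx).trans ?_
        rw [pow_mul, show (2 : ℕ) ^ 2 = 4 by norm_num]
        exact pow_le_pow_left₀ (by linarith) (by linarith) _

end Pool.Agent.Lib.H31P
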