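import Pool.Agent.Lib.H31P.L4
import Pool.Agent.Lib.H31W.P3

/-!
# Chunk L5 (M): large values by the mean value theorem
-/

open Finset MeasureTheory

namespace Pool.Agent.Lib.H31P

open Pool.Agent.Lib.H31W

/-- **First bound.** `m = m' + 1`, `G = A^(2m) (1 + m(i+1))^(4^m')`.

Proof. `P = Di f i ^ m = DD g (M^m)`, `g = (af f)^m` (`pow_poly`); `exp (-αi) < ‖Di f i t‖` implies `exp (-2αmi) < ‖P t‖²`. Chebyshev (`mul_meas_ge_le_lintegral₀`
or `meas_ge_le_lintegral_div`) and `MVStm` with `a n = g n/n` (`DD g N t = ∑ (g n/n) n^(-it)`):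
measure `≤ e^(2αmi) C ∑ (T + n) g(n)²/n² ≤ e^(2αmi) C (T e^(-m(i-1)) + 1) ∑ g(n)²/n` (support: `1/n ≤ e^(-m(i-1))`), `e^(-m(i-1)) = e^m e^(-mi)`. -/
theorem lv_first (hV : MVStm) : ∃ C : ℝ, 1 ≤ C ∧ ∀ (f : ℕ → ℝ) (i m' : ℕ) (A T α : ℝ), 1 ≤ A → 1 ≤ T →
    (∀ n, f n ≠ 0 → Real.exp ((i : ℝ) - 1) < n ∧ (n : ℝ) < Real.exp ((i : ℝ) + 1)) → (∀ n, |f n| ≤ A) →
    volume {t : ℝ | |t| ≤ T ∧ Real.exp (-(α * i)) < ‖Di f i t‖} ≤
      ENNReal.ofReal (C * (A ^ (2 * (m' + 1)) * (1 + (m' + 1 : ℝ) * ((i : ℝ) + 1)) ^ (4 ^ m')) *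
        (Real.exp (2 * α * ((m' + 1 : ℝ) * i)) +
          Real.exp (m' + 1 : ℝ) * (T * Real.exp ((2 * α - 1) * ((m' + 1 : ℝ) * i))))) := by
  obtain ⟨C, hC, hV⟩ := hV
  refine ⟨C, hC, fun f i m' A T α hA hT hs hb => ?_⟩
  obtain ⟨hP, hsupp, hsq⟩ := pow_poly f i m' A hA hs hb
  have hC0 : 0 ≤ C := by linarith
  have hT0 : 0 ≤ T := by linarith
  have hA0 : 0 ≤ A := by linarith
  have hG0 : 0 ≤ A ^ (2 * (m' + 1)) * (1 + (m' + 1 : ℝ) * ((i : ℝ) + 1)) ^ (4 ^ m') := by positivity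
  generalize hGdef : A ^ (2 * (m' + 1)) * (1 + (m' + 1 : ℝ) * ((i : ℝ) + 1)) ^ (4 ^ m') = G at hsq hG0 ⊢
  generalize hNdef : ⌊Real.exp ((i : ℝ) + 1)⌋₊ ^ (m' + 1) = N at hP hsupp hsq
  have hDD : ∀ t : ℝ, Di f i t ^ (m' + 1) =
      ∑ n ∈ Icc 1 N, (((((af f) ^ (m' + 1)) n / n : ℝ)) : ℂ) * (n : ℂ) ^ (-((t : ℂ) * Complex.I)) := by
    intro t
    rw [← hP t]
    unfold DD
    refine Finset.sum_congr rfl fun n hn => ?_
    have hn1 : 1 ≤ n := (Finset.mem_Icc.1 hn).1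
    have hn0 : (n : ℂ) ≠ 0 := by
      exact_mod_cast (by omega : n ≠ 0)
    rw [neg_add, Complex.cpow_add _ _ hn0, Complex.cpow_neg_one]
    push_cast
    ring
  have hsum : ∑ n ∈ Icc 1 N, (T + n) * (((af f) ^ (m' + 1)) n / n) ^ 2 ≤
      (T * Real.exp (-((m' + 1 : ℝ) * ((i : ℝ) - 1))) + 1) * G := by
    have h1 : ∀ n ∈ Icc 1 N, (T + n) * (((af f) ^ (m' + 1)) n / n) ^ 2 ≤
        (T * Real.exp (-((m' + 1 : ℝ) * ((i : ℝ) - 1))) + 1) * ((((af f) ^ (m' + 1)) n) ^ 2 / n) := by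
      intro n hn
      have hn1 : 1 ≤ n := (Finset.mem_Icc.1 hn).1
      have hn0 : (0 : ℝ) < n := by exact_mod_cast hn1
      by_cases hg : ((af f) ^ (m' + 1)) n = 0
      · rw [hg]
        simp
      · have h2 := (hsupp n hg).1
        have h3 : (n : ℝ)⁻¹ ≤ Real.exp (-((m' + 1 : ℝ) * ((i : ℝ) - 1))) := by
          rw [Real.exp_neg]
          exact inv_anti₀ (Real.exp_pos _) h2.le
        have h4 : (T + n) * (((af f) ^ (m' + 1)) n / n) ^ 2 =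
            (T * (n : ℝ)⁻¹ + 1) * ((((af f) ^ (m' + 1)) n) ^ 2 / n) := by
          field_simp
        rw [h4]
        refine mul_le_mul_of_nonneg_right ?_ (by positivity)
        have h5 := mul_le_mul_of_nonneg_left h3 hT0
        linarith
    refine (Finset.sum_le_sum h1).trans ?_
    rw [← Finset.mul_sum]
    exact mul_le_mul_of_nonneg_left hsq (by positivity)
  have hmv := hV (fun n => ((af f) ^ (m' + 1)) n / n) N T hT
  have hcont : Continuous fun t : ℝ =>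
      ∑ n ∈ Icc 1 N, (((((af f) ^ (m' + 1)) n / n : ℝ)) : ℂ) * (n : ℂ) ^ (-((t : ℂ) * Complex.I)) := by
    refine continuous_finsetSum _ fun n hn => ?_
    have hn1 : 1 ≤ n := (Finset.mem_Icc.1 hn).1
    have hn0 : (n : ℂ) ≠ 0 := by
      exact_mod_cast (by omega : n ≠ 0)
    refine continuous_const.mul ?_
    exact Continuous.const_cpow (by fun_prop) (Or.inl hn0)
  have hmeas : Measurable fun t : ℝ => ENNReal.ofReal
      (‖∑ n ∈ Icc 1 N, (((((af f) ^ (m' + 1)) n / n : ℝ)) : ℂ) * (n : ℂ) ^ (-((t : ℂ) * Complex.I))‖ ^ 2) :=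
    (ENNReal.continuous_ofReal.comp (hcont.norm.pow 2)).measurable
  have hε0 : (0 : ℝ) < Real.exp (-(2 * α * ((m' + 1 : ℝ) * i))) := Real.exp_pos _
  have hsub : {t : ℝ | |t| ≤ T ∧ Real.exp (-(α * i)) < ‖Di f i t‖} ⊆
      {t : ℝ | ENNReal.ofReal (Real.exp (-(2 * α * ((m' + 1 : ℝ) * i)))) ≤ ENNReal.ofReal
        (‖∑ n ∈ Icc 1 N, (((((af f) ^ (m' + 1)) n / n : ℝ)) : ℂ) *
          (n : ℂ) ^ (-((t : ℂ) * Complex.I))‖ ^ 2)} ∩ Set.Icc (-T) T := by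
    rintro t ⟨ht1, ht2⟩
    refine ⟨?_, abs_le.1 ht1⟩
    show ENNReal.ofReal _ ≤ ENNReal.ofReal _
    refine ENNReal.ofReal_le_ofReal ?_
    rw [← hDD t, norm_pow]
    have h1 : Real.exp (-(2 * α * ((m' + 1 : ℝ) * i))) = (Real.exp (-(α * i)) ^ (m' + 1)) ^ 2 := by
      rw [← Real.exp_nat_mul, ← Real.exp_nat_mul]
      congr 1
      push_cast
      ring
    rw [h1]
    exact pow_le_pow_left₀ (by positivity) (pow_le_pow_left₀ (Real.exp_pos _).le ht2.le _) _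
  refine (measure_mono hsub).trans ?_
  rw [← Measure.restrict_apply' measurableSet_Icc]
  refine (meas_ge_le_lintegral_div hmeas.aemeasurable
    (by rw [Ne, ENNReal.ofReal_eq_zero]; exact not_le.2 hε0) ENNReal.ofReal_ne_top).trans ?_
  refine (ENNReal.div_le_div_right hmv _).trans ?_
  rw [← ENNReal.ofReal_div_of_pos hε0]
  refine ENNReal.ofReal_le_ofReal ?_
  rw [div_eq_mul_inv, ← Real.exp_neg, neg_neg]
  have hx := mul_le_mul_of_nonneg_left hsum hC0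
  have hy := mul_le_mul_of_nonneg_right hx (Real.exp_pos (2 * α * ((m' + 1 : ℝ) * i))).le
  refine hy.trans (le_of_eq ?_)
  have e1 : Real.exp (-((m' + 1 : ℝ) * ((i : ℝ) - 1))) * Real.exp (2 * α * ((m' + 1 : ℝ) * i)) =
      Real.exp (m' + 1 : ℝ) * Real.exp ((2 * α - 1) * ((m' + 1 : ℝ) * i)) := by
    rw [← Real.exp_add, ← Real.exp_add]
    congr 1
    ring
  calc C * ((T * Real.exp (-((m' + 1 : ℝ) * ((i : ℝ) - 1))) + 1) * G) * Real.exp (2 * α * ((m' + 1 : ℝ) * i))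
      = C * G * (Real.exp (2 * α * ((m' + 1 : ℝ) * i)) +
        T * (Real.exp (-((m' + 1 : ℝ) * ((i : ℝ) - 1))) * Real.exp (2 * α * ((m' + 1 : ℝ) * i)))) := by ring
    _ = C * G * (Real.exp (2 * α * ((m' + 1 : ℝ) * i)) +
        Real.exp (m' + 1 : ℝ) * (T * Real.exp ((2 * α - 1) * ((m' + 1 : ℝ) * i)))) := by
        rw [e1]
        ring

end Pool.Agent.Lib.H31P
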