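import Pool.Agent.Lib.H31P.Top

/-!
# Chunk L6 (M): duality (Halasz-Montgomery, measure form)
-/

open Finset MeasureTheory

namespace Pool.Agent.Lib.H31P

private lemma L6_norm (n : ℕ) (hn : 1 ≤ n) (t : ℝ) :
    ‖(n : ℂ) ^ (-((t : ℂ) * Complex.I))‖ = 1 := by
  rw [Complex.norm_natCast_cpow_of_pos (by omega)]
  simp

private lemma L6_cont (n : ℕ) (hn : 1 ≤ n) :
    Continuous (fun t : ℝ => (n : ℂ) ^ (-((t : ℂ) * Complex.I))) := by
  have hn0 : (n : ℂ) ≠ 0 := by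
    have : n ≠ 0 := by omega
    exact_mod_cast this
  exact Continuous.const_cpow (by fun_prop) (Or.inl hn0)

private lemma L6_conj (n : ℕ) (hn : 1 ≤ n) (t t' : ℝ) :
    (n : ℂ) ^ (-((t : ℂ) * Complex.I)) * (starRingEnd ℂ) ((n : ℂ) ^ (-((t' : ℂ) * Complex.I)))
      = (n : ℂ) ^ (-(((t - t' : ℝ) : ℂ) * Complex.I)) := by
  have hn0 : (n : ℂ) ≠ 0 := by
    have : n ≠ 0 := by omega
    exact_mod_cast this
  rw [← Complex.inv_eq_conj (L6_norm n hn t'), ← Complex.cpow_neg, ← Complex.cpow_add _ _ hn0]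
  congr 1
  push_cast
  ring

private lemma L6_split (n : ℕ) (hn : 1 ≤ n) (g : ℝ) (t : ℝ) :
    (g : ℂ) * (n : ℂ) ^ (-(1 + (t : ℂ) * Complex.I))
      = ((g / n : ℝ) : ℂ) * (n : ℂ) ^ (-((t : ℂ) * Complex.I)) := by
  have hn0 : (n : ℂ) ≠ 0 := by
    have : n ≠ 0 := by omega
    exact_mod_cast this
  rw [neg_add, Complex.cpow_add _ _ hn0, Complex.cpow_neg_one]
  push_cast
  ring

/-- **Duality.** `P(t) = ∑_{a ≤ n ≤ b} g(n) n^(-1-it)`, `S` bounded and measurable, `1 ≤ a`.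

Proof. `χ(t) = conj (P t)/‖P t‖` (`0` if `P t = 0`): measurable, `‖χ‖ ≤ 1`, `P χ = ‖P‖`. `∫_S ‖P‖ = ∫_S P χ = ∑_n (g n/n) c_n`, `c_n = ∫_S χ(t) n^(-it) dt`
(`integral_finset_sum`; everything is bounded on the bounded set `S`). Cauchy-Schwarz: `(∫_S ‖P‖)² ≤ (∑ g(n)²/n)(∑ ‖c_n‖²/n) ≤ (∑ g(n)²/n)(1/a) ∑ ‖c_n‖²`.
`‖c_n‖² = c_n conj (c_n) = ∫_S ∫_S χ(t) conj (χ(t')) n^(-i(t-t')) dt' dt` (`integral_prod_mul` or iterated integrals), so
`∑ ‖c_n‖² = ∫_S ∫_S χ(t) conj (χ(t')) K(t-t') ≤ ∫_S ∫_S ‖K(t-t')‖`. -/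
theorem hm_dual (g : ℕ → ℝ) (a b : ℕ) (ha : 1 ≤ a) (S : Set ℝ) (hS : MeasurableSet S) (x y : ℝ) (hxy : S ⊆ Set.Icc x y) :
    (∫ t in S, ‖∑ n ∈ Icc a b, (g n : ℂ) * (n : ℂ) ^ (-(1 + (t : ℂ) * Complex.I))‖) ^ 2 ≤
      (∑ n ∈ Icc a b, g n ^ 2 / n) * (1 / a *
        ∫ t in S, ∫ t' in S, ‖∑ n ∈ Icc a b, (n : ℂ) ^ (-(((t - t' : ℝ) : ℂ) * Complex.I))‖) := by
  have hfin : volume S < ⊤ := lt_of_le_of_lt (measure_mono hxy) measure_Icc_lt_top
  haveI : IsFiniteMeasure (volume.restrict S) := ⟨by simpa using hfin⟩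
  set μ : Measure ℝ := volume.restrict S with hμ
  set ν : Measure (ℝ × ℝ) := μ.prod μ with hν
  have h1 : ∀ n ∈ Icc a b, 1 ≤ n := fun n hn => le_trans ha (mem_Icc.mp hn).1
  set E : ℕ → ℝ → ℂ := fun n t => (n : ℂ) ^ (-((t : ℂ) * Complex.I)) with hE
  set P : ℝ → ℂ := fun t => ∑ n ∈ Icc a b, ((g n / n : ℝ) : ℂ) * E n t with hP
  have hPeq : ∀ t : ℝ, ∑ n ∈ Icc a b, (g n : ℂ) * (n : ℂ) ^ (-(1 + (t : ℂ) * Complex.I)) = P t := by
    intro t
    simp only [hP]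
    exact Finset.sum_congr rfl fun n hn => L6_split n (h1 n hn) (g n) t
  have hPc : Continuous P := by
    simp only [hP]
    exact continuous_finset_sum _ fun n hn => continuous_const.mul (L6_cont n (h1 n hn))
  set χ : ℝ → ℂ := fun t => (starRingEnd ℂ) (P t) / ((‖P t‖ : ℝ) : ℂ) with hχ
  have hχm : Measurable χ := by
    simp only [hχ]
    exact (Complex.continuous_conj.comp hPc).measurable.div
      (Complex.continuous_ofReal.comp hPc.norm).measurable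
  have hχn : ∀ t, ‖χ t‖ ≤ 1 := by
    intro t
    simp only [hχ, norm_div, RCLike.norm_conj, Complex.norm_real, norm_norm]
    exact div_self_le_one _
  have hPχ : ∀ t, P t * χ t = ((‖P t‖ : ℝ) : ℂ) := by
    intro t
    simp only [hχ]
    by_cases h0 : P t = 0
    · simp [h0]
    · have hn0 : ((‖P t‖ : ℝ) : ℂ) ≠ 0 := by
        exact_mod_cast (norm_ne_zero_iff.mpr h0)
      rw [← mul_div_assoc, Complex.mul_conj, Complex.normSq_eq_norm_sq]
      push_cast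
      field_simp
  set c : ℕ → ℂ := fun n => ∫ t, χ t * E n t ∂μ with hc
  have hbd : ∀ n ∈ Icc a b, ∀ t, ‖χ t * E n t‖ ≤ 1 := by
    intro n hn t
    rw [norm_mul]
    simp only [hE]
    rw [L6_norm n (h1 n hn) t, mul_one]
    exact hχn t
  have hms : ∀ n ∈ Icc a b, Measurable (fun t => χ t * E n t) := fun n hn =>
    hχm.mul (L6_cont n (h1 n hn)).measurable
  have hint : ∀ n ∈ Icc a b, Integrable (fun t => χ t * E n t) μ := fun n hn =>
    Integrable.of_bound (hms n hn).aestronglyMeasurable 1 (Filter.Eventually.of_forall (hbd n hn))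
  -- first identity
  have hI : ((∫ t, ‖P t‖ ∂μ : ℝ) : ℂ) = ∑ n ∈ Icc a b, ((g n / n : ℝ) : ℂ) * c n := by
    rw [← integral_complex_ofReal]
    have e1 : (fun t => ((‖P t‖ : ℝ) : ℂ)) =
        fun t => ∑ n ∈ Icc a b, ((g n / n : ℝ) : ℂ) * (χ t * E n t) := by
      funext t
      rw [← hPχ t]
      simp only [hP, Finset.sum_mul]
      exact Finset.sum_congr rfl fun n _ => by ring
    rw [e1, integral_finset_sum _ (fun n hn => (hint n hn).const_mul _)]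
    refine Finset.sum_congr rfl fun n hn => ?_
    rw [integral_const_mul]
  have hI0 : 0 ≤ ∫ t, ‖P t‖ ∂μ := integral_nonneg fun t => norm_nonneg _
  have hI1 : ∫ t, ‖P t‖ ∂μ ≤ ∑ n ∈ Icc a b, (|g n| / n) * ‖c n‖ := by
    have : ‖((∫ t, ‖P t‖ ∂μ : ℝ) : ℂ)‖ = ∫ t, ‖P t‖ ∂μ := by
      rw [Complex.norm_real, Real.norm_of_nonneg hI0]
    rw [← this, hI]
    refine le_trans (norm_sum_le _ _) (le_of_eq ?_)
    refine Finset.sum_congr rfl fun n hn => ?_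
    rw [norm_mul, Complex.norm_real, Real.norm_eq_abs, abs_div, Nat.abs_cast]
  -- Cauchy-Schwarz
  have hCS : (∫ t, ‖P t‖ ∂μ) ^ 2 ≤
      (∑ n ∈ Icc a b, g n ^ 2 / n) * (∑ n ∈ Icc a b, ‖c n‖ ^ 2 / n) := by
    refine le_trans (pow_le_pow_left₀ hI0 hI1 2) ?_
    have e : ∑ n ∈ Icc a b, (|g n| / n) * ‖c n‖ =
        ∑ n ∈ Icc a b, (|g n| / Real.sqrt n) * (‖c n‖ / Real.sqrt n) := by
      refine Finset.sum_congr rfl fun n hn => ?_
      have hs : Real.sqrt n * Real.sqrt n = n := Real.mul_self_sqrt (Nat.cast_nonneg n)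
      rw [div_mul_div_comm, hs]
      ring
    rw [e]
    refine le_trans (Finset.sum_mul_sq_le_sq_mul_sq _ _ _) (le_of_eq ?_)
    congr 1
    · refine Finset.sum_congr rfl fun n hn => ?_
      rw [div_pow, Real.sq_sqrt (Nat.cast_nonneg n), sq_abs]
    · refine Finset.sum_congr rfl fun n hn => ?_
      rw [div_pow, Real.sq_sqrt (Nat.cast_nonneg n)]
  have ha0 : (0 : ℝ) < a := by exact_mod_cast ha
  have hsum1 : ∑ n ∈ Icc a b, ‖c n‖ ^ 2 / n ≤ 1 / a * ∑ n ∈ Icc a b, ‖c n‖ ^ 2 := by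
    rw [Finset.mul_sum]
    refine Finset.sum_le_sum fun n hn => ?_
    have hna : (a : ℝ) ≤ n := by exact_mod_cast (mem_Icc.mp hn).1
    rw [div_eq_mul_one_div, mul_comm]
    exact mul_le_mul_of_nonneg_right (one_div_le_one_div_of_le ha0 hna) (sq_nonneg _)
  -- the kernel
  set K : ℝ → ℂ := fun u => ∑ n ∈ Icc a b, (n : ℂ) ^ (-((u : ℂ) * Complex.I)) with hK
  have hKc : Continuous K := by
    simp only [hK]
    exact continuous_finset_sum _ fun n hn => L6_cont n (h1 n hn)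
  have hKb : ∀ u, ‖K u‖ ≤ ((Icc a b).card : ℝ) := by
    intro u
    simp only [hK]
    refine le_trans (norm_sum_le _ _) ?_
    rw [Finset.sum_congr rfl fun n hn => L6_norm n (h1 n hn) u]
    simp
  have hKint : Integrable (fun z : ℝ × ℝ => ‖K (z.1 - z.2)‖) ν := by
    refine Integrable.of_bound ?_ ((Icc a b).card : ℝ) (Filter.Eventually.of_forall fun z => ?_)
    · exact ((hKc.comp (continuous_fst.sub continuous_snd)).norm).aestronglyMeasurable
    · rw [norm_norm]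
      exact hKb _
  have hprod : ∫ z, ‖K (z.1 - z.2)‖ ∂ν = ∫ t, ∫ t', ‖K (t - t')‖ ∂μ ∂μ := by
    rw [hν, integral_prod _ hKint]
  have hsq : ((∑ n ∈ Icc a b, ‖c n‖ ^ 2 : ℝ) : ℂ) =
      ∫ z, (χ z.1 * (starRingEnd ℂ) (χ z.2)) * K (z.1 - z.2) ∂ν := by
    have e2 : (fun z : ℝ × ℝ => (χ z.1 * (starRingEnd ℂ) (χ z.2)) * K (z.1 - z.2)) =
        fun z => ∑ n ∈ Icc a b, (χ z.1 * E n z.1) * (starRingEnd ℂ) (χ z.2 * E n z.2) := by
      funext z
      simp only [hK, Finset.mul_sum]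
      refine Finset.sum_congr rfl fun n hn => ?_
      rw [← L6_conj n (h1 n hn) z.1 z.2, map_mul]
      ring
    rw [e2, integral_finset_sum]
    · push_cast
      refine Finset.sum_congr rfl fun n hn => ?_
      rw [hν, integral_prod_mul (fun t => χ t * E n t) (fun t => (starRingEnd ℂ) (χ t * E n t)),
        integral_conj]
      change ((‖c n‖ : ℝ) : ℂ) ^ 2 = c n * (starRingEnd ℂ) (c n)
      rw [Complex.mul_conj, Complex.normSq_eq_norm_sq]
      push_cast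
      rfl
    · intro n hn
      refine Integrable.of_bound ?_ 1 (Filter.Eventually.of_forall fun z => ?_)
      · exact (((hms n hn).comp measurable_fst).mul
          ((Complex.continuous_conj.measurable.comp ((hms n hn).comp measurable_snd)))).aestronglyMeasurable
      · rw [norm_mul, RCLike.norm_conj]
        exact mul_le_one₀ (hbd n hn _) (norm_nonneg _) (hbd n hn _)
  have hS0 : 0 ≤ ∑ n ∈ Icc a b, ‖c n‖ ^ 2 := Finset.sum_nonneg fun n _ => sq_nonneg _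
  have hsum2 : ∑ n ∈ Icc a b, ‖c n‖ ^ 2 ≤ ∫ z, ‖K (z.1 - z.2)‖ ∂ν := by
    have : ‖((∑ n ∈ Icc a b, ‖c n‖ ^ 2 : ℝ) : ℂ)‖ = ∑ n ∈ Icc a b, ‖c n‖ ^ 2 := by
      rw [Complex.norm_real, Real.norm_of_nonneg hS0]
    rw [← this, hsq]
    refine norm_integral_le_of_norm_le hKint (Filter.Eventually.of_forall fun z => ?_)
    rw [norm_mul, norm_mul, RCLike.norm_conj]
    calc ‖χ z.1‖ * ‖χ z.2‖ * ‖K (z.1 - z.2)‖ ≤ 1 * ‖K (z.1 - z.2)‖ :=
          mul_le_mul_of_nonneg_right (mul_le_one₀ (hχn _) (norm_nonneg _) (hχn _)) (norm_nonneg _)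
      _ = ‖K (z.1 - z.2)‖ := one_mul _
  have hG0 : 0 ≤ ∑ n ∈ Icc a b, g n ^ 2 / n := Finset.sum_nonneg fun n _ => by positivity
  have hlhs : (∫ t, ‖∑ n ∈ Icc a b, (g n : ℂ) * (n : ℂ) ^ (-(1 + (t : ℂ) * Complex.I))‖ ∂μ)
      = ∫ t, ‖P t‖ ∂μ := by
    refine integral_congr_ae (Filter.Eventually.of_forall fun t => ?_)
    simp only [hPeq t]
  rw [hlhs]
  refine le_trans hCS (mul_le_mul_of_nonneg_left ?_ hG0)
  refine le_trans hsum1 (mul_le_mul_of_nonneg_left ?_ (by positivity))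
  refine le_trans hsum2 (le_of_eq ?_)
  rw [hprod]

end Pool.Agent.Lib.H31P
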