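import Pool.Agent.Lib.H31P.Top

/-!
# Chunk N1 (S/M): numerical lemmas on exponents
-/

namespace Pool.Agent.Lib.H31P

noncomputable section

/-- The left end of the window. -/
def aa (α : ℝ) : ℝ := if α ≤ 1 / 4 then 1 / (2 - 3 * α) else 1 / (1 + α)

/-- `1/2 ≤ aa ≤ 4/5`. -/
theorem aa_bds (α : ℝ) (h0 : 0 ≤ α) (h1 : α ≤ 1 / 2) : 1 / 2 ≤ aa α ∧ aa α ≤ 4 / 5 := by
  unfold aa
  split_ifs with h
  · have h2 : (0 : ℝ) < 2 - 3 * α := by linarith
    constructor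
    · rw [div_le_div_iff₀ (by norm_num) h2]; linarith
    · rw [div_le_div_iff₀ h2 (by norm_num)]; linarith
  · have h2 : (0 : ℝ) < 1 + α := by linarith
    push Not at h
    constructor
    · rw [div_le_div_iff₀ (by norm_num) h2]; linarith
    · rw [div_le_div_iff₀ h2 (by norm_num)]; linarith

/-- In the window `[a, 3a/2]`, `α ≤ 1/4` (Huxley): `2αy ≤ pA α` and `1 + (6α-2)y ≤ pA α`. (`2αy ≤ 3α a`, `1 - (2-6α)a = 3α/(2-3α)`.) -/
theorem win_low (α y : ℝ) (h0 : 0 ≤ α) (h1 : α ≤ 1 / 4) (hy : aa α ≤ y) (hy1 : y ≤ 3 / 2 * aa α) :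
    2 * α * y ≤ pA α ∧ 1 + (6 * α - 2) * y ≤ pA α := by
  have h2 : (0 : ℝ) < 2 - 3 * α := by linarith
  have ha : aa α = 1 / (2 - 3 * α) := by unfold aa; rw [if_pos h1]
  have hp : pA α = 3 * α / (2 - 3 * α) := by unfold pA; rw [if_pos h1]
  rw [ha] at hy hy1
  rw [hp]
  set D := 2 - 3 * α with hD
  have e1 : 3 * α / D = 2 * α * (3 / 2 * (1 / D)) := by ring
  have e2 : 3 * α / D = 1 + (6 * α - 2) * (1 / D) := by
    have : D ≠ 0 := h2.ne'
    field_simp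
    rw [hD]; ring
  constructor
  · rw [e1]
    exact mul_le_mul_of_nonneg_left hy1 (by linarith)
  · rw [e2]
    have : (6 * α - 2) * y ≤ (6 * α - 2) * (1 / D) := mul_le_mul_of_nonpos_left hy (by linarith)
    linarith

/-- In the window `[a, 3a/2]`, `1/4 ≤ α ≤ 1/2` (mean value theorem): `2αy ≤ pA α` and `1 + (2α-1)y ≤ pA α`. (At `α = 1/4` both definitions of `aa` and of `pA` agree.) -/
theorem win_high (α y : ℝ) (h0 : 1 / 4 ≤ α) (h1 : α ≤ 1 / 2) (hy : aa α ≤ y) (hy1 : y ≤ 3 / 2 * aa α) :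
    2 * α * y ≤ pA α ∧ 1 + (2 * α - 1) * y ≤ pA α := by
  have h2 : (0 : ℝ) < 1 + α := by linarith
  have ha : aa α = 1 / (1 + α) := by
    unfold aa
    split_ifs with h
    · have : α = 1 / 4 := le_antisymm h h0
      rw [this]; norm_num
    · rfl
  have hp : pA α = 3 * α / (1 + α) := by
    unfold pA
    split_ifs with h
    · have : α = 1 / 4 := le_antisymm h h0
      rw [this]; norm_num
    · rfl
  rw [ha] at hy hy1
  rw [hp]
  set D := 1 + α with hD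
  have e1 : 3 * α / D = 2 * α * (3 / 2 * (1 / D)) := by ring
  have e2 : 3 * α / D = 1 + (2 * α - 1) * (1 / D) := by
    have : D ≠ 0 := h2.ne'
    field_simp
    rw [hD]; ring
  constructor
  · rw [e1]
    exact mul_le_mul_of_nonneg_left hy1 (by linarith)
  · rw [e2]
    have : (2 * α - 1) * y ≤ (2 * α - 1) * (1 / D) := mul_le_mul_of_nonpos_left hy (by linarith)
    linarith

/-- A multiple of `ν ≤ 3a/4` lies in `[a, 3a/2]`: `m = ⌈a/ν⌉` if `ν ≤ a/2`, `m = 2` otherwise; `m ≤ 3a/(2ν)`. -/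
theorem mult_win (ν a : ℝ) (hν : 0 < ν) (ha : 0 < a) (h : ν ≤ 3 / 4 * a) :
    ∃ m : ℕ, 1 ≤ m ∧ a ≤ m * ν ∧ (m : ℝ) * ν ≤ 3 / 2 * a := by
  by_cases hc : ν ≤ a / 2
  · refine ⟨⌈a / ν⌉₊, Nat.ceil_pos.mpr (div_pos ha hν), ?_, ?_⟩
    · have := Nat.le_ceil (a / ν)
      rwa [div_le_iff₀ hν] at this
    · have := (Nat.ceil_lt_add_one (div_pos ha hν).le).le
      have h3 : (⌈a / ν⌉₊ : ℝ) * ν ≤ (a / ν + 1) * ν := mul_le_mul_of_nonneg_right this hν.le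
      have h4 : (a / ν + 1) * ν = a + ν := by field_simp
      linarith
  · push Not at hc
    refine ⟨2, by norm_num, ?_, ?_⟩
    · push_cast; linarith
    · push_cast; linarith

/-- The fourth moment, `y ≥ (3/4) a`, `y ≤ 6/5`: `αy ≤ pA α`, and `1 + (4α-2)y ≤ pA α` if `α ≥ 1/6`, `≤ pA α + 2κ'` if `1/6 - κ' ≤ α ≤ 1/6`.

Proof. `pA α ≥ (3/2)α`. `1 - (2-4α)(3/4)a`: for `α ≤ 1/4` it is `(1/2)/(2-3α) = pA α + (1/2 - 3α)/(2-3α)`, `2 - 3α ≥ 5/4` and `≥ 3/2` for `α ≤ 1/6`; for `α ≥ 1/4` it is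
`(4α - 1/2)/(1+α) ≤ 3α/(1+α)`. -/
theorem win_four (α y κ' : ℝ) (h0 : 0 ≤ α) (h1 : α ≤ 1 / 2) (hκ : 0 ≤ κ') (hα : 1 / 6 - κ' ≤ α) (hy : 3 / 4 * aa α ≤ y) (hy1 : y ≤ 6 / 5) :
    α * y ≤ pA α ∧ 1 + (4 * α - 2) * y ≤ pA α + 2 * κ' := by
  by_cases hc : α ≤ 1 / 4
  · have h2 : (0 : ℝ) < 2 - 3 * α := by linarith
    have ha : aa α = 1 / (2 - 3 * α) := by unfold aa; rw [if_pos hc]
    have hp : pA α = 3 * α / (2 - 3 * α) := by unfold pA; rw [if_pos hc]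
    rw [ha] at hy
    rw [hp]
    constructor
    · have e1 : α * y ≤ α * (6 / 5) := mul_le_mul_of_nonneg_left hy1 h0
      have e2 : α * (6 / 5) ≤ 3 * α / (2 - 3 * α) := by
        rw [le_div_iff₀ h2]
        nlinarith
      linarith
    · have e1 : (4 * α - 2) * y ≤ (4 * α - 2) * (3 / 4 * (1 / (2 - 3 * α))) :=
        mul_le_mul_of_nonpos_left hy (by linarith)
      have e2 : 1 + (4 * α - 2) * (3 / 4 * (1 / (2 - 3 * α))) = (1 / 2) / (2 - 3 * α) := by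
        have e4 : (2 - 3 * α) * (1 / (2 - 3 * α)) = 1 := mul_one_div_cancel h2.ne'
        have e5 : (1 / 2) / (2 - 3 * α) = 1 / 2 * (1 / (2 - 3 * α)) := by ring
        rw [e5]
        linear_combination (-1 : ℝ) * e4
      have e3 : (1 / 2) / (2 - 3 * α) ≤ 3 * α / (2 - 3 * α) + 2 * κ' := by
        rw [div_add' _ _ _ h2.ne', div_le_div_iff_of_pos_right h2]
        rcases le_total (1 / 6) α with h6 | h6
        · nlinarith [mul_nonneg hκ h2.le]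
        · nlinarith [mul_nonneg hκ (by linarith : (0 : ℝ) ≤ 1 / 6 - α)]
      linarith
  · push Not at hc
    have h2 : (0 : ℝ) < 1 + α := by linarith
    have ha : aa α = 1 / (1 + α) := by unfold aa; rw [if_neg (not_le.mpr hc)]
    have hp : pA α = 3 * α / (1 + α) := by unfold pA; rw [if_neg (not_le.mpr hc)]
    rw [ha] at hy
    rw [hp]
    constructor
    · have e1 : α * y ≤ α * (6 / 5) := mul_le_mul_of_nonneg_left hy1 h0
      have e2 : α * (6 / 5) ≤ 3 * α / (1 + α) := by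
        rw [le_div_iff₀ h2]
        nlinarith
      linarith
    · have e1 : (4 * α - 2) * y ≤ (4 * α - 2) * (3 / 4 * (1 / (1 + α))) :=
        mul_le_mul_of_nonpos_left hy (by linarith)
      have e2 : 1 + (4 * α - 2) * (3 / 4 * (1 / (1 + α))) = (4 * α - 1 / 2) / (1 + α) := by
        field_simp
        ring
      have e3 : (4 * α - 1 / 2) / (1 + α) ≤ 3 * α / (1 + α) := by
        rw [div_le_div_iff_of_pos_right h2]
        linarith
      linarith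

/-- The pointwise bound excludes small `α`: `(1/2-α)y ≥ 1/6 + κ'/8` for `α ≤ 1/6 - κ'`, `y ≥ (3/4)a`: `(1/2-α)(3/4)/(2-3α) - 1/6 = (1/4)(1/6-α)/(2-3α) ≥ κ'/8`. -/
theorem win_pt (α y κ' : ℝ) (h0 : 0 ≤ α) (hκ : 0 ≤ κ') (hα : α ≤ 1 / 6 - κ') (hy : 3 / 4 * aa α ≤ y) :
    1 / 6 + κ' / 8 ≤ (1 / 2 - α) * y := by
  have hc : α ≤ 1 / 4 := by linarith
  have h2 : (0 : ℝ) < 2 - 3 * α := by linarith
  have ha : aa α = 1 / (2 - 3 * α) := by unfold aa; rw [if_pos hc]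
  rw [ha] at hy
  have e1 : (1 / 2 - α) * (3 / 4 * (1 / (2 - 3 * α))) ≤ (1 / 2 - α) * y :=
    mul_le_mul_of_nonneg_left hy (by linarith)
  have e2 : 1 / 6 + κ' / 8 ≤ (1 / 2 - α) * (3 / 4 * (1 / (2 - 3 * α))) := by
    have e3 : (1 / 2 - α) * (3 / 4 * (1 / (2 - 3 * α))) = ((1 / 2 - α) * (3 / 4)) / (2 - 3 * α) := by
      ring
    rw [e3, le_div_iff₀ h2]
    nlinarith [mul_nonneg hκ h0]
  linarith

end

end Pool.Agent.Lib.H31P
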