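import Pool.Agent.Lib.H31P.N1

/-!
# Chunk N2 (M): large values of factors of length at most `T^(3a/4)`
-/

open Finset MeasureTheory

namespace Pool.Agent.Lib.H31P


private theorem n2_unif (hL : LVStm) (M : ℕ) : ∃ C : ℕ, 1 ≤ C ∧ ∀ m : ℕ, 1 ≤ m → m ≤ M → ∀ (f : ℕ → ℝ) (i : ℕ) (A T α : ℝ), 1 ≤ i → 1 ≤ A →
    1 ≤ T → 0 ≤ α → α ≤ 1 / 2 →
    1 ≤ A * i * Real.log (T + 2) →
    (∀ n, f n ≠ 0 → Real.exp ((i : ℝ) - 1) < n ∧ (n : ℝ) < Real.exp ((i : ℝ) + 1)) → (∀ n, |f n| ≤ A) →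
    volume {t : ℝ | |t| ≤ T ∧ Real.exp (-(α * i)) < ‖Di f i t‖} ≤
      ENNReal.ofReal (C * (A * i * Real.log (T + 2)) ^ C *
        (Real.exp (2 * α * (m * i)) + T * Real.exp ((2 * α - 1) * (m * i)))) ∧
    volume {t : ℝ | |t| ≤ T ∧ Real.exp (-(α * i)) < ‖Di f i t‖} ≤
      ENNReal.ofReal (C * (A * i * Real.log (T + 2)) ^ C *
        (Real.exp (2 * α * (m * i)) + T * Real.exp ((6 * α - 2) * (m * i)))) := by
  induction M with
  | zero => exact ⟨1, le_rfl, fun m h1 h2 => absurd h2 (by omega)⟩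
  | succ M ih =>
    obtain ⟨C, hC1, hC⟩ := ih
    obtain ⟨C', hC1', hC'⟩ := hL (M + 1) (by omega)
    refine ⟨C + C', by omega, ?_⟩
    intro m hm1 hm2 f i A T α hi hA hT h0 h1 hB hs hf
    set B := A * i * Real.log (T + 2) with hBdef
    have key : ∀ (D : ℕ) (Z : ℝ), D ≤ C + C' → 0 ≤ Z →
        ENNReal.ofReal (D * B ^ D * Z) ≤ ENNReal.ofReal ((C + C' : ℕ) * B ^ (C + C') * Z) := by
      intro D Z hD hZ
      apply ENNReal.ofReal_le_ofReal
      apply mul_le_mul_of_nonneg_right _ hZ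
      apply mul_le_mul (by exact_mod_cast hD) (pow_le_pow_right₀ hB hD) (by positivity) (by positivity)
    have hT0 : 0 ≤ T := by linarith
    have z1 : 0 ≤ Real.exp (2 * α * (m * i)) + T * Real.exp ((2 * α - 1) * (m * i)) := by positivity
    have z2 : 0 ≤ Real.exp (2 * α * (m * i)) + T * Real.exp ((6 * α - 2) * (m * i)) := by positivity
    rcases Nat.lt_or_ge M m with hmm | hmm
    · have : m = M + 1 := by omega
      subst this
      obtain ⟨q1, q2⟩ := hC' f i A T α hi hA hT h0 h1 hs hf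
      exact ⟨q1.trans (key C' _ (by omega) z1), q2.trans (key C' _ (by omega) z2)⟩
    · obtain ⟨q1, q2⟩ := hC m hm1 hmm f i A T α hi hA hT h0 h1 hB hs hf
      exact ⟨q1.trans (key C _ (by omega) z1), q2.trans (key C _ (by omega) z2)⟩

/-- **Short factors.**

Proof. `ν = i/log T`, `δ/2 ≤ ν ≤ (3/4)a`, `a = aa α` (`log T ≤ 2 log X`). `mult_win`: `m` with `a ≤ mν ≤ 3a/2`, so `m ≤ (6/5)(2/δ) = 12/(5δ)`: `C` = the maximum of the constants of `LVStm` for
the `m ≤ ⌈12/(5δ)⌉` (`Finset.sup` or `∃ C, ∀ m ≤ M, ...` by induction; the bound of `LVStm` is increasing in `C` because `A i log (T+2) ≥ 1`). `y = mν`, `e^(mi) = T^y`: for `α ≤ 1/4` the second bound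
gives `C(...)^C (T^(2αy) + T^(1+(6α-2)y)) ≤ 2C(...)^C T^(pA α)` (`win_low`), for `α ≥ 1/4` the first bound and `win_high`. `A = i + 1`, `i ≤ (3/4)(4/5)(2 log X) ≤ 2 log X`, `log (T+2) ≤ 3 log X`: everything
is `≤ (log X)^(C')`. `i ≥ 1` for large `X`. -/
theorem lv_part (hL : LVStm) (δ : ℝ) (hδ : 0 < δ) : ∃ C X₀ : ℝ, 1 ≤ C ∧ 3 ≤ X₀ ∧ ∀ X T α : ℝ, X₀ ≤ X → X ^ (1 / 3 : ℝ) ≤ T → T ≤ X ^ 2 →
    0 ≤ α → α ≤ 1 / 2 → ∀ (f : ℕ → ℝ) (i : ℕ), δ * Real.log X ≤ i → (i : ℝ) ≤ 3 / 4 * aa α * Real.log T →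
    (∀ n, f n ≠ 0 → Real.exp ((i : ℝ) - 1) < n ∧ (n : ℝ) < Real.exp ((i : ℝ) + 1)) → (∀ n, |f n| ≤ (i : ℝ) + 1) →
    volume {t : ℝ | |t| ≤ T ∧ Real.exp (-(α * i)) < ‖Di f i t‖} ≤ ENNReal.ofReal (Real.log X ^ C * T ^ pA α) := by
  obtain ⟨C, hC1, hC⟩ := n2_unif hL ⌈12 / (5 * δ)⌉₊
  have hC1r : (1 : ℝ) ≤ C := by exact_mod_cast hC1
  refine ⟨5 * C + 1, max 3 (Real.exp 12), by linarith, le_max_left _ _, ?_⟩
  intro X T α hX hT1 hT2 h0 h1 f i hi1 hi2 hs hf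
  have hX3 : (3 : ℝ) ≤ X := (le_max_left _ _).trans hX
  have hXe : Real.exp 12 ≤ X := (le_max_right _ _).trans hX
  have hX0 : 0 < X := by linarith
  set L := Real.log X with hLdef
  have hL12 : 12 ≤ L := by
    rw [hLdef, Real.le_log_iff_exp_le hX0]; exact hXe
  have hT0 : 0 < T := lt_of_lt_of_le (Real.rpow_pos_of_pos hX0 _) hT1
  have hlT1 : L / 3 ≤ Real.log T := by
    have := Real.log_le_log (Real.rpow_pos_of_pos hX0 _) hT1
    rw [Real.log_rpow hX0] at this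
    linarith
  have hlT2 : Real.log T ≤ 2 * L := by
    have := Real.log_le_log hT0 hT2
    rw [Real.log_pow] at this
    push_cast at this
    linarith
  have hlT0 : 0 < Real.log T := by linarith
  have hT1' : 1 ≤ T := by
    have : Real.log 1 ≤ Real.log T := by rw [Real.log_one]; exact hlT0.le
    exact (Real.log_le_log_iff one_pos hT0).1 this
  have hi0 : (0 : ℝ) < i := lt_of_lt_of_le (mul_pos hδ (by linarith)) hi1
  have hi0' : 1 ≤ i := by exact_mod_cast hi0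
  obtain ⟨ha1, ha2⟩ := aa_bds α h0 h1
  have hi3 : (i : ℝ) ≤ 6 / 5 * L := by
    have e1 : 3 / 4 * aa α * Real.log T ≤ 3 / 4 * (4 / 5) * (2 * L) :=
      mul_le_mul (by linarith) hlT2 hlT0.le (by norm_num)
    linarith
  -- the multiple
  set ν := (i : ℝ) / Real.log T with hν
  have hν0 : 0 < ν := div_pos hi0 hlT0
  have hνa : ν ≤ 3 / 4 * aa α := by rw [hν, div_le_iff₀ hlT0]; exact hi2
  have hνi : ν * Real.log T = i := by rw [hν]; field_simp
  obtain ⟨m, hm1, hm2, hm3⟩ := mult_win ν (aa α) hν0 (by linarith) hνa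
  have hνδ : δ / 2 ≤ ν := by
    rw [hν, le_div_iff₀ hlT0]
    have : δ / 2 * Real.log T ≤ δ / 2 * (2 * L) := mul_le_mul_of_nonneg_left hlT2 (by linarith)
    linarith
  have hmM : m ≤ ⌈12 / (5 * δ)⌉₊ := by
    have h3 : (m : ℝ) ≤ 12 / (5 * δ) := by
      rw [le_div_iff₀ (by linarith)]
      have h4 : (m : ℝ) * (δ / 2) ≤ m * ν := mul_le_mul_of_nonneg_left hνδ (by positivity)
      linarith
    exact_mod_cast h3.trans (Nat.le_ceil _)
  -- the base
  have hlog2 : Real.log (T + 2) ≤ 3 * L := by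
    have e1 : T + 2 ≤ X ^ 3 := by nlinarith [sq_nonneg X]
    have e2 := Real.log_le_log (by linarith : 0 < T + 2) e1
    rw [Real.log_pow] at e2
    push_cast at e2
    exact e2
  have hlog1 : 1 ≤ Real.log (T + 2) := by
    have : Real.log T ≤ Real.log (T + 2) := Real.log_le_log hT0 (by linarith)
    linarith
  have hi1' : (1 : ℝ) ≤ i := by exact_mod_cast hi0'
  set B := ((i : ℝ) + 1) * i * Real.log (T + 2) with hB
  have hB1 : 1 ≤ B := by
    have e1 : 1 ≤ ((i : ℝ) + 1) * i := by nlinarith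
    rw [hB]
    exact one_le_mul_of_one_le_of_one_le e1 hlog1
  have hBL : B ≤ L ^ 4 := by
    have e1 : ((i : ℝ) + 1) * i ≤ (2 * L) * (2 * L) := by
      apply mul_le_mul _ _ (by positivity) (by linarith)
      · linarith
      · linarith
    have e2 : B ≤ (2 * L) * (2 * L) * (3 * L) := by
      rw [hB]
      exact mul_le_mul e1 hlog2 (by linarith) (by nlinarith)
    have e3 : (2 * L) * (2 * L) * (3 * L) = 12 * L ^ 3 := by ring
    have e4 : 12 * L ^ 3 ≤ L * L ^ 3 := mul_le_mul_of_nonneg_right hL12 (by positivity)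
    calc B ≤ 12 * L ^ 3 := by rw [← e3]; exact e2
      _ ≤ L * L ^ 3 := e4
      _ = L ^ 4 := by ring
  have hBC : (C : ℝ) * B ^ C * 2 ≤ L ^ (5 * C + 1) := by
    have hL0 : 0 ≤ L := by linarith
    have e1 : (C : ℝ) ≤ L ^ C := by
      have : (C : ℝ) ≤ (2 : ℝ) ^ C := by exact_mod_cast (Nat.lt_two_pow_self).le
      exact this.trans (pow_le_pow_left₀ (by norm_num) (by linarith) C)
    have e2 : B ^ C ≤ (L ^ 4) ^ C := pow_le_pow_left₀ (by linarith) hBL C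
    calc (C : ℝ) * B ^ C * 2 ≤ L ^ C * (L ^ 4) ^ C * L := by
          apply mul_le_mul (mul_le_mul e1 e2 (by positivity) (by positivity)) (by linarith) (by norm_num)
            (by positivity)
      _ = L ^ (5 * C + 1) := by ring
  have hBC' : (C : ℝ) * B ^ C * 2 ≤ L ^ (5 * (C : ℝ) + 1) := by
    have : L ^ (5 * (C : ℝ) + 1) = L ^ (5 * C + 1) := by
      rw [← Real.rpow_natCast]
      push_cast
      rfl
    rw [this]; exact hBC
  have hexp : ∀ c : ℝ, Real.exp (c * (m * i)) = T ^ (c * (m * ν)) := by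
    intro c
    rw [Real.rpow_def_of_pos hT0]
    congr 1
    rw [← hνi]; ring
  have hTexp : ∀ c : ℝ, T * T ^ c = T ^ (1 + c) := by
    intro c
    rw [Real.rpow_add hT0, Real.rpow_one]
  have hfin : ∀ c : ℝ, 2 * α * (m * ν) ≤ pA α → 1 + c * (m * ν) ≤ pA α →
      ENNReal.ofReal (C * B ^ C * (Real.exp (2 * α * (m * i)) + T * Real.exp (c * (m * i)))) ≤
        ENNReal.ofReal (L ^ (5 * (C : ℝ) + 1) * T ^ pA α) := by
    intro c hc1 hc2
    apply ENNReal.ofReal_le_ofReal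
    rw [hexp, hexp, hTexp]
    have e1 : T ^ (2 * α * (m * ν)) ≤ T ^ pA α := Real.rpow_le_rpow_of_exponent_le hT1' hc1
    have e2 : T ^ (1 + c * (m * ν)) ≤ T ^ pA α := Real.rpow_le_rpow_of_exponent_le hT1' hc2
    calc (C : ℝ) * B ^ C * (T ^ (2 * α * (m * ν)) + T ^ (1 + c * (m * ν)))
        ≤ C * B ^ C * (T ^ pA α + T ^ pA α) := by
          apply mul_le_mul_of_nonneg_left (add_le_add e1 e2) (by positivity)
      _ = C * B ^ C * 2 * T ^ pA α := by ring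
      _ ≤ L ^ (5 * (C : ℝ) + 1) * T ^ pA α :=
          mul_le_mul_of_nonneg_right hBC' (Real.rpow_nonneg hT0.le _)
  obtain ⟨q1, q2⟩ := hC m hm1 hmM f i ((i : ℝ) + 1) T α hi0' (by linarith) hT1' h0 h1 hB1 hs hf
  rcases le_total α (1 / 4) with hα | hα
  · obtain ⟨w1, w2⟩ := win_low α (m * ν) h0 hα hm2 hm3
    exact q2.trans (hfin _ w1 w2)
  · obtain ⟨w1, w2⟩ := win_high α (m * ν) hα h1 hm2 hm3
    exact q1.trans (hfin _ w1 w2)

end Pool.Agent.Lib.H31P
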