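import Pool.Agent.Lib.H31P.Top
import Pool.Agent.Lib.H31W.P1

/-!
# Chunk P1 (M): Parseval's inequality for bounded integrable functions
-/

open Finset MeasureTheory FourierTransform

namespace Pool.Agent.Lib.H31P

section

open SchwartzMap
open scoped ContDiff InnerProductSpace

/-- The class of `𝓕 f` in `L²`. -/
private theorem p1_class (f : ℝ → ℂ) (hf : Integrable f) (C : ℝ) (hC : ∀ x, ‖f x‖ ≤ C) :
    ∃ F : Lp ℂ 2 (volume : Measure ℝ), (F : ℝ → ℂ) =ᵐ[volume] f ∧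
      ((𝓕 F : Lp ℂ 2 (volume : Measure ℝ)) : ℝ → ℂ) =ᵐ[volume] 𝓕 f := by
  have h2 : MemLp f 2 := by
    rw [memLp_two_iff_integrable_sq_norm hf.1]
    refine (hf.norm.const_mul C).mono' (hf.1.norm.pow 2) ?_
    filter_upwards with x
    rw [Real.norm_eq_abs, abs_of_nonneg (sq_nonneg _), sq]
    exact mul_le_mul_of_nonneg_right (hC x) (norm_nonneg _)
  obtain ⟨F, hF⟩ : ∃ F : Lp ℂ 2 (volume : Measure ℝ), F = h2.toLp f := ⟨_, rfl⟩
  obtain ⟨G, hG⟩ : ∃ G : Lp ℂ 2 (volume : Measure ℝ), G = 𝓕 F := ⟨_, rfl⟩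
  have hFf : (F : ℝ → ℂ) =ᵐ[volume] f := by
    rw [hF]
    exact h2.coeFn_toLp
  have hcont : Continuous (𝓕 f) :=
    VectorFourier.fourierIntegral_continuous Real.continuous_fourierChar continuous_inner hf
  have hGf : (G : ℝ → ℂ) =ᵐ[volume] 𝓕 f := by
    apply ae_eq_of_integral_contDiff_smul_eq
    · exact (Lp.memLp G).locallyIntegrable (by norm_num)
    · exact hcont.locallyIntegrable
    · intro g hg1 hg2
      have c1 : HasCompactSupport (Complex.ofRealCLM ∘ g) := hg2.comp_left rfl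
      have c2 : ContDiff ℝ ∞ (Complex.ofRealCLM ∘ g) := by fun_prop
      have e1 : ∫ x, (c1.toSchwartzMap c2) x • G x = ∫ x, (𝓕 (c1.toSchwartzMap c2)) x • F x := by
        have h3 := DFunLike.congr_fun (Lp.fourier_toTemperedDistribution_eq F) (c1.toSchwartzMap c2)
        rw [TemperedDistribution.fourier_apply, Lp.toTemperedDistribution_apply,
          Lp.toTemperedDistribution_apply] at h3
        rw [hG]
        exact h3.symm
      have e2 : ∫ x, (𝓕 (c1.toSchwartzMap c2)) x • F x = ∫ x, (𝓕 (c1.toSchwartzMap c2)) x • f x := by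
        apply integral_congr_ae
        filter_upwards [hFf] with x hx
        rw [hx]
      have e3 : ∫ x, (𝓕 (c1.toSchwartzMap c2)) x • f x = ∫ x, (c1.toSchwartzMap c2) x • 𝓕 f x := by
        have h4 := VectorFourier.integral_fourierIntegral_smul_eq_flip (L := innerₗ ℝ)
          Real.continuous_fourierChar continuous_inner ((c1.toSchwartzMap c2).integrable (μ := volume)) hf
        rw [SchwartzMap.fourier_coe]
        rw [flip_innerₗ] at h4
        exact h4
      have e4 := (e1.trans e2).trans e3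
      simpa using e4
  refine ⟨F, hFf, ?_⟩
  rw [← hG]
  exact hGf

private theorem p1_inner (F G : Lp ℂ 2 (volume : Measure ℝ)) (f g : ℝ → ℂ)
    (hF : (F : ℝ → ℂ) =ᵐ[volume] f) (hG : (G : ℝ → ℂ) =ᵐ[volume] g) :
    inner ℂ G F = ∫ x : ℝ, (starRingEnd ℂ) (g x) * f x := by
  rw [L2.inner_def]
  apply integral_congr_ae
  filter_upwards [hF, hG] with x h1 h2
  rw [h1, h2, RCLike.inner_apply, mul_comm]

end

/-- **Parseval.**

Proof. The file `H31W/P1.lean` (`p1_plancherel`) shows that the class `𝓕 F` in `L²` (`F ∈ L²` the class of `f`) is a.e. equal to the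
function `𝓕 f`; copy that part as a private lemma. The Fourier transform on `L²` is an isometry, so it preserves inner products
(`MeasureTheory.Lp.inner_fourier_eq` if it exists, otherwise `LinearIsometryEquiv.inner_map_map` for
`MeasureTheory.Lp.fourierTransformₗᵢ`, or polarisation of `Lp.norm_fourier_eq`): `∫ conj(g) f = ⟪G, F⟫ = ⟪𝓕 G, 𝓕 F⟫ = ∫ conj(𝓕 g) 𝓕 f`
(`L2.inner_def`, `integral_congr_ae`), and `‖∫ conj(𝓕 g) 𝓕 f‖ₑ ≤ ∫⁻ ‖𝓕 g‖ₑ ‖𝓕 f‖ₑ` (`enorm_integral_le_lintegral_enorm`;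
`ofReal_norm_eq_enorm`). No integrability of the right side is needed. -/
theorem parseval (f g : ℝ → ℂ) (hf : Integrable f) (hg : Integrable g) (C : ℝ) (hCf : ∀ x, ‖f x‖ ≤ C)
    (hCg : ∀ x, ‖g x‖ ≤ C) :
    ENNReal.ofReal ‖∫ x : ℝ, (starRingEnd ℂ) (g x) * f x‖ ≤
      ∫⁻ ξ : ℝ, ENNReal.ofReal (‖𝓕 f ξ‖ * ‖𝓕 g ξ‖) := by
  obtain ⟨F, hF1, hF2⟩ := p1_class f hf C hCf
  obtain ⟨G, hG1, hG2⟩ := p1_class g hg C hCg
  have h1 := p1_inner F G f g hF1 hG1
  have h2 := p1_inner (𝓕 F) (𝓕 G) (𝓕 f) (𝓕 g) hF2 hG2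
  rw [Lp.inner_fourier_eq] at h2
  rw [← h1, h2, ofReal_norm]
  refine (enorm_integral_le_lintegral_enorm _).trans (le_of_eq ?_)
  refine lintegral_congr fun ξ => ?_
  rw [← ofReal_norm, norm_mul, RCLike.norm_conj, mul_comm]

end Pool.Agent.Lib.H31P
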