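import Pool.Agent.Lib.H31P.Top

/-!
# Chunk S2 (M): partial summation against the tents
-/

open Finset

namespace Pool.Agent.Lib.H31P

private theorem S2_id (g a : ℕ → ℂ) (M : ℕ) :
    ∑ n ∈ Icc 1 M, g n * a n = g M * ∑ k ∈ Icc 1 M, a k +
      ∑ n ∈ Ico 1 M, (g n - g (n + 1)) * ∑ k ∈ Icc 1 n, a k := by
  induction M with
  | zero => simp
  | succ M ih =>
    rcases Nat.eq_zero_or_pos M with rfl | hM
    · simp
    · rw [Finset.sum_Icc_succ_top (by omega), ih, Finset.sum_Icc_succ_top (by omega),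
        Finset.sum_Ico_succ_top (by omega)]
      ring

private theorem S2_psi_nonneg (x : ℝ) : 0 ≤ psi x := le_max_left _ _

private theorem S2_psi_le (x : ℝ) : psi x ≤ 1 := by
  unfold psi
  apply max_le zero_le_one
  linarith [abs_nonneg x]

private theorem S2_psi_lip (x y : ℝ) : |psi x - psi y| ≤ |x - y| := by
  unfold psi
  have h1 : |max 0 (1 - |x|) - max 0 (1 - |y|)| ≤ |(1 - |x|) - (1 - |y|)| := by
    have := abs_max_sub_max_le_max 0 (1 - |x|) 0 (1 - |y|)
    simpa using this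
  refine h1.trans ?_
  have h2 : (1 - |x|) - (1 - |y|) = |y| - |x| := by ring
  rw [h2]
  have := abs_abs_sub_abs_le_abs_sub y x
  rwa [abs_sub_comm y x] at this

private theorem S2_psi_supp (x : ℝ) (h : psi x ≠ 0) : |x| < 1 := by
  by_contra hc
  push Not at hc
  apply h
  unfold psi
  exact max_eq_left (by linarith)

private theorem S2_main (G : ℕ → ℝ) (a : ℕ → ℂ) (i : ℕ) (B c d : ℝ) (hB : 0 ≤ B) (hc : 0 ≤ c) (hd : 0 ≤ d)
    (h : ∀ n : ℕ, Real.exp ((i : ℝ) - 1) - 1 ≤ n → (n : ℝ) ≤ Real.exp ((i : ℝ) + 1) →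
      ‖∑ k ∈ Icc 1 n, a k‖ ≤ B * n)
    (hs : ∀ n, G n ≠ 0 → Real.exp ((i : ℝ) - 1) < n ∧ (n : ℝ) < Real.exp ((i : ℝ) + 1))
    (hG : ∀ n, |G n| ≤ c) (hL : ∀ n : ℕ, 1 ≤ n → |G n - G (n + 1)| ≤ d / n) (M : ℕ) :
    ‖∑ n ∈ Icc 1 M, ((G n / n : ℝ) : ℂ) * a n‖ ≤ (c + (c + d) * 16) * B := by
  rw [S2_id (fun n => ((G n / n : ℝ) : ℂ)) a M]
  refine (norm_add_le _ _).trans ?_
  have e1 : ‖((G M / M : ℝ) : ℂ) * ∑ k ∈ Icc 1 M, a k‖ ≤ c * B := by
    by_cases hM : G M = 0
    · rw [hM]; simp; positivity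
    · obtain ⟨h1, h2⟩ := hs M hM
      have hM0 : (0 : ℝ) < M := (Real.exp_pos _).trans h1
      have h3 := h M (by linarith) h2.le
      rw [norm_mul, Complex.norm_real, Real.norm_eq_abs, abs_div, abs_of_pos hM0]
      calc |G M| / M * ‖∑ k ∈ Icc 1 M, a k‖ ≤ c / M * (B * M) := by
            apply mul_le_mul _ h3 (norm_nonneg _) (by positivity)
            exact div_le_div_of_nonneg_right (hG M) hM0.le
        _ = c * B := by field_simp
  have e2 : ∀ n ∈ Ico 1 M, ‖(((G n / n : ℝ) : ℂ) - ((G (n + 1) / ((n + 1 : ℕ) : ℝ) : ℝ) : ℂ)) * ∑ k ∈ Icc 1 n, a k‖ ≤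
      if (n : ℝ) < Real.exp ((i : ℝ) + 1) then (c + d) * B * (2 * Real.exp (1 - (i : ℝ))) else 0 := by
    intro n hn
    rw [Finset.mem_Ico] at hn
    have hn0 : (1 : ℝ) ≤ n := by exact_mod_cast hn.1
    by_cases hz : G n = 0 ∧ G (n + 1) = 0
    · rw [hz.1, hz.2]
      simp only [zero_div, Complex.ofReal_zero, sub_zero, zero_mul, norm_zero]
      split_ifs
      · positivity
      · exact le_rfl
    · have hr : Real.exp ((i : ℝ) - 1) - 1 ≤ n ∧ (n : ℝ) < Real.exp ((i : ℝ) + 1) := by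
        by_cases hz1 : G n = 0
        · have hz2 : G (n + 1) ≠ 0 := fun hh => hz ⟨hz1, hh⟩
          obtain ⟨h1, h2⟩ := hs _ hz2
          push_cast at h1 h2
          constructor <;> linarith
        · obtain ⟨h1, h2⟩ := hs _ hz1
          constructor <;> linarith
      rw [if_pos hr.2]
      have hA := h n hr.1 hr.2.le
      have hdiff : |G n / n - G (n + 1) / ((n + 1 : ℕ) : ℝ)| ≤ (c + d) / (n : ℝ) ^ 2 := by
        have e : G n / n - G (n + 1) / ((n + 1 : ℕ) : ℝ) =
            (G n - G (n + 1)) / n + G (n + 1) * (1 / (n * (n + 1))) := by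
          push_cast
          field_simp
          ring
        rw [e]
        refine (abs_add_le _ _).trans ?_
        rw [abs_div, abs_mul, abs_of_pos (show (0:ℝ) < n by linarith),
          abs_of_pos (show (0:ℝ) < 1 / ((n:ℝ) * (n + 1)) by positivity)]
        have a1 : |G n - G (n + 1)| / n ≤ d / (n : ℝ) ^ 2 := by
          have := hL n hn.1
          calc |G n - G (n + 1)| / n ≤ (d / n) / n := div_le_div_of_nonneg_right this (by linarith)
            _ = d / (n : ℝ) ^ 2 := by field_simp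
        have a2 : |G (n + 1)| * (1 / ((n : ℝ) * (n + 1))) ≤ c / (n : ℝ) ^ 2 := by
          calc |G (n + 1)| * (1 / ((n : ℝ) * (n + 1))) ≤ c * (1 / (n : ℝ) ^ 2) := by
                apply mul_le_mul (hG _) _ (by positivity) hc
                apply one_div_le_one_div_of_le (by positivity)
                nlinarith
            _ = c / (n : ℝ) ^ 2 := by ring
        calc _ ≤ d / (n : ℝ) ^ 2 + c / (n : ℝ) ^ 2 := add_le_add a1 a2
          _ = (c + d) / (n : ℝ) ^ 2 := by ring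
      have hinv : 1 / (n : ℝ) ≤ 2 * Real.exp (1 - (i : ℝ)) := by
        have hn2 : Real.exp ((i : ℝ) - 1) ≤ 2 * n := by
          rcases le_total 2 (Real.exp ((i : ℝ) - 1)) with h4 | h4
          · linarith [hr.1]
          · linarith
        rw [div_le_iff₀ (by linarith)]
        have h5 : Real.exp (1 - (i : ℝ)) * Real.exp ((i : ℝ) - 1) = 1 := by
          rw [← Real.exp_add]; simp
        have h6 : 0 < Real.exp (1 - (i : ℝ)) := Real.exp_pos _
        nlinarith
      rw [norm_mul, ← Complex.ofReal_sub, Complex.norm_real, Real.norm_eq_abs]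
      calc |G n / n - G (n + 1) / ((n + 1 : ℕ) : ℝ)| * ‖∑ k ∈ Icc 1 n, a k‖
          ≤ (c + d) / (n : ℝ) ^ 2 * (B * n) := mul_le_mul hdiff hA (norm_nonneg _) (by positivity)
        _ = (c + d) * B * (1 / (n : ℝ)) := by field_simp
        _ ≤ (c + d) * B * (2 * Real.exp (1 - (i : ℝ))) := by
            apply mul_le_mul_of_nonneg_left hinv (by positivity)
  have e3 : ‖∑ n ∈ Ico 1 M, (((G n / n : ℝ) : ℂ) - ((G (n + 1) / ((n + 1 : ℕ) : ℝ) : ℝ) : ℂ)) * ∑ k ∈ Icc 1 n, a k‖ ≤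
      (c + d) * 16 * B := by
    refine (norm_sum_le_of_le _ e2).trans ?_
    rw [← Finset.sum_filter, Finset.sum_const, nsmul_eq_mul]
    have hcard : (((Ico 1 M).filter (fun n : ℕ => (n : ℝ) < Real.exp ((i : ℝ) + 1))).card : ℝ) ≤
        Real.exp ((i : ℝ) + 1) := by
      have hsub : ((Ico 1 M).filter (fun n : ℕ => (n : ℝ) < Real.exp ((i : ℝ) + 1))) ⊆
          Icc 1 ⌊Real.exp ((i : ℝ) + 1)⌋₊ := by
        intro n hn
        rw [Finset.mem_filter, Finset.mem_Ico] at hn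
        rw [Finset.mem_Icc]
        exact ⟨hn.1.1, Nat.le_floor hn.2.le⟩
      have h1 := Finset.card_le_card hsub
      rw [Nat.card_Icc] at h1
      have h2 : (((Ico 1 M).filter (fun n : ℕ => (n : ℝ) < Real.exp ((i : ℝ) + 1))).card : ℝ) ≤
          (⌊Real.exp ((i : ℝ) + 1)⌋₊ : ℝ) := by
        exact_mod_cast (by omega : ((Ico 1 M).filter (fun n : ℕ => (n : ℝ) < Real.exp ((i : ℝ) + 1))).card ≤
          ⌊Real.exp ((i : ℝ) + 1)⌋₊)
      exact h2.trans (Nat.floor_le (Real.exp_pos _).le)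
    have he : Real.exp ((i : ℝ) + 1) * Real.exp (1 - (i : ℝ)) ≤ 8 := by
      rw [← Real.exp_add]
      have : (i : ℝ) + 1 + (1 - (i : ℝ)) = 1 + 1 := by ring
      rw [this, Real.exp_add]
      have h1 := Real.exp_one_lt_d9
      have h2 : 0 < Real.exp 1 := Real.exp_pos _
      nlinarith
    have h6 : 0 < Real.exp (1 - (i : ℝ)) := Real.exp_pos _
    calc _ ≤ Real.exp ((i : ℝ) + 1) * ((c + d) * B * (2 * Real.exp (1 - (i : ℝ)))) := by
          apply mul_le_mul_of_nonneg_right hcard (by positivity)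
      _ = (c + d) * B * 2 * (Real.exp ((i : ℝ) + 1) * Real.exp (1 - (i : ℝ))) := by ring
      _ ≤ (c + d) * B * 2 * 8 := by
          apply mul_le_mul_of_nonneg_left he (by positivity)
      _ = (c + d) * 16 * B := by ring
  calc _ ≤ c * B + (c + d) * 16 * B := add_le_add e1 e3
    _ = _ := by ring

private theorem S2_log_succ (n : ℕ) (hn : 1 ≤ n) :
    |Real.log n - Real.log ((n + 1 : ℕ) : ℝ)| ≤ 1 / n := by
  have hn0 : (0 : ℝ) < n := by exact_mod_cast hn
  have h1 : Real.log n ≤ Real.log ((n + 1 : ℕ) : ℝ) := Real.log_le_log hn0 (by push_cast; linarith)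
  rw [abs_sub_comm, abs_of_nonneg (by linarith)]
  rw [← Real.log_div (by positivity) (by positivity)]
  have h2 := Real.log_le_sub_one_of_pos (show (0 : ℝ) < ((n + 1 : ℕ) : ℝ) / n by positivity)
  refine h2.trans (le_of_eq ?_)
  push_cast
  field_simp
  ring

private theorem S2_supp (i n : ℕ) (h : fS i n ≠ 0) :
    Real.exp ((i : ℝ) - 1) < n ∧ (n : ℝ) < Real.exp ((i : ℝ) + 1) := by
  unfold fS at h
  split_ifs at h with h0
  · exact absurd rfl h
  · have hn0 : (0 : ℝ) < n := by exact_mod_cast Nat.pos_of_ne_zero h0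
    have h1 := S2_psi_supp _ h
    rw [abs_lt] at h1
    constructor
    · rw [← Real.lt_log_iff_exp_lt hn0]; linarith [h1.1]
    · rw [← Real.log_lt_iff_lt_exp hn0]; linarith [h1.2]

/-- **Partial summation.** `a : ℕ → ℂ`, `A(n) = ∑_{k ≤ n} a_k` with `‖A(n)‖ ≤ B n` for the `n` with `e^(i-1) - 1 ≤ n ≤ e^(i+1)`; then for every `M` the sums
`∑_{n ≤ M} (fS i n/n) a_n` and `∑_{n ≤ M} (fL i n/n) a_n` are small.

Proof. `g n = fS i n/n` is supported in `e^(i-1) < n < e^(i+1)`, `|g n| ≤ 1/n`, `|g n - g(n+1)| ≤ 2/n²` for `n ≥ 1` (`psi` has Lipschitz constant `1`, `log (n+1) - log n ≤ 1/n`,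
`1/n - 1/(n+1) ≤ 1/n²`). Abel: `∑_{n ≤ M} g n a_n = g M A(M) + ∑_{n < M} A(n)(g n - g(n+1))` (`Finset.sum_range_by_parts` or induction on `M`). A term is nonzero only if `n` or
`n + 1` lies in the support, so `e^(i-1) - 1 < n < e^(i+1)`, where `‖A(n)‖ ≤ B n` (the term `g M A(M)`: `≤ B`). Total `≤ B + 2B ∑ 1/n` over
`max 1 (e^(i-1) - 1) ≤ n < e^(i+1)`, and this sum is `≤ 9` (e.g. for `i ≥ 2`, `e^(i-1) - 1 ≥ e^(i-1)/2`: at most `e^(i+1)` terms `≤ 2e^(1-i)`, `2e² ≤ 15`; a better bound: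
`∑ 1/n ≤ 1/n₀ + log (e^(i+1)/n₀)`; for `i = 0, 1` direct: `n ≤ 7`, `∑_{n ≤ 7} 1/n ≤ 3`). With the crude bound `15`: total `≤ 31B`. For `fL`: `|g n| ≤ (i+1)/n`,
`|g n - g(n+1)| ≤ (2i+3)/n² ≤ 3(i+1)/n²`, total `≤ (i+1)B(1 + 45) `. -/
theorem abel_tent (a : ℕ → ℂ) (i : ℕ) (B : ℝ) (hB : 0 ≤ B)
    (h : ∀ n : ℕ, Real.exp ((i : ℝ) - 1) - 1 ≤ n → (n : ℝ) ≤ Real.exp ((i : ℝ) + 1) → ‖∑ k ∈ Icc 1 n, a k‖ ≤ B * n) (M : ℕ) :
    ‖∑ n ∈ Icc 1 M, ((fS i n / n : ℝ) : ℂ) * a n‖ ≤ 50 * B ∧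
    ‖∑ n ∈ Icc 1 M, ((fL i n / n : ℝ) : ℂ) * a n‖ ≤ 50 * ((i : ℝ) + 1) * B := by
  have hval : ∀ n : ℕ, 1 ≤ n → fS i n = psi (Real.log n - i) := by
    intro n hn
    unfold fS
    rw [if_neg (by omega)]
  have hSabs : ∀ n, |fS i n| ≤ 1 := by
    intro n
    unfold fS
    split_ifs
    · simp
    · rw [abs_of_nonneg (S2_psi_nonneg _)]
      exact S2_psi_le _
  constructor
  · have := S2_main (fS i) a i B 1 1 hB zero_le_one zero_le_one h (S2_supp i) hSabs (by
      intro n hn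
      rw [hval n hn, hval (n + 1) (by omega)]
      refine (S2_psi_lip _ _).trans ?_
      have e : Real.log (n : ℝ) - i - (Real.log ((n + 1 : ℕ) : ℝ) - i) =
          Real.log n - Real.log ((n + 1 : ℕ) : ℝ) := by ring
      rw [e]
      exact S2_log_succ n hn) M
    refine this.trans ?_
    nlinarith
  · have hi : (0 : ℝ) ≤ i := Nat.cast_nonneg i
    -- the clamped form of `fL`
    have hcl : ∀ n : ℕ, fL i n = min (Real.log n) ((i : ℝ) + 1) * fS i n := by
      intro n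
      unfold fL
      by_cases hz : fS i n = 0
      · rw [hz]; simp
      · obtain ⟨h1, h2⟩ := S2_supp i n hz
        have hn0 : (0 : ℝ) < n := (Real.exp_pos _).trans h1
        have h3 : Real.log n < (i : ℝ) + 1 := by rwa [Real.log_lt_iff_lt_exp hn0]
        rw [min_eq_left h3.le]
    have hmin : ∀ n : ℕ, |min (Real.log n) ((i : ℝ) + 1)| ≤ (i : ℝ) + 1 := by
      intro n
      rw [abs_of_nonneg (le_min (Real.log_natCast_nonneg n) (by linarith))]
      exact min_le_right _ _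
    have := S2_main (fL i) a i B ((i : ℝ) + 1) ((i : ℝ) + 2) hB (by linarith) (by linarith) h (by
        intro n hn
        apply S2_supp i n
        intro hz
        apply hn
        unfold fL
        rw [hz, mul_zero]) (by
        intro n
        rw [hcl n, abs_mul]
        calc _ ≤ ((i : ℝ) + 1) * 1 := mul_le_mul (hmin n) (hSabs n) (abs_nonneg _) (by linarith)
          _ = _ := by ring) (by
        intro n hn
        have hn0 : (0 : ℝ) < n := by exact_mod_cast hn
        have hlog := S2_log_succ n hn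
        rw [hcl n, hcl (n + 1)]
        have e : min (Real.log (n : ℝ)) ((i : ℝ) + 1) * fS i n -
            min (Real.log ((n + 1 : ℕ) : ℝ)) ((i : ℝ) + 1) * fS i (n + 1) =
            (min (Real.log (n : ℝ)) ((i : ℝ) + 1) - min (Real.log ((n + 1 : ℕ) : ℝ)) ((i : ℝ) + 1)) * fS i n +
            min (Real.log ((n + 1 : ℕ) : ℝ)) ((i : ℝ) + 1) * (fS i n - fS i (n + 1)) := by ring
        rw [e]
        refine (abs_add_le _ _).trans ?_
        rw [abs_mul, abs_mul]
        have b1 : |min (Real.log (n : ℝ)) ((i : ℝ) + 1) - min (Real.log ((n + 1 : ℕ) : ℝ)) ((i : ℝ) + 1)| ≤ 1 / n := by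
          have := abs_min_sub_min_le_max (Real.log (n : ℝ)) ((i : ℝ) + 1) (Real.log ((n + 1 : ℕ) : ℝ)) ((i : ℝ) + 1)
          refine this.trans ?_
          simp only [sub_self, abs_zero]
          exact max_le hlog (by positivity)
        have b2 : |fS i n - fS i (n + 1)| ≤ 1 / n := by
          rw [hval n hn, hval (n + 1) (by omega)]
          refine (S2_psi_lip _ _).trans ?_
          have e : Real.log (n : ℝ) - i - (Real.log ((n + 1 : ℕ) : ℝ) - i) =
              Real.log n - Real.log ((n + 1 : ℕ) : ℝ) := by ring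
          rw [e]
          exact hlog
        calc _ ≤ 1 / n * 1 + ((i : ℝ) + 1) * (1 / n) := by
              apply add_le_add
              · exact mul_le_mul b1 (hSabs n) (abs_nonneg _) (by positivity)
              · exact mul_le_mul (hmin (n + 1)) b2 (abs_nonneg _) (by linarith)
          _ = ((i : ℝ) + 2) / n := by ring) M
    refine this.trans ?_
    apply mul_le_mul_of_nonneg_right _ hB
    nlinarith

end Pool.Agent.Lib.H31P
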