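import Pool.Agent.Lib.H31P.Top
import Pool.Agent.Lib.H31X.X1
import Pool.Agent.Lib.H31V.ZS

/-!
# Chunk S3 (M): sums of `n^(-it)`, `n ≤ u`
-/

open Finset

namespace Pool.Agent.Lib.H31P

open Pool.Agent.Lib.H31W (ell)

private lemma S3_conj (t : ℝ) (A : Finset ℕ) (hA : ∀ n ∈ A, n ≠ 0) :
    ‖∑ k ∈ A, (k : ℂ) ^ (-((t : ℂ) * Complex.I))‖ =
      ‖∑ k ∈ A, (k : ℂ) ^ (((|t| : ℝ) : ℂ) * Complex.I)‖ := by
  rcases le_or_gt 0 t with ht | ht
  · rw [abs_of_nonneg ht]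
    have hconj : ∑ k ∈ A, (k : ℂ) ^ (-((t : ℂ) * Complex.I)) =
        (starRingEnd ℂ) (∑ k ∈ A, (k : ℂ) ^ ((t : ℂ) * Complex.I)) := by
      rw [map_sum]
      apply sum_congr rfl
      intro n hn
      have hnC : (n : ℂ) ≠ 0 := by exact_mod_cast hA n hn
      rw [Complex.cpow_def_of_ne_zero hnC, Complex.cpow_def_of_ne_zero hnC, ← Complex.exp_conj,
        ← Complex.natCast_log]
      congr 1
      simp only [map_mul, Complex.conj_ofReal, Complex.conj_I]
      ring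
    rw [hconj, RCLike.norm_conj]
  · rw [abs_of_neg ht]
    congr 1
    apply sum_congr rfl
    intro n _
    congr 1
    push_cast
    ring

private lemma S3_one (t : ℝ) (k : ℕ) (hk : 1 ≤ k) : ‖(k : ℂ) ^ (-((t : ℂ) * Complex.I))‖ = 1 := by
  rw [Complex.norm_natCast_cpow_of_pos (by omega)]
  simp

private lemma S3_rec (t n₀ B : ℝ) (hn₀ : 1 ≤ n₀) (hB : 0 ≤ B) (M : ℕ)
    (h : ∀ N N' : ℕ, n₀ ≤ N → N ≤ M → N ≤ N' → N' ≤ 2 * N →
      ‖∑ k ∈ Ioc N N', (k : ℂ) ^ (-((t : ℂ) * Complex.I))‖ ≤ B * N) :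
    ∀ n : ℕ, n ≤ M → ‖∑ k ∈ Ioc 0 n, (k : ℂ) ^ (-((t : ℂ) * Complex.I))‖ ≤ 2 * n₀ + 2 + (B + 1 / n₀) * n := by
  intro n
  induction n using Nat.strong_induction_on with
  | _ n ih =>
    intro hn
    have hB' : 0 ≤ B + 1 / n₀ := by positivity
    by_cases h1 : (n : ℝ) < 2 * n₀ + 2
    · have h2 : ‖∑ k ∈ Ioc 0 n, (k : ℂ) ^ (-((t : ℂ) * Complex.I))‖ ≤ n := by
        refine (norm_sum_le _ _).trans ?_
        have : ∑ k ∈ Ioc 0 n, ‖(k : ℂ) ^ (-((t : ℂ) * Complex.I))‖ = ∑ k ∈ Ioc 0 n, (1 : ℝ) := by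
          apply sum_congr rfl
          intro k hk
          exact S3_one t k (mem_Ioc.mp hk).1
        rw [this]
        simp
      have h3 : 0 ≤ (B + 1 / n₀) * n := by positivity
      linarith
    · have h1' := not_lt.mp h1
      have hd : n = 2 * (n / 2) ∨ n = 2 * (n / 2) + 1 := by omega
      obtain ⟨N, hN⟩ : ∃ N : ℕ, N = n / 2 := ⟨_, rfl⟩
      rw [← hN] at hd
      have hNn : 2 * N ≤ n := by omega
      have hnN : n ≤ 2 * N + 1 := by omega
      have hNnR : 2 * (N : ℝ) ≤ n := by exact_mod_cast hNn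
      have hnNR : (n : ℝ) ≤ 2 * N + 1 := by exact_mod_cast hnN
      have hNn0 : n₀ ≤ N := by linarith
      have hN1 : 1 ≤ N := by
        have : (1 : ℝ) ≤ N := by linarith
        exact_mod_cast this
      have ihN := ih N (by omega) (by omega)
      have hsplit : ∑ k ∈ Ioc 0 n, (k : ℂ) ^ (-((t : ℂ) * Complex.I)) =
          ∑ k ∈ Ioc 0 N, (k : ℂ) ^ (-((t : ℂ) * Complex.I)) + ∑ k ∈ Ioc N n, (k : ℂ) ^ (-((t : ℂ) * Complex.I)) :=
        (sum_Ioc_consecutive _ (Nat.zero_le _) (by omega)).symm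
      have hblock : ‖∑ k ∈ Ioc N n, (k : ℂ) ^ (-((t : ℂ) * Complex.I))‖ ≤ B * N + 1 := by
        rcases hd with hd | hd
        · have := h N n hNn0 (by omega) (by omega) (by omega)
          linarith
        · have h5 := h N (2 * N) hNn0 (by omega) (by omega) le_rfl
          rw [hd, sum_Ioc_succ_top (by omega)]
          refine (norm_add_le _ _).trans ?_
          rw [S3_one t (2 * N + 1) (by omega)]
          linarith
      have h6 : B * N + 1 ≤ (B + 1 / n₀) * N := by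
        have : 1 ≤ 1 / n₀ * N := by
          rw [one_div, ← div_eq_inv_mul, one_le_div (by linarith)]
          exact hNn0
        linarith
      have h7 : (B + 1 / n₀) * (2 * N) ≤ (B + 1 / n₀) * n := mul_le_mul_of_nonneg_left hNnR hB'
      rw [hsplit]
      refine (norm_add_le _ _).trans ?_
      linarith

private lemma S3_ell_atTop : Filter.Tendsto ell Filter.atTop Filter.atTop := by
  have h1 : Filter.Tendsto (fun y : ℝ => y ^ (1 / 10 : ℝ)) Filter.atTop Filter.atTop :=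
    tendsto_rpow_atTop (by norm_num)
  exact h1.comp Real.tendsto_log_atTop

/-- `ℓ ≤ ε log X`. -/
private lemma S3_ell_le (ε : ℝ) (hε : 0 < ε) : ∀ᶠ X : ℝ in Filter.atTop, ell X ≤ ε * Real.log X := by
  have h1 : Filter.Tendsto (fun y : ℝ => y ^ (-(9 / 10) : ℝ)) Filter.atTop (nhds 0) :=
    tendsto_rpow_neg_atTop (by norm_num)
  have h2 := (h1.comp Real.tendsto_log_atTop).eventually (ge_mem_nhds hε)
  filter_upwards [h2, Real.tendsto_log_atTop.eventually_gt_atTop 0] with X hX hL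
  have h3 : ell X = Real.log X ^ (-(9 / 10) : ℝ) * Real.log X := by
    unfold ell
    rw [← Real.rpow_add_one hL.ne']
    norm_num
  rw [h3]
  exact mul_le_mul_of_nonneg_right hX hL.le

private lemma S3_C (C : ℝ) : ∀ᶠ X : ℝ in Filter.atTop,
    C * Real.exp (-(4 * ell X)) ≤ 1 / 3 * Real.exp (-(3 * ell X)) := by
  have h1 : ∀ᶠ X : ℝ in Filter.atTop, 3 * C ≤ Real.exp (ell X) :=
    (Real.tendsto_exp_atTop.comp S3_ell_atTop).eventually_ge_atTop _
  filter_upwards [h1] with X hX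
  have h2 : Real.exp (-(3 * ell X)) = Real.exp (ell X) * Real.exp (-(4 * ell X)) := by
    rw [← Real.exp_add]
    congr 1
    ring
  rw [h2]
  have h3 : 0 < Real.exp (-(4 * ell X)) := Real.exp_pos _
  nlinarith

private lemma S3_Ca (C a : ℝ) (hC : 0 ≤ C) (ha : 0 < a) : ∀ᶠ X : ℝ in Filter.atTop,
    C * X ^ (-a) ≤ 1 / 3 * Real.exp (-(3 * ell X)) := by
  filter_upwards [S3_C C, S3_ell_le (a / 4) (by positivity), Filter.eventually_gt_atTop (0 : ℝ)] with X h1 h2 h3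
  refine le_trans ?_ h1
  apply mul_le_mul_of_nonneg_left _ hC
  rw [Real.rpow_def_of_pos h3]
  apply Real.exp_le_exp.mpr
  nlinarith

/-- **Sums of `n^(-it)`.** `X^δ ≤ n ≤ X²`, `exp (4ℓ) ≤ |t| ≤ X²`.

Proof. The sum over `k ≤ n` is the sum over `k ≤ m₀ = ⌊n/2^r⌋` (trivial bound `m₀`) and over the blocks `(⌊n/2^(l+1)⌋, ⌊n/2^l⌋]`, `l < r`, each contained in `(N, 2N + 1]`,
`N = ⌊n/2^(l+1)⌋` (split off one term, `≤ 1`); choose `r` with `X^(δ/4) ≤ n/2^r ≤ 2X^(δ/4)`. Block with `N ≤ |t|`: `zeta_sum_interface` (conjugate: `‖∑ k^(-it)‖ = ‖∑ k^(i|t|)‖`; `S t N N'` is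
the sum of `k^(it)` over `Ioc N N'`), `log N ≥ (δ/5) log X`, `log |t| ≤ 2 log X`: `≤ C N exp (-c (δ/10)² log N) ≤ C N X^(-c')`. Block with `N > |t|`: `H31X.kl`:
`≤ C N/|t| ≤ C N exp (-4ℓ)`. Total `≤ 2X^(δ/4) + r + 2n (C X^(-c') + C exp (-4ℓ)) ≤ n exp (-3ℓ)` for large `X`, because `n ≥ X^δ` and `r ≤ 4 log X`. -/
theorem sum_one (δ : ℝ) (hδ : 0 < δ) : ∃ K : ℝ, 3 ≤ K ∧ ∀ X : ℝ, K ≤ X → ∀ (n : ℕ) (t : ℝ), X ^ δ ≤ n → (n : ℝ) ≤ X ^ 2 →
    Real.exp (4 * ell X) ≤ |t| → |t| ≤ X ^ 2 →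
    ‖∑ k ∈ Icc 1 n, (k : ℂ) ^ (-((t : ℂ) * Complex.I))‖ ≤ n * Real.exp (-(3 * ell X)) := by
  obtain ⟨c, C, hc, hc4, hC, hzeta⟩ := Pool.Agent.Lib.H31V.zeta_sum_interface
  obtain ⟨D, hD, hkl⟩ := Pool.Agent.Lib.H31X.kl
  have hC0 : 0 < C := by linarith
  have hcc : 0 < c * (δ / 8) ^ 2 * (δ / 4) := by positivity
  have e1 := S3_Ca 5 (δ / 4) (by norm_num) (by positivity)
  have e2 := S3_Ca C (c * (δ / 8) ^ 2 * (δ / 4)) hC0.le hcc
  have e3 := S3_C D
  have e4 : ∀ᶠ X : ℝ in Filter.atTop, (2 : ℝ) ≤ X ^ (δ / 4) :=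
    (tendsto_rpow_atTop (by positivity : 0 < δ / 4)).eventually_ge_atTop 2
  have e5 : ∀ᶠ X : ℝ in Filter.atTop, (1 : ℝ) ≤ ell X := S3_ell_atTop.eventually_ge_atTop 1
  obtain ⟨K, hK⟩ := Filter.eventually_atTop.mp (e1.and (e2.and (e3.and (e4.and e5))))
  refine ⟨max 3 K, le_max_left _ _, ?_⟩
  intro X hX n t hn1 hn2 ht1 ht2
  obtain ⟨a1, a2, a3, a4, a5⟩ := hK X ((le_max_right _ _).trans hX)
  have hX3 : 3 ≤ X := (le_max_left _ _).trans hX
  have hX0 : 0 < X := by linarith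
  have hX1 : 1 ≤ X := by linarith
  have hL0 : 0 < Real.log X := Real.log_pos (by linarith)
  obtain ⟨n₀, hn₀⟩ : ∃ n₀ : ℝ, n₀ = X ^ (δ / 4) := ⟨_, rfl⟩
  rw [← hn₀] at a4
  have ht5 : 5 ≤ |t| := by
    have := Real.add_one_le_exp (4 * ell X)
    linarith
  have ht0 : 0 < |t| := by linarith
  have hI : Icc 1 n = Ioc 0 n := by
    ext k
    simp only [mem_Icc, mem_Ioc]
    omega
  obtain ⟨B, hB⟩ : ∃ B : ℝ, B = C * X ^ (-(c * (δ / 8) ^ 2 * (δ / 4))) + D * Real.exp (-(4 * ell X)) := ⟨_, rfl⟩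
  have hB1 : 0 ≤ C * X ^ (-(c * (δ / 8) ^ 2 * (δ / 4))) := by positivity
  have hB2 : 0 ≤ D * Real.exp (-(4 * ell X)) := by positivity
  have hB0 : 0 ≤ B := by
    rw [hB]
    linarith
  have hblock : ∀ N N' : ℕ, n₀ ≤ N → N ≤ n → N ≤ N' → N' ≤ 2 * N →
      ‖∑ k ∈ Ioc N N', (k : ℂ) ^ (-((t : ℂ) * Complex.I))‖ ≤ B * N := by
    intro N N' h1 h2 h3 h4
    have hN2R : (2 : ℝ) ≤ N := a4.trans h1
    have hN2 : 2 ≤ N := by exact_mod_cast hN2R
    have hN0 : (0 : ℝ) < N := by linarith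
    rw [S3_conj t (Ioc N N') (by
      intro k hk
      have := (mem_Ioc.mp hk).1
      omega)]
    rcases le_or_gt (N : ℝ) |t| with h5 | h5
    · have h6 := hzeta |t| N N' (by linarith) hN2 h5 h3 h4
      unfold Pool.Agent.Lib.H31V.S at h6
      refine h6.trans ?_
      have hlogt : 0 < Real.log |t| := Real.log_pos (by linarith)
      have hlogt2 : Real.log |t| ≤ 2 * Real.log X := by
        have h7 : Real.log |t| ≤ Real.log (X ^ 2) := Real.log_le_log ht0 ht2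
        rw [Real.log_pow] at h7
        exact_mod_cast h7
      have hlogN : δ / 4 * Real.log X ≤ Real.log N := by
        have h7 : Real.log n₀ ≤ Real.log N := Real.log_le_log (by linarith) h1
        rw [hn₀, Real.log_rpow hX0] at h7
        exact h7
      have hrat : δ / 8 ≤ Real.log N / Real.log |t| := by
        rw [le_div_iff₀ hlogt]
        calc δ / 8 * Real.log |t| ≤ δ / 8 * (2 * Real.log X) :=
              mul_le_mul_of_nonneg_left hlogt2 (by positivity)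
          _ = δ / 4 * Real.log X := by ring
          _ ≤ Real.log N := hlogN
      have hsq : (δ / 8) ^ 2 ≤ (Real.log N / Real.log |t|) ^ 2 := by
        apply pow_le_pow_left₀ (by positivity) hrat
      have hexp : (N : ℝ) ^ (1 - c * (Real.log N / Real.log |t|) ^ 2) ≤ N * X ^ (-(c * (δ / 8) ^ 2 * (δ / 4))) := by
        rw [Real.rpow_def_of_pos hN0]
        have h8 : (N : ℝ) * X ^ (-(c * (δ / 8) ^ 2 * (δ / 4))) =
            Real.exp (Real.log N + Real.log X * (-(c * (δ / 8) ^ 2 * (δ / 4)))) := by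
          rw [Real.exp_add, Real.exp_log hN0, Real.rpow_def_of_pos hX0]
        rw [h8]
        apply Real.exp_le_exp.mpr
        have h9 : (c * (δ / 8) ^ 2) * (δ / 4 * Real.log X) ≤ (c * (Real.log N / Real.log |t|) ^ 2) * Real.log N := by
          apply mul_le_mul
          · exact mul_le_mul_of_nonneg_left hsq hc.le
          · exact hlogN
          · positivity
          · positivity
        linarith
      calc C * (N : ℝ) ^ (1 - c * (Real.log N / Real.log |t|) ^ 2)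
          ≤ C * (N * X ^ (-(c * (δ / 8) ^ 2 * (δ / 4)))) := mul_le_mul_of_nonneg_left hexp hC0.le
        _ = (C * X ^ (-(c * (δ / 8) ^ 2 * (δ / 4)))) * N := by ring
        _ ≤ B * N := by
            apply mul_le_mul_of_nonneg_right _ hN0.le
            rw [hB]
            linarith
    · have h6 := hkl |t| N N' (by rw [abs_abs]; linarith) (by rw [abs_abs]; exact h5.le) h3 h4
      rw [abs_abs] at h6
      refine h6.trans ?_
      have h7 : (N : ℝ) / |t| ≤ N * Real.exp (-(4 * ell X)) := by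
        rw [Real.exp_neg, ← div_eq_mul_inv]
        exact div_le_div_of_nonneg_left hN0.le (Real.exp_pos _) ht1
      calc D * ((N : ℝ) / |t|) ≤ D * (N * Real.exp (-(4 * ell X))) := mul_le_mul_of_nonneg_left h7 hD.le
        _ = (D * Real.exp (-(4 * ell X))) * N := by ring
        _ ≤ B * N := by
            apply mul_le_mul_of_nonneg_right _ hN0.le
            rw [hB]
            linarith
  have hmain := S3_rec t n₀ B (by linarith) hB0 n hblock n le_rfl
  rw [hI]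
  refine hmain.trans ?_
  have hn0R : 0 ≤ (n : ℝ) := Nat.cast_nonneg n
  have hinv : 1 / n₀ = X ^ (-(δ / 4)) := by
    rw [hn₀, Real.rpow_neg hX0.le, one_div]
  have h10 : n₀ ≤ X ^ (-(δ / 4)) * n := by
    calc n₀ = X ^ (-(δ / 4)) * X ^ (δ / 2) := by
          rw [hn₀, ← Real.rpow_add hX0]
          congr 1
          ring
      _ ≤ X ^ (-(δ / 4)) * X ^ δ := by
          apply mul_le_mul_of_nonneg_left _ (by positivity)
          apply Real.rpow_le_rpow_of_exponent_le hX1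
          linarith
      _ ≤ X ^ (-(δ / 4)) * n := mul_le_mul_of_nonneg_left hn1 (by positivity)
  rw [hinv]
  have h11 : 2 * n₀ + 2 + (B + X ^ (-(δ / 4))) * n ≤ (5 * X ^ (-(δ / 4)) + B) * n := by
    linarith
  refine h11.trans ?_
  rw [mul_comm (n : ℝ)]
  apply mul_le_mul_of_nonneg_right _ hn0R
  rw [hB]
  linarith

end Pool.Agent.Lib.H31P
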