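import Pool.Agent.Lib.H31P.S1
import Pool.Agent.Lib.H31P.S2
import Pool.Agent.Lib.H31P.S3

/-!
# Chunk S4 (S/M): `SupStm`
-/

open Finset

namespace Pool.Agent.Lib.H31P

open Pool.Agent.Lib.H31W

private theorem s4_cpow (n : ℕ) (hn : n ≠ 0) (t : ℝ) :
    (n : ℂ) ^ (-(1 + (t : ℂ) * Complex.I)) = (n : ℂ)⁻¹ * (n : ℂ) ^ (-((t : ℂ) * Complex.I)) := by
  have h0 : (n : ℂ) ≠ 0 := by exact_mod_cast hn
  rw [neg_add, Complex.cpow_add _ _ h0, Complex.cpow_neg_one]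

private theorem s4_pos (n : ℕ) (hn : 1 ≤ n) : n ≠ 0 := by omega

private theorem s4_S (i : ℕ) (t : ℝ) : Di (fS i) i t =
    ∑ n ∈ Icc 1 ⌊Real.exp ((i : ℝ) + 1)⌋₊, ((fS i n / n : ℝ) : ℂ) * (n : ℂ) ^ (-((t : ℂ) * Complex.I)) := by
  unfold Di DD
  refine Finset.sum_congr rfl fun n hn => ?_
  rw [s4_cpow n (s4_pos n (Finset.mem_Icc.mp hn).1)]
  push_cast
  ring

private theorem s4_L (i : ℕ) (t : ℝ) : Di (fL i) i t =
    ∑ n ∈ Icc 1 ⌊Real.exp ((i : ℝ) + 1)⌋₊, ((fL i n / n : ℝ) : ℂ) * (n : ℂ) ^ (-((t : ℂ) * Complex.I)) := by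
  unfold Di DD
  refine Finset.sum_congr rfl fun n hn => ?_
  rw [s4_cpow n (s4_pos n (Finset.mem_Icc.mp hn).1)]
  push_cast
  ring

private theorem s4_M (V i : ℕ) (t : ℝ) : Di (fM V i) i t =
    ∑ n ∈ Icc 1 (min V ⌊Real.exp ((i : ℝ) + 1)⌋₊), ((fS i n / n : ℝ) : ℂ) *
      ((ArithmeticFunction.moebius n : ℂ) * (n : ℂ) ^ (-((t : ℂ) * Complex.I))) := by
  unfold Di DD
  have hsub : Icc 1 (min V ⌊Real.exp ((i : ℝ) + 1)⌋₊) ⊆ Icc 1 ⌊Real.exp ((i : ℝ) + 1)⌋₊ :=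
    Finset.Icc_subset_Icc le_rfl (min_le_right _ _)
  rw [← Finset.sum_subset hsub]
  · refine Finset.sum_congr rfl fun n hn => ?_
    rw [Finset.mem_Icc, le_min_iff] at hn
    rw [s4_cpow n (s4_pos n hn.1)]
    unfold fM
    rw [if_pos hn.2.1]
    push_cast
    ring
  · intro n hn hn2
    rw [Finset.mem_Icc] at hn hn2
    have hV : ¬ n ≤ V := fun h => hn2 ⟨hn.1, le_min h hn.2⟩
    unfold fM
    rw [if_neg hV]
    simp

private theorem s4_ev (δ : ℝ) (hδ : 0 < δ) : ∃ K : ℝ, 3 ≤ K ∧ ∀ X : ℝ, K ≤ X →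
    2 * Real.exp 1 ≤ X ^ (δ / 2) ∧ 2 ≤ Real.log X ∧ 16 ≤ ell X ∧
      100 * ell X ^ 10 ≤ Real.exp (2 * ell X) := by
  have hell : Filter.Tendsto ell Filter.atTop Filter.atTop :=
    (tendsto_rpow_atTop (by norm_num : (0 : ℝ) < 1 / 10)).comp Real.tendsto_log_atTop
  have e1 : ∀ᶠ X : ℝ in Filter.atTop, 2 * Real.exp 1 ≤ X ^ (δ / 2) :=
    (tendsto_rpow_atTop (by positivity : (0 : ℝ) < δ / 2)).eventually_ge_atTop _
  have e2 : ∀ᶠ X : ℝ in Filter.atTop, 2 ≤ Real.log X := Real.tendsto_log_atTop.eventually_ge_atTop _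
  have e3 : ∀ᶠ X : ℝ in Filter.atTop, 16 ≤ ell X := hell.eventually_ge_atTop _
  have e4' : ∀ᶠ y : ℝ in Filter.atTop, y ^ 10 * Real.exp (-y) < 1 / 100 :=
    (Real.tendsto_pow_mul_exp_neg_atTop_nhds_zero 10).eventually (gt_mem_nhds (by norm_num))
  have e4 : ∀ᶠ X : ℝ in Filter.atTop, ell X ^ 10 * Real.exp (-ell X) < 1 / 100 := hell.eventually e4'
  have e5 : ∀ᶠ X : ℝ in Filter.atTop, 3 ≤ X := Filter.eventually_ge_atTop 3
  obtain ⟨K, hK⟩ := Filter.eventually_atTop.mp (e1.and (e2.and (e3.and (e4.and e5))))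
  refine ⟨max K 3, le_max_right _ _, fun X hX => ?_⟩
  obtain ⟨h1, h2, h3, h4, _⟩ := hK X ((le_max_left _ _).trans hX)
  refine ⟨h1, h2, h3, ?_⟩
  have h6 : ell X ^ 10 = ell X ^ 10 * Real.exp (-ell X) * Real.exp (ell X) := by
    rw [mul_assoc, ← Real.exp_add]; simp
  have h7 : Real.exp (ell X) ≤ Real.exp (2 * ell X) := Real.exp_le_exp.mpr (by linarith)
  have h8 : 0 < Real.exp (ell X) := Real.exp_pos _
  calc 100 * ell X ^ 10 = 100 * (ell X ^ 10 * Real.exp (-ell X) * Real.exp (ell X)) := by rw [← h6]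
    _ = 100 * (ell X ^ 10 * Real.exp (-ell X)) * Real.exp (ell X) := by ring
    _ ≤ 1 * Real.exp (ell X) := mul_le_mul_of_nonneg_right (by linarith) h8.le
    _ ≤ Real.exp (2 * ell X) := by rw [one_mul]; exact h7

/-- **`SupStm`.**

Proof. `δ' = δ/2`; for `n` with `e^(i-1) - 1 ≤ n ≤ e^(i+1)`: `X^(δ') ≤ n ≤ X²` for large `X` (`e^i ≥ X^δ`, `i ≤ (3/2) log X`). `f(n) n^(-(1+it)) = (f(n)/n) n^(-it)`.
`fM V i`: `Di (fM V i) i t = ∑_{n ≤ M} (fS i n/n) μ(n) n^(-it)`, `M = min V ⌊e^(i+1)⌋₊`; `abel_tent` with `a n = μ(n) n^(-it)`, `B = exp (-(5/4)ℓ)` (`sum_mu_d` for `δ'`, `u = n`):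
`50 exp (-(5/4)ℓ) ≤ exp (-ℓ)`. `fS i`, `fL i`: `a n = n^(-it)`, `B = exp (-3ℓ)` (`sum_one` for `δ'`): `50 (i+1) exp (-3ℓ) ≤ exp (-ℓ)` for large `X`. -/
theorem sup_stm : SupStm := by
  intro δ hδ
  obtain ⟨K1, hK1, h1⟩ := sum_mu_d (δ / 2) (by positivity)
  obtain ⟨K2, hK2, h2⟩ := sum_one (δ / 2) (by positivity)
  obtain ⟨K3, hK3, h3⟩ := s4_ev δ hδ
  refine ⟨max (max K1 K2) K3, by linarith [le_max_right (max K1 K2) K3], fun X hX i V t hi1 hi2 ht1 ht2 => ?_⟩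
  rw [max_le_iff, max_le_iff] at hX
  obtain ⟨⟨hX1, hX2⟩, hX3⟩ := hX
  obtain ⟨g1, g2, g3, g4⟩ := h3 X hX3
  have hXpos : 0 < X := by linarith
  set l := ell X with hl
  have hlen : ∀ n : ℕ, Real.exp ((i : ℝ) - 1) - 1 ≤ n → (n : ℝ) ≤ Real.exp ((i : ℝ) + 1) →
      X ^ (δ / 2) ≤ n ∧ (n : ℝ) ≤ X ^ 2 := by
    intro n hn1 hn2
    constructor
    · refine le_trans ?_ hn1
      have ha : X ^ (δ / 2) * X ^ (δ / 2) = X ^ δ := by
        rw [← Real.rpow_add hXpos]; ring_nf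
      have hb : X ^ δ ≤ Real.exp (i : ℝ) := by
        rw [Real.rpow_def_of_pos hXpos]
        exact Real.exp_le_exp.mpr (by linarith)
      have hc : Real.exp ((i : ℝ) - 1) * Real.exp 1 = Real.exp (i : ℝ) := by
        rw [← Real.exp_add]; ring_nf
      have hd : 1 ≤ Real.exp 1 := Real.one_le_exp (by norm_num)
      set y := X ^ (δ / 2) with hy
      have he : 2 * Real.exp 1 * y ≤ Real.exp ((i : ℝ) - 1) * Real.exp 1 := by
        rw [hc]
        refine le_trans ?_ (ha.le.trans hb)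
        exact mul_le_mul_of_nonneg_right g1 (by linarith)
      have hf : 2 * y ≤ Real.exp ((i : ℝ) - 1) := by
        refine le_of_mul_le_mul_right ?_ (Real.exp_pos 1)
        linarith
      linarith
    · refine hn2.trans ?_
      have ha : X ^ 2 = Real.exp (2 * Real.log X) := by
        rw [two_mul, Real.exp_add, Real.exp_log hXpos]; ring
      rw [ha]
      exact Real.exp_le_exp.mpr (by linarith)
  have hL : (i : ℝ) + 1 ≤ 2 * l ^ 10 := by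
    have h10 : l ^ 10 = Real.log X := by
      rw [hl]
      unfold ell
      rw [← Real.rpow_natCast, ← Real.rpow_mul (by linarith)]
      norm_num
    rw [h10]
    linarith
  have hfin : 50 * ((i : ℝ) + 1) * Real.exp (-(3 * l)) ≤ Real.exp (-l) := by
    have ha : Real.exp (-(3 * l)) = Real.exp (-(2 * l)) * Real.exp (-l) := by
      rw [← Real.exp_add]; ring_nf
    have hb : Real.exp (2 * l) * Real.exp (-(2 * l)) = 1 := by
      rw [← Real.exp_add]; simp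
    rw [ha, ← mul_assoc]
    have hc : 50 * ((i : ℝ) + 1) * Real.exp (-(2 * l)) ≤ 1 := by
      calc 50 * ((i : ℝ) + 1) * Real.exp (-(2 * l)) ≤ Real.exp (2 * l) * Real.exp (-(2 * l)) :=
            mul_le_mul_of_nonneg_right (by linarith) (Real.exp_pos _).le
        _ = 1 := hb
    calc 50 * ((i : ℝ) + 1) * Real.exp (-(2 * l)) * Real.exp (-l) ≤ 1 * Real.exp (-l) :=
          mul_le_mul_of_nonneg_right hc (Real.exp_pos _).le
      _ = _ := one_mul _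
  have hone : ∀ n : ℕ, Real.exp ((i : ℝ) - 1) - 1 ≤ n → (n : ℝ) ≤ Real.exp ((i : ℝ) + 1) →
      ‖∑ k ∈ Icc 1 n, (k : ℂ) ^ (-((t : ℂ) * Complex.I))‖ ≤ Real.exp (-(3 * l)) * n := by
    intro n hn1 hn2
    obtain ⟨hn3, hn4⟩ := hlen n hn1 hn2
    rw [mul_comm (Real.exp _)]
    exact h2 X hX2 n t hn3 hn4 ht1 ht2
  have hmu : ∀ n : ℕ, Real.exp ((i : ℝ) - 1) - 1 ≤ n → (n : ℝ) ≤ Real.exp ((i : ℝ) + 1) →
      ‖∑ k ∈ Icc 1 n, (ArithmeticFunction.moebius k : ℂ) * (k : ℂ) ^ (-((t : ℂ) * Complex.I))‖ ≤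
        Real.exp (-(5 / 4 * l)) * n := by
    intro n hn1 hn2
    obtain ⟨hn3, hn4⟩ := hlen n hn1 hn2
    have h := h1 X hX1 n t hn3 hn4 ht1 ht2
    rw [Nat.floor_natCast] at h
    rw [mul_comm (Real.exp _)]
    exact h
  have hA := abel_tent (fun k => (k : ℂ) ^ (-((t : ℂ) * Complex.I))) i (Real.exp (-(3 * l)))
    (Real.exp_pos _).le hone ⌊Real.exp ((i : ℝ) + 1)⌋₊
  have hB := abel_tent (fun k => (ArithmeticFunction.moebius k : ℂ) * (k : ℂ) ^ (-((t : ℂ) * Complex.I))) i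
    (Real.exp (-(5 / 4 * l))) (Real.exp_pos _).le hmu (min V ⌊Real.exp ((i : ℝ) + 1)⌋₊)
  refine ⟨?_, ?_, ?_⟩
  · rw [s4_M]
    refine hB.1.trans ?_
    have ha : Real.exp (-(5 / 4 * l)) = Real.exp (-(1 / 4 * l)) * Real.exp (-l) := by
      rw [← Real.exp_add]; ring_nf
    rw [ha, ← mul_assoc]
    have hb : 50 * Real.exp (-(1 / 4 * l)) ≤ 1 := by
      have h4 : Real.exp (-(1 / 4 * l)) ≤ Real.exp (-4) := Real.exp_le_exp.mpr (by linarith)
      have h5 : Real.exp 4 * Real.exp (-4) = 1 := by rw [← Real.exp_add]; simp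
      have h6 : (50 : ℝ) ≤ Real.exp 4 := by
        have h7 := Real.exp_one_gt_d9
        have h8 : Real.exp 4 = (Real.exp 1) ^ 4 := by rw [← Real.exp_nat_mul]; norm_num
        rw [h8]
        calc (50 : ℝ) ≤ 2.7 ^ 4 := by norm_num
          _ ≤ _ := pow_le_pow_left₀ (by norm_num) (by linarith) 4
      calc 50 * Real.exp (-(1 / 4 * l)) ≤ Real.exp 4 * Real.exp (-4) :=
            mul_le_mul h6 h4 (Real.exp_pos _).le (Real.exp_pos _).le
        _ = 1 := h5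
    calc 50 * Real.exp (-(1 / 4 * l)) * Real.exp (-l) ≤ 1 * Real.exp (-l) :=
          mul_le_mul_of_nonneg_right hb (Real.exp_pos _).le
      _ = _ := one_mul _
  · rw [s4_S]
    refine hA.1.trans (le_trans ?_ hfin)
    refine mul_le_mul_of_nonneg_right ?_ (Real.exp_pos _).le
    have : (0 : ℝ) ≤ i := Nat.cast_nonneg i
    linarith
  · rw [s4_L]
    exact hA.2.trans hfin

end Pool.Agent.Lib.H31P
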