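import Pool.Agent.Lib.H31P.H1
import Pool.Agent.Lib.H31W.T0

/-!
# Chunk T1 (M): averages of a smooth factor
-/

open Finset

namespace Pool.Agent.Lib.H31P

open Pool.Agent.Lib.H31W

private theorem T1_mem {v η : ℝ} {n : ℕ} (hn : n ∈ Ioc ⌊Real.exp v⌋₊ ⌊Real.exp (v + η)⌋₊) :
    1 ≤ n ∧ v < Real.log n ∧ Real.log n ≤ v + η := by
  obtain ⟨h1, h2⟩ := Finset.mem_Ioc.1 hn
  have hn1 : 1 ≤ n := by omega
  have hn0 : (0 : ℝ) < n := by exact_mod_cast hn1
  have h3 : Real.exp v < n := (Nat.floor_lt (Real.exp_pos v).le).1 h1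
  have h4 : (n : ℝ) ≤ Real.exp (v + η) := (Nat.le_floor_iff (Real.exp_pos _).le).1 h2
  exact ⟨hn1, (Real.lt_log_iff_exp_lt hn0).2 h3, (Real.log_le_iff_le_exp hn0).2 h4⟩

private theorem T1_congr {f g : ℕ → ℝ} (h : ∀ n, 1 ≤ n → f n = g n) (η v : ℝ) : av f η v = av g η v := by
  unfold av
  congr 1
  refine Finset.sum_congr rfl fun n hn => ?_
  have h1 : 1 ≤ n := by
    have := (Finset.mem_Ioc.1 hn).1
    omega
  rw [h n h1]

private theorem T1_zero {f : ℕ → ℝ} {η v : ℝ} (h : ∀ n : ℕ, 1 ≤ n → Real.log n ≤ v + η → f n = 0) :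
    av f η v = 0 := by
  unfold av
  rw [Finset.sum_eq_zero, mul_zero]
  intro n hn
  obtain ⟨h1, -, h3⟩ := T1_mem hn
  rw [h n h1 h3, zero_div]

/-- **Averages of a Lipschitz function of `log n`.** `w` is Lipschitz with constant `Λ`, bounded by `K`; `v ≥ 0`, `0 < η ≤ 1`.

Proof. `av 1 η v = 1 + O(e^(-v)/η)` (`H31W.av_one`, file `H31W/T0.lean`). For `n` with `e^v < n ≤ e^(v+η)`: `|w(log n) - w(v)| ≤ Λη`. So
`|av (w ∘ log) η v - w(v)| ≤ Λη av 1 η v + |w(v)| |av 1 η v - 1| ≤ Λη (1 + e^(-v)/η) + K e^(-v)/η`. -/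
theorem av_lip (w : ℝ → ℝ) (Λ K η v : ℝ) (hΛ : 0 ≤ Λ) (hw : ∀ x y, |w x - w y| ≤ Λ * |x - y|) (hK : ∀ x, |w x| ≤ K) (hv : 0 ≤ v)
    (hη : 0 < η) (hη1 : η ≤ 1) :
    |av (fun n => w (Real.log n)) η v - w v| ≤ Λ * η + (Λ + K) * (Real.exp (-v) / η) := by
  have h1 := av_one v η hv hη
  have hav0 : 0 ≤ av (fun _ => 1) η v := by
    unfold av
    exact mul_nonneg (by positivity) (Finset.sum_nonneg fun n _ => by positivity)
  have hdiff : av (fun n => w (Real.log n)) η v - w v * av (fun _ => 1) η v =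
      1 / η * ∑ n ∈ Ioc ⌊Real.exp v⌋₊ ⌊Real.exp (v + η)⌋₊, (w (Real.log n) - w v) / n := by
    unfold av
    rw [mul_left_comm, ← mul_sub, Finset.mul_sum, ← Finset.sum_sub_distrib]
    congr 1
    refine Finset.sum_congr rfl fun n _ => ?_
    ring
  have hb : |av (fun n => w (Real.log n)) η v - w v * av (fun _ => 1) η v| ≤
      Λ * η * av (fun _ => 1) η v := by
    rw [hdiff, abs_mul, abs_of_pos (by positivity : 0 < 1 / η)]
    have h2 : |∑ n ∈ Ioc ⌊Real.exp v⌋₊ ⌊Real.exp (v + η)⌋₊, (w (Real.log n) - w v) / n| ≤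
        ∑ n ∈ Ioc ⌊Real.exp v⌋₊ ⌊Real.exp (v + η)⌋₊, Λ * η * (1 / n) := by
      refine (Finset.abs_sum_le_sum_abs _ _).trans (Finset.sum_le_sum fun n hn => ?_)
      obtain ⟨h3, h4, h5⟩ := T1_mem hn
      have hn0 : (0 : ℝ) < n := by exact_mod_cast h3
      rw [abs_div, abs_of_pos hn0, div_eq_mul_one_div]
      refine mul_le_mul_of_nonneg_right ?_ (by positivity)
      refine (hw _ _).trans (mul_le_mul_of_nonneg_left ?_ hΛ)
      rw [abs_of_pos (by linarith)]
      linarith
    rw [← Finset.mul_sum] at h2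
    calc 1 / η * |∑ n ∈ Ioc ⌊Real.exp v⌋₊ ⌊Real.exp (v + η)⌋₊, (w (Real.log n) - w v) / n|
        ≤ 1 / η * (Λ * η * ∑ n ∈ Ioc ⌊Real.exp v⌋₊ ⌊Real.exp (v + η)⌋₊, (1 / (n : ℝ))) :=
          mul_le_mul_of_nonneg_left h2 (by positivity)
      _ = Λ * η * av (fun _ => 1) η v := by
          unfold av
          ring
  have hE : 0 ≤ Real.exp (-v) := (Real.exp_pos _).le
  have hE1 : Real.exp (-v) ≤ Real.exp (-v) / η := by
    rw [le_div_iff₀ hη]
    nlinarith
  have hK0 : 0 ≤ K := (abs_nonneg _).trans (hK 0)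
  have h3 : |w v * (av (fun _ => 1) η v - 1)| ≤ K * (Real.exp (-v) / η) := by
    rw [abs_mul]
    exact mul_le_mul (hK v) h1 (abs_nonneg _) hK0
  have h4 : av (fun _ => 1) η v ≤ 1 + Real.exp (-v) / η := by
    have := (abs_le.1 h1).2
    linarith
  have h5 : Λ * η * av (fun _ => 1) η v ≤ Λ * η + Λ * (Real.exp (-v) / η) := by
    have h6 : Λ * η * av (fun _ => 1) η v ≤ Λ * η * (1 + Real.exp (-v) / η) :=
      mul_le_mul_of_nonneg_left h4 (by positivity)
    have h7 : Λ * η * (Real.exp (-v) / η) = Λ * Real.exp (-v) := by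
      field_simp
    have h8 := mul_le_mul_of_nonneg_left hE1 hΛ
    nlinarith
  have h9 : av (fun n => w (Real.log n)) η v - w v =
      (av (fun n => w (Real.log n)) η v - w v * av (fun _ => 1) η v) +
        w v * (av (fun _ => 1) η v - 1) := by ring
  rw [h9]
  refine (abs_add_le _ _).trans ?_
  nlinarith

/-- **A long smooth factor.** `h = fS i` or `fL i`, `i ≥ 2`, `0 < η ≤ η' ≤ 1`: the averages of length `η` and `η'` differ by little, for every `v`.

Proof. `h n = w(log n)` for `n ≥ 1` with `w(x) = psi (x - i)` (Lipschitz constant `1`, bounded by `1`) resp. `w(x) = x psi (x - i)` (on the support `|x| ≤ i + 1`: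
Lipschitz constant `i + 2`, bounded by `i + 1`; check the Lipschitz property also for points outside the support). If `v ≥ i - 2 ≥ 0`: `av_lip` for both lengths, `w(v)`
cancels; `e^(-v) ≤ e^(2-i)`; total `≤ 2(i+2)η' + 2(2i+3) e^(2-i)/η`. If `v < i - 2`: `v + η' < i - 1`, no `n ≤ e^(v + η')` lies in the support, both averages are `0`.
(In `av` only `n > e^v ≥ 0` occur, so `n ≥ 1`.) -/
theorem av_smooth (i : ℕ) (hi : 2 ≤ i) (η η' v : ℝ) (hη : 0 < η) (h : η ≤ η') (h1 : η' ≤ 1) :
    |av (fS i) η v - av (fS i) η' v| ≤ 60 * ((i : ℝ) + 1) * (η' + Real.exp (-(i : ℝ)) / η) ∧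
    |av (fL i) η v - av (fL i) η' v| ≤ 60 * ((i : ℝ) + 1) * (η' + Real.exp (-(i : ℝ)) / η) := by
  have hi' : (2 : ℝ) ≤ i := by exact_mod_cast hi
  have hη' : 0 < η' := lt_of_lt_of_le hη h
  have hη1 : η ≤ 1 := h.trans h1
  have hE0 : 0 < Real.exp (-(i : ℝ)) := Real.exp_pos _
  have hq0 : 0 ≤ Real.exp (-(i : ℝ)) / η := by positivity
  have hfS : ∀ n : ℕ, 1 ≤ n → fS i n = psi (Real.log n - i) := fun n hn => by
    unfold fS
    rw [if_neg (by omega)]
  have hfL : ∀ n : ℕ, 1 ≤ n → fL i n = Real.log n * psi (Real.log n - i) := fun n hn => by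
    unfold fL
    rw [hfS n hn]
  rcases lt_or_ge v ((i : ℝ) - 2) with hv | hv
  · have hz : ∀ n : ℕ, 1 ≤ n → ∀ θ : ℝ, θ ≤ 1 → Real.log n ≤ v + θ → psi (Real.log n - i) = 0 := by
      intro n _ θ hθ hl
      by_contra hne
      have h3 := abs_lt.1 ((psi_props (Real.log n - i) 0).2.2.1 hne)
      linarith [h3.1]
    have z1 : av (fS i) η v = 0 := T1_zero fun n hn hl => by rw [hfS n hn, hz n hn η hη1 hl]
    have z2 : av (fS i) η' v = 0 := T1_zero fun n hn hl => by rw [hfS n hn, hz n hn η' h1 hl]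
    have z3 : av (fL i) η v = 0 := T1_zero fun n hn hl => by rw [hfL n hn, hz n hn η hη1 hl, mul_zero]
    have z4 : av (fL i) η' v = 0 := T1_zero fun n hn hl => by rw [hfL n hn, hz n hn η' h1 hl, mul_zero]
    rw [z1, z2, z3, z4, sub_zero, abs_zero]
    constructor <;> positivity
  · have hv0 : 0 ≤ v := by linarith
    have hexp : Real.exp (-v) ≤ 8 * Real.exp (-(i : ℝ)) := by
      have h2 : Real.exp (-v) ≤ Real.exp 2 * Real.exp (-(i : ℝ)) := by
        rw [← Real.exp_add]
        exact Real.exp_le_exp.2 (by linarith)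
      have h3 : Real.exp 2 ≤ 8 := by
        have h4 : Real.exp 2 = Real.exp 1 * Real.exp 1 := by
          rw [← Real.exp_add]
          norm_num
        have h5 := Real.exp_one_lt_d9
        have h6 := Real.exp_pos 1
        rw [h4]
        nlinarith
      exact h2.trans (mul_le_mul_of_nonneg_right h3 hE0.le)
    have hX : Real.exp (-v) / η ≤ 8 * (Real.exp (-(i : ℝ)) / η) := by
      rw [← mul_div_assoc]
      exact div_le_div_of_nonneg_right hexp hη.le
    have hX' : Real.exp (-v) / η' ≤ 8 * (Real.exp (-(i : ℝ)) / η) := by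
      refine le_trans ?_ hX
      exact div_le_div_of_nonneg_left (Real.exp_pos _).le hη h
    have gen : ∀ (w : ℝ → ℝ) (Λ K : ℝ), 0 ≤ Λ → 0 ≤ K → (∀ x y, |w x - w y| ≤ Λ * |x - y|) →
        (∀ x, |w x| ≤ K) →
        |av (fun n => w (Real.log n)) η v - av (fun n => w (Real.log n)) η' v| ≤
          2 * Λ * η' + 16 * (Λ + K) * (Real.exp (-(i : ℝ)) / η) := by
      intro w Λ K hΛ hK0 hw hK
      have a1 := av_lip w Λ K η v hΛ hw hK hv0 hη hη1
      have a2 := av_lip w Λ K η' v hΛ hw hK hv0 hη' h1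
      have a3 : av (fun n => w (Real.log n)) η v - av (fun n => w (Real.log n)) η' v =
          (av (fun n => w (Real.log n)) η v - w v) - (av (fun n => w (Real.log n)) η' v - w v) := by ring
      rw [a3]
      refine (abs_sub _ _).trans ?_
      have a4 := mul_le_mul_of_nonneg_left hX (by linarith : 0 ≤ Λ + K)
      have a5 := mul_le_mul_of_nonneg_left hX' (by linarith : 0 ≤ Λ + K)
      have a6 := mul_le_mul_of_nonneg_left h hΛ
      linarith
    have hwS : ∀ x y : ℝ, |psi (x - i) - psi (y - i)| ≤ 1 * |x - y| := by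
      intro x y
      have := (psi_props (x - i) (y - i)).2.2.2
      rw [one_mul]
      calc _ ≤ _ := this
        _ = |x - y| := by
          congr 1
          ring
    have hbS : ∀ x : ℝ, |psi (x - i)| ≤ 1 := by
      intro x
      have := psi_props (x - i) 0
      rw [abs_of_nonneg this.1]
      exact this.2.1
    have hkey : ∀ x y : ℝ, |x - i| < 1 →
        |x * psi (x - i) - y * psi (y - i)| ≤ ((i : ℝ) + 2) * |x - y| := by
      intro x y hx
      have e : x * psi (x - i) - y * psi (y - i) =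
          x * (psi (x - i) - psi (y - i)) + (x - y) * psi (y - i) := by ring
      rw [e]
      refine (abs_add_le _ _).trans ?_
      rw [abs_mul, abs_mul]
      have hx' := abs_lt.1 hx
      have b1 : |x| ≤ (i : ℝ) + 1 := by
        rw [abs_of_pos (by linarith [hx'.1])]
        linarith [hx'.2]
      have b2 : |psi (x - i) - psi (y - i)| ≤ |x - y| := by
        have := hwS x y
        rwa [one_mul] at this
      have b3 : |x| * |psi (x - i) - psi (y - i)| ≤ ((i : ℝ) + 1) * |x - y| :=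
        mul_le_mul b1 b2 (abs_nonneg _) (by linarith)
      have b4 : |x - y| * |psi (y - i)| ≤ |x - y| * 1 :=
        mul_le_mul_of_nonneg_left (hbS y) (abs_nonneg _)
      linarith
    have hpz : ∀ x : ℝ, ¬ |x - i| < 1 → psi (x - i) = 0 := by
      intro x hx
      by_contra hne
      exact hx ((psi_props (x - i) 0).2.2.1 hne)
    have hwL : ∀ x y : ℝ, |x * psi (x - i) - y * psi (y - i)| ≤ ((i : ℝ) + 2) * |x - y| := by
      intro x y
      by_cases hx : |x - i| < 1
      · exact hkey x y hx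
      · by_cases hy : |y - i| < 1
        · have := hkey y x hy
          rw [abs_sub_comm, abs_sub_comm x y]
          exact this
        · rw [hpz x hx, hpz y hy, mul_zero, mul_zero, sub_zero, abs_zero]
          positivity
    have hbL : ∀ x : ℝ, |x * psi (x - i)| ≤ (i : ℝ) + 1 := by
      intro x
      by_cases hx : |x - i| < 1
      · rw [abs_mul]
        have hx' := abs_lt.1 hx
        have b1 : |x| ≤ (i : ℝ) + 1 := by
          rw [abs_of_pos (by linarith [hx'.1])]
          linarith [hx'.2]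
        have b2 := mul_le_mul b1 (hbS x) (abs_nonneg _) (by linarith)
        linarith
      · rw [hpz x hx, mul_zero, abs_zero]
        linarith
    have g1 := gen (fun x => psi (x - i)) 1 1 (by norm_num) (by norm_num) hwS hbS
    have g2 := gen (fun x => x * psi (x - i)) ((i : ℝ) + 2) ((i : ℝ) + 1) (by linarith) (by linarith)
      hwL hbL
    rw [T1_congr hfS η v, T1_congr hfS η' v, T1_congr hfL η v, T1_congr hfL η' v]
    constructor
    · refine g1.trans ?_
      nlinarith [mul_nonneg (by linarith : (0 : ℝ) ≤ i) hη'.le, mul_nonneg (by linarith : (0 : ℝ) ≤ i) hq0]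
    · refine g2.trans ?_
      nlinarith [mul_nonneg (by linarith : (0 : ℝ) ≤ i) hη'.le, mul_nonneg (by linarith : (0 : ℝ) ≤ i) hq0]

end Pool.Agent.Lib.H31P
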