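import Pool.Agent.Lib.H31P.Defs

/-!
# H31P: the interface statements of all modules

See `PROOF.md`. Module W (exponent sums): `VC2Stm`, `WeylStm`, `PtStm`, `KerStm`. Module L (large values): `MVStm`, `LVStm`.
Module F (fourth moment): `FourStm`, `M4Stm`. Module S (sup bounds): `SupStm`. Module N (numerical lemma): `MLStm`.
Module H (Heath-Brown identity, boxes): `HBStm`, `BoxDDStm`, `BoxSuppStm`. Module T (type I): `TyIStm`.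
Module P (Parseval): `ParStm`. Module A (one box): `BoxStm`. Module C: `CoreStm`, `MBStm`.
Module E: `GoodStm`, `WinStm`, `CoStm`.
-/

open Finset MeasureTheory

namespace Pool.Agent.Lib.H31P

open Pool.Agent.Lib.H31W
open ArithmeticFunction (vonMangoldt moebius)

noncomputable section

/-! ## Module W -/

/-- Van der Corput's second derivative test for `n^(it)`. -/
def VC2Stm : Prop := ∃ C : ℝ, 1 ≤ C ∧ ∀ (t : ℝ) (N N' : ℕ), 1 ≤ N → (N : ℝ) ≤ |t| → N ≤ N' → N' ≤ 2 * N →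
  ‖∑ n ∈ Ioc N N', (n : ℂ) ^ ((t : ℂ) * Complex.I)‖ ≤ C * |t| ^ (1 / 2 : ℝ)

/-- Weyl's bound. -/
def WeylStm : Prop := ∃ C : ℝ, 1 ≤ C ∧ ∀ (t : ℝ) (N N' : ℕ), 1 ≤ N → (N : ℝ) ≤ |t| → N ≤ N' → N' ≤ 2 * N →
  ‖∑ n ∈ Ioc N N', (n : ℂ) ^ ((t : ℂ) * Complex.I)‖ ≤ C * ((N : ℝ) ^ (1 / 2 : ℝ) * |t| ^ (1 / 6 : ℝ))

/-- Pointwise bounds for the smooth factors. -/
def PtStm : Prop := ∃ C : ℝ, 1 ≤ C ∧ ∀ (i : ℕ) (t : ℝ), 1 ≤ |t| →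
  ‖Di (fS i) i t‖ ≤ C * (|t| ^ (1 / 6 : ℝ) * Real.exp (-((i : ℝ) / 2)) + 1 / |t|) ∧
  ‖Di (fL i) i t‖ ≤ C * (i + 1) * (|t| ^ (1 / 6 : ℝ) * Real.exp (-((i : ℝ) / 2)) + 1 / |t|)

/-- The kernel of the Halasz-Montgomery method. -/
def KerStm : Prop := ∀ r : ℕ, ∃ C : ℝ, 1 ≤ C ∧ ∀ (a b : ℕ) (τ : ℝ), 1 ≤ a → b ≤ r * a →
  ‖∑ n ∈ Icc a b, (n : ℂ) ^ (-((τ : ℂ) * Complex.I))‖ ≤ C * (b / (1 + |τ|) + |τ| ^ (1 / 2 : ℝ))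

/-! ## Module L -/

/-- The mean value theorem. -/
def MVStm : Prop := ∃ C : ℝ, 1 ≤ C ∧ ∀ (a : ℕ → ℝ) (N : ℕ) (T : ℝ), 1 ≤ T →
  ∫⁻ t in Set.Icc (-T) T, ENNReal.ofReal (‖∑ n ∈ Icc 1 N, (a n : ℂ) * (n : ℂ) ^ (-((t : ℂ) * Complex.I))‖ ^ 2) ≤
    ENNReal.ofReal (C * ∑ n ∈ Icc 1 N, (T + n) * a n ^ 2)

/-- Large values of a Dirichlet polynomial of length `e^i`, by its `m`-th power: mean value theorem and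
Halasz-Montgomery-Huxley. -/
def LVStm : Prop := ∀ m : ℕ, 1 ≤ m → ∃ C : ℕ, 1 ≤ C ∧ ∀ (f : ℕ → ℝ) (i : ℕ) (A T α : ℝ), 1 ≤ i → 1 ≤ A →
  1 ≤ T → 0 ≤ α → α ≤ 1 / 2 →
  (∀ n, f n ≠ 0 → Real.exp ((i : ℝ) - 1) < n ∧ (n : ℝ) < Real.exp ((i : ℝ) + 1)) → (∀ n, |f n| ≤ A) →
  volume {t : ℝ | |t| ≤ T ∧ Real.exp (-(α * i)) < ‖Di f i t‖} ≤
    ENNReal.ofReal (C * (A * i * Real.log (T + 2)) ^ C *
      (Real.exp (2 * α * (m * i)) + T * Real.exp ((2 * α - 1) * (m * i)))) ∧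
  volume {t : ℝ | |t| ≤ T ∧ Real.exp (-(α * i)) < ‖Di f i t‖} ≤
    ENNReal.ofReal (C * (A * i * Real.log (T + 2)) ^ C *
      (Real.exp (2 * α * (m * i)) + T * Real.exp ((6 * α - 2) * (m * i))))

/-! ## Module F -/

/-- The fourth moment of the zeta function. -/
def FourStm : Prop := ∃ C : ℕ, 1 ≤ C ∧ ∀ T : ℝ, 2 ≤ T →
  ∫⁻ t in Set.Icc (-T) T, ENNReal.ofReal (‖riemannZeta (1 / 2 + (t : ℂ) * Complex.I)‖ ^ 4) ≤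
    ENNReal.ofReal (C * T * Real.log (T + 2) ^ C)

/-- Large values of the smooth factors by the fourth moment. -/
def M4Stm : Prop := ∃ C : ℕ, 1 ≤ C ∧ ∀ (i : ℕ) (T α : ℝ), 1 ≤ i → 2 ≤ T → 0 ≤ α → α ≤ 1 / 2 →
  volume {t : ℝ | |t| ≤ T ∧ Real.exp (-(α * i)) < ‖Di (fS i) i t‖} ≤
    ENNReal.ofReal (C * (i * Real.log (T + 2)) ^ C * (Real.exp (α * i) + T * Real.exp ((4 * α - 2) * i))) ∧
  volume {t : ℝ | |t| ≤ T ∧ Real.exp (-(α * i)) < ‖Di (fL i) i t‖} ≤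
    ENNReal.ofReal (C * (i * Real.log (T + 2)) ^ C * (Real.exp (α * i) + T * Real.exp ((4 * α - 2) * i)))

/-! ## Module S -/

/-- Sup bounds for the factors of length at least `X^δ`. -/
def SupStm : Prop := ∀ δ : ℝ, 0 < δ → ∃ K : ℝ, 1 ≤ K ∧ ∀ X : ℝ, K ≤ X → ∀ (i V : ℕ) (t : ℝ),
  δ * Real.log X ≤ i → (i : ℝ) ≤ 3 / 2 * Real.log X → Real.exp (4 * ell X) ≤ |t| → |t| ≤ X ^ 2 →
  ‖Di (fM V i) i t‖ ≤ Real.exp (-ell X) ∧ ‖Di (fS i) i t‖ ≤ Real.exp (-ell X) ∧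
    ‖Di (fL i) i t‖ ≤ Real.exp (-ell X)

/-! ## Module N -/

/-- Measure of the large values, final form. -/
def MLStm : Prop := ∀ κ δ : ℝ, 0 < κ → κ ≤ 1 / 10 → 0 < δ → ∃ C X₀ : ℝ, 1 ≤ C ∧ 3 ≤ X₀ ∧ ∀ X T α : ℝ, X₀ ≤ X →
  X ^ (1 / 3 : ℝ) ≤ T → T ≤ X ^ 2 → 0 ≤ α → α ≤ 1 / 2 → ∀ i V : ℕ, δ * Real.log X ≤ i →
  ((i : ℝ) ≤ Real.log X / 12 → volume {t : ℝ | |t| ≤ T ∧ Real.exp (-(α * i)) < ‖Di (fM V i) i t‖} ≤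
    ENNReal.ofReal (Real.log X ^ C * X ^ (κ * α) * T ^ pA α)) ∧
  ((i : ℝ) ≤ 6 / 5 * Real.log T → volume {t : ℝ | |t| ≤ T ∧ Real.exp (-(α * i)) < ‖Di (fS i) i t‖} ≤
    ENNReal.ofReal (Real.log X ^ C * X ^ (κ * α) * T ^ pA α)) ∧
  ((i : ℝ) ≤ 6 / 5 * Real.log T → volume {t : ℝ | |t| ≤ T ∧ Real.exp (-(α * i)) < ‖Di (fL i) i t‖} ≤
    ENNReal.ofReal (Real.log X ^ C * X ^ (κ * α) * T ^ pA α))

/-! ## Module H -/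

/-- Heath-Brown's identity, decomposed into boxes. -/
def HBStm : Prop := ∀ J V I n : ℕ, 1 ≤ J → 1 ≤ n → n < (V + 1) ^ J → Real.log n ≤ I →
  vonMangoldt n = ∑ j ∈ Icc 1 J, (-1 : ℝ) ^ (j + 1) * (J.choose j : ℝ) *
    ∑ c ∈ Fintype.piFinset (fun _ : Fin (2 * j) => range (I + 1)), box V j c n

/-- The Dirichlet polynomial of a box is the product of those of the factors. -/
def BoxDDStm : Prop := ∀ (V j : ℕ) (c : Fin (2 * j) → ℕ) (t : ℝ),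
  DD (box V j c) (bN c) t = ∏ k : Fin (2 * j), Di (fac V j k (c k)) (c k) t

/-- Support and trivial bounds of a box. -/
def BoxSuppStm : Prop := ∀ (V j : ℕ) (c : Fin (2 * j) → ℕ), 1 ≤ j →
  (∀ n, bN c < n → box V j c n = 0) ∧
  (∀ n, box V j c n ≠ 0 → (∑ k, ((c k : ℝ) - 1)) < Real.log n ∧ Real.log n < ∑ k, ((c k : ℝ) + 1)) ∧
  (∀ N, ∑ n ∈ Icc 1 N, |box V j c n| / n ≤ 9 ^ (2 * j) * ∏ k, ((c k : ℝ) + 1)) ∧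
  (∀ k : Fin (2 * j), (k : ℕ) < j → (V : ℝ) + 1 ≤ Real.exp ((c k : ℝ) - 1) → ∀ n, box V j c n = 0)

/-! ## Module T -/

/-- Boxes with a long smooth factor. -/
def TyIStm : Prop := ∀ (J : ℕ) (κ : ℝ), 0 < κ → ∃ X₀ : ℝ, 1 ≤ X₀ ∧ ∀ X η : ℝ, X₀ ≤ X → 1 / (10 * Real.sqrt X) ≤ η →
  η ≤ X ^ (-(1 / 3) : ℝ) → ∀ j V : ℕ, 1 ≤ j → j ≤ J → ∀ c : Fin (2 * j) → ℕ,
  (∑ k, (c k : ℝ)) ≤ Real.log X + (4 * J + 4) →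
  (∃ k : Fin (2 * j), j ≤ (k : ℕ) ∧ Real.log (1 / η) + κ * Real.log X ≤ c k) → ∀ u : ℝ, Real.log X ≤ u →
  u ≤ Real.log X + 1 → |av (box V j c) η u - av (box V j c) (eta1 X) u| ≤ Real.exp (-(10 * ell X))

/-! ## Module P -/

/-- Parseval's formula against the indicator of a bounded set `B`, split into an `L¹` and an `L²` part. -/
def ParStm : Prop := ∀ (f : ℕ → ℝ) (N : ℕ) (η η' a b s Q : ℝ), 0 < η → 0 < η' → 0 ≤ s → 0 ≤ Q →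
  (∀ n, N < n → f n = 0) → ∀ B E : Set ℝ, MeasurableSet B → B ⊆ Set.Icc a b → MeasurableSet E →
  ∫⁻ t in E, ENNReal.ofReal (‖DD f N t‖ * ‖mm η t - mm η' t‖) ≤ ENNReal.ofReal s →
  ∫⁻ t in Eᶜ, ENNReal.ofReal (‖DD f N t‖ ^ 2 * ‖mm η t - mm η' t‖ ^ 2) ≤ ENNReal.ofReal Q →
  |∫ u in B, (av f η u - av f η' u)| ≤ s * (volume B).toReal + Real.sqrt (Q * (volume B).toReal)

/-! ## Module A -/

/-- The bound for the mean square part. -/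
def Qb (κ X η : ℝ) : ℝ := (if X ^ (-(5 / 12) + κ) ≤ η then 0 else X ^ (-(2 / 3) + κ) / η) + X ^ (-(19 / 20) : ℝ)

/-- Boxes without a long smooth factor. -/
def BoxStm : Prop := ∀ κ : ℝ, 0 < κ → ∃ J₀ : ℕ, 1 ≤ J₀ ∧ ∀ J : ℕ, J₀ ≤ J → ∃ κ₁ c₀ X₀ : ℝ, 0 < κ₁ ∧ 0 < c₀ ∧
  1 ≤ X₀ ∧ ∀ X η : ℝ, X₀ ≤ X → 1 / (10 * Real.sqrt X) ≤ η → η ≤ X ^ (-(2 / 5) : ℝ) → ∀ j V : ℕ, 1 ≤ j → j ≤ J →
  ∀ c : Fin (2 * j) → ℕ, |(∑ k, (c k : ℝ)) - Real.log X| ≤ 4 * J + 4 →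
  (∀ k : Fin (2 * j), (k : ℕ) < j → (c k : ℝ) ≤ Real.log X / J + 4) →
  (∀ k : Fin (2 * j), j ≤ (k : ℕ) → (c k : ℝ) < Real.log (1 / η) + κ₁ * Real.log X) →
  ∃ E : Set ℝ, MeasurableSet E ∧
    ∫⁻ t in E, ENNReal.ofReal (‖DD (box V j c) (bN c) t‖ * ‖mm η t - mm (eta1 X) t‖) ≤
      ENNReal.ofReal (Real.exp (-(c₀ * ell X))) ∧
    ∫⁻ t in Eᶜ, ENNReal.ofReal (‖DD (box V j c) (bN c) t‖ ^ 2 * ‖mm η t - mm (eta1 X) t‖ ^ 2) ≤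
      ENNReal.ofReal (Qb κ X η)

/-! ## Module C -/

/-- The measure of the set where a short average of `Λ` exceeds the long one. -/
def CoreStm : Prop := ∀ κ : ℝ, 0 < κ → ∃ X₀ : ℝ, 1 ≤ X₀ ∧ ∀ X η : ℝ, X₀ ≤ X → 1 / (10 * Real.sqrt X) ≤ η →
  η ≤ X ^ (-(2 / 5) : ℝ) → ∀ B : Set ℝ, MeasurableSet B → B ⊆ Set.Icc (Real.log X) (Real.log X + 1) →
  (∀ u ∈ B, 1 / (400 * Real.log X) ≤
    av (fun n => vonMangoldt n) η u - av (fun n => vonMangoldt n) (eta1 X) u) →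
  volume B ≤ ENNReal.ofReal (Qb κ X η * X ^ (1 / 100 * κ))

/-- The measure of the bad sets of `H31W`. -/
def MBStm : Prop := ∀ κ : ℝ, 0 < κ → ∃ N₀ : ℕ, ∀ N : ℕ, N₀ ≤ N → ∀ η : ℝ, 1 / (2 * (N : ℝ)) ≤ η →
  η ≤ (N : ℝ) ^ (-(81 / 100) : ℝ) →
  volume (MB N η) ≤ ENNReal.ofReal ((N : ℝ) ^ (-(4 / 3) + κ) / η + (N : ℝ) ^ (-(9 / 5) : ℝ)) ∧
  ((N : ℝ) ^ (-(5 / 6) + κ) ≤ η → volume (MB N η) ≤ ENNReal.ofReal ((N : ℝ) ^ (-(9 / 5) : ℝ)))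

/-! ## Module E: the three theorems -/

open Classical in
/-- All but `N^(2/3+ε)` of the `n ≤ N` are good. -/
def GoodStm : Prop := ∀ ε : ℝ, 0 < ε → ∃ N₀ : ℕ, ∀ N : ℕ, N₀ ≤ N →
  (((Icc 1 N).filter (fun n => ¬ GoodN n)).card : ℝ) ≤ (N : ℝ) ^ (2 / 3 + ε)

/-- `r m < r n` for all `m ≥ n + n^(1/6+ε)`. -/
def WinStm : Prop := ∀ ε : ℝ, 0 < ε → ∃ n₀ : ℕ, ∀ n m : ℕ, n₀ ≤ n → (n : ℝ) + (n : ℝ) ^ (1 / 6 + ε) ≤ m → r m < r n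

open Classical in
/-- At most `N^(2/5+ε)` of the `n ≤ N` take part in a coincidence. -/
def CoStm : Prop := ∀ ε : ℝ, 0 < ε → ∃ N₀ : ℕ, ∀ N : ℕ, N₀ ≤ N →
  (((Icc 1 N).filter (fun n => ∃ m : ℕ, 1 ≤ m ∧ m ≠ n ∧ r m = r n)).card : ℝ) ≤ (N : ℝ) ^ (2 / 5 + ε)

end

end Pool.Agent.Lib.H31P
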