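import Pool.Agent.Lib.H31P.Top
import Pool.Agent.Lib.H31X.X1

/-!
# H31P, module W: notation and simple facts (proved)
-/

open Finset

namespace Pool.Agent.Lib.H31P

noncomputable section

/-- `n^(it)` for `n ≥ 1`. -/
def nit (t : ℝ) (n : ℕ) : ℂ := Complex.exp (((t * Real.log n : ℝ) : ℂ) * Complex.I)

/-- The step of the argument of `n^(it)`. -/
def th (t : ℝ) (n : ℕ) : ℝ := t * (Real.log ((n + 1 : ℕ) : ℝ) - Real.log n)

theorem norm_nit (t : ℝ) (n : ℕ) : ‖nit t n‖ = 1 := Complex.norm_exp_ofReal_mul_I _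

theorem nit_succ (t : ℝ) (n : ℕ) : nit t (n + 1) = Complex.exp ((th t n : ℂ) * Complex.I) * nit t n := by
  unfold nit th
  rw [← Complex.exp_add]
  congr 1
  push_cast
  ring

theorem nit_eq (t : ℝ) {n : ℕ} (hn : 1 ≤ n) : (n : ℂ) ^ ((t : ℂ) * Complex.I) = nit t n := by
  have hn0 : (n : ℂ) ≠ 0 := by
    have : n ≠ 0 := by omega
    exact_mod_cast this
  unfold nit
  rw [Complex.cpow_def_of_ne_zero hn0, ← Complex.natCast_log]
  congr 1
  push_cast
  ring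

theorem nit_eq_neg (t : ℝ) {n : ℕ} (hn : 1 ≤ n) :
    (n : ℂ) ^ (-((t : ℂ) * Complex.I)) = nit (-t) n := by
  rw [← nit_eq (-t) hn]
  congr 1
  push_cast
  ring

theorem nit_neg (t : ℝ) (n : ℕ) : nit (-t) n = (starRingEnd ℂ) (nit t n) := by
  unfold nit
  rw [← Complex.exp_conj]
  congr 1
  simp only [map_mul, Complex.conj_ofReal, Complex.conj_I]
  push_cast
  ring

theorem norm_sum_nit_neg (t : ℝ) (S : Finset ℕ) : ‖∑ n ∈ S, nit (-t) n‖ = ‖∑ n ∈ S, nit t n‖ := by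
  rw [← RCLike.norm_conj (∑ n ∈ S, nit t n), map_sum]
  congr 1
  exact sum_congr rfl fun n _ => nit_neg t n

theorem norm_sum_nit_abs (t : ℝ) (S : Finset ℕ) : ‖∑ n ∈ S, nit |t| n‖ = ‖∑ n ∈ S, nit t n‖ := by
  rcases le_or_gt 0 t with h | h
  · rw [abs_of_nonneg h]
  · rw [abs_of_neg h, norm_sum_nit_neg]

theorem norm_sum_nit_le (t : ℝ) (S : Finset ℕ) : ‖∑ n ∈ S, nit t n‖ ≤ S.card := by
  refine (norm_sum_le _ _).trans ?_
  rw [sum_congr rfl fun n _ => norm_nit t n]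
  simp

/-- The sums of the interface statements in terms of `nit`. -/
theorem sum_nit_eq (t : ℝ) (N N' : ℕ) :
    ∑ n ∈ Ioc N N', (n : ℂ) ^ ((t : ℂ) * Complex.I) = ∑ n ∈ Ioc N N', nit t n :=
  sum_congr rfl fun n hn => nit_eq t (by have := (mem_Ioc.mp hn).1; omega)

end

end Pool.Agent.Lib.H31P
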