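import Pool.Agent.Lib.H31P.W0

/-!
# Chunk W1 (M): Kusmin-Landau inequality for sequences
-/

open Finset

namespace Pool.Agent.Lib.H31P

/-- Half of the cotangent of half the angle. -/
private noncomputable def w1k (θ : ℝ) : ℝ := Real.cos (θ / 2) / (2 * Real.sin (θ / 2))

private lemma w1_sin_pos {θ : ℝ} (h0 : 0 < θ) (h1 : θ < 2 * Real.pi) : 0 < Real.sin (θ / 2) :=
  Real.sin_pos_of_pos_of_lt_pi (by linarith) (by linarith)

private lemma w1_sin_ge {θ δ : ℝ} (hδ : 0 < δ) (h0 : δ ≤ θ) (h1 : θ ≤ 2 * Real.pi - δ) :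
    δ / 4 ≤ Real.sin (θ / 2) := by
  have hπ := Real.pi_pos
  have hπ4 := Real.pi_le_four
  have key : ∀ z : ℝ, δ / 2 ≤ z → z ≤ Real.pi / 2 → δ / 4 ≤ Real.sin z := by
    intro z hz1 hz2
    have h := Real.mul_le_sin (by linarith : 0 ≤ z) hz2
    have h2 : (1 : ℝ) / 2 ≤ 2 / Real.pi := by
      rw [div_le_div_iff₀ (by norm_num) hπ]
      linarith
    have h3 : 1 / 2 * z ≤ 2 / Real.pi * z := mul_le_mul_of_nonneg_right h2 (by linarith)
    linarith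
  rcases le_total (θ / 2) (Real.pi / 2) with h | h
  · exact key _ (by linarith) h
  · rw [← Real.sin_pi_sub]
    exact key _ (by linarith) (by linarith)

private lemma w1k_abs {θ δ : ℝ} (hδ : 0 < δ) (h0 : δ ≤ θ) (h1 : θ ≤ 2 * Real.pi - δ) :
    |w1k θ| ≤ 2 / δ := by
  have h2 := w1_sin_ge hδ h0 h1
  have h3 : 0 < Real.sin (θ / 2) := lt_of_lt_of_le (by positivity) h2
  unfold w1k
  rw [abs_div, abs_of_pos (by positivity : 0 < 2 * Real.sin (θ / 2)), div_le_div_iff₀ (by positivity) hδ]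
  have h4 := Real.abs_cos_le_one (θ / 2)
  have h5 : |Real.cos (θ / 2)| * δ ≤ 1 * δ := mul_le_mul_of_nonneg_right h4 hδ.le
  linarith

private lemma w1k_anti {θ φ : ℝ} (h0 : 0 < θ) (h1 : θ ≤ φ) (h2 : φ < 2 * Real.pi) : w1k φ ≤ w1k θ := by
  unfold w1k
  have hs := w1_sin_pos h0 (h1.trans_lt h2)
  have hs' := w1_sin_pos (h0.trans_le h1) h2
  rw [div_le_div_iff₀ (by positivity) (by positivity)]
  have h3 : 0 ≤ Real.sin (φ / 2 - θ / 2) :=
    Real.sin_nonneg_of_nonneg_of_le_pi (by linarith) (by linarith)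
  rw [Real.sin_sub] at h3
  linarith

private lemma w1_id {θ : ℝ} (h0 : 0 < θ) (h1 : θ < 2 * Real.pi) :
    (-1 / 2 - Complex.I * (w1k θ : ℂ)) * (Complex.exp ((θ : ℂ) * Complex.I) - 1) = 1 := by
  have hs := w1_sin_pos h0 h1
  have he : Complex.exp ((θ : ℂ) * Complex.I) =
      ((Real.cos (θ / 2) : ℂ) + (Real.sin (θ / 2) : ℂ) * Complex.I) ^ 2 := by
    have : (θ : ℂ) * Complex.I = ((2 : ℕ) : ℂ) * (((θ / 2 : ℝ) : ℂ) * Complex.I) := by
      push_cast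
      ring
    rw [this, Complex.exp_nat_mul, Complex.exp_mul_I]
    push_cast
    rfl
  have hsc : ((Real.sin (θ / 2) : ℝ) : ℂ) ≠ 0 := by
    exact_mod_cast hs.ne'
  have hcs : ((Real.sin (θ / 2) : ℝ) : ℂ) ^ 2 + ((Real.cos (θ / 2) : ℝ) : ℂ) ^ 2 = 1 := by
    exact_mod_cast Real.sin_sq_add_cos_sq (θ / 2)
  have hk : ((w1k θ : ℝ) : ℂ) = (Real.cos (θ / 2) : ℂ) / (2 * (Real.sin (θ / 2) : ℂ)) := by
    unfold w1k
    push_cast
    rfl
  rw [he, hk]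
  generalize ((Real.cos (θ / 2) : ℝ) : ℂ) = c at *
  generalize ((Real.sin (θ / 2) : ℝ) : ℂ) = s at *
  have hI : Complex.I ^ 2 = -1 := Complex.I_sq
  field_simp
  linear_combination (s - Complex.I * c) * hcs + ((-s - Complex.I * c) * s ^ 2 - 2 * c ^ 2 * s) * hI

/-- **Kusmin-Landau.** `a_{n+1} = e^(iθ_n) a_n`, `|a_n| = 1`, `θ_n` decreasing, `δ ≤ θ_n ≤ 2π - δ` for `N < n ≤ M`.

Proof (copy of `X1_abs` in `H31X/X1.lean`, which is the case `θ ≤ 1`; its lemmas are private, copy them). Let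
`k θ = cos (θ/2)/(2 sin (θ/2))`. For `0 < θ < 2π` one has `sin (θ/2) > 0` and `(-1/2 - i k θ)(e^(iθ) - 1) = 1` (`X1_id`).
`k` is decreasing on `(0, 2π)` (`X1k_anti`: `sin (φ/2 - θ/2) ≥ 0` for `θ ≤ φ`). For `δ ≤ θ ≤ 2π - δ` (so `δ ≤ π`)
`|k θ| ≤ 2/δ`: `|cos| ≤ 1` and `sin (θ/2) ≥ δ/4`, because `θ/2` and `π - θ/2` are both `≥ δ/2` and the smaller one of them, `z`, is `≤ π/2`,
`sin (θ/2) = sin z ≥ (2/π) z ≥ z/2 ≥ δ/4` (`Real.mul_le_sin`). If `N = M` the sum is 0. If `N < M`: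
`∑ a_n = -(1/2)(a_{M+1} - a_{N+1}) - i ∑ k(θ_n)(a_{n+1} - a_n)` over `N < n ≤ M` (telescoping), and by induction on `M ≥ N + 1`
`|∑_{N < n ≤ M} k(θ_n)(a_{n+1} - a_n) - k(θ_M) a_{M+1}| ≤ |k(θ_{N+1})| + (k(θ_M) - k(θ_{N+1}))` (`k(θ_n)` is increasing in `n`).
Hence the sum is at most `1 + |k(θ_M)| + |k(θ_{N+1})| + k(θ_M) - k(θ_{N+1}) ≤ 1 + 8/δ`. -/
theorem klg (a : ℕ → ℂ) (θ : ℕ → ℝ) (N M : ℕ) (δ : ℝ) (hδ : 0 < δ) (hN : N ≤ M) (ha : ∀ n, ‖a n‖ = 1)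
    (h1 : ∀ n ∈ Ioc N M, δ ≤ θ n) (h2 : ∀ n ∈ Ioc N M, θ n ≤ 2 * Real.pi - δ)
    (hanti : ∀ m ∈ Ioc N M, ∀ n ∈ Ioc N M, m ≤ n → θ n ≤ θ m)
    (hstep : ∀ n ∈ Ioc N M, a (n + 1) = Complex.exp ((θ n : ℂ) * Complex.I) * a n) :
    ‖∑ n ∈ Ioc N M, a n‖ ≤ 1 + 8 / δ := by
  rcases hN.eq_or_lt with rfl | hNM
  · rw [Ioc_self, sum_empty, norm_zero]
    positivity
  have hpos : ∀ n ∈ Ioc N M, 0 < θ n := fun n hn => hδ.trans_le (h1 n hn)
  have hlt : ∀ n ∈ Ioc N M, θ n < 2 * Real.pi := fun n hn => by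
    have := h2 n hn
    linarith
  have hind : ∀ M' : ℕ, N + 1 ≤ M' → M' ≤ M →
      ‖∑ n ∈ Ioc N M', (w1k (θ n) : ℂ) * (a (n + 1) - a n) - (w1k (θ M') : ℂ) * a (M' + 1)‖
        ≤ |w1k (θ (N + 1))| + (w1k (θ M') - w1k (θ (N + 1))) := by
    intro M' hM'
    induction M', hM' using Nat.le_induction with
    | base =>
      intro _
      rw [← Finset.insert_Ioc_right_eq_Ioc_add_one le_rfl, sum_insert (by simp), Ioc_self, sum_empty, add_zero]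
      have e : (w1k (θ (N + 1)) : ℂ) * (a (N + 1 + 1) - a (N + 1)) -
          (w1k (θ (N + 1)) : ℂ) * a (N + 1 + 1) = -((w1k (θ (N + 1)) : ℂ) * a (N + 1)) := by ring
      rw [e, norm_neg, norm_mul, ha, mul_one, Complex.norm_real, Real.norm_eq_abs]
      linarith
    | succ M' hM' ih =>
      intro hle
      have ih' := ih (by omega)
      rw [← Finset.insert_Ioc_right_eq_Ioc_add_one (by omega : N ≤ M'), sum_insert (by simp)]
      have hmem1 : M' ∈ Ioc N M := mem_Ioc.mpr ⟨by omega, by omega⟩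
      have hmem2 : M' + 1 ∈ Ioc N M := mem_Ioc.mpr ⟨by omega, by omega⟩
      have hmono : w1k (θ M') ≤ w1k (θ (M' + 1)) :=
        w1k_anti (hpos _ hmem2) (hanti _ hmem1 _ hmem2 (by omega)) (hlt _ hmem1)
      have heq : (w1k (θ (M' + 1)) : ℂ) * (a (M' + 1 + 1) - a (M' + 1)) +
          ∑ x ∈ Ioc N M', (w1k (θ x) : ℂ) * (a (x + 1) - a x) - (w1k (θ (M' + 1)) : ℂ) * a (M' + 1 + 1) =
          (∑ x ∈ Ioc N M', (w1k (θ x) : ℂ) * (a (x + 1) - a x) - (w1k (θ M') : ℂ) * a (M' + 1)) -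
          ((w1k (θ (M' + 1)) - w1k (θ M') : ℝ) : ℂ) * a (M' + 1) := by
        push_cast
        ring
      rw [heq]
      refine (norm_sub_le _ _).trans ?_
      rw [norm_mul, ha, mul_one, Complex.norm_real, Real.norm_of_nonneg (by linarith)]
      linarith
  have hsum : ∑ n ∈ Ioc N M, a n = -(1 / 2) * (a (M + 1) - a (N + 1)) -
      Complex.I * ∑ n ∈ Ioc N M, (w1k (θ n) : ℂ) * (a (n + 1) - a n) := by
    have htel : ∀ M' : ℕ, N ≤ M' → ∑ n ∈ Ioc N M', (a (n + 1) - a n) = a (M' + 1) - a (N + 1) := by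
      intro M' hM'
      induction M', hM' using Nat.le_induction with
      | base => simp
      | succ M' hM' ih =>
        rw [← Finset.insert_Ioc_right_eq_Ioc_add_one hM', sum_insert (by simp), ih]
        ring
    rw [← htel M hN, mul_sum, mul_sum, ← sum_sub_distrib]
    apply sum_congr rfl
    intro n hn
    have hid := w1_id (hpos n hn) (hlt n hn)
    rw [hstep n hn]
    linear_combination (-a n) * hid
  have hmemM : M ∈ Ioc N M := mem_Ioc.mpr ⟨hNM, le_rfl⟩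
  have hmemN : N + 1 ∈ Ioc N M := mem_Ioc.mpr ⟨by omega, hNM⟩
  have hkM := w1k_abs hδ (h1 M hmemM) (h2 M hmemM)
  have hkN := w1k_abs hδ (h1 _ hmemN) (h2 _ hmemN)
  have hkM' := abs_le.mp hkM
  have hkN' := abs_le.mp hkN
  have h3 := hind M hNM le_rfl
  have h4 : ‖∑ n ∈ Ioc N M, (w1k (θ n) : ℂ) * (a (n + 1) - a n)‖ ≤ 8 / δ := by
    have h5 := norm_add_le (∑ n ∈ Ioc N M, (w1k (θ n) : ℂ) * (a (n + 1) - a n) -
      (w1k (θ M) : ℂ) * a (M + 1)) ((w1k (θ M) : ℂ) * a (M + 1))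
    rw [sub_add_cancel] at h5
    have h6 : ‖(w1k (θ M) : ℂ) * a (M + 1)‖ = |w1k (θ M)| := by
      rw [norm_mul, ha, mul_one, Complex.norm_real, Real.norm_eq_abs]
    have h7 : 8 / δ = 2 / δ + 2 / δ + 2 / δ + 2 / δ := by ring
    linarith
  have h8 : ‖-(1 / 2 : ℂ) * (a (M + 1) - a (N + 1))‖ ≤ 1 := by
    rw [norm_mul]
    have h9 := norm_sub_le (a (M + 1)) (a (N + 1))
    rw [ha, ha] at h9
    have h10 : ‖-(1 / 2 : ℂ)‖ = 1 / 2 := by
      rw [norm_neg]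
      norm_num
    rw [h10]
    linarith
  rw [hsum]
  refine (norm_sub_le _ _).trans ?_
  rw [norm_mul Complex.I, Complex.norm_I, one_mul]
  linarith

end Pool.Agent.Lib.H31P
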