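import Pool.Agent.Lib.H31P.W0

/-!
# Chunk W2 (S/M): convex sets of indices; counting with gaps
-/

open Finset

namespace Pool.Agent.Lib.H31P

/-- A set of natural numbers without holes in `(N, M]` is of the form `(N₁, M₁]`.

Proof. If `S` is empty take `N₁ = M₁ = N`. Otherwise `N₁ = S.min' - 1` (`S.min' ≥ N + 1`), `M₁ = S.max'`. -/
theorem ex_Ioc (N M : ℕ) (hN : N ≤ M) (S : Finset ℕ) (hS : S ⊆ Ioc N M)
    (hc : ∀ x ∈ S, ∀ z ∈ S, ∀ y, x ≤ y → y ≤ z → y ∈ S) :
    ∃ N₁ M₁, N ≤ N₁ ∧ N₁ ≤ M₁ ∧ M₁ ≤ M ∧ S = Ioc N₁ M₁ := by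
  rcases S.eq_empty_or_nonempty with rfl | hne
  · exact ⟨N, N, le_rfl, le_rfl, hN, (Finset.Ioc_self N).symm⟩
  · have h1 := Finset.mem_Ioc.1 (hS (S.min'_mem hne))
    have h2 := Finset.mem_Ioc.1 (hS (S.max'_mem hne))
    have h3 : S.min' hne ≤ S.max' hne := S.min'_le _ (S.max'_mem hne)
    refine ⟨S.min' hne - 1, S.max' hne, by omega, by omega, by omega, ?_⟩
    ext y
    rw [Finset.mem_Ioc]
    constructor
    · intro hy
      have h4 := S.min'_le y hy
      have h5 := S.le_max' y hy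
      omega
    · rintro ⟨h4, h5⟩
      exact hc _ (S.min'_mem hne) _ (S.max'_mem hne) y (by omega) h5

/-- Gaps of at least `l` between consecutive values: `θ_m - θ_n ≥ (n - m) l` for `N < m ≤ n ≤ M`.

Proof. Induction on `n` (`Nat.le_induction`). -/
theorem gap_le (θ : ℕ → ℝ) (N M : ℕ) (l : ℝ) (hgap : ∀ n ∈ Ioo N M, l ≤ θ n - θ (n + 1)) (m n : ℕ)
    (hm : N < m) (hmn : m ≤ n) (hn : n ≤ M) : ((n : ℝ) - m) * l ≤ θ m - θ n := by
  induction n, hmn using Nat.le_induction with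
  | base => rw [sub_self, sub_self, zero_mul]
  | succ k hk ih =>
    have h1 := ih (by omega)
    have h2 := hgap k (Finset.mem_Ioo.2 ⟨by omega, by omega⟩)
    have h3 : (((k + 1 : ℕ) : ℝ) - m) * l = ((k : ℝ) - m) * l + l := by
      push_cast
      ring
    rw [h3]
    linarith

/-- The same from above. -/
theorem gap_ge (θ : ℕ → ℝ) (N M : ℕ) (l : ℝ) (hgap : ∀ n ∈ Ioo N M, θ n - θ (n + 1) ≤ l) (m n : ℕ)
    (hm : N < m) (hmn : m ≤ n) (hn : n ≤ M) : θ m - θ n ≤ ((n : ℝ) - m) * l := by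
  induction n, hmn using Nat.le_induction with
  | base => rw [sub_self, sub_self, zero_mul]
  | succ k hk ih =>
    have h1 := ih (by omega)
    have h2 := hgap k (Finset.mem_Ioo.2 ⟨by omega, by omega⟩)
    have h3 : (((k + 1 : ℕ) : ℝ) - m) * l = ((k : ℝ) - m) * l + l := by
      push_cast
      ring
    rw [h3]
    linarith

/-- At most `δ/l + 1` values in a half open interval of length `δ`.

Proof. Empty: clear. Otherwise let `m`, `n` be the smallest and the largest element; the set is contained in `Icc m n`, which has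
`n - m + 1` elements, and `(n - m) l ≤ θ_m - θ_n < δ` by `gap_le`. -/
theorem card_gap (θ : ℕ → ℝ) (N M : ℕ) (l : ℝ) (hl : 0 < l) (hgap : ∀ n ∈ Ioo N M, l ≤ θ n - θ (n + 1))
    (x δ : ℝ) (hδ : 0 < δ) :
    (((Ioc N M).filter (fun n => x ≤ θ n ∧ θ n < x + δ)).card : ℝ) ≤ δ / l + 1 := by
  set S := (Ioc N M).filter (fun n => x ≤ θ n ∧ θ n < x + δ) with hS
  rcases S.eq_empty_or_nonempty with h0 | hne
  · rw [h0, Finset.card_empty, Nat.cast_zero]
    positivity
  · have h1 := Finset.mem_filter.1 (S.min'_mem hne)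
    have h2 := Finset.mem_filter.1 (S.max'_mem hne)
    have h3 : S.min' hne ≤ S.max' hne := S.min'_le _ (S.max'_mem hne)
    have h4 := Finset.mem_Ioc.1 h1.1
    have h5 := Finset.mem_Ioc.1 h2.1
    have h6 := gap_le θ N M l hgap (S.min' hne) (S.max' hne) h4.1 h3 h5.2
    have h7 : S ⊆ Icc (S.min' hne) (S.max' hne) := fun y hy =>
      Finset.mem_Icc.2 ⟨S.min'_le y hy, S.le_max' y hy⟩
    have h8 := Finset.card_le_card h7
    rw [Nat.card_Icc] at h8
    have h9 : (S.card : ℝ) ≤ ((S.max' hne : ℕ) : ℝ) - ((S.min' hne : ℕ) : ℝ) + 1 := by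
      have h10 : S.card ≤ S.max' hne - S.min' hne + 1 := by omega
      have h11 : ((S.max' hne - S.min' hne : ℕ) : ℝ) =
          ((S.max' hne : ℕ) : ℝ) - ((S.min' hne : ℕ) : ℝ) := Nat.cast_sub h3
      rw [← h11]
      exact_mod_cast h10
    have h12 : ((S.max' hne : ℕ) : ℝ) - ((S.min' hne : ℕ) : ℝ) ≤ δ / l := by
      rw [le_div_iff₀ hl]
      have h13 := h1.2.2
      have h14 := h2.2.1
      linarith
    linarith

end Pool.Agent.Lib.H31P
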