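import Pool.Agent.Lib.H31P.W1
import Pool.Agent.Lib.H31P.W2

/-!
# Chunk W3 (M): second derivative test for sequences
-/

open Finset

namespace Pool.Agent.Lib.H31P

/-- One period: the sum over the `n` with `⌊θ_n/(2π)⌋ = k` is at most `13/√l`.

Proof. `δ = √l ≤ 1`. By `gap_le` `θ` is decreasing on `(N, M]`. `⌊θ_n/(2π)⌋ = k` means `2πk ≤ θ_n < 2π(k+1)`. Let `G` be the set of the `n ∈ (N, M]`
with `2πk + δ ≤ θ_n < 2π(k+1) - δ`. The `n` of the period which are not in `G` satisfy `2πk ≤ θ_n < 2πk + δ` or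
`2π(k+1) - δ ≤ θ_n < 2π(k+1)`: at most `2(δ/l + 1) ≤ 4/√l` elements (`card_gap`), every term has norm 1. `G` has no holes (`θ` is decreasing):
`G = (N₁, M₁]` (`ex_Ioc`); `klg` for `θ - 2πk` (`e^(i(θ_n - 2πk)) = e^(iθ_n)`: `Complex.exp_eq_exp_iff_exists_int` or
`Complex.exp_sub`, `Complex.exp_int_mul_two_pi_mul_I`) gives `1 + 8/δ ≤ 9/√l`. -/
theorem one_period (a : ℕ → ℂ) (θ : ℕ → ℝ) (N M : ℕ) (l : ℝ) (hl : 0 < l) (hl1 : l ≤ 1) (hN : N ≤ M)
    (ha : ∀ n, ‖a n‖ = 1) (hstep : ∀ n ∈ Ioc N M, a (n + 1) = Complex.exp ((θ n : ℂ) * Complex.I) * a n)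
    (hlow : ∀ n ∈ Ioo N M, l ≤ θ n - θ (n + 1)) (k : ℤ) :
    ‖∑ n ∈ (Ioc N M).filter (fun n => ⌊θ n / (2 * Real.pi)⌋ = k), a n‖ ≤ 13 / √l := by
  have hpi := Real.pi_pos
  set δ : ℝ := √l with hδ
  have hδ0 : 0 < δ := Real.sqrt_pos.2 hl
  have hδ1 : δ ≤ 1 := by
    rw [hδ, Real.sqrt_le_one]
    exact hl1
  have hδl : δ * δ = l := Real.mul_self_sqrt hl.le
  have hmono : ∀ m ∈ Ioc N M, ∀ n ∈ Ioc N M, m ≤ n → θ n ≤ θ m := by
    intro m hm n hn hmn
    have h1 := gap_le θ N M l hlow m n (Finset.mem_Ioc.1 hm).1 hmn (Finset.mem_Ioc.1 hn).2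
    have h2 : (0 : ℝ) ≤ ((n : ℝ) - m) * l := by
      have h3 : (m : ℝ) ≤ n := by exact_mod_cast hmn
      exact mul_nonneg (by linarith) hl.le
    linarith
  set P := (Ioc N M).filter (fun n => ⌊θ n / (2 * Real.pi)⌋ = k) with hP
  set G := (Ioc N M).filter
    (fun n => 2 * Real.pi * k + δ ≤ θ n ∧ θ n < 2 * Real.pi * (k + 1) - δ) with hG
  set A := (Ioc N M).filter
    (fun n => 2 * Real.pi * k ≤ θ n ∧ θ n < 2 * Real.pi * k + δ) with hA
  set B := (Ioc N M).filter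
    (fun n => 2 * Real.pi * (k + 1) - δ ≤ θ n ∧ θ n < 2 * Real.pi * (k + 1) - δ + δ) with hB
  have hPmem : ∀ n, n ∈ P ↔
      n ∈ Ioc N M ∧ 2 * Real.pi * k ≤ θ n ∧ θ n < 2 * Real.pi * (k + 1) := by
    intro n
    rw [hP, Finset.mem_filter, Int.floor_eq_iff, le_div_iff₀ (by positivity),
      div_lt_iff₀ (by positivity)]
    constructor
    · rintro ⟨h1, h2, h3⟩
      exact ⟨h1, by linarith, by linarith⟩
    · rintro ⟨h1, h2, h3⟩
      exact ⟨h1, by linarith, by linarith⟩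
  have hGP : G ⊆ P := by
    intro n hn
    rw [hG, Finset.mem_filter] at hn
    rw [hPmem]
    exact ⟨hn.1, by linarith [hn.2.1], by linarith [hn.2.2]⟩
  have hPG : P \ G ⊆ A ∪ B := by
    intro n hn
    rw [Finset.mem_sdiff, hPmem] at hn
    obtain ⟨⟨h1, h2, h3⟩, h4⟩ := hn
    rw [Finset.mem_union, hA, hB, Finset.mem_filter, Finset.mem_filter]
    rcases lt_or_ge (θ n) (2 * Real.pi * k + δ) with h5 | h5
    · exact Or.inl ⟨h1, h2, h5⟩
    · right
      refine ⟨h1, ?_, by linarith⟩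
      by_contra h6
      exact h4 (by rw [hG, Finset.mem_filter]; exact ⟨h1, h5, not_le.1 h6⟩)
  have hcA : (A.card : ℝ) ≤ δ / l + 1 := card_gap θ N M l hl hlow _ δ hδ0
  have hcB : (B.card : ℝ) ≤ δ / l + 1 := card_gap θ N M l hl hlow _ δ hδ0
  have hdl : δ / l = 1 / δ := by
    rw [← hδl]
    field_simp
  have hinv : 1 ≤ 1 / δ := by
    rw [le_div_iff₀ hδ0]
    linarith
  have hrest : ‖∑ n ∈ P \ G, a n‖ ≤ 4 / δ := by
    have h1 : ‖∑ n ∈ P \ G, a n‖ ≤ ∑ n ∈ P \ G, (1 : ℝ) := by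
      refine (norm_sum_le _ _).trans (Finset.sum_le_sum fun n _ => (ha n).le)
    rw [Finset.sum_const, nsmul_eq_mul, mul_one] at h1
    have h2 : ((P \ G).card : ℝ) ≤ A.card + B.card := by
      have h3 := (Finset.card_le_card hPG).trans (Finset.card_union_le A B)
      exact_mod_cast h3
    have h4 : 4 / δ = 4 * (1 / δ) := by ring
    rw [h4]
    rw [hdl] at hcA hcB
    linarith
  have hGsum : ‖∑ n ∈ G, a n‖ ≤ 1 + 8 / δ := by
    obtain ⟨N₁, M₁, h1, h2, h3, h4⟩ := ex_Ioc N M hN G (Finset.filter_subset _ _) (by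
      intro x hx z hz y hxy hyz
      rw [hG, Finset.mem_filter] at hx hz ⊢
      have hx1 := Finset.mem_Ioc.1 hx.1
      have hz1 := Finset.mem_Ioc.1 hz.1
      have hy1 : y ∈ Ioc N M := Finset.mem_Ioc.2 ⟨by omega, by omega⟩
      have h5 := hmono x hx.1 y hy1 hxy
      have h6 := hmono y hy1 z hz.1 hyz
      exact ⟨hy1, by linarith [hz.2.1], by linarith [hx.2.2]⟩)
    have hmem : ∀ n ∈ Ioc N₁ M₁, n ∈ Ioc N M ∧ 2 * Real.pi * k + δ ≤ θ n ∧
        θ n < 2 * Real.pi * (k + 1) - δ := by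
      intro n hn
      rw [← h4, hG, Finset.mem_filter] at hn
      exact hn
    rw [h4]
    refine klg a (fun n => θ n - 2 * Real.pi * k) N₁ M₁ δ hδ0 h2 ha ?_ ?_ ?_ ?_
    · intro n hn
      have h5 := (hmem n hn).2.1
      show δ ≤ θ n - 2 * Real.pi * k
      linarith
    · intro n hn
      have h5 := (hmem n hn).2.2
      show θ n - 2 * Real.pi * k ≤ 2 * Real.pi - δ
      linarith
    · intro m hm n hn hmn
      have h5 := hmono m (hmem m hm).1 n (hmem n hn).1 hmn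
      show θ n - 2 * Real.pi * k ≤ θ m - 2 * Real.pi * k
      linarith
    · intro n hn
      rw [hstep n (hmem n hn).1]
      congr 1
      rw [Complex.exp_eq_exp_iff_exists_int]
      refine ⟨k, ?_⟩
      push_cast
      ring
  have hsplit : ∑ n ∈ P, a n = ∑ n ∈ P \ G, a n + ∑ n ∈ G, a n :=
    (Finset.sum_sdiff hGP).symm
  rw [hsplit]
  refine (norm_add_le _ _).trans ?_
  have h1 : 13 / δ = 13 * (1 / δ) := by ring
  have h2 : 4 / δ = 4 * (1 / δ) := by ring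
  have h3 : 8 / δ = 8 * (1 / δ) := by ring
  rw [h2] at hrest
  rw [h3] at hGsum
  rw [h1]
  linarith

/-- **Second derivative test** for sequences.

Proof. If `N = M` the sum is 0. Otherwise all `⌊θ_n/(2π)⌋`, `N < n ≤ M`, lie between `⌊θ_M/(2π)⌋` and `⌊θ_{N+1}/(2π)⌋` (`gap_le`), so there are at most
`(θ_{N+1} - θ_M)/(2π) + 2 ≤ (M - N) c l/6 + 2` values (`gap_ge`; `2π ≥ 6`). `Finset.sum_fiberwise_of_maps_to` with the target
`Finset.Icc ⌊θ_M/(2π)⌋ ⌊θ_{N+1}/(2π)⌋` in `ℤ` and `one_period`: the sum is at most `((M - N) c l/6 + 2) · 13/√l`. -/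
theorem vc2_seq (a : ℕ → ℂ) (θ : ℕ → ℝ) (N M : ℕ) (l c : ℝ) (hl : 0 < l) (hl1 : l ≤ 1) (hc : 1 ≤ c) (hN : N ≤ M)
    (ha : ∀ n, ‖a n‖ = 1) (hstep : ∀ n ∈ Ioc N M, a (n + 1) = Complex.exp ((θ n : ℂ) * Complex.I) * a n)
    (hlow : ∀ n ∈ Ioo N M, l ≤ θ n - θ (n + 1)) (hup : ∀ n ∈ Ioo N M, θ n - θ (n + 1) ≤ c * l) :
    ‖∑ n ∈ Ioc N M, a n‖ ≤ 3 * c * ((M : ℝ) - N) * √l + 26 / √l := by
  have hs0 : 0 < √l := Real.sqrt_pos.2 hl
  rcases Nat.eq_or_lt_of_le hN with rfl | hlt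
  · rw [Finset.Ioc_self, Finset.sum_empty, norm_zero, sub_self, mul_zero, zero_mul, zero_add]
    positivity
  · have hpi := Real.pi_pos
    have hpi3 := Real.pi_gt_three
    have hmono : ∀ m ∈ Ioc N M, ∀ n ∈ Ioc N M, m ≤ n → θ n ≤ θ m := by
      intro m hm n hn hmn
      have h1 := gap_le θ N M l hlow m n (Finset.mem_Ioc.1 hm).1 hmn (Finset.mem_Ioc.1 hn).2
      have h2 : (0 : ℝ) ≤ ((n : ℝ) - m) * l := by
        have h3 : (m : ℝ) ≤ n := by exact_mod_cast hmn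
        exact mul_nonneg (by linarith) hl.le
      linarith
    have hMmem : M ∈ Ioc N M := Finset.mem_Ioc.2 ⟨hlt, le_rfl⟩
    have hNmem : N + 1 ∈ Ioc N M := Finset.mem_Ioc.2 ⟨by omega, by omega⟩
    have hmaps : ∀ n ∈ Ioc N M, ⌊θ n / (2 * Real.pi)⌋ ∈
        Finset.Icc ⌊θ M / (2 * Real.pi)⌋ ⌊θ (N + 1) / (2 * Real.pi)⌋ := by
      intro n hn
      have h1 := Finset.mem_Ioc.1 hn
      rw [Finset.mem_Icc]
      constructor
      · apply Int.floor_le_floor
        exact div_le_div_of_nonneg_right (hmono n hn M hMmem h1.2) (by positivity)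
      · apply Int.floor_le_floor
        exact div_le_div_of_nonneg_right (hmono (N + 1) hNmem n hn h1.1) (by positivity)
    rw [← Finset.sum_fiberwise_of_maps_to hmaps a]
    have hcard : ((Finset.Icc ⌊θ M / (2 * Real.pi)⌋ ⌊θ (N + 1) / (2 * Real.pi)⌋).card : ℝ) ≤
        ((M : ℝ) - N) * c * l / 6 + 2 := by
      have hMN : (0 : ℝ) ≤ (M : ℝ) - N := by
        have h3 : (N : ℝ) ≤ M := by exact_mod_cast hN
        linarith
      have hle := hmono (N + 1) hNmem M hMmem (by omega)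
      have hfl : ⌊θ M / (2 * Real.pi)⌋ ≤ ⌊θ (N + 1) / (2 * Real.pi)⌋ :=
        Int.floor_le_floor (div_le_div_of_nonneg_right hle (by positivity))
      have h1 : ((Finset.Icc ⌊θ M / (2 * Real.pi)⌋ ⌊θ (N + 1) / (2 * Real.pi)⌋).card : ℝ) =
          (⌊θ (N + 1) / (2 * Real.pi)⌋ : ℝ) + 1 - ⌊θ M / (2 * Real.pi)⌋ := by
        rw [Int.card_Icc]
        have h2 : (((⌊θ (N + 1) / (2 * Real.pi)⌋ + 1 - ⌊θ M / (2 * Real.pi)⌋).toNat : ℤ) : ℝ) =
            ((⌊θ (N + 1) / (2 * Real.pi)⌋ + 1 - ⌊θ M / (2 * Real.pi)⌋ : ℤ) : ℝ) := by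
          rw [Int.toNat_of_nonneg (by omega)]
        rw [Int.cast_natCast] at h2
        rw [h2]
        push_cast
        ring
      rw [h1]
      have h4 := Int.floor_le (θ (N + 1) / (2 * Real.pi))
      have h5 := Int.lt_floor_add_one (θ M / (2 * Real.pi))
      have h6 := gap_ge θ N M (c * l) hup (N + 1) M (by omega) (by omega) le_rfl
      have h7 : θ (N + 1) / (2 * Real.pi) - θ M / (2 * Real.pi) ≤ ((M : ℝ) - N) * c * l / 6 := by
        rw [← sub_div, div_le_div_iff₀ (by positivity) (by norm_num)]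
        have h8 : θ (N + 1) - θ M ≤ ((M : ℝ) - N) * c * l := by
          have h9 : ((M : ℝ) - ((N + 1 : ℕ) : ℝ)) * (c * l) = ((M : ℝ) - N) * c * l - c * l := by
            push_cast
            ring
          have h10 : 0 < c * l := by positivity
          linarith
        have h11 : 0 ≤ θ (N + 1) - θ M := by linarith
        have h12 : (0 : ℝ) ≤ ((M : ℝ) - N) * c * l := by positivity
        calc (θ (N + 1) - θ M) * 6 ≤ ((M : ℝ) - N) * c * l * 6 := by linarith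
          _ ≤ ((M : ℝ) - N) * c * l * (2 * Real.pi) :=
            mul_le_mul_of_nonneg_left (by linarith) h12
      linarith
    refine (norm_sum_le _ _).trans ?_
    refine (Finset.sum_le_sum fun k _ => one_period a θ N M l hl hl1 hN ha hstep hlow k).trans ?_
    rw [Finset.sum_const, nsmul_eq_mul]
    have hMN : (0 : ℝ) ≤ (M : ℝ) - N := by
      have h3 : (N : ℝ) ≤ M := by exact_mod_cast hN
      linarith
    have h1 : (0 : ℝ) ≤ 13 / √l := by positivity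
    refine (mul_le_mul_of_nonneg_right hcard h1).trans ?_
    have h2 : l = √l * √l := (Real.mul_self_sqrt hl.le).symm
    have h3 : (((M : ℝ) - N) * c * l / 6 + 2) * (13 / √l) =
        13 / 6 * (c * ((M : ℝ) - N) * √l) + 26 / √l := by
      have h4 : l / √l = √l := by
        rw [div_eq_iff hs0.ne']
        exact h2
      calc (((M : ℝ) - N) * c * l / 6 + 2) * (13 / √l)
          = 13 / 6 * (c * ((M : ℝ) - N)) * (l / √l) + 26 / √l := by ring
        _ = 13 / 6 * (c * ((M : ℝ) - N) * √l) + 26 / √l := by rw [h4]; ring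
    rw [h3]
    have h5 : 0 ≤ c * ((M : ℝ) - N) * √l := by positivity
    linarith

end Pool.Agent.Lib.H31P
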