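import Pool.Agent.Lib.H31P.W0

/-!
# Chunk W4 (S/M): differences of `t log n`
-/

open Finset

namespace Pool.Agent.Lib.H31P

private theorem W4_two (t : ℝ) (n : ℕ) (hn : 1 ≤ n) :
    th t n - th t (n + 1) = t * Real.log (((n : ℝ) + 1) ^ 2 / ((n : ℝ) * (n + 2))) := by
  have hn0 : (0 : ℝ) < n := by exact_mod_cast hn
  unfold th
  push_cast
  rw [show (n : ℝ) + 1 + 1 = n + 2 by ring, Real.log_div (by positivity) (by positivity),
    Real.log_pow, Real.log_mul (by positivity) (by positivity)]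
  push_cast
  ring

private theorem W4_three (t : ℝ) (n : ℕ) (hn : 1 ≤ n) :
    (th t n - th t (n + 1)) - (th t (n + 1) - th t (n + 2)) =
      t * Real.log (((n : ℝ) + 1) ^ 3 * (n + 3) / ((n : ℝ) * (n + 2) ^ 3)) := by
  have hn0 : (0 : ℝ) < n := by exact_mod_cast hn
  rw [W4_two t n hn, W4_two t (n + 1) (by omega)]
  push_cast
  rw [show (n : ℝ) + 1 + 1 = n + 2 by ring, show (n : ℝ) + 1 + 2 = n + 3 by ring,
    Real.log_div (by positivity) (by positivity), Real.log_div (by positivity) (by positivity),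
    Real.log_div (by positivity) (by positivity), Real.log_pow, Real.log_pow,
    Real.log_mul (by positivity) (by positivity), Real.log_mul (by positivity) (by positivity),
    Real.log_mul (by positivity) (by positivity), Real.log_mul (by positivity) (by positivity),
    Real.log_pow, Real.log_pow]
  push_cast
  ring

/-- Second differences from below.

Proof. `th t n - th t (n+1) = t log ((n+1)^2/(n(n+2))) = t log (1 + 1/(n(n+2)))` and
`log x ≥ 1 - 1/x` (`Real.one_sub_inv_le_log_of_pos`): `1 - n(n+2)/(n+1)^2 = 1/(n+1)^2`. -/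
theorem gap2_low (t : ℝ) (ht : 0 < t) (n : ℕ) (hn : 1 ≤ n) : t / ((n : ℝ) + 1) ^ 2 ≤ th t n - th t (n + 1) := by
  have hn0 : (0 : ℝ) < n := by exact_mod_cast hn
  rw [W4_two t n hn]
  have h1 := Real.one_sub_inv_le_log_of_pos
    (show 0 < ((n : ℝ) + 1) ^ 2 / ((n : ℝ) * (n + 2)) by positivity)
  have h2 : 1 - (((n : ℝ) + 1) ^ 2 / ((n : ℝ) * (n + 2)))⁻¹ = 1 / ((n : ℝ) + 1) ^ 2 := by
    rw [inv_div]
    field_simp
    ring
  rw [h2] at h1
  calc t / ((n : ℝ) + 1) ^ 2 = t * (1 / ((n : ℝ) + 1) ^ 2) := by ring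
    _ ≤ _ := mul_le_mul_of_nonneg_left h1 ht.le

/-- Second differences from above.

Proof. `log x ≤ x - 1`: `1/(n(n+2)) ≤ 1/n^2`. -/
theorem gap2_up (t : ℝ) (ht : 0 < t) (n : ℕ) (hn : 1 ≤ n) : th t n - th t (n + 1) ≤ t / (n : ℝ) ^ 2 := by
  have hn0 : (0 : ℝ) < n := by exact_mod_cast hn
  rw [W4_two t n hn]
  have h1 := Real.log_le_sub_one_of_pos
    (show 0 < ((n : ℝ) + 1) ^ 2 / ((n : ℝ) * (n + 2)) by positivity)
  have h2 : ((n : ℝ) + 1) ^ 2 / ((n : ℝ) * (n + 2)) - 1 = 1 / ((n : ℝ) * (n + 2)) := by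
    field_simp
    ring
  have h3 : 1 / ((n : ℝ) * (n + 2)) ≤ 1 / (n : ℝ) ^ 2 := by
    apply one_div_le_one_div_of_le (by positivity)
    nlinarith
  rw [h2] at h1
  calc t * Real.log (((n : ℝ) + 1) ^ 2 / ((n : ℝ) * (n + 2))) ≤ t * (1 / (n : ℝ) ^ 2) :=
        mul_le_mul_of_nonneg_left (h1.trans h3) ht.le
    _ = t / (n : ℝ) ^ 2 := by ring

/-- Third differences from below.

Proof. `(th n - th (n+1)) - (th (n+1) - th (n+2)) = t log ((n+1)^3 (n+3)/(n (n+2)^3))` and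
`(n+1)^3 (n+3) - n (n+2)^3 = 2n + 3`. `log x ≥ 1 - 1/x`: `(2n+3)/((n+1)^3 (n+3)) ≥ 1/(n+1)^3`. -/
theorem gap3_low (t : ℝ) (ht : 0 < t) (n : ℕ) (hn : 1 ≤ n) :
    t / ((n : ℝ) + 1) ^ 3 ≤ (th t n - th t (n + 1)) - (th t (n + 1) - th t (n + 2)) := by
  have hn0 : (0 : ℝ) < n := by exact_mod_cast hn
  rw [W4_three t n hn]
  have h1 := Real.one_sub_inv_le_log_of_pos
    (show 0 < ((n : ℝ) + 1) ^ 3 * (n + 3) / ((n : ℝ) * (n + 2) ^ 3) by positivity)
  have h2 : 1 - (((n : ℝ) + 1) ^ 3 * (n + 3) / ((n : ℝ) * (n + 2) ^ 3))⁻¹ =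
      (2 * n + 3) / (((n : ℝ) + 1) ^ 3 * (n + 3)) := by
    rw [inv_div]
    field_simp
    ring
  have h3 : 1 / ((n : ℝ) + 1) ^ 3 ≤ (2 * n + 3) / (((n : ℝ) + 1) ^ 3 * (n + 3)) := by
    rw [div_le_div_iff₀ (by positivity) (by positivity)]
    have h4 : (0 : ℝ) ≤ ((n : ℝ) + 1) ^ 3 * n := by positivity
    nlinarith
  rw [h2] at h1
  calc t / ((n : ℝ) + 1) ^ 3 = t * (1 / ((n : ℝ) + 1) ^ 3) := by ring
    _ ≤ _ := mul_le_mul_of_nonneg_left (h3.trans h1) ht.le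

/-- Third differences from above.

Proof. `log x ≤ x - 1`: `(2n+3)/(n (n+2)^3) ≤ 2/(n (n+2)^2) ≤ 2/n^3`. -/
theorem gap3_up (t : ℝ) (ht : 0 < t) (n : ℕ) (hn : 1 ≤ n) :
    (th t n - th t (n + 1)) - (th t (n + 1) - th t (n + 2)) ≤ 2 * t / (n : ℝ) ^ 3 := by
  have hn0 : (0 : ℝ) < n := by exact_mod_cast hn
  rw [W4_three t n hn]
  have h1 := Real.log_le_sub_one_of_pos
    (show 0 < ((n : ℝ) + 1) ^ 3 * (n + 3) / ((n : ℝ) * (n + 2) ^ 3) by positivity)
  have h2 : ((n : ℝ) + 1) ^ 3 * (n + 3) / ((n : ℝ) * (n + 2) ^ 3) - 1 =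
      (2 * n + 3) / ((n : ℝ) * (n + 2) ^ 3) := by
    field_simp
    ring
  have h3 : (2 * n + 3) / ((n : ℝ) * (n + 2) ^ 3) ≤ 2 / (n : ℝ) ^ 3 := by
    rw [div_le_div_iff₀ (by positivity) (by positivity)]
    have h4 : (0 : ℝ) ≤ (n : ℝ) ^ 3 := by positivity
    have h5 : (0 : ℝ) ≤ (n : ℝ) ^ 2 := by positivity
    nlinarith
  rw [h2] at h1
  calc t * Real.log (((n : ℝ) + 1) ^ 3 * (n + 3) / ((n : ℝ) * (n + 2) ^ 3))
      ≤ t * (2 / (n : ℝ) ^ 3) := mul_le_mul_of_nonneg_left (h1.trans h3) ht.le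
    _ = 2 * t / (n : ℝ) ^ 3 := by ring

/-- The differences `φ_n = th n - th (n+h)`: gaps.

Proof. With `g_m = th m - th (m+1)`: `φ_n = ∑_{j < h} g_{n+j}` (telescoping, `Finset.sum_range_sub'`), so `φ_n - φ_{n+1} = g_n - g_{n+h} =
∑_{j < h} (g_{n+j} - g_{n+j+1})`, `h` terms, each between `t/(n+j+1)^3 ≥ t/(2N)^3` (as `n + j + 1 ≤ n + h ≤ 2N`) and
`2t/(n+j)^3 ≤ 2t/N^3` (`gap3_low`, `gap3_up`). -/
theorem gaph (t : ℝ) (ht : 0 < t) (N n h : ℕ) (hN : 1 ≤ N) (hn : N < n) (hh : n + h ≤ 2 * N) :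
    h * t / (8 * (N : ℝ) ^ 3) ≤ (th t n - th t (n + h)) - (th t (n + 1) - th t (n + 1 + h)) ∧
    (th t n - th t (n + h)) - (th t (n + 1) - th t (n + 1 + h)) ≤ 16 * (h * t / (8 * (N : ℝ) ^ 3)) := by
  have hN0 : (0 : ℝ) < N := by exact_mod_cast hN
  have e1 : (th t n - th t (n + h)) - (th t (n + 1) - th t (n + 1 + h)) =
      ∑ j ∈ Finset.range h, ((th t (n + j) - th t (n + j + 1)) -
        (th t (n + j + 1) - th t (n + j + 2))) := by
    have h1 := Finset.sum_range_sub' (fun j => th t (n + j) - th t (n + j + 1)) h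
    have h2 : ∑ j ∈ Finset.range h, ((th t (n + j) - th t (n + j + 1)) -
        (th t (n + j + 1) - th t (n + j + 2))) = (th t (n + 0) - th t (n + 0 + 1)) -
          (th t (n + h) - th t (n + h + 1)) := h1
    rw [h2, show n + 1 + h = n + h + 1 by ring, Nat.add_zero]
    ring_nf
  rw [e1]
  have hlow : ∀ j ∈ Finset.range h, t / (8 * (N : ℝ) ^ 3) ≤
      (th t (n + j) - th t (n + j + 1)) - (th t (n + j + 1) - th t (n + j + 2)) := by
    intro j hj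
    have hj' := Finset.mem_range.1 hj
    have h1 := gap3_low t ht (n + j) (by omega)
    refine le_trans ?_ h1
    have h2 : (((n + j : ℕ) : ℝ) + 1) ≤ 2 * N := by
      have : n + j + 1 ≤ 2 * N := by omega
      exact_mod_cast this
    have h3 : (0 : ℝ) < ((n + j : ℕ) : ℝ) + 1 := by positivity
    have h4 : (((n + j : ℕ) : ℝ) + 1) ^ 3 ≤ 8 * (N : ℝ) ^ 3 := by
      calc (((n + j : ℕ) : ℝ) + 1) ^ 3 ≤ (2 * (N : ℝ)) ^ 3 := pow_le_pow_left₀ h3.le h2 3
        _ = 8 * (N : ℝ) ^ 3 := by ring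
    exact div_le_div_of_nonneg_left ht.le (by positivity) h4
  have hup : ∀ j ∈ Finset.range h, (th t (n + j) - th t (n + j + 1)) -
      (th t (n + j + 1) - th t (n + j + 2)) ≤ 16 * (t / (8 * (N : ℝ) ^ 3)) := by
    intro j hj
    have h1 := gap3_up t ht (n + j) (by omega)
    refine h1.trans ?_
    have h2 : (N : ℝ) ≤ ((n + j : ℕ) : ℝ) := by
      have : N ≤ n + j := by omega
      exact_mod_cast this
    have h4 : (N : ℝ) ^ 3 ≤ ((n + j : ℕ) : ℝ) ^ 3 := pow_le_pow_left₀ hN0.le h2 3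
    calc 2 * t / ((n + j : ℕ) : ℝ) ^ 3 ≤ 2 * t / (N : ℝ) ^ 3 :=
          div_le_div_of_nonneg_left (by positivity) (by positivity) h4
      _ = 16 * (t / (8 * (N : ℝ) ^ 3)) := by
          field_simp
          ring
  constructor
  · calc h * t / (8 * (N : ℝ) ^ 3) = ∑ _j ∈ Finset.range h, t / (8 * (N : ℝ) ^ 3) := by
          rw [Finset.sum_const, Finset.card_range, nsmul_eq_mul]
          ring
      _ ≤ _ := Finset.sum_le_sum hlow
  · calc _ ≤ ∑ _j ∈ Finset.range h, 16 * (t / (8 * (N : ℝ) ^ 3)) := Finset.sum_le_sum hup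
      _ = 16 * (h * t / (8 * (N : ℝ) ^ 3)) := by
          rw [Finset.sum_const, Finset.card_range, nsmul_eq_mul]
          ring

end Pool.Agent.Lib.H31P
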