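import Pool.Agent.Lib.H31P.W0

/-!
# Chunk W5 (M): van der Corput's inequality
-/

open Finset

namespace Pool.Agent.Lib.H31P

/-- Shifting a function with support in `(N, N']`. -/
private lemma W5_shift (f : ℕ → ℂ) (N N' H j : ℕ) (hj : j < H) (hHN : H ≤ N)
    (hf : ∀ n, n ∉ Ioc N N' → f n = 0) :
    ∑ m ∈ Ioc (N - H) N', f (m + j) = ∑ n ∈ Ioc N N', f n := by
  have h1 : ∑ m ∈ Ioc (N - H) N', f (m + j) = ∑ n ∈ Ioc (N - H + j) (N' + j), f n := by
    rw [← Finset.map_add_right_Ioc, Finset.sum_map]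
    rfl
  rw [h1]
  symm
  refine Finset.sum_subset ?_ ?_
  · intro n hn
    rw [mem_Ioc] at hn ⊢
    omega
  · intro n _ hn
    exact hf n hn

/-- The truncated function. -/
private def W5b (a : ℕ → ℂ) (N N' : ℕ) (n : ℕ) : ℂ := if n ∈ Ioc N N' then a n else 0

private lemma W5b_out (a : ℕ → ℂ) (N N' n : ℕ) (hn : n ∉ Ioc N N') : W5b a N N' n = 0 := if_neg hn

private lemma W5b_in (a : ℕ → ℂ) (N N' n : ℕ) (hn : n ∈ Ioc N N') : W5b a N N' n = a n := if_pos hn

/-- The correlations. -/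
private def W5C (a : ℕ → ℂ) (N N' H j j' : ℕ) : ℂ :=
  ∑ m ∈ Ioc (N - H) N', W5b a N N' (m + j) * (starRingEnd ℂ) (W5b a N N' (m + j'))

private lemma W5C_conj (a : ℕ → ℂ) (N N' H j j' : ℕ) :
    W5C a N N' H j' j = (starRingEnd ℂ) (W5C a N N' H j j') := by
  unfold W5C
  rw [map_sum]
  refine sum_congr rfl ?_
  intro m _
  rw [map_mul, Complex.conj_conj]
  ring

private lemma W5C_diag (a : ℕ → ℂ) (N N' H j : ℕ) (hN : N ≤ N') (h2 : N' ≤ 2 * N) (hj : j < H)
    (hHN : H ≤ N) (ha : ∀ n, ‖a n‖ = 1) : ‖W5C a N N' H j j‖ ≤ N := by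
  have h1 : W5C a N N' H j j = ∑ n ∈ Ioc N N', W5b a N N' n * (starRingEnd ℂ) (W5b a N N' n) := by
    unfold W5C
    exact W5_shift (fun n => W5b a N N' n * (starRingEnd ℂ) (W5b a N N' n)) N N' H j hj hHN
      (fun n hn => by simp only [W5b_out a N N' n hn, zero_mul])
  rw [h1]
  refine (norm_sum_le _ _).trans ?_
  have h3 : ∀ n ∈ Ioc N N', ‖W5b a N N' n * (starRingEnd ℂ) (W5b a N N' n)‖ = 1 := by
    intro n hn
    rw [W5b_in a N N' n hn, norm_mul, RCLike.norm_conj, ha, mul_one]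
  rw [sum_congr rfl h3]
  simp only [sum_const, Nat.card_Ioc, nsmul_eq_mul, mul_one]
  have : N' - N ≤ N := by omega
  exact_mod_cast this

private lemma W5C_off (a : ℕ → ℂ) (N N' H j j' : ℕ) (hjj : j' < j) (hj : j < H) (hHN : H ≤ N) :
    W5C a N N' H j j' = ∑ n ∈ Ioc N (N' - (j - j')), a (n + (j - j')) * (starRingEnd ℂ) (a n) := by
  have h1 : W5C a N N' H j j' =
      ∑ n ∈ Ioc N N', W5b a N N' (n + (j - j')) * (starRingEnd ℂ) (W5b a N N' n) := by
    unfold W5C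
    rw [← W5_shift (fun n => W5b a N N' (n + (j - j')) * (starRingEnd ℂ) (W5b a N N' n)) N N' H j'
      (by omega) hHN (fun n hn => by simp only [W5b_out a N N' n hn, map_zero, mul_zero])]
    refine sum_congr rfl ?_
    intro m _
    have : m + j' + (j - j') = m + j := by omega
    rw [this]
  rw [h1]
  symm
  have hsub : Ioc N (N' - (j - j')) ⊆ Ioc N N' := by
    intro n hn
    rw [mem_Ioc] at hn ⊢
    omega
  rw [← Finset.sum_subset hsub]
  · refine sum_congr rfl ?_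
    intro n hn
    rw [mem_Ioc] at hn
    rw [W5b_in a N N' n (by rw [mem_Ioc]; omega), W5b_in a N N' (n + (j - j')) (by rw [mem_Ioc]; omega)]
  · intro n hn hn'
    rw [mem_Ioc] at hn hn'
    rw [W5b_out a N N' (n + (j - j')) (by rw [mem_Ioc]; omega), zero_mul]

private lemma W5_rowsum (H : ℕ) (A : ℝ) (K : ℕ → ℝ) (hK : ∀ h, 1 ≤ h → h < H → 0 ≤ K h) (j : ℕ)
    (hj : j < H) :
    ∑ j' ∈ range H, (if j' = j then A else if j' < j then K (j - j') else K (j' - j)) ≤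
      A + 2 * ∑ h ∈ Ico 1 H, K h := by
  have hsplit : range H = (range j) ∪ ({j} ∪ Ico (j + 1) H) := by
    ext x
    simp only [mem_range, mem_union, mem_singleton, mem_Ico]
    omega
  have hd1 : Disjoint (range j) ({j} ∪ Ico (j + 1) H) := by
    rw [Finset.disjoint_left]
    intro x hx hx'
    simp only [mem_range, mem_union, mem_singleton, mem_Ico] at hx hx'
    omega
  have hd2 : Disjoint ({j} : Finset ℕ) (Ico (j + 1) H) := by
    rw [Finset.disjoint_left]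
    intro x hx hx'
    simp only [mem_singleton, mem_Ico] at hx hx'
    omega
  rw [hsplit, sum_union hd1, sum_union hd2, sum_singleton, if_pos rfl]
  have e1 : ∑ j' ∈ range j, (if j' = j then A else if j' < j then K (j - j') else K (j' - j)) =
      ∑ h ∈ Ico 1 (j + 1), K h := by
    refine Finset.sum_nbij' (fun j' => j - j') (fun h => j - h) ?_ ?_ ?_ ?_ ?_
    · intro x hx; simp only [mem_range, mem_Ico] at hx ⊢; omega
    · intro x hx; simp only [mem_range, mem_Ico] at hx ⊢; omega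
    · intro x hx; simp only [mem_range] at hx ⊢; omega
    · intro x hx; simp only [mem_Ico] at hx ⊢; omega
    · intro x hx
      simp only [mem_range] at hx
      rw [if_neg (by omega), if_pos hx]
  have e2 : ∑ j' ∈ Ico (j + 1) H, (if j' = j then A else if j' < j then K (j - j') else K (j' - j)) =
      ∑ h ∈ Ico 1 (H - j), K h := by
    refine Finset.sum_nbij' (fun j' => j' - j) (fun h => h + j) ?_ ?_ ?_ ?_ ?_
    · intro x hx; simp only [mem_Ico] at hx ⊢; omega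
    · intro x hx; simp only [mem_Ico] at hx ⊢; omega
    · intro x hx; simp only [mem_Ico] at hx ⊢; omega
    · intro x hx; simp only [mem_Ico] at hx ⊢; omega
    · intro x hx
      simp only [mem_Ico] at hx
      rw [if_neg (by omega), if_neg (by omega)]
  rw [e1, e2]
  have f1 : ∑ h ∈ Ico 1 (j + 1), K h ≤ ∑ h ∈ Ico 1 H, K h := by
    refine Finset.sum_le_sum_of_subset_of_nonneg ?_ ?_
    · intro x hx; simp only [mem_Ico] at hx ⊢; omega
    · intro x hx _; simp only [mem_Ico] at hx; exact hK x hx.1 hx.2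
  have f2 : ∑ h ∈ Ico 1 (H - j), K h ≤ ∑ h ∈ Ico 1 H, K h := by
    refine Finset.sum_le_sum_of_subset_of_nonneg ?_ ?_
    · intro x hx; simp only [mem_Ico] at hx ⊢; omega
    · intro x hx _; simp only [mem_Ico] at hx; exact hK x hx.1 hx.2
  linarith

/-- **Van der Corput's inequality.** (For `h > N' - N` the sum in `hK` is empty.)

Proof. Let `b n = a n` for `n ∈ Ioc N N'`, otherwise `0`, and `T m = ∑_{j < H} b (m + j)`. `b (m + j) ≠ 0` and `j < H ≤ N` imply
`N - H < m ≤ N'`. Hence `∑_{m ∈ Ioc (N-H) N'} T m = ∑_{j < H} ∑_m b (m + j) = H S`, `S` the sum of the theorem (for fixed `j` the map `m ↦ m + j` is injective and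
covers `Ioc N N'` because `N - j ≥ N - H + 1`, natural numbers: `j < H ≤ N`). Cauchy-Schwarz (`Finset.sum_mul_sq_le_sq_mul_sq` or
`inner_mul_le_norm_mul_norm`; for norms: `(∑ ‖T m‖)^2 ≤ card · ∑ ‖T m‖^2`, `sq_sum_le_card_mul_sum_sq`), the number of the `m` is `N' - (N - H) ≤ N + H ≤ 2N`:
`H^2 ‖S‖^2 ≤ 2N ∑_m ‖T m‖^2`. Expand: `∑_m ‖T m‖^2 = ∑_{j, j' < H} ∑_m b (m + j) conj (b (m + j'))` (as complex numbers). For `j = j'` the inner sum is
`∑ ‖a n‖^2 ≤ N' - N ≤ N`. For `j > j'`, `h = j - j'`: it is `∑_n b (n + h) conj (b n)` over `n ∈ Ioc N N'` (`n = m + j'`), equal to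
`∑_{n ∈ Ioc N (N' - h)} a (n + h) conj (a n)`: norm at most `K h`; for `j < j'` it is the conjugate of such a sum. So
`∑_m ‖T m‖^2 ≤ H N + ∑_{j ≠ j'} K |j - j'| ≤ H N + 2 H ∑_{1 ≤ h < H} K h`
(for every `j` the `j' ≠ j` with `|j - j'| = h` are at most two; the `K h` are `≥ 0`, `1 ≤ h < H`). Divide by `H^2`. -/
theorem vdc (a : ℕ → ℂ) (N N' H : ℕ) (hN : N ≤ N') (h2 : N' ≤ 2 * N) (hH : 1 ≤ H) (hHN : H ≤ N)
    (ha : ∀ n, ‖a n‖ = 1) (K : ℕ → ℝ)
    (hK : ∀ h, 1 ≤ h → h < H → ‖∑ n ∈ Ioc N (N' - h), a (n + h) * (starRingEnd ℂ) (a n)‖ ≤ K h) :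
    ‖∑ n ∈ Ioc N N', a n‖ ^ 2 ≤ 2 * N / H * (N + 2 * ∑ h ∈ Ico 1 H, K h) := by
  set b := W5b a N N' with hb
  set T : ℕ → ℂ := fun m => ∑ j ∈ range H, b (m + j) with hT
  set D := Ioc (N - H) N' with hD
  set S := ∑ n ∈ Ioc N N', a n with hS
  set SK := ∑ h ∈ Ico 1 H, K h with hSK
  have hHr : (0 : ℝ) < H := by exact_mod_cast (by omega : 0 < H)
  have hSb : S = ∑ n ∈ Ioc N N', b n := sum_congr rfl fun n hn => (W5b_in a N N' n hn).symm
  have hsum : ∑ m ∈ D, T m = (H : ℂ) * S := by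
    rw [hT]
    dsimp only
    rw [sum_comm]
    have : ∀ j ∈ range H, ∑ m ∈ D, b (m + j) = S := by
      intro j hj
      rw [hSb]
      exact W5_shift b N N' H j (mem_range.mp hj) hHN (fun n hn => W5b_out a N N' n hn)
    rw [sum_congr rfl this]
    simp
  have hcard : (D.card : ℝ) ≤ 2 * N := by
    rw [hD, Nat.card_Ioc]
    have : N' - (N - H) ≤ 2 * N := by omega
    exact_mod_cast this
  have hcs : ((H : ℝ) * ‖S‖) ^ 2 ≤ 2 * N * ∑ m ∈ D, ‖T m‖ ^ 2 := by
    have h1 : (H : ℝ) * ‖S‖ ≤ ∑ m ∈ D, ‖T m‖ := by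
      have : (H : ℝ) * ‖S‖ = ‖∑ m ∈ D, T m‖ := by
        rw [hsum, norm_mul, Complex.norm_natCast]
      rw [this]
      exact norm_sum_le _ _
    have h3 : ((H : ℝ) * ‖S‖) ^ 2 ≤ (∑ m ∈ D, ‖T m‖) ^ 2 := by
      refine pow_le_pow_left₀ (by positivity) h1 2
    refine h3.trans (sq_sum_le_card_mul_sum_sq.trans ?_)
    exact mul_le_mul_of_nonneg_right hcard (sum_nonneg fun m _ => by positivity)
  have hexp : ((∑ m ∈ D, ‖T m‖ ^ 2 : ℝ) : ℂ) = ∑ j ∈ range H, ∑ j' ∈ range H, W5C a N N' H j j' := by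
    have h1 : ∀ m ∈ D, ((‖T m‖ ^ 2 : ℝ) : ℂ) =
        ∑ j ∈ range H, ∑ j' ∈ range H, b (m + j) * (starRingEnd ℂ) (b (m + j')) := by
      intro m _
      have h4 : ((‖T m‖ ^ 2 : ℝ) : ℂ) = T m * (starRingEnd ℂ) (T m) := by
        rw [Complex.mul_conj, Complex.normSq_eq_norm_sq]
      rw [h4, hT]
      dsimp only
      rw [map_sum, sum_mul_sum]
    rw [Complex.ofReal_sum, sum_congr rfl h1, sum_comm]
    refine sum_congr rfl ?_
    intro j _
    rw [sum_comm]
    rfl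
  have hKn : ∀ h, 1 ≤ h → h < H → 0 ≤ K h := fun h e1 e2 => (norm_nonneg _).trans (hK h e1 e2)
  have hmain : ∑ m ∈ D, ‖T m‖ ^ 2 ≤ H * (N + 2 * SK) := by
    have h0 : (∑ m ∈ D, ‖T m‖ ^ 2) = ‖∑ j ∈ range H, ∑ j' ∈ range H, W5C a N N' H j j'‖ := by
      rw [← hexp, Complex.norm_real, Real.norm_of_nonneg (sum_nonneg fun m _ => by positivity)]
    rw [h0]
    refine (norm_sum_le _ _).trans ?_
    have h1 : ∀ j ∈ range H, ‖∑ j' ∈ range H, W5C a N N' H j j'‖ ≤ N + 2 * SK := by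
      intro j hj
      rw [mem_range] at hj
      refine (norm_sum_le _ _).trans ?_
      refine le_trans (sum_le_sum ?_) (W5_rowsum H N K hKn j hj)
      intro j' hj'
      rw [mem_range] at hj'
      by_cases e1 : j' = j
      · rw [if_pos e1, e1]
        exact W5C_diag a N N' H j hN h2 hj hHN ha
      · rw [if_neg e1]
        by_cases e2 : j' < j
        · rw [if_pos e2, W5C_off a N N' H j j' e2 hj hHN]
          exact hK (j - j') (by omega) (by omega)
        · rw [if_neg e2, W5C_conj a N N' H j' j, RCLike.norm_conj,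
            W5C_off a N N' H j' j (by omega) hj' hHN]
          exact hK (j' - j) (by omega) (by omega)
    refine (sum_le_sum h1).trans ?_
    rw [sum_const, card_range, nsmul_eq_mul]
  have hfin : (H : ℝ) ^ 2 * ‖S‖ ^ 2 ≤ 2 * N * (H * (N + 2 * SK)) := by
    have : (H : ℝ) ^ 2 * ‖S‖ ^ 2 = ((H : ℝ) * ‖S‖) ^ 2 := by ring
    rw [this]
    exact hcs.trans (mul_le_mul_of_nonneg_left hmain (by positivity))
  have hdiv : 2 * (N : ℝ) / H * (N + 2 * SK) = (2 * N * (H * (N + 2 * SK))) / (H : ℝ) ^ 2 := by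
    field_simp
  rw [hdiv, le_div_iff₀ (by positivity)]
  linarith

end Pool.Agent.Lib.H31P
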