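import Pool.Agent.Lib.H31P.W3
import Pool.Agent.Lib.H31P.W4

/-!
# Chunk W6 (S/M): van der Corput's second derivative test for `n^(it)`
-/

open Finset

namespace Pool.Agent.Lib.H31P

/-- Positive `t`. Proof. If `4 N^2 < t` the number of terms is at most `N ≤ √t` (`norm_sum_nit_le`, `Nat.card_Ioc`). Otherwise apply `vc2_seq` with
`a = nit t`, `θ = th t` (`nit_succ`), `l = t/(4 N^2) ≤ 1`, `c = 4`: for `N < n < N' ≤ 2N` `gap2_low` (`n + 1 ≤ 2N`) and `gap2_up` (`n ≥ N`). The bound is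
`12 (N' - N) √l + 26/√l` with `√l = √t/(2N)`: at most `6 √t + 52 N/√t ≤ 58 √t` as `N ≤ t`. -/
theorem vc2_pos (t : ℝ) (N N' : ℕ) (hN : 1 ≤ N) (ht : (N : ℝ) ≤ t) (h1 : N ≤ N') (h2 : N' ≤ 2 * N) :
    ‖∑ n ∈ Ioc N N', nit t n‖ ≤ 58 * √t := by
  have hN1 : (1 : ℝ) ≤ N := by exact_mod_cast hN
  have hN0 : (0 : ℝ) < N := by linarith
  have ht0 : 0 < t := by linarith
  have hs0 : 0 < √t := Real.sqrt_pos.2 ht0
  have hss : √t * √t = t := Real.mul_self_sqrt ht0.le
  have hNN : (N' : ℝ) - N ≤ N := by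
    have : (N' : ℝ) ≤ 2 * N := by exact_mod_cast h2
    linarith
  have hNN0 : (0 : ℝ) ≤ (N' : ℝ) - N := by
    have : (N : ℝ) ≤ N' := by exact_mod_cast h1
    linarith
  rcases lt_or_ge (4 * (N : ℝ) ^ 2) t with hcase | hcase
  · refine (norm_sum_nit_le t _).trans ?_
    rw [Nat.card_Ioc]
    have e1 : ((N' - N : ℕ) : ℝ) = (N' : ℝ) - N := by push_cast [Nat.cast_sub h1]; ring
    rw [e1]
    have e2 : (N : ℝ) ≤ √t := Real.le_sqrt_of_sq_le (by nlinarith)
    linarith
  · have hl0 : 0 < t / (4 * (N : ℝ) ^ 2) := by positivity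
    have hl1 : t / (4 * (N : ℝ) ^ 2) ≤ 1 := by
      rw [div_le_one (by positivity)]
      exact hcase
    have key := vc2_seq (nit t) (th t) N N' (t / (4 * (N : ℝ) ^ 2)) 4 hl0 hl1 (by norm_num) h1
      (norm_nit t) (fun n _ => nit_succ t n) ?_ ?_
    · have hsl : √(t / (4 * (N : ℝ) ^ 2)) = √t / (2 * N) := by
        rw [Real.sqrt_div ht0.le]
        congr 1
        rw [show 4 * (N : ℝ) ^ 2 = (2 * N) ^ 2 by ring]
        exact Real.sqrt_sq (by positivity)
      rw [hsl] at key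
      refine key.trans ?_
      have a1 : 3 * 4 * ((N' : ℝ) - N) * (√t / (2 * N)) ≤ 6 * √t := by
        calc 3 * 4 * ((N' : ℝ) - N) * (√t / (2 * N)) ≤ 3 * 4 * (N : ℝ) * (√t / (2 * N)) := by
              apply mul_le_mul_of_nonneg_right _ (by positivity)
              linarith
          _ = 6 * √t := by
              field_simp
              ring
      have a2 : 26 / (√t / (2 * N)) ≤ 52 * √t := by
        rw [div_div_eq_mul_div, div_le_iff₀ hs0]
        nlinarith
      linarith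
    · intro n hn
      have hn' := mem_Ioo.1 hn
      have g1 := gap2_low t ht0 n (by omega)
      refine le_trans ?_ g1
      apply div_le_div_of_nonneg_left ht0.le (by positivity)
      have h3 : (n : ℝ) + 1 ≤ 2 * N := by
        have : n + 1 ≤ 2 * N := by omega
        exact_mod_cast this
      calc ((n : ℝ) + 1) ^ 2 ≤ (2 * (N : ℝ)) ^ 2 := pow_le_pow_left₀ (by positivity) h3 2
        _ = 4 * (N : ℝ) ^ 2 := by ring
    · intro n hn
      have hn' := mem_Ioo.1 hn
      have g1 := gap2_up t ht0 n (by omega)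
      refine g1.trans ?_
      have h3 : (N : ℝ) ≤ n := by
        have : N ≤ n := by omega
        exact_mod_cast this
      have e : 4 * (t / (4 * (N : ℝ) ^ 2)) = t / (N : ℝ) ^ 2 := by
        field_simp
      rw [e]
      apply div_le_div_of_nonneg_left ht0.le (by positivity)
      exact pow_le_pow_left₀ hN0.le h3 2

/-- Proof. `sum_nit_eq`, `norm_sum_nit_abs`, `vc2_pos` for `|t|`, `Real.sqrt_eq_rpow`. -/
theorem vc2 : VC2Stm := by
  refine ⟨58, by norm_num, ?_⟩
  intro t N N' hN ht h1 h2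
  rw [sum_nit_eq, ← norm_sum_nit_abs, ← Real.sqrt_eq_rpow]
  exact vc2_pos |t| N N' hN ht h1 h2

end Pool.Agent.Lib.H31P
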