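import Pool.Agent.Lib.H31P.W3
import Pool.Agent.Lib.H31P.W4

/-!
# Chunk W7 (M): correlations of `n^(it)`
-/

open Finset

namespace Pool.Agent.Lib.H31P

private theorem w7_step (t : ℝ) (h n : ℕ) :
    nit t (n + 1) * (starRingEnd ℂ) (nit t (n + 1 + h)) =
      Complex.exp (((th t n - th t (n + h) : ℝ) : ℂ) * Complex.I) *
        (nit t n * (starRingEnd ℂ) (nit t (n + h))) := by
  have e1 : n + 1 + h = n + h + 1 := by omega
  have e2 : (starRingEnd ℂ) (Complex.exp ((th t (n + h) : ℂ) * Complex.I)) =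
      Complex.exp (-((th t (n + h) : ℂ) * Complex.I)) := by
    rw [← Complex.exp_conj, map_mul, Complex.conj_ofReal, Complex.conj_I, mul_neg]
  have e3 : Complex.exp (((th t n - th t (n + h) : ℝ) : ℂ) * Complex.I) =
      Complex.exp ((th t n : ℂ) * Complex.I) * Complex.exp (-((th t (n + h) : ℂ) * Complex.I)) := by
    rw [← Complex.exp_add]
    congr 1
    push_cast
    ring
  rw [e1, nit_succ, nit_succ, map_mul, e2, e3]
  ring

private theorem w7_num1 (y N l : ℝ) (hN : 0 < N) (hy : 0 ≤ y) (hl : l = y / (8 * N ^ 2)) :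
    48 * N * √l ≤ 17 * √y := by
  have hl0 : 0 ≤ l := by rw [hl]; positivity
  have h1 : (48 * N * √l) ^ 2 ≤ (17 * √y) ^ 2 := by
    rw [mul_pow, mul_pow, mul_pow, Real.sq_sqrt hl0, Real.sq_sqrt hy, hl]
    have h2 : 48 ^ 2 * N ^ 2 * (y / (8 * N ^ 2)) = 288 * y := by
      field_simp
      ring
    rw [h2]
    linarith
  exact (pow_le_pow_iff_left₀ (by positivity) (by positivity) two_ne_zero).1 h1

private theorem w7_num2 (z l : ℝ) (hz : 0 < z) (hl : 0 < l) (hzl : z * l = 1 / 8) :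
    26 / √l ≤ 74 * √z := by
  rw [div_le_iff₀ (Real.sqrt_pos.2 hl), mul_assoc, ← Real.sqrt_mul hz.le, hzl]
  have h1 : (26 / 74 : ℝ) ≤ √(1 / 8) := Real.le_sqrt_of_sq_le (by norm_num)
  linarith

/-- Proof. If `N' - h ≤ N` the sum is empty. The conjugate of the sum is `∑ a_n`, `a_n = nit t n * conj (nit t (n + h))`, `|a_n| = 1`,
`a_{n+1} = e^(i(th n - th (n+h))) a_n` (`nit_succ` twice and the conjugate of `e^(ix)` is `e^(-ix)`). Apply `vc2_seq` on `(N, N' - h]` with
`θ_n = th t n - th t (n + h)`, `l = h t/(8 N^3) ≤ 1`, `c = 16` (`gaph`; for `N < n < N' - h` one has `n + h ≤ 2N`). The bound is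
`48 (N' - h - N) √l + 26/√l ≤ 48 N √l + 26/√l`; `N √l = √(h t/N)/√8` with `48/√8 ≤ 17`, and `26/√l = 26 √8 √(N^3/(h t)) ≤ 74 √(N^3/(h t))`. -/
theorem corr (t : ℝ) (N N' h : ℕ) (ht : 0 < t) (hN : 1 ≤ N) (h1 : N ≤ N') (h2 : N' ≤ 2 * N) (hh : 1 ≤ h)
    (hl : h * t ≤ 8 * (N : ℝ) ^ 3) :
    ‖∑ n ∈ Ioc N (N' - h), nit t (n + h) * (starRingEnd ℂ) (nit t n)‖ ≤
      17 * √(h * t / N) + 74 * √((N : ℝ) ^ 3 / (h * t)) := by
  rcases le_or_gt (N' - h) N with hc | hc
  · rw [Finset.Ioc_eq_empty (by omega), Finset.sum_empty, norm_zero]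
    positivity
  have hN0 : (0 : ℝ) < N := by exact_mod_cast hN
  have hh0 : (0 : ℝ) < h := by exact_mod_cast hh
  have hht : 0 < h * t := mul_pos hh0 ht
  set l : ℝ := h * t / (8 * (N : ℝ) ^ 3) with hldef
  have hl0 : 0 < l := by rw [hldef]; positivity
  have hl1 : l ≤ 1 := by
    rw [hldef, div_le_one (by positivity)]
    exact hl
  have hconj : ‖∑ n ∈ Ioc N (N' - h), nit t (n + h) * (starRingEnd ℂ) (nit t n)‖ =
      ‖∑ n ∈ Ioc N (N' - h), nit t n * (starRingEnd ℂ) (nit t (n + h))‖ := by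
    rw [← RCLike.norm_conj (∑ n ∈ Ioc N (N' - h), nit t (n + h) * (starRingEnd ℂ) (nit t n)), map_sum]
    congr 1
    refine Finset.sum_congr rfl fun n _ => ?_
    rw [map_mul, Complex.conj_conj, mul_comm]
  rw [hconj]
  have hmain := vc2_seq (fun n => nit t n * (starRingEnd ℂ) (nit t (n + h)))
    (fun n => th t n - th t (n + h)) N (N' - h) l 16 hl0 hl1 (by norm_num) hc.le
    (fun n => by rw [norm_mul, RCLike.norm_conj, norm_nit, norm_nit, one_mul])
    (fun n _ => w7_step t h n)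
    (fun n hn => by
      rw [mem_Ioo] at hn
      exact (gaph t ht N n h hN hn.1 (by omega)).1)
    (fun n hn => by
      rw [mem_Ioo] at hn
      exact (gaph t ht N n h hN hn.1 (by omega)).2)
  refine hmain.trans (add_le_add ?_ ?_)
  · have e1 : (((N' - h : ℕ) : ℝ) - N) ≤ N := by
      have h3 : N' - h ≤ 2 * N := by omega
      have h4 : ((N' - h : ℕ) : ℝ) ≤ 2 * N := by exact_mod_cast h3
      linarith
    have e2 : 3 * 16 * (((N' - h : ℕ) : ℝ) - N) * √l ≤ 48 * N * √l := by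
      apply mul_le_mul_of_nonneg_right _ (Real.sqrt_nonneg _)
      linarith
    refine e2.trans (w7_num1 (h * t / N) N l hN0 (by positivity) ?_)
    rw [hldef]
    field_simp
  · refine w7_num2 _ l (by positivity) hl0 ?_
    rw [hldef]
    field_simp

end Pool.Agent.Lib.H31P
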