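import Pool.Agent.Lib.H31P.W5
import Pool.Agent.Lib.H31P.W7

/-!
# Chunk W8 (M): Weyl's bound in the middle range
-/

open Finset

namespace Pool.Agent.Lib.H31P

/-- `∑_{1 ≤ h < H} √h ≤ H √H` and `∑_{1 ≤ h < H} 1/√h ≤ 2 √H`.

Proof. The first: every term is at most `√H`. The second: induction on `H` with `1/√H ≤ 2(√(H+1) - √H) + ...`; precisely `2√H + 1/√H ≤ 2√(H+1)` is false,
so prove `∑_{1 ≤ h < H} 1/√h ≤ 2 √(H - 1)`, or `1/√h ≤ 2(√h - √(h-1))` for `h ≥ 1` and telescope. -/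
theorem sum_sqrt (H : ℕ) (hH : 1 ≤ H) :
    ∑ h ∈ Ico 1 H, √(h : ℝ) ≤ H * √(H : ℝ) ∧ ∑ h ∈ Ico 1 H, 1 / √(h : ℝ) ≤ 2 * √(H : ℝ) := by
  constructor
  · have h1 : ∑ h ∈ Ico 1 H, √(h : ℝ) ≤ ∑ _h ∈ Ico 1 H, √(H : ℝ) := by
      refine sum_le_sum fun h hh => Real.sqrt_le_sqrt ?_
      exact_mod_cast (mem_Ico.mp hh).2.le
    refine h1.trans ?_
    rw [sum_const, Nat.card_Ico, nsmul_eq_mul]
    refine mul_le_mul_of_nonneg_right ?_ (Real.sqrt_nonneg _)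
    exact_mod_cast Nat.sub_le _ _
  · have key : ∀ m : ℕ, ∑ h ∈ Ico 1 (m + 1), 1 / √(h : ℝ) ≤ 2 * √(m : ℝ) := by
      intro m
      induction m with
      | zero => simp
      | succ m ih =>
        rw [sum_Ico_succ_top (by omega)]
        have hm : (0 : ℝ) < ((m + 1 : ℕ) : ℝ) := by positivity
        have hs : 0 < √((m + 1 : ℕ) : ℝ) := Real.sqrt_pos.mpr hm
        have hs0 : 0 ≤ √(m : ℝ) := Real.sqrt_nonneg _
        have e1 : √((m + 1 : ℕ) : ℝ) ^ 2 = (m : ℝ) + 1 := by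
          rw [Real.sq_sqrt hm.le]; push_cast; ring
        have e0 : √(m : ℝ) ^ 2 = (m : ℝ) := Real.sq_sqrt (Nat.cast_nonneg m)
        have hle : √(m : ℝ) ≤ √((m + 1 : ℕ) : ℝ) :=
          Real.sqrt_le_sqrt (by push_cast; linarith)
        have h2 : 1 / √((m + 1 : ℕ) : ℝ) ≤ 2 * √((m + 1 : ℕ) : ℝ) - 2 * √(m : ℝ) := by
          rw [div_le_iff₀ hs]
          nlinarith
        linarith
    obtain ⟨m, rfl⟩ : ∃ m, H = m + 1 := ⟨H - 1, by omega⟩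
    refine (key m).trans ?_
    have : √(m : ℝ) ≤ √((m + 1 : ℕ) : ℝ) := Real.sqrt_le_sqrt (by push_cast; linarith)
    linarith

/-- `t = y^3`, `y ≤ N ≤ y^2`.

Proof. `H = ⌈N/y⌉₊`: `1 ≤ H ≤ N`, `N/y ≤ H ≤ 2N/y` (`N/y ≥ 1`). For `1 ≤ h < H`: `h ≤ N/y` (`Nat.lt_ceil`), so `h y^3 ≤ N y^2 ≤ N^3 ≤ 8 N^3` and `corr` applies: `K h = 17 √(h y^3/N) + 74 √(N^3/(h y^3))`
`= 17 √(y^3/N) √h + 74 √(N^3/y^3)/√h`. By `vdc` and `sum_sqrt` the square is at most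
`(2N/H)(N + 34 √(y^3/N) H √H + 296 √(N^3/y^3) √H) = 2N^2/H + 68 N √(H y^3/N) + 592 N √(N^3/(H y^3))`
`≤ 2 N y + 68 √2 N y + 592 N (N/y) ≤ 700 N y` (`N/y ≤ H ≤ 2N/y`: `√(H y^3/N) ≤ √2 y`, `√(N^3/(H y^3)) ≤ N/y ≤ y`). -/
theorem weyl_mid (y : ℝ) (N N' : ℕ) (hy : 1 ≤ y) (h1 : y ≤ N) (h2 : (N : ℝ) ≤ y ^ 2) (h3 : N ≤ N') (h4 : N' ≤ 2 * N) :
    ‖∑ n ∈ Ioc N N', nit (y ^ 3) n‖ ^ 2 ≤ 700 * (N * y) := by
  have hy0 : 0 < y := by linarith
  have hNr : (0 : ℝ) < N := by linarith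
  have hN1 : 1 ≤ N := by
    have : (1 : ℝ) ≤ N := by linarith
    exact_mod_cast this
  set q : ℝ := (N : ℝ) / y with hq
  have hq1 : 1 ≤ q := by rw [hq, le_div_iff₀ hy0]; linarith
  have hq0 : 0 < q := by linarith
  have hqy : q ≤ y := by rw [hq, div_le_iff₀ hy0]; nlinarith
  have hqN : q ≤ N := by rw [hq, div_le_iff₀ hy0]; nlinarith
  have hqe : q * y = N := by rw [hq]; field_simp
  set H : ℕ := ⌈q⌉₊ with hH
  have hqH : q ≤ H := Nat.le_ceil q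
  have hH2 : (H : ℝ) ≤ 2 * q := by
    have := Nat.ceil_lt_add_one hq0.le
    linarith
  have hHN : H ≤ N := Nat.ceil_le.mpr hqN
  have hH1 : 1 ≤ H := by
    have : (1 : ℝ) ≤ H := by linarith
    exact_mod_cast this
  have hHr : (0 : ℝ) < H := by linarith
  set A : ℝ := √(y ^ 3 / N) with hA
  set B : ℝ := √((N : ℝ) ^ 3 / y ^ 3) with hB
  have hA0 : 0 ≤ A := Real.sqrt_nonneg _
  have hB0 : 0 ≤ B := Real.sqrt_nonneg _
  have hvdc := vdc (fun n => nit (y ^ 3) n) N N' H h3 h4 hH1 hHN (fun n => norm_nit _ n)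
    (fun h => 17 * (A * √(h : ℝ)) + 74 * (B * (1 / √(h : ℝ)))) (by
      intro h hh1 hhH
      have hhr : (0 : ℝ) < h := by exact_mod_cast hh1
      have hhq : (h : ℝ) < q := Nat.lt_ceil.mp hhH
      have hle : (h : ℝ) * y ^ 3 ≤ 8 * (N : ℝ) ^ 3 := by
        have e1 : (h : ℝ) * y ^ 3 ≤ q * y ^ 3 := mul_le_mul_of_nonneg_right hhq.le (by positivity)
        have e2 : q * y ^ 3 = N * y ^ 2 := by
          calc q * y ^ 3 = (q * y) * y ^ 2 := by ring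
            _ = N * y ^ 2 := by rw [hqe]
        have e3 : y ^ 2 ≤ (N : ℝ) ^ 2 := by nlinarith
        have e4 : (N : ℝ) * y ^ 2 ≤ N * (N : ℝ) ^ 2 := mul_le_mul_of_nonneg_left e3 hNr.le
        have e5 : (0 : ℝ) < (N : ℝ) ^ 3 := by positivity
        nlinarith
      have hc := corr (y ^ 3) N N' h (by positivity) hN1 h3 h4 hh1 hle
      refine hc.trans (le_of_eq ?_)
      have eA : √((h : ℝ) * y ^ 3 / N) = A * √(h : ℝ) := by
        rw [hA, ← Real.sqrt_mul (by positivity)]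
        congr 1
        field_simp
      have eB : √((N : ℝ) ^ 3 / (h * y ^ 3)) = B * (1 / √(h : ℝ)) := by
        rw [hB, one_div, ← Real.sqrt_inv, ← Real.sqrt_mul (by positivity)]
        congr 1
        field_simp
      rw [eA, eB])
  refine hvdc.trans ?_
  obtain ⟨hs1, hs2⟩ := sum_sqrt H hH1
  have hsum : ∑ h ∈ Ico 1 H, (17 * (A * √(h : ℝ)) + 74 * (B * (1 / √(h : ℝ)))) ≤
      17 * (A * (H * √(H : ℝ))) + 74 * (B * (2 * √(H : ℝ))) := by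
    rw [sum_add_distrib, ← mul_sum, ← mul_sum, ← mul_sum, ← mul_sum]
    have e1 := mul_le_mul_of_nonneg_left hs1 hA0
    have e2 := mul_le_mul_of_nonneg_left hs2 hB0
    linarith
  have hcoef : (0 : ℝ) ≤ 2 * N / H := by positivity
  have hstep : 2 * (N : ℝ) / H * (N + 2 * ∑ h ∈ Ico 1 H, (17 * (A * √(h : ℝ)) + 74 * (B * (1 / √(h : ℝ))))) ≤
      2 * N / H * (N + 2 * (17 * (A * (H * √(H : ℝ))) + 74 * (B * (2 * √(H : ℝ))))) := by
    refine mul_le_mul_of_nonneg_left ?_ hcoef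
    linarith
  refine hstep.trans ?_
  set s : ℝ := √(H : ℝ) with hs
  have hs0 : 0 < s := Real.sqrt_pos.mpr hHr
  have hss : s * s = H := Real.mul_self_sqrt hHr.le
  have hexp : 2 * (N : ℝ) / H * (N + 2 * (17 * (A * (H * s)) + 74 * (B * (2 * s)))) =
      2 * N * (N / H) + 68 * (N * (A * s)) + 592 * (N * (B / s)) := by
    rw [← hss]
    field_simp
    ring
  have hAs : A * s ≤ 1.42 * y := by
    rw [hA, hs, ← Real.sqrt_mul (by positivity)]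
    refine Real.sqrt_le_iff.mpr ⟨by positivity, ?_⟩
    have e1 : y ^ 3 / N * H ≤ y ^ 3 / N * (2 * q) := mul_le_mul_of_nonneg_left hH2 (by positivity)
    have e2 : y ^ 3 / N * (2 * q) = 2 * y ^ 2 := by
      rw [hq]; field_simp
    nlinarith [sq_nonneg y]
  have hBs : B / s ≤ y := by
    rw [hB, hs, ← Real.sqrt_div (by positivity)]
    refine Real.sqrt_le_iff.mpr ⟨by positivity, ?_⟩
    have e1 : (N : ℝ) ^ 3 / y ^ 3 / H ≤ (N : ℝ) ^ 3 / y ^ 3 / q := by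
      apply div_le_div_of_nonneg_left (by positivity) hq0 hqH
    have e2 : (N : ℝ) ^ 3 / y ^ 3 / q = q ^ 2 := by
      rw [hq]; field_simp
    have e3 : q ^ 2 ≤ y ^ 2 := by nlinarith
    linarith
  have hNH : (N : ℝ) / H ≤ y := by
    rw [div_le_iff₀ hHr, ← hqe]
    nlinarith
  rw [hexp]
  have f1 : (N : ℝ) * (N / H) ≤ N * y := mul_le_mul_of_nonneg_left hNH hNr.le
  have f2 : (N : ℝ) * (A * s) ≤ N * (1.42 * y) := mul_le_mul_of_nonneg_left hAs hNr.le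
  have f3 : (N : ℝ) * (B / s) ≤ N * y := mul_le_mul_of_nonneg_left hBs hNr.le
  nlinarith [mul_pos hNr hy0]

end Pool.Agent.Lib.H31P
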