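import Pool.Agent.Lib.H31P.W6
import Pool.Agent.Lib.H31P.W8

/-!
# Chunk W9 (S/M): Weyl's bound
-/

open Finset

namespace Pool.Agent.Lib.H31P

/-- Proof. `t ≥ N ≥ 1`, `y = t^(1/3)`, `y^3 = t`. `N ≤ y`: the number of terms is at most `N = N^(1/2) N^(1/2) ≤ N^(1/2) y^(1/2)`.
`y ≤ N ≤ y^2`: `weyl_mid`, `√(700 N y) ≤ 27 N^(1/2) y^(1/2)`. `N > y^2`: `vc2_pos`, `58 √t = 58 y y^(1/2) ≤ 58 N^(1/2) y^(1/2)`. -/
theorem weyl_pos (t : ℝ) (N N' : ℕ) (hN : 1 ≤ N) (ht : (N : ℝ) ≤ t) (h1 : N ≤ N') (h2 : N' ≤ 2 * N) :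
    ‖∑ n ∈ Ioc N N', nit t n‖ ≤ 58 * ((N : ℝ) ^ (1 / 2 : ℝ) * t ^ (1 / 6 : ℝ)) := by
  have hN1 : (1 : ℝ) ≤ N := by exact_mod_cast hN
  have ht1 : 1 ≤ t := hN1.trans ht
  have ht0 : 0 ≤ t := by linarith
  obtain ⟨y, hy⟩ : ∃ y : ℝ, y = t ^ (1 / 3 : ℝ) := ⟨_, rfl⟩
  have hy1 : 1 ≤ y := by rw [hy]; exact Real.one_le_rpow ht1 (by norm_num)
  have hy3 : y ^ 3 = t := by
    rw [hy, ← Real.rpow_natCast, ← Real.rpow_mul ht0]
    norm_num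
  have h6 : t ^ (1 / 6 : ℝ) = √y := by
    rw [hy, Real.sqrt_eq_rpow, ← Real.rpow_mul ht0]
    norm_num
  rw [h6, ← Real.sqrt_eq_rpow]
  have hs0 : 0 ≤ √(N : ℝ) * √y := by positivity
  rcases le_or_gt (N : ℝ) y with hc | hc
  · have h3 : ‖∑ n ∈ Ioc N N', nit t n‖ ≤ N := by
      refine (norm_sum_nit_le t _).trans ?_
      rw [Nat.card_Ioc]
      exact_mod_cast (by omega : N' - N ≤ N)
    have h4 : (N : ℝ) = √(N : ℝ) * √(N : ℝ) := (Real.mul_self_sqrt (by linarith)).symm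
    have h5 : √(N : ℝ) * √(N : ℝ) ≤ √(N : ℝ) * √y :=
      mul_le_mul_of_nonneg_left (Real.sqrt_le_sqrt hc) (Real.sqrt_nonneg _)
    linarith
  rcases le_or_gt (N : ℝ) (y ^ 2) with hd | hd
  · have h3 := weyl_mid y N N' hy1 hc.le hd h1 h2
    rw [hy3] at h3
    have h4 : (√(N : ℝ) * √y) ^ 2 = N * y := by
      rw [mul_pow, Real.sq_sqrt (by linarith), Real.sq_sqrt (by linarith)]
    have h5 : ‖∑ n ∈ Ioc N N', nit t n‖ ≤ 58 * (√(N : ℝ) * √y) := by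
      refine le_of_sq_le_sq ?_ (by positivity)
      rw [mul_pow, h4]
      have h6 : 0 ≤ (N : ℝ) * y := by positivity
      linarith
    exact h5
  · have h3 := vc2_pos t N N' hN ht h1 h2
    have h4 : √t = y * √y := by
      rw [← hy3, show y ^ 3 = y ^ 2 * y by ring, Real.sqrt_mul (by positivity), Real.sqrt_sq (by linarith)]
    have h5 : y ≤ √(N : ℝ) := Real.le_sqrt_of_sq_le hd.le
    have h6 : y * √y ≤ √(N : ℝ) * √y := mul_le_mul_of_nonneg_right h5 (Real.sqrt_nonneg _)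
    rw [h4] at h3
    linarith

/-- Proof. `sum_nit_eq`, `norm_sum_nit_abs`, `weyl_pos` for `|t|`. -/
theorem weyl : WeylStm := by
  refine ⟨58, by norm_num, fun t N N' hN ht h1 h2 => ?_⟩
  rw [sum_nit_eq, ← norm_sum_nit_abs]
  exact weyl_pos |t| N N' hN ht h1 h2

end Pool.Agent.Lib.H31P
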